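import Mathlib

set_option autoImplicit false
open MeasureTheory Complex Set Filter Topology
open scoped ENNReal NNReal ComplexConjugate

namespace Pool.Agent.Helper66.Berg

noncomputable section

/-- Rotation invariance of a measure on the plane. -/
def RotInv (μ : Measure ℂ) : Prop :=
  ∀ c : ℂ, ‖c‖ = 1 → Measure.map (fun z : ℂ => c * z) μ = μ

lemma volume_rotInv : RotInv (volume : Measure ℂ) := by
  intro c hc
  have h := (rotation ⟨c, by simpa [Submonoid.unitSphere] using hc⟩).measurePreserving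
  exact h.map_eq

lemma restrict_ball_rotInv : RotInv (volume.restrict (Metric.ball (0:ℂ) 1)) := by
  intro c hc
  have h : MeasurePreserving (fun z : ℂ => c * z) volume volume :=
    ⟨by fun_prop, volume_rotInv c hc⟩
  have h2 := h.restrict_preimage (s := Metric.ball (0:ℂ) 1) measurableSet_ball
  have h3 : (fun z : ℂ => c * z) ⁻¹' (Metric.ball (0:ℂ) 1) = Metric.ball (0:ℂ) 1 := by
    ext z; simp [hc]
  rw [h3] at h2
  exact h2.map_eq

lemma withDensity_rotInv {μ : Measure ℂ} (hμ : RotInv μ) {φ : ℂ → ℝ≥0∞} (hφ : Measurable φ)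
    (hr : ∀ c z : ℂ, ‖c‖ = 1 → φ (c * z) = φ z) : RotInv (μ.withDensity φ) := by
  intro c hc
  ext s hs
  have hm : Measurable (fun z : ℂ => c * z) := by fun_prop
  rw [Measure.map_apply hm hs, withDensity_apply _ (hm hs), withDensity_apply _ hs]
  calc ∫⁻ a in (fun z => c * z) ⁻¹' s, φ a ∂μ = ∫⁻ a in (fun z => c * z) ⁻¹' s, φ (c * a) ∂μ := by
        simp [hr _ _ hc]
    _ = ∫⁻ a in s, φ a ∂(Measure.map (fun z : ℂ => c * z) μ) := by
        rw [setLIntegral_map hs hφ hm]
    _ = _ := by rw [hμ c hc]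

/-- the moments of a measure -/
def mom (μ : Measure ℂ) (n : ℕ) : ℝ := ∫ z, ‖z‖ ^ (2 * n) ∂μ

lemma orth {μ : Measure ℂ} (hμ : RotInv μ) {m n : ℕ} (hmn : m ≠ n) :
    ∫ z, z ^ m * conj z ^ n ∂μ = 0 := by
  set J := ∫ z, z ^ m * conj z ^ n ∂μ with hJ
  -- choose c with c^m * conj c^n = -1
  obtain ⟨c, hc, hc2⟩ : ∃ c : ℂ, ‖c‖ = 1 ∧ c ^ m * conj c ^ n = -1 := by
    refine ⟨Complex.exp ((Real.pi / ((m:ℝ) - n) : ℝ) * I), ?_, ?_⟩
    · exact Complex.norm_exp_ofReal_mul_I _
    · rw [← Complex.exp_conj, ← Complex.exp_nat_mul, ← Complex.exp_nat_mul, ← Complex.exp_add]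
      have hne : ((m:ℂ) - n) ≠ 0 := by
        rw [sub_ne_zero]; exact_mod_cast hmn
      rw [← Complex.exp_pi_mul_I]
      congr 1
      simp only [map_mul, Complex.conj_ofReal, Complex.conj_I]
      push_cast
      field_simp
      ring
  have h1 : J = ∫ z, (c * z) ^ m * conj (c * z) ^ n ∂μ := by
    have hm : Measurable (fun z : ℂ => c * z) := by fun_prop
    rw [hJ]
    conv_lhs => rw [← hμ c hc]
    rw [integral_map hm.aemeasurable]
    exact Continuous.aestronglyMeasurable (by fun_prop)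
  have h2 : ∫ z, (c * z) ^ m * conj (c * z) ^ n ∂μ = (c ^ m * conj c ^ n) * J := by
    rw [hJ, ← integral_const_mul]
    congr 1
    ext z
    simp only [map_mul, mul_pow]
    ring
  rw [h2, hc2] at h1
  have : J + J = 0 := by linear_combination h1
  simpa using this

lemma diag {μ : Measure ℂ} (m : ℕ) : ∫ z, z ^ m * conj z ^ m ∂μ = (mom μ m : ℂ) := by
  rw [mom, ← integral_complex_ofReal]
  congr 1
  ext z
  rw [← mul_pow, Complex.mul_conj, Complex.normSq_eq_norm_sq]
  push_cast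
  ring

end

end Pool.Agent.Helper66.Berg
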