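import Pool.Agent.Helper66.BergA

set_option autoImplicit false
open MeasureTheory Complex Set Filter Topology
open scoped ENNReal NNReal ComplexConjugate

namespace Pool.Agent.Helper66.Berg

noncomputable section

variable {μ : Measure ℂ}

lemma int_pow [IsFiniteMeasure μ] (hs : ∀ᵐ z ∂μ, ‖z‖ < 1) (m n : ℕ) :
    Integrable (fun z : ℂ => z ^ m * conj z ^ n) μ := by
  refine Integrable.of_bound (Continuous.aestronglyMeasurable (by fun_prop)) 1 ?_
  filter_upwards [hs] with z hz
  rw [norm_mul, norm_pow, norm_pow, RCLike.norm_conj]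
  exact mul_le_one₀ (pow_le_one₀ (norm_nonneg _) hz.le) (by positivity)
    (pow_le_one₀ (norm_nonneg _) hz.le)

lemma int_norm_pow [IsFiniteMeasure μ] (hs : ∀ᵐ z ∂μ, ‖z‖ < 1) (m : ℕ) :
    Integrable (fun z : ℂ => ‖z‖ ^ m) μ := by
  refine Integrable.of_bound (Continuous.aestronglyMeasurable (by fun_prop)) 1 ?_
  filter_upwards [hs] with z hz
  rw [norm_pow, norm_norm]
  exact pow_le_one₀ (norm_nonneg _) hz.le

lemma sum_sq [IsFiniteMeasure μ] (hμ : RotInv μ) (hs : ∀ᵐ z ∂μ, ‖z‖ < 1) (q : ℕ → ℂ) (M : ℕ) :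
    ∫ z, ‖∑ m ∈ Finset.range M, q m * z ^ m‖ ^ 2 ∂μ
      = ∑ m ∈ Finset.range M, ‖q m‖ ^ 2 * mom μ m := by
  have h1 : ((∫ z, ‖∑ m ∈ Finset.range M, q m * z ^ m‖ ^ 2 ∂μ : ℝ) : ℂ)
      = ∫ z, (∑ m ∈ Finset.range M, ∑ n ∈ Finset.range M,
          (q m * conj (q n)) * (z ^ m * conj z ^ n)) ∂μ := by
    rw [← integral_complex_ofReal]
    congr 1
    ext z
    push_cast
    rw [← Complex.mul_conj', map_sum, Finset.sum_mul_sum]
    refine Finset.sum_congr rfl fun m _ => Finset.sum_congr rfl fun n _ => ?_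
    simp only [map_mul, map_pow]
    ring
  have h2 : ∫ z, (∑ m ∈ Finset.range M, ∑ n ∈ Finset.range M,
          (q m * conj (q n)) * (z ^ m * conj z ^ n)) ∂μ
      = ∑ m ∈ Finset.range M, ∑ n ∈ Finset.range M,
          (q m * conj (q n)) * ∫ z, (z ^ m * conj z ^ n) ∂μ := by
    rw [integral_finsetSum]
    · refine Finset.sum_congr rfl fun m _ => ?_
      rw [integral_finsetSum]
      · refine Finset.sum_congr rfl fun n _ => ?_
        rw [integral_const_mul]
      · intro n _
        exact (int_pow hs m n).const_mul _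
    · intro m _
      exact integrable_finsetSum _ fun n _ => (int_pow hs m n).const_mul _
  have h3 : ∑ m ∈ Finset.range M, ∑ n ∈ Finset.range M,
          (q m * conj (q n)) * ∫ z, (z ^ m * conj z ^ n) ∂μ
      = ((∑ m ∈ Finset.range M, ‖q m‖ ^ 2 * mom μ m : ℝ) : ℂ) := by
    push_cast
    refine Finset.sum_congr rfl fun m hm => ?_
    rw [Finset.sum_eq_single_of_mem m hm]
    · rw [diag, Complex.mul_conj']
    · intro n _ hne
      rw [orth hμ (Ne.symm hne), mul_zero]
  rw [h2, h3] at h1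
  exact_mod_cast h1

/-- Bessel inequality for the monomials. -/
lemma bessel [IsFiniteMeasure μ] (hμ : RotInv μ) (hs : ∀ᵐ z ∂μ, ‖z‖ < 1) {F : ℂ → ℂ}
    (hF : Measurable F) {K : ℝ} (hK : ∀ᵐ z ∂μ, ‖F z‖ ≤ K) (M : ℕ) :
    ∑ m ∈ Finset.range M, ‖∫ z, F z * conj z ^ m ∂μ‖ ^ 2 / mom μ m ≤ ∫ z, ‖F z‖ ^ 2 ∂μ := by
  set a : ℕ → ℂ := fun m => ∫ z, F z * conj z ^ m ∂μ with ha
  set c : ℕ → ℂ := fun m => a m / (mom μ m : ℂ) with hc
  have hmom : ∀ m, 0 ≤ mom μ m := fun m => integral_nonneg fun z => by positivity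
  have hK0 : ∀ m, ∀ᵐ z ∂μ, ‖F z * conj z ^ m‖ ≤ K := by
    intro m
    filter_upwards [hs, hK] with z hz hk
    rw [norm_mul, norm_pow, RCLike.norm_conj]
    calc ‖F z‖ * ‖z‖ ^ m ≤ K * 1 := by
          apply mul_le_mul hk (pow_le_one₀ (norm_nonneg _) hz.le) (by positivity)
          exact (norm_nonneg _).trans hk
      _ = K := mul_one K
  have hint1 : ∀ m, Integrable (fun z => F z * conj z ^ m) μ := by
    intro m
    refine Integrable.of_bound ?_ K (hK0 m)
    exact (hF.mul (by fun_prop)).aestronglyMeasurable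
  have hintF : Integrable (fun z => ‖F z‖ ^ 2) μ := by
    refine Integrable.of_bound ((hF.norm.pow_const 2).aestronglyMeasurable) (K ^ 2) ?_
    filter_upwards [hK] with z hk
    rw [norm_pow, norm_norm]
    gcongr
  have hintG : Integrable (fun z => ‖∑ m ∈ Finset.range M, c m * z ^ m‖ ^ 2) μ := by
    refine Integrable.of_bound (Continuous.aestronglyMeasurable (by fun_prop))
      ((∑ m ∈ Finset.range M, ‖c m‖) ^ 2) ?_
    filter_upwards [hs] with z hz
    rw [norm_pow, norm_norm]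
    gcongr
    refine (norm_sum_le _ _).trans (Finset.sum_le_sum fun m _ => ?_)
    rw [norm_mul, norm_pow]
    exact mul_le_of_le_one_right (norm_nonneg _) (pow_le_one₀ (norm_nonneg _) hz.le)
  have hintR : Integrable (fun z => ∑ m ∈ Finset.range M, (conj (c m) * (F z * conj z ^ m)).re) μ := by
    refine integrable_finsetSum _ fun m _ => ?_
    exact ((hint1 m).const_mul _).re
  have key : 0 ≤ ∫ z, (‖F z‖ ^ 2 - 2 * (∑ m ∈ Finset.range M, (conj (c m) * (F z * conj z ^ m)).re)
      + ‖∑ m ∈ Finset.range M, c m * z ^ m‖ ^ 2) ∂μ := by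
    refine integral_nonneg fun z => ?_
    have : ‖F z‖ ^ 2 - 2 * (∑ m ∈ Finset.range M, (conj (c m) * (F z * conj z ^ m)).re)
      + ‖∑ m ∈ Finset.range M, c m * z ^ m‖ ^ 2 = ‖F z - ∑ m ∈ Finset.range M, c m * z ^ m‖ ^ 2 := by
      rw [← Complex.normSq_eq_norm_sq, ← Complex.normSq_eq_norm_sq, ← Complex.normSq_eq_norm_sq,
        Complex.normSq_sub]
      have : (∑ m ∈ Finset.range M, (conj (c m) * (F z * conj z ^ m)).re)
          = (F z * conj (∑ m ∈ Finset.range M, c m * z ^ m)).re := by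
        rw [map_sum, Finset.mul_sum, Complex.re_sum]
        refine Finset.sum_congr rfl fun m _ => ?_
        congr 1
        simp only [map_mul, map_pow]
        ring
      rw [this]
      ring
    rw [this]
    positivity
  have hI2 : Integrable (fun z => ‖F z‖ ^ 2 -
      2 * (∑ m ∈ Finset.range M, (conj (c m) * (F z * conj z ^ m)).re)) μ :=
    hintF.sub (hintR.const_mul 2)
  rw [integral_add hI2 hintG, integral_sub hintF (hintR.const_mul 2),
    integral_const_mul, sum_sq hμ hs] at key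
  have h4 : ∫ z, (∑ m ∈ Finset.range M, (conj (c m) * (F z * conj z ^ m)).re) ∂μ
      = ∑ m ∈ Finset.range M, ‖a m‖ ^ 2 / mom μ m := by
    rw [integral_finsetSum]
    · refine Finset.sum_congr rfl fun m _ => ?_
      have : ∫ z, (conj (c m) * (F z * conj z ^ m)).re ∂μ = (∫ z, conj (c m) * (F z * conj z ^ m) ∂μ).re := by
        exact integral_re ((hint1 m).const_mul _)
      rw [this, integral_const_mul]
      simp only [hc, map_div₀, Complex.conj_ofReal]
      have : conj (a m) / (mom μ m : ℂ) * a m = ((‖a m‖ ^ 2 / mom μ m : ℝ) : ℂ) := by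
        push_cast
        rw [div_mul_eq_mul_div, mul_comm, Complex.mul_conj']
      rw [this, Complex.ofReal_re]
    · intro m _
      exact ((hint1 m).const_mul _).re
  have h5 : ∑ m ∈ Finset.range M, ‖c m‖ ^ 2 * mom μ m = ∑ m ∈ Finset.range M, ‖a m‖ ^ 2 / mom μ m := by
    refine Finset.sum_congr rfl fun m _ => ?_
    simp only [hc, norm_div, Complex.norm_real, Real.norm_eq_abs, abs_of_nonneg (hmom m)]
    rcases (hmom m).eq_or_lt with h | h
    · rw [← h]; simp
    · field_simp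
  rw [h4, h5] at key
  linarith

end

end Pool.Agent.Helper66.Berg
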