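import Pool.Agent.Helper66.BergB

set_option autoImplicit false
open MeasureTheory Complex Set Filter Topology
open scoped ENNReal NNReal ComplexConjugate

namespace Pool.Agent.Helper66.Berg

noncomputable section

/-- Hardy's inequality, finite form. -/
lemma hardy_aux (a : ℕ → ℝ) (M : ℕ) :
    ∑ m ∈ Finset.range M, (((∑ j ∈ Finset.range (m + 1), a j) / (m + 1)) ^ 2
      - 2 * ((∑ j ∈ Finset.range (m + 1), a j) / (m + 1)) * a m)
      + M * ((∑ j ∈ Finset.range M, a j) / M) ^ 2 ≤ 0 := by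
  induction M with
  | zero => simp
  | succ M ih =>
    rw [Finset.sum_range_succ]
    set α : ℝ := (∑ j ∈ Finset.range (M + 1), a j) / (M + 1) with hα
    set β : ℝ := (∑ j ∈ Finset.range M, a j) / M with hβ
    have hM1 : (0:ℝ) < (M:ℝ) + 1 := by positivity
    have h1 : a M = (M + 1) * α - M * β := by
      have h2 : (M + 1) * α = ∑ j ∈ Finset.range (M + 1), a j := by
        rw [hα]; field_simp
      have h3 : M * β = ∑ j ∈ Finset.range M, a j := by
        rw [hβ]
        rcases Nat.eq_zero_or_pos M with h | h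
        · subst h; simp
        · have : (0:ℝ) < M := by exact_mod_cast h
          field_simp
      rw [h2, h3, Finset.sum_range_succ]; ring
    push_cast
    have h4 : α ^ 2 - 2 * α * a M + (M + 1) * α ^ 2 ≤ M * β ^ 2 := by
      rw [h1]
      have : (0:ℝ) ≤ M * (α - β) ^ 2 := by positivity
      nlinarith [this]
    linarith

lemma hardy (a : ℕ → ℝ) (M : ℕ) :
    ∑ m ∈ Finset.range M, ((∑ j ∈ Finset.range (m + 1), a j) / (m + 1)) ^ 2
      ≤ 4 * ∑ m ∈ Finset.range M, a m ^ 2 := by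
  have h := hardy_aux a M
  have h0 : (0:ℝ) ≤ M * ((∑ j ∈ Finset.range M, a j) / M) ^ 2 := by positivity
  have h1 : ∑ m ∈ Finset.range M, (((∑ j ∈ Finset.range (m + 1), a j) / (m + 1)) ^ 2
      - 2 * ((∑ j ∈ Finset.range (m + 1), a j) / (m + 1)) * a m) ≤ 0 := by linarith
  have h2 : ∑ m ∈ Finset.range M, (((∑ j ∈ Finset.range (m + 1), a j) / (m + 1)) ^ 2 / 2
      - 2 * a m ^ 2) ≤ ∑ m ∈ Finset.range M, (((∑ j ∈ Finset.range (m + 1), a j) / (m + 1)) ^ 2
      - 2 * ((∑ j ∈ Finset.range (m + 1), a j) / (m + 1)) * a m) := by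
    refine Finset.sum_le_sum fun m _ => ?_
    nlinarith [sq_nonneg (((∑ j ∈ Finset.range (m + 1), a j) / (m + 1)) - 2 * a m)]
  rw [Finset.sum_sub_distrib, ← Finset.sum_div, ← Finset.mul_sum] at h2
  linarith

/-- integrals of radial powers -/
lemma ball_pow (k : ℕ) : ∫ z in Metric.ball (0:ℂ) 1, ‖z‖ ^ (2 * k) = Real.pi / (k + 1) := by
  have h1 : ∫ z in Metric.ball (0:ℂ) 1, ‖z‖ ^ (2 * k)
      = ∫ z : ℂ, (Set.Iio (1:ℝ)).indicator (fun r => r ^ (2 * k)) ‖z‖ := by
    rw [← integral_indicator measurableSet_ball]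
    congr 1
    ext z
    by_cases hz : ‖z‖ < 1
    · simp [Set.indicator, hz]
    · simp [Set.indicator, hz]
  rw [h1, integral_fun_norm_addHaar volume (fun r => (Set.Iio (1:ℝ)).indicator (fun r => r ^ (2 * k)) r)]
  have h2 : (volume : Measure ℂ).real (Metric.ball 0 1) = Real.pi := by
    rw [Measure.real, Complex.volume_ball]
    simp
  have h3 : ∫ y in Set.Ioi (0:ℝ), y ^ (Module.finrank ℝ ℂ - 1) •
      (Set.Iio (1:ℝ)).indicator (fun r => r ^ (2 * k)) y = 1 / (2 * (k + 1)) := by
    rw [Complex.finrank_real_complex]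
    have : ∀ y : ℝ, y ^ (2 - 1) • (Set.Iio (1:ℝ)).indicator (fun r => r ^ (2 * k)) y
        = (Set.Iio (1:ℝ)).indicator (fun r => r ^ (2 * k + 1)) y := by
      intro y
      by_cases hy : y < 1
      · simp [Set.indicator, hy]; ring
      · simp [Set.indicator, hy]
    simp_rw [this]
    rw [setIntegral_indicator measurableSet_Iio, Set.Ioi_inter_Iio, ← integral_Ioc_eq_integral_Ioo,
      ← intervalIntegral.integral_of_le zero_le_one, integral_pow]
    push_cast
    have : ((k:ℝ) + 1) ≠ 0 := by positivity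
    have : (2 * (k:ℝ) + 1 + 1) ≠ 0 := by positivity
    simp only [one_pow, ne_eq, Nat.add_eq_zero_iff, one_ne_zero, and_false, not_false_eq_true,
      zero_pow, sub_zero]
    field_simp
    ring
  rw [h3, h2, Complex.finrank_real_complex]
  simp
  field_simp

/-- the measure `(1 - |z|^2) dA` -/
def nu : Measure ℂ :=
  (volume.restrict (Metric.ball (0:ℂ) 1)).withDensity (fun z => ENNReal.ofReal (1 - ‖z‖ ^ 2))

lemma nu_rotInv : RotInv nu := by
  refine withDensity_rotInv restrict_ball_rotInv (by fun_prop) ?_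
  intro c z hc
  simp [hc]

lemma nu_lt : ∀ᵐ z ∂nu, ‖z‖ < 1 := by
  refine (withDensity_absolutelyContinuous _ _).ae_le ?_
  filter_upwards [ae_restrict_mem measurableSet_ball] with z hz
  simpa using hz

instance ball_fin : IsFiniteMeasure ((volume : Measure ℂ).restrict (Metric.ball (0:ℂ) 1)) :=
    ⟨by simp [Complex.volume_ball]⟩

instance nu_fin : IsFiniteMeasure nu := by
  refine isFiniteMeasure_withDensity_ofReal ?_
  refine (Integrable.of_bound (C := 1) ?_ ?_).2
  · exact Continuous.aestronglyMeasurable (by fun_prop)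
  · filter_upwards [ae_restrict_mem measurableSet_ball] with z hz
    have hz' : ‖z‖ < 1 := by simpa using hz
    rw [Real.norm_eq_abs, abs_le]
    constructor <;> nlinarith [norm_nonneg z]

lemma integral_nu (g : ℂ → ℝ) : ∫ z, g z ∂nu = ∫ z in Metric.ball (0:ℂ) 1, (1 - ‖z‖ ^ 2) * g z := by
  rw [nu, integral_withDensity_eq_integral_toReal_smul (by fun_prop) (by simp)]
  refine setIntegral_congr_fun measurableSet_ball fun z hz => ?_
  have hz' : ‖z‖ < 1 := by simpa using hz
  simp only [smul_eq_mul]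
  rw [ENNReal.toReal_ofReal]
  nlinarith [norm_nonneg z]

lemma ball_pow_int (k : ℕ) : IntegrableOn (fun z : ℂ => ‖z‖ ^ k) (Metric.ball (0:ℂ) 1) := by
  refine Integrable.of_bound (C := 1) (Continuous.aestronglyMeasurable (by fun_prop)) ?_
  filter_upwards [ae_restrict_mem measurableSet_ball] with z hz
  have hz' : ‖z‖ < 1 := by simpa using hz
  rw [norm_pow, norm_norm]
  exact pow_le_one₀ (norm_nonneg _) hz'.le

lemma mom_nu (m : ℕ) : mom nu m = Real.pi / ((m + 1) * (m + 2)) := by
  rw [mom, integral_nu]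
  have h : ∀ z : ℂ, (1 - ‖z‖ ^ 2) * ‖z‖ ^ (2 * m) = ‖z‖ ^ (2 * m) - ‖z‖ ^ (2 * (m + 1)) := by
    intro z; ring
  simp_rw [h]
  rw [integral_sub (ball_pow_int _) (ball_pow_int _), ball_pow, ball_pow]
  push_cast
  have h1 : ((m:ℝ) + 1) ≠ 0 := by positivity
  have h2 : ((m:ℝ) + 2) ≠ 0 := by positivity
  have h3 : ((m:ℝ) + 1 + 1) ≠ 0 := by positivity
  field_simp
  ring

end

end Pool.Agent.Helper66.Berg
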