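import Pool.Agent.Helper66.BergC

set_option autoImplicit false
open MeasureTheory Complex Set Filter Topology
open scoped ENNReal NNReal ComplexConjugate

namespace Pool.Agent.Helper66.Berg

noncomputable section

/-- Fourier type coefficients -/
def coef (μ : Measure ℂ) (F : ℂ → ℂ) (m : ℕ) : ℂ := ∫ z, F z * conj z ^ m ∂μ

/-- coefficients of the projection divided by `1 - z` -/
def qc (μ : Measure ℂ) (F : ℂ → ℂ) (m : ℕ) : ℂ :=
  (∑ j ∈ Finset.range (m + 1), coef μ F j) - (m + 1) * coef μ F (m + 1)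

lemma hasSum_sq (x : ℂ) (hx : ‖x‖ < 1) :
    HasSum (fun n : ℕ => ((n:ℂ) + 1) * x ^ n) (1 / (1 - x) ^ 2) := by
  have := hasSum_choose_mul_geometric_of_norm_lt_one 1 hx
  simpa using this

lemma summ_sq (x : ℝ) (hx0 : 0 ≤ x) (hx : x < 1) :
    Summable (fun n : ℕ => ((n:ℝ) + 1) * x ^ n) := by
  have := (hasSum_choose_mul_geometric_of_norm_lt_one (𝕜 := ℝ) 1 (r := x)
    (by rwa [Real.norm_eq_abs, abs_of_nonneg hx0])).summable
  simpa using this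

variable {μ : Measure ℂ}

lemma int_coef [IsFiniteMeasure μ] (hs : ∀ᵐ z ∂μ, ‖z‖ < 1) {F : ℂ → ℂ}
    (hF : Measurable F) {K : ℝ} (hK : ∀ᵐ z ∂μ, ‖F z‖ ≤ K) (m : ℕ) :
    Integrable (fun z => F z * conj z ^ m) μ := by
  refine Integrable.of_bound (C := K) (hF.mul (by fun_prop)).aestronglyMeasurable ?_
  filter_upwards [hs, hK] with z hz hk
  rw [norm_mul, norm_pow, RCLike.norm_conj]
  calc ‖F z‖ * ‖z‖ ^ m ≤ K * 1 := by
        apply mul_le_mul hk (pow_le_one₀ (norm_nonneg _) hz.le) (by positivity)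
        exact (norm_nonneg _).trans hk
    _ = K := mul_one K

lemma proj_hasSum [IsFiniteMeasure μ] (hs : ∀ᵐ z ∂μ, ‖z‖ < 1) {F : ℂ → ℂ}
    (hF : Measurable F) {K : ℝ} (hK : ∀ᵐ z ∂μ, ‖F z‖ ≤ K) {z : ℂ} (hz : ‖z‖ < 1) :
    HasSum (fun m : ℕ => ((m:ℂ) + 1) * z ^ m * (coef μ F m - coef μ F (m + 1)))
      (∫ ζ, F ζ * (1 - conj ζ) / (1 - z * conj ζ) ^ 2 ∂μ) ∧
    Summable (fun m : ℕ => ‖((m:ℂ) + 1) * z ^ m * (coef μ F m - coef μ F (m + 1))‖) := by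
  set f : ℕ → ℂ → ℂ := fun m ζ => ((m:ℂ) + 1) * z ^ m * (F ζ * conj ζ ^ m - F ζ * conj ζ ^ (m + 1))
    with hf
  have hint : ∀ m, Integrable (f m) μ := fun m =>
    ((int_coef hs hF hK m).sub (int_coef hs hF hK (m + 1))).const_mul _
  have hbd : ∀ m, ∀ᵐ ζ ∂μ, ‖f m ζ‖ ≤ ((m:ℝ) + 1) * ‖z‖ ^ m * (2 * K) := by
    intro m
    filter_upwards [hs, hK] with ζ h1 h2
    have hK0 : 0 ≤ K := (norm_nonneg _).trans h2
    have e1 : ‖F ζ * conj ζ ^ m‖ ≤ K := by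
      rw [norm_mul, norm_pow, RCLike.norm_conj]
      calc ‖F ζ‖ * ‖ζ‖ ^ m ≤ K * 1 := by
            apply mul_le_mul h2 (pow_le_one₀ (norm_nonneg _) h1.le) (by positivity) hK0
        _ = K := mul_one K
    have e2 : ‖F ζ * conj ζ ^ (m+1)‖ ≤ K := by
      rw [norm_mul, norm_pow, RCLike.norm_conj]
      calc ‖F ζ‖ * ‖ζ‖ ^ (m+1) ≤ K * 1 := by
            apply mul_le_mul h2 (pow_le_one₀ (norm_nonneg _) h1.le) (by positivity) hK0
        _ = K := mul_one K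
    have e3 : ‖((m:ℂ) + 1)‖ = (m:ℝ) + 1 := by
      have : ((m:ℂ) + 1) = (((m:ℝ) + 1 : ℝ) : ℂ) := by push_cast; ring
      rw [this, Complex.norm_real, Real.norm_eq_abs, abs_of_nonneg (by positivity)]
    simp only [hf]
    rw [norm_mul, norm_mul, norm_pow, e3]
    gcongr
    calc _ ≤ ‖F ζ * conj ζ ^ m‖ + ‖F ζ * conj ζ ^ (m+1)‖ := norm_sub_le _ _
      _ ≤ K + K := add_le_add e1 e2
      _ = 2 * K := by ring
  have hsummable : Summable (fun m : ℕ => ((m:ℝ) + 1) * ‖z‖ ^ m * (2 * K)) :=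
    (summ_sq _ (norm_nonneg _) hz).mul_right _
  have hsum1 : Summable fun m => ∫ ζ, ‖f m ζ‖ ∂μ := by
    refine Summable.of_nonneg_of_le (fun m => integral_nonneg fun _ => norm_nonneg _) (fun m => ?_)
      (hsummable.mul_right (μ.real univ))
    calc ∫ ζ, ‖f m ζ‖ ∂μ ≤ ∫ _ζ, ((m:ℝ) + 1) * ‖z‖ ^ m * (2 * K) ∂μ :=
          integral_mono_ae (hint m).norm (integrable_const _) (hbd m)
      _ = _ := by simp [mul_comm]
  have hval : ∀ m, ∫ ζ, f m ζ ∂μ = ((m:ℂ) + 1) * z ^ m * (coef μ F m - coef μ F (m + 1)) := by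
    intro m
    simp only [hf]
    rw [integral_const_mul, integral_sub (int_coef hs hF hK m) (int_coef hs hF hK (m + 1))]
    rfl
  have h1 := hasSum_integral_of_summable_integral_norm hint hsum1
  simp_rw [hval] at h1
  have h2 : ∫ ζ, ∑' m, f m ζ ∂μ = ∫ ζ, F ζ * (1 - conj ζ) / (1 - z * conj ζ) ^ 2 ∂μ := by
    refine integral_congr_ae ?_
    filter_upwards [hs] with ζ h1
    have hx : ‖z * conj ζ‖ < 1 := by
      rw [norm_mul, RCLike.norm_conj]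
      nlinarith [norm_nonneg z, norm_nonneg ζ]
    have h3 := (hasSum_sq _ hx).mul_left (F ζ * (1 - conj ζ))
    have h4 : ∀ m : ℕ, f m ζ = F ζ * (1 - conj ζ) * (((m:ℂ) + 1) * (z * conj ζ) ^ m) := by
      intro m
      simp only [hf, mul_pow]
      ring
    simp_rw [h4]
    rw [h3.tsum_eq]
    ring
  rw [h2] at h1
  refine ⟨h1, ?_⟩
  refine Summable.of_nonneg_of_le (fun _ => norm_nonneg _) (fun m => ?_) hsum1
  rw [← hval]
  exact norm_integral_le_integral_norm _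

lemma qc_eq (F : ℂ → ℂ) (m : ℕ) :
    ∑ j ∈ Finset.range (m + 1), ((j:ℂ) + 1) * (coef μ F j - coef μ F (j + 1)) = qc μ F m := by
  induction m with
  | zero => simp [qc]
  | succ m ih =>
    rw [Finset.sum_range_succ, ih]
    simp only [qc]
    rw [Finset.sum_range_succ (fun j => coef μ F j) (m + 1)]
    push_cast
    ring

lemma qc_hasSum [IsFiniteMeasure μ] (hs : ∀ᵐ z ∂μ, ‖z‖ < 1) {F : ℂ → ℂ}
    (hF : Measurable F) {K : ℝ} (hK : ∀ᵐ z ∂μ, ‖F z‖ ≤ K) {z : ℂ} (hz : ‖z‖ < 1) :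
    HasSum (fun m : ℕ => qc μ F m * z ^ m)
      ((∫ ζ, F ζ * (1 - conj ζ) / (1 - z * conj ζ) ^ 2 ∂μ) / (1 - z)) := by
  obtain ⟨h1, h2⟩ := proj_hasSum hs hF hK hz
  have hg : Summable (fun m : ℕ => ‖z ^ m‖) := by
    simp_rw [norm_pow]
    exact summable_geometric_of_lt_one (norm_nonneg _) hz
  have h3 := tsum_mul_tsum_eq_tsum_sum_range_of_summable_norm h2 hg
  have h4 := (summable_norm_sum_mul_range_of_summable_norm h2 hg).of_norm
  have h5 : ∀ n : ℕ, ∑ k ∈ Finset.range (n + 1),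
      (((k:ℂ) + 1) * z ^ k * (coef μ F k - coef μ F (k + 1))) * z ^ (n - k) = qc μ F n * z ^ n := by
    intro n
    rw [← qc_eq, Finset.sum_mul]
    refine Finset.sum_congr rfl fun k hk => ?_
    have hk' : k ≤ n := Nat.lt_succ_iff.mp (Finset.mem_range.mp hk)
    have : z ^ n = z ^ k * z ^ (n - k) := by rw [← pow_add, Nat.add_sub_cancel' hk']
    rw [this]; ring
  simp_rw [h5] at h3 h4
  have h6 := h4.hasSum
  rw [← h3, h1.tsum_eq, tsum_geometric_of_norm_lt_one hz] at h6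
  rwa [div_eq_mul_inv]

lemma coef_sq_le [IsFiniteMeasure μ] (hμ : RotInv μ) (hs : ∀ᵐ z ∂μ, ‖z‖ < 1) {F : ℂ → ℂ}
    (hF : Measurable F) {K : ℝ} (hK : ∀ᵐ z ∂μ, ‖F z‖ ≤ K) (hpos : ∀ m, 0 < mom μ m) (M : ℕ) :
    ∑ m ∈ Finset.range M, ‖coef μ F m‖ ^ 2 ≤ mom μ 0 * ∫ z, ‖F z‖ ^ 2 ∂μ := by
  have h1 := bessel hμ hs hF hK M
  have h2 : ∀ m, mom μ m ≤ mom μ 0 := by
    intro m
    refine integral_mono_ae (int_norm_pow hs _) (int_norm_pow hs _) ?_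
    filter_upwards [hs] with z hz
    simpa using pow_le_one₀ (norm_nonneg _) hz.le
  calc ∑ m ∈ Finset.range M, ‖coef μ F m‖ ^ 2
      ≤ ∑ m ∈ Finset.range M, mom μ 0 * (‖coef μ F m‖ ^ 2 / mom μ m) := by
        refine Finset.sum_le_sum fun m _ => ?_
        have := hpos m
        rw [← mul_div_assoc, le_div_iff₀ this, mul_comm]
        exact mul_le_mul_of_nonneg_right (h2 m) (by positivity)
    _ = mom μ 0 * ∑ m ∈ Finset.range M, (‖coef μ F m‖ ^ 2 / mom μ m) := by rw [Finset.mul_sum]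
    _ ≤ _ := mul_le_mul_of_nonneg_left h1 (hpos 0).le

lemma qc_sum_le [IsFiniteMeasure μ] (hμ : RotInv μ) (hs : ∀ᵐ z ∂μ, ‖z‖ < 1) {F : ℂ → ℂ}
    (hF : Measurable F) {K : ℝ} (hK : ∀ᵐ z ∂μ, ‖F z‖ ≤ K) (hpos : ∀ m, 0 < mom μ m) (M : ℕ) :
    ∑ m ∈ Finset.range M, ‖qc μ F m‖ ^ 2 * mom nu m
      ≤ 10 * Real.pi * (mom μ 0 * ∫ z, ‖F z‖ ^ 2 ∂μ) := by
  set a : ℕ → ℝ := fun m => ‖coef μ F m‖ with ha
  have hterm : ∀ m : ℕ, ‖qc μ F m‖ ^ 2 * mom nu m ≤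
      2 * Real.pi * ((∑ j ∈ Finset.range (m + 1), a j) / (m + 1)) ^ 2
        + 2 * Real.pi * a (m + 1) ^ 2 := by
    intro m
    have hq : ‖qc μ F m‖ ≤ (∑ j ∈ Finset.range (m + 1), a j) + (m + 1) * a (m + 1) := by
      calc ‖qc μ F m‖ ≤ ‖∑ j ∈ Finset.range (m + 1), coef μ F j‖ + ‖((m:ℂ) + 1) * coef μ F (m + 1)‖ :=
            norm_sub_le _ _
        _ ≤ _ := by
            refine add_le_add (norm_sum_le _ _) ?_
            rw [norm_mul]
            have : ((m:ℂ) + 1) = (((m:ℝ) + 1 : ℝ) : ℂ) := by push_cast; ring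
            rw [this, Complex.norm_real, Real.norm_eq_abs, abs_of_nonneg (by positivity)]
    have hS : 0 ≤ ∑ j ∈ Finset.range (m + 1), a j := Finset.sum_nonneg fun _ _ => norm_nonneg _
    set S := ∑ j ∈ Finset.range (m + 1), a j with hSdef
    have hq2 : ‖qc μ F m‖ ^ 2 ≤ 2 * S ^ 2 + 2 * ((m + 1) * a (m + 1)) ^ 2 := by
      have h1 : ‖qc μ F m‖ ^ 2 ≤ (S + (m + 1) * a (m + 1)) ^ 2 := by gcongr
      nlinarith [sq_nonneg (S - (m + 1) * a (m + 1))]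
    rw [mom_nu]
    have hm1 : (0:ℝ) < (m:ℝ) + 1 := by positivity
    have hm2 : (0:ℝ) < (m:ℝ) + 2 := by positivity
    calc ‖qc μ F m‖ ^ 2 * (Real.pi / ((m + 1) * (m + 2)))
        ≤ (2 * S ^ 2 + 2 * ((m + 1) * a (m + 1)) ^ 2) * (Real.pi / ((m + 1) * (m + 1))) := by
          gcongr
          linarith
      _ = 2 * Real.pi * (S / (m + 1)) ^ 2 + 2 * Real.pi * a (m + 1) ^ 2 := by
          field_simp
  calc ∑ m ∈ Finset.range M, ‖qc μ F m‖ ^ 2 * mom nu m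
      ≤ ∑ m ∈ Finset.range M, (2 * Real.pi * ((∑ j ∈ Finset.range (m + 1), a j) / (m + 1)) ^ 2
        + 2 * Real.pi * a (m + 1) ^ 2) := Finset.sum_le_sum fun m _ => hterm m
    _ = 2 * Real.pi * ∑ m ∈ Finset.range M, ((∑ j ∈ Finset.range (m + 1), a j) / (m + 1)) ^ 2
        + 2 * Real.pi * ∑ m ∈ Finset.range M, a (m + 1) ^ 2 := by
        rw [Finset.sum_add_distrib, Finset.mul_sum, Finset.mul_sum]
    _ ≤ 2 * Real.pi * (4 * ∑ m ∈ Finset.range M, a m ^ 2)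
        + 2 * Real.pi * ∑ m ∈ Finset.range M, a (m + 1) ^ 2 := by
        gcongr
        exact hardy a M
    _ ≤ 2 * Real.pi * (4 * (mom μ 0 * ∫ z, ‖F z‖ ^ 2 ∂μ))
        + 2 * Real.pi * (mom μ 0 * ∫ z, ‖F z‖ ^ 2 ∂μ) := by
        gcongr
        · exact coef_sq_le hμ hs hF hK hpos M
        · refine le_trans ?_ (coef_sq_le hμ hs hF hK hpos (M + 1))
          rw [Finset.sum_range_succ' (fun m => ‖coef μ F m‖ ^ 2) M]
          have : 0 ≤ ‖coef μ F 0‖ ^ 2 := by positivity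
          linarith
    _ = _ := by ring

/-- The key upper bound. -/
lemma main_upper [IsFiniteMeasure μ] (hμ : RotInv μ) (hs : ∀ᵐ z ∂μ, ‖z‖ < 1) {F : ℂ → ℂ}
    (hF : Measurable F) {K : ℝ} (hK : ∀ᵐ z ∂μ, ‖F z‖ ≤ K) (hpos : ∀ m, 0 < mom μ m) :
    ∫⁻ z, ‖(∫ ζ, F ζ * (1 - conj ζ) / (1 - z * conj ζ) ^ 2 ∂μ) / (1 - z)‖ₑ ^ 2 ∂nu
      ≤ ENNReal.ofReal (10 * Real.pi * (mom μ 0 * ∫ z, ‖F z‖ ^ 2 ∂μ)) := by
  set G : ℕ → ℂ → ℂ := fun M z => ∑ m ∈ Finset.range M, qc μ F m * z ^ m with hG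
  have h1 : ∀ M, ∫⁻ z, ‖G M z‖ₑ ^ 2 ∂nu
      ≤ ENNReal.ofReal (10 * Real.pi * (mom μ 0 * ∫ z, ‖F z‖ ^ 2 ∂μ)) := by
    intro M
    have h2 : ∫⁻ z, ‖G M z‖ₑ ^ 2 ∂nu = ENNReal.ofReal (∫ z, ‖G M z‖ ^ 2 ∂nu) := by
      rw [ofReal_integral_eq_lintegral_ofReal]
      · refine lintegral_congr fun z => ?_
        rw [ENNReal.ofReal_pow (norm_nonneg _), ofReal_norm]
      · refine Integrable.of_bound (Continuous.aestronglyMeasurable (by fun_prop))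
          ((∑ m ∈ Finset.range M, ‖qc μ F m‖) ^ 2) ?_
        filter_upwards [nu_lt] with z hz
        rw [norm_pow, norm_norm]
        gcongr
        refine (norm_sum_le _ _).trans (Finset.sum_le_sum fun m _ => ?_)
        rw [norm_mul, norm_pow]
        exact mul_le_of_le_one_right (norm_nonneg _) (pow_le_one₀ (norm_nonneg _) hz.le)
      · exact Filter.Eventually.of_forall fun z => by positivity
    rw [h2, sum_sq nu_rotInv nu_lt]
    exact ENNReal.ofReal_le_ofReal (qc_sum_le hμ hs hF hK hpos M)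
  have h3 : ∀ᵐ z ∂nu, ‖(∫ ζ, F ζ * (1 - conj ζ) / (1 - z * conj ζ) ^ 2 ∂μ) / (1 - z)‖ₑ ^ 2
      = liminf (fun M => ‖G M z‖ₑ ^ 2) atTop := by
    filter_upwards [nu_lt] with z hz
    have h4 := (qc_hasSum hs hF hK hz).tendsto_sum_nat
    have h5 : Tendsto (fun M => ‖G M z‖ₑ ^ 2) atTop
        (𝓝 (‖(∫ ζ, F ζ * (1 - conj ζ) / (1 - z * conj ζ) ^ 2 ∂μ) / (1 - z)‖ₑ ^ 2)) :=
      ENNReal.Tendsto.pow h4.enorm
    exact h5.liminf_eq.symm
  rw [lintegral_congr_ae h3]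
  refine (lintegral_liminf_le ?_).trans ?_
  · intro M
    have : Continuous (G M) := by fun_prop
    exact (this.enorm.measurable).pow_const 2
  · refine liminf_le_of_le (by isBoundedDefault) ?_
    intro b hb
    obtain ⟨M, hM⟩ := hb.exists
    exact hM.trans (h1 M)

end

end Pool.Agent.Helper66.Berg
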