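import Pool.Agent.Helper66.BergD

set_option autoImplicit false
open MeasureTheory Complex Set Filter Topology
open scoped ENNReal NNReal ComplexConjugate

namespace Pool.Agent.Helper66.Berg

noncomputable section

/-- Taylor coefficients of `(1 - ζ)/(1 - conj z ζ)` -/
def hc (z : ℂ) : ℕ → ℂ
  | 0 => 1
  | (m + 1) => -(1 - conj z) * conj z ^ m

lemma hc_hasSum {z ζ : ℂ} (hz : ‖z‖ < 1) (hζ : ‖ζ‖ < 1) :
    HasSum (fun m => hc z m * ζ ^ m) ((1 - ζ) / (1 - conj z * ζ)) := by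
  rw [← hasSum_nat_add_iff' 1]
  have hx : ‖conj z * ζ‖ < 1 := by
    rw [norm_mul, RCLike.norm_conj]
    nlinarith [norm_nonneg z, norm_nonneg ζ]
  have h1 := (hasSum_geometric_of_norm_lt_one hx).mul_left (-(1 - conj z) * ζ)
  have h2 : (1 - ζ) / (1 - conj z * ζ) - ∑ i ∈ Finset.range 1, hc z i * ζ ^ i
      = -(1 - conj z) * ζ * (1 - conj z * ζ)⁻¹ := by
    have : 1 - conj z * ζ ≠ 0 := by
      intro h
      have : conj z * ζ = 1 := by linear_combination -h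
      rw [this] at hx
      simp at hx
    simp only [Finset.range_one, Finset.sum_singleton, hc, pow_zero, mul_one]
    rw [div_eq_mul_inv]
    linear_combination mul_inv_cancel₀ this
  rw [h2]
  have h3 : (fun m => hc z (m + 1) * ζ ^ (m + 1))
      = fun i => -(1 - conj z) * ζ * (conj z * ζ) ^ i := by
    funext m
    simp only [hc]
    rw [mul_pow, pow_succ]
    ring
  rw [h3]
  exact h1

lemma hc_norm_summable {z : ℂ} (hz : ‖z‖ < 1) : Summable (fun m => ‖hc z m‖) := by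
  rw [← summable_nat_add_iff 1]
  have : ∀ m : ℕ, ‖hc z (m + 1)‖ = ‖-(1 - conj z)‖ * ‖z‖ ^ m := by
    intro m
    simp only [hc]
    rw [norm_mul, norm_pow, RCLike.norm_conj]
  simp_rw [this]
  exact (summable_geometric_of_lt_one (norm_nonneg _) hz).mul_left _

variable {μ : Measure ℂ}

lemma coef_h [IsFiniteMeasure μ] (hμ : RotInv μ) (hs : ∀ᵐ z ∂μ, ‖z‖ < 1) {z : ℂ} (hz : ‖z‖ < 1)
    (m : ℕ) : coef μ (fun ζ => (1 - ζ) / (1 - conj z * ζ)) m = hc z m * mom μ m := by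
  set f : ℕ → ℂ → ℂ := fun j ζ => hc z j * (ζ ^ j * conj ζ ^ m) with hf
  have hint : ∀ j, Integrable (f j) μ := fun j => (int_pow hs j m).const_mul _
  have hsum : Summable fun j => ∫ ζ, ‖f j ζ‖ ∂μ := by
    refine Summable.of_nonneg_of_le (fun m => integral_nonneg fun _ => norm_nonneg _) (fun j => ?_)
      ((hc_norm_summable hz).mul_right (μ.real univ))
    calc ∫ ζ, ‖f j ζ‖ ∂μ ≤ ∫ _ζ, ‖hc z j‖ ∂μ := by
          refine integral_mono_ae (hint j).norm (integrable_const _) ?_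
          filter_upwards [hs] with ζ h1
          simp only [hf]
          rw [norm_mul, norm_mul, norm_pow, norm_pow, RCLike.norm_conj]
          refine mul_le_of_le_one_right (norm_nonneg _) ?_
          exact mul_le_one₀ (pow_le_one₀ (norm_nonneg _) h1.le) (by positivity)
            (pow_le_one₀ (norm_nonneg _) h1.le)
      _ = _ := by simp [mul_comm]
  have h1 := hasSum_integral_of_summable_integral_norm hint hsum
  have h2 : ∫ ζ, ∑' j, f j ζ ∂μ = coef μ (fun ζ => (1 - ζ) / (1 - conj z * ζ)) m := by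
    refine integral_congr_ae ?_
    filter_upwards [hs] with ζ h1
    have h3 := (hc_hasSum hz h1).mul_right (conj ζ ^ m)
    have : ∀ j, f j ζ = hc z j * ζ ^ j * conj ζ ^ m := by
      intro j; simp only [hf]; ring
    simp_rw [this]
    rw [h3.tsum_eq]
  rw [h2] at h1
  have h3 : ∀ j, j ≠ m → ∫ ζ, f j ζ ∂μ = 0 := by
    intro j hj
    simp only [hf]
    rw [integral_const_mul, orth hμ hj, mul_zero]
  have h4 := hasSum_single (f := fun j => ∫ ζ, f j ζ ∂μ) m (fun j hj => h3 j hj)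
  have h5 := h1.unique h4
  rw [h5]
  simp only [hf]
  rw [integral_const_mul, diag]

/-- Lower bound for the positive operator. -/
lemma lower_h [IsFiniteMeasure μ] (hμ : RotInv μ) (hs : ∀ᵐ z ∂μ, ‖z‖ < 1)
    (hpos : ∀ m, 0 < mom μ m) {z : ℂ} (hz : ‖z‖ < 1) (M : ℕ) :
    ‖1 - z‖ ^ 2 * ∑ m ∈ Finset.range M, ‖z‖ ^ (2 * m) * mom μ (m + 1)
      ≤ ∫ ζ, ‖(1 - ζ) / (1 - conj z * ζ)‖ ^ 2 ∂μ := by
  have hb : ∀ᵐ ζ ∂μ, ‖(1 - ζ) / (1 - conj z * ζ)‖ ≤ 2 / (1 - ‖z‖) := by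
    filter_upwards [hs] with ζ h1
    rw [norm_div]
    have h2 : ‖1 - ζ‖ ≤ 2 := by
      calc ‖1 - ζ‖ ≤ ‖(1:ℂ)‖ + ‖ζ‖ := norm_sub_le _ _
        _ ≤ 2 := by rw [norm_one]; linarith
    have h3 : 1 - ‖z‖ ≤ ‖1 - conj z * ζ‖ := by
      have : ‖(1:ℂ)‖ - ‖conj z * ζ‖ ≤ ‖1 - conj z * ζ‖ := norm_sub_norm_le _ _
      rw [norm_one, norm_mul, RCLike.norm_conj] at this
      nlinarith [norm_nonneg z, norm_nonneg ζ]
    have h4 : 0 < 1 - ‖z‖ := by linarith
    exact div_le_div₀ (by norm_num) h2 h4 h3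
  have hmeas : Measurable (fun ζ : ℂ => (1 - ζ) / (1 - conj z * ζ)) := by fun_prop
  have h1 := bessel hμ hs hmeas hb (M + 1)
  have h2 : ∀ m, ‖∫ ζ, ((1 - ζ) / (1 - conj z * ζ)) * conj ζ ^ m ∂μ‖ ^ 2 / mom μ m
      = ‖hc z m‖ ^ 2 * mom μ m := by
    intro m
    have h3 := coef_h hμ hs hz m
    rw [coef] at h3
    rw [h3, norm_mul, Complex.norm_real, Real.norm_eq_abs, abs_of_pos (hpos m)]
    have := hpos m
    field_simp
  simp_rw [h2] at h1
  rw [Finset.sum_range_succ'] at h1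
  have h3 : ∀ m, ‖hc z (m + 1)‖ ^ 2 * mom μ (m + 1) = ‖1 - z‖ ^ 2 * (‖z‖ ^ (2 * m) * mom μ (m + 1)) := by
    intro m
    simp only [hc]
    have h4 : ‖1 - conj z‖ = ‖1 - z‖ := by
      have : 1 - conj z = conj (1 - z) := by simp
      rw [this, RCLike.norm_conj]
    rw [norm_mul, norm_neg, h4, norm_pow, RCLike.norm_conj]
    ring
  simp_rw [h3] at h1
  rw [← Finset.mul_sum] at h1
  have h5 : 0 ≤ ‖hc z 0‖ ^ 2 * mom μ 0 := mul_nonneg (by positivity) (hpos 0).le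
  linarith

end

end Pool.Agent.Helper66.Berg
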