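import Pool.Agent.Helper66.BergE

set_option autoImplicit false
open MeasureTheory Complex Set Filter Topology
open scoped ENNReal NNReal ComplexConjugate

namespace Pool.Agent.Helper66.Berg

noncomputable section

/-- lacunary exponents -/
def NN (k : ℕ) : ℕ := 2 ^ (16 ^ k) - 2

/-- lacunary coefficients -/
def cc (k : ℕ) : ℝ := ((NN k : ℝ) + 1) / 2 ^ k

lemma cc_pos (k : ℕ) : 0 < cc k := by
  unfold cc; positivity

/-- radial factor -/
def s0 (z : ℂ) : ℝ := ∑' k, cc k * ‖z‖ ^ (2 * NN k)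

/-- radial factor with values in the extended reals -/
def s0E (z : ℂ) : ℝ≥0∞ := ∑' k, ENNReal.ofReal (cc k * ‖z‖ ^ (2 * NN k))

lemma n_pow_le (n : ℕ) {r : ℝ} (h0 : 0 ≤ r) (h1 : r < 1) : ((n:ℝ) + 1) * r ^ n ≤ 1 / (1 - r) := by
  have h2 : ((n:ℝ) + 1) * r ^ n ≤ ∑ j ∈ Finset.range (n + 1), r ^ j := by
    calc ((n:ℝ) + 1) * r ^ n = ∑ _j ∈ Finset.range (n + 1), r ^ n := by simp
      _ ≤ _ := Finset.sum_le_sum fun j hj =>
        pow_le_pow_of_le_one h0 h1.le (Nat.lt_succ_iff.mp (Finset.mem_range.mp hj))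
  have h3 : ∑ j ∈ Finset.range (n + 1), r ^ j ≤ 1 / (1 - r) := by
    rw [one_div, ← tsum_geometric_of_lt_one h0 h1]
    exact (summable_geometric_of_lt_one h0 h1).sum_le_tsum _ (fun j _ => by positivity)
  linarith

lemma term_le (k : ℕ) {r : ℝ} (h0 : 0 ≤ r) (h1 : r < 1) :
    cc k * r ^ (2 * NN k) ≤ (1 / (1 - r ^ 2)) * (1 / 2) ^ k := by
  have h2 : r ^ 2 < 1 := by nlinarith
  have h3 := n_pow_le (NN k) (sq_nonneg r) h2
  unfold cc
  rw [pow_mul, div_mul_eq_mul_div, div_eq_mul_inv, one_div_pow, one_div (2 ^ k)]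
  exact mul_le_mul_of_nonneg_right h3 (by positivity)

lemma term_nonneg (k : ℕ) (z : ℂ) : 0 ≤ cc k * ‖z‖ ^ (2 * NN k) :=
  mul_nonneg (cc_pos k).le (by positivity)

lemma s0_summable {z : ℂ} (hz : ‖z‖ < 1) : Summable (fun k => cc k * ‖z‖ ^ (2 * NN k)) := by
  refine Summable.of_nonneg_of_le (fun k => term_nonneg k z) (fun k => term_le k (norm_nonneg z) hz) ?_
  exact summable_geometric_two.mul_left _

lemma s0E_eq {z : ℂ} (hz : ‖z‖ < 1) : s0E z = ENNReal.ofReal (s0 z) := by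
  rw [s0, ENNReal.ofReal_tsum_of_nonneg (fun k => term_nonneg k z) (s0_summable hz)]
  rfl

lemma s0_nonneg (z : ℂ) : 0 ≤ s0 z := tsum_nonneg fun k => term_nonneg k z

lemma s0_pos {z : ℂ} (hz : ‖z‖ < 1) : 0 < s0 z := by
  have h1 := (s0_summable hz).sum_le_tsum {0} (fun j _ => term_nonneg j z)
  rw [Finset.sum_singleton] at h1
  refine lt_of_lt_of_le ?_ h1
  have : NN 0 = 0 := by simp [NN]
  rw [this]
  have := cc_pos 0
  simpa using this

lemma s0_cont : ContinuousOn s0 (Metric.ball (0:ℂ) 1) := by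
  intro z hz
  have hz' : ‖z‖ < 1 := by simpa using hz
  obtain ⟨r, h1, h2⟩ := exists_between hz'
  have h0 : 0 ≤ r := (norm_nonneg z).trans h1.le
  have h3 : ContinuousOn s0 (Metric.ball (0:ℂ) r) := by
    refine continuousOn_tsum (fun k => Continuous.continuousOn (by fun_prop))
      ((summable_geometric_two).mul_left (1 / (1 - r ^ 2))) ?_
    intro k w hw
    have hw' : ‖w‖ < r := by simpa using hw
    rw [Real.norm_eq_abs, abs_of_nonneg (term_nonneg k w)]
    refine le_trans ?_ (term_le k h0 h2)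
    have := (cc_pos k).le
    gcongr
  exact (h3.continuousAt (Metric.isOpen_ball.mem_nhds (by simpa using h1))).continuousWithinAt

lemma s0E_meas : Measurable s0E := by
  unfold s0E
  refine Measurable.tsum fun k => ?_
  fun_prop

/-- the radial measure -/
def mu0 : Measure ℂ := (volume.restrict (Metric.ball (0:ℂ) 1)).withDensity s0E

lemma mu0_rotInv : RotInv mu0 := by
  refine withDensity_rotInv restrict_ball_rotInv s0E_meas ?_
  intro c z hc
  simp [s0E, hc]

lemma mu0_lt : ∀ᵐ z ∂mu0, ‖z‖ < 1 := by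
  refine (withDensity_absolutelyContinuous _ _).ae_le ?_
  filter_upwards [ae_restrict_mem measurableSet_ball] with z hz
  simpa using hz

lemma lint_pow (k : ℕ) : ∫⁻ z in Metric.ball (0:ℂ) 1, ENNReal.ofReal (cc k * ‖z‖ ^ (2 * NN k))
    = ENNReal.ofReal (cc k * (Real.pi / (NN k + 1))) := by
  rw [← ofReal_integral_eq_lintegral_ofReal, integral_const_mul, ball_pow]
  · exact (ball_pow_int _).const_mul _
  · exact Filter.Eventually.of_forall fun z => term_nonneg k z

lemma mu0_univ_le : mu0 Set.univ ≤ ENNReal.ofReal (2 * Real.pi) := by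
  rw [mu0, withDensity_apply _ MeasurableSet.univ, Measure.restrict_univ]
  unfold s0E
  rw [lintegral_tsum (fun k => by fun_prop)]
  have h1 : ∀ k, ∫⁻ z in Metric.ball (0:ℂ) 1, ENNReal.ofReal (cc k * ‖z‖ ^ (2 * NN k))
      ≤ ENNReal.ofReal (Real.pi * (1 / 2) ^ k) := by
    intro k
    rw [lint_pow]
    refine ENNReal.ofReal_le_ofReal (le_of_eq ?_)
    unfold cc
    have h2 : (0:ℝ) < (NN k : ℝ) + 1 := by positivity
    rw [one_div_pow]
    field_simp
  refine (ENNReal.tsum_le_tsum h1).trans ?_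
  rw [← ENNReal.ofReal_tsum_of_nonneg (fun k => by positivity) (summable_geometric_two.mul_left _),
    tsum_mul_left, tsum_geometric_two]
  rw [mul_comm]

instance mu0_fin : IsFiniteMeasure mu0 := ⟨mu0_univ_le.trans_lt ENNReal.ofReal_lt_top⟩

lemma mom_mu0_ge (m k : ℕ) : cc k * (Real.pi / (NN k + m + 1)) ≤ mom mu0 m := by
  set μk : Measure ℂ := (volume.restrict (Metric.ball (0:ℂ) 1)).withDensity
    (fun z => ENNReal.ofReal (cc k * ‖z‖ ^ (2 * NN k))) with hμk
  have hle : μk ≤ mu0 := by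
    refine withDensity_mono (Filter.Eventually.of_forall fun z => ?_)
    exact ENNReal.le_tsum k
  have h1 : ∫ z, ‖z‖ ^ (2 * m) ∂μk ≤ ∫ z, ‖z‖ ^ (2 * m) ∂mu0 :=
    integral_mono_measure hle (Filter.Eventually.of_forall fun z => by positivity)
      (int_norm_pow mu0_lt _)
  have h2 : ∫ z, ‖z‖ ^ (2 * m) ∂μk = cc k * (Real.pi / (NN k + m + 1)) := by
    rw [hμk, integral_withDensity_eq_integral_toReal_smul (by fun_prop) (by simp)]
    have : ∀ z : ℂ, (ENNReal.ofReal (cc k * ‖z‖ ^ (2 * NN k))).toReal • ‖z‖ ^ (2 * m)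
        = cc k * ‖z‖ ^ (2 * (NN k + m)) := by
      intro z
      rw [ENNReal.toReal_ofReal (term_nonneg k z), smul_eq_mul, mul_assoc, ← pow_add]
      ring_nf
    simp_rw [this]
    rw [integral_const_mul, ball_pow]
    push_cast
    ring
  rw [mom, ← h2]
  exact h1

lemma mom_mu0_pos (m : ℕ) : 0 < mom mu0 m := by
  refine lt_of_lt_of_le ?_ (mom_mu0_ge m 0)
  have := cc_pos 0
  have := Real.pi_pos
  positivity

lemma mom_mu0_ge' {m k : ℕ} (h : m ≤ NN k + 1) : (1 / 2) ^ k * (Real.pi / 3) ≤ mom mu0 m := by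
  refine le_trans ?_ (mom_mu0_ge m k)
  have h3 : (m:ℝ) ≤ NN k + 1 := by exact_mod_cast h
  unfold cc
  have h4 : ((NN k : ℝ) + 1) / 2 ^ k * (Real.pi / (NN k + m + 1))
      = (1 / 2) ^ k * (Real.pi * ((NN k + 1) / (NN k + m + 1))) := by
    rw [one_div_pow]; ring
  rw [h4]
  have h5 : (1:ℝ) / 3 ≤ (NN k + 1) / (NN k + m + 1) := by
    rw [div_le_div_iff₀ (by norm_num) (by positivity)]
    linarith
  have : Real.pi / 3 = Real.pi * (1 / 3) := by ring
  rw [this]
  gcongr

end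

end Pool.Agent.Helper66.Berg
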