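import Pool.Agent.Helper66.BergF

set_option autoImplicit false
open MeasureTheory Complex Set Filter Topology
open scoped ENNReal NNReal ComplexConjugate

namespace Pool.Agent.Helper66.Berg

noncomputable section

/-- Poisson kernel at the boundary point 1 -/
def wW (z : ℂ) : ℝ := (1 - ‖z‖ ^ 2) / ‖1 - z‖ ^ 2

/-- the second weight -/
def sW (z : ℂ) : ℝ := ‖1 - z‖ ^ 2 * s0 z

lemma lint_mu0 (g : ℂ → ℝ≥0∞) :
    ∫⁻ z, g z ∂mu0 = ∫⁻ z in Metric.ball (0:ℂ) 1, ENNReal.ofReal (s0 z) * g z := by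
  rw [mu0, lintegral_withDensity_eq_lintegral_mul_non_measurable _ s0E_meas]
  · refine setLIntegral_congr_fun measurableSet_ball fun z hz => ?_
    have hz' : ‖z‖ < 1 := by simpa using hz
    simp only [Pi.mul_apply]
    rw [s0E_eq hz']
  · filter_upwards [ae_restrict_mem measurableSet_ball] with z hz
    have hz' : ‖z‖ < 1 := by simpa using hz
    rw [s0E_eq hz']
    exact ENNReal.ofReal_lt_top

lemma int_mu0 (g : ℂ → ℂ) :
    ∫ z, g z ∂mu0 = ∫ z in Metric.ball (0:ℂ) 1, (s0 z : ℂ) * g z := by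
  rw [mu0, integral_withDensity_eq_integral_toReal_smul s0E_meas]
  · refine setIntegral_congr_fun measurableSet_ball fun z hz => ?_
    have hz' : ‖z‖ < 1 := by simpa using hz
    rw [s0E_eq hz', ENNReal.toReal_ofReal (s0_nonneg z)]
    simp
  · filter_upwards [ae_restrict_mem measurableSet_ball] with z hz
    have hz' : ‖z‖ < 1 := by simpa using hz
    rw [s0E_eq hz']
    exact ENNReal.ofReal_lt_top

lemma lint_nu (g : ℂ → ℝ≥0∞) :
    ∫⁻ z, g z ∂nu = ∫⁻ z in Metric.ball (0:ℂ) 1, ENNReal.ofReal (1 - ‖z‖ ^ 2) * g z := by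
  rw [nu, lintegral_withDensity_eq_lintegral_mul_non_measurable _ (by fun_prop)]
  · rfl
  · exact Filter.Eventually.of_forall fun z => ENNReal.ofReal_lt_top

lemma one_sub_ne {z : ℂ} (hz : ‖z‖ < 1) : (1 - z) ≠ 0 := by
  intro h
  have : z = 1 := by linear_combination -h
  rw [this] at hz
  simp at hz

theorem PB_bound (f : ℂ → ℂ) (hf : Measurable f) (hb : ∃ M : ℝ, ∀ z, ‖f z‖ ≤ M) :
    ∫⁻ z in Metric.ball (0:ℂ) 1,
        ‖∫ ζ in Metric.ball (0:ℂ) 1,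
          f ζ * (sW ζ : ℂ) / (1 - z * starRingEnd ℂ ζ) ^ 2‖ₑ ^ 2 * ENNReal.ofReal (wW z)
      ≤ ((10 * Real.pi * mom mu0 0).toNNReal : ℝ≥0∞) *
        ∫⁻ ζ in Metric.ball (0:ℂ) 1, ‖f ζ‖ₑ ^ 2 * ENNReal.ofReal (sW ζ) := by
  obtain ⟨M, hM⟩ := hb
  have hM0 : 0 ≤ M := (norm_nonneg _).trans (hM 0)
  set F : ℂ → ℂ := fun ζ => (1 - ζ) * f ζ with hF
  have hFm : Measurable F := by
    simp only [hF]; fun_prop
  have hK : ∀ᵐ z ∂mu0, ‖F z‖ ≤ 2 * M := by
    filter_upwards [mu0_lt] with z hz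
    simp only [hF, norm_mul]
    have h2 : ‖1 - z‖ ≤ 2 := by
      calc ‖1 - z‖ ≤ ‖(1:ℂ)‖ + ‖z‖ := norm_sub_le _ _
        _ ≤ 2 := by rw [norm_one]; linarith
    exact mul_le_mul h2 (hM z) (norm_nonneg _) (by norm_num)
  have h1 := main_upper mu0_rotInv mu0_lt hFm hK mom_mu0_pos
  have hP : ∀ z : ℂ, ∫ ζ, F ζ * (1 - conj ζ) / (1 - z * conj ζ) ^ 2 ∂mu0
      = ∫ ζ in Metric.ball (0:ℂ) 1, f ζ * (sW ζ : ℂ) / (1 - z * starRingEnd ℂ ζ) ^ 2 := by
    intro z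
    rw [int_mu0]
    refine setIntegral_congr_fun measurableSet_ball fun ζ hζ => ?_
    simp only [hF, sW]
    have : (((‖1 - ζ‖ ^ 2 * s0 ζ : ℝ)) : ℂ) = (1 - ζ) * (1 - conj ζ) * s0 ζ := by
      have h2 : (1 - ζ) * (1 - conj ζ) = ((‖1 - ζ‖ ^ 2 : ℝ) : ℂ) := by
        have : 1 - conj ζ = conj (1 - ζ) := by simp
        rw [this, Complex.mul_conj']
        push_cast; rfl
      rw [h2]; push_cast; ring
    rw [this]
    ring
  simp_rw [hP] at h1
  rw [lint_nu] at h1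
  have h2 : ∫⁻ z in Metric.ball (0:ℂ) 1,
        ‖∫ ζ in Metric.ball (0:ℂ) 1,
          f ζ * (sW ζ : ℂ) / (1 - z * starRingEnd ℂ ζ) ^ 2‖ₑ ^ 2 * ENNReal.ofReal (wW z)
      = ∫⁻ z in Metric.ball (0:ℂ) 1, ENNReal.ofReal (1 - ‖z‖ ^ 2) *
        ‖(∫ ζ in Metric.ball (0:ℂ) 1,
          f ζ * (sW ζ : ℂ) / (1 - z * starRingEnd ℂ ζ) ^ 2) / (1 - z)‖ₑ ^ 2 := by
    refine setLIntegral_congr_fun measurableSet_ball fun z hz => ?_
    have hz' : ‖z‖ < 1 := by simpa using hz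
    have hne := one_sub_ne hz'
    have hpos : 0 < ‖1 - z‖ := norm_pos_iff.mpr hne
    simp only [wW]
    set A := ∫ ζ in Metric.ball (0:ℂ) 1, f ζ * (sW ζ : ℂ) / (1 - z * starRingEnd ℂ ζ) ^ 2
    rw [← ofReal_norm, ← ofReal_norm, ← ENNReal.ofReal_pow (norm_nonneg _),
      ← ENNReal.ofReal_pow (norm_nonneg _), ← ENNReal.ofReal_mul (by positivity),
      ← ENNReal.ofReal_mul (by nlinarith [norm_nonneg z]), norm_div]
    congr 1
    field_simp
  rw [h2]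
  refine h1.trans ?_
  have h3 : ∫⁻ ζ in Metric.ball (0:ℂ) 1, ‖f ζ‖ₑ ^ 2 * ENNReal.ofReal (sW ζ)
      = ENNReal.ofReal (∫ z, ‖F z‖ ^ 2 ∂mu0) := by
    rw [ofReal_integral_eq_lintegral_ofReal]
    · rw [lint_mu0]
      refine setLIntegral_congr_fun measurableSet_ball fun ζ hζ => ?_
      simp only [hF, sW]
      rw [← ofReal_norm, ← ENNReal.ofReal_pow (norm_nonneg _), ← ENNReal.ofReal_mul (by positivity),
        ← ENNReal.ofReal_mul (s0_nonneg _), norm_mul]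
      congr 1
      ring
    · refine Integrable.of_bound ((hFm.norm.pow_const 2).aestronglyMeasurable) ((2 * M) ^ 2) ?_
      filter_upwards [hK] with z hk
      rw [norm_pow, norm_norm]
      gcongr
    · exact Filter.Eventually.of_forall fun z => by positivity
  rw [h3]
  have h4 : (0:ℝ) ≤ 10 * Real.pi * mom mu0 0 := by
    have := mom_mu0_pos 0
    have := Real.pi_pos
    positivity
  have h5 : ((10 * Real.pi * mom mu0 0).toNNReal : ℝ≥0∞) = ENNReal.ofReal (10 * Real.pi * mom mu0 0) := rfl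
  rw [h5, ← ENNReal.ofReal_mul h4]
  refine ENNReal.ofReal_le_ofReal (le_of_eq ?_)
  ring

end

end Pool.Agent.Helper66.Berg
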