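import Pool.Agent.Helper66.BergG

set_option autoImplicit false
open MeasureTheory Complex Set Filter Topology
open scoped ENNReal NNReal ComplexConjugate

namespace Pool.Agent.Helper66.Berg

noncomputable section

lemma sum_closed (t : ℝ) (n : ℕ) :
    (1 - t) ^ 2 * ∑ m ∈ Finset.range n, ((m:ℝ) + 1) * t ^ m = 1 - (n + 1) * t ^ n + n * t ^ (n + 1) := by
  induction n with
  | zero => simp
  | succ n ih =>
    rw [Finset.sum_range_succ, mul_add, ih]
    push_cast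
    ring

lemma sum_sq_ge {t : ℝ} (h0 : 0 ≤ t) (h1 : t < 1) (n : ℕ) :
    ∑ m ∈ Finset.range n, ((m:ℝ) + 1) * t ^ m ≤ (∑ m ∈ Finset.range n, t ^ m) ^ 2 := by
  have h2 : (1 - t) * ∑ m ∈ Finset.range n, t ^ m = 1 - t ^ n := by
    rw [mul_comm]; exact geom_sum_mul_neg t n
  have h3 : 0 < (1 - t) ^ 2 := by nlinarith
  refine le_of_mul_le_mul_left ?_ h3
  rw [sum_closed, ← mul_pow, h2]
  have h4 : 1 + (n:ℝ) * (t - 1) ≤ (1 + (t - 1)) ^ n := one_add_mul_le_pow (by linarith) n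
  have h5 : 0 ≤ t ^ n := by positivity
  have h6 : (1 + (t - 1)) ^ n = t ^ n := by ring
  rw [h6] at h4
  have h7 : t ^ (n + 1) = t ^ n * t := pow_succ t n
  rw [h7]
  nlinarith [mul_nonneg h5 (sub_nonneg.mpr h4)]

lemma sum_inv_ge (n : ℕ) : Real.log (n + 2) - Real.log 2 ≤ ∑ m ∈ Finset.range n, 1 / ((m:ℝ) + 2) := by
  induction n with
  | zero => simp
  | succ n ih =>
    rw [Finset.sum_range_succ]
    have h1 : Real.log ((n + 3) / (n + 2)) ≤ (n + 3) / (n + 2) - 1 :=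
      Real.log_le_sub_one_of_pos (by positivity)
    rw [Real.log_div (by positivity) (by positivity)] at h1
    have h2 : ((n:ℝ) + 3) / (n + 2) - 1 = 1 / (n + 2) := by field_simp; ring
    push_cast
    have h3 : ((n:ℝ) + 1 + 2) = n + 3 := by ring
    rw [h3]
    linarith

/-- partial geometric sums -/
def SS (n : ℕ) (z : ℂ) : ℝ := ∑ m ∈ Finset.range n, ‖z‖ ^ (2 * m)

lemma SS_cont (n : ℕ) : Continuous (SS n) := by unfold SS; fun_prop

lemma SS_nonneg (n : ℕ) (z : ℂ) : 0 ≤ SS n z := Finset.sum_nonneg fun _ _ => by positivity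

lemma SS_le (n : ℕ) {z : ℂ} (hz : ‖z‖ < 1) : SS n z ≤ n := by
  unfold SS
  calc _ ≤ ∑ _m ∈ Finset.range n, (1:ℝ) := Finset.sum_le_sum fun m _ => pow_le_one₀ (norm_nonneg _) hz.le
    _ = n := by simp

lemma nu_int {g : ℂ → ℝ} (hg : Continuous g) {K : ℝ} (hK : ∀ z, ‖z‖ < 1 → ‖g z‖ ≤ K) :
    Integrable g nu := by
  refine Integrable.of_bound hg.aestronglyMeasurable K ?_
  filter_upwards [nu_lt] with z hz
  exact hK z hz

lemma lower_nu (n : ℕ) :
    Real.pi * (Real.log (n + 2) - Real.log 2) ≤ ∫ z, ‖1 - z‖ ^ 2 * SS n z ^ 2 ∂nu := by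
  have hc1 : Continuous (fun z : ℂ => ‖1 - z‖ ^ 2 * SS n z ^ 2) := by
    have := SS_cont n; fun_prop
  have hc2 : Continuous (fun z : ℂ => ‖1 + z‖ ^ 2 * SS n z ^ 2) := by
    have := SS_cont n; fun_prop
  have hc3 : Continuous (fun z : ℂ => SS n z ^ 2) := by
    have := SS_cont n; fun_prop
  have hb : ∀ z : ℂ, ‖z‖ < 1 → SS n z ^ 2 ≤ (n:ℝ) ^ 2 := fun z hz => by
    have := SS_le n hz
    have := SS_nonneg n z
    gcongr
  have i1 : Integrable (fun z : ℂ => ‖1 - z‖ ^ 2 * SS n z ^ 2) nu := by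
    refine nu_int hc1 (K := 2 ^ 2 * (n:ℝ) ^ 2) fun z hz => ?_
    rw [Real.norm_eq_abs, abs_of_nonneg (by positivity)]
    have h2 : ‖1 - z‖ ≤ 2 := by
      calc ‖1 - z‖ ≤ ‖(1:ℂ)‖ + ‖z‖ := norm_sub_le _ _
        _ ≤ 2 := by rw [norm_one]; linarith
    have := hb z hz
    gcongr
  have i2 : Integrable (fun z : ℂ => ‖1 + z‖ ^ 2 * SS n z ^ 2) nu := by
    refine nu_int hc2 (K := 2 ^ 2 * (n:ℝ) ^ 2) fun z hz => ?_
    rw [Real.norm_eq_abs, abs_of_nonneg (by positivity)]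
    have h2 : ‖1 + z‖ ≤ 2 := by
      calc ‖1 + z‖ ≤ ‖(1:ℂ)‖ + ‖z‖ := norm_add_le _ _
        _ ≤ 2 := by rw [norm_one]; linarith
    have := hb z hz
    gcongr
  have i3 : Integrable (fun z : ℂ => SS n z ^ 2) nu := by
    refine nu_int hc3 (K := (n:ℝ) ^ 2) fun z hz => ?_
    rw [Real.norm_eq_abs, abs_of_nonneg (by positivity)]
    exact hb z hz
  have hsym : ∫ z, ‖1 + z‖ ^ 2 * SS n z ^ 2 ∂nu = ∫ z, ‖1 - z‖ ^ 2 * SS n z ^ 2 ∂nu := by
    conv_lhs => rw [← nu_rotInv (-1) (by simp)]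
    rw [integral_map (by fun_prop) hc2.aestronglyMeasurable]
    congr 1
    ext z
    have : SS n (-1 * z) = SS n z := by simp [SS]
    rw [this]
    congr 3
    ring
  have hsum : 2 * ∫ z, SS n z ^ 2 ∂nu ≤ 2 * ∫ z, ‖1 - z‖ ^ 2 * SS n z ^ 2 ∂nu := by
    have : 2 * ∫ z, ‖1 - z‖ ^ 2 * SS n z ^ 2 ∂nu
        = ∫ z, (‖1 - z‖ ^ 2 * SS n z ^ 2 + ‖1 + z‖ ^ 2 * SS n z ^ 2) ∂nu := by
      rw [integral_add i1 i2, hsym]; ring
    rw [this, ← integral_const_mul]
    refine integral_mono (i3.const_mul 2) (i1.add i2) fun z => ?_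
    have h1 : ‖1 - z‖ ^ 2 + ‖1 + z‖ ^ 2 = 2 + 2 * ‖z‖ ^ 2 := by
      rw [← Complex.normSq_eq_norm_sq, ← Complex.normSq_eq_norm_sq, ← Complex.normSq_eq_norm_sq,
        Complex.normSq_sub, Complex.normSq_add]
      simp
      ring
    simp only
    rw [← add_mul, h1]
    nlinarith [sq_nonneg (SS n z), sq_nonneg ‖z‖, mul_nonneg (sq_nonneg ‖z‖) (sq_nonneg (SS n z))]
  have h2 : ∑ m ∈ Finset.range n, ((m:ℝ) + 1) * mom nu m ≤ ∫ z, SS n z ^ 2 ∂nu := by
    have : ∑ m ∈ Finset.range n, ((m:ℝ) + 1) * mom nu m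
        = ∫ z, ∑ m ∈ Finset.range n, ((m:ℝ) + 1) * ‖z‖ ^ (2 * m) ∂nu := by
      rw [integral_finsetSum]
      · refine Finset.sum_congr rfl fun m _ => ?_
        rw [integral_const_mul]; rfl
      · intro m _
        exact (int_norm_pow nu_lt _).const_mul _
    rw [this]
    refine integral_mono_ae (integrable_finsetSum _ fun m _ => (int_norm_pow nu_lt _).const_mul _) i3 ?_
    filter_upwards [nu_lt] with z hz
    have h3 := sum_sq_ge (sq_nonneg ‖z‖) (by nlinarith [norm_nonneg z]) n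
    simp_rw [← pow_mul] at h3
    exact h3
  have h3 : ∑ m ∈ Finset.range n, ((m:ℝ) + 1) * mom nu m
      = Real.pi * ∑ m ∈ Finset.range n, 1 / ((m:ℝ) + 2) := by
    rw [Finset.mul_sum]
    refine Finset.sum_congr rfl fun m _ => ?_
    rw [mom_nu]
    have h1 : ((m:ℝ) + 1) ≠ 0 := by positivity
    have h2 : ((m:ℝ) + 2) ≠ 0 := by positivity
    field_simp
  have h4 := sum_inv_ge n
  have h5 := Real.pi_pos
  nlinarith [mul_le_mul_of_nonneg_left h4 h5.le]

/-- the kernel -/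
def kk (z ζ : ℂ) : ℝ≥0∞ := ENNReal.ofReal (‖1 - ζ‖ ^ 2) / ‖1 - z * conj ζ‖ₑ ^ 2

lemma kk_meas : Measurable (fun p : ℂ × ℂ => kk p.1 p.2) := by
  unfold kk
  fun_prop

lemma A_lower (k : ℕ) {z : ℂ} (hz : ‖z‖ < 1) :
    ENNReal.ofReal (‖1 - z‖ ^ 2 * ((1 / 2) ^ k * (Real.pi / 3) * SS (NN k + 1) z)) ≤ ∫⁻ ζ, kk z ζ ∂mu0 := by
  have h1 := lower_h mu0_rotInv mu0_lt mom_mu0_pos hz (NN k + 1)
  have hb : ∀ᵐ ζ ∂mu0, ‖(1 - ζ) / (1 - conj z * ζ)‖ ≤ 2 / (1 - ‖z‖) := by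
    filter_upwards [mu0_lt] with ζ h1
    rw [norm_div]
    have h2 : ‖1 - ζ‖ ≤ 2 := by
      calc ‖1 - ζ‖ ≤ ‖(1:ℂ)‖ + ‖ζ‖ := norm_sub_le _ _
        _ ≤ 2 := by rw [norm_one]; linarith
    have h3 : 1 - ‖z‖ ≤ ‖1 - conj z * ζ‖ := by
      have : ‖(1:ℂ)‖ - ‖conj z * ζ‖ ≤ ‖1 - conj z * ζ‖ := norm_sub_norm_le _ _
      rw [norm_one, norm_mul, RCLike.norm_conj] at this
      nlinarith [norm_nonneg z, norm_nonneg ζ]
    have h4 : 0 < 1 - ‖z‖ := by linarith
    exact div_le_div₀ (by norm_num) h2 h4 h3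
  have h2 : ∫⁻ ζ, kk z ζ ∂mu0 = ENNReal.ofReal (∫ ζ, ‖(1 - ζ) / (1 - conj z * ζ)‖ ^ 2 ∂mu0) := by
    rw [ofReal_integral_eq_lintegral_ofReal]
    · refine lintegral_congr_ae ?_
      filter_upwards [mu0_lt] with ζ h1
      have h3 : ‖1 - conj z * ζ‖ = ‖1 - z * conj ζ‖ := by
        have : 1 - conj z * ζ = conj (1 - z * conj ζ) := by simp
        rw [this, RCLike.norm_conj]
      have h4 : 0 < ‖1 - z * conj ζ‖ := by
        rw [norm_pos_iff]
        apply one_sub_ne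
        rw [norm_mul, RCLike.norm_conj]
        nlinarith [norm_nonneg z, norm_nonneg ζ]
      unfold kk
      rw [← ofReal_norm, ← ENNReal.ofReal_pow (norm_nonneg _), norm_div, h3, div_pow,
        ENNReal.ofReal_div_of_pos (by positivity)]
    · refine Integrable.of_bound (Measurable.aestronglyMeasurable (by fun_prop)) ((2 / (1 - ‖z‖)) ^ 2) ?_
      filter_upwards [hb] with ζ hk
      rw [norm_pow, norm_norm]
      gcongr
    · exact Filter.Eventually.of_forall fun z => by positivity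
  rw [h2]
  refine ENNReal.ofReal_le_ofReal (le_trans ?_ h1)
  refine mul_le_mul_of_nonneg_left ?_ (by positivity)
  unfold SS
  rw [Finset.mul_sum]
  refine Finset.sum_le_sum fun m hm => ?_
  have : m + 1 ≤ NN k + 1 := Finset.mem_range.mp hm
  have h3 := mom_mu0_ge' this
  rw [mul_comm]
  exact mul_le_mul_of_nonneg_left h3 (by positivity)

lemma int_lower (k : ℕ) :
    ENNReal.ofReal (((1 / 2) ^ k * (Real.pi / 3)) ^ 2 * (Real.pi * (Real.log (((NN k + 1 : ℕ) : ℝ) + 2) - Real.log 2)))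
      ≤ ∫⁻ z in Metric.ball (0:ℂ) 1, (∫⁻ ζ, kk z ζ ∂mu0) ^ 2 * ENNReal.ofReal (wW z) := by
  set c : ℝ := (1 / 2) ^ k * (Real.pi / 3) with hc
  have hc0 : 0 ≤ c := by have := Real.pi_pos; positivity
  calc ENNReal.ofReal (c ^ 2 * (Real.pi * (Real.log (((NN k + 1 : ℕ) : ℝ) + 2) - Real.log 2)))
      ≤ ENNReal.ofReal (∫ z, c ^ 2 * (‖1 - z‖ ^ 2 * SS (NN k + 1) z ^ 2) ∂nu) := by
        refine ENNReal.ofReal_le_ofReal ?_
        rw [integral_const_mul]
        exact mul_le_mul_of_nonneg_left (lower_nu _) (by positivity)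
    _ = ∫⁻ z, ENNReal.ofReal (c ^ 2 * (‖1 - z‖ ^ 2 * SS (NN k + 1) z ^ 2)) ∂nu := by
        rw [ofReal_integral_eq_lintegral_ofReal]
        · refine Integrable.const_mul ?_ _
          have hc1 : Continuous (fun z : ℂ => ‖1 - z‖ ^ 2 * SS (NN k + 1) z ^ 2) := by
            have := SS_cont (NN k + 1); fun_prop
          refine nu_int hc1 (K := 2 ^ 2 * ((NN k + 1 : ℕ):ℝ) ^ 2) fun z hz => ?_
          rw [Real.norm_eq_abs, abs_of_nonneg (by positivity)]
          have h2 : ‖1 - z‖ ≤ 2 := by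
            calc ‖1 - z‖ ≤ ‖(1:ℂ)‖ + ‖z‖ := norm_sub_le _ _
              _ ≤ 2 := by rw [norm_one]; linarith
          have := SS_le (NN k + 1) hz
          have := SS_nonneg (NN k + 1) z
          gcongr
        · exact Filter.Eventually.of_forall fun z => by positivity
    _ = ∫⁻ z in Metric.ball (0:ℂ) 1, ENNReal.ofReal (1 - ‖z‖ ^ 2) *
          ENNReal.ofReal (c ^ 2 * (‖1 - z‖ ^ 2 * SS (NN k + 1) z ^ 2)) := lint_nu _
    _ ≤ _ := by
        refine setLIntegral_mono' measurableSet_ball fun z hz => ?_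
        have hz' : ‖z‖ < 1 := by simpa using hz
        have h1 := A_lower k hz'
        have hpos : 0 < ‖1 - z‖ := norm_pos_iff.mpr (one_sub_ne hz')
        have h3 : 0 ≤ 1 - ‖z‖ ^ 2 := by nlinarith [norm_nonneg z]
        calc ENNReal.ofReal (1 - ‖z‖ ^ 2) * ENNReal.ofReal (c ^ 2 * (‖1 - z‖ ^ 2 * SS (NN k + 1) z ^ 2))
            = ENNReal.ofReal (‖1 - z‖ ^ 2 * (c * SS (NN k + 1) z)) ^ 2 * ENNReal.ofReal (wW z) := by
              have h4 := SS_nonneg (NN k + 1) z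
              rw [← ENNReal.ofReal_mul h3, ← ENNReal.ofReal_pow (by positivity),
                ← ENNReal.ofReal_mul (by positivity)]
              congr 1
              unfold wW
              field_simp
          _ ≤ _ := by gcongr

theorem PBplus_unbounded :
    ¬ ∃ C : NNReal, ∀ f : ℂ → ℂ, Measurable f → (∃ M : ℝ, ∀ z, ‖f z‖ ≤ M) →
        (∃ s : ℝ, s < 1 ∧ ∀ z : ℂ, s < ‖z‖ → f z = 0) →
        ∫⁻ z in Metric.ball (0:ℂ) 1,
            (∫⁻ ζ in Metric.ball (0:ℂ) 1,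
                ‖f ζ‖ₑ * ENNReal.ofReal (sW ζ) / ‖1 - z * starRingEnd ℂ ζ‖ₑ ^ 2) ^ 2
              * ENNReal.ofReal (wW z)
          ≤ (C : ENNReal) * ∫⁻ ζ in Metric.ball (0:ℂ) 1, ‖f ζ‖ₑ ^ 2 * ENNReal.ofReal (sW ζ) := by
  rintro ⟨C, hC⟩
  set R : ℕ → ℝ := fun n => 1 - 1 / ((n:ℝ) + 2) with hR
  set f : ℕ → ℂ → ℂ := fun n => (Metric.closedBall (0:ℂ) (R n)).indicator (fun _ => 1) with hf
  have hfm : ∀ n, Measurable (f n) := fun n => measurable_const.indicator measurableSet_closedBall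
  have hf1 : ∀ n z, ‖f n z‖ ≤ 1 := by
    intro n z
    simp only [hf, Set.indicator]
    split_ifs <;> simp
  have hf1' : ∀ n z, ‖f n z‖ₑ ≤ 1 := by
    intro n z
    simp only [hf, Set.indicator]
    split_ifs <;> simp
  have hsW : ∀ ζ : ℂ, ENNReal.ofReal (sW ζ) = ENNReal.ofReal (s0 ζ) * ENNReal.ofReal (‖1 - ζ‖ ^ 2) := by
    intro ζ
    unfold sW
    rw [mul_comm, ENNReal.ofReal_mul (s0_nonneg _)]
  set A : ℕ → ℂ → ℝ≥0∞ := fun n z => ∫⁻ ζ, ‖f n ζ‖ₑ * kk z ζ ∂mu0 with hA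
  have hAeq : ∀ n z, (∫⁻ ζ in Metric.ball (0:ℂ) 1,
      ‖f n ζ‖ₑ * ENNReal.ofReal (sW ζ) / ‖1 - z * starRingEnd ℂ ζ‖ₑ ^ 2) = A n z := by
    intro n z
    simp only [hA]
    rw [lint_mu0]
    refine setLIntegral_congr_fun measurableSet_ball fun ζ _ => ?_
    simp only [kk]
    rw [hsW, div_eq_mul_inv, div_eq_mul_inv]
    ring
  set K : ℝ≥0∞ := C * (4 * mu0 Set.univ) with hK
  have hKtop : K ≠ ∞ := by
    refine ENNReal.mul_ne_top ENNReal.coe_ne_top (ENNReal.mul_ne_top (by norm_num) ?_)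
    exact measure_ne_top _ _
  have hbound : ∀ n, ∫⁻ z in Metric.ball (0:ℂ) 1, A n z ^ 2 * ENNReal.ofReal (wW z) ≤ K := by
    intro n
    have hRn : R n < 1 := by
      simp only [hR]
      have : (0:ℝ) < 1 / ((n:ℝ) + 2) := by positivity
      linarith
    have hsupp : ∀ z : ℂ, R n < ‖z‖ → f n z = 0 := by
      intro z hz
      simp only [hf, Set.indicator]
      rw [if_neg]
      simpa using hz
    have h1 := hC (f n) (hfm n) ⟨1, hf1 n⟩ ⟨R n, hRn, hsupp⟩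
    simp_rw [hAeq] at h1
    refine h1.trans ?_
    rw [hK]
    gcongr
    calc ∫⁻ ζ in Metric.ball (0:ℂ) 1, ‖f n ζ‖ₑ ^ 2 * ENNReal.ofReal (sW ζ)
        ≤ ∫⁻ ζ in Metric.ball (0:ℂ) 1, ENNReal.ofReal (s0 ζ) * 4 := by
          refine setLIntegral_mono' measurableSet_ball fun ζ hζ => ?_
          have hζ' : ‖ζ‖ < 1 := by simpa using hζ
          rw [hsW]
          have h2 : ‖1 - ζ‖ ≤ 2 := by
            calc ‖1 - ζ‖ ≤ ‖(1:ℂ)‖ + ‖ζ‖ := norm_sub_le _ _
              _ ≤ 2 := by rw [norm_one]; linarith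
          have h3 : ENNReal.ofReal (‖1 - ζ‖ ^ 2) ≤ 4 := by
            calc ENNReal.ofReal (‖1 - ζ‖ ^ 2) ≤ ENNReal.ofReal 4 := by
                  refine ENNReal.ofReal_le_ofReal ?_
                  nlinarith [norm_nonneg (1 - ζ)]
              _ = 4 := by norm_num
          calc ‖f n ζ‖ₑ ^ 2 * (ENNReal.ofReal (s0 ζ) * ENNReal.ofReal (‖1 - ζ‖ ^ 2))
              ≤ 1 ^ 2 * (ENNReal.ofReal (s0 ζ) * 4) := by
                gcongr
                exact hf1' n ζ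
            _ = _ := by rw [one_pow, one_mul]
      _ = ∫⁻ ζ, 4 ∂mu0 := (lint_mu0 _).symm
      _ = 4 * mu0 Set.univ := by simp
  have hlim : ∀ z, Tendsto (fun n => A n z) atTop (𝓝 (∫⁻ ζ, kk z ζ ∂mu0)) := by
    intro z
    have hkz : Measurable (fun ζ => kk z ζ) := by
      unfold kk
      fun_prop
    refine lintegral_tendsto_of_tendsto_of_monotone (fun n => ?_) ?_ ?_
    · exact ((hfm n).enorm.mul hkz).aemeasurable
    · refine Filter.Eventually.of_forall fun ζ => ?_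
      intro n m hnm
      simp only
      have h1 : ‖f n ζ‖ₑ ≤ ‖f m ζ‖ₑ := by
        have h2 : R n ≤ R m := by
          simp only [hR]
          have : (n:ℝ) ≤ m := by exact_mod_cast hnm
          have : 1 / ((m:ℝ) + 2) ≤ 1 / ((n:ℝ) + 2) := by gcongr
          linarith
        simp only [hf, Set.indicator]
        split_ifs with h3 h4
        · exact le_rfl
        · exfalso
          apply h4
          exact Metric.closedBall_subset_closedBall h2 h3
        · simp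
        · exact le_rfl
      gcongr
    · filter_upwards [mu0_lt] with ζ hζ
      have h1 : ∀ᶠ n in atTop, f n ζ = 1 := by
        have h2 : Tendsto (fun n : ℕ => 1 - 1 / ((n:ℝ) + 2)) atTop (𝓝 (1 - 0)) := by
          refine Tendsto.const_sub 1 ?_
          have := tendsto_one_div_add_atTop_nhds_zero_nat (𝕜 := ℝ)
          have h3 := (tendsto_add_atTop_iff_nat (f := fun n : ℕ => 1 / ((n:ℝ) + 1)) 1).mpr this
          refine h3.congr fun n => ?_
          push_cast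
          ring_nf
        rw [sub_zero] at h2
        filter_upwards [h2.eventually (eventually_gt_nhds hζ)] with n hn
        simp only [hf, Set.indicator]
        rw [if_pos]
        simp only [Metric.mem_closedBall, dist_zero_right, hR]
        exact hn.le
      refine Tendsto.congr' ?_ tendsto_const_nhds
      filter_upwards [h1] with n hn
      rw [hn]
      simp
  have hfatou : ∫⁻ z in Metric.ball (0:ℂ) 1, (∫⁻ ζ, kk z ζ ∂mu0) ^ 2 * ENNReal.ofReal (wW z) ≤ K := by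
    have h1 : ∀ z, (∫⁻ ζ, kk z ζ ∂mu0) ^ 2 * ENNReal.ofReal (wW z)
        = liminf (fun n => A n z ^ 2 * ENNReal.ofReal (wW z)) atTop := by
      intro z
      refine (Tendsto.liminf_eq ?_).symm
      exact ENNReal.Tendsto.mul_const (ENNReal.Tendsto.pow (hlim z)) (Or.inr ENNReal.ofReal_ne_top)
    simp_rw [h1]
    refine (lintegral_liminf_le ?_).trans ?_
    · intro n
      have h2 : Measurable (A n) := by
        simp only [hA]
        refine Measurable.lintegral_prod_right' (f := fun p : ℂ × ℂ => ‖f n p.2‖ₑ * kk p.1 p.2) ?_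
        exact ((hfm n).comp measurable_snd).enorm.mul kk_meas
      refine (h2.pow_const 2).mul ?_
      unfold wW
      fun_prop
    · refine liminf_le_of_le (by isBoundedDefault) ?_
      intro b hb
      obtain ⟨M, hM⟩ := hb.exists
      exact hM.trans (hbound M)
  have hfin : ∀ k : ℕ, ((1 / 2) ^ k * (Real.pi / 3)) ^ 2 * (Real.pi * (Real.log (((NN k + 1 : ℕ) : ℝ) + 2) - Real.log 2))
      ≤ K.toReal := by
    intro k
    have h1 := (int_lower k).trans hfatou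
    rw [← ENNReal.ofReal_toReal hKtop] at h1
    exact (ENNReal.ofReal_le_ofReal_iff ENNReal.toReal_nonneg).mp h1
  have hlog : ∀ k : ℕ, ((16:ℝ) ^ k - 1) * Real.log 2 ≤ Real.log (((NN k + 1 : ℕ) : ℝ) + 2) - Real.log 2 := by
    intro k
    have h0 : 2 ^ (16 ^ k) ≤ NN k + 1 + 2 := by unfold NN; omega
    have h0' : (2:ℝ) ^ (16 ^ k) ≤ ((NN k + 1 : ℕ) : ℝ) + 2 := by exact_mod_cast h0
    have h1 : Real.log ((2:ℝ) ^ (16 ^ k)) ≤ Real.log (((NN k + 1 : ℕ) : ℝ) + 2) :=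
      Real.log_le_log (by positivity) h0'
    have h2 : Real.log ((2:ℝ) ^ (16 ^ k)) = 16 ^ k * Real.log 2 := by
      rw [Real.log_pow]
      push_cast
      ring
    linarith
  have hcontra : ∀ k : ℕ, ((4:ℝ) ^ k - 1) * (Real.pi ^ 3 / 9 * Real.log 2) ≤ K.toReal := by
    intro k
    refine le_trans ?_ (hfin k)
    have h1 := hlog k
    have hpi := Real.pi_pos
    have hl2 : 0 < Real.log 2 := Real.log_pos (by norm_num)
    have h16 : (16:ℝ) ^ k = 4 ^ k * 4 ^ k := by rw [← mul_pow]; norm_num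
    have h2 : ((1:ℝ) / 2) ^ k * ((1:ℝ) / 2) ^ k * 4 ^ k = 1 := by
      rw [← mul_pow, ← mul_pow]; norm_num
    have h4 : (1:ℝ) ≤ 4 ^ k := one_le_pow₀ (by norm_num)
    have h3 : (4:ℝ) ^ k - 1 ≤ ((1:ℝ) / 2) ^ k * ((1:ℝ) / 2) ^ k * (16 ^ k - 1) := by
      rw [h16]
      have h5 : ((1:ℝ) / 2) ^ k * ((1:ℝ) / 2) ^ k * (4 ^ k * 4 ^ k - 1)
          = 4 ^ k - ((1:ℝ) / 2) ^ k * ((1:ℝ) / 2) ^ k := by
        calc _ = ((1:ℝ) / 2) ^ k * ((1:ℝ) / 2) ^ k * 4 ^ k * 4 ^ k - ((1:ℝ) / 2) ^ k * ((1:ℝ) / 2) ^ k := by ring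
          _ = _ := by rw [h2]; ring
      rw [h5]
      have h6 : ((1:ℝ) / 2) ^ k ≤ 1 := pow_le_one₀ (by norm_num) (by norm_num)
      have h7 : 0 ≤ ((1:ℝ) / 2) ^ k := by positivity
      nlinarith
    calc ((4:ℝ) ^ k - 1) * (Real.pi ^ 3 / 9 * Real.log 2)
        ≤ (((1:ℝ) / 2) ^ k * ((1:ℝ) / 2) ^ k * (16 ^ k - 1)) * (Real.pi ^ 3 / 9 * Real.log 2) := by
          gcongr
      _ = ((1 / 2) ^ k * (Real.pi / 3)) ^ 2 * (Real.pi * (((16:ℝ) ^ k - 1) * Real.log 2)) := by ring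
      _ ≤ _ := by gcongr
  have hp : 0 < Real.pi ^ 3 / 9 * Real.log 2 := by
    have hpi := Real.pi_pos
    have hl2 : 0 < Real.log 2 := Real.log_pos (by norm_num)
    positivity
  have h4top : Tendsto (fun k : ℕ => ((4:ℝ) ^ k - 1) * (Real.pi ^ 3 / 9 * Real.log 2)) atTop atTop := by
    refine Tendsto.atTop_mul_const hp ?_
    exact tendsto_atTop_add_const_right _ _ (tendsto_pow_atTop_atTop_of_one_lt (by norm_num))
  obtain ⟨k, hk⟩ := (h4top.eventually_gt_atTop K.toReal).exists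
  exact absurd (hcontra k) (not_le.mpr hk)

end

end Pool.Agent.Helper66.Berg
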