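import Pool.Agent.Helper66.BergH

set_option autoImplicit false
open MeasureTheory Complex Set Filter Topology
open scoped ENNReal NNReal ComplexConjugate

namespace Pool.Agent.Helper66.Berg

noncomputable section

lemma wW_pos {z : ℂ} (hz : ‖z‖ < 1) : 0 < wW z := by
  unfold wW
  have h1 : 0 < ‖1 - z‖ := norm_pos_iff.mpr (one_sub_ne hz)
  have h2 : 0 < 1 - ‖z‖ ^ 2 := by nlinarith [norm_nonneg z]
  positivity

lemma sW_pos {z : ℂ} (hz : ‖z‖ < 1) : 0 < sW z := by
  unfold sW
  have h1 : 0 < ‖1 - z‖ := norm_pos_iff.mpr (one_sub_ne hz)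
  have h2 := s0_pos hz
  positivity

lemma wW_cont : ContinuousOn wW (Metric.ball (0:ℂ) 1) := by
  unfold wW
  refine ContinuousOn.div (by fun_prop) (by fun_prop) fun z hz => ?_
  have hz' : ‖z‖ < 1 := by simpa using hz
  have h1 : 0 < ‖1 - z‖ := norm_pos_iff.mpr (one_sub_ne hz')
  positivity

lemma sW_cont : ContinuousOn sW (Metric.ball (0:ℂ) 1) := by
  unfold sW
  exact ContinuousOn.mul (by fun_prop) s0_cont

lemma wW_re {z : ℂ} (hz : ‖z‖ < 1) : wW z = ((1 + z) / (1 - z)).re := by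
  have h1 : 0 < ‖1 - z‖ := norm_pos_iff.mpr (one_sub_ne hz)
  have h2 : (1 + z) / (1 - z) = ((1 + z) * conj (1 - z)) / ((‖1 - z‖ ^ 2 : ℝ) : ℂ) := by
    have h3 : (1 - z) * conj (1 - z) = ((‖1 - z‖ ^ 2 : ℝ) : ℂ) := by
      rw [Complex.mul_conj']; push_cast; rfl
    have h4 : conj (1 - z) ≠ 0 := by
      rw [Ne, map_eq_zero]; exact one_sub_ne hz
    rw [← h3, mul_div_mul_right _ _ h4]
  rw [h2, Complex.div_ofReal_re]
  unfold wW
  congr 1
  have h5 : (1 + z) * conj (1 - z) = 1 - z * conj z + (z - conj z) := by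
    simp only [map_sub, map_one]; ring
  rw [h5, Complex.mul_conj']
  simp only [Complex.add_re, Complex.sub_re, Complex.one_re, Complex.conj_re, sub_self, add_zero]
  congr 1
  have : ((‖z‖ : ℂ) ^ 2) = ((‖z‖ ^ 2 : ℝ) : ℂ) := by push_cast; rfl
  rw [this, Complex.ofReal_re]

/-- the mean value inequality, in the form of the frozen statement -/
def SubMean (w : ℂ → ℝ) : Prop :=
  ∀ z : ℂ, ∀ r : ℝ, 0 < r → Metric.closedBall z r ⊆ Metric.ball (0:ℂ) 1 →
        w z ≤ (2 * Real.pi)⁻¹ *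
          ∫ θ in (0:ℝ)..2 * Real.pi, w (z + (r:ℂ) * Complex.exp ((θ:ℂ) * Complex.I))

lemma circ_mem {z : ℂ} {r : ℝ} (hr : 0 < r) (θ : ℝ) :
    z + (r:ℂ) * Complex.exp ((θ:ℂ) * Complex.I) ∈ Metric.closedBall z r := by
  simp [abs_of_pos hr]

lemma wW_subMean : SubMean wW := by
  intro z r hr hsub
  have hz : ‖z‖ < 1 := by
    have := hsub (Metric.mem_closedBall_self hr.le)
    simpa using this
  set g : ℂ → ℂ := fun ζ => (1 + ζ) / (1 - ζ) with hg
  have hd : DiffContOnCl ℂ g (Metric.ball z |r|) := by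
    have h1 : DifferentiableOn ℂ g (closure (Metric.ball z |r|)) := by
      rw [abs_of_pos hr, closure_ball _ hr.ne']
      intro ζ hζ
      have hζ' : ‖ζ‖ < 1 := by simpa using hsub hζ
      refine DifferentiableAt.differentiableWithinAt ?_
      exact DifferentiableAt.div (by fun_prop) (by fun_prop) (one_sub_ne hζ')
    exact h1.diffContOnCl
  have h1 := hd.circleAverage
  have hcont : Continuous (fun θ : ℝ => g (z + (r:ℂ) * Complex.exp ((θ:ℂ) * Complex.I))) := by
    simp only [hg]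
    refine Continuous.div (by fun_prop) (by fun_prop) fun θ => ?_
    have hζ' : ‖z + (r:ℂ) * Complex.exp ((θ:ℂ) * Complex.I)‖ < 1 := by
      simpa using hsub (circ_mem (z := z) hr θ)
    exact one_sub_ne hζ'
  have h2 : (2 * Real.pi)⁻¹ * ∫ θ in (0:ℝ)..2 * Real.pi, wW (z + (r:ℂ) * Complex.exp ((θ:ℂ) * Complex.I))
      = (Real.circleAverage g z r).re := by
    rw [Real.circleAverage_def, Complex.smul_re, smul_eq_mul]
    congr 1
    have h3 : ∫ θ in (0:ℝ)..2 * Real.pi, wW (z + (r:ℂ) * Complex.exp ((θ:ℂ) * Complex.I))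
        = ∫ θ in (0:ℝ)..2 * Real.pi, (g (z + (r:ℂ) * Complex.exp ((θ:ℂ) * Complex.I))).re := by
      refine intervalIntegral.integral_congr fun θ _ => ?_
      have hζ' : ‖z + (r:ℂ) * Complex.exp ((θ:ℂ) * Complex.I)‖ < 1 := by
        simpa using hsub (circ_mem (z := z) hr θ)
      exact wW_re hζ'
    rw [h3]
    have h4 := (Complex.reCLM).intervalIntegral_comp_comm (μ := volume)
      (hcont.intervalIntegrable 0 (2 * Real.pi))
    simp only [Complex.reCLM_apply] at h4
    rw [h4]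
    rfl
  rw [h2, h1, wW_re hz]

lemma sq_subMean {h : ℂ → ℂ} (hh : Differentiable ℂ h) (z : ℂ) (r : ℝ) :
    ‖h z‖ ^ 2 ≤ (2 * Real.pi)⁻¹ *
          ∫ θ in (0:ℝ)..2 * Real.pi, ‖h (z + (r:ℂ) * Complex.exp ((θ:ℂ) * Complex.I))‖ ^ 2 := by
  have hd : Differentiable ℂ (fun ζ => h ζ ^ 2) := hh.pow 2
  have h1 := (hd.diffContOnCl (s := Metric.ball z |r|)).circleAverage
  rw [← norm_pow, ← h1, Real.circleAverage_def, norm_smul, Real.norm_eq_abs,
    abs_of_pos (by have := Real.pi_pos; positivity)]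
  refine mul_le_mul_of_nonneg_left ?_ (by have := Real.pi_pos; positivity)
  have h2 := intervalIntegral.norm_integral_le_integral_norm (μ := volume)
    (f := fun θ : ℝ => h (circleMap z r θ) ^ 2) (by have := Real.pi_pos; positivity : (0:ℝ) ≤ 2 * Real.pi)
  refine h2.trans (le_of_eq ?_)
  refine intervalIntegral.integral_congr fun θ _ => ?_
  simp only [norm_pow]
  rfl

lemma sW_subMean : SubMean sW := by
  intro z r hr hsub
  have hz : ‖z‖ < 1 := by
    have := hsub (Metric.mem_closedBall_self hr.le)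
    simpa using this
  set γ : ℝ → ℂ := fun θ => z + (r:ℂ) * Complex.exp ((θ:ℂ) * Complex.I) with hγ
  have hγc : Continuous γ := by simp only [hγ]; fun_prop
  have hγm : ∀ θ, ‖γ θ‖ < 1 := fun θ => by simpa using hsub (circ_mem (z := z) hr θ)
  have hpi := Real.pi_pos
  have hsWc : Continuous (fun θ => sW (γ θ)) := by
    refine continuous_iff_continuousAt.mpr fun θ => ?_
    have h1 : ContinuousAt sW (γ θ) := sW_cont.continuousAt (Metric.isOpen_ball.mem_nhds (by simpa using hγm θ))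
    exact ContinuousAt.comp (f := γ) (g := sW) h1 hγc.continuousAt
  have hfin : ∀ K : ℕ, ∑ k ∈ Finset.range K, ‖1 - z‖ ^ 2 * (cc k * ‖z‖ ^ (2 * NN k))
      ≤ (2 * Real.pi)⁻¹ * ∫ θ in (0:ℝ)..2 * Real.pi, sW (γ θ) := by
    intro K
    have hterm : ∀ k : ℕ, ∀ ζ : ℂ, ‖1 - ζ‖ ^ 2 * (cc k * ‖ζ‖ ^ (2 * NN k))
        = cc k * ‖(1 - ζ) * ζ ^ NN k‖ ^ 2 := by
      intro k ζ
      rw [norm_mul, norm_pow, mul_pow, ← pow_mul, mul_comm (NN k) 2]
      ring
    calc ∑ k ∈ Finset.range K, ‖1 - z‖ ^ 2 * (cc k * ‖z‖ ^ (2 * NN k))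
        ≤ ∑ k ∈ Finset.range K, cc k * ((2 * Real.pi)⁻¹ *
          ∫ θ in (0:ℝ)..2 * Real.pi, ‖(1 - γ θ) * (γ θ) ^ NN k‖ ^ 2) := by
          refine Finset.sum_le_sum fun k _ => ?_
          rw [hterm]
          refine mul_le_mul_of_nonneg_left ?_ (cc_pos k).le
          exact sq_subMean (h := fun ζ => (1 - ζ) * ζ ^ NN k) (by fun_prop) z r
      _ = (2 * Real.pi)⁻¹ * ∫ θ in (0:ℝ)..2 * Real.pi,
            ∑ k ∈ Finset.range K, cc k * ‖(1 - γ θ) * (γ θ) ^ NN k‖ ^ 2 := by
          rw [intervalIntegral.integral_finsetSum]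
          · rw [Finset.mul_sum]
            refine Finset.sum_congr rfl fun k _ => ?_
            rw [intervalIntegral.integral_const_mul]
            ring
          · intro k _
            exact Continuous.intervalIntegrable (by fun_prop) _ _
      _ ≤ _ := by
          refine mul_le_mul_of_nonneg_left ?_ (by positivity)
          refine intervalIntegral.integral_mono (by positivity)
            (Continuous.intervalIntegrable (by fun_prop) _ _) (hsWc.intervalIntegrable _ _) fun θ => ?_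
          simp only [← hterm]
          rw [← Finset.mul_sum]
          unfold sW
          refine mul_le_mul_of_nonneg_left ?_ (by positivity)
          exact (s0_summable (hγm θ)).sum_le_tsum _ (fun j _ => term_nonneg j _)
  have hlim : Tendsto (fun K : ℕ => ∑ k ∈ Finset.range K, ‖1 - z‖ ^ 2 * (cc k * ‖z‖ ^ (2 * NN k)))
      atTop (𝓝 (sW z)) := by
    have := ((s0_summable hz).hasSum.mul_left (‖1 - z‖ ^ 2)).tendsto_sum_nat
    exact this
  exact le_of_tendsto' hlim hfin

end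

end Pool.Agent.Helper66.Berg
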