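import Pool.Agent.Helper66.BilF

set_option autoImplicit false

open Set Filter Topology

namespace Pool.Agent.Helper66.Bil

/-- complex form of the row `ten δ φ` -/
noncomputable def crow (d d' f f' : ℂ) : Fin 4 → ℂ := ![d * f, d * f', d' * f, d' * f']

theorem crow_det {δ φ : Fin 4 → ℂ} (h : (Matrix.of fun i => ten (δ i) (φ i)).det = 0) :
    (Matrix.of fun i => crow (δ i) ((starRingEnd ℂ) (δ i)) (φ i) ((starRingEnd ℂ) (φ i))).det = 0 := by
  set A : Matrix (Fin 4) (Fin 4) ℂ :=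
    (Matrix.of fun i => ten (δ i) (φ i)).map (Complex.ofRealHom) with hA
  set K : Matrix (Fin 4) (Fin 4) ℂ :=
    !![1, 1, 1, 1; Complex.I, -Complex.I, Complex.I, -Complex.I;
      Complex.I, Complex.I, -Complex.I, -Complex.I; -1, 1, 1, -1] with hK
  have h1 : (Matrix.of fun i => crow (δ i) ((starRingEnd ℂ) (δ i)) (φ i)
      ((starRingEnd ℂ) (φ i))) = A * K := by
    ext i k
    rw [Matrix.mul_apply, Fin.sum_univ_four]
    have hd : δ i = (δ i).re + (δ i).im * Complex.I := (Complex.re_add_im _).symm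
    have hf : φ i = (φ i).re + (φ i).im * Complex.I := (Complex.re_add_im _).symm
    have hd' : (starRingEnd ℂ) (δ i) = (δ i).re - (δ i).im * Complex.I := by
      apply Complex.ext <;> simp
    have hf' : (starRingEnd ℂ) (φ i) = (φ i).re - (φ i).im * Complex.I := by
      apply Complex.ext <;> simp
    have hI := Complex.I_mul_I
    fin_cases k
    · simp only [hA, hK, crow, ten, Matrix.of_apply, Matrix.map_apply]
      simp
      conv_lhs => rw [hd, hf]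
      linear_combination ((δ i).im * (φ i).im : ℂ) * hI
    · simp only [hA, hK, crow, ten, Matrix.of_apply, Matrix.map_apply]
      simp
      rw [hf']
      conv_lhs => rw [hd]
      linear_combination (-((δ i).im * (φ i).im) : ℂ) * hI
    · simp only [hA, hK, crow, ten, Matrix.of_apply, Matrix.map_apply]
      simp
      rw [hd']
      conv_lhs => rw [hf]
      linear_combination (-((δ i).im * (φ i).im) : ℂ) * hI
    · simp only [hA, hK, crow, ten, Matrix.of_apply, Matrix.map_apply]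
      simp
      rw [hd', hf']
      linear_combination ((δ i).im * (φ i).im : ℂ) * hI
  rw [h1, Matrix.det_mul]
  have h2 : A.det = 0 := by
    rw [hA]
    have := (RingHom.map_det Complex.ofRealHom (Matrix.of fun i => ten (δ i) (φ i))).symm
    rw [h, map_zero] at this
    exact this
  rw [h2, zero_mul]

/-- no relation between four distinct rotations -/
theorem cubic {z : Fin 4 → ℂ} (hz : Function.Injective z) (hz0 : ∀ i, z i ≠ 0) :
    (Matrix.of fun i => crow (z i - 1) (-1) ((z i)⁻¹ * (z i - 1)) (-(z i))).det ≠ 0 := by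
  intro h
  obtain ⟨c, hc0, hc⟩ := Matrix.exists_mulVec_eq_zero_iff.mpr h
  apply hc0
  have h1 : ∀ i, (z i) ^ 3 * (-(c 1)) + (z i) ^ 2 * (c 0 + c 1 + c 3) + (z i) * (-2 * c 0 - c 2) +
      (c 0 + c 2) = 0 := by
    intro i
    have h2 := congrFun hc i
    simp only [Matrix.mulVec, dotProduct, Matrix.of_apply, crow, Fin.sum_univ_four, Pi.zero_apply] at h2
    simp at h2
    have h3 : z i * (z i)⁻¹ = 1 := mul_inv_cancel₀ (hz0 i)
    have h4 : z i * ((z i - 1) * ((z i)⁻¹ * (z i - 1)) * c 0 + -((z i - 1) * z i * c 1) +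
        -((z i)⁻¹ * (z i - 1) * c 2) + z i * c 3) = 0 := by
      have h5 : (z i - 1) * ((z i)⁻¹ * (z i - 1)) * c 0 + -((z i - 1) * z i * c 1) +
        -((z i)⁻¹ * (z i - 1) * c 2) + z i * c 3 = 0 := by linear_combination h2
      rw [h5, mul_zero]
    linear_combination h4 - ((z i - 1) * (z i - 1) * c 0 - (z i - 1) * c 2) * h3
  have h2 : (![c 0 + c 2, -2 * c 0 - c 2, c 0 + c 1 + c 3, -(c 1)] : Fin 4 → ℂ) = 0 := by
    apply Matrix.eq_zero_of_forall_index_sum_pow_mul_eq_zero hz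
    intro j
    simp [Fin.sum_univ_four]
    linear_combination h1 j
  have e0 : c 0 + c 2 = 0 := congrFun h2 0
  have e1 : -2 * c 0 - c 2 = 0 := congrFun h2 1
  have e2 : c 0 + c 1 + c 3 = 0 := congrFun h2 2
  have e3 : -(c 1) = 0 := congrFun h2 3
  have c1 : c 1 = 0 := by linear_combination -e3
  have c0 : c 0 = 0 := by linear_combination -e0 - e1
  have c2 : c 2 = 0 := by linear_combination e0 - c0
  have c3 : c 3 = 0 := by linear_combination e2 - c0 - c1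
  funext i
  fin_cases i
  · exact c0
  · exact c1
  · exact c2
  · exact c3

/-- departure vector, polynomial form -/
noncomputable def Dl (z τ : ℂ) (e : Fin 4 → ℂ) : ℂ :=
  τ + z * (e 2 + Complex.I * e 3) - (e 0 + Complex.I * e 1)

/-- conjugate departure vector, polynomial form -/
noncomputable def Dl' (z τ : ℂ) (e : Fin 4 → ℂ) : ℂ :=
  τ + z * (e 2 - Complex.I * e 3) - (e 0 - Complex.I * e 1)

/-- the matrix of complex rows -/
noncomputable def Mx (z τ τ' : Fin 4 → ℂ) (e : Fin 4 → ℂ) : Matrix (Fin 4) (Fin 4) ℂ :=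
  Matrix.of fun i => crow (Dl (z i) (τ i) e) (Dl' (z i)⁻¹ (τ' i) e)
    ((z i)⁻¹ * Dl (z i) (τ i) e) (z i * Dl' (z i)⁻¹ (τ' i) e)

open MvPolynomial in
theorem Mx_poly (z τ τ' : Fin 4 → ℂ) : ∃ P : MvPolynomial (Fin 4) ℂ, ∀ e,
    eval e P = (Mx z τ τ' e).det := by
  let D : Fin 4 → MvPolynomial (Fin 4) ℂ := fun i =>
    C (τ i) + C (z i) * (X 2 + C Complex.I * X 3) - (X 0 + C Complex.I * X 1)
  let D' : Fin 4 → MvPolynomial (Fin 4) ℂ := fun i =>
    C (τ' i) + C ((z i)⁻¹) * (X 2 - C Complex.I * X 3) - (X 0 - C Complex.I * X 1)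
  let M : Matrix (Fin 4) (Fin 4) (MvPolynomial (Fin 4) ℂ) := Matrix.of fun i =>
    ![D i * (C ((z i)⁻¹) * D i), D i * (C (z i) * D' i), D' i * (C ((z i)⁻¹) * D i),
      D' i * (C (z i) * D' i)]
  refine ⟨M.det, fun e => ?_⟩
  rw [RingHom.map_det]
  congr 1
  have hD : ∀ i, eval e (D i) = Dl (z i) (τ i) e := by intro i; simp [D, Dl]
  have hD' : ∀ i, eval e (D' i) = Dl' (z i)⁻¹ (τ' i) e := by intro i; simp [D', Dl']
  ext i k
  fin_cases k <;>
    simp [M, Mx, crow, hD, hD', RingHom.mapMatrix_apply, Matrix.map_apply]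

theorem Mx_ne {z : Fin 4 → ℂ} (hz : Function.Injective z) (hz0 : ∀ i, z i ≠ 0) (τ τ' : Fin 4 → ℂ)
    (s : Fin 4 → Set ℂ) (hs : ∀ i, (s i).Infinite) :
    ∃ e ∈ Set.pi univ s, (Mx z τ τ' e).det ≠ 0 := by
  by_contra hcon
  push Not at hcon
  obtain ⟨P, hP⟩ := Mx_poly z τ τ'
  have hP0 : P = 0 := by
    apply MvPolynomial.funext_set s hs
    intro e he
    rw [hP, hcon e he, map_zero]
  have h0 : ∀ e, (Mx z τ τ' e).det = 0 := by
    intro e; rw [← hP, hP0, map_zero]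
  let N : ℂ → Matrix (Fin 4) (Fin 4) ℂ := fun r => Matrix.of fun i =>
    crow (r * τ i + z i - 1) (r * τ' i - 1) ((z i)⁻¹ * (r * τ i + z i - 1)) (z i * (r * τ' i - 1))
  have hNc : Continuous fun r => (N r).det := by
    apply Continuous.matrix_det
    apply continuous_matrix
    intro i k
    fin_cases k <;> simp [N, crow] <;> fun_prop
  have hN : ∀ r : ℂ, r ≠ 0 → (N r).det = 0 := by
    intro r hr
    have h1 := h0 ![r⁻¹, 0, r⁻¹ / 2, -Complex.I * (r⁻¹ / 2)]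
    have h2 : Mx z τ τ' ![r⁻¹, 0, r⁻¹ / 2, -Complex.I * (r⁻¹ / 2)] = (r⁻¹ * r⁻¹) • N r := by
      have hI := Complex.I_mul_I
      have hd : ∀ i, Dl (z i) (τ i) ![r⁻¹, 0, r⁻¹ / 2, -Complex.I * (r⁻¹ / 2)] =
          r⁻¹ * (r * τ i + z i - 1) := by
        intro i
        have e2 : (![r⁻¹, 0, r⁻¹ / 2, -Complex.I * (r⁻¹ / 2)] : Fin 4 → ℂ) 2 = r⁻¹ / 2 := rfl
        have e3 : (![r⁻¹, 0, r⁻¹ / 2, -Complex.I * (r⁻¹ / 2)] : Fin 4 → ℂ) 3 =
          -Complex.I * (r⁻¹ / 2) := rfl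
        have e0 : (![r⁻¹, 0, r⁻¹ / 2, -Complex.I * (r⁻¹ / 2)] : Fin 4 → ℂ) 0 = r⁻¹ := rfl
        have e1 : (![r⁻¹, 0, r⁻¹ / 2, -Complex.I * (r⁻¹ / 2)] : Fin 4 → ℂ) 1 = 0 := rfl
        unfold Dl
        rw [e0, e1, e2, e3]
        have h3 : r⁻¹ * r = 1 := inv_mul_cancel₀ hr
        linear_combination (-(z i) * (r⁻¹ / 2)) * hI - τ i * h3
      have hd' : ∀ i, Dl' (z i)⁻¹ (τ' i) ![r⁻¹, 0, r⁻¹ / 2, -Complex.I * (r⁻¹ / 2)] =
          r⁻¹ * (r * τ' i - 1) := by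
        intro i
        have e2 : (![r⁻¹, 0, r⁻¹ / 2, -Complex.I * (r⁻¹ / 2)] : Fin 4 → ℂ) 2 = r⁻¹ / 2 := rfl
        have e3 : (![r⁻¹, 0, r⁻¹ / 2, -Complex.I * (r⁻¹ / 2)] : Fin 4 → ℂ) 3 =
          -Complex.I * (r⁻¹ / 2) := rfl
        have e0 : (![r⁻¹, 0, r⁻¹ / 2, -Complex.I * (r⁻¹ / 2)] : Fin 4 → ℂ) 0 = r⁻¹ := rfl
        have e1 : (![r⁻¹, 0, r⁻¹ / 2, -Complex.I * (r⁻¹ / 2)] : Fin 4 → ℂ) 1 = 0 := rfl
        unfold Dl'
        rw [e0, e1, e2, e3]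
        have h3 : r⁻¹ * r = 1 := inv_mul_cancel₀ hr
        linear_combination ((z i)⁻¹ * (r⁻¹ / 2)) * hI - τ' i * h3
      ext i k
      simp only [Mx, N, Matrix.of_apply, Matrix.smul_apply, hd, hd', smul_eq_mul]
      fin_cases k <;> simp [crow] <;> ring
    rw [h2, Matrix.det_smul] at h1
    have h3 : (r⁻¹ * r⁻¹) ^ Fintype.card (Fin 4) ≠ 0 :=
      pow_ne_zero _ (mul_ne_zero (inv_ne_zero hr) (inv_ne_zero hr))
    exact (mul_eq_zero.mp h1).resolve_left h3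
  have hN0 : (N 0).det = 0 := by
    have h1 : (fun r => (N r).det) = fun _ => 0 :=
      Continuous.ext_on (dense_compl_singleton (0 : ℂ)) hNc continuous_const
        (fun r hr => hN r hr)
    exact congrFun h1 0
  apply cubic hz hz0
  have h1 : N 0 = Matrix.of fun i => crow (z i - 1) (-1) ((z i)⁻¹ * (z i - 1)) (-(z i)) := by
    ext i k
    simp only [N, Matrix.of_apply]
    fin_cases k <;> simp [crow]
  rw [← h1]; exact hN0

theorem det_even {z : Fin 4 → Circle} (hz : Function.Injective z) (τ : Fin 4 → ℂ)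
    {U : Set (ℂ × ℂ)} (hU : IsOpen U) (hne : U.Nonempty) :
    ∃ p ∈ U, (Matrix.of fun i => ten (τ i + z i * p.2 - p.1)
      ((z i : ℂ)⁻¹ * (τ i + z i * p.2 - p.1))).det ≠ 0 := by
  obtain ⟨⟨x, y⟩, hp⟩ := hne
  have hcont : Continuous fun t : Fin 4 → ℝ => ((⟨t 0, t 1⟩, ⟨t 2, t 3⟩) : ℂ × ℂ) := by
    have h1 : (fun t : Fin 4 → ℝ => ((⟨t 0, t 1⟩, ⟨t 2, t 3⟩) : ℂ × ℂ)) = fun t =>
        ((t 0 : ℂ) + (t 1 : ℂ) * Complex.I, (t 2 : ℂ) + (t 3 : ℂ) * Complex.I) := by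
      funext t
      simp [Complex.mk_eq_add_mul_I]
    rw [h1]; fun_prop
  have hopen := hU.preimage hcont
  have hmem : (![x.re, x.im, y.re, y.im] : Fin 4 → ℝ) ∈
      (fun t : Fin 4 → ℝ => ((⟨t 0, t 1⟩, ⟨t 2, t 3⟩) : ℂ × ℂ)) ⁻¹' U := by
    change ((⟨x.re, x.im⟩, ⟨y.re, y.im⟩) : ℂ × ℂ) ∈ U
    exact hp
  obtain ⟨V, hV, hVU⟩ := isOpen_pi_iff'.mp hopen _ hmem
  set s : Fin 4 → Set ℂ := fun i => (fun t : ℝ => (t : ℂ)) '' (V i) with hs
  have hsi : ∀ i, (s i).Infinite := by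
    intro i
    apply Set.Infinite.image Complex.ofReal_injective.injOn
    exact infinite_of_mem_nhds _ ((hV i).1.mem_nhds (hV i).2)
  obtain ⟨e, he, hdet⟩ := Mx_ne (z := fun i => (z i : ℂ)) (fun i j h => hz (Circle.ext h))
    (fun i => Circle.coe_ne_zero _) τ (fun i => (starRingEnd ℂ) (τ i)) s hsi
  choose t ht using fun i => he i (mem_univ i)
  refine ⟨(⟨t 0, t 1⟩, ⟨t 2, t 3⟩), hVU (fun i _ => (ht i).1), ?_⟩
  intro h
  apply hdet
  have h1 := crow_det h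
  have het : ∀ i, e i = (t i : ℂ) := fun i => (ht i).2.symm
  have hinv : ∀ i, (z i : ℂ)⁻¹ = (starRingEnd ℂ) (z i : ℂ) := fun i => by
    rw [← Circle.coe_inv, Circle.coe_inv_eq_conj]
  have hD : ∀ i, Dl (z i) (τ i) e = τ i + z i * (⟨t 2, t 3⟩ : ℂ) - (⟨t 0, t 1⟩ : ℂ) := by
    intro i
    unfold Dl
    rw [het, het, het, het, Complex.mk_eq_add_mul_I, Complex.mk_eq_add_mul_I]
    ring
  have hD' : ∀ i, Dl' (z i : ℂ)⁻¹ ((starRingEnd ℂ) (τ i)) e =
      (starRingEnd ℂ) (τ i + z i * (⟨t 2, t 3⟩ : ℂ) - (⟨t 0, t 1⟩ : ℂ)) := by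
    intro i
    unfold Dl'
    rw [het, het, het, het, hinv, Complex.mk_eq_add_mul_I, Complex.mk_eq_add_mul_I]
    simp
    ring
  have h2 : Mx (fun i => (z i : ℂ)) τ (fun i => (starRingEnd ℂ) (τ i)) e = Matrix.of fun i =>
      crow (τ i + z i * (⟨t 2, t 3⟩ : ℂ) - (⟨t 0, t 1⟩ : ℂ))
        ((starRingEnd ℂ) (τ i + z i * (⟨t 2, t 3⟩ : ℂ) - (⟨t 0, t 1⟩ : ℂ)))
        ((z i : ℂ)⁻¹ * (τ i + z i * (⟨t 2, t 3⟩ : ℂ) - (⟨t 0, t 1⟩ : ℂ)))
        ((starRingEnd ℂ) ((z i : ℂ)⁻¹ * (τ i + z i * (⟨t 2, t 3⟩ : ℂ) - (⟨t 0, t 1⟩ : ℂ)))) := by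
    ext i k
    simp only [Mx, Matrix.of_apply]
    rw [hD, hD', map_mul, map_inv₀, ← hinv, inv_inv]
  rw [h2]
  exact h1

end Pool.Agent.Helper66.Bil
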