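import Pool.Agent.Helper66.BilH
import Pool.Agent.Helper66.BilI

set_option autoImplicit false

open Set Filter Topology

namespace Pool.Agent.Helper66.Bil

/-- identity or complex conjugation -/
noncomputable def cjb (b : Bool) (ξ : ℂ) : ℂ := if b then (starRingEnd ℂ) ξ else ξ

/-- the linear part of the unfolding along `w` is `ξ ↦ z ξ` or `ξ ↦ z (conj ξ)` -/
def Ki (T : Table) (b : Bool) (w : List (Fin T.N)) (z : Circle) : Prop :=
  ∀ ξ, (unf T w).L ξ = z * cjb b ξ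

theorem kind_exists (T : Table) : ∀ w : List (Fin T.N), ∃ b z, Ki T b w z := by
  intro w
  induction w with
  | nil => exact ⟨false, 1, fun ξ => by simp [unf, Mot.id, cjb]⟩
  | cons i w ih =>
    obtain ⟨b, z, h⟩ := ih
    have hd := T.sub_ne i
    have hd' : (starRingEnd ℂ) (T.b i - T.a i) ≠ 0 := (map_ne_zero (starRingEnd ℂ)).mpr hd
    set ζ : Circle := ⟨(T.b i - T.a i) / (starRingEnd ℂ) (T.b i - T.a i),
      mem_sphere_zero_iff_norm.mpr (by
        rw [norm_div, RCLike.norm_conj]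
        exact div_self (norm_ne_zero_iff.mpr hd))⟩ with hζ
    have hr : ∀ ξ, refL T i ξ = ζ * (starRingEnd ℂ) ξ := by
      intro ξ
      rw [refL_apply, map_div₀]
      change _ = (T.b i - T.a i) / (starRingEnd ℂ) (T.b i - T.a i) * _
      field_simp
    have hstep : ∀ ξ, (unf T (i :: w)).L ξ = refL T i ((unf T w).L ξ) := fun ξ => rfl
    have hc : ∀ z : Circle, (starRingEnd ℂ) (z : ℂ) = ((z⁻¹ : Circle) : ℂ) := fun z =>
      (Circle.coe_inv_eq_conj z).symm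
    cases b with
    | false =>
      refine ⟨true, ζ * z⁻¹, fun ξ => ?_⟩
      rw [hstep, h, hr]
      simp only [cjb, Bool.false_eq_true, if_false, if_true, map_mul]
      rw [hc, Circle.coe_mul]; ring
    | true =>
      refine ⟨false, ζ * z⁻¹, fun ξ => ?_⟩
      rw [hstep, h, hr]
      simp only [cjb, Bool.false_eq_true, if_false, if_true, map_mul, Complex.conj_conj]
      rw [hc, Circle.coe_mul]; ring

theorem Ki.Li_false {T : Table} {w : List (Fin T.N)} {z : Circle} (h : Ki T false w z) (ξ : ℂ) :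
    (unf T w).Li ξ = (z : ℂ)⁻¹ * ξ := by
  have h1 := (unf T w).hLi ((z : ℂ)⁻¹ * ξ)
  have h2 : (unf T w).L ((z : ℂ)⁻¹ * ξ) = ξ := by
    rw [h]
    simp only [cjb, Bool.false_eq_true, if_false]
    rw [← mul_assoc, mul_inv_cancel₀ (Circle.coe_ne_zero z), one_mul]
  rwa [h2] at h1

theorem Ki.Li_true {T : Table} {w : List (Fin T.N)} {z : Circle} (h : Ki T true w z) (ξ : ℂ) :
    (unf T w).Li ξ = (starRingEnd ℂ) ((z : ℂ)⁻¹ * ξ) := by
  have h1 := (unf T w).hLi ((starRingEnd ℂ) ((z : ℂ)⁻¹ * ξ))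
  have h2 : (unf T w).L ((starRingEnd ℂ) ((z : ℂ)⁻¹ * ξ)) = ξ := by
    rw [h]
    simp only [cjb, if_true, Complex.conj_conj]
    rw [← mul_assoc, mul_inv_cancel₀ (Circle.coe_ne_zero z), one_mul]
  rwa [h2] at h1

theorem ten_conj_det (δ φ : Fin 4 → ℂ) :
    (Matrix.of fun i => ten (δ i) ((starRingEnd ℂ) (φ i))).det =
      (Matrix.of fun i => ten (δ i) (φ i)).det := by
  have h1 : (Matrix.of fun i => ten (δ i) ((starRingEnd ℂ) (φ i))) =
      (Matrix.of fun i => ten (δ i) (φ i)) * Matrix.diagonal ![1, -1, 1, -1] := by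
    ext i k
    rw [Matrix.mul_diagonal]
    fin_cases k <;> simp [ten]
  rw [h1, Matrix.det_mul, Matrix.det_diagonal, Fin.prod_univ_four]
  simp

theorem kind_det {T : Table} {b : Bool} {w : Fin 4 → List (Fin T.N)} {z : Fin 4 → Circle}
    (hz : Function.Injective z) (hk : ∀ i, Ki T b (w i) (z i)) {U : Set (ℂ × ℂ)} (hU : IsOpen U)
    (hne : U.Nonempty) :
    ∃ p ∈ U, (Matrix.of fun i => ten (dep T (w i) p) (arr T (w i) p)).det ≠ 0 := by
  set τ : Fin 4 → ℂ := fun i => (unf T (w i)).f 0 with hτ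
  have hf : ∀ i y, (unf T (w i)).f y = τ i + z i * cjb b y := by
    intro i y
    rw [(unf T (w i)).hf y 0, sub_zero, hk i]
  cases b with
  | false =>
    obtain ⟨p, hp, hdet⟩ := det_even hz τ hU hne
    refine ⟨p, hp, ?_⟩
    have h1 : (Matrix.of fun i => ten (dep T (w i) p) (arr T (w i) p)) =
        Matrix.of fun i => ten (τ i + z i * p.2 - p.1) ((z i : ℂ)⁻¹ * (τ i + z i * p.2 - p.1)) := by
      ext i k
      simp only [Matrix.of_apply]
      unfold arr dep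
      rw [(hk i).Li_false, hf i]
      simp only [cjb, Bool.false_eq_true, if_false]
    rw [h1]; exact hdet
  | true =>
    have hcc : Continuous fun p : ℂ × ℂ => (p.1, (starRingEnd ℂ) p.2) :=
      continuous_fst.prodMk (Complex.continuous_conj.comp continuous_snd)
    obtain ⟨p, hp, hdet⟩ := det_even hz τ (hU.preimage hcc) (by
      obtain ⟨q, hq⟩ := hne
      refine ⟨(q.1, (starRingEnd ℂ) q.2), ?_⟩
      change (q.1, (starRingEnd ℂ) ((starRingEnd ℂ) q.2)) ∈ U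
      rw [Complex.conj_conj]; exact hq)
    refine ⟨_, hp, ?_⟩
    have h1 : (Matrix.of fun i => ten (dep T (w i) (p.1, (starRingEnd ℂ) p.2))
          (arr T (w i) (p.1, (starRingEnd ℂ) p.2))) =
        Matrix.of fun i => ten (τ i + z i * p.2 - p.1)
          ((starRingEnd ℂ) ((z i : ℂ)⁻¹ * (τ i + z i * p.2 - p.1))) := by
      ext i k
      simp only [Matrix.of_apply]
      unfold arr dep
      rw [(hk i).Li_true, hf i]
      simp only [cjb, if_true, Complex.conj_conj]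
    rw [h1, ten_conj_det]; exact hdet

theorem no_many (T : Table) (n : ℕ) {U : Set (ℂ × ℂ)} (hU : IsOpen U)
    (hUP : ∀ p ∈ U, p.1 ∈ interior T.P ∧ p.2 ∈ interior T.P)
    (hUd : U ⊆ closure {p | Blockable T n p.1 p.2}) {p₀ : ℂ × ℂ} (hp₀ : p₀ ∈ U) (b : Bool)
    (w : Fin (3 * n + 1) → List (Fin T.N)) (z : Fin (3 * n + 1) → Circle)
    (hz : Function.Injective z) (hk : ∀ m, Ki T b (w m) (z m))
    (hg : ∀ m, Good T (w m) p₀.1 p₀.2) : False := by
  have e1 : ∀ᶠ p : ℂ × ℂ in 𝓝 p₀, ∀ m, Good T (w m) p.1 p.2 :=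
    eventually_all.mpr fun m => (hg m).stable' (hUP p₀ hp₀).1 (hUP p₀ hp₀).2
  obtain ⟨N, hN, hNo, hpN⟩ := eventually_nhds_iff.mp (e1.and (hU.mem_nhds hp₀))
  have hdense : Dense (⋂ j : {j : Fin 4 → Fin (3 * n + 1) // Function.Injective j},
      {p : ℂ × ℂ | (Matrix.of fun i => ten (dep T (w (j.1 i)) p) (arr T (w (j.1 i)) p)).det ≠ 0}) := by
    apply dense_iInter_of_isOpen
    · intro j
      exact isOpen_ne_fun (det_cont T (fun i => w (j.1 i))) continuous_const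
    · intro j
      rw [dense_iff_inter_open]
      intro W hW hWn
      obtain ⟨p, hp, hdet⟩ := kind_det (w := fun i => w (j.1 i)) (z := fun i => z (j.1 i))
        (hz.comp j.2) (fun i => hk (j.1 i)) hW hWn
      exact ⟨p, hp, hdet⟩
  obtain ⟨p, hpN', hp⟩ := hdense.inter_open_nonempty N hNo ⟨p₀, hpN⟩
  choose ℓ u v S hℓ hO hf hL hS using fun m => ((hN p hpN').1 m).toOrbit _ _ _
  obtain ⟨j, hj, hdet⟩ := tstar T n hU hUP hUd (hN p hpN').2 u v S hO
  apply mem_iInter.mp hp ⟨j, hj⟩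
  obtain ⟨c, hc0, hc⟩ := Matrix.exists_mulVec_eq_zero_iff.mpr hdet
  apply Matrix.exists_mulVec_eq_zero_iff.mp
  refine ⟨c, hc0, ?_⟩
  funext i
  have h1 := congrFun hc i
  change ten (u (j i)) (v (j i)) ⬝ᵥ c = 0 at h1
  change ten (dep T (w (j i)) p) (arr T (w (j i)) p) ⬝ᵥ c = 0
  have hdep : dep T (w (j i)) p = ℓ (j i) * u (j i) := by
    unfold dep
    rw [hf (j i)]; ring
  have harr : arr T (w (j i)) p = ℓ (j i) * v (j i) := by
    unfold arr
    rw [hf (j i), add_sub_cancel_left, L_real, ← hL (j i), (unf T (w (j i))).hLi]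
  rw [hdep, harr, ten_scale, smul_dotProduct, h1, smul_zero]

/-- the type `z` occurs at the pair `p` -/
def Ty (T : Table) (b : Bool) (p : ℂ × ℂ) (z : Circle) : Prop :=
  ∃ w, Ki T b w z ∧ Good T w p.1 p.2

theorem few (T : Table) (n : ℕ) (b : Bool) {U : Set (ℂ × ℂ)} (hU : IsOpen U) (hne : U.Nonempty)
    (hUP : ∀ p ∈ U, p.1 ∈ interior T.P ∧ p.2 ∈ interior T.P)
    (hUd : U ⊆ closure {p | Blockable T n p.1 p.2}) :
    ∃ U' : Set (ℂ × ℂ), U' ⊆ U ∧ IsOpen U' ∧ U'.Nonempty ∧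
      ∃ Γ : Finset Circle, ∀ p ∈ U', ∀ z, Ty T b p z → z ∈ Γ := by
  classical
  by_contra hcon
  have key : ∀ k : ℕ, ∃ U' : Set (ℂ × ℂ), U' ⊆ U ∧ IsOpen U' ∧ U'.Nonempty ∧
      ∃ z : Fin k → Circle, Function.Injective z ∧ ∀ p ∈ U', ∀ m, Ty T b p (z m) := by
    intro k
    induction k with
    | zero =>
      exact ⟨U, Subset.rfl, hU, hne, Fin.elim0, fun i => i.elim0, fun p _ m => m.elim0⟩
    | succ k ih =>
      obtain ⟨U', hU'U, hU', hne', z, hz, hall⟩ := ih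
      have h1 : ¬ ∀ p ∈ U', ∀ z', Ty T b p z' → z' ∈ Finset.univ.image z := fun h =>
        hcon ⟨U', hU'U, hU', hne', _, h⟩
      push Not at h1
      obtain ⟨p, hp, z', ⟨w, hk, hg⟩, hz'⟩ := h1
      have hst := hg.stable' (hUP p (hU'U hp)).1 (hUP p (hU'U hp)).2
      obtain ⟨N, hN, hNo, hpN⟩ := eventually_nhds_iff.mp (hst.and (hU'.mem_nhds hp))
      refine ⟨N, fun q hq => hU'U (hN q hq).2, hNo, ⟨p, hpN⟩, Fin.cons z' z, ?_, ?_⟩
      · rw [Fin.cons_injective_iff]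
        refine ⟨?_, hz⟩
        rintro ⟨m, hm⟩
        exact hz' (Finset.mem_image.mpr ⟨m, Finset.mem_univ m, hm⟩)
      · intro q hq m
        refine Fin.cases ?_ (fun m => ?_) m
        · rw [Fin.cons_zero]
          exact ⟨w, hk, (hN q hq).1⟩
        · rw [Fin.cons_succ]
          exact hall q (hN q hq).2 m
  obtain ⟨U', hU'U, hU', ⟨p, hp⟩, z, hz, hall⟩ := key (3 * n + 1)
  choose w hk hg using fun m => hall p hp m
  exact no_many T n hU hUP hUd (hU'U hp) b w z hz hk hg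

theorem finite_types (T : Table) (hsec : ∀ x ∈ interior T.P, ∀ y ∈ interior T.P, SecurePair T x y)
    {V : Set (ℂ × ℂ)} (hV : IsOpen V) (hne : V.Nonempty)
    (hVP : V ⊆ interior T.P ×ˢ interior T.P) :
    ∃ U : Set (ℂ × ℂ), U ⊆ V ∧ IsOpen U ∧ U.Nonempty ∧ ∃ Γ : Finset Circle,
      ∀ (x : ℂ) (u : Circle) (y : ℂ) (v : Circle) (S : Set ℂ), Orbit T x u y v S → (x, y) ∈ U →
        u * v⁻¹ ∈ Γ ∨ u * v ∈ Γ := by
  classical
  obtain ⟨n, hn⟩ : ∃ n : ℕ, ¬ IsNowhereDense (V ∩ {p | Blockable T n p.1 p.2}) := by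
    by_contra hcon
    push Not at hcon
    apply not_isMeagre_of_isOpen hV hne
    refine (isMeagre_iUnion fun n => (hcon n).isMeagre).mono ?_
    intro p hp
    obtain ⟨n, hn⟩ := (hsec p.1 (hVP hp).1 p.2 (hVP hp).2).blockable
    exact mem_iUnion.mpr ⟨n, hp, hn⟩
  rw [IsNowhereDense] at hn
  obtain ⟨q, hq⟩ := nonempty_iff_ne_empty.mpr hn
  obtain ⟨r, hr1, hr2, -⟩ := mem_closure_iff.mp (interior_subset hq) _ isOpen_interior hq
  set U₀ : Set (ℂ × ℂ) := interior (closure (V ∩ {p | Blockable T n p.1 p.2})) ∩ V with hU₀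
  have hU₀o : IsOpen U₀ := isOpen_interior.inter hV
  have hU₀P : ∀ p ∈ U₀, p.1 ∈ interior T.P ∧ p.2 ∈ interior T.P := fun p hp => hVP hp.2
  have hU₀d : U₀ ⊆ closure {p | Blockable T n p.1 p.2} := fun p hp =>
    closure_mono inter_subset_right (interior_subset hp.1)
  obtain ⟨U₁, hU₁s, hU₁o, hU₁n, Γ₁, hΓ₁⟩ := few T n false hU₀o ⟨r, hr1, hr2⟩ hU₀P hU₀d
  obtain ⟨U₂, hU₂s, hU₂o, hU₂n, Γ₂, hΓ₂⟩ := few T n true hU₁o hU₁n
    (fun p hp => hU₀P p (hU₁s hp)) (fun p hp => hU₀d (hU₁s hp))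
  refine ⟨U₂, fun p hp => (hU₁s (hU₂s hp)).2, hU₂o, hU₂n, Γ₁ ∪ Γ₂, ?_⟩
  intro x u y v S hO hxy
  obtain ⟨w, ℓ, hℓ, hg, hf, hL⟩ := hO.toGood
  obtain ⟨b, z, hk⟩ := kind_exists T w
  have h1 := hk v
  rw [hL] at h1
  cases b with
  | false =>
    left
    have h2 : u = z * v := Circle.ext (by rw [Circle.coe_mul, h1]; simp [cjb])
    rw [h2, mul_inv_cancel_right]
    exact Finset.mem_union_left _ (hΓ₁ _ (hU₂s hxy) z ⟨w, hk, hg⟩)
  | true =>
    right
    have h2 : u = z * v⁻¹ := Circle.ext (by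
      rw [Circle.coe_mul, h1, Circle.coe_inv_eq_conj]; simp [cjb])
    rw [h2, inv_mul_cancel_right]
    exact Finset.mem_union_right _ (hΓ₂ _ hxy z ⟨w, hk, hg⟩)

end Pool.Agent.Helper66.Bil
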