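import Pool.Agent.Helper66.BilJ

set_option autoImplicit false

open Set Filter Topology

namespace Pool.Agent.Helper66.Bil

theorem Orbit.extend {T : Table} {x y : ℂ} {u v : Circle} {S : Set ℂ} (h : Orbit T x u y v S)
    {s : ℝ} (hs : 0 < s) (hin : ∀ t : ℝ, 0 ≤ t → t < s → y + t * v ∈ interior T.P) :
    ∃ S', Orbit T x u (y + s * v) v S' := by
  induction h with
  | leg x u t ht h =>
    have h1 : x + t * (u : ℂ) + s * u = x + ((t + s : ℝ) : ℂ) * u := by push_cast; ring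
    rw [h1]
    refine ⟨_, Orbit.leg x u (t + s) (by positivity) ?_⟩
    intro z hz
    obtain ⟨r, hr0, hr1, rfl⟩ := (mem_openSegment_ray (by positivity) z).mp hz
    rcases lt_or_ge r t with hrt | hrt
    · exact h ((mem_openSegment_ray ht _).mpr ⟨r, hr0, hrt, rfl⟩)
    · have h2 := hin (r - t) (by linarith) (by linarith)
      have h3 : x + t * (u : ℂ) + ((r - t : ℝ) : ℂ) * u = x + r * u := by push_cast; ring
      rwa [h3] at h2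
  | bounce x u t i y v S ht h hc h' ih =>
    obtain ⟨S', hS'⟩ := ih hin
    exact ⟨_, Orbit.bounce x u t i (y + s * v) v S' ht h hc hS'⟩

theorem sq_finite (Γ : Finset Circle) : {v : Circle | v * v ∈ Γ}.Finite := by
  have h1 : {v : Circle | v * v ∈ Γ} = ⋃ γ ∈ Γ, {v : Circle | v * v = γ} := by
    ext v; simp
  rw [h1]
  apply Set.Finite.biUnion Γ.finite_toSet
  intro γ _
  have h2 : ({ξ : ℂ | ξ ∈ Polynomial.nthRoots 2 (γ : ℂ)}).Finite :=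
    Multiset.finite_toSet _
  refine Set.Finite.subset (h2.preimage (f := fun v : Circle => (v : ℂ))
    (fun a _ b _ hab => Circle.ext hab)) ?_
  intro v hv
  change v * v = γ at hv
  change (v : ℂ) ∈ Polynomial.nthRoots 2 (γ : ℂ)
  rw [Polynomial.mem_nthRoots (by norm_num), ← hv, Circle.coe_mul, sq]

theorem locally_parallel (T : Table)
    (hsec : ∀ x ∈ interior T.P, ∀ y ∈ interior T.P, SecurePair T x y)
    {V : Set (ℂ × Circle)} (hV : IsOpen V) (hne : V.Nonempty) (hVP : V ⊆ interior T.P ×ˢ univ) :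
    ∃ O : Set (ℂ × Circle), O ⊆ V ∧ IsOpen O ∧ O.Nonempty ∧
      ∀ (x : ℂ) (u : Circle) (y : ℂ) (v : Circle) (S : Set ℂ), Orbit T x u y v S → (x, u) ∈ O →
        (y, v) ∈ O → v = u := by
  classical
  obtain ⟨⟨x₀, u₀⟩, h0⟩ := hne
  obtain ⟨X₀, I₀, hX₀, hI₀, hx₀, hu₀, hXI⟩ := isOpen_prod_iff.mp hV x₀ u₀ h0
  obtain ⟨ρ, hρ, hB⟩ := Metric.isOpen_iff.mp (hX₀.inter (isOpen_interior (s := T.P))) x₀
    ⟨hx₀, (hVP h0).1⟩
  set B := Metric.ball x₀ ρ with hBdef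
  set W : Set (ℂ × ℂ) := {p | (p.1 ∈ B ∧ p.2 ∈ B) ∧ p.2 - p.1 ≠ 0 ∧ nrm (p.2 - p.1) ∈ I₀} with hWdef
  have hW : IsOpen W := by
    rw [isOpen_iff_eventually]
    rintro p ⟨⟨h1, h2⟩, h3, h4⟩
    have e1 : ∀ᶠ q : ℂ × ℂ in 𝓝 p, q.1 ∈ B ∧ q.2 ∈ B :=
      (Metric.isOpen_ball.prod Metric.isOpen_ball).mem_nhds (x := p) ⟨h1, h2⟩
    have e3 : ∀ᶠ q : ℂ × ℂ in 𝓝 p, q.2 - q.1 ≠ 0 := by
      have : ContinuousAt (fun q : ℂ × ℂ => q.2 - q.1) p := by fun_prop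
      exact this.eventually_ne h3
    have e4 : ∀ᶠ q : ℂ × ℂ in 𝓝 p, nrm (q.2 - q.1) ∈ I₀ := by
      have h5 : ContinuousAt (fun q : ℂ × ℂ => q.2 - q.1) p := by fun_prop
      have h6 : ContinuousAt (fun q : ℂ × ℂ => nrm (q.2 - q.1)) p :=
        ContinuousAt.comp (g := nrm) (nrm_cont h3) h5
      exact h6.eventually (hI₀.mem_nhds h4)
    filter_upwards [e1, e3, e4] with q q1 q3 q4
    exact ⟨q1, q3, q4⟩
  have hWn : W.Nonempty := by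
    refine ⟨(x₀, x₀ + ((ρ / 2 : ℝ) : ℂ) * u₀), ⟨?_, ?_⟩, ?_, ?_⟩
    · exact Metric.mem_ball_self hρ
    · rw [hBdef, Metric.mem_ball, dist_eq_norm]
      rw [add_sub_cancel_left, norm_mul, Circle.norm_coe, Complex.norm_real,
        Real.norm_of_nonneg (by positivity)]
      linarith
    · simp only [add_sub_cancel_left]
      have : ((ρ / 2 : ℝ) : ℂ) ≠ 0 := by exact_mod_cast (by positivity : (0:ℝ) < ρ / 2).ne'
      exact mul_ne_zero this (Circle.coe_ne_zero u₀)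
    · simp only [add_sub_cancel_left]
      rw [nrm_mul (by positivity)]
      exact hu₀
  have hWP : W ⊆ interior T.P ×ˢ interior T.P := fun p hp => ⟨(hB hp.1.1).2, (hB hp.1.2).2⟩
  obtain ⟨U, hUW, hU, ⟨⟨x₁, y₁⟩, hp₁⟩, Γ, hΓ⟩ := finite_types T hsec hW hWn hWP
  obtain ⟨⟨hx₁, hy₁⟩, hne₁, hn₁⟩ := hUW hp₁
  simp only at hx₁ hy₁ hne₁ hn₁
  obtain ⟨s, u₁, hs, hy₁'⟩ := exists_dir (x := x₁) (y := y₁) (fun h => hne₁ (by rw [h, sub_self]))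
  have hu₁ : u₁ ∈ I₀ := by
    rw [hy₁', add_sub_cancel_left, nrm_mul hs] at hn₁
    exact hn₁
  have hFc : Continuous fun q : (ℂ × Circle) × (ℂ × Circle) =>
      (q.1.1, q.2.1 + (s : ℂ) * (q.2.2 : ℂ)) := by fun_prop
  obtain ⟨N₁, N₂, hN₁, hN₂, ha₁, ha₂, hNN⟩ := isOpen_prod_iff.mp (hU.preimage hFc) (x₁, u₁) (x₁, u₁)
    (by
      change (x₁, x₁ + (s : ℂ) * (u₁ : ℂ)) ∈ U
      rw [← hy₁']; exact hp₁)
  have hNo : IsOpen ((N₁ ∩ N₂) ∩ (B ×ˢ I₀)) :=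
    (hN₁.inter hN₂).inter (Metric.isOpen_ball.prod hI₀)
  obtain ⟨X₁, I₁, hX₁, hI₁, hxX₁, huI₁, hXI₁⟩ := isOpen_prod_iff.mp hNo x₁ u₁
    ⟨⟨ha₁, ha₂⟩, hx₁, hu₁⟩
  obtain ⟨v₀, hv₀, hv₀F⟩ := circle_infinite hI₁ ⟨u₁, huI₁⟩ (sq_finite Γ).toFinset
  have hv₀Γ : v₀ * v₀ ∉ Γ := by simpa using hv₀F
  set G : Set (Circle × Circle) := {q | q.1 * q.2⁻¹ ∉ Γ.erase 1 ∧ q.1 * q.2 ∉ Γ} with hG
  have hGo : IsOpen G := by
    have c1 : Continuous fun q : Circle × Circle => q.1 * q.2⁻¹ := by fun_prop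
    have c2 : Continuous fun q : Circle × Circle => q.1 * q.2 := by fun_prop
    have o1 := ((Γ.erase 1).finite_toSet.isClosed.isOpen_compl).preimage c1
    have o2 := (Γ.finite_toSet.isClosed.isOpen_compl).preimage c2
    exact o1.inter o2
  have hGm : (v₀, v₀) ∈ G := ⟨by simp, hv₀Γ⟩
  obtain ⟨J₁, J₂, hJ₁, hJ₂, hvJ₁, hvJ₂, hJJ⟩ := isOpen_prod_iff.mp hGo v₀ v₀ hGm
  refine ⟨X₁ ×ˢ (I₁ ∩ (J₁ ∩ J₂)), ?_, hX₁.prod (hI₁.inter (hJ₁.inter hJ₂)),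
    ⟨(x₁, v₀), hxX₁, hv₀, hvJ₁, hvJ₂⟩, ?_⟩
  · rintro q ⟨hq1, hq2, -⟩
    have h1 := hXI₁ ⟨hq1, hq2⟩
    exact hXI ⟨(hB h1.2.1).1, h1.2.2⟩
  · rintro x u y v S hO ⟨hx, hu, huJ⟩ ⟨hy, hv, hvJ⟩
    simp only at hx hu hy hv
    have h1 := hXI₁ (show (x, u) ∈ X₁ ×ˢ I₁ from ⟨hx, hu⟩)
    have h2 := hXI₁ (show (y, v) ∈ X₁ ×ˢ I₁ from ⟨hy, hv⟩)
    have hmem : (x, y + (s : ℂ) * (v : ℂ)) ∈ U :=
      hNN (show ((x, u), (y, v)) ∈ N₁ ×ˢ N₂ from ⟨h1.1.1, h2.1.2⟩)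
    have hend : y + (s : ℂ) * (v : ℂ) ∈ B := (hUW hmem).1.2
    have hin : ∀ t : ℝ, 0 ≤ t → t < s → y + t * (v : ℂ) ∈ interior T.P := by
      intro t ht0 ht1
      have h3 := (convex_ball x₀ ρ).add_smul_mem h2.2.1 hend
        (t := t / s) ⟨by positivity, by rw [div_le_one hs]; exact ht1.le⟩
      have h4 : y + (t / s) • ((s : ℂ) * (v : ℂ)) = y + t * v := by
        have : (s : ℂ) ≠ 0 := by exact_mod_cast hs.ne'
        rw [Complex.real_smul]; push_cast; field_simp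
      rw [h4] at h3
      exact (hB h3).2
    obtain ⟨S', hS'⟩ := hO.extend hs hin
    have hJ : (u, v) ∈ G := hJJ ⟨huJ.1, hvJ.2⟩
    rcases hΓ x u _ v S' hS' hmem with h3 | h3
    · have h4 : u * v⁻¹ = 1 := by
        by_contra h5
        exact hJ.1 (Finset.mem_erase.mpr ⟨h5, h3⟩)
      exact (mul_inv_eq_one.mp h4).symm
    · exact absurd h3 hJ.2

theorem traj_dirs (T : Table)
    (hsec : ∀ x ∈ interior T.P, ∀ y ∈ interior T.P, SecurePair T x y) (γ : Trajectory T)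
    {W : Set ℂ} (hW : IsOpen W) (hne : W.Nonempty) (hWP : W ⊆ interior T.P) :
    ∃ X : Set ℂ, X ⊆ W ∧ IsOpen X ∧ X.Nonempty ∧
      {u : Circle | ∃ x ∈ X, (x, u) ∈ γ.states}.Finite := by
  classical
  obtain ⟨U, hUW, hU, ⟨⟨x₁, y₁⟩, hp₁⟩, Γ, hΓ⟩ := finite_types T hsec (hW.prod hW) (hne.prod hne)
    (prod_mono hWP hWP)
  obtain ⟨X₁, X₂, hX₁, hX₂, hx₁, hy₁, hXX⟩ := isOpen_prod_iff.mp hU x₁ y₁ hp₁
  by_cases hmeet : ∃ x ∈ X₁, ∃ u, (x, u) ∈ γ.states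
  · obtain ⟨x, hx, u, i, hxi, hui⟩ := hmeet
    simp only at hxi hui
    refine ⟨X₂, fun y hy => (hUW (hXX (show (x₁, y) ∈ X₁ ×ˢ X₂ from ⟨hx₁, hy⟩))).2, hX₂, ⟨y₁, hy₁⟩, ?_⟩
    have hfin : (((Finset.range (i + 1)).image γ.u ∪ Γ.image (fun g => g⁻¹ * u) ∪
        Γ.image (fun g => u⁻¹ * g) : Finset Circle) : Set Circle).Finite := Finset.finite_toSet _
    refine hfin.subset ?_
    rintro v ⟨y, hy, j, hyj, hvj⟩
    simp only at hyj hvj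
    rw [Finset.mem_coe, Finset.mem_union, Finset.mem_union]
    rcases lt_or_ge i j with hij | hij
    · obtain ⟨S, hS⟩ := γ.orbit' hij hxi hyj
      rw [← hui, ← hvj] at hS
      rcases hΓ x u y v S hS (hXX ⟨hx, hy⟩) with h | h
      · left; right
        refine Finset.mem_image.mpr ⟨_, h, ?_⟩
        simp
      · right
        refine Finset.mem_image.mpr ⟨_, h, ?_⟩
        simp
    · left; left
      exact Finset.mem_image.mpr ⟨j, Finset.mem_range.mpr (by omega), hvj.symm⟩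
  · refine ⟨X₁, fun x hx => (hUW (hXX (show (x, y₁) ∈ X₁ ×ˢ X₂ from ⟨hx, hy₁⟩))).1, hX₁, ⟨x₁, hx₁⟩, ?_⟩
    convert Set.finite_empty
    rw [Set.eq_empty_iff_forall_notMem]
    rintro u ⟨x, hx, hxu⟩
    exact hmeet ⟨x, hx, u, hxu⟩

end Pool.Agent.Helper66.Bil
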