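import Pool.Agent.Helper66.BilH

set_option autoImplicit false

open Set Filter Topology

namespace Pool.Agent.Helper66.Bil

/-- the second edge vector of the parallelogram -/
def pw (c s : ℝ) : ℂ := ⟨c, s⟩

/-- first coordinate with respect to `1` and `c + i s` -/
noncomputable def sg (c s : ℝ) (z : ℂ) : ℝ := z.re - z.im / s * c

/-- second coordinate with respect to `1` and `c + i s` -/
noncomputable def tu (s : ℝ) (z : ℂ) : ℝ := z.im / s

/-- coordinates -/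
noncomputable def coord (c s : ℝ) (hs : 0 < s) : ℝ × ℝ ≃ₜ ℂ where
  toFun p := (p.1 : ℂ) + (p.2 : ℂ) * pw c s
  invFun z := (sg c s z, tu s z)
  left_inv p := by
    have hs' := hs.ne'
    apply Prod.ext
    · simp [sg, pw]
      field_simp
      ring
    · simp [tu, pw]
      field_simp
  right_inv z := by
    have hs' := hs.ne'
    apply Complex.ext
    · simp [sg, tu, pw]
    · simp [sg, tu, pw]
      field_simp
  continuous_toFun := by fun_prop
  continuous_invFun := by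
    refine Continuous.prodMk ?_ ?_
    · unfold sg; fun_prop
    · unfold tu; fun_prop

theorem coord_symm (c s : ℝ) (hs : 0 < s) (z : ℂ) :
    (coord c s hs).symm z = (sg c s z, tu s z) := rfl

theorem mem_coord_image (c s : ℝ) (hs : 0 < s) (A : Set (ℝ × ℝ)) (z : ℂ) :
    z ∈ coord c s hs '' A ↔ (sg c s z, tu s z) ∈ A := by
  rw [← coord_symm c s hs]
  constructor
  · rintro ⟨p, hp, rfl⟩
    rw [Homeomorph.symm_apply_apply]; exact hp
  · intro h
    exact ⟨_, h, Homeomorph.apply_symm_apply _ _⟩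

theorem eq_iff_coord (c s : ℝ) (hs : 0 < s) (z z' : ℂ) :
    z = z' ↔ sg c s z = sg c s z' ∧ tu s z = tu s z' := by
  rw [← (coord c s hs).symm.injective.eq_iff, coord_symm, coord_symm, Prod.mk.injEq]

theorem sg_lin (c s : ℝ) (p q : ℂ) (θ : ℝ) :
    sg c s (p + θ • (q - p)) = sg c s p + θ * (sg c s q - sg c s p) := by
  simp [sg]; ring

theorem tu_lin (s : ℝ) (p q : ℂ) (θ : ℝ) :
    tu s (p + θ • (q - p)) = tu s p + θ * (tu s q - tu s p) := by
  simp [tu]; ring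

/-- first end points of the sides -/
def pa (c s : ℝ) : Fin 4 → ℂ := ![0, 1, pw c s, 0]

/-- second end points of the sides -/
def pb (c s : ℝ) : Fin 4 → ℂ := ![1, 1 + pw c s, 1 + pw c s, pw c s]

theorem seg0 (c s : ℝ) (hs : 0 < s) (z : ℂ) : z ∈ segment ℝ (pa c s 0) (pb c s 0) ↔
    tu s z = 0 ∧ 0 ≤ sg c s z ∧ sg c s z ≤ 1 := by
  rw [segment_eq_image']
  constructor
  · rintro ⟨θ, ⟨h0, h1⟩, rfl⟩
    beta_reduce
    rw [sg_lin, tu_lin]
    simp [pa, pb, sg, tu, h0, h1]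
  · rintro ⟨h1, h2, h3⟩
    refine ⟨sg c s z, ⟨h2, h3⟩, ?_⟩
    beta_reduce
    rw [eq_iff_coord c s hs, sg_lin, tu_lin, h1]
    simp [pa, pb, sg, tu]

theorem seg1 (c s : ℝ) (hs : 0 < s) (z : ℂ) : z ∈ segment ℝ (pa c s 1) (pb c s 1) ↔
    sg c s z = 1 ∧ 0 ≤ tu s z ∧ tu s z ≤ 1 := by
  have hs' := hs.ne'
  rw [segment_eq_image']
  constructor
  · rintro ⟨θ, ⟨h0, h1⟩, rfl⟩
    beta_reduce
    rw [sg_lin, tu_lin]
    simp [pa, pb, sg, tu, pw, h0, h1, hs']
  · rintro ⟨h1, h2, h3⟩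
    refine ⟨tu s z, ⟨h2, h3⟩, ?_⟩
    beta_reduce
    rw [eq_iff_coord c s hs, sg_lin, tu_lin, h1]
    simp [pa, pb, sg, tu, pw, hs']

theorem seg2 (c s : ℝ) (hs : 0 < s) (z : ℂ) : z ∈ segment ℝ (pa c s 2) (pb c s 2) ↔
    tu s z = 1 ∧ 0 ≤ sg c s z ∧ sg c s z ≤ 1 := by
  have hs' := hs.ne'
  rw [segment_eq_image']
  constructor
  · rintro ⟨θ, ⟨h0, h1⟩, rfl⟩
    beta_reduce
    rw [sg_lin, tu_lin]
    simp [pa, pb, sg, tu, pw, h0, h1, hs']
  · rintro ⟨h1, h2, h3⟩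
    refine ⟨sg c s z, ⟨h2, h3⟩, ?_⟩
    beta_reduce
    rw [eq_iff_coord c s hs, sg_lin, tu_lin, h1]
    simp [pa, pb, sg, tu, pw, hs']

theorem seg3 (c s : ℝ) (hs : 0 < s) (z : ℂ) : z ∈ segment ℝ (pa c s 3) (pb c s 3) ↔
    sg c s z = 0 ∧ 0 ≤ tu s z ∧ tu s z ≤ 1 := by
  have hs' := hs.ne'
  rw [segment_eq_image']
  constructor
  · rintro ⟨θ, ⟨h0, h1⟩, rfl⟩
    beta_reduce
    rw [sg_lin, tu_lin]
    simp [pa, pb, sg, tu, pw, h0, h1, hs']
  · rintro ⟨h1, h2, h3⟩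
    refine ⟨tu s z, ⟨h2, h3⟩, ?_⟩
    beta_reduce
    rw [eq_iff_coord c s hs, sg_lin, tu_lin, h1]
    simp [pa, pb, sg, tu, pw, hs']

theorem oseg0 (c s : ℝ) (hs : 0 < s) (z : ℂ) : z ∈ openSegment ℝ (pa c s 0) (pb c s 0) ↔
    tu s z = 0 ∧ 0 < sg c s z ∧ sg c s z < 1 := by
  rw [openSegment_eq_image']
  constructor
  · rintro ⟨θ, ⟨h0, h1⟩, rfl⟩
    beta_reduce
    rw [sg_lin, tu_lin]
    simp [pa, pb, sg, tu, h0, h1]
  · rintro ⟨h1, h2, h3⟩
    refine ⟨sg c s z, ⟨h2, h3⟩, ?_⟩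
    beta_reduce
    rw [eq_iff_coord c s hs, sg_lin, tu_lin, h1]
    simp [pa, pb, sg, tu]

theorem oseg1 (c s : ℝ) (hs : 0 < s) (z : ℂ) : z ∈ openSegment ℝ (pa c s 1) (pb c s 1) ↔
    sg c s z = 1 ∧ 0 < tu s z ∧ tu s z < 1 := by
  have hs' := hs.ne'
  rw [openSegment_eq_image']
  constructor
  · rintro ⟨θ, ⟨h0, h1⟩, rfl⟩
    beta_reduce
    rw [sg_lin, tu_lin]
    simp [pa, pb, sg, tu, pw, h0, h1, hs']
  · rintro ⟨h1, h2, h3⟩
    refine ⟨tu s z, ⟨h2, h3⟩, ?_⟩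
    beta_reduce
    rw [eq_iff_coord c s hs, sg_lin, tu_lin, h1]
    simp [pa, pb, sg, tu, pw, hs']

theorem oseg2 (c s : ℝ) (hs : 0 < s) (z : ℂ) : z ∈ openSegment ℝ (pa c s 2) (pb c s 2) ↔
    tu s z = 1 ∧ 0 < sg c s z ∧ sg c s z < 1 := by
  have hs' := hs.ne'
  rw [openSegment_eq_image']
  constructor
  · rintro ⟨θ, ⟨h0, h1⟩, rfl⟩
    beta_reduce
    rw [sg_lin, tu_lin]
    simp [pa, pb, sg, tu, pw, h0, h1, hs']
  · rintro ⟨h1, h2, h3⟩
    refine ⟨sg c s z, ⟨h2, h3⟩, ?_⟩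
    beta_reduce
    rw [eq_iff_coord c s hs, sg_lin, tu_lin, h1]
    simp [pa, pb, sg, tu, pw, hs']

theorem oseg3 (c s : ℝ) (hs : 0 < s) (z : ℂ) : z ∈ openSegment ℝ (pa c s 3) (pb c s 3) ↔
    sg c s z = 0 ∧ 0 < tu s z ∧ tu s z < 1 := by
  have hs' := hs.ne'
  rw [openSegment_eq_image']
  constructor
  · rintro ⟨θ, ⟨h0, h1⟩, rfl⟩
    beta_reduce
    rw [sg_lin, tu_lin]
    simp [pa, pb, sg, tu, pw, h0, h1, hs']
  · rintro ⟨h1, h2, h3⟩
    refine ⟨tu s z, ⟨h2, h3⟩, ?_⟩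
    beta_reduce
    rw [eq_iff_coord c s hs, sg_lin, tu_lin, h1]
    simp [pa, pb, sg, tu, pw, hs']

/-- The parallelogram with vertices `0`, `1`, `1 + w`, `w`, where `w = c + i s`. -/
noncomputable def para (c s : ℝ) (hs : 0 < s) : Table where
  P := coord c s hs '' (Icc 0 1 ×ˢ Icc 0 1)
  N := 4
  a := pa c s
  b := pb c s
  isCompact := (isCompact_Icc.prod isCompact_Icc).image (coord c s hs).continuous
  isConnected := ((isConnected_Icc zero_le_one).prod (isConnected_Icc zero_le_one)).image _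
    (coord c s hs).continuous.continuousOn
  ne := by
    intro i h
    have h2 := congrArg Complex.im h
    have h3 := congrArg Complex.re h
    fin_cases i
    · simp [pa, pb, pw] at h2 h3
    · simp [pa, pb, pw] at h2 h3
      linarith
    · simp [pa, pb, pw] at h2 h3
    · simp [pa, pb, pw] at h2 h3
      linarith
  frontier_eq := by
    rw [← (coord c s hs).image_frontier, frontier_prod_eq, closure_Icc, frontier_Icc zero_le_one]
    ext z
    rw [mem_coord_image, mem_iUnion]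
    simp only [mem_union, mem_prod, mem_Icc, mem_insert_iff, mem_singleton_iff]
    constructor
    · rintro (⟨⟨h1, h2⟩, h3 | h3⟩ | ⟨h3 | h3, h1, h2⟩)
      · exact ⟨0, (seg0 c s hs z).mpr ⟨h3, h1, h2⟩⟩
      · exact ⟨2, (seg2 c s hs z).mpr ⟨h3, h1, h2⟩⟩
      · exact ⟨3, (seg3 c s hs z).mpr ⟨h3, h1, h2⟩⟩
      · exact ⟨1, (seg1 c s hs z).mpr ⟨h3, h1, h2⟩⟩
    · rintro ⟨i, hi⟩
      fin_cases i
      · obtain ⟨h1, h2, h3⟩ := (seg0 c s hs z).mp hi
        exact Or.inl ⟨⟨h2, h3⟩, Or.inl h1⟩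
      · obtain ⟨h1, h2, h3⟩ := (seg1 c s hs z).mp hi
        exact Or.inr ⟨Or.inr h1, h2, h3⟩
      · obtain ⟨h1, h2, h3⟩ := (seg2 c s hs z).mp hi
        exact Or.inl ⟨⟨h2, h3⟩, Or.inr h1⟩
      · obtain ⟨h1, h2, h3⟩ := (seg3 c s hs z).mp hi
        exact Or.inr ⟨Or.inl h1, h2, h3⟩
  disj := by
    intro i j hij
    rw [Set.disjoint_left]
    intro z hi hj
    fin_cases i <;> fin_cases j
    · exact hij rfl
    · have h1 := (oseg0 c s hs z).mp hi
      have h2 := (seg1 c s hs z).mp hj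
      linarith [h1.2.2, h2.1]
    · have h1 := (oseg0 c s hs z).mp hi
      have h2 := (seg2 c s hs z).mp hj
      linarith [h1.1, h2.1]
    · have h1 := (oseg0 c s hs z).mp hi
      have h2 := (seg3 c s hs z).mp hj
      linarith [h1.2.1, h2.1]
    · have h1 := (oseg1 c s hs z).mp hi
      have h2 := (seg0 c s hs z).mp hj
      linarith [h1.2.1, h2.1]
    · exact hij rfl
    · have h1 := (oseg1 c s hs z).mp hi
      have h2 := (seg2 c s hs z).mp hj
      linarith [h1.2.2, h2.1]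
    · have h1 := (oseg1 c s hs z).mp hi
      have h2 := (seg3 c s hs z).mp hj
      linarith [h1.1, h2.1]
    · have h1 := (oseg2 c s hs z).mp hi
      have h2 := (seg0 c s hs z).mp hj
      linarith [h1.1, h2.1]
    · have h1 := (oseg2 c s hs z).mp hi
      have h2 := (seg1 c s hs z).mp hj
      linarith [h1.2.2, h2.1]
    · exact hij rfl
    · have h1 := (oseg2 c s hs z).mp hi
      have h2 := (seg3 c s hs z).mp hj
      linarith [h1.2.1, h2.1]
    · have h1 := (oseg3 c s hs z).mp hi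
      have h2 := (seg0 c s hs z).mp hj
      linarith [h1.2.1, h2.1]
    · have h1 := (oseg3 c s hs z).mp hi
      have h2 := (seg1 c s hs z).mp hj
      linarith [h1.1, h2.1]
    · have h1 := (oseg3 c s hs z).mp hi
      have h2 := (seg2 c s hs z).mp hj
      linarith [h1.2.2, h2.1]
    · exact hij rfl

theorem para_interior (c s : ℝ) (hs : 0 < s) (z : ℂ) (h : 0 < sg c s z ∧ sg c s z < 1)
    (h' : 0 < tu s z ∧ tu s z < 1) : z ∈ interior (para c s hs).P := by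
  change z ∈ interior (coord c s hs '' (Icc 0 1 ×ˢ Icc 0 1))
  rw [← (coord c s hs).image_interior, mem_coord_image, interior_prod_eq, interior_Icc]
  exact ⟨h, h'⟩

/-- a chord between different sides runs through the interior -/
theorem para_chord (c s : ℝ) (hs : 0 < s) (p q : ℂ)
    (hp : 0 ≤ sg c s p ∧ sg c s p ≤ 1) (hp' : 0 ≤ tu s p ∧ tu s p ≤ 1)
    (hq : 0 ≤ sg c s q ∧ sg c s q ≤ 1) (hq' : 0 ≤ tu s q ∧ tu s q ≤ 1)
    (h0 : 0 < sg c s p + sg c s q) (h1 : sg c s p + sg c s q < 2)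
    (h2 : 0 < tu s p + tu s q) (h3 : tu s p + tu s q < 2) :
    openSegment ℝ p q ⊆ interior (para c s hs).P := by
  intro z hz
  rw [openSegment_eq_image'] at hz
  obtain ⟨θ, ⟨t0, t1⟩, rfl⟩ := hz
  beta_reduce
  apply para_interior
  · rw [sg_lin]
    constructor
    · rcases hp.1.eq_or_lt with h | h
      · have : 0 < sg c s q := by linarith
        rw [← h]; nlinarith
      · nlinarith [hq.1]
    · rcases hp.2.eq_or_lt with h | h
      · have : sg c s q < 1 := by linarith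
        rw [h]; nlinarith
      · nlinarith [hq.2]
  · rw [tu_lin]
    constructor
    · rcases hp'.1.eq_or_lt with h | h
      · have : 0 < tu s q := by linarith
        rw [← h]; nlinarith
      · nlinarith [hq'.1]
    · rcases hp'.2.eq_or_lt with h | h
      · have : tu s q < 1 := by linarith
        rw [h]; nlinarith
      · nlinarith [hq'.2]

end Pool.Agent.Helper66.Bil
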