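import Pool.Agent.Helper66.BilP

set_option autoImplicit false

open Set Filter Topology

namespace Pool.Agent.Helper66.Bil

/-- the direction `d` points along `z` -/
def Dir (d : Circle) (z : ℂ) : Prop := ∃ t : ℝ, 0 < t ∧ (t : ℂ) * d = z

theorem Dir.smul {d : Circle} {z : ℂ} (h : Dir d z) {l : ℝ} (hl : 0 < l) : Dir d (l * z) := by
  obtain ⟨t, ht, h⟩ := h
  refine ⟨l * t, mul_pos hl ht, ?_⟩
  push_cast
  rw [← h]; ring

theorem Dir.inv {d : Circle} {z : ℂ} (h : Dir d z) : Dir d⁻¹ ((starRingEnd ℂ) z) := by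
  obtain ⟨t, ht, h⟩ := h
  refine ⟨t, ht, ?_⟩
  rw [← h, Circle.coe_inv_eq_conj, map_mul, Complex.conj_ofReal]

theorem Dir.mul {d : Circle} {z : ℂ} (h : Dir d z) (o : Circle) : Dir (o * d) (o * z) := by
  obtain ⟨t, ht, h⟩ := h
  refine ⟨t, ht, ?_⟩
  rw [← h, Circle.coe_mul]; ring

theorem leg' {T : Table} {x y : ℂ} {u : Circle} (hd : Dir u (y - x))
    (h : openSegment ℝ x y ⊆ interior T.P) : Orbit T x u y u (segment ℝ x y) := by
  obtain ⟨t, ht, h1⟩ := hd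
  have h2 : x + t * u = y := by rw [h1]; ring
  have h3 := Orbit.leg (T := T) x u t ht (by rw [h2]; exact h)
  rwa [h2] at h3

theorem bounce' {T : Table} {x x1 y : ℂ} {u v : Circle} {S : Set ℂ} (i : Fin T.N) (u1 : Circle)
    (hd : Dir u (x1 - x)) (h : openSegment ℝ x x1 ⊆ interior T.P)
    (hc : x1 ∈ openSegment ℝ (T.a i) (T.b i)) (hu : T.refl i u = u1)
    (h' : Orbit T x1 u1 y v S) : Orbit T x u y v (segment ℝ x x1 ∪ S) := by
  obtain ⟨t, ht, h1⟩ := hd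
  have h2 : x + t * u = x1 := by rw [h1]; ring
  have h3 := Orbit.bounce (T := T) x u t i y v S ht (by rw [h2]; exact h) (by rw [h2]; exact hc)
    (by rw [h2, hu]; exact h')
  rwa [h2] at h3

theorem refl_eq (T : Table) (i : Fin T.N) (o u : Circle)
    (h : (o : ℂ) * (starRingEnd ℂ) (T.b i - T.a i) = T.b i - T.a i) : T.refl i u = o * u⁻¹ := by
  have h0 : (starRingEnd ℂ) (T.b i - T.a i) ≠ 0 := by
    rw [Ne, map_eq_zero]; exact T.sub_ne i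
  ext
  rw [Circle.coe_mul, Circle.coe_inv_eq_conj]
  change (T.b i - T.a i) * (starRingEnd ℂ) ((u : ℂ) / (T.b i - T.a i)) = _
  rw [map_div₀, mul_div_assoc', div_eq_iff h0]
  linear_combination (-(starRingEnd ℂ) (u : ℂ)) * h

/-- The parameters of the construction. -/
structure Hy (c s κ T C2 S2 : ℝ) : Prop where
  hs : 0 < s
  hc : 0 < c
  hS : S2 * c = s * (1 + C2)
  hS' : s * S2 = c * (1 - C2)
  hC0 : 0 < C2
  hC1 : C2 < 1
  hk : 0 < κ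
  hk1 : κ < 1 - C2
  hk2 : C2 < c - κ
  hk3 : c + κ < 1
  hT : 0 < T
  hT1 : s * T * (c + 1 + C2) ≤ C2 * c

theorem Hy.S2pos {c s κ T C2 S2 : ℝ} (h : Hy c s κ T C2 S2) : 0 < S2 := by
  have h1 : 0 < S2 * c := by
    rw [h.hS]; exact mul_pos h.hs (by linarith [h.hC0])
  by_contra hn
  rw [not_lt] at hn
  nlinarith [h.hc]

/-- the unfolded orbit -/
def ze (X T Y : ℝ) : ℂ := ⟨X + Y * T, Y⟩

/-- real affine maps -/
def Aff (f : ℂ → ℂ) : Prop := ∀ (p q : ℂ) (θ : ℝ), f (p + θ • (q - p)) = f p + θ • (f q - f p)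

theorem aff_a (α β : ℂ) : Aff fun z => α * z + β := by
  intro p q θ
  simp only [Complex.real_smul]
  ring

theorem aff_b (α β : ℂ) : Aff fun z => α * (starRingEnd ℂ) z + β := by
  intro p q θ
  simp only [Complex.real_smul, map_add, map_mul, map_sub, Complex.conj_ofReal]
  ring

theorem track {f : ℂ → ℂ} (hf : Aff f) {p q : ℂ} {X T Y Y' : ℝ} (hY : Y < Y')
    (hp : f p = ze X T Y) (hq : f q = ze X T Y') {z : ℂ} (hz : z ∈ segment ℝ p q) :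
    ∃ Z, Y ≤ Z ∧ Z ≤ Y' ∧ f z = ze X T Z ∧ (Z = Y → z = p) ∧ (Z = Y' → z = q) := by
  rw [segment_eq_image'] at hz
  obtain ⟨θ, ⟨h0, h1⟩, rfl⟩ := hz
  beta_reduce
  refine ⟨Y + θ * (Y' - Y), by nlinarith, by nlinarith, ?_, ?_, ?_⟩
  · rw [hf, hp, hq]
    apply Complex.ext
    · simp [ze]; ring
    · simp [ze]
  · intro h
    have h2 : θ * (Y' - Y) = 0 := by linarith
    rcases mul_eq_zero.mp h2 with h3 | h3
    · simp [h3]
    · linarith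
  · intro h
    have h2 : (θ - 1) * (Y' - Y) = 0 := by linarith
    rcases mul_eq_zero.mp h2 with h3 | h3
    · have h4 : θ = 1 := by linarith
      simp [h4]
    · linarith

/-- the six unfolding maps of a long cycle -/
def II (s S2 : ℝ) (o : Circle) : Fin 6 → ℂ → ℂ
  | 0 => fun z => 1 * z + 0
  | 1 => fun z => o * (starRingEnd ℂ) z + 0
  | 2 => fun z => 1 * z + (o - 1)
  | 3 => fun z => 1 * (starRingEnd ℂ) z + (o - 1 + ⟨0, 2 * s⟩)
  | 4 => fun z => (starRingEnd ℂ) (o : ℂ) * z + (o - (starRingEnd ℂ) (o : ℂ) + ⟨0, 2 * s⟩)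
  | 5 => fun z => 1 * (starRingEnd ℂ) z + ⟨0, 2 * (s + S2)⟩

/-- the two unfolding maps of a short cycle -/
def JJ (s : ℝ) : Fin 2 → ℂ → ℂ
  | 0 => fun z => 1 * z + 0
  | 1 => fun z => 1 * (starRingEnd ℂ) z + ⟨0, 2 * s⟩

theorem chord' (c s : ℝ) (hs : 0 < s) {p q : ℂ} {a1 a2 b1 b2 : ℝ} (h1 : sg c s p = a1)
    (h2 : tu s p = a2) (h3 : sg c s q = b1) (h4 : tu s q = b2)
    (h5 : 0 ≤ a1 ∧ a1 ≤ 1 ∧ 0 ≤ a2 ∧ a2 ≤ 1 ∧ 0 ≤ b1 ∧ b1 ≤ 1 ∧ 0 ≤ b2 ∧ b2 ≤ 1)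
    (h6 : 0 < a1 + b1 ∧ a1 + b1 < 2 ∧ 0 < a2 + b2 ∧ a2 + b2 < 2) :
    openSegment ℝ p q ⊆ interior (para c s hs).P := by
  subst h1 h2 h3 h4
  obtain ⟨k1, k2, k3, k4, k5, k6, k7, k8⟩ := h5
  obtain ⟨l1, l2, l3, l4⟩ := h6
  exact para_chord c s hs p q ⟨k1, k2⟩ ⟨k3, k4⟩ ⟨k5, k6⟩ ⟨k7, k8⟩ l1 l2 l3 l4

/-- points of the sides -/
def pB (c s τ : ℝ) : ℂ := ⟨τ * c, τ * s⟩
def pB' (c s τ : ℝ) : ℂ := ⟨1 + τ * c, τ * s⟩
def pA (X : ℝ) : ℂ := ⟨X, 0⟩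
def pA' (c s σ : ℝ) : ℂ := ⟨σ + c, s⟩

theorem sg_pB (c s τ : ℝ) (hs : 0 < s) : sg c s (pB c s τ) = 0 := by
  have := hs.ne'; simp [sg, pB]; field_simp; ring
theorem tu_pB (c s τ : ℝ) (hs : 0 < s) : tu s (pB c s τ) = τ := by
  have := hs.ne'; simp [tu, pB]; field_simp
theorem sg_pB' (c s τ : ℝ) (hs : 0 < s) : sg c s (pB' c s τ) = 1 := by
  have := hs.ne'; simp [sg, pB']; field_simp; ring
theorem tu_pB' (c s τ : ℝ) (hs : 0 < s) : tu s (pB' c s τ) = τ := by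
  have := hs.ne'; simp [tu, pB']; field_simp
theorem sg_pA (c s X : ℝ) : sg c s (pA X) = X := by simp [sg, pA]
theorem tu_pA (s X : ℝ) : tu s (pA X) = 0 := by simp [tu, pA]
theorem sg_pA' (c s σ : ℝ) (hs : 0 < s) : sg c s (pA' c s σ) = σ := by
  have := hs.ne'; simp [sg, pA']; field_simp; ring
theorem tu_pA' (c s σ : ℝ) (hs : 0 < s) : tu s (pA' c s σ) = 1 := by
  have := hs.ne'; simp [tu, pA', this]

end Pool.Agent.Helper66.Bil
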