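import Pool.Agent.Helper66.BilQ

set_option autoImplicit false

open Set Filter Topology

namespace Pool.Agent.Helper66.Bil

variable {c s κ T C2 S2 : ℝ}

theorem refl0 (hs : 0 < s) (u : Circle) : (para c s hs).refl (0 : Fin 4) u = u⁻¹ := by
  rw [refl_eq (para c s hs) (0 : Fin 4) 1 u, one_mul]
  change ((1 : Circle) : ℂ) * (starRingEnd ℂ) (pb c s 0 - pa c s 0) = pb c s 0 - pa c s 0
  simp [pa, pb]

theorem refl2 (hs : 0 < s) (u : Circle) : (para c s hs).refl (2 : Fin 4) u = u⁻¹ := by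
  rw [refl_eq (para c s hs) (2 : Fin 4) 1 u, one_mul]
  change ((1 : Circle) : ℂ) * (starRingEnd ℂ) (pb c s 2 - pa c s 2) = pb c s 2 - pa c s 2
  simp [pa, pb]

theorem om_w (H : Hy c s κ T C2 S2) {o : Circle} (ho : (o : ℂ) = ⟨C2, S2⟩) :
    (o : ℂ) * (starRingEnd ℂ) (pw c s) = pw c s := by
  rw [ho]
  apply Complex.ext
  · simp [pw]
    linear_combination H.hS'
  · simp [pw]
    linear_combination H.hS

theorem refl1 (H : Hy c s κ T C2 S2) {o : Circle} (ho : (o : ℂ) = ⟨C2, S2⟩) (u : Circle) :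
    (para c s H.hs).refl (1 : Fin 4) u = o * u⁻¹ := by
  rw [refl_eq (para c s H.hs) (1 : Fin 4) o u]
  change (o : ℂ) * (starRingEnd ℂ) (pb c s 1 - pa c s 1) = pb c s 1 - pa c s 1
  have : pb c s 1 - pa c s 1 = pw c s := by simp [pa, pb]
  rw [this]
  exact om_w H ho

theorem refl3 (H : Hy c s κ T C2 S2) {o : Circle} (ho : (o : ℂ) = ⟨C2, S2⟩) (u : Circle) :
    (para c s H.hs).refl (3 : Fin 4) u = o * u⁻¹ := by
  rw [refl_eq (para c s H.hs) (3 : Fin 4) o u]
  change (o : ℂ) * (starRingEnd ℂ) (pb c s 3 - pa c s 3) = pb c s 3 - pa c s 3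
  have : pb c s 3 - pa c s 3 = pw c s := by simp [pa, pb]
  rw [this]
  exact om_w H ho

theorem op0 (hs : 0 < s) {X : ℝ} (h0 : 0 < X) (h1 : X < 1) :
    pA X ∈ openSegment ℝ ((para c s hs).a (0 : Fin 4)) ((para c s hs).b (0 : Fin 4)) :=
  (oseg0 c s hs _).mpr ⟨tu_pA s X, by rw [sg_pA]; exact h0, by rw [sg_pA]; exact h1⟩

theorem op1 (hs : 0 < s) {X : ℝ} (h0 : 0 < X) (h1 : X < 1) :
    pB' c s X ∈ openSegment ℝ ((para c s hs).a (1 : Fin 4)) ((para c s hs).b (1 : Fin 4)) :=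
  (oseg1 c s hs _).mpr ⟨sg_pB' c s X hs, by rw [tu_pB' c s X hs]; exact h0,
    by rw [tu_pB' c s X hs]; exact h1⟩

theorem op2 (hs : 0 < s) {X : ℝ} (h0 : 0 < X) (h1 : X < 1) :
    pA' c s X ∈ openSegment ℝ ((para c s hs).a (2 : Fin 4)) ((para c s hs).b (2 : Fin 4)) :=
  (oseg2 c s hs _).mpr ⟨tu_pA' c s X hs, by rw [sg_pA' c s X hs]; exact h0,
    by rw [sg_pA' c s X hs]; exact h1⟩

theorem op3 (hs : 0 < s) {X : ℝ} (h0 : 0 < X) (h1 : X < 1) :
    pB c s X ∈ openSegment ℝ ((para c s hs).a (3 : Fin 4)) ((para c s hs).b (3 : Fin 4)) :=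
  (oseg3 c s hs _).mpr ⟨sg_pB c s X hs, by rw [tu_pB c s X hs]; exact h0,
    by rw [tu_pB c s X hs]; exact h1⟩

/-- the short cycle, first half and final piece -/
theorem cfin (H : Hy c s κ T C2 S2) {u : Circle} (hu : Dir u ⟨T, 1⟩) {X : ℝ}
    (hX0 : 0 < X) (hX : c - s * T < X) (hX2 : X + 2 * s * T < 1) :
    ∃ S, Orbit (para c s H.hs) (pA X) u (pA (X + 2 * s * T)) u⁻¹ S ∧
      ∀ z ∈ S, ∃ i : Fin 2, ∃ Y, 0 ≤ Y ∧ Y ≤ 2 * s ∧ JJ s i z = ze X T Y ∧
        (Y = 2 * s → z = pA (X + 2 * s * T)) := by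
  have hs := H.hs
  have hsT : 0 < s * T := mul_pos hs H.hT
  have hk := H.hk
  have hk3 := H.hk3
  have hc := H.hc
  refine ⟨_, bounce' (x1 := pA' c s (X + s * T - c)) (2 : Fin 4) u⁻¹ ?_ ?_ ?_ ?_ (leg' ?_ ?_), ?_⟩
  · have := hu.smul hs
    convert this using 1
    apply Complex.ext <;> simp [pA', pA]
  · exact chord' c s hs (sg_pA c s X) (tu_pA s X) (sg_pA' c s _ hs) (tu_pA' c s _ hs)
      ⟨by linarith, by linarith, by linarith, by linarith, by linarith, by linarith,
        by linarith, by linarith⟩ ⟨by linarith, by linarith, by linarith, by linarith⟩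
  · exact op2 hs (by linarith) (by linarith)
  · exact refl2 hs u
  · have := hu.inv.smul hs
    convert this using 1
    apply Complex.ext <;> simp [pA', pA]
    ring
  · exact chord' c s hs (sg_pA' c s _ hs) (tu_pA' c s _ hs) (sg_pA c s _) (tu_pA s _)
      ⟨by linarith, by linarith, by linarith, by linarith, by linarith, by linarith,
        by linarith, by linarith⟩ ⟨by linarith, by linarith, by linarith, by linarith⟩
  · rintro z (hz | hz)
    · obtain ⟨Y, h1, h2, h3, h4, h5⟩ := track (f := JJ s 0) (aff_a 1 0) (X := X) (T := T)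
        (Y := 0) (Y' := s) hs (by
          apply Complex.ext <;> simp [JJ, pA, ze]) (by
          apply Complex.ext <;> simp [JJ, pA', ze]) hz
      exact ⟨0, Y, h1, by linarith, h3, fun h => by linarith⟩
    · obtain ⟨Y, h1, h2, h3, h4, h5⟩ := track (f := JJ s 1) (aff_b 1 _) (X := X) (T := T)
        (Y := s) (Y' := 2 * s) (by linarith) (by
          apply Complex.ext <;> simp [JJ, pA', ze]
          ring) (by
          apply Complex.ext <;> simp [JJ, pA, ze]) hz
      exact ⟨1, Y, by linarith, h2, h3, h5⟩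

/-- the short cycle -/
theorem cstep (H : Hy c s κ T C2 S2) {u : Circle} (hu : Dir u ⟨T, 1⟩) {X : ℝ}
    (hX0 : 0 < X) (hX : c - s * T < X) (hX2 : X + 2 * s * T < 1) {y : ℂ} {v : Circle} {S : Set ℂ}
    (hO : Orbit (para c s H.hs) (pA (X + 2 * s * T)) u y v S) :
    ∃ S', Orbit (para c s H.hs) (pA X) u y v S' ∧
      ∀ z ∈ S', z ∈ S ∨ ∃ i : Fin 2, ∃ Y, 0 ≤ Y ∧ Y ≤ 2 * s ∧ JJ s i z = ze X T Y := by
  have hs := H.hs
  have hsT : 0 < s * T := mul_pos hs H.hT
  have hk := H.hk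
  have hk3 := H.hk3
  have hc := H.hc
  refine ⟨_, bounce' (x1 := pA' c s (X + s * T - c)) (2 : Fin 4) u⁻¹ ?_ ?_ ?_ ?_
    (bounce' (x1 := pA (X + 2 * s * T)) (0 : Fin 4) u ?_ ?_ ?_ ?_ hO), ?_⟩
  · have := hu.smul hs
    convert this using 1
    apply Complex.ext <;> simp [pA', pA]
  · exact chord' c s hs (sg_pA c s X) (tu_pA s X) (sg_pA' c s _ hs) (tu_pA' c s _ hs)
      ⟨by linarith, by linarith, by linarith, by linarith, by linarith, by linarith,
        by linarith, by linarith⟩ ⟨by linarith, by linarith, by linarith, by linarith⟩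
  · exact op2 hs (by linarith) (by linarith)
  · exact refl2 hs u
  · have := hu.inv.smul hs
    convert this using 1
    apply Complex.ext <;> simp [pA', pA]
    ring
  · exact chord' c s hs (sg_pA' c s _ hs) (tu_pA' c s _ hs) (sg_pA c s _) (tu_pA s _)
      ⟨by linarith, by linarith, by linarith, by linarith, by linarith, by linarith,
        by linarith, by linarith⟩ ⟨by linarith, by linarith, by linarith, by linarith⟩
  · exact op0 hs (by linarith) (by linarith)
  · rw [refl0 hs, inv_inv]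
  · rintro z (hz | hz | hz)
    · obtain ⟨Y, h1, h2, h3, h4, h5⟩ := track (f := JJ s 0) (aff_a 1 0) (X := X) (T := T)
        (Y := 0) (Y' := s) hs (by
          apply Complex.ext <;> simp [JJ, pA, ze]) (by
          apply Complex.ext <;> simp [JJ, pA', ze]) hz
      exact Or.inr ⟨0, Y, h1, by linarith, h3⟩
    · obtain ⟨Y, h1, h2, h3, h4, h5⟩ := track (f := JJ s 1) (aff_b 1 _) (X := X) (T := T)
        (Y := s) (Y' := 2 * s) (by linarith) (by
          apply Complex.ext <;> simp [JJ, pA', ze]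
          ring) (by
          apply Complex.ext <;> simp [JJ, pA, ze]) hz
      exact Or.inr ⟨1, Y, by linarith, h2, h3⟩
    · exact Or.inl hz

end Pool.Agent.Helper66.Bil
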