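import Mathlib

set_option autoImplicit false

open Set Filter Topology

namespace Pool.Agent.Helper66.Bil

/-- If `r` is irrational and `α`, `β` are not both rational, then `α ⌊n r⌋ + β n - γ` is an integer
for only finitely many `n`. -/
theorem fin_bad {r α β γ : ℝ} (hr : Irrational r) (hab : ¬ ((∃ a : ℚ, (a : ℝ) = α) ∧ ∃ b : ℚ, (b : ℝ) = β)) :
    {n : ℕ | ∃ k : ℤ, α * ⌊n * r⌋ + β * n - γ = k}.Finite := by
  by_contra hinf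
  have hinf' : {n : ℕ | ∃ k : ℤ, α * ⌊n * r⌋ + β * n - γ = k}.Infinite := hinf
  obtain ⟨n0, k0, hk0⟩ := hinf'.nonempty
  obtain ⟨n1, ⟨k1, hk1⟩, hn1⟩ := hinf'.exists_gt n0
  set m0 : ℤ := ⌊(n0 : ℝ) * r⌋ with hm0
  set m1 : ℤ := ⌊(n1 : ℝ) * r⌋ with hm1
  have hn1' : (n0 : ℝ) < n1 := by exact_mod_cast hn1
  -- the slope
  set ρ : ℚ := ((m1 : ℚ) - m0) / ((n1 : ℚ) - n0) with hρ
  have hρr : (ρ : ℝ) ≠ r := fun h => hr ⟨ρ, h⟩
  have hρ1 : (ρ : ℝ) * ((n1 : ℝ) - n0) = (m1 : ℝ) - m0 := by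
    rw [hρ]; push_cast
    have : (n1 : ℝ) - n0 ≠ 0 := by linarith
    field_simp
  -- all determinants vanish
  have hdet : ∀ n : ℕ, (∃ k : ℤ, α * ⌊n * r⌋ + β * n - γ = k) →
      ((⌊(n : ℝ) * r⌋ : ℤ) - m0) * ((n1 : ℤ) - n0) = (m1 - m0) * ((n : ℤ) - n0) := by
    intro n ⟨k, hk⟩
    by_contra hne
    set m : ℤ := ⌊(n : ℝ) * r⌋ with hm
    set D : ℤ := (m - m0) * ((n1 : ℤ) - n0) - (m1 - m0) * ((n : ℤ) - n0) with hD
    have hD0 : D ≠ 0 := sub_ne_zero.mpr hne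
    have hD0' : (D : ℝ) ≠ 0 := by exact_mod_cast hD0
    have hDr : (D : ℝ) = ((m : ℝ) - m0) * ((n1 : ℝ) - n0) - ((m1 : ℝ) - m0) * ((n : ℝ) - n0) := by
      rw [hD]; push_cast; ring
    have e1 : α * ((m : ℝ) - m0) + β * ((n : ℝ) - n0) = (k : ℝ) - k0 := by linarith
    have e2 : α * ((m1 : ℝ) - m0) + β * ((n1 : ℝ) - n0) = (k1 : ℝ) - k0 := by linarith
    apply hab
    constructor
    · refine ⟨(((k : ℚ) - k0) * ((n1 : ℚ) - n0) - ((k1 : ℚ) - k0) * ((n : ℚ) - n0)) / (D : ℚ), ?_⟩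
      push_cast
      rw [div_eq_iff hD0', hDr]
      linear_combination (-((n1 : ℝ) - n0)) * e1 + ((n : ℝ) - n0) * e2
    · refine ⟨(((m : ℚ) - m0) * ((k1 : ℚ) - k0) - ((m1 : ℚ) - m0) * ((k : ℚ) - k0)) / (D : ℚ), ?_⟩
      push_cast
      rw [div_eq_iff hD0', hDr]
      linear_combination (-((m : ℝ) - m0)) * e2 + ((m1 : ℝ) - m0) * e1
  have hpos : 0 < |(ρ : ℝ) - r| := abs_pos.mpr (sub_ne_zero.mpr hρr)
  obtain ⟨N, hN⟩ := exists_nat_gt ((|(m0 : ℝ) - ρ * n0| + 1) / |(ρ : ℝ) - r|)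
  obtain ⟨n, hn, hnN⟩ := hinf'.exists_gt N
  have h1 := hdet n hn
  have h2 : ((⌊(n : ℝ) * r⌋ : ℝ) - m0) * ((n1 : ℝ) - n0) = ((m1 : ℝ) - m0) * ((n : ℝ) - n0) := by
    exact_mod_cast h1
  have h3 : (⌊(n : ℝ) * r⌋ : ℝ) = m0 + ρ * (n - n0) := by
    have h4 : ((⌊(n : ℝ) * r⌋ : ℝ) - m0 - ρ * (n - n0)) * ((n1 : ℝ) - n0) = 0 := by
      rw [← hρ1] at h2
      linear_combination h2
    rcases mul_eq_zero.mp h4 with h5 | h5
    · linarith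
    · linarith
  have h6 := Int.floor_le ((n : ℝ) * r)
  have h7 := Int.lt_floor_add_one ((n : ℝ) * r)
  rw [h3] at h6 h7
  have h8 : |((ρ : ℝ) - r) * n| ≤ |(m0 : ℝ) - ρ * n0| + 1 := by
    have h9 : ((ρ : ℝ) - r) * n = ((m0 + ρ * (n - n0)) - n * r) - ((m0 : ℝ) - ρ * n0) := by ring
    rw [h9]
    refine (abs_sub _ _).trans ?_
    have h10 : |(m0 : ℝ) + ρ * (n - n0) - n * r| ≤ 1 := by
      rw [abs_le]; constructor <;> linarith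
    linarith
  rw [abs_mul, Nat.abs_cast] at h8
  rw [div_lt_iff₀ hpos] at hN
  have h11 : (N : ℝ) < n := by exact_mod_cast hnN
  nlinarith

end Pool.Agent.Helper66.Bil
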