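import Pool.Agent.Helper66.BilR

set_option autoImplicit false

open Set Filter Topology

namespace Pool.Agent.Helper66.Bil

/-- The parameters of the construction with many reflections. -/
structure Hz (c s T C2 S2 q r : ℝ) : Prop where
  hs : 0 < s
  hc : 0 < c
  hS : S2 * c = s * (1 + C2)
  hS' : s * S2 = c * (1 - C2)
  hC0 : 0 < C2
  hC1 : C2 < 1
  hT : 0 < T
  t4 : S2 * T < C2
  t5 : S2 * T < 1 - C2
  hq : q * (c - s * T) = 1
  hq0 : 0 < q
  hr : r * (c + s * T) = 1
  hr0 : 0 < r

variable {c s T C2 S2 q r : ℝ}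

theorem Hz.S2pos (h : Hz c s T C2 S2 q r) : 0 < S2 := by
  have h1 : 0 < S2 * c := by
    rw [h.hS]; exact mul_pos h.hs (by linarith [h.hC0])
  by_contra hn
  rw [not_lt] at hn
  nlinarith [h.hc]

/-- unfolding maps -/
def ufo (o : Circle) : Bool → ℕ → ℂ → ℂ
  | true, l => fun z => 1 * z + l * ((o : ℂ) - 1)
  | false, l => fun z => o * (starRingEnd ℂ) z + l * ((o : ℂ) - 1)

theorem ufo_succ (o : Circle) (ty : Bool) (l : ℕ) (z : ℂ) :
    ufo o ty (l + 1) z = ufo o ty l z + ((o : ℂ) - 1) := by
  cases ty <;> simp [ufo] <;> ring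

theorem om_w' (H : Hz c s T C2 S2 q r) {o : Circle} (ho : (o : ℂ) = ⟨C2, S2⟩) :
    (o : ℂ) * (starRingEnd ℂ) (pw c s) = pw c s := by
  rw [ho]
  apply Complex.ext
  · simp [pw]
    linear_combination H.hS'
  · simp [pw]
    linear_combination H.hS

theorem refl1' (H : Hz c s T C2 S2 q r) {o : Circle} (ho : (o : ℂ) = ⟨C2, S2⟩) (u : Circle) :
    (para c s H.hs).refl (1 : Fin 4) u = o * u⁻¹ := by
  rw [refl_eq (para c s H.hs) (1 : Fin 4) o u]
  change (o : ℂ) * (starRingEnd ℂ) (pb c s 1 - pa c s 1) = pb c s 1 - pa c s 1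
  have : pb c s 1 - pa c s 1 = pw c s := by simp [pa, pb]
  rw [this]
  exact om_w' H ho

theorem refl3' (H : Hz c s T C2 S2 q r) {o : Circle} (ho : (o : ℂ) = ⟨C2, S2⟩) (u : Circle) :
    (para c s H.hs).refl (3 : Fin 4) u = o * u⁻¹ := by
  rw [refl_eq (para c s H.hs) (3 : Fin 4) o u]
  change (o : ℂ) * (starRingEnd ℂ) (pb c s 3 - pa c s 3) = pb c s 3 - pa c s 3
  have : pb c s 3 - pa c s 3 = pw c s := by simp [pa, pb]
  rw [this]
  exact om_w' H ho

theorem ze_ufo {o : Circle} (ho : (o : ℂ) = ⟨C2, S2⟩) (x T Y : ℝ) :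
    ze (x + (1 - C2 + S2 * T)) T Y + ((o : ℂ) - 1) = ze x T (Y + S2) := by
  rw [ho]
  apply Complex.ext
  · simp [ze]; ring
  · simp [ze]

theorem ze_ufo_mul {o : Circle} (ho : (o : ℂ) = ⟨C2, S2⟩) (x T Y : ℝ) (j : ℕ) :
    ze (x + j * (1 - C2 + S2 * T)) T Y + j * ((o : ℂ) - 1) = ze x T (Y + j * S2) := by
  rw [ho]
  apply Complex.ext
  · simp [ze]; ring
  · simp [ze]

/-- going up -/
theorem upr (H : Hz c s T C2 S2 q r) {o : Circle} (ho : (o : ℂ) = ⟨C2, S2⟩)
    {u : Circle} (hu : Dir u ⟨T, 1⟩) {y : ℂ} {v : Circle} {S : Set ℂ} :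
    ∀ (i : ℕ) (x0 y0 : ℝ) (p : ℂ), p = ⟨x0 + y0 * T, y0⟩ → 0 < sg c s p → sg c s p ≤ 1 →
    0 ≤ y0 → y0 < s → y0 < s * (x0 * q) → C2 < x0 → c - s * T < x0 + i * (1 - C2 + S2 * T) →
    x0 + i * (1 - C2 + S2 * T) < c - s * T + (1 - C2 + S2 * T) →
    Orbit (para c s H.hs) (pA' c s (x0 + i * (1 - C2 + S2 * T) + s * T - c)) u⁻¹ y v S →
    ∃ S', Orbit (para c s H.hs) p u y v S' ∧
      ∀ z ∈ S', z ∈ S ∨ ∃ ty, ∃ l ≤ i, ∃ Y, y0 ≤ Y ∧ Y ≤ s + i * S2 ∧
        ufo o ty l z = ze x0 T Y ∧ (Y = y0 → z = p) := by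
  have hs := H.hs
  have hs' := H.hs.ne'
  have hT := H.hT
  have hS2 := H.S2pos
  have hST : 0 < S2 * T := mul_pos hS2 hT
  have hsT : 0 < s * T := mul_pos hs hT
  have hC0 := H.hC0
  have hC1 := H.hC1
  have hS := H.hS
  have hS' := H.hS'
  have hq := H.hq
  have hq0 := H.hq0
  have t4 := H.t4
  have t5 := H.t5
  have w0 : (o : ℂ).re = C2 := by rw [ho]
  have w1 : (o : ℂ).im = S2 := by rw [ho]
  have n1 : C2 * c + S2 * s = c := by linear_combination hS'
  have n2 : S2 * c - C2 * s = s := by linear_combination hS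
  intro i
  induction i with
  | zero =>
    intro x0 y0 p hp g0 g1 b0 b1 b2 b3 b4 b5 hO
    push_cast at b4 b5 hO
    rw [zero_mul, add_zero] at b4 b5 hO
    have htu : tu s p = y0 / s := by rw [hp]; rfl
    have hy : 0 ≤ y0 / s := div_nonneg b0 hs.le
    have hy1 : y0 / s < 1 := (div_lt_one hs).mpr b1
    refine ⟨_, bounce' (x1 := pA' c s (x0 + s * T - c)) (2 : Fin 4) u⁻¹ ?_ ?_ ?_ ?_ hO, ?_⟩
    · have := hu.smul (show 0 < s - y0 by linarith)
      convert this using 1
      rw [hp]
      apply Complex.ext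
      · simp [pA']; ring
      · simp [pA']
    · exact chord' c s hs rfl htu (sg_pA' c s _ hs) (tu_pA' c s _ hs)
        ⟨by linarith, by linarith, by linarith, by linarith, by linarith, by linarith,
          by linarith, by linarith⟩ ⟨by linarith, by linarith, by linarith, by linarith⟩
    · exact op2 hs (by linarith) (by linarith)
    · exact refl2 hs u
    · rintro z (hz | hz)
      · obtain ⟨Y, h1, h2, h3, h4, h5⟩ := track (f := ufo o true 0) (aff_a 1 _) (X := x0) (T := T)
          (Y := y0) (Y' := s) b1 (by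
            rw [hp]
            apply Complex.ext <;> simp [ufo, ze]) (by
            apply Complex.ext <;> simp [ufo, pA', ze]) hz
        exact Or.inr ⟨true, 0, le_rfl, Y, h1, by push_cast; linarith, h3, h4⟩
      · exact Or.inl hz
  | succ i ih =>
    intro x0 y0 p hp g0 g1 b0 b1 b2 b3 b4 b5 hO
    push_cast at b4 b5 hO
    have hi : (0 : ℝ) ≤ i := Nat.cast_nonneg i
    have he : 0 < 1 - C2 + S2 * T := by linarith
    have hie : 0 ≤ (i : ℝ) * (1 - C2 + S2 * T) := mul_nonneg hi he.le
    have hx0 : x0 < c - s * T := by linarith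
    have htu : tu s p = y0 / s := by rw [hp]; rfl
    have hy : 0 ≤ y0 / s := div_nonneg b0 hs.le
    have hy1 : y0 / s < 1 := (div_lt_one hs).mpr b1
    have hx0p : 0 < x0 := by linarith
    obtain ⟨τ1, hτ1⟩ : ∃ τ : ℝ, τ = x0 * q := ⟨_, rfl⟩
    obtain ⟨τ2, hτ2⟩ : ∃ τ : ℝ, τ = q * (x0 - C2 + S2 * T) := ⟨_, rfl⟩
    have a1 : 0 < τ1 := by rw [hτ1]; positivity
    have a1' : τ1 < 1 := by
      rw [hτ1, ← hq, mul_comm x0 q]
      exact mul_lt_mul_of_pos_left hx0 hq0
    have a2 : 0 < τ2 := by rw [hτ2]; exact mul_pos hq0 (by linarith)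
    have a2' : τ2 < 1 := by
      rw [hτ2, ← hq]
      exact mul_lt_mul_of_pos_left (by linarith) hq0
    have hqs : 0 < q * s := mul_pos hq0 hs
    have e : x0 + ((i : ℝ) + 1) * (1 - C2 + S2 * T) =
      x0 + (1 - C2 + S2 * T) + i * (1 - C2 + S2 * T) := by ring
    rw [e] at b4 b5 hO
    have c2 : s * τ2 < s := by nlinarith
    have c3 : s * τ1 < s * τ2 + S2 := by
      have h1 : (s * τ2 + S2 - s * τ1) = q * s := by
        rw [hτ1, hτ2]
        linear_combination (-S2) * hq + q * hS
      linarith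
    obtain ⟨S1, hO1, hS1⟩ := ih (x0 + (1 - C2 + S2 * T)) (s * τ2) (pB' c s τ2) (by
        apply Complex.ext
        · simp [pB']
          rw [hτ2]
          linear_combination (x0 - C2 + S2 * T) * hq
        · simp [pB']; ring) (by rw [sg_pB' c s _ hs]; exact one_pos)
      (by rw [sg_pB' c s _ hs]) (mul_pos hs a2).le c2 (by
        apply mul_lt_mul_of_pos_left _ hs
        rw [hτ2]
        nlinarith) (by linarith) b4 b5 hO
    refine ⟨_, bounce' (x1 := pB c s τ1) (3 : Fin 4) (o * u⁻¹) ?_ ?_ ?_ ?_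
      (bounce' (x1 := pB' c s τ2) (1 : Fin 4) u ?_ ?_ ?_ ?_ hO1), ?_⟩
    · have := hu.smul (show 0 < s * τ1 - y0 by rw [hτ1]; linarith)
      convert this using 1
      rw [hp]
      apply Complex.ext
      · simp [pB]
        rw [hτ1]
        linear_combination x0 * hq
      · simp [pB]
        ring
    · exact chord' c s hs rfl htu (sg_pB c s _ hs) (tu_pB c s _ hs)
        ⟨by linarith, by linarith, by linarith, by linarith, by linarith, by linarith,
          by linarith, by linarith⟩ ⟨by linarith, by linarith, by linarith, by linarith⟩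
    · exact op3 hs a1 a1'
    · exact refl3' H ho u
    · have := (hu.inv.mul o).smul hqs
      convert this using 1
      apply Complex.ext
      · simp [pB, pB', w0, w1]
        rw [hτ1, hτ2]
        linear_combination - hq + q * T * hS - q * hS'
      · simp [pB, pB', w0, w1]
        rw [hτ1, hτ2]
        ring
    · exact chord' c s hs (sg_pB c s _ hs) (tu_pB c s _ hs) (sg_pB' c s _ hs) (tu_pB' c s _ hs)
        ⟨by linarith, by linarith, by linarith, by linarith, by linarith, by linarith,
          by linarith, by linarith⟩ ⟨by linarith, by linarith, by linarith, by linarith⟩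
    · exact op1 hs a2 a2'
    · rw [refl1' H ho, mul_inv, inv_inv, mul_inv_cancel_left]
    · rintro z (hz | hz | hz)
      · obtain ⟨Y, h1, h2, h3, h4, h5⟩ := track (f := ufo o true 0) (aff_a 1 _) (X := x0) (T := T)
          (Y := y0) (Y' := s * τ1) (by rw [hτ1]; exact b2) (by
            rw [hp]
            apply Complex.ext <;> simp [ufo, ze]) (by
            apply Complex.ext
            · simp [ufo, pB, ze]
              rw [hτ1]
              linear_combination x0 * hq
            · simp [ufo, pB, ze]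
              ring) hz
        refine Or.inr ⟨true, 0, by omega, Y, h1, ?_, h3, h4⟩
        push_cast
        nlinarith
      · obtain ⟨Y, h1, h2, h3, h4, h5⟩ := track (f := ufo o false 0) (aff_b o _) (X := x0)
          (T := T) (Y := s * τ1) (Y' := s * τ2 + S2) c3 (by
            apply Complex.ext
            · simp [ufo, pB, ze, w0, w1]
              rw [hτ1]
              linear_combination x0 * hq + x0 * q * n1
            · simp [ufo, pB, ze, w0, w1]
              linear_combination τ1 * n2) (by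
            apply Complex.ext
            · simp [ufo, pB', ze, w0, w1]
              rw [hτ2]
              linear_combination (x0 - C2 + S2 * T) * hq + q * (x0 - C2 + S2 * T) * n1
            · simp [ufo, pB', ze, w0, w1]
              linear_combination τ2 * n2) hz
        have : s * (x0 * q) = s * τ1 := by rw [hτ1]
        refine Or.inr ⟨false, 0, by omega, Y, by linarith, ?_, h3, fun h => by linarith⟩
        push_cast
        nlinarith
      · rcases hS1 z hz with h | ⟨ty, l, hl, Y, h1, h2, h3, h4⟩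
        · exact Or.inl h
        · refine Or.inr ⟨ty, l + 1, by omega, Y + S2, ?_, ?_, ?_, ?_⟩
          · have : s * (x0 * q) = s * τ1 := by rw [hτ1]
            linarith
          · push_cast; linarith
          · rw [ufo_succ, h3, ze_ufo ho]
          · intro h
            have : s * (x0 * q) = s * τ1 := by rw [hτ1]
            linarith

/-- extension of an orbit by a piece ending at `x'` on the side `[0, 1]` -/
def Ext (c s : ℝ) (hs : 0 < s) (u : Circle) (x' : ℝ) (y : ℂ) (v : Circle) (S : Set ℂ) : Prop :=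
  ∀ p : ℂ, Dir u⁻¹ (pA x' - p) → openSegment ℝ p (pA x') ⊆ interior (para c s hs).P →
    Orbit (para c s hs) p u⁻¹ y v (segment ℝ p (pA x') ∪ S)

/-- going down -/
theorem downr (H : Hz c s T C2 S2 q r) {o : Circle} (ho : (o : ℂ) = ⟨C2, S2⟩)
    {u : Circle} (hu : Dir u ⟨T, 1⟩) {y : ℂ} {v : Circle} {S : Set ℂ} {x' : ℝ}
    (hx0 : 0 < x') (hx1 : x' < 1) (hx2 : S2 * T < x' - C2) (hE : Ext c s H.hs u x' y v S) :
    ∀ (j : ℕ) (y0 : ℝ) (p : ℂ), p = ⟨x' + j * (1 - C2 + S2 * (-T)) - y0 * T, y0⟩ →
    0 ≤ sg c s p → sg c s p < 1 → 0 < y0 → y0 ≤ s →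
    s * (r * (x' + j * (1 - C2 + S2 * (-T)) - 1)) < y0 →
    x' + j * (1 - C2 + S2 * (-T)) < c + s * T + (1 - C2 + S2 * (-T)) →
    ∃ S', Orbit (para c s H.hs) p u⁻¹ y v S' ∧
      ∀ z ∈ S', z ∈ S ∨ ∃ ty, ∃ l ≤ j, ∃ Y, 0 ≤ Y ∧ Y ≤ y0 + j * S2 ∧
        ufo o ty l z = ze x' (-T) Y ∧ (Y = 0 → z = pA x') := by
  have hs := H.hs
  have hs' := H.hs.ne'
  have hT := H.hT
  have hS2 := H.S2pos
  have hST : 0 < S2 * T := mul_pos hS2 hT
  have hsT : 0 < s * T := mul_pos hs hT
  have hC0 := H.hC0
  have hC1 := H.hC1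
  have hS := H.hS
  have hS' := H.hS'
  have hr := H.hr
  have hr0 := H.hr0
  have t4 := H.t4
  have t5 := H.t5
  have w0 : (o : ℂ).re = C2 := by rw [ho]
  have w1 : (o : ℂ).im = S2 := by rw [ho]
  have n1 : C2 * c + S2 * s = c := by linear_combination hS'
  have n2 : S2 * c - C2 * s = s := by linear_combination hS
  intro j
  induction j with
  | zero =>
    intro y0 p hp g0 g1 b0 b1 b2 b3
    push_cast at hp
    rw [zero_mul, add_zero] at hp
    have htu : tu s p = y0 / s := by rw [hp]; rfl
    have hy : 0 < y0 / s := div_pos b0 hs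
    have hy1 : y0 / s ≤ 1 := (div_le_one hs).mpr b1
    refine ⟨_, hE p ?_ ?_, ?_⟩
    · have := hu.inv.smul b0
      convert this using 1
      rw [hp]
      apply Complex.ext
      · simp [pA]
      · simp [pA]
    · exact chord' c s hs rfl htu (sg_pA c s _) (tu_pA s _)
        ⟨by linarith, by linarith, by linarith, by linarith, by linarith, by linarith,
          by linarith, by linarith⟩ ⟨by linarith, by linarith, by linarith, by linarith⟩
    · rintro z (hz | hz)
      · rw [segment_symm] at hz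
        obtain ⟨Y, h1, h2, h3, h4, h5⟩ := track (f := ufo o true 0) (aff_a 1 _) (X := x')
          (T := -T) (Y := 0) (Y' := y0) b0 (by
            apply Complex.ext <;> simp [ufo, pA, ze]) (by
            rw [hp]
            apply Complex.ext
            · simp [ufo, ze]; ring
            · simp [ufo, ze]) hz
        exact Or.inr ⟨true, 0, le_rfl, Y, h1, by push_cast; linarith, h3, h4⟩
      · exact Or.inl hz
  | succ j ih =>
    intro y0 p hp g0 g1 b0 b1 b2 b3
    push_cast at hp b2 b3
    have hj : (0 : ℝ) ≤ j := Nat.cast_nonneg j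
    have he : 0 < 1 - C2 + S2 * (-T) := by linarith
    have hje : 0 ≤ (j : ℝ) * (1 - C2 + S2 * (-T)) := mul_nonneg hj he.le
    obtain ⟨xl, hxl⟩ : ∃ xl : ℝ, xl = x' + j * (1 - C2 + S2 * (-T)) := ⟨_, rfl⟩
    have hxl1 : xl < c + s * T := by rw [hxl]; linarith
    have hxl0 : x' ≤ xl := by rw [hxl]; linarith
    have htu : tu s p = y0 / s := by rw [hp]; rfl
    have hy : 0 < y0 / s := div_pos b0 hs
    have hy1 : y0 / s ≤ 1 := (div_le_one hs).mpr b1
    have hxlp : 0 < xl := by linarith
    obtain ⟨τ5, hτ5⟩ : ∃ τ : ℝ, τ = xl * r := ⟨_, rfl⟩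
    obtain ⟨τ4, hτ4⟩ : ∃ τ : ℝ, τ = r * (xl - C2 - S2 * T) := ⟨_, rfl⟩
    have a5 : 0 < τ5 := by rw [hτ5]; positivity
    have a5' : τ5 < 1 := by
      rw [hτ5, ← hr, mul_comm xl r]
      exact mul_lt_mul_of_pos_left hxl1 hr0
    have a4 : 0 < τ4 := by rw [hτ4]; exact mul_pos hr0 (by linarith)
    have a4' : τ4 < 1 := by
      rw [hτ4, ← hr]
      exact mul_lt_mul_of_pos_left (by linarith) hr0
    have hrs : 0 < r * s := mul_pos hr0 hs
    have c4 : s * τ4 < y0 := by
      have e : s * τ4 = s * (r * (x' + ((j : ℝ) + 1) * (1 - C2 + S2 * (-T)) - 1)) := by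
        rw [hτ4, hxl]; ring
      rw [e]; exact b2
    have c5 : s * τ5 < s * τ4 + S2 := by
      have h1 : (s * τ4 + S2 - s * τ5) = r * s := by
        rw [hτ4, hτ5]
        linear_combination (-S2) * hr + r * hS
      linarith
    obtain ⟨S1, hO1, hS1⟩ := ih (s * τ5) (pB c s τ5) (by
        apply Complex.ext
        · simp [pB]
          rw [hτ5]
          linear_combination xl * hr + hxl
        · simp [pB]; ring) (by rw [sg_pB c s _ hs])
      (by rw [sg_pB c s _ hs]; exact one_pos) (mul_pos hs a5) (by nlinarith) (by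
        apply mul_lt_mul_of_pos_left _ hs
        rw [hτ5, ← hxl]
        nlinarith) (by linarith)
    refine ⟨_, bounce' (x1 := pB' c s τ4) (1 : Fin 4) (o * u) ?_ ?_ ?_ ?_
      (bounce' (x1 := pB c s τ5) (3 : Fin 4) u⁻¹ ?_ ?_ ?_ ?_ hO1), ?_⟩
    · have := hu.inv.smul (show 0 < y0 - s * τ4 by linarith)
      convert this using 1
      rw [hp]
      apply Complex.ext
      · simp [pB']
        rw [hτ4]
        linear_combination (xl - C2 - S2 * T) * hr + hxl
      · simp [pB']
        ring
    · exact chord' c s hs rfl htu (sg_pB' c s _ hs) (tu_pB' c s _ hs)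
        ⟨by linarith, by linarith, by linarith, by linarith, by linarith, by linarith,
          by linarith, by linarith⟩ ⟨by linarith, by linarith, by linarith, by linarith⟩
    · exact op1 hs a4 a4'
    · rw [refl1' H ho, inv_inv]
    · have := (hu.mul o).smul hrs
      convert this using 1
      apply Complex.ext
      · simp [pB, pB', w0, w1]
        rw [hτ4, hτ5]
        linear_combination r * T * hS + r * hS' + hr
      · simp [pB, pB', w0, w1]
        rw [hτ4, hτ5]
        ring
    · exact chord' c s hs (sg_pB' c s _ hs) (tu_pB' c s _ hs) (sg_pB c s _ hs) (tu_pB c s _ hs)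
        ⟨by linarith, by linarith, by linarith, by linarith, by linarith, by linarith,
          by linarith, by linarith⟩ ⟨by linarith, by linarith, by linarith, by linarith⟩
    · exact op3 hs a5 a5'
    · rw [refl3' H ho, mul_inv, mul_inv_cancel_left]
    · rintro z (hz | hz | hz)
      · rw [segment_symm] at hz
        obtain ⟨Y, h1, h2, h3, h4, h5⟩ := track (f := ufo o true 0) (aff_a 1 _)
          (X := x' + ((j + 1 : ℕ) : ℝ) * (1 - C2 + S2 * (-T))) (T := -T)
          (Y := s * τ4) (Y' := y0) c4 (by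
            apply Complex.ext
            · simp [ufo, pB', ze]
              rw [hτ4]
              linear_combination (xl - C2 - S2 * T) * hr + hxl
            · simp [ufo, pB', ze]
              ring) (by
            rw [hp]
            apply Complex.ext
            · simp [ufo, ze]; ring
            · simp [ufo, ze]) hz
        have h6 : ufo o true (j + 1) z = ze x' (-T) (Y + ((j + 1 : ℕ) : ℝ) * S2) := by
          rw [← ze_ufo_mul ho, ← h3]
          simp [ufo]
        have h7 : 0 < s * τ4 := mul_pos hs a4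
        have h8 : 0 ≤ (((j + 1 : ℕ) : ℝ)) * S2 := by positivity
        exact Or.inr ⟨true, j + 1, le_rfl, _, by linarith, by linarith, h6,
          fun h => by linarith⟩
      · rw [segment_symm] at hz
        obtain ⟨Y, h1, h2, h3, h4, h5⟩ := track (f := ufo o false 0) (aff_b o _)
          (X := x' + (j : ℝ) * (1 - C2 + S2 * (-T))) (T := -T)
          (Y := s * τ5) (Y' := s * τ4 + S2) c5 (by
            apply Complex.ext
            · simp [ufo, pB, ze, w0, w1]
              rw [hτ5]
              linear_combination xl * hr + xl * r * n1 + hxl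
            · simp [ufo, pB, ze, w0, w1]
              linear_combination τ5 * n2) (by
            apply Complex.ext
            · simp [ufo, pB', ze, w0, w1]
              rw [hτ4]
              linear_combination (xl - C2 - S2 * T) * hr + r * (xl - C2 - S2 * T) * n1 + hxl
            · simp [ufo, pB', ze, w0, w1]
              linear_combination τ4 * n2) hz
        have h6 : ufo o false j z = ze x' (-T) (Y + (j : ℝ) * S2) := by
          rw [← ze_ufo_mul ho, ← h3]
          simp [ufo]
        have h7 : 0 < s * τ5 := mul_pos hs a5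
        have h8 : 0 ≤ (j : ℝ) * S2 := by positivity
        refine Or.inr ⟨false, j, by omega, _, by linarith, ?_, h6, fun h => by linarith⟩
        push_cast
        linarith
      · rcases hS1 z hz with h | ⟨ty, l, hl, Y, h1, h2, h3, h4⟩
        · exact Or.inl h
        · refine Or.inr ⟨ty, l, by omega, Y, h1, ?_, h3, h4⟩
          push_cast; linarith

end Pool.Agent.Helper66.Bil
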