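import Pool.Agent.Helper66.BilW
import Pool.Agent.Helper66.BilT

set_option autoImplicit false

open Set Filter Topology

namespace Pool.Agent.Helper66.Bil

variable {c s T C2 S2 q r : ℝ}

/-- unfolding maps of a cycle of period `ℓ` -/
def uu (o : Circle) (ℓ : ℝ) : Bool → Bool → ℕ → ℂ → ℂ
  | true, ty, l => fun z => ufo o ty l z
  | false, ty, l => fun z => (starRingEnd ℂ) (ufo o ty l z) + ⟨0, ℓ⟩

theorem Ext.of_orbit (hs : 0 < s) {u : Circle} {x' : ℝ} (h0 : 0 < x') (h1 : x' < 1) {y : ℂ}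
    {v : Circle} {S : Set ℂ} (hO : Orbit (para c s hs) (pA x') u y v S) :
    Ext c s hs u x' y v S := fun _ hd hch =>
  bounce' (0 : Fin 4) u hd hch (op0 hs h0 h1) (by rw [refl0 hs, inv_inv]) hO

theorem Ext.last (hs : 0 < s) {u : Circle} {x' : ℝ} : Ext c s hs u x' (pA x') u⁻¹ ∅ :=
  fun _ hd hch => by
    rw [union_empty]
    exact leg' hd hch

theorem cyc (H : Hz c s T C2 S2 q r) {o : Circle} (ho : (o : ℂ) = ⟨C2, S2⟩)
    {u : Circle} (hu : Dir u ⟨T, 1⟩) {y : ℂ} {v : Circle} {S : Set ℂ} (K : ℕ) {X : ℝ}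
    (h2 : C2 + S2 * T < X) (hA : c - s * T < X + K * (1 - C2 + S2 * T))
    (hC : X + K * (1 - C2 + S2 * T) < c - s * T + (1 - C2 + S2 * (-T)))
    (h1 : X + 2 * (s + K * S2) * T < 1)
    (hE : Ext c s H.hs u (X + 2 * (s + K * S2) * T) y v S) :
    ∃ S', Orbit (para c s H.hs) (pA X) u y v S' ∧
      ∀ z ∈ S', z ∈ S ∨ ∃ up ty, ∃ l ≤ K, ∃ Y, 0 ≤ Y ∧ Y ≤ 2 * (s + K * S2) ∧
        uu o (2 * (s + K * S2)) up ty l z = ze X T Y ∧ (Y = 0 → z = pA X) ∧
        (Y = 2 * (s + K * S2) → z = pA (X + 2 * (s + K * S2) * T)) := by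
  have hs := H.hs
  have hT := H.hT
  have hS2 := H.S2pos
  have hST : 0 < S2 * T := mul_pos hS2 hT
  have hsT : 0 < s * T := mul_pos hs hT
  have hC0 := H.hC0
  have hC1 := H.hC1
  have hr := H.hr
  have hr0 := H.hr0
  have hq0 := H.hq0
  have hK : (0 : ℝ) ≤ K := Nat.cast_nonneg K
  have hKS : 0 ≤ (K : ℝ) * S2 := mul_nonneg hK hS2.le
  have hl : 0 < 2 * (s + K * S2) := by linarith
  have hlT : 0 < 2 * (s + K * S2) * T := mul_pos hl hT
  have hX : 0 < X := by linarith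
  have hw : X + 2 * (s + K * S2) * T + K * (1 - C2 + S2 * (-T)) =
    X + K * (1 - C2 + S2 * T) + 2 * (s * T) := by ring
  obtain ⟨S1, hO1, hS1⟩ := downr H ho hu (x' := X + 2 * (s + K * S2) * T) (by linarith) h1
    (by linarith) hE K s (pA' c s (X + K * (1 - C2 + S2 * T) + s * T - c)) (by
      apply Complex.ext
      · simp [pA']; ring
      · simp [pA']) (by rw [sg_pA' c s _ hs]; linarith) (by rw [sg_pA' c s _ hs]; linarith)
    hs le_rfl (by
      rw [hw]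
      have h3 : r * (X + K * (1 - C2 + S2 * T) + 2 * (s * T) - 1) < r * (c + s * T) :=
        mul_lt_mul_of_pos_left (by linarith) hr0
      rw [hr] at h3
      nlinarith) (by rw [hw]; linarith)
  obtain ⟨S2', hO2, hS2'⟩ := upr H ho hu K X 0 (pA X) (by
      apply Complex.ext <;> simp [pA]) (by rw [sg_pA]; exact hX) (by rw [sg_pA]; linarith)
    le_rfl hs (by positivity) (by linarith) hA (by linarith) hO1
  refine ⟨S2', hO2, fun z hz => ?_⟩
  rcases hS2' z hz with h | ⟨ty, l, hl', Y, k1, k2, k3, k4⟩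
  · rcases hS1 z h with h | ⟨ty, l, hl', Y, k1, k2, k3, k4⟩
    · exact Or.inl h
    · refine Or.inr ⟨false, ty, l, hl', 2 * (s + K * S2) - Y, by linarith, by linarith, ?_,
        fun h => by linarith, fun h => k4 (by linarith)⟩
      simp only [uu]
      rw [k3]
      apply Complex.ext
      · simp [ze]; ring
      · simp [ze]; ring
  · exact Or.inr ⟨true, ty, l, hl', Y, k1, by linarith, k3, k4, fun h => by linarith⟩

theorem manyD (H : Hz c s T C2 S2 q r) {o : Circle} (ho : (o : ℂ) = ⟨C2, S2⟩)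
    {u : Circle} (hu : Dir u ⟨T, 1⟩) {y : ℂ} {v : Circle} {S : Set ℂ} (K : ℕ) :
    ∀ (b : ℕ) (X : ℝ), C2 + S2 * T < X → c - s * T < X + K * (1 - C2 + S2 * T) →
    X + b * (2 * (s + K * S2)) * T + K * (1 - C2 + S2 * T) <
      c - s * T + (1 - C2 + S2 * (-T)) + 2 * (s + K * S2) * T →
    X + b * (2 * (s + K * S2)) * T < 1 →
    Orbit (para c s H.hs) (pA (X + b * (2 * (s + K * S2)) * T)) u y v S →
    ∃ S', Orbit (para c s H.hs) (pA X) u y v S' ∧
      ∀ z ∈ S', z ∈ S ∨ ∃ up ty, ∃ l ≤ K, ∃ k : ℕ, ∃ Y, 0 ≤ Y ∧ Y ≤ b * (2 * (s + K * S2)) ∧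
        uu o (2 * (s + K * S2)) up ty l z + ⟨0, k * (2 * (s + K * S2))⟩ = ze X T Y ∧
        (Y = 0 → z = pA X) := by
  have hs := H.hs
  have hT := H.hT
  have hS2 := H.S2pos
  have hST : 0 < S2 * T := mul_pos hS2 hT
  have hC0 := H.hC0
  have hK : (0 : ℝ) ≤ K := Nat.cast_nonneg K
  have hKS : 0 ≤ (K : ℝ) * S2 := mul_nonneg hK hS2.le
  have hl : 0 < 2 * (s + K * S2) := by linarith
  have hlT : 0 < 2 * (s + K * S2) * T := mul_pos hl hT
  intro b
  induction b with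
  | zero =>
    intro X _ _ _ _ hO
    refine ⟨S, ?_, fun z hz => Or.inl hz⟩
    simpa using hO
  | succ b ih =>
    intro X h2 hA hC h1 hO
    push_cast at hC h1 hO
    have hb : (0 : ℝ) ≤ b := Nat.cast_nonneg b
    have hbl : 0 ≤ (b : ℝ) * (2 * (s + K * S2)) := mul_nonneg hb hl.le
    have hbT : 0 ≤ (b : ℝ) * (2 * (s + K * S2)) * T := mul_nonneg hbl hT.le
    have e : X + ((b : ℝ) + 1) * (2 * (s + K * S2)) * T =
        X + 2 * (s + K * S2) * T + b * (2 * (s + K * S2)) * T := by ring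
    rw [e] at hC h1 hO
    obtain ⟨S1, hO1, hS1⟩ := ih (X + 2 * (s + K * S2) * T) (by linarith) (by linarith) hC h1 hO
    obtain ⟨S2', hO2, hS2'⟩ := cyc H ho hu K h2 hA (by linarith) (by linarith)
      (Ext.of_orbit hs (by linarith) (by linarith) hO1)
    refine ⟨S2', hO2, ?_⟩
    intro z hz
    rcases hS2' z hz with h | ⟨up, ty, l, hl', Y, k1, k2, k3, k4, k5⟩
    · rcases hS1 z h with h | ⟨up, ty, l, hl', k, Y, k1, k2, k3, k4⟩
      · exact Or.inl h
      · refine Or.inr ⟨up, ty, l, hl', k + 1, Y + 2 * (s + K * S2), by linarith, ?_, ?_,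
          fun h => by linarith⟩
        · push_cast; linarith
        · rw [show ze X T (Y + 2 * (s + K * S2)) = ze (X + 2 * (s + K * S2) * T) T Y +
            ⟨0, 2 * (s + K * S2)⟩ by apply Complex.ext <;> simp [ze]; ring, ← k3]
          apply Complex.ext
          · simp
          · simp; ring
    · refine Or.inr ⟨up, ty, l, hl', 0, Y, k1, ?_, ?_, k4⟩
      · push_cast; linarith
      · rw [← k3]
        apply Complex.ext
        · simp
        · simp

theorem manyC (H : Hz c s T C2 S2 q r) {o : Circle} (ho : (o : ℂ) = ⟨C2, S2⟩)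
    {u : Circle} (hu : Dir u ⟨T, 1⟩) (K : ℕ) :
    ∀ (a : ℕ) (X : ℝ), C2 + S2 * T < X → c - s * T < X + K * (1 - C2 + S2 * T) →
    X + (a + 1) * (2 * (s + K * S2)) * T + K * (1 - C2 + S2 * T) <
      c - s * T + (1 - C2 + S2 * (-T)) →
    X + (a + 1) * (2 * (s + K * S2)) * T < 1 →
    ∃ S', Orbit (para c s H.hs) (pA X) u (pA (X + (a + 1) * (2 * (s + K * S2)) * T)) u⁻¹ S' ∧
      ∀ z ∈ S', ∃ up ty, ∃ l ≤ K, ∃ k : ℕ, ∃ Y, 0 ≤ Y ∧ Y ≤ (a + 1) * (2 * (s + K * S2)) ∧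
        uu o (2 * (s + K * S2)) up ty l z + ⟨0, k * (2 * (s + K * S2))⟩ = ze X T Y ∧
        (Y = (a + 1) * (2 * (s + K * S2)) →
          z = pA (X + (a + 1) * (2 * (s + K * S2)) * T)) := by
  have hs := H.hs
  have hT := H.hT
  have hS2 := H.S2pos
  have hST : 0 < S2 * T := mul_pos hS2 hT
  have hC0 := H.hC0
  have hK : (0 : ℝ) ≤ K := Nat.cast_nonneg K
  have hKS : 0 ≤ (K : ℝ) * S2 := mul_nonneg hK hS2.le
  have hl : 0 < 2 * (s + K * S2) := by linarith
  have hlT : 0 < 2 * (s + K * S2) * T := mul_pos hl hT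
  intro a
  induction a with
  | zero =>
    intro X h2 hA hC h1
    have e : X + (((0 : ℕ) : ℝ) + 1) * (2 * (s + K * S2)) * T = X + 2 * (s + K * S2) * T := by
      push_cast; ring
    rw [e] at hC h1
    rw [e]
    obtain ⟨S2', hO2, hS2'⟩ := cyc H ho hu K h2 hA (by linarith) h1 (Ext.last hs)
    refine ⟨S2', hO2, fun z hz => ?_⟩
    rcases hS2' z hz with h | ⟨up, ty, l, hl', Y, k1, k2, k3, k4, k5⟩
    · exact absurd h (by simp)
    · refine ⟨up, ty, l, hl', 0, Y, k1, by push_cast; linarith, ?_, ?_⟩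
      · rw [← k3]
        apply Complex.ext
        · simp
        · simp
      · intro h
        apply k5
        push_cast at h; linarith
  | succ a ih =>
    intro X h2 hA hC h1
    push_cast at hC h1 ⊢
    have ha : (0 : ℝ) ≤ a := Nat.cast_nonneg a
    have hal : 0 ≤ (a : ℝ) * (2 * (s + K * S2)) := mul_nonneg ha hl.le
    have haT : 0 ≤ (a : ℝ) * (2 * (s + K * S2)) * T := mul_nonneg hal hT.le
    have e : X + ((a : ℝ) + 1 + 1) * (2 * (s + K * S2)) * T =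
        X + 2 * (s + K * S2) * T + (a + 1) * (2 * (s + K * S2)) * T := by ring
    rw [e] at hC h1 ⊢
    obtain ⟨S1, hO1, hS1⟩ := ih (X + 2 * (s + K * S2) * T) (by linarith) (by linarith) hC h1
    obtain ⟨S2', hO2, hS2'⟩ := cyc H ho hu K h2 hA (by linarith) (by linarith)
      (Ext.of_orbit hs (by linarith) (by linarith) hO1)
    refine ⟨S2', hO2, fun z hz => ?_⟩
    rcases hS2' z hz with h | ⟨up, ty, l, hl', Y, k1, k2, k3, k4, k5⟩
    · obtain ⟨up, ty, l, hl', k, Y, k1, k2, k3, k4⟩ := hS1 z h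
      refine ⟨up, ty, l, hl', k + 1, Y + 2 * (s + K * S2), by linarith, by linarith, ?_, ?_⟩
      · rw [show ze X T (Y + 2 * (s + K * S2)) = ze (X + 2 * (s + K * S2) * T) T Y +
            ⟨0, 2 * (s + K * S2)⟩ by apply Complex.ext <;> simp [ze]; ring, ← k3]
        apply Complex.ext
        · simp
        · simp; ring
      · intro h
        apply k4
        linarith
    · refine ⟨up, ty, l, hl', 0, Y, k1, by linarith, ?_, fun h => by linarith⟩
      rw [← k3]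
      apply Complex.ext
      · simp
      · simp

/-- the whole orbit -/
theorem whole' (H : Hz c s T C2 S2 q r) {o : Circle} (ho : (o : ℂ) = ⟨C2, S2⟩)
    {u : Circle} (hu : Dir u ⟨T, 1⟩) (k b a : ℕ) (hb : 0 < b) {κ ξ l0 l1 : ℝ}
    (hξ : ξ = c - k * (1 - C2)) (hl0 : l0 = 2 * (s + k * S2))
    (hl1 : l1 = 2 * (s + (k + 1) * S2)) (hκ : 0 < κ)
    (g1 : C2 + S2 * T < ξ - κ) (g2 : ξ + κ < 1) (g3 : κ + (s + (k + 1) * S2) * T < 1 - C2)
    (hV : (b * l1 + (a + 1) * l0) * T = 2 * κ)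
    (w1 : b * l1 * T < κ + (s + k * S2) * T) (w2 : κ - (s + k * S2) * T < b * l1 * T) :
    ∃ S, Orbit (para c s H.hs) (pA (ξ - κ)) u (pA (ξ + κ)) u⁻¹ S ∧
      ∀ z ∈ S, z = pA (ξ - κ) ∨ z = pA (ξ + κ) ∨
        (∃ up ty, ∃ l ≤ k + 1, ∃ m : ℕ, ∃ Y, 0 < Y ∧ Y < b * l1 + (a + 1) * l0 ∧
          uu o l1 up ty l z + ⟨0, m * l1⟩ = ze (ξ - κ) T Y) ∨
        (∃ up ty, ∃ l ≤ k + 1, ∃ m : ℕ, ∃ Y, 0 < Y ∧ Y < b * l1 + (a + 1) * l0 ∧
          uu o l0 up ty l z + ⟨0, b * l1 + m * l0⟩ = ze (ξ - κ) T Y) := by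
  have hs := H.hs
  have hT := H.hT
  have hS2 := H.S2pos
  have hST : 0 < S2 * T := mul_pos hS2 hT
  have hsT : 0 < s * T := mul_pos hs hT
  have hC0 := H.hC0
  have hk : (0 : ℝ) ≤ k := Nat.cast_nonneg k
  have hkS : 0 ≤ (k : ℝ) * S2 := mul_nonneg hk hS2.le
  have hkST : 0 ≤ (k : ℝ) * S2 * T := mul_nonneg hkS hT.le
  have hl0p : 0 < l0 := by rw [hl0]; linarith
  have hl1p : 0 < l1 := by rw [hl1]; linarith
  have hb' : (0 : ℝ) < b := by exact_mod_cast hb
  have ha : (0 : ℝ) ≤ a := Nat.cast_nonneg a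
  have hbl : 0 < (b : ℝ) * l1 := mul_pos hb' hl1p
  have hal : 0 < ((a : ℝ) + 1) * l0 := mul_pos (by linarith) hl0p
  have haT : 0 < ((a : ℝ) + 1) * l0 * T := mul_pos hal hT
  have hblT : 0 < (b : ℝ) * l1 * T := mul_pos hbl hT
  have e : ξ - κ + b * l1 * T + (a + 1) * l0 * T = ξ + κ := by
    linear_combination hV
  have e1 : l1 = 2 * (s + ((k + 1 : ℕ) : ℝ) * S2) := by rw [hl1]; push_cast; ring
  have hC := manyC H ho hu k a (ξ - κ + b * l1 * T) (by linarith)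
    (by rw [hξ]; linarith) (by rw [← hl0, e, hξ]; linarith) (by rw [← hl0, e]; linarith)
  rw [← hl0, e] at hC
  obtain ⟨S, hO, hS⟩ := hC
  have hD := manyD H ho hu (y := pA (ξ + κ)) (v := u⁻¹) (S := S) (k + 1) b (ξ - κ) g1
    (by push_cast; rw [hξ]; linarith)
    (by rw [← e1]; push_cast; rw [hξ, hl1]; rw [hl1] at w1; linarith)
    (by rw [← e1]; linarith) (by rw [← e1]; exact hO)
  rw [← e1] at hD
  obtain ⟨S', hO', hS'⟩ := hD
  refine ⟨S', hO', fun z hz => ?_⟩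
  rcases hS' z hz with h | ⟨up, ty, l, hl', m, Y, k1, k2, k3, k4⟩
  · obtain ⟨up, ty, l, hl', m, Y, k1, k2, k3, k4⟩ := hS z h
    rcases k2.eq_or_lt with h5 | h5
    · exact Or.inr (Or.inl (k4 h5))
    · refine Or.inr (Or.inr (Or.inr ⟨up, ty, l, by omega, m, Y + b * l1, by linarith,
        by linarith, ?_⟩))
      rw [show ze (ξ - κ) T (Y + b * l1) = ze (ξ - κ + b * l1 * T) T Y + ⟨0, b * l1⟩ by
        apply Complex.ext <;> simp [ze]; ring, ← k3]
      apply Complex.ext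
      · simp
      · simp; ring
  · rcases k1.eq_or_lt with h5 | h5
    · exact Or.inl (k4 h5.symm)
    · exact Or.inr (Or.inr (Or.inl ⟨up, ty, l, hl', m, Y, h5, by linarith, k3⟩))

end Pool.Agent.Helper66.Bil
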