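import Pool.Agent.Helper66.BilX

set_option autoImplicit false

open Set Filter Topology

namespace Pool.Agent.Helper66.Bil

theorem exists_circle_Dir {z : ℂ} (hz : z ≠ 0) : ∃ u : Circle, Dir u z := by
  have h : ‖z‖ ≠ 0 := norm_ne_zero_iff.mpr hz
  refine ⟨⟨z / (‖z‖ : ℂ), mem_sphere_zero_iff_norm.mpr (by
    rw [norm_div, Complex.norm_real, norm_norm]; field_simp)⟩, ‖z‖, norm_pos_iff.mpr hz, ?_⟩
  change (‖z‖ : ℂ) * (z / (‖z‖ : ℂ)) = z
  have h' : (‖z‖ : ℂ) ≠ 0 := by exact_mod_cast h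
  field_simp

theorem para_insecure_aux {c s C2 S2 : ℝ} (hs : 0 < s) (hsc : s < c)
    (hC2 : C2 = (c ^ 2 - s ^ 2) / (c ^ 2 + s ^ 2)) (hS2 : S2 = 2 * c * s / (c ^ 2 + s ^ 2))
    (hirr : Irrational (c / (c ^ 2 + s ^ 2))) (k : ℕ) {κ ξ : ℝ} (hξ : ξ = c - k * (1 - C2))
    (hk : 0 < κ) (hk1 : κ < 1 - C2) (hk2 : C2 < ξ - κ) (hk3 : ξ + κ < 1) :
    ¬ SecurePair (para c s hs) (pA (ξ - κ)) (pA (ξ + κ)) := by
  rintro ⟨Z, hZ, hall⟩
  have hc0 : 0 < c := hs.trans hsc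
  have hK : 0 < c ^ 2 + s ^ 2 := by positivity
  have hS2pos : 0 < S2 := by rw [hS2]; positivity
  have hC2pos : 0 < C2 := by
    rw [hC2]; apply div_pos _ hK; nlinarith
  have hC2lt : C2 < 1 := by linarith
  have hk0 : (0 : ℝ) ≤ k := Nat.cast_nonneg k
  have hkS : 0 ≤ (k : ℝ) * S2 := mul_nonneg hk0 hS2pos.le
  have hkC : 0 ≤ (k : ℝ) * (1 - C2) := mul_nonneg hk0 (by linarith)
  obtain ⟨l0, hl0⟩ : ∃ l0 : ℝ, l0 = 2 * (s + k * S2) := ⟨_, rfl⟩
  obtain ⟨l1, hl1⟩ : ∃ l1 : ℝ, l1 = 2 * (s + (k + 1) * S2) := ⟨_, rfl⟩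
  have hl0p : 0 < l0 := by rw [hl0]; linarith
  have hl1p : 0 < l1 := by rw [hl1]; linarith
  have hl01 : l1 = l0 + 2 * S2 := by rw [hl1, hl0]; ring
  obtain ⟨o, ho⟩ : ∃ o : Circle, (o : ℂ) = ⟨C2, S2⟩ := by
    refine ⟨⟨⟨C2, S2⟩, mem_sphere_zero_iff_norm.mpr ?_⟩, rfl⟩
    have h1 : ‖(⟨C2, S2⟩ : ℂ)‖ ^ 2 = 1 := by
      rw [Complex.sq_norm, Complex.normSq_mk, hC2, hS2]
      field_simp
      ring
    have h2 := norm_nonneg (⟨C2, S2⟩ : ℂ)
    nlinarith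
  -- the ratio of the periods
  obtain ⟨ρ, hρ⟩ : ∃ ρ : ℝ, ρ = l1 / l0 := ⟨_, rfl⟩
  have hρ1 : ρ * l0 = l1 := by rw [hρ]; field_simp
  have hρpos : 1 < ρ := by
    rw [hρ, lt_div_iff₀ hl0p]; linarith
  have hirr' : Irrational ρ := by
    rintro ⟨x, hx⟩
    apply hirr
    obtain ⟨γ, hγ⟩ : ∃ γ : ℝ, γ = c / (c ^ 2 + s ^ 2) := ⟨_, rfl⟩
    have hSγ : S2 = 2 * γ * s := by rw [hS2, hγ]; field_simp
    have h1 : ((x : ℝ) - 1) * l0 = 2 * S2 := by rw [hx]; linarith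
    rw [hl0, hSγ] at h1
    have h2 : γ * (2 - 2 * k * ((x : ℝ) - 1)) = (x : ℝ) - 1 := by
      have h3 : (2 * s) * (γ * (2 - 2 * k * ((x : ℝ) - 1))) = (2 * s) * ((x : ℝ) - 1) := by
        linear_combination -h1
      exact mul_left_cancel₀ (by positivity) h3
    have h4 : (2 - 2 * (k : ℝ) * ((x : ℝ) - 1)) ≠ 0 := by
      intro h0
      rw [h0, mul_zero] at h2
      rw [← h2] at h0
      simp at h0
    refine ⟨(x - 1) / (2 - 2 * k * (x - 1)), ?_⟩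
    push_cast
    rw [div_eq_iff h4, ← hγ]
    exact h2.symm
  -- the finitely many bad numbers
  obtain ⟨t, ht⟩ : ∃ t : ℂ → ℝ, t = fun z => (z.re - (ξ - κ)) / (2 * κ) := ⟨_, rfl⟩
  obtain ⟨B1, hB1⟩ : ∃ B1 : ℂ → Set ℕ, B1 = fun w => {n : ℕ | 0 < t w ∧
      ∃ m : ℤ, (t w / ρ) * ⌊n * ρ⌋ + t w * n - w.im / l1 = m} := ⟨_, rfl⟩
  obtain ⟨B2, hB2⟩ : ∃ B2 : ℂ → Set ℕ, B2 = fun w => {n : ℕ | t w < 1 ∧
      ∃ m : ℤ, t w * ⌊n * ρ⌋ + ((t w - 1) * ρ) * n - w.im / l0 = m} := ⟨_, rfl⟩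
  have hfin1 : ∀ w : ℂ, (B1 w).Finite := by
    intro w
    rw [hB1]
    by_cases h0 : 0 < t w
    · refine (fin_bad hirr' ?_).subset fun n hn => hn.2
      rintro ⟨⟨a, ha⟩, ⟨b, hb⟩⟩
      apply hirr'
      refine ⟨b / a, ?_⟩
      push_cast
      rw [ha, hb]
      have : ρ ≠ 0 := by linarith
      have := h0.ne'
      field_simp
    · convert Set.finite_empty
      ext n
      simp [h0]
  have hfin2 : ∀ w : ℂ, (B2 w).Finite := by
    intro w
    rw [hB2]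
    by_cases h0 : t w < 1
    · refine (fin_bad hirr' ?_).subset fun n hn => hn.2
      rintro ⟨⟨a, ha⟩, ⟨b, hb⟩⟩
      apply hirr'
      refine ⟨b / (a - 1), ?_⟩
      push_cast
      rw [ha, hb]
      have : t w - 1 ≠ 0 := by linarith
      field_simp
    · convert Set.finite_empty
      ext n
      simp [h0]
  have hfin : (⋃ z ∈ Z, ⋃ up : Bool, ⋃ ty : Bool, ⋃ l ∈ Finset.range (k + 2),
      (B1 (uu o l1 up ty l z) ∪ B2 (uu o l0 up ty l z))).Finite :=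
    Z.finite_toSet.biUnion fun z _ => Set.finite_iUnion fun up => Set.finite_iUnion fun ty =>
      (Finset.range (k + 2)).finite_toSet.biUnion fun l _ => (hfin1 _).union (hfin2 _)
  obtain ⟨M, hM⟩ := hfin.bddAbove
  -- a large number
  obtain ⟨δ, hδ⟩ : ∃ δ : ℝ, δ = min C2 (min (1 - C2 - κ) (ξ - κ - C2)) := ⟨_, rfl⟩
  have hδ0 : 0 < δ := by
    rw [hδ]
    exact lt_min hC2pos (lt_min (by linarith) (by linarith))
  have hδ1 : δ ≤ C2 := by rw [hδ]; exact min_le_left _ _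
  have hδ2 : δ ≤ 1 - C2 - κ := by
    rw [hδ]; exact (min_le_right _ _).trans (min_le_left _ _)
  have hδ3 : δ ≤ ξ - κ - C2 := by
    rw [hδ]; exact (min_le_right _ _).trans (min_le_right _ _)
  obtain ⟨N, hN⟩ := exists_nat_gt (κ / δ)
  obtain ⟨n, hn⟩ : ∃ n : ℕ, n = max (M + 1) (N + 1) := ⟨_, rfl⟩
  have hnM : M < n := by rw [hn]; exact lt_of_lt_of_le (Nat.lt_succ_self M) (le_max_left _ _)
  have hnN : N < n := by rw [hn]; exact lt_of_lt_of_le (Nat.lt_succ_self N) (le_max_right _ _)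
  have hn0 : 0 < n := by omega
  have hn0' : (0 : ℝ) < n := by exact_mod_cast hn0
  have hn1' : (1 : ℝ) ≤ n := by exact_mod_cast hn0
  have hnr : 1 ≤ (n : ℝ) * ρ := by nlinarith
  obtain ⟨a, ha⟩ : ∃ a : ℕ, ⌊(n : ℝ) * ρ⌋ = (a : ℤ) + 1 := by
    have h1 : 1 ≤ ⌊(n : ℝ) * ρ⌋ := by
      rw [Int.le_floor]; exact_mod_cast hnr
    refine ⟨(⌊(n : ℝ) * ρ⌋ - 1).toNat, ?_⟩
    rw [Int.toNat_of_nonneg (by omega)]; ring
  have hfl : (a : ℝ) + 1 ≤ n * ρ := by
    have := Int.floor_le ((n : ℝ) * ρ)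
    rw [ha] at this; push_cast at this; exact this
  have hfl' : (n : ℝ) * ρ < a + 1 + 1 := by
    have := Int.lt_floor_add_one ((n : ℝ) * ρ)
    rw [ha] at this; push_cast at this; exact this
  have ha0 : (0 : ℝ) ≤ a := Nat.cast_nonneg a
  obtain ⟨V, hV⟩ : ∃ V : ℝ, V = n * l1 + (a + 1) * l0 := ⟨_, rfl⟩
  have hVn : n * l1 ≤ V := by
    rw [hV]
    have : 0 ≤ ((a : ℝ) + 1) * l0 := by positivity
    linarith
  have hVpos : 0 < V := lt_of_lt_of_le (mul_pos hn0' hl1p) hVn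
  obtain ⟨T, hT⟩ : ∃ T : ℝ, T = 2 * κ / V := ⟨_, rfl⟩
  have hVT : V * T = 2 * κ := by rw [hT]; field_simp
  have hTpos : 0 < T := by rw [hT]; positivity
  have hsmall : (s + (k + 1) * S2) * T < δ := by
    rw [div_lt_iff₀ hδ0] at hN
    have h1 : (N : ℝ) < n := by exact_mod_cast hnN
    have h2 : n * l1 * T ≤ 2 * κ := by
      rw [← hVT]; exact mul_le_mul_of_nonneg_right hVn hTpos.le
    have h3 : (N : ℝ) * δ ≤ n * δ := mul_le_mul_of_nonneg_right h1.le hδ0.le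
    rw [hl1] at h2
    have h4 : n * ((s + (k + 1) * S2) * T) < n * δ := by linarith
    exact lt_of_mul_lt_mul_left h4 hn0'.le
  have hST : 0 < S2 * T := mul_pos hS2pos hTpos
  have hsT : 0 < s * T := mul_pos hs hTpos
  have hkST : 0 ≤ (k : ℝ) * S2 * T := mul_nonneg hkS hTpos.le
  have hDm : 0 < c - s * T := by linarith
  have hDp : 0 < c + s * T := by linarith
  have H : Hz c s T C2 S2 (1 / (c - s * T)) (1 / (c + s * T)) := by
    refine ⟨hs, hc0, ?_, ?_, hC2pos, hC2lt, hTpos, by linarith, by linarith, ?_, by positivity,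
      ?_, by positivity⟩
    · rw [hC2, hS2]; field_simp; ring
    · rw [hC2, hS2]; field_simp; ring
    · field_simp
    · field_simp
  obtain ⟨u, hu⟩ : ∃ u : Circle, Dir u ⟨T, 1⟩ := exists_circle_Dir (by
    intro h0
    have := congrArg Complex.im h0
    simp at this)
  have e : (n * l1 + (a + 1) * l0) * T = 2 * κ := by rw [← hV]; exact hVT
  have w1 : n * l1 * T < κ + (s + k * S2) * T := by
    have : (n * l1 - (a + 1) * l0) * T < l0 * T := by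
      apply mul_lt_mul_of_pos_right _ hTpos
      rw [← hρ1]
      nlinarith
    rw [hl0] at this e
    linarith
  have w2 : κ - (s + k * S2) * T < n * l1 * T := by
    have : 0 ≤ (n * l1 - (a + 1) * l0) * T := by
      apply mul_nonneg _ hTpos.le
      rw [← hρ1]
      nlinarith
    linarith
  obtain ⟨S, hO, hS⟩ := whole' H ho hu k n a hn0 hξ hl0 hl1 hk (by linarith) hk3 (by linarith)
    e w1 w2
  obtain ⟨z, hz, hzS⟩ := hall _ _ S hO
  have hnot : n ∉ (⋃ z ∈ Z, ⋃ up : Bool, ⋃ ty : Bool, ⋃ l ∈ Finset.range (k + 2),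
      (B1 (uu o l1 up ty l z) ∪ B2 (uu o l0 up ty l z))) := by
    intro hm
    have := hM hm
    omega
  rcases hS z hzS with h1 | h1 | ⟨up, ty, l, hl, m, Y, h1, h2, h3⟩ | ⟨up, ty, l, hl, m, Y, h1, h2, h3⟩
  · exact (hZ z hz).2.1 h1
  · exact (hZ z hz).2.2 h1
  · rw [← hV] at h2
    have hre := congrArg Complex.re h3
    have him := congrArg Complex.im h3
    simp only [ze, Complex.add_re, Complex.add_im, add_zero] at hre him
    have htY : t (uu o l1 up ty l z) * V = Y := by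
      rw [ht]
      beta_reduce
      rw [hre, ← hVT]
      field_simp
      ring
    apply hnot
    simp only [mem_iUnion]
    refine ⟨z, hz, up, ty, l, Finset.mem_range.mpr (by omega), Or.inl ?_⟩
    rw [hB1]
    refine ⟨?_, m, ?_⟩
    · by_contra hn'
      rw [not_lt] at hn'
      nlinarith
    · rw [ha, hρ]
      push_cast
      field_simp
      rw [hV] at htY
      linarith
  · rw [← hV] at h2
    have hre := congrArg Complex.re h3
    have him := congrArg Complex.im h3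
    simp only [ze, Complex.add_re, Complex.add_im, add_zero] at hre him
    have htY : t (uu o l0 up ty l z) * V = Y := by
      rw [ht]
      beta_reduce
      rw [hre, ← hVT]
      field_simp
      ring
    apply hnot
    simp only [mem_iUnion]
    refine ⟨z, hz, up, ty, l, Finset.mem_range.mpr (by omega), Or.inr ?_⟩
    rw [hB2]
    refine ⟨?_, m, ?_⟩
    · by_contra hn'
      rw [not_lt] at hn'
      nlinarith
    · rw [ha, hρ]
      push_cast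
      field_simp
      rw [hV] at htY
      linarith

/-- the general theorem on parallelograms -/
theorem para_insecure' {c s : ℝ} (hs : 0 < s) (hsc : s < c)
    (h : c ^ 2 - s ^ 2 < c * (c ^ 2 + s ^ 2)) (hirr : Irrational (c / (c ^ 2 + s ^ 2)))
    (hgen : ∀ k : ℕ, c - 1 ≠ k * (2 * s ^ 2 / (c ^ 2 + s ^ 2))) :
    ∃ ξ : ℝ, ∃ δ > 0, 0 < ξ - δ ∧ ξ + δ < 1 ∧ ∀ κ, 0 < κ → κ < δ →
      ¬ SecurePair (para c s hs) (pA (ξ - κ)) (pA (ξ + κ)) := by
  have hc0 : 0 < c := hs.trans hsc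
  have hK : 0 < c ^ 2 + s ^ 2 := by positivity
  obtain ⟨C2, hC2⟩ : ∃ C2 : ℝ, C2 = (c ^ 2 - s ^ 2) / (c ^ 2 + s ^ 2) := ⟨_, rfl⟩
  have hD : 1 - C2 = 2 * s ^ 2 / (c ^ 2 + s ^ 2) := by rw [hC2]; field_simp; ring
  have hDpos : 0 < 1 - C2 := by rw [hD]; positivity
  have hC2pos : 0 < C2 := by
    rw [hC2]; apply div_pos _ hK; nlinarith
  have hC2c : C2 < c := by
    rw [hC2, div_lt_iff₀ hK]; exact h
  have hex : ∃ k : ℕ, c - k * (1 - C2) < 1 := by
    obtain ⟨k, hk⟩ := exists_nat_gt ((c - 1) / (1 - C2))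
    refine ⟨k, ?_⟩
    rw [div_lt_iff₀ hDpos] at hk
    linarith
  classical
  obtain ⟨k, hk, hmin⟩ : ∃ k : ℕ, c - k * (1 - C2) < 1 ∧ ∀ m < k, ¬ (c - m * (1 - C2) < 1) :=
    ⟨Nat.find hex, Nat.find_spec hex, fun m hm => Nat.find_min hex hm⟩
  have hlow : C2 < c - k * (1 - C2) := by
    rcases k with _ | k
    · simpa using hC2c
    · have h1 := hmin k (Nat.lt_succ_self k)
      have h2 := hgen k
      rw [← hD] at h2
      rw [not_lt] at h1
      have h3 : 1 ≠ c - k * (1 - C2) := fun h' => h2 (by linarith)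
      have h4 := lt_of_le_of_ne h1 h3
      push_cast
      linarith
  obtain ⟨ξ, hξ⟩ : ∃ ξ : ℝ, ξ = c - k * (1 - C2) := ⟨_, rfl⟩
  rw [← hξ] at hk hlow
  obtain ⟨δ, hδ⟩ : ∃ δ : ℝ, δ = min (1 - C2) (min (ξ - C2) (1 - ξ)) / 2 := ⟨_, rfl⟩
  have h1 : 0 < min (1 - C2) (min (ξ - C2) (1 - ξ)) :=
    lt_min hDpos (lt_min (by linarith) (by linarith))
  have h2 : min (1 - C2) (min (ξ - C2) (1 - ξ)) ≤ 1 - C2 := min_le_left _ _
  have h3 : min (1 - C2) (min (ξ - C2) (1 - ξ)) ≤ ξ - C2 :=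
    (min_le_right _ _).trans (min_le_left _ _)
  have h4 : min (1 - C2) (min (ξ - C2) (1 - ξ)) ≤ 1 - ξ :=
    (min_le_right _ _).trans (min_le_right _ _)
  refine ⟨ξ, δ, by rw [hδ]; linarith, by rw [hδ]; linarith, by rw [hδ]; linarith, ?_⟩
  intro κ hκ hκδ
  rw [hδ] at hκδ
  exact para_insecure_aux hs hsc hC2 rfl hirr k hξ hκ (by linarith) (by linarith) (by linarith)

end Pool.Agent.Helper66.Bil
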