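import Mathlib

set_option autoImplicit false
open MeasureTheory Set Filter Topology
open scoped ENNReal NNReal

namespace Pool.Agent.Helper66.Cant

noncomputable section

/-- the Cantor type density, level n -/
def sgm : ℕ → ℝ → ℝ≥0∞
  | 0 => (Ico (0:ℝ) 1).indicator (fun _ => 1)
  | (n + 1) => fun x => sgm n x + sgm n (x - 2 * 3 ^ n)

/-- middle piece -/
def mid (n : ℕ) (x : ℝ) : ℝ≥0∞ :=
  (Ico (4 / 3 * 3 ^ n : ℝ) (5 / 3 * 3 ^ n)).indicator (fun _ => ENNReal.ofReal ((3 / 2) ^ n)) x

/-- the second weight, level n -/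
def uu : ℕ → ℝ → ℝ≥0∞
  | 0 => fun _ => 0
  | (n + 1) => fun x => uu n x + uu n (x - 2 * 3 ^ n) + mid n x

lemma mid_meas (n : ℕ) : Measurable (mid n) := measurable_const.indicator measurableSet_Ico

lemma sgm_meas (n : ℕ) : Measurable (sgm n) := by
  induction n with
  | zero => exact measurable_const.indicator measurableSet_Ico
  | succ n ih =>
    have : Measurable (fun x : ℝ => x - 2 * 3 ^ n) := by fun_prop
    exact ih.add (ih.comp this)

lemma uu_meas (n : ℕ) : Measurable (uu n) := by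
  induction n with
  | zero => exact measurable_const
  | succ n ih =>
    have : Measurable (fun x : ℝ => x - 2 * 3 ^ n) := by fun_prop
    exact (ih.add (ih.comp this)).add (mid_meas n)

lemma sgm_supp (n : ℕ) {x : ℝ} (hx : x ∉ Ico (0:ℝ) (3 ^ n)) : sgm n x = 0 := by
  induction n generalizing x with
  | zero =>
    simp only [sgm]
    rw [Set.indicator_of_notMem]
    simpa using hx
  | succ n ih =>
    simp only [sgm]
    have h3 : (0:ℝ) < 3 ^ n := by positivity
    have h4 : (3:ℝ) ^ (n + 1) = 3 * 3 ^ n := by ring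
    rw [h4] at hx
    rw [mem_Ico, not_and_or, not_le, not_lt] at hx
    rw [ih, ih, add_zero]
    · rw [mem_Ico, not_and_or, not_le, not_lt]
      rcases hx with h | h
      · left; linarith
      · right; linarith
    · rw [mem_Ico, not_and_or, not_le, not_lt]
      rcases hx with h | h
      · left; linarith
      · right; linarith

lemma mid_supp (n : ℕ) {x : ℝ} (hx : x ∉ Ico (4 / 3 * 3 ^ n : ℝ) (5 / 3 * 3 ^ n)) : mid n x = 0 :=
  Set.indicator_of_notMem hx _

lemma uu_supp (n : ℕ) {x : ℝ} (hx : x ∉ Ico (0:ℝ) (3 ^ n)) : uu n x = 0 := by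
  induction n generalizing x with
  | zero => rfl
  | succ n ih =>
    simp only [uu]
    have h3 : (0:ℝ) < 3 ^ n := by positivity
    have h4 : (3:ℝ) ^ (n + 1) = 3 * 3 ^ n := by ring
    rw [h4] at hx
    rw [mem_Ico, not_and_or, not_le, not_lt] at hx
    rw [ih, ih, mid_supp, add_zero, add_zero]
    · rw [mem_Ico, not_and_or, not_le, not_lt]
      rcases hx with h | h
      · left; linarith
      · right; linarith
    · rw [mem_Ico, not_and_or, not_le, not_lt]
      rcases hx with h | h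
      · left; linarith
      · right; linarith
    · rw [mem_Ico, not_and_or, not_le, not_lt]
      rcases hx with h | h
      · left; linarith
      · right; linarith

lemma sgm_mass (n : ℕ) : ∫⁻ x, sgm n x = 2 ^ n := by
  induction n with
  | zero =>
    simp only [sgm]
    rw [lintegral_indicator measurableSet_Ico]
    simp
  | succ n ih =>
    simp only [sgm]
    rw [lintegral_add_left (sgm_meas n), lintegral_sub_right_eq_self (fun x => sgm n x), ih]
    ring

lemma mid_mass (n : ℕ) : ∫⁻ x, mid n x = ENNReal.ofReal (1 / 3 * (9 / 2) ^ n) := by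
  unfold mid
  rw [lintegral_indicator measurableSet_Ico]
  simp only [lintegral_const, MeasurableSet.univ, Measure.restrict_apply, univ_inter, Real.volume_Ico]
  rw [← ENNReal.ofReal_mul (by positivity)]
  congr 1
  have : (9 / 2 : ℝ) ^ n = (3 / 2) ^ n * 3 ^ n := by rw [← mul_pow]; norm_num
  rw [this]; ring

lemma uu_mass (n : ℕ) : ∫⁻ x, uu n x ≤ ENNReal.ofReal (2 / 15 * (9 / 2) ^ n) := by
  induction n with
  | zero => simp [uu]
  | succ n ih =>
    simp only [uu]
    have hm : Measurable (fun x : ℝ => uu n (x - 2 * 3 ^ n)) :=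
      (uu_meas n).comp (by fun_prop : Measurable (fun x : ℝ => x - 2 * 3 ^ n))
    have hA : Measurable (fun x : ℝ => uu n x + uu n (x - 2 * 3 ^ n)) := (uu_meas n).add hm
    rw [lintegral_add_left hA, lintegral_add_left (uu_meas n),
      lintegral_sub_right_eq_self (fun x => uu n x), mid_mass]
    calc _ ≤ ENNReal.ofReal (2 / 15 * (9 / 2) ^ n) + ENNReal.ofReal (2 / 15 * (9 / 2) ^ n)
        + ENNReal.ofReal (1 / 3 * (9 / 2) ^ n) := by gcongr
      _ = _ := by
        rw [← ENNReal.ofReal_add (by positivity) (by positivity),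
          ← ENNReal.ofReal_add (by positivity) (by positivity)]
        congr 1
        rw [pow_succ]; ring

/-- mass of an interval -/
def ss (n : ℕ) (a b : ℝ) : ℝ≥0∞ := ∫⁻ x in Icc a b, sgm n x

/-- the kernel -/
def ker (a b x : ℝ) : ℝ := (b - a) ^ 2 + |x - (a + b) / 2| ^ 2

/-- Poisson type integral -/
def GG (n : ℕ) (a b : ℝ) : ℝ≥0∞ := ∫⁻ x, uu n x / ENNReal.ofReal (ker a b x)

lemma ss_le (n : ℕ) (a b : ℝ) : ss n a b ≤ 2 ^ n := by
  rw [← sgm_mass n]
  exact setLIntegral_le_lintegral _ _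

lemma ss_eq_zero_right (n : ℕ) {a b : ℝ} (h : 3 ^ n ≤ a) : ss n a b = 0 := by
  unfold ss
  rw [setLIntegral_congr_fun measurableSet_Icc (g := fun _ => 0)]
  · simp
  · intro x hx
    apply sgm_supp
    rw [mem_Ico, not_and_or, not_le, not_lt]
    right; exact h.trans hx.1

lemma ss_eq_zero_left (n : ℕ) {a b : ℝ} (h : b < 0) : ss n a b = 0 := by
  unfold ss
  rw [setLIntegral_congr_fun measurableSet_Icc (g := fun _ => 0)]
  · simp
  · intro x hx
    apply sgm_supp
    rw [mem_Ico, not_and_or, not_le, not_lt]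
    left; exact hx.2.trans_lt h

lemma ss_succ (n : ℕ) (a b : ℝ) : ss (n + 1) a b = ss n a b + ss n (a - 2 * 3 ^ n) (b - 2 * 3 ^ n) := by
  unfold ss
  simp only [sgm]
  rw [lintegral_add_left (sgm_meas n)]
  congr 1
  rw [← lintegral_indicator measurableSet_Icc, ← lintegral_indicator measurableSet_Icc]
  rw [← lintegral_sub_right_eq_self (fun x => (Icc (a - 2 * 3 ^ n) (b - 2 * 3 ^ n)).indicator (sgm n) x) (2 * 3 ^ n)]
  congr 1
  ext x
  by_cases hx : x ∈ Icc a b
  · rw [Set.indicator_of_mem hx, Set.indicator_of_mem]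
    exact ⟨by linarith [hx.1], by linarith [hx.2]⟩
  · rw [Set.indicator_of_notMem hx, Set.indicator_of_notMem]
    intro h
    exact hx ⟨by linarith [h.1], by linarith [h.2]⟩

lemma GG_succ (n : ℕ) (a b : ℝ) : GG (n + 1) a b = GG n a b + GG n (a - 2 * 3 ^ n) (b - 2 * 3 ^ n)
    + ∫⁻ x, mid n x / ENNReal.ofReal (ker a b x) := by
  unfold GG
  simp only [uu]
  have hk : Measurable (fun x : ℝ => ENNReal.ofReal (ker a b x)) := by unfold ker; fun_prop
  have hm : Measurable (fun x : ℝ => uu n (x - 2 * 3 ^ n)) :=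
    (uu_meas n).comp (by fun_prop : Measurable (fun x : ℝ => x - 2 * 3 ^ n))
  simp_rw [ENNReal.add_div]
  have hA1 : Measurable (fun x : ℝ => uu n x / ENNReal.ofReal (ker a b x)) := (uu_meas n).div hk
  have hA : Measurable (fun x : ℝ => uu n x / ENNReal.ofReal (ker a b x)
      + uu n (x - 2 * 3 ^ n) / ENNReal.ofReal (ker a b x)) := hA1.add (hm.div hk)
  rw [lintegral_add_left hA, lintegral_add_left hA1]
  congr 2
  rw [← lintegral_sub_right_eq_self (fun x => uu n x / ENNReal.ofReal (ker (a - 2 * 3 ^ n) (b - 2 * 3 ^ n) x)) (2 * 3 ^ n)]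
  congr 1
  ext x
  congr 2
  unfold ker
  ring_nf

/-- far away estimate -/
lemma far_le {g : ℝ → ℝ≥0∞} {a b d : ℝ} (hd : 0 < d)
    (h : ∀ x, g x ≠ 0 → d ≤ |x - (a + b) / 2|) :
    ∫⁻ x, g x / ENNReal.ofReal (ker a b x) ≤ (∫⁻ x, g x) * ENNReal.ofReal ((d ^ 2)⁻¹) := by
  rw [← lintegral_mul_const' _ _ ENNReal.ofReal_ne_top]
  refine lintegral_mono fun x => ?_
  by_cases hx : g x = 0
  · simp [hx]
  · rw [ENNReal.div_eq_inv_mul, mul_comm]
    refine mul_le_mul' le_rfl ?_
    rw [ENNReal.ofReal_inv_of_pos (by positivity)]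
    refine ENNReal.inv_le_inv.mpr (ENNReal.ofReal_le_ofReal ?_)
    have h1 := h x hx
    unfold ker
    nlinarith [sq_nonneg (b - a), abs_nonneg (x - (a + b) / 2)]

lemma wide_le {g : ℝ → ℝ≥0∞} {a b d : ℝ} (hd : 0 < d) (hab : d ≤ b - a) :
    ∫⁻ x, g x / ENNReal.ofReal (ker a b x) ≤ (∫⁻ x, g x) * ENNReal.ofReal ((d ^ 2)⁻¹) := by
  rw [← lintegral_mul_const' _ _ ENNReal.ofReal_ne_top]
  refine lintegral_mono fun x => ?_
  rw [ENNReal.div_eq_inv_mul, mul_comm]
  refine mul_le_mul' le_rfl ?_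
  rw [ENNReal.ofReal_inv_of_pos (by positivity)]
  refine ENNReal.inv_le_inv.mpr (ENNReal.ofReal_le_ofReal ?_)
  unfold ker
  nlinarith [sq_nonneg (|x - (a + b) / 2|)]

lemma rest_const (n : ℕ) : ENNReal.ofReal (2 / 15 * (9 / 2) ^ n) * ENNReal.ofReal ((((3:ℝ) ^ n / 6) ^ 2)⁻¹)
    + ENNReal.ofReal (1 / 3 * (9 / 2) ^ n) * ENNReal.ofReal ((((3:ℝ) ^ n / 6) ^ 2)⁻¹)
    ≤ 17 / 2 ^ n := by
  rw [← ENNReal.ofReal_mul (by positivity), ← ENNReal.ofReal_mul (by positivity),
    ← ENNReal.ofReal_add (by positivity) (by positivity)]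
  have h1 : (17 / 2 ^ n : ℝ≥0∞) = ENNReal.ofReal (17 / 2 ^ n) := by
    rw [ENNReal.ofReal_div_of_pos (by positivity), ENNReal.ofReal_pow (by norm_num)]
    norm_num
  rw [h1]
  refine ENNReal.ofReal_le_ofReal ?_
  have h2 : (9 / 2 : ℝ) ^ n = (3 ^ n * 3 ^ n) / 2 ^ n := by
    rw [← mul_pow, ← div_pow]; norm_num
  rw [h2]
  have h3 : (0:ℝ) < 3 ^ n := by positivity
  have h4 : (0:ℝ) < 2 ^ n := by positivity
  rw [show 2 / 15 * ((3:ℝ) ^ n * 3 ^ n / 2 ^ n) * (((3:ℝ) ^ n / 6) ^ 2)⁻¹ + 1 / 3 * ((3:ℝ) ^ n * 3 ^ n / 2 ^ n) * (((3:ℝ) ^ n / 6) ^ 2)⁻¹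
    = (84 / 5) / 2 ^ n by field_simp; ring]
  gcongr
  norm_num

theorem P_level (n : ℕ) : ∀ a b : ℝ, a < b → GG n a b * ss n a b + 34 * (ss n a b / 2 ^ n) ≤ 45 := by
  induction n with
  | zero =>
    intro a b _
    have h1 : GG 0 a b = 0 := by simp [GG, uu]
    have h2 := ss_le 0 a b
    rw [h1, zero_mul, zero_add, pow_zero, div_one]
    rw [pow_zero] at h2
    calc 34 * ss 0 a b ≤ 34 * 1 := by gcongr
      _ ≤ 45 := by norm_num
  | succ n ih =>
    intro a b hab
    have h3 : (0:ℝ) < 3 ^ n := by positivity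
    have h2t : (2:ℝ≥0∞) ^ n ≠ ∞ := ENNReal.pow_ne_top (by norm_num)
    have h20 : (2:ℝ≥0∞) ^ n ≠ 0 := by positivity
    rcases le_or_gt (3 ^ n / 3) (b - a) with hwide | hnarrow
    · -- wide interval
      have h1 : GG (n + 1) a b ≤ ENNReal.ofReal (2 / 15 * (9 / 2) ^ (n + 1)) *
          ENNReal.ofReal ((((3:ℝ) ^ n / 3) ^ 2)⁻¹) := by
        refine (wide_le (by positivity) hwide).trans ?_
        gcongr
        exact uu_mass _
      have h2 := ss_le (n + 1) a b
      have h4 : ENNReal.ofReal (2 / 15 * (9 / 2) ^ (n + 1)) *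
          ENNReal.ofReal ((((3:ℝ) ^ n / 3) ^ 2)⁻¹) * 2 ^ (n + 1) ≤ 11 := by
        have e1 : (2:ℝ≥0∞) ^ (n + 1) = ENNReal.ofReal (2 ^ (n + 1)) := by
          rw [ENNReal.ofReal_pow (by norm_num)]; norm_num
        rw [e1, ← ENNReal.ofReal_mul (by positivity), ← ENNReal.ofReal_mul (by positivity)]
        have e2 : (11 : ℝ≥0∞) = ENNReal.ofReal 11 := by norm_num
        rw [e2]
        refine ENNReal.ofReal_le_ofReal ?_
        have e3 : (9 / 2 : ℝ) ^ (n + 1) * 2 ^ (n + 1) = 9 * (3 ^ n * 3 ^ n) := by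
          rw [← mul_pow, ← mul_pow, pow_succ]; norm_num; ring
        calc 2 / 15 * (9 / 2 : ℝ) ^ (n + 1) * (((3:ℝ) ^ n / 3) ^ 2)⁻¹ * 2 ^ (n + 1)
            = 2 / 15 * ((9 / 2 : ℝ) ^ (n + 1) * 2 ^ (n + 1)) * (((3:ℝ) ^ n / 3) ^ 2)⁻¹ := by ring
          _ = 54 / 5 := by rw [e3]; field_simp; ring
          _ ≤ 11 := by norm_num
      have h5 : ss (n + 1) a b / 2 ^ (n + 1) ≤ 1 := by
        refine (ENNReal.div_le_div_right h2 _).trans ?_
        exact ENNReal.div_self_le_one
      calc GG (n + 1) a b * ss (n + 1) a b + 34 * (ss (n + 1) a b / 2 ^ (n + 1))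
          ≤ (ENNReal.ofReal (2 / 15 * (9 / 2) ^ (n + 1)) *
          ENNReal.ofReal ((((3:ℝ) ^ n / 3) ^ 2)⁻¹)) * 2 ^ (n + 1) + 34 * 1 := by gcongr
        _ ≤ 11 + 34 * 1 := by gcongr
        _ = 45 := by norm_num
    · -- narrow interval
      -- common final computation
      have final : ∀ G s : ℝ≥0∞, G * s + 34 * (s / 2 ^ n) ≤ 45 →
          (G + 17 / 2 ^ n) * s + 34 * (s / 2 ^ (n + 1)) ≤ 45 := by
        intro G s h
        refine le_trans (le_of_eq ?_) h
        have e1 : s / 2 ^ (n + 1) = s / 2 ^ n / 2 := by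
          rw [pow_succ, ENNReal.div_eq_inv_mul, ENNReal.div_eq_inv_mul, ENNReal.div_eq_inv_mul,
            ENNReal.mul_inv (Or.inl h20) (Or.inl h2t)]
          ring
        have e2 : (34:ℝ≥0∞) * (s / 2 ^ n / 2) = 17 * (s / 2 ^ n) := by
          rw [ENNReal.div_eq_inv_mul (a := s / 2 ^ n), ← mul_assoc]
          congr 1
          rw [show (34:ℝ≥0∞) = 17 * 2 by norm_num, mul_assoc, ENNReal.mul_inv_cancel (by norm_num) (by norm_num),
            mul_one]
        rw [e1, e2, add_mul]
        have e3 : (17:ℝ≥0∞) / 2 ^ n * s = 17 * (s / 2 ^ n) := by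
          rw [ENNReal.div_eq_inv_mul, ENNReal.div_eq_inv_mul]; ring
        rw [e3, add_assoc, ← add_mul]
        norm_num
      rcases lt_or_ge b (2 * 3 ^ n) with hb | hb
      · -- misses the right copy
        have hs2 : ss n (a - 2 * 3 ^ n) (b - 2 * 3 ^ n) = 0 := ss_eq_zero_left n (by linarith)
        rw [ss_succ, hs2, add_zero]
        rcases le_or_gt (3 ^ n) a with ha | ha
        · rw [ss_eq_zero_right n ha]
          simp
        · have hG : GG (n + 1) a b ≤ GG n a b + 17 / 2 ^ n := by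
            rw [GG_succ, add_assoc]
            gcongr
            refine le_trans ?_ (rest_const n)
            have hm : ∀ x : ℝ, uu n (x - 2 * 3 ^ n) / ENNReal.ofReal (ker a b x)
                = uu n (x - 2 * 3 ^ n) / ENNReal.ofReal (ker (a - 2 * 3 ^ n) (b - 2 * 3 ^ n) (x - 2 * 3 ^ n)) := by
              intro x
              congr 2
              unfold ker
              ring_nf
            have hG2 : GG n (a - 2 * 3 ^ n) (b - 2 * 3 ^ n)
                ≤ (∫⁻ x, uu n x) * ENNReal.ofReal ((((3:ℝ) ^ n / 6) ^ 2)⁻¹) := by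
              unfold GG
              refine far_le (by positivity) ?_
              intro x hx
              have hx' : x ∈ Ico (0:ℝ) (3 ^ n) := by
                by_contra h; exact hx (uu_supp n h)
              rw [le_abs]
              left
              have := hx'.1
              linarith
            have hmid2 : ∫⁻ x, mid n x / ENNReal.ofReal (ker a b x)
                ≤ (∫⁻ x, mid n x) * ENNReal.ofReal ((((3:ℝ) ^ n / 6) ^ 2)⁻¹) := by
              refine far_le (by positivity) ?_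
              intro x hx
              have hx' : x ∈ Ico (4 / 3 * 3 ^ n : ℝ) (5 / 3 * 3 ^ n) := by
                by_contra h; exact hx (mid_supp n h)
              rw [le_abs]
              left
              have := hx'.1
              linarith
            refine (add_le_add hG2 hmid2).trans ?_
            rw [mid_mass]
            gcongr
            exact uu_mass n
          calc GG (n + 1) a b * ss n a b + 34 * (ss n a b / 2 ^ (n + 1))
              ≤ (GG n a b + 17 / 2 ^ n) * ss n a b + 34 * (ss n a b / 2 ^ (n + 1)) := by gcongr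
            _ ≤ 45 := final _ _ (ih a b hab)
      · -- misses the left copy
        have ha : 3 ^ n ≤ a := by linarith
        rw [ss_succ, ss_eq_zero_right n ha, zero_add]
        have hG : GG (n + 1) a b ≤ GG n (a - 2 * 3 ^ n) (b - 2 * 3 ^ n) + 17 / 2 ^ n := by
          rw [GG_succ, add_comm (GG n a b), add_assoc]
          gcongr
          refine le_trans ?_ (rest_const n)
          have hG2 : GG n a b ≤ (∫⁻ x, uu n x) * ENNReal.ofReal ((((3:ℝ) ^ n / 6) ^ 2)⁻¹) := by
            unfold GG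
            refine far_le (by positivity) ?_
            intro x hx
            have hx' : x ∈ Ico (0:ℝ) (3 ^ n) := by
              by_contra h; exact hx (uu_supp n h)
            rw [le_abs]
            right
            have := hx'.2
            linarith
          have hmid2 : ∫⁻ x, mid n x / ENNReal.ofReal (ker a b x)
              ≤ (∫⁻ x, mid n x) * ENNReal.ofReal ((((3:ℝ) ^ n / 6) ^ 2)⁻¹) := by
            refine far_le (by positivity) ?_
            intro x hx
            have hx' : x ∈ Ico (4 / 3 * 3 ^ n : ℝ) (5 / 3 * 3 ^ n) := by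
              by_contra h; exact hx (mid_supp n h)
            rw [le_abs]
            right
            have := hx'.2
            linarith
          refine (add_le_add hG2 hmid2).trans ?_
          rw [mid_mass]
          gcongr
          exact uu_mass n
        calc _ ≤ (GG n (a - 2 * 3 ^ n) (b - 2 * 3 ^ n) + 17 / 2 ^ n) * ss n (a - 2 * 3 ^ n) (b - 2 * 3 ^ n)
              + 34 * (ss n (a - 2 * 3 ^ n) (b - 2 * 3 ^ n) / 2 ^ (n + 1)) := by gcongr
          _ ≤ 45 := final _ _ (ih _ _ (by linarith))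

end

end Pool.Agent.Helper66.Cant
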