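import Pool.Agent.Helper66.CantA

set_option autoImplicit false
open MeasureTheory Set Filter Topology
open scoped ENNReal NNReal

namespace Pool.Agent.Helper66.Cant

noncomputable section

lemma sgm_mono : Monotone sgm := by
  refine monotone_nat_of_le_succ fun n x => ?_
  exact le_self_add

lemma uu_mono : Monotone uu := by
  refine monotone_nat_of_le_succ fun n x => ?_
  simp only [uu]
  rw [add_assoc]
  exact le_self_add

/-- limit density -/
def sg (x : ℝ) : ℝ≥0∞ := ⨆ n, sgm n x

/-- limit weight -/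
def UU (x : ℝ) : ℝ≥0∞ := ⨆ n, uu n x

lemma sg_meas : Measurable sg := Measurable.iSup sgm_meas
lemma UU_meas : Measurable UU := Measurable.iSup uu_meas

lemma P_limit (a b : ℝ) (hab : a < b) :
    (∫⁻ x, UU x / ENNReal.ofReal (ker a b x)) * (∫⁻ x in Icc a b, sg x) ≤ 45 := by
  have h1 : ∫⁻ x, UU x / ENNReal.ofReal (ker a b x) = ⨆ n, GG n a b := by
    have hk : Measurable (fun x : ℝ => ENNReal.ofReal (ker a b x)) := by unfold ker; fun_prop
    unfold GG
    have h0 := lintegral_iSup (μ := volume) (f := fun n x => uu n x / ENNReal.ofReal (ker a b x))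
      (fun n => (uu_meas n).div hk) (by
        intro n m hnm x
        exact ENNReal.div_le_div_right (uu_mono hnm x) _)
    rw [← h0]
    congr 1
    ext x
    unfold UU
    rw [ENNReal.iSup_div]
  have h2 : ∫⁻ x in Icc a b, sg x = ⨆ n, ss n a b := by
    unfold ss
    rw [← lintegral_iSup sgm_meas sgm_mono]
    rfl
  rw [h1, h2, ENNReal.iSup_mul]
  refine iSup_le fun i => ?_
  rw [ENNReal.mul_iSup]
  refine iSup_le fun j => ?_
  calc GG i a b * ss j a b ≤ GG (max i j) a b * ss (max i j) a b := by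
        refine mul_le_mul' ?_ ?_
        · exact lintegral_mono fun x => ENNReal.div_le_div_right (uu_mono (le_max_left i j) x) _
        · exact lintegral_mono fun x => sgm_mono (le_max_right i j) x
    _ ≤ 45 := (le_self_add).trans (P_level _ a b hab)

lemma uu_sup (n : ℕ) (x : ℝ) : uu n x ≤ ENNReal.ofReal ((3 / 2) ^ n) := by
  induction n generalizing x with
  | zero => simp [uu]
  | succ n ih =>
    simp only [uu]
    have h3 : (0:ℝ) < 3 ^ n := by positivity
    have hle : ENNReal.ofReal ((3 / 2) ^ n) ≤ ENNReal.ofReal ((3 / 2) ^ (n + 1)) := by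
      refine ENNReal.ofReal_le_ofReal ?_
      exact pow_le_pow_right₀ (by norm_num) (Nat.le_succ n)
    refine le_trans ?_ hle
    by_cases h1 : x ∈ Ico (0:ℝ) (3 ^ n)
    · have e1 : uu n (x - 2 * 3 ^ n) = 0 := by
        apply uu_supp
        intro h
        linarith [h.1, h1.2]
      have e2 : mid n x = 0 := by
        apply mid_supp
        intro h
        linarith [h.1, h1.2]
      rw [e1, e2, add_zero, add_zero]
      exact ih x
    · rw [uu_supp n h1, zero_add]
      by_cases h2 : x ∈ Ico (4 / 3 * 3 ^ n : ℝ) (5 / 3 * 3 ^ n)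
      · have e1 : uu n (x - 2 * 3 ^ n) = 0 := by
          apply uu_supp
          intro h
          linarith [h.1, h2.2]
        rw [e1, zero_add, mid, Set.indicator_of_mem h2]
      · rw [mid_supp n h2, add_zero]
        exact ih _

lemma uu_growth (n : ℕ) (x : ℝ) : uu n x ≤ ENNReal.ofReal (Real.sqrt (1 + |x|)) := by
  induction n with
  | zero => simp [uu]
  | succ n ih =>
    have h3 : (0:ℝ) < 3 ^ n := by positivity
    by_cases h1 : x ∈ Ico (0:ℝ) (3 ^ n)
    · have e1 : uu n (x - 2 * 3 ^ n) = 0 := by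
        apply uu_supp
        intro h
        linarith [h.1, h1.2]
      have e2 : mid n x = 0 := by
        apply mid_supp
        intro h
        linarith [h.1, h1.2]
      simp only [uu]
      rw [e1, e2, add_zero, add_zero]
      exact ih
    · by_cases h2 : x ∈ Ico (0:ℝ) (3 ^ (n + 1))
      · have hx : 3 ^ n ≤ x := by
          by_contra h
          push Not at h
          exact h1 ⟨h2.1, h⟩
        have e0 : uu n x = 0 := uu_supp n h1
        have hle : uu (n + 1) x ≤ ENNReal.ofReal ((3 / 2) ^ n) := by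
          simp only [uu]
          rw [e0, zero_add]
          by_cases h4 : x ∈ Ico (4 / 3 * 3 ^ n : ℝ) (5 / 3 * 3 ^ n)
          · have e1 : uu n (x - 2 * 3 ^ n) = 0 := by
              apply uu_supp
              intro h
              linarith [h.1, h4.2]
            rw [e1, zero_add, mid, Set.indicator_of_mem h4]
          · rw [mid_supp n h4, add_zero]
            exact uu_sup n _
        refine hle.trans (ENNReal.ofReal_le_ofReal ?_)
        rw [Real.le_sqrt (by positivity) (by positivity), ← pow_mul, mul_comm n 2, pow_mul]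
        have h5 : |x| = x := abs_of_nonneg (h3.le.trans hx)
        rw [h5]
        calc (((3:ℝ) / 2) ^ 2) ^ n ≤ 3 ^ n := by gcongr; norm_num
          _ ≤ 1 + x := by linarith
      · rw [uu_supp (n + 1) h2]
        exact bot_le

lemma UU_growth (x : ℝ) : UU x ≤ ENNReal.ofReal (Real.sqrt (1 + |x|)) := iSup_le fun n => uu_growth n x

/-- background density -/
def bg (x : ℝ) : ℝ := (1 + x ^ 2)⁻¹

lemma bg_pos (x : ℝ) : 0 < bg x := by unfold bg; positivity
lemma bg_cont : Continuous bg := by
  unfold bg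
  exact Continuous.inv₀ (by fun_prop) (fun x => by positivity)

lemma sqrt_add_le' {u v : ℝ} (hu : 0 ≤ u) (hv : 0 ≤ v) : Real.sqrt (u + v) ≤ Real.sqrt u + Real.sqrt v := by
  rw [Real.sqrt_le_iff]
  refine ⟨by positivity, ?_⟩
  nlinarith [Real.sq_sqrt hu, Real.sq_sqrt hv, Real.sqrt_nonneg u, Real.sqrt_nonneg v,
    mul_nonneg (Real.sqrt_nonneg u) (Real.sqrt_nonneg v)]

lemma sqrt_bg (x : ℝ) : Real.sqrt (1 + |x|) * bg x ≤ 3 / 2 := by
  unfold bg
  have h1 : Real.sqrt (1 + |x|) ≤ 1 + |x| := by
    rw [Real.sqrt_le_iff]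
    have := abs_nonneg x
    constructor
    · positivity
    · nlinarith
  have h2 : 1 + |x| ≤ 3 / 2 * (1 + x ^ 2) := by
    rw [← sq_abs x]
    nlinarith [sq_nonneg (|x| - 1)]
  rw [mul_inv_le_iff₀ (by positivity)]
  linarith

/-- real form: mass of background on an interval times sqrt(1+|c|) -/
lemma bg_int {a b : ℝ} (hab : a < b) :
    (∫ x in a..b, bg x) * Real.sqrt (1 + |(a + b) / 2|) ≤ 4 * (b - a) := by
  set c := (a + b) / 2 with hc
  set r := b - a with hr
  have hr0 : 0 < r := by rw [hr]; linarith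
  set B := ∫ x in a..b, bg x with hB
  have hB0 : 0 ≤ B := intervalIntegral.integral_nonneg hab.le (fun x _ => (bg_pos x).le)
  have hBr : B ≤ r := by
    have : ∫ x in a..b, bg x ≤ ∫ x in a..b, (1:ℝ) := by
      refine intervalIntegral.integral_mono_on hab.le (bg_cont.intervalIntegrable _ _)
        (by simp) fun x _ => ?_
      unfold bg
      exact inv_le_one_of_one_le₀ (by nlinarith [sq_nonneg x])
    simpa using this
  have hBpi : B ≤ Real.pi := by
    rw [← integral_univ_inv_one_add_sq, hB, intervalIntegral.integral_of_le hab.le]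
    exact setIntegral_le_integral integrable_inv_one_add_sq
      (Filter.Eventually.of_forall fun x => (bg_pos x).le)
  have hpt : ∀ x ∈ Icc a b, bg x * Real.sqrt (1 + |c|) ≤ 3 / 2 + Real.sqrt r * bg x := by
    intro x hx
    have h1 : |c| ≤ |x| + r := by
      have h2 : |c - x| ≤ r := by
        rw [abs_le, hc, hr]
        constructor <;> linarith [hx.1, hx.2]
      have h3 := abs_add_le x (c - x)
      have h4 : x + (c - x) = c := by ring
      rw [h4] at h3
      linarith
    have h2 : Real.sqrt (1 + |c|) ≤ Real.sqrt (1 + |x|) + Real.sqrt r := by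
      refine (Real.sqrt_le_sqrt (show 1 + |c| ≤ (1 + |x|) + r by linarith)).trans ?_
      exact sqrt_add_le' (by positivity) hr0.le
    have h3 := sqrt_bg x
    have h4 := (bg_pos x).le
    nlinarith
  have h1 : B * Real.sqrt (1 + |c|) ≤ 3 / 2 * r + Real.sqrt r * B := by
    rw [hB, ← intervalIntegral.integral_mul_const]
    calc ∫ x in a..b, bg x * Real.sqrt (1 + |c|) ≤ ∫ x in a..b, (3 / 2 + Real.sqrt r * bg x) := by
          refine intervalIntegral.integral_mono_on hab.le
            ((bg_cont.mul continuous_const).intervalIntegrable _ _)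
            (Continuous.intervalIntegrable (by have := bg_cont; fun_prop) _ _) hpt
      _ = _ := by
          rw [intervalIntegral.integral_add (by simp) (Continuous.intervalIntegrable (by have := bg_cont; fun_prop) _ _),
            intervalIntegral.integral_const_mul]
          simp only [intervalIntegral.integral_const, smul_eq_mul]
          rw [hr]; ring
  have h2 : Real.sqrt r * B ≤ 2 * r := by
    -- B^2 ≤ pi r
    have h3 : B ^ 2 ≤ 4 * r := by
      have := Real.pi_le_four
      nlinarith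
    have h4 : B ≤ 2 * Real.sqrt r := by
      have h5 : B ≤ Real.sqrt (4 * r) := Real.le_sqrt_of_sq_le h3
      rw [Real.sqrt_mul (by norm_num), show (4:ℝ) = 2 ^ 2 by norm_num, Real.sqrt_sq (by norm_num)] at h5
      exact h5
    calc Real.sqrt r * B ≤ Real.sqrt r * (2 * Real.sqrt r) := by gcongr
      _ = 2 * (Real.sqrt r * Real.sqrt r) := by ring
      _ = 2 * r := by rw [Real.mul_self_sqrt hr0.le]
  linarith

lemma bg_le_pi {a b : ℝ} (hab : a < b) : (∫ x in a..b, bg x) ≤ Real.pi := by
  rw [← integral_univ_inv_one_add_sq, intervalIntegral.integral_of_le hab.le]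
  exact setIntegral_le_integral integrable_inv_one_add_sq
    (Filter.Eventually.of_forall fun x => (bg_pos x).le)

lemma poisson_int {r : ℝ} (hr : 0 < r) (c : ℝ) :
    ∫⁻ x, ENNReal.ofReal ((r ^ 2 + (x - c) ^ 2)⁻¹) = ENNReal.ofReal (Real.pi / r) := by
  have h0 : ∀ x : ℝ, (r ^ 2 + (x - c) ^ 2)⁻¹ = r⁻¹ ^ 2 * (1 + ((x - c) / r) ^ 2)⁻¹ := by
    intro x
    have h1 : r ^ 2 + (x - c) ^ 2 = r ^ 2 * (1 + ((x - c) / r) ^ 2) := by
      field_simp
    rw [h1, mul_inv, inv_pow]
  have hint : Integrable (fun x : ℝ => (r ^ 2 + (x - c) ^ 2)⁻¹) := by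
    simp_rw [h0]
    refine Integrable.const_mul ?_ _
    have h1 := integrable_inv_one_add_sq.comp_div hr.ne'
    exact h1.comp_sub_right c
  rw [← ofReal_integral_eq_lintegral_ofReal hint (Filter.Eventually.of_forall fun x => by positivity)]
  congr 1
  simp_rw [h0]
  rw [integral_const_mul, integral_sub_right_eq_self (fun x : ℝ => (1 + (x / r) ^ 2)⁻¹) c,
    Measure.integral_comp_div (fun x : ℝ => (1 + x ^ 2)⁻¹) r, integral_univ_inv_one_add_sq,
    abs_of_pos hr, smul_eq_mul]
  field_simp

/-- tail constant -/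
def C0 : ℝ≥0∞ := ∫⁻ x : ℝ, ENNReal.ofReal (4 * (1 + ‖x‖) ^ (-(3 / 2 : ℝ)))

lemma C0_fin : C0 ≠ ∞ := by
  have h1 : Integrable (fun x : ℝ => (1 + ‖x‖) ^ (-(3 / 2 : ℝ))) :=
    integrable_one_add_norm (by simp; norm_num)
  have h2 := (h1.const_mul 4)
  unfold C0
  rw [← ofReal_integral_eq_lintegral_ofReal h2 (Filter.Eventually.of_forall fun x => by positivity)]
  exact ENNReal.ofReal_ne_top

lemma G_bound {a b : ℝ} (hab : a < b) : ∫⁻ x, UU x / ENNReal.ofReal (ker a b x)
    ≤ ENNReal.ofReal (2 * Real.sqrt (1 + |(a + b) / 2|) * (Real.pi / (b - a))) + C0 := by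
  set c := (a + b) / 2 with hc
  set r := b - a with hr
  have hr0 : 0 < r := by rw [hr]; linarith
  have hpt : ∀ x : ℝ, UU x / ENNReal.ofReal (ker a b x) ≤
      ENNReal.ofReal (2 * Real.sqrt (1 + |c|)) * ENNReal.ofReal ((r ^ 2 + (x - c) ^ 2)⁻¹)
      + ENNReal.ofReal (4 * (1 + ‖x‖) ^ (-(3 / 2 : ℝ))) := by
    intro x
    have hk : ker a b x = r ^ 2 + (x - c) ^ 2 := by
      unfold ker; rw [sq_abs]
    have hkp : 0 < r ^ 2 + (x - c) ^ 2 := by positivity
    have h1 : UU x / ENNReal.ofReal (ker a b x) ≤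
        ENNReal.ofReal (Real.sqrt (1 + |x|) * (r ^ 2 + (x - c) ^ 2)⁻¹) := by
      rw [hk, ENNReal.div_eq_inv_mul, mul_comm, ENNReal.ofReal_mul (Real.sqrt_nonneg _),
        ENNReal.ofReal_inv_of_pos hkp]
      gcongr
      exact UU_growth x
    refine h1.trans ?_
    rw [← ENNReal.ofReal_mul (by positivity), ← ENNReal.ofReal_add (by positivity) (by positivity)]
    refine ENNReal.ofReal_le_ofReal ?_
    rcases le_or_gt |x - c| (1 + |c|) with h | h
    · have h2 : Real.sqrt (1 + |x|) ≤ 2 * Real.sqrt (1 + |c|) := by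
        rw [Real.sqrt_le_iff]
        refine ⟨by positivity, ?_⟩
        have h3 : |x| ≤ |c| + |x - c| := by
          have := abs_add_le c (x - c)
          have h4 : c + (x - c) = x := by ring
          rwa [h4] at this
        rw [mul_pow, Real.sq_sqrt (by positivity)]
        have := abs_nonneg c
        linarith
      have h3 : 0 ≤ 4 * (1 + ‖x‖) ^ (-(3 / 2 : ℝ)) := by positivity
      have h4 : Real.sqrt (1 + |x|) * (r ^ 2 + (x - c) ^ 2)⁻¹ ≤
          2 * Real.sqrt (1 + |c|) * (r ^ 2 + (x - c) ^ 2)⁻¹ := by gcongr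
      linarith
    · have h2 : 0 ≤ 2 * Real.sqrt (1 + |c|) * (r ^ 2 + (x - c) ^ 2)⁻¹ := by positivity
      have h3 : Real.sqrt (1 + |x|) * (r ^ 2 + (x - c) ^ 2)⁻¹ ≤ 4 * (1 + ‖x‖) ^ (-(3 / 2 : ℝ)) := by
        have h4 : 1 + |x| ≤ 2 * |x - c| := by
          have := abs_add_le c (x - c)
          have h5 : c + (x - c) = x := by ring
          rw [h5] at this
          linarith
        have h5 : (1 + |x|) ^ 2 ≤ 4 * (r ^ 2 + (x - c) ^ 2) := by
          rw [← sq_abs (x - c)]
          nlinarith [sq_nonneg r, abs_nonneg x]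
        have h6 : (r ^ 2 + (x - c) ^ 2)⁻¹ ≤ 4 * ((1 + |x|) ^ 2)⁻¹ := by
          rw [← div_eq_mul_inv, le_div_iff₀ (by positivity), inv_mul_le_iff₀ hkp]
          linarith
        have h7 : Real.sqrt (1 + |x|) * ((1 + |x|) ^ 2)⁻¹ = (1 + ‖x‖) ^ (-(3 / 2 : ℝ)) := by
          have h8 : (0:ℝ) < 1 + |x| := by positivity
          rw [Real.norm_eq_abs, Real.sqrt_eq_rpow, ← Real.rpow_natCast, ← Real.rpow_neg h8.le,
            ← Real.rpow_add h8]
          norm_num
        calc Real.sqrt (1 + |x|) * (r ^ 2 + (x - c) ^ 2)⁻¹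
            ≤ Real.sqrt (1 + |x|) * (4 * ((1 + |x|) ^ 2)⁻¹) := by gcongr
          _ = 4 * (Real.sqrt (1 + |x|) * ((1 + |x|) ^ 2)⁻¹) := by ring
          _ = _ := by rw [h7]
      linarith
  refine (lintegral_mono hpt).trans ?_
  rw [lintegral_add_right _ (by fun_prop), lintegral_const_mul' _ _ ENNReal.ofReal_ne_top,
    poisson_int hr0, ← ENNReal.ofReal_mul (by positivity)]
  rfl

lemma P_bg {a b : ℝ} (hab : a < b) :
    (∫⁻ x, UU x / ENNReal.ofReal (ker a b x)) * (∫⁻ x in Icc a b, ENNReal.ofReal (bg x))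
      ≤ ENNReal.ofReal 32 + C0 * ENNReal.ofReal Real.pi := by
  have hr0 : 0 < b - a := by linarith
  have h1 : ∫⁻ x in Icc a b, ENNReal.ofReal (bg x) = ENNReal.ofReal (∫ x in a..b, bg x) := by
    rw [intervalIntegral.integral_of_le hab.le, ← integral_Icc_eq_integral_Ioc,
      ofReal_integral_eq_lintegral_ofReal (bg_cont.integrableOn_Icc)
        (Filter.Eventually.of_forall fun x => (bg_pos x).le)]
  rw [h1]
  have hB0 : 0 ≤ ∫ x in a..b, bg x :=
    intervalIntegral.integral_nonneg hab.le (fun x _ => (bg_pos x).le)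
  calc _ ≤ (ENNReal.ofReal (2 * Real.sqrt (1 + |(a + b) / 2|) * (Real.pi / (b - a))) + C0) *
        ENNReal.ofReal (∫ x in a..b, bg x) := by
        gcongr
        exact G_bound hab
    _ = ENNReal.ofReal (2 * Real.sqrt (1 + |(a + b) / 2|) * (Real.pi / (b - a)) * (∫ x in a..b, bg x))
        + C0 * ENNReal.ofReal (∫ x in a..b, bg x) := by
        rw [add_mul, ← ENNReal.ofReal_mul (by positivity)]
    _ ≤ _ := by
        gcongr
        · have h2 := bg_int hab
          have h3 := Real.pi_le_four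
          calc 2 * Real.sqrt (1 + |(a + b) / 2|) * (Real.pi / (b - a)) * (∫ x in a..b, bg x)
              = 2 * Real.pi / (b - a) * ((∫ x in a..b, bg x) * Real.sqrt (1 + |(a + b) / 2|)) := by ring
            _ ≤ 2 * Real.pi / (b - a) * (4 * (b - a)) := by
                have := Real.pi_pos
                gcongr
            _ = 8 * Real.pi := by field_simp; ring
            _ ≤ 32 := by linarith
        · exact bg_le_pi hab

/-- the counterexample weight V -/
def VV (x : ℝ) : ℝ≥0∞ := (sg x + ENNReal.ofReal (bg x))⁻¹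

lemma VV_meas : Measurable VV := (sg_meas.add (bg_cont.measurable.ennreal_ofReal)).inv

lemma P_total {a b : ℝ} (hab : a < b) :
    (∫⁻ x, UU x / ENNReal.ofReal (ker a b x)) * (∫⁻ x in Icc a b, (VV x)⁻¹)
      ≤ 45 + (ENNReal.ofReal 32 + C0 * ENNReal.ofReal Real.pi) := by
  unfold VV
  simp_rw [inv_inv]
  rw [lintegral_add_left sg_meas, mul_add]
  exact add_le_add (P_limit a b hab) (P_bg hab)

end

end Pool.Agent.Helper66.Cant
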