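import Pool.Agent.Helper66.CantB

set_option autoImplicit false
open MeasureTheory Set Filter Topology
open scoped ENNReal NNReal

namespace Pool.Agent.Helper66.Cant

noncomputable section

/-- maximal function -/
def MM (g : ℝ → ℝ≥0∞) (x : ℝ) : ℝ≥0∞ :=
  ⨆ a : ℝ, ⨆ b : ℝ, ⨆ (_ : a < x ∧ x < b), ENNReal.ofReal (b - a)⁻¹ * ∫⁻ t in Set.Ioo a b, g t

lemma le_MM (g : ℝ → ℝ≥0∞) {x a b : ℝ} (h : a < x ∧ x < b) :
    ENNReal.ofReal (b - a)⁻¹ * ∫⁻ t in Set.Ioo a b, g t ≤ MM g x := by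
  unfold MM
  exact le_iSup₂_of_le a b (le_iSup_of_le h le_rfl)

lemma MM_mono {g h : ℝ → ℝ≥0∞} (hgh : ∀ x, g x ≤ h x) (x : ℝ) : MM g x ≤ MM h x := by
  unfold MM
  refine iSup_mono fun a => iSup_mono fun b => iSup_mono fun _ => ?_
  refine mul_le_mul' le_rfl (lintegral_mono fun t => hgh t)

lemma MM_shift (g : ℝ → ℝ≥0∞) (s x : ℝ) : MM g (x - s) ≤ MM (fun t => g (t - s)) x := by
  conv_lhs => unfold MM
  refine iSup_le fun a => iSup_le fun b => iSup_le fun h => ?_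
  have h2 := le_MM (fun t => g (t - s)) (x := x) (a := a + s) (b := b + s)
    ⟨by linarith [h.1], by linarith [h.2]⟩
  refine le_trans (le_of_eq ?_) h2
  have e1 : b + s - (a + s) = b - a := by ring
  rw [e1]
  congr 1
  rw [← lintegral_indicator measurableSet_Ioo, ← lintegral_indicator measurableSet_Ioo,
    ← lintegral_sub_right_eq_self (fun t => (Ioo a b).indicator g t) s]
  congr 1
  ext t
  by_cases ht : t - s ∈ Ioo a b
  · rw [Set.indicator_of_mem ht, Set.indicator_of_mem]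
    exact ⟨by linarith [ht.1], by linarith [ht.2]⟩
  · rw [Set.indicator_of_notMem ht, Set.indicator_of_notMem]
    intro h
    exact ht ⟨by linarith [h.1], by linarith [h.2]⟩

/-- testing quantity -/
def Phi (n : ℕ) : ℝ≥0∞ := ∫⁻ x, MM (sgm n) x ^ 2 * uu n x

lemma sgm_full (n : ℕ) : ∫⁻ t in Ioo (0:ℝ) (3 ^ n), sgm n t = 2 ^ n := by
  rw [← sgm_mass n, setLIntegral_congr Ioo_ae_eq_Ico, ← lintegral_indicator measurableSet_Ico]
  congr 1
  ext x
  by_cases hx : x ∈ Ico (0:ℝ) (3 ^ n)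
  · rw [Set.indicator_of_mem hx]
  · rw [Set.indicator_of_notMem hx, sgm_supp n hx]

lemma Phi_succ (n : ℕ) : Phi n + Phi n + ENNReal.ofReal (4 / 27 * 2 ^ n) ≤ Phi (n + 1) := by
  unfold Phi
  have h3 : (0:ℝ) < 3 ^ n := by positivity
  have h1 : ∫⁻ x, MM (sgm n) x ^ 2 * uu n x ≤ ∫⁻ x, MM (sgm (n + 1)) x ^ 2 * uu n x := by
    refine lintegral_mono fun x => ?_
    gcongr
    exact MM_mono (fun t => sgm_mono (Nat.le_succ n) t) x
  have h2 : ∫⁻ x, MM (sgm n) x ^ 2 * uu n x ≤ ∫⁻ x, MM (sgm (n + 1)) x ^ 2 * uu n (x - 2 * 3 ^ n) := by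
    rw [← lintegral_sub_right_eq_self (fun x => MM (sgm n) x ^ 2 * uu n x) (2 * 3 ^ n)]
    refine lintegral_mono fun x => ?_
    gcongr
    refine (MM_shift (sgm n) (2 * 3 ^ n) x).trans (MM_mono (fun t => ?_) x)
    simp only [sgm]
    exact le_add_self
  have h4 : ENNReal.ofReal (4 / 27 * 2 ^ n) ≤ ∫⁻ x, MM (sgm (n + 1)) x ^ 2 * mid n x := by
    have e1 : ∀ x, ENNReal.ofReal ((((3:ℝ) ^ (n + 1))⁻¹ * 2 ^ (n + 1)) ^ 2) * mid n x
        ≤ MM (sgm (n + 1)) x ^ 2 * mid n x := by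
      intro x
      by_cases hx : x ∈ Ico (4 / 3 * 3 ^ n : ℝ) (5 / 3 * 3 ^ n)
      · gcongr
        rw [ENNReal.ofReal_pow (by positivity)]
        gcongr
        have h5 := le_MM (sgm (n + 1)) (x := x) (a := 0) (b := 3 ^ (n + 1))
          ⟨by linarith [hx.1], by rw [pow_succ]; linarith [hx.2]⟩
        rw [sgm_full, sub_zero] at h5
        refine le_trans (le_of_eq ?_) h5
        rw [ENNReal.ofReal_mul (by positivity), ENNReal.ofReal_pow (by norm_num)]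
        norm_num
      · rw [mid_supp n hx]; simp
    refine le_trans ?_ (lintegral_mono e1)
    rw [lintegral_const_mul' _ _ ENNReal.ofReal_ne_top, mid_mass, ← ENNReal.ofReal_mul (by positivity)]
    refine ENNReal.ofReal_le_ofReal (le_of_eq ?_)
    have e2 : (9 / 2 : ℝ) ^ n = (3 ^ n * 3 ^ n) / 2 ^ n := by
      rw [← mul_pow, ← div_pow]; norm_num
    rw [e2, pow_succ, pow_succ]
    have h5 : (0:ℝ) < 2 ^ n := by positivity
    field_simp
    ring
  calc (∫⁻ x, MM (sgm n) x ^ 2 * uu n x) + (∫⁻ x, MM (sgm n) x ^ 2 * uu n x) + ENNReal.ofReal (4 / 27 * 2 ^ n)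
      ≤ (∫⁻ x, MM (sgm (n + 1)) x ^ 2 * uu n x) + (∫⁻ x, MM (sgm (n + 1)) x ^ 2 * uu n (x - 2 * 3 ^ n))
        + (∫⁻ x, MM (sgm (n + 1)) x ^ 2 * mid n x) := add_le_add (add_le_add h1 h2) h4
    _ ≤ (∫⁻ x, (MM (sgm (n + 1)) x ^ 2 * uu n x + MM (sgm (n + 1)) x ^ 2 * uu n (x - 2 * 3 ^ n)))
        + (∫⁻ x, MM (sgm (n + 1)) x ^ 2 * mid n x) := add_le_add (le_lintegral_add _ _) le_rfl
    _ ≤ ∫⁻ x, (MM (sgm (n + 1)) x ^ 2 * uu n x + MM (sgm (n + 1)) x ^ 2 * uu n (x - 2 * 3 ^ n)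
        + MM (sgm (n + 1)) x ^ 2 * mid n x) := le_lintegral_add _ _
    _ = _ := by
        refine lintegral_congr fun x => ?_
        simp only [uu]
        ring

lemma Phi_lower (n : ℕ) : ENNReal.ofReal (2 / 27 * n * 2 ^ n) ≤ Phi n := by
  induction n with
  | zero => simp
  | succ n ih =>
    refine le_trans (le_trans (le_of_eq ?_) (add_le_add (add_le_add ih ih) le_rfl)) (Phi_succ n)
    rw [← ENNReal.ofReal_add (by positivity) (by positivity),
      ← ENNReal.ofReal_add (by positivity) (by positivity)]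
    congr 1
    push_cast
    ring

lemma sgm_lt_top (n : ℕ) (x : ℝ) : sgm n x ≠ ∞ := by
  induction n generalizing x with
  | zero =>
    simp only [sgm, Set.indicator]
    split_ifs <;> simp
  | succ n ih => exact ENNReal.add_ne_top.mpr ⟨ih _, ih _⟩

theorem main : ¬ (∀ p : ℝ, 1 < p → ∀ U V : ℝ → ℝ≥0∞, Measurable U → Measurable V →
      ∀ B : ℝ≥0, (∀ a b : ℝ, a < b →
        (∫⁻ x, U x / ENNReal.ofReal ((b - a) ^ p + |x - (a + b) / 2| ^ p)) *
          (∫⁻ x in Set.Icc a b, V x ^ (-(1 / (p - 1)))) ^ (p - 1) ≤ (B : ℝ≥0∞)) →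
      ∃ C : ℝ≥0, ∀ f : ℝ → ℝ, Measurable f →
        ∫⁻ x, (⨆ a : ℝ, ⨆ b : ℝ, ⨆ (_ : a < x ∧ x < b),
            ENNReal.ofReal (b - a)⁻¹ * ∫⁻ t in Set.Ioo a b, ‖f t‖ₑ) ^ p * U x
          ≤ (C : ℝ≥0∞) * ∫⁻ x, ‖f x‖ₑ ^ p * V x) := by
  intro h
  have hKfin : (45 + (ENNReal.ofReal 32 + C0 * ENNReal.ofReal Real.pi) : ℝ≥0∞) ≠ ∞ := by
    refine ENNReal.add_ne_top.mpr ⟨by norm_num, ENNReal.add_ne_top.mpr ⟨ENNReal.ofReal_ne_top, ?_⟩⟩
    exact ENNReal.mul_ne_top C0_fin ENNReal.ofReal_ne_top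
  obtain ⟨C, hC⟩ := h 2 (by norm_num) UU VV UU_meas VV_meas
    (45 + (ENNReal.ofReal 32 + C0 * ENNReal.ofReal Real.pi) : ℝ≥0∞).toNNReal (by
      intro a b hab
      rw [ENNReal.coe_toNNReal hKfin]
      have e1 : (2:ℝ) - 1 = 1 := by norm_num
      have e2 : ∀ x, VV x ^ (-(1 / ((2:ℝ) - 1))) = (VV x)⁻¹ := by
        intro x
        rw [e1, div_one, ENNReal.rpow_neg_one]
      simp_rw [e2, e1, ENNReal.rpow_one, Real.rpow_two]
      exact P_total hab)
  -- contradiction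
  have key : ∀ n : ℕ, (2 / 27 * n : ℝ) ≤ C := by
    intro n
    set f : ℝ → ℝ := fun x => (sgm n x).toReal with hf
    have hfe : ∀ x, ‖f x‖ₑ = sgm n x := by
      intro x
      simp only [hf]
      rw [Real.enorm_eq_ofReal ENNReal.toReal_nonneg, ENNReal.ofReal_toReal (sgm_lt_top n x)]
    have h1 := hC f (sgm_meas n).ennreal_toReal
    simp_rw [hfe, ENNReal.rpow_two] at h1
    have h2 : ENNReal.ofReal (2 / 27 * n * 2 ^ n) ≤ ∫⁻ x, (⨆ a : ℝ, ⨆ b : ℝ, ⨆ (_ : a < x ∧ x < b),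
            ENNReal.ofReal (b - a)⁻¹ * ∫⁻ t in Set.Ioo a b, sgm n t) ^ 2 * UU x := by
      refine (Phi_lower n).trans ?_
      unfold Phi
      refine lintegral_mono fun x => ?_
      refine mul_le_mul' le_rfl ?_
      exact le_iSup (fun n => uu n x) n
    have h3 : ∫⁻ x, sgm n x ^ 2 * VV x ≤ 2 ^ n := by
      rw [← sgm_mass n]
      refine lintegral_mono fun x => ?_
      have h4 : sgm n x ≤ sg x := le_iSup (fun n => sgm n x) n
      by_cases h0 : sgm n x = 0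
      · rw [h0]; simp
      · have h5 : VV x ≤ (sgm n x)⁻¹ := by
          unfold VV
          exact ENNReal.inv_le_inv.mpr (h4.trans le_self_add)
        calc sgm n x ^ 2 * VV x ≤ sgm n x ^ 2 * (sgm n x)⁻¹ := by gcongr
          _ = sgm n x * (sgm n x * (sgm n x)⁻¹) := by ring
          _ = sgm n x := by rw [ENNReal.mul_inv_cancel h0 (sgm_lt_top n x), mul_one]
    have h4 : ENNReal.ofReal (2 / 27 * n * 2 ^ n) ≤ ENNReal.ofReal (C * 2 ^ n) := by
      refine h2.trans (h1.trans ?_)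
      have e3 : ENNReal.ofReal ((C:ℝ) * 2 ^ n) = (C : ℝ≥0∞) * ENNReal.ofReal 2 ^ n := by
        rw [ENNReal.ofReal_mul (NNReal.coe_nonneg C), ENNReal.ofReal_coe_nnreal,
          ENNReal.ofReal_pow (by norm_num)]
      rw [e3]
      refine mul_le_mul' le_rfl (h3.trans (le_of_eq ?_))
      norm_num
    have h5 := (ENNReal.ofReal_le_ofReal_iff (by positivity)).mp h4
    have h6 : (0:ℝ) < 2 ^ n := by positivity
    exact le_of_mul_le_mul_right h5 h6
  obtain ⟨n, hn⟩ := exists_nat_gt (27 / 2 * (C:ℝ))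
  have := key n
  linarith

end

end Pool.Agent.Helper66.Cant
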