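import Mathlib

set_option autoImplicit false
open MeasureTheory Filter Set

namespace Pool.Agent.Helper66.Frac

/-- scale lengths -/
noncomputable def L (m : ℕ) : ℝ := 4 ^ m * ((m : ℝ) + 1) ^ 2
/-- translation steps -/
noncomputable def dd (m : ℕ) : ℝ := L (m + 1) - L m

/-- finite stage sets -/
noncomputable def E : ℕ → Set ℝ
  | 0 => Ico 0 1
  | (m + 1) => E m ∪ {x | x - dd m ∈ E m}

/-- the full set -/
noncomputable def EE : Set ℝ := ⋃ m, E m

theorem L_pos (m : ℕ) : 0 < L m := by unfold L; positivity

theorem L_zero : L 0 = 1 := by simp [L]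

theorem L_succ_ge (m : ℕ) : 4 * L m ≤ L (m + 1) := by
  unfold L
  push_cast
  have h1 : ((m : ℝ) + 1) ^ 2 ≤ ((m : ℝ) + 1 + 1) ^ 2 := by
    have : (0:ℝ) ≤ m := Nat.cast_nonneg m
    nlinarith
  have h2 : (0:ℝ) ≤ 4 ^ m := by positivity
  calc 4 * (4 ^ m * ((m : ℝ) + 1) ^ 2) = 4 ^ (m + 1) * ((m : ℝ) + 1) ^ 2 := by ring
    _ ≤ 4 ^ (m + 1) * ((m : ℝ) + 1 + 1) ^ 2 := by
        apply mul_le_mul_of_nonneg_left h1; positivity

theorem L_mono : Monotone L := by
  apply monotone_nat_of_le_succ
  intro m
  have := L_succ_ge m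
  have := L_pos m
  linarith

theorem dd_ge (m : ℕ) : 3 * L m ≤ dd m := by
  unfold dd
  have := L_succ_ge m
  linarith

theorem E_subset_Ico (m : ℕ) : E m ⊆ Ico 0 (L m) := by
  induction m with
  | zero => rw [L_zero]; exact subset_rfl
  | succ m ih =>
    intro x hx
    have h1 := dd_ge m
    have h2 := L_succ_ge m
    have h3 := L_pos m
    rcases hx with hx | hx
    · have := ih hx
      exact ⟨this.1, by linarith [this.2]⟩
    · have := ih hx
      have h4 : dd m = L (m + 1) - L m := rfl
      refine ⟨by linarith [this.1], by linarith [this.2]⟩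

theorem E_meas (m : ℕ) : MeasurableSet (E m) := by
  induction m with
  | zero => exact measurableSet_Ico
  | succ m ih =>
    refine MeasurableSet.union ih ?_
    have : Measurable (fun x : ℝ => x - dd m) := by fun_prop
    exact this ih

theorem E_mono : Monotone E := by
  apply monotone_nat_of_le_succ
  intro m x hx
  exact Or.inl hx

theorem EE_meas : MeasurableSet EE := MeasurableSet.iUnion E_meas

theorem vol_shift (S : Set ℝ) (d : ℝ) : volume {x : ℝ | x - d ∈ S} = volume S := by
  have := measure_preimage_add_right (volume : Measure ℝ) (-d) S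
  rw [← this]
  congr 1

theorem E_disj (m : ℕ) : Disjoint (E m) {x | x - dd m ∈ E m} := by
  rw [Set.disjoint_left]
  intro x hx hx'
  have h1 := E_subset_Ico m hx
  have h2 := E_subset_Ico m hx'
  have h3 := dd_ge m
  have h4 := L_pos m
  have := h1.2
  have := h2.1
  linarith

theorem E_shift_meas (m : ℕ) : MeasurableSet {x | x - dd m ∈ E m} := by
  have : Measurable (fun x : ℝ => x - dd m) := by fun_prop
  exact this (E_meas m)

theorem E_vol (m : ℕ) : volume (E m) = 2 ^ m := by
  induction m with
  | zero => simp [E]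
  | succ m ih =>
    show volume (E m ∪ {x | x - dd m ∈ E m}) = _
    rw [measure_union (E_disj m) (E_shift_meas m), vol_shift, ih]
    ring

/-- growth at all stages -/
theorem growth_stage (m M : ℕ) (h : m ≤ M) (a l : ℝ) (hl : l ≤ 2 * L m) :
    volume (E M ∩ Ico a (a + l)) ≤ 2 ^ m := by
  induction M, h using Nat.le_induction generalizing a with
  | base => exact (measure_mono inter_subset_left).trans (E_vol m).le
  | succ M hM ih =>
    have hLM : L m ≤ L M := L_mono hM
    have h1 := dd_ge M
    by_cases hc : ∃ x ∈ Ico a (a + l), x ∈ Ico 0 (L M)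
    · obtain ⟨x, hx, hx'⟩ := hc
      refine le_trans (measure_mono ?_) (ih a)
      rintro y ⟨hy, hyQ⟩
      rcases hy with hy | hy
      · exact ⟨hy, hyQ⟩
      · exfalso
        have h2 := (E_subset_Ico M hy).1
        have := hx.1
        have := hyQ.2
        have := hx'.2
        linarith
    · push Not at hc
      have : volume (E (M + 1) ∩ Ico a (a + l)) ≤
          volume {x | x - dd M ∈ E M ∩ Ico (a - dd M) ((a - dd M) + l)} := by
        apply measure_mono
        rintro y ⟨hy, hyQ⟩
        rcases hy with hy | hy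
        · exact absurd (E_subset_Ico M hy) (hc y hyQ)
        · refine ⟨hy, ?_, ?_⟩
          · linarith [hyQ.1]
          · linarith [hyQ.2]
      refine this.trans ?_
      rw [vol_shift]
      exact ih (a - dd M)

theorem growth (m : ℕ) (a l : ℝ) (hl : l ≤ 2 * L m) :
    volume (EE ∩ Ico a (a + l)) ≤ 2 ^ m := by
  have h1 : EE ∩ Ico a (a + l) = ⋃ k, (E (m + k) ∩ Ico a (a + l)) := by
    rw [← iUnion_inter]
    congr 1
    unfold EE
    apply Set.Subset.antisymm
    · apply iUnion_subset
      intro i
      exact (E_mono (by omega : i ≤ m + i)).trans (subset_iUnion (fun k => E (m + k)) i)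
    · apply iUnion_subset
      intro i
      exact subset_iUnion E (m + i)
  rw [h1]
  have hmono : Monotone (fun k => E (m + k) ∩ Ico a (a + l)) := by
    intro i j hij
    exact inter_subset_inter_left _ (E_mono (by omega))
  rw [hmono.measure_iUnion]
  apply iSup_le
  intro k
  exact growth_stage m (m + k) (by omega) a l hl

/-- Potential lower bound. -/
theorem potential (m : ℕ) (x : ℝ) (hx : x ∈ E m) :
    ENNReal.ofReal (∑ i ∈ Finset.range m, 1 / (2 * ((i : ℝ) + 2))) ≤
      ∫⁻ y in E m, ENNReal.ofReal (|x - y| ^ (-(1/2) : ℝ)) := by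
  induction m generalizing x with
  | zero => simp
  | succ m ih =>
    have hLs : L (m + 1) = (2 ^ (m + 1) * ((m : ℝ) + 2)) ^ 2 := by
      unfold L; push_cast
      rw [mul_pow, ← pow_mul, mul_comm (m+1) 2, pow_mul]
      norm_num
      ring
    -- lower bound for a far block
    have far : ∀ (S : Set ℝ), MeasurableSet S → volume S = 2 ^ m → x ∈ Ico 0 (L (m + 1)) →
        S ⊆ Ico 0 (L (m + 1)) → x ∉ S →
        ENNReal.ofReal (1 / (2 * ((m : ℝ) + 2))) ≤
          ∫⁻ y in S, ENNReal.ofReal (|x - y| ^ (-(1/2) : ℝ)) := by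
      intro S hS hvol hxI hSI hxS
      have hb : ∀ y ∈ S, ENNReal.ofReal (L (m + 1) ^ (-(1/2) : ℝ)) ≤
          ENNReal.ofReal (|x - y| ^ (-(1/2) : ℝ)) := by
        intro y hy
        apply ENNReal.ofReal_le_ofReal
        have hne : x ≠ y := fun h => hxS (h ▸ hy)
        apply Real.rpow_le_rpow_of_nonpos
        · exact abs_pos.mpr (sub_ne_zero.mpr hne)
        · have h1 := hSI hy
          rw [abs_le]
          constructor
          · linarith [hxI.1, h1.2]
          · linarith [hxI.2, h1.1]
        · norm_num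
      calc ENNReal.ofReal (1 / (2 * ((m : ℝ) + 2)))
          = ENNReal.ofReal (L (m + 1) ^ (-(1/2) : ℝ)) * volume S := by
            rw [hvol, hLs]
            have h2 : ((2 ^ (m + 1) * ((m : ℝ) + 2)) ^ 2) ^ (-(1/2) : ℝ) =
                (2 ^ (m + 1) * ((m : ℝ) + 2))⁻¹ := by
              rw [Real.rpow_neg (by positivity), ← Real.sqrt_eq_rpow,
                Real.sqrt_sq (by positivity)]
            rw [h2]
            have h3 : (2 ^ m : ENNReal) = ENNReal.ofReal (2 ^ m) := by
              rw [ENNReal.ofReal_pow (by norm_num)]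
              norm_num
            rw [h3, ← ENNReal.ofReal_mul (by positivity)]
            congr 1
            have : (2:ℝ) ^ m ≠ 0 := by positivity
            have : ((m:ℝ) + 2) ≠ 0 := by positivity
            field_simp
            ring
        _ = ∫⁻ y in S, ENNReal.ofReal (L (m + 1) ^ (-(1/2) : ℝ)) := by
            rw [setLIntegral_const]
        _ ≤ _ := setLIntegral_mono' hS hb
    have hxI := E_subset_Ico (m + 1) hx
    show _ ≤ ∫⁻ y in E m ∪ {x | x - dd m ∈ E m}, ENNReal.ofReal (|x - y| ^ (-(1/2) : ℝ))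
    rw [lintegral_union (E_shift_meas m) (E_disj m), Finset.sum_range_succ,
      ENNReal.ofReal_add (by positivity) (by positivity)]
    have hsub1 : E m ⊆ Ico 0 (L (m + 1)) := fun y hy => E_subset_Ico (m + 1) (Or.inl hy)
    have hsub2 : {x | x - dd m ∈ E m} ⊆ Ico 0 (L (m + 1)) :=
      fun y hy => E_subset_Ico (m + 1) (Or.inr hy)
    have hdis := Set.disjoint_left.mp (E_disj m)
    rcases hx with hx | hx
    · refine add_le_add (ih x hx) (far _ (E_shift_meas m) ?_ hxI hsub2 (hdis hx))
      rw [vol_shift, E_vol]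
    · rw [add_comm]
      refine add_le_add (far _ (E_meas m) (E_vol m) hxI hsub1 (fun h => hdis h hx)) ?_
      have h4 := ih (x - dd m) hx
      refine h4.trans (le_of_eq ?_)
      rw [← lintegral_indicator (E_meas m), ← lintegral_indicator (E_shift_meas m)]
      rw [← lintegral_sub_right_eq_self
        (fun y => (E m).indicator (fun y => ENNReal.ofReal (|x - dd m - y| ^ (-(1/2) : ℝ))) y) (dd m)]
      congr 1
      funext y
      by_cases hy : y - dd m ∈ E m
      · rw [indicator_of_mem hy, indicator_of_mem (show y ∈ {x | x - dd m ∈ E m} from hy)]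
        congr 3
        ring
      · rw [indicator_of_notMem hy, indicator_of_notMem (show y ∉ {x | x - dd m ∈ E m} from hy)]

theorem sum_tendsto :
    Tendsto (fun m : ℕ => ∑ i ∈ Finset.range m, 1 / (2 * ((i : ℝ) + 2))) atTop atTop := by
  have h := Real.tendsto_sum_range_one_div_nat_succ_atTop
  have h2 : Tendsto (fun n : ℕ => (1/4 : ℝ) * ∑ i ∈ Finset.range n, (1 / (i + 1 : ℝ))) atTop atTop :=
    Tendsto.const_mul_atTop (by norm_num) h
  refine tendsto_atTop_mono ?_ h2
  intro n
  rw [Finset.mul_sum]
  apply Finset.sum_le_sum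
  intro i _
  have hi : (0:ℝ) ≤ i := Nat.cast_nonneg i
  rw [div_mul_div_comm, div_le_div_iff₀ (by positivity) (by positivity)]
  nlinarith

end Pool.Agent.Helper66.Frac
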