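import Mathlib

set_option autoImplicit false
open MeasureTheory Filter Set

namespace Pool.Agent.Helper66.Frac

/-- The Young function `((1+t) log (1+t))^2`. -/
noncomputable def Y (t : ℝ) : ℝ := ((1 + t) * Real.log (1 + t)) ^ 2

theorem Y_zero : Y 0 = 0 := by simp [Y]

theorem base_nonneg {t : ℝ} (ht : 0 ≤ t) : 0 ≤ (1 + t) * Real.log (1 + t) :=
  mul_nonneg (by linarith) (Real.log_nonneg (by linarith))

theorem base_ge {t : ℝ} (ht : 0 ≤ t) : t ≤ (1 + t) * Real.log (1 + t) := by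
  have h1 : 0 < 1 + t := by linarith
  have h2 := Real.one_sub_inv_le_log_of_pos h1
  have h3 : (1 + t) * (1 - (1 + t)⁻¹) ≤ (1 + t) * Real.log (1 + t) :=
    mul_le_mul_of_nonneg_left h2 h1.le
  have h4 : (1 + t) * (1 - (1 + t)⁻¹) = t := by field_simp; ring
  linarith

theorem Y_nonneg (t : ℝ) : 0 ≤ Y t := by unfold Y; positivity

theorem Y_ge_sq {t : ℝ} (ht : 0 ≤ t) : t ^ 2 ≤ Y t := by
  unfold Y
  exact pow_le_pow_left₀ ht (base_ge ht) 2

theorem Y_ge_log {t : ℝ} (ht : 0 ≤ t) : t ^ 2 * Real.log (1 + t) ^ 2 ≤ Y t := by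
  unfold Y
  rw [← mul_pow]
  have h0 : 0 ≤ Real.log (1 + t) := Real.log_nonneg (by linarith)
  apply pow_le_pow_left₀ (by positivity)
  apply mul_le_mul_of_nonneg_right (by linarith) h0

theorem Y_cont : ContinuousOn Y (Ici 0) := by
  unfold Y
  have h : ∀ x ∈ Ici (0:ℝ), (1 + x) ≠ 0 := by
    intro x hx
    have : (0:ℝ) ≤ x := hx
    positivity
  have h1 : ContinuousOn (fun t : ℝ => Real.log (1 + t)) (Ici 0) :=
    ContinuousOn.log (by fun_prop) h
  have h2 : ContinuousOn (fun t : ℝ => (1 + t)) (Ici 0) := by fun_prop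
  exact (h2.mul h1).pow 2

theorem Y_convex : ConvexOn ℝ (Ici 0) Y := by
  have h1 := Real.convexOn_mul_log
  have h2 := h1.translate_right (1 : ℝ)
  have h3 : ConvexOn ℝ (Ici (0:ℝ)) (fun t : ℝ => (1 + t) * Real.log (1 + t)) := by
    refine ConvexOn.subset h2 ?_ (convex_Ici 0)
    intro x hx
    have : (0:ℝ) ≤ x := hx
    show (0:ℝ) ≤ 1 + x
    linarith
  have h4 := h3.pow (fun x hx => base_nonneg hx) 2
  exact h4

theorem Y_mono : MonotoneOn Y (Ici 0) := by
  intro x hx y hy hxy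
  have hx' : (0:ℝ) ≤ x := hx
  have hy' : (0:ℝ) ≤ y := hy
  unfold Y
  apply pow_le_pow_left₀ (base_nonneg hx')
  apply mul_le_mul (by linarith) (Real.log_le_log (by linarith) (by linarith))
    (Real.log_nonneg (by linarith)) (by linarith)

theorem Y_tendsto : Tendsto (fun t : ℝ => Y t / t) atTop atTop := by
  refine tendsto_atTop_mono' atTop ?_ tendsto_id
  filter_upwards [eventually_gt_atTop (0:ℝ)] with t ht
  rw [id, le_div_iff₀ ht]
  have := Y_ge_sq ht.le
  nlinarith

/-- The conjugate function is bounded above. -/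
theorem conj_bdd (t : ℝ) : BddAbove (range (fun s : Ici (0:ℝ) => t * (s : ℝ) - Y s)) := by
  refine ⟨t ^ 2 / 4, ?_⟩
  rintro _ ⟨s, rfl⟩
  have h := Y_ge_sq s.2
  show t * (s : ℝ) - Y s ≤ _
  nlinarith [sq_nonneg ((s:ℝ) - t / 2)]

/-- the conjugate function -/
noncomputable def Ybar (t : ℝ) : ℝ := ⨆ s : Ici (0:ℝ), (t * (s : ℝ) - Y s)

theorem Ybar_mono : Monotone Ybar := by
  intro a b hab
  unfold Ybar
  apply ciSup_mono (conj_bdd b)
  intro s
  have : (0:ℝ) ≤ s := s.2
  have := mul_le_mul_of_nonneg_right hab this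
  linarith

theorem Ybar_nonneg (t : ℝ) : 0 ≤ Ybar t := by
  unfold Ybar
  refine le_ciSup_of_le (conj_bdd t) ⟨0, by simp⟩ ?_
  simp [Y_zero]

theorem Ybar_le {t : ℝ} (ht : 1 ≤ t) :
    Ybar t ≤ t * Real.sqrt t + 4 * t ^ 2 / (1 + Real.log t) ^ 2 := by
  unfold Ybar
  have ht0 : 0 < t := by linarith
  have hlt : 0 ≤ Real.log t := Real.log_nonneg ht
  have hlt1 : 0 < 1 + Real.log t := by linarith
  have hpos2 : 0 ≤ 4 * t ^ 2 / (1 + Real.log t) ^ 2 := by positivity
  have hpos1 : 0 ≤ t * Real.sqrt t := by positivity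
  have : Nonempty (Ici (0:ℝ)) := ⟨⟨0, by simp⟩⟩
  apply ciSup_le
  intro s
  have hs : (0:ℝ) ≤ s := s.2
  by_cases hc : (s:ℝ) ≤ Real.sqrt t
  · have h1 := mul_le_mul_of_nonneg_left hc ht0.le
    have h2 := Y_nonneg (s:ℝ)
    linarith
  · push Not at hc
    have hsq1 : 1 ≤ Real.sqrt t := by
      rw [show (1:ℝ) = Real.sqrt 1 by simp]
      exact Real.sqrt_le_sqrt ht
    set lam := Real.log (1 + (s:ℝ)) with hlam
    have hl1 : Real.log 2 ≤ lam := Real.log_le_log (by norm_num) (by linarith)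
    have hl2 : Real.log t / 2 ≤ lam := by
      rw [← Real.log_sqrt ht0.le]
      exact Real.log_le_log (by positivity) (by linarith)
    have hlog2 := Real.log_two_gt_d9
    have hl3 : (1 + Real.log t) / 4 ≤ lam := by linarith
    have h2 := Y_ge_log hs
    rw [← hlam] at h2
    -- t s - s² λ² ≤ t²/(4λ²) ≤ 4 t² / (1+log t)²
    set mu := (1 + Real.log t) / 4 with hmu
    have hmu0 : 0 < mu := by positivity
    have h3 : (s:ℝ) ^ 2 * mu ^ 2 ≤ Y s := by
      refine le_trans ?_ h2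
      apply mul_le_mul_of_nonneg_left _ (by positivity)
      exact pow_le_pow_left₀ hmu0.le hl3 2
    have h4 : 4 * t ^ 2 / (1 + Real.log t) ^ 2 = t ^ 2 / (4 * mu ^ 2) := by
      rw [hmu]; field_simp
    rw [h4]
    have h5 : t * s - (s:ℝ) ^ 2 * mu ^ 2 ≤ t ^ 2 / (4 * mu ^ 2) := by
      rw [le_div_iff₀ (by positivity)]
      nlinarith [sq_nonneg (t - 2 * s * mu ^ 2)]
    linarith

theorem log_int : IntegrableOn (fun t : ℝ => 4 / (t * (1 + Real.log t) ^ 2)) (Ioi 1) := by
  have hder : ∀ x ∈ Ioi (1:ℝ), HasDerivAt (fun t : ℝ => -4 / (1 + Real.log t))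
      (4 / (x * (1 + Real.log x) ^ 2)) x := by
    intro x hx
    have hx1 : (1:ℝ) < x := hx
    have hx0 : 0 < x := by linarith
    have hl : 0 < Real.log x := Real.log_pos hx1
    have h1 : HasDerivAt (fun t : ℝ => 1 + Real.log t) x⁻¹ x :=
      (Real.hasDerivAt_log hx0.ne').const_add 1
    have h2 := (hasDerivAt_const x (-4:ℝ)).div h1 (by positivity)
    refine h2.congr_deriv ?_
    field_simp
    ring
  have hcont : ContinuousWithinAt (fun t : ℝ => -4 / (1 + Real.log t)) (Ici 1) 1 := by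
    apply ContinuousAt.continuousWithinAt
    have h1 : ContinuousAt (fun t : ℝ => 1 + Real.log t) 1 :=
      ContinuousAt.add continuousAt_const (Real.continuousAt_log (by norm_num))
    exact ContinuousAt.div continuousAt_const h1 (by simp)
  have hlim : Tendsto (fun t : ℝ => -4 / (1 + Real.log t)) atTop (nhds 0) := by
    apply Tendsto.div_atTop tendsto_const_nhds
    exact tendsto_atTop_add_const_left _ _ Real.tendsto_log_atTop
  refine integrableOn_Ioi_deriv_of_nonneg hcont hder ?_ hlim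
  intro x hx
  have hx1 : (1:ℝ) < x := hx
  have hl : 0 < Real.log x := Real.log_pos hx1
  have : 0 < x := by linarith
  positivity

theorem pow_int : IntegrableOn (fun t : ℝ => t ^ (-(3/2) : ℝ)) (Ioi 1) :=
  integrableOn_Ioi_rpow_of_lt (by norm_num) (by norm_num)

theorem Ybar_int : IntegrableOn (fun t : ℝ => Ybar t / t ^ (2:ℝ) / t) (Ioi 1) := by
  have hb := pow_int.add log_int
  refine Integrable.mono' hb ?_ ?_
  · have h1 : Measurable Ybar := Ybar_mono.measurable
    have h2 : Measurable (fun t : ℝ => Ybar t / t ^ (2:ℝ) / t) := by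
      apply Measurable.div (Measurable.div h1 ?_) measurable_id
      exact measurable_id.pow_const _
    exact h2.aestronglyMeasurable
  · rw [ae_restrict_iff' measurableSet_Ioi]
    apply Eventually.of_forall
    intro t ht
    have ht1 : (1:ℝ) < t := ht
    have ht0 : 0 < t := by linarith
    have hl : 0 < Real.log t := Real.log_pos ht1
    have hnn : 0 ≤ Ybar t / t ^ (2:ℝ) / t := by
      have := Ybar_nonneg t
      positivity
    rw [Real.norm_of_nonneg hnn, Pi.add_apply]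
    have h1 := Ybar_le ht1.le
    have h2 : Ybar t / t ^ (2:ℝ) / t ≤
        (t * Real.sqrt t + 4 * t ^ 2 / (1 + Real.log t) ^ 2) / t ^ (2:ℝ) / t := by
      gcongr
    refine h2.trans (le_of_eq ?_)
    rw [Real.rpow_two]
    have h3 : t ^ (-(3/2) : ℝ) = Real.sqrt t / t ^ 2 := by
      rw [Real.sqrt_eq_rpow, ← Real.rpow_two, ← Real.rpow_sub ht0]
      norm_num
    rw [h3]
    field_simp

end Pool.Agent.Helper66.Frac
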