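import Pool.Agent.Helper66.FracA
import Pool.Agent.Helper66.FracB

set_option autoImplicit false
open MeasureTheory Filter Set

namespace Pool.Agent.Helper66.Frac

/-- The numeric bump inequality on the line. -/
theorem bump_real (a l r : ℝ) (hl : 0 < l) (hr : 0 < r)
    (hK : 8 < Real.sqrt (volume (EE ∩ Ico a (a + l))).toReal * r) :
    (volume (EE ∩ Ico a (a + l))).toReal * Y (1 / r) ≤ l := by
  set h := (volume (EE ∩ Ico a (a + l))).toReal with hh
  have hh0 : 0 ≤ h := ENNReal.toReal_nonneg
  have hle_l : h ≤ l := by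
    have : volume (EE ∩ Ico a (a + l)) ≤ ENNReal.ofReal l := by
      refine (measure_mono inter_subset_right).trans ?_
      rw [Real.volume_Ico]
      simp
    rw [hh]
    exact ENNReal.toReal_le_of_le_ofReal hl.le this
  have hgrow : ∀ m : ℕ, l ≤ 2 * L m → h ≤ 2 ^ m := by
    intro m hm
    have := growth m a l hm
    rw [hh]
    apply ENNReal.toReal_le_of_le_ofReal (by positivity)
    rw [ENNReal.ofReal_pow (by norm_num)]
    norm_num
    exact this
  have hr1 : 1 / r ≤ Real.sqrt h / 8 := by
    rw [div_le_div_iff₀ hr (by norm_num)]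
    linarith
  have hr0 : 0 ≤ 1 / r := by positivity
  -- existence of a scale
  have hex : ∃ m : ℕ, l ≤ 2 * L m := by
    obtain ⟨m, hm⟩ := exists_nat_ge l
    refine ⟨m, ?_⟩
    have h1 : (m : ℝ) ≤ L m := by
      unfold L
      have h2 : (1:ℝ) ≤ 4 ^ m := one_le_pow₀ (by norm_num)
      have h3 : (0:ℝ) ≤ m := Nat.cast_nonneg m
      nlinarith [mul_nonneg (sub_nonneg.mpr h2) (sq_nonneg ((m:ℝ) + 1))]
    have := L_pos m
    linarith
  classical
  set m := Nat.find hex with hm
  have hm1 : l ≤ 2 * L m := Nat.find_spec hex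
  have hH := hgrow m hm1
  rcases Nat.eq_zero_or_pos m with h0 | hpos
  · rw [h0] at hH
    simp only [pow_zero] at hH
    have h1 : Y (1 / r) ≤ 1 := by
      have h2 : Real.sqrt h ≤ 1 := by
        rw [show (1:ℝ) = Real.sqrt 1 by simp]
        exact Real.sqrt_le_sqrt hH
      have h3 : 1 / r ≤ 1 / 8 := by linarith
      unfold Y
      have h4 : Real.log (1 + 1 / r) ≤ 1 / r := by
        have := Real.log_le_sub_one_of_pos (show 0 < 1 + 1 / r by linarith)
        linarith
      have h5 := base_nonneg hr0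
      have h6 : (1 + 1 / r) * Real.log (1 + 1 / r) ≤ 1 := by
        calc (1 + 1 / r) * Real.log (1 + 1 / r) ≤ 2 * (1 / 8) := by
              apply mul_le_mul (by linarith) (by linarith)
                (Real.log_nonneg (by linarith)) (by norm_num)
          _ ≤ 1 := by norm_num
      nlinarith
    have := Y_nonneg (1 / r)
    nlinarith
  · obtain ⟨k, hk⟩ : ∃ k, m = k + 1 := ⟨m - 1, by omega⟩
    have hk2 : ¬ (l ≤ 2 * L k) := Nat.find_min hex (by omega)
    push Not at hk2
    rw [hk] at hH
    set H : ℝ := 2 ^ (k + 1) with hHdef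
    have hH0 : 0 < H := by positivity
    have hH2 : 2 ≤ H := by
      rw [hHdef, pow_succ]
      have : (1:ℝ) ≤ 2 ^ k := one_le_pow₀ (by norm_num)
      linarith
    have hsH : Real.sqrt H * Real.sqrt H = H := Real.mul_self_sqrt hH0.le
    have hsq : Real.sqrt h ≤ Real.sqrt H := Real.sqrt_le_sqrt hH
    have hs0 : 0 ≤ Real.sqrt H := Real.sqrt_nonneg _
    have hs1 : 8 / 7 ≤ Real.sqrt H := by
      apply Real.le_sqrt_of_sq_le
      norm_num
      linarith
    have h1 : 1 + 1 / r ≤ Real.sqrt H := by linarith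
    have h2 : Real.log (1 + 1 / r) ≤ ((k : ℝ) + 1) / 2 := by
      calc Real.log (1 + 1 / r) ≤ Real.log (Real.sqrt H) :=
            Real.log_le_log (by linarith) h1
        _ = Real.log H / 2 := Real.log_sqrt hH0.le
        _ = (((k : ℝ) + 1) * Real.log 2) / 2 := by
            rw [hHdef, Real.log_pow]; push_cast; ring
        _ ≤ ((k : ℝ) + 1) / 2 := by
            have h3 := Real.log_two_lt_d9
            have h4 : (0:ℝ) ≤ k := Nat.cast_nonneg k
            have : ((k : ℝ) + 1) * Real.log 2 ≤ ((k : ℝ) + 1) * 1 :=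
              mul_le_mul_of_nonneg_left (by linarith) (by linarith)
            linarith
    have h5 : Y (1 / r) ≤ H * (((k : ℝ) + 1) / 2) ^ 2 := by
      unfold Y
      rw [mul_pow]
      apply mul_le_mul _ _ (by positivity) hH0.le
      · calc (1 + 1 / r) ^ 2 ≤ Real.sqrt H ^ 2 := pow_le_pow_left₀ (by linarith) h1 2
          _ = H := Real.sq_sqrt hH0.le
      · exact pow_le_pow_left₀ (Real.log_nonneg (by linarith)) h2 2
    have h6 : h * Y (1 / r) ≤ H * (H * (((k : ℝ) + 1) / 2) ^ 2) :=
      mul_le_mul hH h5 (Y_nonneg _) hH0.le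
    have h7 : H * (H * (((k : ℝ) + 1) / 2) ^ 2) = L k := by
      unfold L
      rw [hHdef]
      have : (4:ℝ) ^ k = 2 ^ k * 2 ^ k := by rw [← mul_pow]; norm_num
      rw [this]
      ring
    have := L_pos k
    linarith

end Pool.Agent.Helper66.Frac
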