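import Pool.Agent.Helper66.FracC

set_option autoImplicit false
open MeasureTheory Filter Set

namespace Pool.Agent.Helper66.Frac

/-- first coordinate as a measurable equivalence -/
noncomputable def e1 : EuclideanSpace ℝ (Fin 1) ≃ᵐ ℝ :=
  (MeasurableEquiv.toLp 2 (Fin 1 → ℝ)).symm.trans (MeasurableEquiv.funUnique (Fin 1) ℝ)

theorem e1_apply (x : EuclideanSpace ℝ (Fin 1)) : e1 x = x 0 := rfl

theorem e1_mp : MeasurePreserving e1 (volume : Measure (EuclideanSpace ℝ (Fin 1))) volume := by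
  have h1 := EuclideanSpace.volume_preserving_symm_measurableEquiv_toLp (Fin 1)
  have h2 := volume_preserving_funUnique (Fin 1) ℝ
  exact h2.comp h1

theorem norm_sub_eq (x y : EuclideanSpace ℝ (Fin 1)) : ‖x - y‖ = |e1 x - e1 y| := by
  rw [EuclideanSpace.norm_eq]
  simp [e1_apply, Real.sqrt_sq_eq_abs]

theorem Q_eq (a : Fin 1 → ℝ) (l : ℝ) :
    {x : EuclideanSpace ℝ (Fin 1) | ∀ i, a i ≤ EuclideanSpace.proj i x ∧
      EuclideanSpace.proj i x < a i + l} = e1 ⁻¹' (Ico (a 0) (a 0 + l)) := by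
  ext x
  simp only [mem_preimage, mem_Ico, e1_apply]
  constructor
  · intro h; exact h 0
  · intro h i
    have : i = 0 := Subsingleton.elim _ _
    subst this
    exact h

theorem vol_pre (S : Set ℝ) : volume (e1 ⁻¹' S) = volume S :=
  e1_mp.measure_preimage_equiv S

/-- the weight -/
noncomputable def w (x : EuclideanSpace ℝ (Fin 1)) : ℝ := (e1 ⁻¹' EE).indicator 1 x

theorem w_meas : Measurable w := by
  unfold w
  exact measurable_one.indicator (e1.measurable EE_meas)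

theorem w_nonneg (x : EuclideanSpace ℝ (Fin 1)) : 0 ≤ w x := by
  unfold w
  exact indicator_nonneg (fun _ _ => zero_le_one) x

theorem w_loc : LocallyIntegrable w := by
  have h1 : LocallyIntegrable (fun _ : EuclideanSpace ℝ (Fin 1) => (1:ℝ)) :=
    locallyIntegrable_const 1
  have h2 := h1.indicator (e1.measurable EE_meas)
  exact h2

theorem w_mem {x : EuclideanSpace ℝ (Fin 1)} (h : e1 x ∈ EE) : w x = 1 := by
  unfold w
  rw [indicator_of_mem (show x ∈ e1 ⁻¹' EE from h)]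
  rfl

theorem w_not {x : EuclideanSpace ℝ (Fin 1)} (h : e1 x ∉ EE) : w x = 0 := by
  unfold w
  rw [indicator_of_notMem (show x ∉ e1 ⁻¹' EE from h)]

theorem int_w (a l : ℝ) : ∫ x in e1 ⁻¹' (Ico a (a + l)), w x =
    (volume (EE ∩ Ico a (a + l))).toReal := by
  unfold w
  have h : MeasurableSet (e1 ⁻¹' EE) := e1.measurable EE_meas
  rw [integral_indicator_one h, measureReal_def, Measure.restrict_apply h, ← preimage_inter,
    vol_pre]

/-- The separated bump condition. -/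
theorem bump (a : Fin 1 → ℝ) (l : ℝ) (hl : 0 < l) (r : ℝ) (hr : 0 < r)
    (e : ℝ) (he : e = 1 / 2)
    (hK : 8 < l ^ (1/2 : ℝ) * ((∫ x in {x : EuclideanSpace ℝ (Fin 1) | ∀ i, a i ≤ EuclideanSpace.proj i x ∧
      EuclideanSpace.proj i x < a i + l}, w x) / l ^ 1) ^ e * r) :
    ∫⁻ x in {x : EuclideanSpace ℝ (Fin 1) | ∀ i, a i ≤ EuclideanSpace.proj i x ∧
      EuclideanSpace.proj i x < a i + l}, ENNReal.ofReal (Y (w x ^ e / r)) ≤
      volume {x : EuclideanSpace ℝ (Fin 1) | ∀ i, a i ≤ EuclideanSpace.proj i x ∧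
      EuclideanSpace.proj i x < a i + l} := by
  subst he
  rw [Q_eq] at hK ⊢
  rw [int_w, pow_one, ← Real.mul_rpow hl.le (by positivity), mul_div_cancel₀ _ hl.ne',
    ← Real.sqrt_eq_rpow] at hK
  have h1 := bump_real (a 0) l r hl hr hK
  have hE : MeasurableSet (e1 ⁻¹' EE) := e1.measurable EE_meas
  have h2 : (fun x => ENNReal.ofReal (Y (w x ^ (1/2 : ℝ) / r))) =
      (e1 ⁻¹' EE).indicator (fun _ => ENNReal.ofReal (Y (1 / r))) := by
    funext x
    by_cases hx : e1 x ∈ EE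
    · rw [indicator_of_mem (show x ∈ e1 ⁻¹' EE from hx), w_mem hx, Real.one_rpow]
    · rw [indicator_of_notMem (show x ∉ e1 ⁻¹' EE from hx), w_not hx,
        Real.zero_rpow (by norm_num), zero_div, Y_zero, ENNReal.ofReal_zero]
  rw [h2, lintegral_indicator hE, Measure.restrict_restrict hE, setLIntegral_const,
    ← preimage_inter, vol_pre, vol_pre, Real.volume_Ico]
  have h3 : volume (EE ∩ Ico (a 0) (a 0 + l)) ≠ ⊤ := by
    apply ne_of_lt
    refine (measure_mono inter_subset_right).trans_lt ?_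
    rw [Real.volume_Ico]
    exact ENNReal.ofReal_lt_top
  rw [← ENNReal.ofReal_toReal h3, ← ENNReal.ofReal_mul (Y_nonneg _)]
  apply ENNReal.ofReal_le_ofReal
  rw [mul_comm]
  linarith

/-- potential bound on the Euclidean line -/
theorem potential_eucl (m : ℕ) (x : EuclideanSpace ℝ (Fin 1)) (hx : e1 x ∈ E m)
    (f : EuclideanSpace ℝ (Fin 1) → ℝ) (hf : f = (e1 ⁻¹' (E m)).indicator 1)
    (q : ℝ) (hq : q = -(1/2)) :
    ENNReal.ofReal (∑ i ∈ Finset.range m, 1 / (2 * ((i : ℝ) + 2))) ≤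
      ∫⁻ y, ENNReal.ofReal (f y * w y * ‖x - y‖ ^ q) := by
  refine (potential m (e1 x) hx).trans (le_of_eq ?_)
  subst hf hq
  have hE : MeasurableSet (E m) := E_meas m
  rw [← lintegral_indicator hE]
  rw [← e1_mp.lintegral_comp_emb e1.measurableEmbedding]
  congr 1
  funext y
  by_cases hy : e1 y ∈ E m
  · rw [indicator_of_mem hy, indicator_of_mem (show y ∈ e1 ⁻¹' E m from hy),
      w_mem (mem_iUnion.mpr ⟨m, hy⟩), norm_sub_eq]
    simp
  · rw [indicator_of_notMem hy, indicator_of_notMem (show y ∉ e1 ⁻¹' E m from hy)]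
    simp

theorem ofReal_w_int (m : ℕ) : ∫⁻ x in e1 ⁻¹' (E m), ENNReal.ofReal (w x) = 2 ^ m := by
  have h : ∫⁻ x in e1 ⁻¹' (E m), ENNReal.ofReal (w x) = ∫⁻ x in e1 ⁻¹' (E m), 1 := by
    apply setLIntegral_congr_fun (e1.measurable (E_meas m))
    intro x hx
    show ENNReal.ofReal (w x) = 1
    rw [w_mem (mem_iUnion.mpr ⟨m, hx⟩), ENNReal.ofReal_one]
  rw [h, setLIntegral_const, vol_pre, E_vol, one_mul]

theorem f_int (m : ℕ) (p : ℝ) (hp : 0 < p) :
    ∫⁻ y, ENNReal.ofReal (((e1 ⁻¹' (E m)).indicator 1 y) ^ p * w y) = 2 ^ m := by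
  rw [← ofReal_w_int m, ← lintegral_indicator (e1.measurable (E_meas m))]
  congr 1
  funext y
  by_cases hy : y ∈ e1 ⁻¹' E m
  · rw [indicator_of_mem hy, indicator_of_mem hy]
    simp
  · rw [indicator_of_notMem hy, indicator_of_notMem hy, Real.zero_rpow hp.ne']
    simp

/-- Failure of the strong type bound. -/
theorem strong_fail (q : ℝ) (hq : q = -(1/2)) :
    ¬ ∃ C : ℝ, 0 ≤ C ∧ ∀ f : EuclideanSpace ℝ (Fin 1) → ℝ, Measurable f → (∀ y, 0 ≤ f y) →
          ∫⁻ x, (∫⁻ y, ENNReal.ofReal (f y * w y * ‖x - y‖ ^ q)) ^ (2:ℝ) * ENNReal.ofReal (w x)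
            ≤ ENNReal.ofReal C * ∫⁻ y, ENNReal.ofReal (f y ^ (2:ℝ) * w y) := by
  rintro ⟨C, hC, H⟩
  obtain ⟨m, hm⟩ := (sum_tendsto.eventually_gt_atTop (C + 1)).exists
  set c := ∑ i ∈ Finset.range m, 1 / (2 * ((i : ℝ) + 2)) with hc
  have hEm : MeasurableSet (e1 ⁻¹' (E m)) := e1.measurable (E_meas m)
  have h1 := H ((e1 ⁻¹' (E m)).indicator 1) (measurable_one.indicator hEm)
    (fun y => indicator_nonneg (fun _ _ => zero_le_one) y)
  rw [f_int m 2 (by norm_num)] at h1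
  have h2 : ENNReal.ofReal c ^ (2:ℝ) * 2 ^ m ≤ ENNReal.ofReal C * 2 ^ m := by
    refine le_trans ?_ h1
    calc ENNReal.ofReal c ^ (2:ℝ) * 2 ^ m
        = ENNReal.ofReal c ^ (2:ℝ) * ∫⁻ x in e1 ⁻¹' (E m), ENNReal.ofReal (w x) := by
          rw [ofReal_w_int]
      _ = ∫⁻ x in e1 ⁻¹' (E m), ENNReal.ofReal c ^ (2:ℝ) * ENNReal.ofReal (w x) := by
          rw [lintegral_const_mul]
          exact w_meas.ennreal_ofReal
      _ ≤ ∫⁻ x in e1 ⁻¹' (E m), (∫⁻ y, ENNReal.ofReal ((e1 ⁻¹' (E m)).indicator 1 y * w y *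
            ‖x - y‖ ^ q)) ^ (2:ℝ) * ENNReal.ofReal (w x) := by
          apply setLIntegral_mono' hEm
          intro x hx
          gcongr
          exact potential_eucl m x hx _ rfl q hq
      _ ≤ _ := setLIntegral_le_lintegral _ _
  have h3 : ENNReal.ofReal c ^ (2:ℝ) ≤ ENNReal.ofReal C := by
    have h4 : (2:ENNReal) ^ m ≠ 0 := by positivity
    have h5 : (2:ENNReal) ^ m ≠ ⊤ := ENNReal.pow_ne_top (by norm_num)
    exact (ENNReal.mul_le_mul_iff_left h4 h5).mp h2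
  rw [ENNReal.ofReal_rpow_of_nonneg (by linarith) (by norm_num),
    ENNReal.ofReal_le_ofReal_iff hC, Real.rpow_two] at h3
  nlinarith

/-- Failure of the weak type bound. -/
theorem weak_fail (q : ℝ) (hq : q = -(1/2)) :
    ¬ ∃ C : ℝ, 0 ≤ C ∧ ∀ f : EuclideanSpace ℝ (Fin 1) → ℝ, Measurable f → (∀ y, 0 ≤ f y) →
          ∀ t : ℝ, 0 < t →
            ENNReal.ofReal t ^ (2:ℝ) *
                ∫⁻ x in {x : EuclideanSpace ℝ (Fin 1) | ENNReal.ofReal t <
                    ∫⁻ y, ENNReal.ofReal (f y * w y * ‖x - y‖ ^ q)},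
                  ENNReal.ofReal (w x)
              ≤ ENNReal.ofReal C * ∫⁻ y, ENNReal.ofReal (f y ^ (2:ℝ) * w y) := by
  rintro ⟨C, hC, H⟩
  obtain ⟨m, hm⟩ := (sum_tendsto.eventually_gt_atTop (C + 1)).exists
  set c := ∑ i ∈ Finset.range m, 1 / (2 * ((i : ℝ) + 2)) with hc
  have hEm : MeasurableSet (e1 ⁻¹' (E m)) := e1.measurable (E_meas m)
  have h1 := H ((e1 ⁻¹' (E m)).indicator 1) (measurable_one.indicator hEm)
    (fun y => indicator_nonneg (fun _ _ => zero_le_one) y) (C + 1) (by linarith)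
  rw [f_int m 2 (by norm_num)] at h1
  have h2 : ENNReal.ofReal (C + 1) ^ (2:ℝ) * 2 ^ m ≤ ENNReal.ofReal C * 2 ^ m := by
    refine le_trans ?_ h1
    rw [← ofReal_w_int]
    gcongr
    intro x hx
    refine lt_of_lt_of_le ?_ (potential_eucl m x hx _ rfl q hq)
    exact (ENNReal.ofReal_lt_ofReal_iff (by linarith)).mpr hm
  have h3 : ENNReal.ofReal (C + 1) ^ (2:ℝ) ≤ ENNReal.ofReal C := by
    have h4 : (2:ENNReal) ^ m ≠ 0 := by positivity
    have h5 : (2:ENNReal) ^ m ≠ ⊤ := ENNReal.pow_ne_top (by norm_num)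
    exact (ENNReal.mul_le_mul_iff_left h4 h5).mp h2
  rw [ENNReal.ofReal_rpow_of_nonneg (by linarith) (by norm_num),
    ENNReal.ofReal_le_ofReal_iff hC, Real.rpow_two] at h3
  nlinarith

end Pool.Agent.Helper66.Frac
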