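import Mathlib

set_option autoImplicit false
open MeasureTheory Filter Set Topology
open scoped ENNReal NNReal

namespace Pool.Agent.Helper66.Hilb

noncomputable section

/-- truncated Hilbert transform -/
def T (f : ℝ → ℝ) (δ x : ℝ) : ℝ := (1 / Real.pi) * ∫ y in {y | δ < |y - x|}, f y / (x - y)

/-- limsup of the absolute values of the truncations -/
def absH (f : ℝ → ℝ) (x : ℝ) : ℝ≥0∞ := limsup (fun δ => ‖T f δ x‖ₑ) (𝓝[>] (0:ℝ))

theorem meas_set (δ x : ℝ) : MeasurableSet {y : ℝ | δ < |y - x|} := by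
  apply measurableSet_lt measurable_const
  fun_prop

theorem intOn {f : ℝ → ℝ} (hf : Integrable f) {δ : ℝ} (hδ : 0 < δ) (x : ℝ) :
    IntegrableOn (fun y => f y / (x - y)) {y | δ < |y - x|} := by
  have h1 : Integrable (fun y => |f y| / δ) (volume.restrict {y | δ < |y - x|}) :=
    (hf.abs.div_const δ).integrableOn
  refine Integrable.mono' h1 ?_ ?_
  · apply AEStronglyMeasurable.restrict
    exact (hf.1.aemeasurable.div
      (by fun_prop : Measurable fun y : ℝ => x - y).aemeasurable).aestronglyMeasurable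
  · rw [ae_restrict_iff' (meas_set δ x)]
    refine Eventually.of_forall fun y hy => ?_
    have hy' : δ < |y - x| := hy
    rw [norm_div, Real.norm_eq_abs, Real.norm_eq_abs, abs_sub_comm x y]
    exact div_le_div_of_nonneg_left (abs_nonneg _) hδ hy'.le

theorem T_sub {f g : ℝ → ℝ} (hf : Integrable f) (hg : Integrable g) {δ : ℝ} (hδ : 0 < δ) (x : ℝ) :
    T (fun y => f y - g y) δ x = T f δ x - T g δ x := by
  unfold T
  rw [← mul_sub, ← integral_sub (intOn hf hδ x) (intOn hg hδ x)]
  congr 2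
  funext y
  ring

theorem T_add {f g : ℝ → ℝ} (hf : Integrable f) (hg : Integrable g) {δ : ℝ} (hδ : 0 < δ) (x : ℝ) :
    T (fun y => f y + g y) δ x = T f δ x + T g δ x := by
  unfold T
  rw [← mul_add, ← integral_add (intOn hf hδ x) (intOn hg hδ x)]
  congr 2
  funext y
  ring

theorem T_smul (f : ℝ → ℝ) (c : ℝ) (δ x : ℝ) :
    T (fun y => c * f y) δ x = c * T f δ x := by
  unfold T
  have : (fun y => c * f y / (x - y)) = fun y => c * (f y / (x - y)) := by
    funext y; ring
  rw [this, integral_const_mul]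
  ring

/-- if `g` vanishes near `x` its truncations at `x` are small -/
theorem T_far {g : ℝ → ℝ} (hg : Integrable g) {δ ρ x : ℝ} (hδ : 0 < δ) (hρ : 0 < ρ)
    (h0 : ∀ y, |y - x| < ρ → g y = 0) : |T g δ x| ≤ (∫ y, |g y|) / ρ := by
  unfold T
  rw [abs_mul]
  have h1 : |∫ y in {y | δ < |y - x|}, g y / (x - y)| ≤ (∫ y, |g y|) / ρ := by
    calc |∫ y in {y | δ < |y - x|}, g y / (x - y)|
        ≤ ∫ y in {y | δ < |y - x|}, |g y| / ρ := by
          rw [← Real.norm_eq_abs]
          apply norm_integral_le_of_norm_le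
          · exact (hg.abs.div_const ρ).integrableOn
          · rw [ae_restrict_iff' (meas_set δ x)]
            refine Eventually.of_forall fun y hy => ?_
            have hy' : δ < |y - x| := hy
            rw [norm_div, Real.norm_eq_abs, Real.norm_eq_abs, abs_sub_comm x y]
            by_cases hc : |y - x| < ρ
            · rw [h0 y hc]; simp
            · push Not at hc
              exact div_le_div_of_nonneg_left (abs_nonneg _) hρ hc
      _ ≤ ∫ y, |g y| / ρ := by
          apply setIntegral_le_integral (hg.abs.div_const ρ)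
          exact Eventually.of_forall fun y => by positivity
      _ = _ := by rw [integral_div]
  have h2 : |1 / Real.pi| ≤ 1 := by
    rw [abs_of_pos (by positivity)]
    rw [div_le_one Real.pi_pos]
    linarith [Real.pi_gt_three]
  calc |1 / Real.pi| * |∫ y in {y | δ < |y - x|}, g y / (x - y)|
      ≤ 1 * ((∫ y, |g y|) / ρ) := mul_le_mul h2 h1 (abs_nonneg _) (by norm_num)
    _ = _ := one_mul _

/-- multiplication by `y - a` -/
theorem T_mul {f : ℝ → ℝ} (hf : Integrable f) (a : ℝ) {δ : ℝ} (hδ : 0 < δ) (x : ℝ) :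
    T (fun y => (y - a) * f y) δ x = (x - a) * T f δ x - (1 / Real.pi) * ∫ y in {y | δ < |y - x|}, f y := by
  unfold T
  have h1 : ∫ y in {y | δ < |y - x|}, (y - a) * f y / (x - y) =
      ∫ y in {y | δ < |y - x|}, ((x - a) * (f y / (x - y)) - f y) := by
    apply setIntegral_congr_fun (meas_set δ x)
    intro y hy
    have hy' : δ < |y - x| := hy
    have hne : x - y ≠ 0 := by
      intro h
      have : y - x = 0 := by linarith
      rw [this, abs_zero] at hy'
      linarith
    simp only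
    field_simp
    ring
  rw [h1, integral_sub ((intOn hf hδ x).const_mul _) hf.integrableOn, integral_const_mul]
  ring

/-- the punctured integrals converge to the full integral -/
theorem tendsto_punct {f : ℝ → ℝ} (hf : Integrable f) (x : ℝ) :
    Tendsto (fun δ => ∫ y in {y | δ < |y - x|}, f y) (𝓝[>] (0:ℝ)) (𝓝 (∫ y, f y)) := by
  have h1 : ∀ δ : ℝ, ∫ y in {y | δ < |y - x|}, f y = ∫ y, {y | δ < |y - x|}.indicator f y := by
    intro δ
    rw [integral_indicator (meas_set δ x)]
  simp_rw [h1]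
  apply tendsto_integral_filter_of_dominated_convergence (fun y => |f y|)
  · exact Eventually.of_forall fun δ => hf.1.indicator (meas_set δ x)
  · refine Eventually.of_forall fun δ => Eventually.of_forall fun y => ?_
    rw [← Real.norm_eq_abs]
    exact norm_indicator_le_norm_self f y
  · exact hf.abs
  · have hne : ∀ᵐ y : ℝ, y ≠ x := by
      rw [ae_iff]; simp
    filter_upwards [hne] with y hy
    have hpos : 0 < |y - x| := abs_pos.mpr (sub_ne_zero.mpr hy)
    apply tendsto_const_nhds.congr'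
    filter_upwards [Ioo_mem_nhdsGT hpos] with δ hδ
    rw [indicator_of_mem]
    exact hδ.2

theorem absH_le_add {f h : ℝ → ℝ} {x : ℝ} {c : ℝ≥0∞}
    (H : ∀ᶠ δ in 𝓝[>] (0:ℝ), ‖T f δ x‖ₑ ≤ c + ‖T h δ x‖ₑ) : absH f x ≤ c + absH h x := by
  unfold absH
  calc limsup (fun δ => ‖T f δ x‖ₑ) (𝓝[>] (0:ℝ)) ≤ limsup (fun δ => c + ‖T h δ x‖ₑ) (𝓝[>] (0:ℝ)) :=
        limsup_le_limsup H
    _ = c + limsup (fun δ => ‖T h δ x‖ₑ) (𝓝[>] (0:ℝ)) := by
        apply limsup_const_add
        · isBoundedDefault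
        · isBoundedDefault

theorem absH_const_mul (f : ℝ → ℝ) (c : ℝ) (x : ℝ) :
    absH (fun y => c * f y) x = ‖c‖ₑ * absH f x := by
  unfold absH
  simp_rw [T_smul, enorm_mul]
  exact ENNReal.limsup_const_mul_of_ne_top enorm_ne_top

/-- `absH ((y-a) f) ≤ |x-a| absH f` for mean-zero `f` -/
theorem absH_mul_le {f : ℝ → ℝ} (hf : Integrable f) (h0 : ∫ y, f y = 0) (a x : ℝ) :
    absH (fun y => (y - a) * f y) x ≤ ‖x - a‖ₑ * absH f x := by
  rw [← absH_const_mul]
  apply ENNReal.le_of_forall_pos_le_add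
  intro ε hε _
  rw [add_comm]
  apply absH_le_add
  have h1 := tendsto_punct hf x
  rw [h0] at h1
  have h2 : ∀ᶠ δ in 𝓝[>] (0:ℝ), |∫ y in {y | δ < |y - x|}, f y| < ε := by
    have := (h1.abs).eventually_lt_const (show |(0:ℝ)| < ε by simpa using hε)
    exact this
  filter_upwards [h2, self_mem_nhdsWithin] with δ hδ hδ0
  have hδ0' : 0 < δ := hδ0
  rw [T_mul hf a hδ0' x, T_smul]
  have h3 : ‖(1 / Real.pi) * ∫ y in {y | δ < |y - x|}, f y‖ₑ ≤ ε := by
    rw [← ofReal_norm, norm_mul, Real.norm_eq_abs, Real.norm_eq_abs]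
    have h4 : |1 / Real.pi| ≤ 1 := by
      rw [abs_of_pos (by positivity), div_le_one Real.pi_pos]
      linarith [Real.pi_gt_three]
    have h5 : |1 / Real.pi| * |∫ y in {y | δ < |y - x|}, f y| ≤ ε := by
      calc _ ≤ 1 * (ε:ℝ) := mul_le_mul h4 hδ.le (abs_nonneg _) (by norm_num)
        _ = ε := one_mul _
    calc ENNReal.ofReal _ ≤ ENNReal.ofReal ε := ENNReal.ofReal_le_ofReal h5
      _ = ε := ENNReal.ofReal_coe_nnreal
  calc ‖(x - a) * T f δ x - (1 / Real.pi) * ∫ y in {y | δ < |y - x|}, f y‖ₑ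
      ≤ ‖(x - a) * T f δ x‖ₑ + ‖(1 / Real.pi) * ∫ y in {y | δ < |y - x|}, f y‖ₑ := enorm_sub_le
    _ ≤ ‖(x - a) * T f δ x‖ₑ + ε := by gcongr
    _ = _ := add_comm _ _

/-- `|x-a| absH f ≤ absH ((y-a) f)` for mean-zero `f` -/
theorem absH_mul_ge {f : ℝ → ℝ} (hf : Integrable f) (h0 : ∫ y, f y = 0) (a x : ℝ) :
    ‖x - a‖ₑ * absH f x ≤ absH (fun y => (y - a) * f y) x := by
  rw [← absH_const_mul]
  apply ENNReal.le_of_forall_pos_le_add
  intro ε hε _
  rw [add_comm]
  apply absH_le_add
  have h1 := tendsto_punct hf x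
  rw [h0] at h1
  have h2 : ∀ᶠ δ in 𝓝[>] (0:ℝ), |∫ y in {y | δ < |y - x|}, f y| < ε := by
    have := (h1.abs).eventually_lt_const (show |(0:ℝ)| < ε by simpa using hε)
    exact this
  filter_upwards [h2, self_mem_nhdsWithin] with δ hδ hδ0
  have hδ0' : 0 < δ := hδ0
  rw [T_mul hf a hδ0' x, T_smul]
  have h3 : ‖(1 / Real.pi) * ∫ y in {y | δ < |y - x|}, f y‖ₑ ≤ ε := by
    rw [← ofReal_norm, norm_mul, Real.norm_eq_abs, Real.norm_eq_abs]
    have h4 : |1 / Real.pi| ≤ 1 := by
      rw [abs_of_pos (by positivity), div_le_one Real.pi_pos]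
      linarith [Real.pi_gt_three]
    have h5 : |1 / Real.pi| * |∫ y in {y | δ < |y - x|}, f y| ≤ ε := by
      calc _ ≤ 1 * (ε:ℝ) := mul_le_mul h4 hδ.le (abs_nonneg _) (by norm_num)
        _ = ε := one_mul _
    calc ENNReal.ofReal _ ≤ ENNReal.ofReal ε := ENNReal.ofReal_le_ofReal h5
      _ = ε := ENNReal.ofReal_coe_nnreal
  calc ‖(x - a) * T f δ x‖ₑ
      = ‖((1 / Real.pi) * ∫ y in {y | δ < |y - x|}, f y) + ((x - a) * T f δ x - (1 / Real.pi) * ∫ y in {y | δ < |y - x|}, f y)‖ₑ := by
        congr 1; ring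
    _ ≤ ‖(1 / Real.pi) * ∫ y in {y | δ < |y - x|}, f y‖ₑ +
        ‖(x - a) * T f δ x - (1 / Real.pi) * ∫ y in {y | δ < |y - x|}, f y‖ₑ := enorm_add_le _ _
    _ ≤ _ := by gcongr

/-- truncations are continuous in `x` -/
theorem T_cont {f : ℝ → ℝ} (hf : Integrable f) {δ : ℝ} (hδ : 0 < δ) : Continuous (T f δ) := by
  unfold T
  apply Continuous.mul continuous_const
  have h1 : ∀ x : ℝ, ∫ y in {y | δ < |y - x|}, f y / (x - y) =
      ∫ y, {y | δ < |y - x|}.indicator (fun y => f y / (x - y)) y := by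
    intro x
    rw [integral_indicator (meas_set δ x)]
  simp_rw [h1]
  rw [continuous_iff_continuousAt]
  intro x₀
  apply continuousAt_of_dominated (bound := fun y => |f y| / δ)
  · refine Eventually.of_forall fun x => ?_
    apply AEStronglyMeasurable.indicator _ (meas_set δ x)
    exact (hf.1.aemeasurable.div
      (by fun_prop : Measurable fun y : ℝ => x - y).aemeasurable).aestronglyMeasurable
  · refine Eventually.of_forall fun x => Eventually.of_forall fun y => ?_
    by_cases hy : y ∈ {y | δ < |y - x|}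
    · rw [indicator_of_mem hy]
      have hy' : δ < |y - x| := hy
      rw [norm_div, Real.norm_eq_abs, Real.norm_eq_abs, abs_sub_comm x y]
      exact div_le_div_of_nonneg_left (abs_nonneg _) hδ hy'.le
    · rw [indicator_of_notMem hy]
      simp
      positivity
  · exact hf.abs.div_const δ
  · have hne : ∀ᵐ y : ℝ, y ≠ x₀ + δ ∧ y ≠ x₀ - δ := by
      have a1 : ∀ᵐ y : ℝ, y ≠ x₀ + δ := by rw [ae_iff]; simp
      have a2 : ∀ᵐ y : ℝ, y ≠ x₀ - δ := by rw [ae_iff]; simp
      filter_upwards [a1, a2] with y h1 h2 using ⟨h1, h2⟩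
    filter_upwards [hne] with y hy
    have hne' : |y - x₀| ≠ δ := by
      intro h
      rcases abs_eq hδ.le |>.mp h with h | h
      · exact hy.1 (by linarith)
      · exact hy.2 (by linarith)
    have hc : ContinuousAt (fun x : ℝ => |y - x|) x₀ := by fun_prop
    rcases lt_or_gt_of_ne hne' with h | h
    · -- eventually zero
      have : (fun x => {y | δ < |y - x|}.indicator (fun y => f y / (x - y)) y) =ᶠ[𝓝 x₀] fun _ => 0 := by
        filter_upwards [hc.eventually_lt_const h] with x hx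
        rw [indicator_of_notMem]
        intro hy'
        have : δ < |y - x| := hy'
        linarith
      exact continuousAt_const.congr this.symm
    · have : (fun x => {y | δ < |y - x|}.indicator (fun y => f y / (x - y)) y) =ᶠ[𝓝 x₀]
          fun x => f y / (x - y) := by
        filter_upwards [hc.eventually_const_lt h] with x hx
        rw [indicator_of_mem]
        exact hx
      refine ContinuousAt.congr ?_ this.symm
      apply ContinuousAt.div continuousAt_const (by fun_prop)
      intro h0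
      have : y - x₀ = 0 := by linarith
      rw [this, abs_zero] at h
      linarith

theorem absH_meas {f : ℝ → ℝ} (hf : Integrable f) : Measurable (absH f) := by
  have hbasis := nhdsGT_basis (0:ℝ)
  have h1 : absH f = fun x => ⨅ n : ℕ, ⨆ δ ∈ Ioo (0:ℝ) (1 / ((n:ℝ) + 1)), ‖T f δ x‖ₑ := by
    funext x
    unfold absH
    rw [hbasis.limsup_eq_iInf_iSup]
    apply le_antisymm
    · apply le_iInf
      intro n
      refine iInf₂_le_of_le (1 / ((n:ℝ) + 1)) (by positivity) le_rfl
    · apply le_iInf₂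
      intro a ha
      obtain ⟨n, hn⟩ := exists_nat_one_div_lt ha
      refine iInf_le_of_le n ?_
      apply iSup₂_le
      intro δ hδ
      exact le_iSup₂_of_le δ ⟨hδ.1, hδ.2.trans hn⟩ le_rfl
  rw [h1]
  apply Measurable.iInf
  intro n
  have hl : LowerSemicontinuous (fun x => ⨆ δ ∈ Ioo (0:ℝ) (1 / ((n:ℝ) + 1)), ‖T f δ x‖ₑ) := by
    apply lowerSemicontinuous_biSup
    intro δ hδ
    exact (continuous_enorm.comp (T_cont hf hδ.1)).lowerSemicontinuous
  exact hl.measurable

end

end Pool.Agent.Helper66.Hilb
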