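import Pool.Agent.Helper66.HilbA

set_option autoImplicit false
open MeasureTheory Filter Set Topology
open scoped ENNReal NNReal

namespace Pool.Agent.Helper66.Hilb

noncomputable section

/-- `(∗)` for all mean-zero integrable functions -/
def Adm (p : ℝ) (U : ℝ → ℝ) : Prop := ∃ C : ℝ≥0, ∀ f : ℝ → ℝ, Integrable f → ∫ x, f x = 0 →
  ∫⁻ x, absH f x ^ p * ENNReal.ofReal (U x) ≤ C * ∫⁻ x, ‖f x‖ₑ ^ p * ENNReal.ofReal (U x)

/-- `(∗)` for all integrable functions -/
def HB (p : ℝ) (U : ℝ → ℝ) : Prop := ∃ C : ℝ≥0, ∀ f : ℝ → ℝ, Integrable f →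
  ∫⁻ x, absH f x ^ p * ENNReal.ofReal (U x) ≤ C * ∫⁻ x, ‖f x‖ₑ ^ p * ENNReal.ofReal (U x)

/-- `U^{-1/(p-1)}` with values in `[0,∞]` -/
def sig (p : ℝ) (U : ℝ → ℝ) (x : ℝ) : ℝ≥0∞ := ENNReal.ofReal (U x) ^ (-1 / (p - 1))

theorem fatou {p : ℝ} (hp : 0 < p) {W : ℝ → ℝ} (hW : Measurable W) {f : ℝ → ℝ} {h : ℕ → ℝ → ℝ}
    (hh : ∀ n, Integrable (h n)) (A : ℝ≥0∞)
    (hA : ∀ n, ∫⁻ x, absH (h n) x ^ p * ENNReal.ofReal (W x) ≤ A)
    (hconv : ∀ᵐ x : ℝ, ∀ ε : ℝ≥0, 0 < ε → ∀ᶠ n in atTop, absH f x ≤ ε + absH (h n) x) :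
    ∫⁻ x, absH f x ^ p * ENNReal.ofReal (W x) ≤ A := by
  have h1 : ∀ᵐ x : ℝ, absH f x ^ p * ENNReal.ofReal (W x) ≤
      liminf (fun n => absH (h n) x ^ p * ENNReal.ofReal (W x)) atTop := by
    filter_upwards [hconv] with x hx
    have h2 : absH f x ≤ liminf (fun n => absH (h n) x) atTop := by
      apply ENNReal.le_of_forall_pos_le_add
      intro ε hε _
      rw [← tsub_le_iff_right]
      apply le_liminf_of_le
      · isBoundedDefault
      · filter_upwards [hx ε hε] with n hn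
        rw [tsub_le_iff_left]
        exact hn
    have hmono : Monotone (fun t : ℝ≥0∞ => t ^ p * ENNReal.ofReal (W x)) := by
      intro a b hab
      simp only
      gcongr
    have hcont : Continuous (fun t : ℝ≥0∞ => t ^ p * ENNReal.ofReal (W x)) := by
      apply ENNReal.continuous_mul_const ENNReal.ofReal_ne_top |>.comp
      exact ENNReal.continuous_rpow_const
    calc absH f x ^ p * ENNReal.ofReal (W x)
        ≤ (liminf (fun n => absH (h n) x) atTop) ^ p * ENNReal.ofReal (W x) := hmono h2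
      _ = liminf (fun n => absH (h n) x ^ p * ENNReal.ofReal (W x)) atTop :=
          hmono.map_liminf_of_continuousAt _ hcont.continuousAt
  calc ∫⁻ x, absH f x ^ p * ENNReal.ofReal (W x)
      ≤ ∫⁻ x, liminf (fun n => absH (h n) x ^ p * ENNReal.ofReal (W x)) atTop :=
        lintegral_mono_ae h1
    _ ≤ liminf (fun n => ∫⁻ x, absH (h n) x ^ p * ENNReal.ofReal (W x)) atTop := by
        apply lintegral_liminf_le
        intro n
        exact ((absH_meas (hh n)).pow_const p).mul hW.ennreal_ofReal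
    _ ≤ A := by
        apply liminf_le_of_le
        · isBoundedDefault
        · intro b hb
          obtain ⟨n, hn⟩ := hb.exists
          exact hn.trans (hA n)

theorem le_of_eta {X K N : ℝ≥0∞} (hK : K ≠ ⊤)
    (h : ∀ η : ℝ, 0 < η → X ≤ K * (N + ENNReal.ofReal η)) : X ≤ K * N := by
  have h1 : Tendsto (fun η : ℝ => K * (N + ENNReal.ofReal η)) (𝓝[>] (0:ℝ)) (𝓝 (K * (N + ENNReal.ofReal 0))) := by
    apply Tendsto.mono_left _ nhdsWithin_le_nhds
    apply ENNReal.Tendsto.const_mul _ (Or.inr hK)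
    apply Tendsto.const_add
    exact (ENNReal.continuous_ofReal.tendsto 0)
  rw [ENNReal.ofReal_zero, add_zero] at h1
  apply ge_of_tendsto h1
  filter_upwards [self_mem_nhdsWithin] with η hη
  exact h η hη

theorem sum_pow_le {p : ℝ} (hp : 1 ≤ p) {U : ℝ → ℝ} (hU : Measurable U) {f g : ℝ → ℝ}
    (hg : Integrable g) :
    ∫⁻ x, ‖f x - g x‖ₑ ^ p * ENNReal.ofReal (U x) ≤
      2 ^ (p - 1) * ((∫⁻ x, ‖f x‖ₑ ^ p * ENNReal.ofReal (U x)) +
        ∫⁻ x, ‖g x‖ₑ ^ p * ENNReal.ofReal (U x)) := by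
  rw [← lintegral_add_right']
  · rw [← lintegral_const_mul' _ _ (by
      apply ENNReal.rpow_ne_top_of_nonneg (by linarith) (by norm_num))]
    apply lintegral_mono
    intro x
    simp only
    rw [← add_mul, ← mul_assoc]
    gcongr
    calc ‖f x - g x‖ₑ ^ p ≤ (‖f x‖ₑ + ‖g x‖ₑ) ^ p := by
          gcongr
          exact enorm_sub_le
      _ ≤ _ := ENNReal.rpow_add_le_mul_rpow_add_rpow _ _ hp
  · apply AEMeasurable.mul _ hU.ennreal_ofReal.aemeasurable
    exact (hg.1.enorm).pow_const p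

/-- functions with prescribed integral and small norm, supported where `sig` is not integrable -/
theorem small {p : ℝ} (hp : 1 < p) {U : ℝ → ℝ} (hU : Measurable U) (hU0 : ∀ x, 0 ≤ U x)
    {E : Set ℝ} (hE : MeasurableSet E) (hinf : ∫⁻ x in E, sig p U x = ⊤) (c η : ℝ) (hη : 0 < η) :
    ∃ g : ℝ → ℝ, Integrable g ∧ (∀ x, x ∉ E → g x = 0) ∧ ∫ x, g x = c ∧ ∫ x, |g x| = |c| ∧
      ∫⁻ x, ‖g x‖ₑ ^ p * ENNReal.ofReal (U x) ≤ ENNReal.ofReal η := by
  set q : ℝ := -1 / (p - 1) with hq
  have hp1 : 0 < p - 1 := by linarith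
  have hq0 : q < 0 := by rw [hq]; exact div_neg_of_neg_of_pos (by norm_num) hp1
  have hpos : ∀ (n : ℕ) (x : ℝ), 0 < U x + 1 / ((n:ℝ) + 1) := fun n x => by
    have := hU0 x; positivity
  set s : ℕ → ℝ → ℝ := fun n x => (U x + 1 / ((n:ℝ) + 1)) ^ q with hs
  have hs0 : ∀ n x, 0 < s n x := fun n x => Real.rpow_pos_of_pos (hpos n x) q
  have hsm : ∀ n, Measurable (s n) := fun n => (hU.add_const _).pow_const q
  set En : ℕ → Set ℝ := fun n => E ∩ Icc (-(n:ℝ)) n with hEn
  have hEnm : ∀ n, MeasurableSet (En n) := fun n => hE.inter measurableSet_Icc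
  set F : ℕ → ℝ → ℝ≥0∞ := fun n => (En n).indicator (fun x => ENNReal.ofReal (s n x)) with hF
  have hFm : ∀ n, Measurable (F n) := fun n => (hsm n).ennreal_ofReal.indicator (hEnm n)
  have hlim : ∀ x, Tendsto (fun n => F n x) atTop (𝓝 (E.indicator (sig p U) x)) := by
    intro x
    by_cases hx : x ∈ E
    · rw [indicator_of_mem hx]
      have h1 : Tendsto (fun n : ℕ => ENNReal.ofReal (U x + 1 / ((n:ℝ) + 1)) ^ q) atTop
          (𝓝 (ENNReal.ofReal (U x) ^ q)) := by
        have h2 : Tendsto (fun n : ℕ => ENNReal.ofReal (U x + 1 / ((n:ℝ) + 1))) atTop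
            (𝓝 (ENNReal.ofReal (U x))) := by
          apply ENNReal.tendsto_ofReal
          have := tendsto_one_div_add_atTop_nhds_zero_nat (𝕜 := ℝ)
          simpa using this.const_add (U x)
        exact (ENNReal.continuous_rpow_const.tendsto _).comp h2
      refine h1.congr' ?_
      obtain ⟨m, hm⟩ := exists_nat_ge |x|
      filter_upwards [eventually_ge_atTop m] with n hn
      have hmn : (m:ℝ) ≤ n := by exact_mod_cast hn
      have hxn : x ∈ En n := ⟨hx, abs_le.mp (hm.trans hmn)⟩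
      rw [hF]
      simp only
      rw [indicator_of_mem hxn, ENNReal.ofReal_rpow_of_pos (hpos n x)]
    · rw [indicator_of_notMem hx]
      apply tendsto_const_nhds.congr
      intro n
      rw [hF]
      simp only
      rw [indicator_of_notMem (fun h => hx h.1)]
  have htop : liminf (fun n => ∫⁻ x, F n x) atTop = ⊤ := by
    rw [eq_top_iff, ← hinf, ← lintegral_indicator hE]
    refine le_trans (le_of_eq ?_) (lintegral_liminf_le hFm)
    congr 1
    funext x
    exact (hlim x).liminf_eq.symm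
  -- choice of size
  have hS0 : ∃ S₀ : ℝ, 0 < S₀ ∧ ∀ S, S₀ ≤ S → |c| ^ p * S ^ (-(p - 1)) ≤ η := by
    have h1 : Tendsto (fun S : ℝ => |c| ^ p * S ^ (-(p - 1))) atTop (𝓝 (|c| ^ p * 0)) :=
      (tendsto_rpow_neg_atTop hp1).const_mul _
    rw [mul_zero] at h1
    have h2 := h1.eventually_le_const hη
    obtain ⟨S₁, hS₁⟩ := eventually_atTop.mp h2
    exact ⟨max S₁ 1, by positivity, fun S hS => hS₁ S ((le_max_left _ _).trans hS)⟩
  obtain ⟨S₀, hS₀, hS⟩ := hS0
  obtain ⟨n, hn⟩ : ∃ n, ENNReal.ofReal S₀ < ∫⁻ x, F n x := by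
    have h1 : ENNReal.ofReal S₀ < liminf (fun n => ∫⁻ x, F n x) atTop := by
      rw [htop]; exact ENNReal.ofReal_lt_top
    exact (eventually_lt_of_lt_liminf h1 (by isBoundedDefault)).exists
  -- integrability
  have hbd : ∀ x, s n x ≤ (1 / ((n:ℝ) + 1)) ^ q := by
    intro x
    apply Real.rpow_le_rpow_of_nonpos (by positivity) _ hq0.le
    have := hU0 x; linarith
  have hint : Integrable ((En n).indicator (s n)) := by
    rw [integrable_indicator_iff (hEnm n)]
    apply Measure.integrableOn_of_bounded (M := (1 / ((n:ℝ) + 1)) ^ q)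
    · apply ne_of_lt
      refine (measure_mono inter_subset_right).trans_lt ?_
      rw [Real.volume_Icc]
      exact ENNReal.ofReal_lt_top
    · exact (hsm n).aestronglyMeasurable
    · refine Eventually.of_forall fun x => ?_
      rw [Real.norm_of_nonneg (hs0 n x).le]
      exact hbd x
  set S := ∫ x, (En n).indicator (s n) x with hSdef
  have hnn : ∀ x, 0 ≤ (En n).indicator (s n) x := fun x =>
    indicator_nonneg (fun y _ => (hs0 n y).le) x
  have hFS : ∫⁻ x, F n x = ENNReal.ofReal S := by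
    rw [hSdef, ofReal_integral_eq_lintegral_ofReal hint (Eventually.of_forall hnn)]
    congr 1
    funext x
    rw [hF]
    simp only
    by_cases hx : x ∈ En n
    · rw [indicator_of_mem hx, indicator_of_mem hx]
    · rw [indicator_of_notMem hx, indicator_of_notMem hx, ENNReal.ofReal_zero]
  have hSS : S₀ ≤ S := by
    rw [hFS] at hn
    exact ((ENNReal.ofReal_lt_ofReal_iff_of_nonneg hS₀.le).mp hn).le
  have hSpos : 0 < S := hS₀.trans_le hSS
  refine ⟨fun x => (c / S) * (En n).indicator (s n) x, hint.const_mul _, ?_, ?_, ?_, ?_⟩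
  · intro x hx
    simp only
    rw [indicator_of_notMem (fun h => hx h.1), mul_zero]
  · rw [integral_const_mul, ← hSdef]
    field_simp
  · have : ∀ x, |(c / S) * (En n).indicator (s n) x| = (|c| / S) * (En n).indicator (s n) x := by
      intro x
      rw [abs_mul, abs_div, abs_of_pos hSpos, abs_of_nonneg (hnn x)]
    simp_rw [this]
    rw [integral_const_mul, ← hSdef]
    field_simp
  · have hptw : ∀ x, ‖(c / S) * (En n).indicator (s n) x‖ₑ ^ p * ENNReal.ofReal (U x) ≤
        ENNReal.ofReal ((|c| / S) ^ p) * F n x := by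
      intro x
      by_cases hx : x ∈ En n
      · rw [hF]
        simp only
        rw [indicator_of_mem hx, indicator_of_mem hx, ← ofReal_norm, Real.norm_eq_abs, abs_mul,
          abs_div, abs_of_pos hSpos, abs_of_pos (hs0 n x),
          ENNReal.ofReal_rpow_of_nonneg (by have := (hs0 n x).le; positivity) (by linarith),
          ← ENNReal.ofReal_mul (by have := (hs0 n x).le; positivity),
          ← ENNReal.ofReal_mul (by positivity)]
        apply ENNReal.ofReal_le_ofReal
        rw [Real.mul_rpow (by positivity) (hs0 n x).le, mul_assoc]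
        apply mul_le_mul_of_nonneg_left _ (by positivity)
        -- s^p U ≤ s
        have h1 : s n x ^ p = s n x * (U x + 1 / ((n:ℝ) + 1))⁻¹ := by
          have h2 : s n x ^ p = s n x ^ (1:ℝ) * s n x ^ (p - 1) := by
            rw [← Real.rpow_add (hs0 n x)]; congr 1; ring
          rw [h2, Real.rpow_one]
          congr 1
          rw [hs]
          simp only
          rw [← Real.rpow_mul (hpos n x).le, ← Real.rpow_neg_one]
          congr 1
          rw [hq]; field_simp
        rw [h1, mul_assoc]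
        have h3 : (U x + 1 / ((n:ℝ) + 1))⁻¹ * U x ≤ 1 := by
          rw [inv_mul_le_iff₀ (hpos n x), mul_one]
          have : (0:ℝ) < 1 / ((n:ℝ) + 1) := by positivity
          linarith
        calc s n x * ((U x + 1 / ((n:ℝ) + 1))⁻¹ * U x) ≤ s n x * 1 :=
              mul_le_mul_of_nonneg_left h3 (hs0 n x).le
          _ = s n x := mul_one _
      · rw [indicator_of_notMem hx, mul_zero, enorm_zero, ENNReal.zero_rpow_of_pos (by linarith),
          zero_mul]
        exact bot_le
    calc ∫⁻ x, ‖(c / S) * (En n).indicator (s n) x‖ₑ ^ p * ENNReal.ofReal (U x)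
        ≤ ∫⁻ x, ENNReal.ofReal ((|c| / S) ^ p) * F n x := lintegral_mono hptw
      _ = ENNReal.ofReal ((|c| / S) ^ p) * ENNReal.ofReal S := by
          rw [lintegral_const_mul _ (hFm n), hFS]
      _ ≤ ENNReal.ofReal η := by
          rw [← ENNReal.ofReal_mul (by positivity)]
          apply ENNReal.ofReal_le_ofReal
          refine le_trans (le_of_eq ?_) (hS S hSS)
          rw [Real.div_rpow (abs_nonneg c) hSpos.le, neg_sub, Real.rpow_sub hSpos, Real.rpow_one]
          ring

theorem caseA {p : ℝ} (hp : 1 < p) {U : ℝ → ℝ} (hU : Measurable U) (hU0 : ∀ x, 0 ≤ U x)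
    (hinf : ∀ n : ℕ, ∫⁻ x in {x : ℝ | (n:ℝ) < |x|}, sig p U x = ⊤) (hA : Adm p U) : HB p U := by
  obtain ⟨C, hC⟩ := hA
  have h2p : (2:ℝ≥0∞) ^ (p - 1) ≠ ⊤ := ENNReal.rpow_ne_top_of_nonneg (by linarith) (by norm_num)
  refine ⟨C * ((2:ℝ≥0∞) ^ (p - 1)).toNNReal, fun f hf => ?_⟩
  rw [ENNReal.coe_mul, ENNReal.coe_toNNReal h2p]
  apply le_of_eta (ENNReal.mul_ne_top ENNReal.coe_ne_top h2p)
  intro η hη
  have hmeas : ∀ n : ℕ, MeasurableSet {x : ℝ | (n:ℝ) < |x|} := fun n =>
    measurableSet_lt measurable_const (by fun_prop)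
  choose g hg1 hg2 hg3 hg4 hg5 using fun n : ℕ => small hp hU hU0 (hmeas n) (hinf n) (∫ x, f x) η hη
  apply fatou (by linarith) hU (h := fun n x => f x - g n x) (fun n => hf.sub (hg1 n))
  · intro n
    refine (hC _ (hf.sub (hg1 n)) ?_).trans ?_
    · rw [integral_sub' hf (hg1 n), hg3 n, sub_self]
    · rw [mul_assoc]
      gcongr
      refine (sum_pow_le hp.le hU (hg1 n)).trans ?_
      gcongr
      exact hg5 n
  · refine Eventually.of_forall fun x ε hε => ?_
    obtain ⟨m, hm⟩ := exists_nat_gt (|x| + (|∫ x, f x|) / ε)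
    filter_upwards [eventually_ge_atTop m] with n hn
    have hmn : (m:ℝ) ≤ n := by exact_mod_cast hn
    have hε' : (0:ℝ) < ε := hε
    apply absH_le_add
    filter_upwards [self_mem_nhdsWithin] with δ hδ
    have hδ0 : 0 < δ := hδ
    have hρ : 0 < (n:ℝ) - |x| := by
      have : 0 ≤ (|∫ x, f x|) / ε := by positivity
      linarith
    have hfar := T_far (hg1 n) hδ0 hρ (x := x) (fun y hy => hg2 n y (by
      intro h
      have h1 : (n:ℝ) < |y| := h
      have h2 : |y| ≤ |y - x| + |x| := by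
        calc |y| = |(y - x) + x| := by ring_nf
          _ ≤ _ := abs_add_le _ _
      linarith))
    rw [hg4 n] at hfar
    have h3 : (|∫ x, f x|) / ((n:ℝ) - |x|) ≤ ε := by
      rw [div_le_iff₀ hρ]
      have : (|∫ x, f x|) / ε ≤ (n:ℝ) - |x| := by linarith
      rw [div_le_iff₀ hε'] at this
      linarith
    have h4 : T f δ x = T (g n) δ x + T (fun y => f y - g n y) δ x := by
      rw [T_sub hf (hg1 n) hδ0]; ring
    rw [h4]
    refine (enorm_add_le _ _).trans ?_
    gcongr
    rw [← ofReal_norm, Real.norm_eq_abs]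
    calc ENNReal.ofReal |T (g n) δ x| ≤ ENNReal.ofReal ε := ENNReal.ofReal_le_ofReal (hfar.trans h3)
      _ = ε := ENNReal.ofReal_coe_nnreal

end

end Pool.Agent.Helper66.Hilb
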