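import Pool.Agent.Helper66.HilbB

set_option autoImplicit false
open MeasureTheory Filter Set Topology
open scoped ENNReal NNReal

namespace Pool.Agent.Helper66.Hilb

noncomputable section

theorem enorm_rpow_abs (a : ℝ) {p : ℝ} (hp : 0 ≤ p) : ‖a‖ₑ ^ p = ENNReal.ofReal (|a| ^ p) := by
  rw [← ofReal_norm, Real.norm_eq_abs, ENNReal.ofReal_rpow_of_nonneg (abs_nonneg a) hp]

/-- the case of a singularity of `sig` at a point -/
theorem caseB {p : ℝ} (hp : 1 < p) {U : ℝ → ℝ} (hU : Measurable U) (hU0 : ∀ x, 0 ≤ U x) (x₀ : ℝ)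
    (hinf : ∀ ε : ℝ, 0 < ε → ∫⁻ x in {x : ℝ | |x - x₀| < ε}, sig p U x = ⊤) (hA : Adm p U) :
    HB p (fun x => U x / |x - x₀| ^ p) := by
  obtain ⟨C, hC⟩ := hA
  have hp0 : 0 < p := by linarith
  have h2p : (2:ℝ≥0∞) ^ (p - 1) ≠ ⊤ := ENNReal.rpow_ne_top_of_nonneg (by linarith) (by norm_num)
  have hW : Measurable (fun x => U x / |x - x₀| ^ p) := by
    apply hU.div
    exact (by fun_prop : Measurable fun x : ℝ => |x - x₀|).pow_const p
  refine ⟨C * ((2:ℝ≥0∞) ^ (p - 1)).toNNReal, fun f hf => ?_⟩
  rw [ENNReal.coe_mul, ENNReal.coe_toNNReal h2p]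
  apply le_of_eta (ENNReal.mul_ne_top ENNReal.coe_ne_top h2p)
  intro η hη
  have hmeas : ∀ ε : ℝ, MeasurableSet {x : ℝ | |x - x₀| < ε} := fun ε =>
    measurableSet_lt (by fun_prop) measurable_const
  -- truncated quotient
  set F : ℕ → ℝ → ℝ := fun n y => {y : ℝ | |y - x₀| < 1 / ((n:ℝ) + 1)}ᶜ.indicator
    (fun y => f y / (y - x₀)) y with hF
  have hFint : ∀ n, Integrable (F n) := by
    intro n
    rw [hF]
    simp only
    rw [integrable_indicator_iff (hmeas _).compl]
    have h1 : IntegrableOn (fun y => |f y| * ((n:ℝ) + 1)) {y : ℝ | |y - x₀| < 1 / ((n:ℝ) + 1)}ᶜ :=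
      (hf.abs.mul_const _).integrableOn
    refine Integrable.mono' h1 ?_ ?_
    · apply AEStronglyMeasurable.restrict
      exact (hf.1.aemeasurable.div
        (by fun_prop : Measurable fun y : ℝ => y - x₀).aemeasurable).aestronglyMeasurable
    · rw [ae_restrict_iff' (hmeas _).compl]
      refine Eventually.of_forall fun y hy => ?_
      have hy' : 1 / ((n:ℝ) + 1) ≤ |y - x₀| := not_lt.mp hy
      have hpos : 0 < |y - x₀| := lt_of_lt_of_le (by positivity) hy'
      rw [norm_div, Real.norm_eq_abs, Real.norm_eq_abs, div_le_iff₀ hpos]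
      have h2 : 1 ≤ ((n:ℝ) + 1) * |y - x₀| := by
        rw [div_le_iff₀ (by positivity)] at hy'
        linarith
      calc |f y| = |f y| * 1 := (mul_one _).symm
        _ ≤ |f y| * (((n:ℝ) + 1) * |y - x₀|) := mul_le_mul_of_nonneg_left h2 (abs_nonneg _)
        _ = _ := by ring
  set r : ℕ → ℝ := fun n => 1 / (((n:ℝ) + 1) * (1 + |∫ y, F n y|)) with hr
  have hrpos : ∀ n, 0 < r n := fun n => by
    have : 0 ≤ |∫ y, F n y| := abs_nonneg _
    positivity
  have hrle : ∀ n, r n ≤ 1 / ((n:ℝ) + 1) := by
    intro n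
    rw [hr]
    apply one_div_le_one_div_of_le (by positivity)
    have : 0 ≤ |∫ y, F n y| := abs_nonneg _
    nlinarith [(by positivity : (0:ℝ) ≤ (n:ℝ) + 1)]
  choose g hg1 hg2 hg3 hg4 hg5 using fun n : ℕ =>
    small hp hU hU0 (hmeas (r n)) (hinf (r n) (hrpos n)) (∫ x, F n x) η hη
  set h : ℕ → ℝ → ℝ := fun n y => (y - x₀) * (F n y - g n y) with hh
  have hFg : ∀ n, Integrable (fun y => F n y - g n y) := fun n => (hFint n).sub (hg1 n)
  have hmz : ∀ n, ∫ y, (F n y - g n y) = 0 := by
    intro n
    rw [integral_sub (hFint n) (hg1 n), hg3 n, sub_self]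
  have hyF : ∀ n, ∀ y, (y - x₀) * F n y = {y : ℝ | |y - x₀| < 1 / ((n:ℝ) + 1)}ᶜ.indicator f y := by
    intro n y
    rw [hF]
    simp only
    by_cases hy : y ∈ {y : ℝ | |y - x₀| < 1 / ((n:ℝ) + 1)}ᶜ
    · rw [indicator_of_mem hy, indicator_of_mem hy]
      have hy' : 1 / ((n:ℝ) + 1) ≤ |y - x₀| := not_lt.mp hy
      have hpos : 0 < |y - x₀| := lt_of_lt_of_le (by positivity) hy'
      have : y - x₀ ≠ 0 := abs_pos.mp hpos
      field_simp
    · rw [indicator_of_notMem hy, indicator_of_notMem hy, mul_zero]
  have hyg : ∀ n, Integrable (fun y => (y - x₀) * g n y) := by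
    intro n
    refine Integrable.mono' ((hg1 n).abs.const_mul (r n)) ?_ ?_
    · exact ((by fun_prop : Measurable fun y : ℝ => y - x₀).aemeasurable.mul
        (hg1 n).1.aemeasurable).aestronglyMeasurable
    · refine Eventually.of_forall fun y => ?_
      rw [norm_mul, Real.norm_eq_abs, Real.norm_eq_abs]
      by_cases hy : |y - x₀| < r n
      · exact mul_le_mul_of_nonneg_right hy.le (abs_nonneg _)
      · rw [hg2 n y hy]; simp
  have hhint : ∀ n, Integrable (h n) := by
    intro n
    have : h n = fun y => {y : ℝ | |y - x₀| < 1 / ((n:ℝ) + 1)}ᶜ.indicator f y - (y - x₀) * g n y := by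
      funext y
      rw [hh]
      simp only
      rw [mul_sub, hyF n y]
    rw [this]
    exact (hf.indicator (hmeas _).compl).sub (hyg n)
  apply fatou hp0 hW (h := h) hhint
  · intro n
    calc ∫⁻ x, absH (h n) x ^ p * ENNReal.ofReal (U x / |x - x₀| ^ p)
        ≤ ∫⁻ x, absH (fun y => F n y - g n y) x ^ p * ENNReal.ofReal (U x) := by
          apply lintegral_mono
          intro x
          simp only
          have h1 := absH_mul_le (hFg n) (hmz n) x₀ x
          calc absH (h n) x ^ p * ENNReal.ofReal (U x / |x - x₀| ^ p)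
              ≤ (‖x - x₀‖ₑ * absH (fun y => F n y - g n y) x) ^ p *
                ENNReal.ofReal (U x / |x - x₀| ^ p) := by gcongr
            _ = absH (fun y => F n y - g n y) x ^ p *
                (ENNReal.ofReal (|x - x₀| ^ p) * ENNReal.ofReal (U x / |x - x₀| ^ p)) := by
                rw [ENNReal.mul_rpow_of_nonneg _ _ hp0.le, enorm_rpow_abs _ hp0.le]
                ring
            _ ≤ absH (fun y => F n y - g n y) x ^ p * ENNReal.ofReal (U x) := by
                rw [← ENNReal.ofReal_mul (by positivity)]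
                gcongr
                rcases eq_or_ne (|x - x₀| ^ p) 0 with h0 | h0
                · rw [h0]; simpa using hU0 x
                · rw [mul_div_cancel₀ _ h0]
      _ ≤ C * ∫⁻ x, ‖F n x - g n x‖ₑ ^ p * ENNReal.ofReal (U x) := hC _ (hFg n) (hmz n)
      _ ≤ C * (2 ^ (p - 1) * ((∫⁻ x, ‖F n x‖ₑ ^ p * ENNReal.ofReal (U x)) +
            ∫⁻ x, ‖g n x‖ₑ ^ p * ENNReal.ofReal (U x))) := by
          gcongr
          exact sum_pow_le hp.le hU (hg1 n)
      _ ≤ C * 2 ^ (p - 1) * ((∫⁻ x, ‖f x‖ₑ ^ p * ENNReal.ofReal (U x / |x - x₀| ^ p)) +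
            ENNReal.ofReal η) := by
          rw [mul_assoc]
          refine mul_le_mul' le_rfl (mul_le_mul' le_rfl (add_le_add (lintegral_mono fun x => ?_)
            (hg5 n)))
          · -- F^p U ≤ f^p W
            simp only
            rw [enorm_rpow_abs _ hp0.le, enorm_rpow_abs _ hp0.le,
              ← ENNReal.ofReal_mul (by positivity), ← ENNReal.ofReal_mul (by positivity)]
            apply ENNReal.ofReal_le_ofReal
            rw [hF]
            simp only
            by_cases hy : x ∈ {y : ℝ | |y - x₀| < 1 / ((n:ℝ) + 1)}ᶜ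
            · rw [indicator_of_mem hy, abs_div, Real.div_rpow (abs_nonneg _) (abs_nonneg _)]
              apply le_of_eq
              ring
            · rw [indicator_of_notMem hy, abs_zero, Real.zero_rpow hp0.ne', zero_mul]
              have := hU0 x
              positivity
  · have hne : ∀ᵐ x : ℝ, x ≠ x₀ := by rw [ae_iff]; simp
    filter_upwards [hne] with x hx ε hε
    have hd : 0 < |x - x₀| := abs_pos.mpr (sub_ne_zero.mpr hx)
    -- the difference f - h n
    have hdiff : ∀ n y, f y - h n y = {y : ℝ | |y - x₀| < 1 / ((n:ℝ) + 1)}.indicator f y +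
        (y - x₀) * g n y := by
      intro n y
      rw [hh]
      simp only
      rw [mul_sub, hyF n y]
      have := Set.indicator_self_add_compl {y : ℝ | |y - x₀| < 1 / ((n:ℝ) + 1)} f
      have h2 := congrFun this y
      simp only [Pi.add_apply] at h2
      linarith
    -- L1 norms
    have hlim1 : Tendsto (fun n : ℕ => ∫ y, |{y : ℝ | |y - x₀| < 1 / ((n:ℝ) + 1)}.indicator f y|)
        atTop (𝓝 0) := by
      have : (0:ℝ) = ∫ y : ℝ, (0:ℝ) := by simp
      rw [this]
      apply tendsto_integral_of_dominated_convergence (fun y => |f y|)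
      · intro n
        exact (hf.1.indicator (hmeas _)).norm
      · exact hf.abs
      · intro n
        refine Eventually.of_forall fun y => ?_
        rw [Real.norm_eq_abs, abs_abs, ← Real.norm_eq_abs, ← Real.norm_eq_abs]
        exact norm_indicator_le_norm_self f y
      · filter_upwards [(by rw [ae_iff]; simp : ∀ᵐ y : ℝ, y ≠ x₀)] with y hy
        have hd' : 0 < |y - x₀| := abs_pos.mpr (sub_ne_zero.mpr hy)
        apply tendsto_const_nhds.congr'
        have := tendsto_one_div_add_atTop_nhds_zero_nat (𝕜 := ℝ)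
        filter_upwards [this.eventually_lt_const hd'] with n hn
        rw [indicator_of_notMem]
        · simp
        · intro h
          have : |y - x₀| < 1 / ((n:ℝ) + 1) := h
          linarith
    have hlim2 : Tendsto (fun n : ℕ => 1 / ((n:ℝ) + 1)) atTop (𝓝 0) :=
      tendsto_one_div_add_atTop_nhds_zero_nat
    have hε' : (0:ℝ) < ε := hε
    have hsum : Tendsto (fun n : ℕ => ((∫ y, |{y : ℝ | |y - x₀| < 1 / ((n:ℝ) + 1)}.indicator f y|) +
        1 / ((n:ℝ) + 1)) / (|x - x₀| / 2)) atTop (𝓝 ((0 + 0) / (|x - x₀| / 2))) :=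
      (hlim1.add hlim2).div_const _
    rw [add_zero, zero_div] at hsum
    filter_upwards [hsum.eventually_le_const hε', hlim2.eventually_lt_const (half_pos hd)]
      with n hn1 hn2
    apply absH_le_add
    filter_upwards [self_mem_nhdsWithin] with δ hδ
    have hδ0 : 0 < δ := hδ
    have hint : Integrable (fun y => f y - h n y) := hf.sub (hhint n)
    have hfar := T_far hint hδ0 (half_pos hd) (x := x) (fun y hy => by
      rw [hdiff n y]
      have h1 : |x - x₀| ≤ |y - x| + |y - x₀| := by
        calc |x - x₀| = |(x - y) + (y - x₀)| := by ring_nf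
          _ ≤ |x - y| + |y - x₀| := abs_add_le _ _
          _ = _ := by rw [abs_sub_comm x y]
      have h2 : 1 / ((n:ℝ) + 1) < |y - x₀| := by linarith
      rw [indicator_of_notMem (fun h => by
        have : |y - x₀| < 1 / ((n:ℝ) + 1) := h
        linarith), hg2 n y (fun h => by
        have h3 : |y - x₀| < r n := h
        have := hrle n
        linarith)]
      simp)
    have hL1 : ∫ y, |f y - h n y| ≤
        (∫ y, |{y : ℝ | |y - x₀| < 1 / ((n:ℝ) + 1)}.indicator f y|) + 1 / ((n:ℝ) + 1) := by
      calc ∫ y, |f y - h n y| ≤ ∫ y, (|{y : ℝ | |y - x₀| < 1 / ((n:ℝ) + 1)}.indicator f y| +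
            r n * |g n y|) := by
            apply integral_mono hint.abs
            · exact (hf.indicator (hmeas _)).abs.add ((hg1 n).abs.const_mul _)
            · intro y
              simp only
              rw [hdiff n y]
              refine (abs_add_le _ _).trans ?_
              gcongr
              rw [abs_mul]
              by_cases hy : |y - x₀| < r n
              · exact mul_le_mul_of_nonneg_right hy.le (abs_nonneg _)
              · rw [hg2 n y hy]; simp
        _ = (∫ y, |{y : ℝ | |y - x₀| < 1 / ((n:ℝ) + 1)}.indicator f y|) + r n * |∫ y, F n y| := by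
            rw [integral_add (hf.indicator (hmeas _)).abs ((hg1 n).abs.const_mul _),
              integral_const_mul, hg4 n]
        _ ≤ _ := by
            gcongr
            rw [hr]
            simp only
            have h5 : 0 ≤ |∫ y, F n y| := abs_nonneg _
            rw [one_div, mul_inv, one_div, mul_assoc]
            have h6 : (1 + |∫ y, F n y|)⁻¹ * |∫ y, F n y| ≤ 1 := by
              rw [inv_mul_le_iff₀ (by positivity)]
              linarith
            calc ((n:ℝ) + 1)⁻¹ * ((1 + |∫ y, F n y|)⁻¹ * |∫ y, F n y|) ≤ ((n:ℝ) + 1)⁻¹ * 1 :=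
                  mul_le_mul_of_nonneg_left h6 (by positivity)
              _ = _ := mul_one _
    have h4 : T f δ x = T (fun y => f y - h n y) δ x + T (h n) δ x := by
      rw [T_sub hf (hhint n) hδ0]; ring
    rw [h4]
    refine (enorm_add_le _ _).trans ?_
    gcongr
    rw [← ofReal_norm, Real.norm_eq_abs]
    calc ENNReal.ofReal |T (fun y => f y - h n y) δ x| ≤ ENNReal.ofReal ε := by
          apply ENNReal.ofReal_le_ofReal
          refine hfar.trans (le_trans ?_ hn1)
          gcongr
      _ = ε := ENNReal.ofReal_coe_nnreal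

end

end Pool.Agent.Helper66.Hilb
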