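import Pool.Agent.Helper66.HilbC

set_option autoImplicit false
open MeasureTheory Filter Set Topology
open scoped ENNReal NNReal

namespace Pool.Agent.Helper66.Hilb

noncomputable section

theorem absH_add {f g : ℝ → ℝ} (hf : Integrable f) (hg : Integrable g) (x : ℝ) :
    absH (fun y => f y + g y) x ≤ absH f x + absH g x := by
  apply ENNReal.le_of_forall_pos_le_add
  intro ε hε hlt
  have hf' : absH f x ≠ ⊤ := ne_top_of_le_ne_top hlt.ne le_self_add
  have hlt1 : absH f x < absH f x + ε := ENNReal.lt_add_right hf' (by exact_mod_cast hε.ne')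
  have h1 : ∀ᶠ δ in 𝓝[>] (0:ℝ), ‖T f δ x‖ₑ < absH f x + ε :=
    eventually_lt_of_limsup_lt hlt1
  calc absH (fun y => f y + g y) x ≤ (absH f x + ε) + absH g x := by
        apply absH_le_add
        filter_upwards [h1, self_mem_nhdsWithin] with δ hδ hδ0
        rw [T_add hf hg hδ0]
        refine (enorm_add_le _ _).trans ?_
        gcongr
    _ = _ := by ring

theorem int_annulus (δ x : ℝ) (hδ : 0 < δ) :
    ∫ y in {y | δ < |y - x| ∧ |y - x| ≤ 5}, 1 / (x - y) = 0 := by
  have hm2 : MeasurableSet {y : ℝ | δ < |y - x| ∧ |y - x| ≤ 5} :=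
    (measurableSet_lt measurable_const (by fun_prop : Measurable fun t : ℝ => |t - x|)).inter
      (measurableSet_le (by fun_prop : Measurable fun t : ℝ => |t - x|) measurable_const)
  set G : ℝ → ℝ := {t : ℝ | δ < |t| ∧ |t| ≤ 5}.indicator (fun t => -(1 / t)) with hG
  have h1 : ∫ y in {y | δ < |y - x| ∧ |y - x| ≤ 5}, 1 / (x - y) = ∫ y, G (y - x) := by
    rw [← integral_indicator hm2]
    congr 1
    funext y
    by_cases hy : δ < |y - x| ∧ |y - x| ≤ 5
    · rw [indicator_of_mem (show y ∈ {y : ℝ | δ < |y - x| ∧ |y - x| ≤ 5} from hy), hG,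
        indicator_of_mem (show (y - x) ∈ {t : ℝ | δ < |t| ∧ |t| ≤ 5} from hy)]
      rw [← neg_sub y x, div_neg]
    · rw [indicator_of_notMem (show y ∉ {y : ℝ | δ < |y - x| ∧ |y - x| ≤ 5} from hy), hG,
        indicator_of_notMem (show (y - x) ∉ {t : ℝ | δ < |t| ∧ |t| ≤ 5} from hy)]
  rw [h1, integral_sub_right_eq_self G x]
  have h2 : ∫ t, G (-t) = ∫ t, G t := integral_neg_eq_self G volume
  have h3 : ∀ t, G (-t) = - G t := by
    intro t
    rw [hG]
    by_cases ht : δ < |t| ∧ |t| ≤ 5
    · rw [indicator_of_mem (show t ∈ {t : ℝ | δ < |t| ∧ |t| ≤ 5} from ht),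
        indicator_of_mem (show -t ∈ {t : ℝ | δ < |t| ∧ |t| ≤ 5} by
          simp only [mem_ofPred_eq, abs_neg]; exact ht)]
      rw [div_neg]
    · rw [indicator_of_notMem (show t ∉ {t : ℝ | δ < |t| ∧ |t| ≤ 5} from ht),
        indicator_of_notMem (show -t ∉ {t : ℝ | δ < |t| ∧ |t| ≤ 5} by
          simp only [mem_ofPred_eq, abs_neg]; exact ht)]
      simp
  simp_rw [h3] at h2
  rw [integral_neg] at h2
  linarith

/-- truncations of Lipschitz functions supported in `[-1,1]` -/
theorem T_lip {ψ : ℝ → ℝ} {K : ℝ} (hK : 0 ≤ K) (hlip : ∀ a b, |ψ a - ψ b| ≤ K * |a - b|)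
    (hsup : ∀ y, 1 < |y| → ψ y = 0) (hψ : Integrable ψ) {δ : ℝ} (hδ : 0 < δ) (x : ℝ) :
    |T ψ δ x| ≤ (30 * K + 4 * ∫ y, |ψ y|) / (1 + |x|) := by
  have hI : 0 ≤ ∫ y, |ψ y| := integral_nonneg fun y => abs_nonneg _
  rcases le_or_gt 2 |x| with hx | hx
  · have h1 := T_far hψ hδ (show 0 < |x| / 2 by linarith) (x := x) (fun y hy => hsup y (by
      have h1 : |x| ≤ |y - x| + |y| := by
        calc |x| = |(x - y) + y| := by ring_nf
          _ ≤ |x - y| + |y| := abs_add_le _ _
          _ = _ := by rw [abs_sub_comm x y]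
      linarith))
    refine h1.trans ?_
    rw [div_le_div_iff₀ (by linarith) (by positivity)]
    nlinarith [mul_nonneg hI (show (0:ℝ) ≤ |x| - 1 by linarith), mul_nonneg hK (abs_nonneg x)]
  · have hlip' : Continuous ψ := by
      rw [Metric.continuous_iff]
      intro b ε hε
      refine ⟨ε / (K + 1), by positivity, fun a ha => ?_⟩
      rw [Real.dist_eq] at ha ⊢
      rw [lt_div_iff₀ (by positivity)] at ha
      calc |ψ a - ψ b| ≤ K * |a - b| := hlip a b
        _ ≤ |a - b| * (K + 1) := by nlinarith [abs_nonneg (a - b)]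
        _ < ε := ha
    have hm2 : MeasurableSet {y : ℝ | δ < |y - x| ∧ |y - x| ≤ 5} :=
      (measurableSet_lt measurable_const (by fun_prop : Measurable fun t : ℝ => |t - x|)).inter
        (measurableSet_le (by fun_prop : Measurable fun t : ℝ => |t - x|) measurable_const)
    have hball : {y : ℝ | δ < |y - x| ∧ |y - x| ≤ 5} ⊆ Icc (x - 5) (x + 5) := by
      rintro y ⟨_, hy⟩
      rw [abs_le] at hy
      exact ⟨by linarith [hy.1], by linarith [hy.2]⟩
    have hfin : volume {y : ℝ | δ < |y - x| ∧ |y - x| ≤ 5} ≠ ⊤ := by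
      apply ne_of_lt
      refine (measure_mono hball).trans_lt ?_
      rw [Real.volume_Icc]
      exact ENNReal.ofReal_lt_top
    -- restrict to the annulus
    have h1 : ∫ y in {y | δ < |y - x|}, ψ y / (x - y) =
        ∫ y in {y | δ < |y - x| ∧ |y - x| ≤ 5}, ψ y / (x - y) := by
      rw [← integral_indicator (meas_set δ x), ← integral_indicator hm2]
      congr 1
      funext y
      by_cases h : |y - x| ≤ 5
      · by_cases h' : δ < |y - x|
        · rw [indicator_of_mem (show y ∈ {y : ℝ | δ < |y - x|} from h'),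
            indicator_of_mem (show y ∈ {y : ℝ | δ < |y - x| ∧ |y - x| ≤ 5} from ⟨h', h⟩)]
        · rw [indicator_of_notMem (show y ∉ {y : ℝ | δ < |y - x|} from h'),
            indicator_of_notMem (show y ∉ {y : ℝ | δ < |y - x| ∧ |y - x| ≤ 5} from fun c => h' c.1)]
      · rw [indicator_of_notMem (show y ∉ {y : ℝ | δ < |y - x| ∧ |y - x| ≤ 5} from fun c => h c.2)]
        have : ψ y = 0 := by
          apply hsup
          have : |y - x| ≤ |y| + |x| := by
            calc |y - x| = |y + (-x)| := by ring_nf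
              _ ≤ |y| + |-x| := abs_add_le _ _
              _ = _ := by rw [abs_neg]
          push Not at h
          linarith
        by_cases h' : δ < |y - x|
        · rw [indicator_of_mem (show y ∈ {y : ℝ | δ < |y - x|} from h'), this, zero_div]
        · rw [indicator_of_notMem (show y ∉ {y : ℝ | δ < |y - x|} from h')]
    have hbd1 : ∀ y, y ∈ {y : ℝ | δ < |y - x| ∧ |y - x| ≤ 5} → ‖(ψ y - ψ x) / (x - y)‖ ≤ K := by
      rintro y ⟨hy, _⟩
      have hpos : 0 < |y - x| := hδ.trans hy
      rw [norm_div, Real.norm_eq_abs, Real.norm_eq_abs, abs_sub_comm x y, div_le_iff₀ hpos]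
      exact hlip y x
    have hint1 : IntegrableOn (fun y => (ψ y - ψ x) / (x - y))
        {y : ℝ | δ < |y - x| ∧ |y - x| ≤ 5} := by
      apply Measure.integrableOn_of_bounded (M := K) hfin
      · apply Measurable.aestronglyMeasurable
        exact (hlip'.measurable.sub_const _).div (by fun_prop)
      · rw [ae_restrict_iff' hm2]
        exact Eventually.of_forall hbd1
    have hint2 : IntegrableOn (fun y => ψ x * (1 / (x - y)))
        {y : ℝ | δ < |y - x| ∧ |y - x| ≤ 5} := by
      apply Integrable.const_mul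
      apply Measure.integrableOn_of_bounded (M := 1 / δ) hfin
      · apply Measurable.aestronglyMeasurable
        fun_prop
      · rw [ae_restrict_iff' hm2]
        refine Eventually.of_forall ?_
        rintro y ⟨hy, _⟩
        rw [norm_div, Real.norm_eq_abs, Real.norm_eq_abs, abs_sub_comm x y, abs_one]
        exact one_div_le_one_div_of_le hδ hy.le
    have h2 : ∫ y in {y | δ < |y - x| ∧ |y - x| ≤ 5}, ψ y / (x - y) =
        ∫ y in {y | δ < |y - x| ∧ |y - x| ≤ 5}, (ψ y - ψ x) / (x - y) := by
      have : ∀ y, ψ y / (x - y) = (ψ y - ψ x) / (x - y) + ψ x * (1 / (x - y)) := by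
        intro y; ring
      simp_rw [this]
      rw [integral_add hint1 hint2, integral_const_mul, int_annulus δ x hδ, mul_zero, add_zero]
    have h3 : |∫ y in {y | δ < |y - x| ∧ |y - x| ≤ 5}, (ψ y - ψ x) / (x - y)| ≤ 10 * K := by
      rw [← Real.norm_eq_abs]
      refine (norm_setIntegral_le_of_norm_le_const (lt_top_iff_ne_top.mpr hfin) hbd1).trans ?_
      have : (volume {y : ℝ | δ < |y - x| ∧ |y - x| ≤ 5}).toReal ≤ 10 := by
        apply ENNReal.toReal_le_of_le_ofReal (by norm_num)
        refine (measure_mono hball).trans ?_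
        rw [Real.volume_Icc]
        apply ENNReal.ofReal_le_ofReal
        linarith
      rw [measureReal_def]
      nlinarith
    have h4 : |T ψ δ x| ≤ 10 * K := by
      unfold T
      rw [h1, h2, abs_mul]
      have h5 : |1 / Real.pi| ≤ 1 := by
        rw [abs_of_pos (by positivity), div_le_one Real.pi_pos]
        linarith [Real.pi_gt_three]
      calc |1 / Real.pi| * |∫ y in {y | δ < |y - x| ∧ |y - x| ≤ 5}, (ψ y - ψ x) / (x - y)|
          ≤ 1 * (10 * K) := mul_le_mul h5 h3 (abs_nonneg _) (by norm_num)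
        _ = _ := one_mul _
    refine h4.trans ?_
    rw [le_div_iff₀ (by positivity)]
    nlinarith [mul_nonneg hK (show (0:ℝ) ≤ 2 - |x| by linarith)]

/-- the tent function -/
def tent (y : ℝ) : ℝ := max 0 (1 - |y|)

theorem tent_lip (a b : ℝ) : |tent a - tent b| ≤ 1 * |a - b| := by
  unfold tent
  rw [one_mul, max_comm, max_comm 0]
  refine (abs_max_sub_max_le_abs (1 - |a|) (1 - |b|) 0).trans ?_
  have : (1 - |a|) - (1 - |b|) = |b| - |a| := by ring
  rw [this, abs_sub_comm a b]
  exact abs_abs_sub_abs_le _ _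

theorem tent_nonneg (y : ℝ) : 0 ≤ tent y := le_max_left _ _

theorem tent_le (y : ℝ) : tent y ≤ 1 := by
  unfold tent
  apply max_le (by norm_num)
  linarith [abs_nonneg y]

theorem tent_sup (y : ℝ) (hy : 1 < |y|) : tent y = 0 := by
  unfold tent
  apply max_eq_left
  linarith

theorem tent_cont : Continuous tent := by
  unfold tent
  fun_prop

theorem tent_int : Integrable tent := by
  apply tent_cont.integrable_of_hasCompactSupport
  apply HasCompactSupport.of_support_subset_isCompact (isCompact_Icc (a := (-1:ℝ)) (b := 1))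
  intro y hy
  rw [Function.mem_support] at hy
  by_contra h
  apply hy
  apply tent_sup
  by_contra h2
  push Not at h2
  exact h (abs_le.mp h2)

theorem tent_integral : ∫ y, tent y = 1 := by
  have h1 : ∫ y, tent y = ∫ y in Icc (-1:ℝ) 1, tent y := by
    rw [setIntegral_eq_integral_of_forall_compl_eq_zero]
    intro y hy
    apply tent_sup
    by_contra h2
    push Not at h2
    exact hy (abs_le.mp h2)
  rw [h1, integral_Icc_eq_integral_Ioc, ← intervalIntegral.integral_of_le (by norm_num)]
  rw [← intervalIntegral.integral_add_adjacent_intervals (b := 0)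
    (tent_cont.intervalIntegrable _ _) (tent_cont.intervalIntegrable _ _)]
  have h2 : ∫ y in (-1:ℝ)..0, tent y = ∫ y in (-1:ℝ)..0, (1 + y) := by
    apply intervalIntegral.integral_congr
    intro y hy
    rw [uIcc_of_le (by norm_num)] at hy
    simp only [tent]
    rw [abs_of_nonpos hy.2]
    rw [max_eq_right (by linarith [hy.1])]
    ring
  have h3 : ∫ y in (0:ℝ)..1, tent y = ∫ y in (0:ℝ)..1, (1 - y) := by
    apply intervalIntegral.integral_congr
    intro y hy
    rw [uIcc_of_le (by norm_num)] at hy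
    simp only [tent]
    rw [abs_of_nonneg hy.1]
    rw [max_eq_right (by linarith [hy.2])]
  rw [h2, h3]
  rw [intervalIntegral.integral_add (by simp) (by simp), intervalIntegral.integral_sub (by simp) (by simp)]
  simp
  norm_num

/-- `y` times the tent function -/
def ytent (y : ℝ) : ℝ := y * tent y

theorem ytent_lip (a b : ℝ) : |ytent a - ytent b| ≤ 2 * |a - b| := by
  unfold ytent
  -- a tent a - b tent b
  wlog hab : |a| ≤ |b| generalizing a b
  · have := this b a (le_of_not_ge hab)
    rw [abs_sub_comm, abs_sub_comm a b]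
    exact this
  rcases le_or_gt |a| 1 with ha | ha
  · have h1 : a * tent a - b * tent b = a * (tent a - tent b) + (a - b) * tent b := by ring
    rw [h1]
    refine (abs_add_le _ _).trans ?_
    rw [abs_mul, abs_mul, abs_of_nonneg (tent_nonneg b)]
    have h2 := tent_lip a b
    have h3 := tent_le b
    have h4 := tent_nonneg b
    nlinarith [abs_nonneg a, abs_nonneg (a - b), abs_nonneg (tent a - tent b)]
  · rw [tent_sup a ha, tent_sup b (ha.trans_le hab)]
    simp

theorem ytent_sup (y : ℝ) (hy : 1 < |y|) : ytent y = 0 := by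
  unfold ytent
  rw [tent_sup y hy, mul_zero]

theorem ytent_int : Integrable ytent := by
  have hc : Continuous ytent := by unfold ytent; exact continuous_id.mul tent_cont
  apply hc.integrable_of_hasCompactSupport
  apply HasCompactSupport.of_support_subset_isCompact (isCompact_Icc (a := (-1:ℝ)) (b := 1))
  intro y hy
  rw [Function.mem_support] at hy
  by_contra h
  apply hy
  apply ytent_sup
  by_contra h2
  push Not at h2
  exact h (abs_le.mp h2)

theorem absH_lip {ψ : ℝ → ℝ} {K : ℝ} (hK : 0 ≤ K) (hlip : ∀ a b, |ψ a - ψ b| ≤ K * |a - b|)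
    (hsup : ∀ y, 1 < |y| → ψ y = 0) (hψ : Integrable ψ) :
    ∃ K' : ℝ, 0 ≤ K' ∧ ∀ x, absH ψ x ≤ ENNReal.ofReal (K' / (1 + |x|)) := by
  have hI : 0 ≤ ∫ y, |ψ y| := integral_nonneg fun y => abs_nonneg _
  refine ⟨30 * K + 4 * ∫ y, |ψ y|, by positivity, fun x => ?_⟩
  unfold absH
  apply limsup_le_of_le
  · isBoundedDefault
  · filter_upwards [self_mem_nhdsWithin] with δ hδ
    rw [← ofReal_norm, Real.norm_eq_abs]
    exact ENNReal.ofReal_le_ofReal (T_lip hK hlip hsup hψ hδ x)

end

end Pool.Agent.Helper66.Hilb
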