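import Pool.Agent.Helper66.HilbD

set_option autoImplicit false
open MeasureTheory Filter Set Topology
open scoped ENNReal NNReal

namespace Pool.Agent.Helper66.Hilb

noncomputable section

theorem tent_norm_fin {p : ℝ} (hp : 0 < p) {U : ℝ → ℝ} (hUm : Measurable U) (hU0 : ∀ x, 0 ≤ U x)
    (hU : LocallyIntegrable U) {ψ : ℝ → ℝ}
    (hb : ∀ y, |ψ y| ≤ 1) (hsup : ∀ y, 1 < |y| → ψ y = 0) :
    ∫⁻ x, ‖ψ x‖ₑ ^ p * ENNReal.ofReal (U x) < ⊤ := by
  have h1 : IntegrableOn U (Icc (-1:ℝ) 1) := hU.integrableOn_isCompact isCompact_Icc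
  have h2 : ∫⁻ x in Icc (-1:ℝ) 1, ENNReal.ofReal (U x) < ⊤ := by
    have := h1.2
    refine lt_of_le_of_lt ?_ this
    apply lintegral_mono
    intro x
    simp only
    rw [← ofReal_norm, Real.norm_of_nonneg (hU0 x)]
  refine lt_of_le_of_lt ?_ h2
  rw [← lintegral_indicator measurableSet_Icc]
  apply lintegral_mono
  intro x
  simp only
  by_cases hx : x ∈ Icc (-1:ℝ) 1
  · rw [indicator_of_mem hx]
    calc ‖ψ x‖ₑ ^ p * ENNReal.ofReal (U x) ≤ 1 ^ p * ENNReal.ofReal (U x) := by
          gcongr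
          rw [← ofReal_norm, Real.norm_eq_abs]
          calc ENNReal.ofReal |ψ x| ≤ ENNReal.ofReal 1 := ENNReal.ofReal_le_ofReal (hb x)
            _ = 1 := ENNReal.ofReal_one
      _ = _ := by rw [ENNReal.one_rpow, one_mul]
  · rw [indicator_of_notMem hx, hsup x (by
      by_contra h
      push Not at h
      exact hx (abs_le.mp h)), enorm_zero, ENNReal.zero_rpow_of_pos hp, zero_mul]

theorem tent_abs_le (y : ℝ) : |tent y| ≤ 1 := by
  rw [abs_of_nonneg (tent_nonneg y)]; exact tent_le y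

theorem ytent_abs_le (y : ℝ) : |ytent y| ≤ 1 := by
  unfold ytent
  rw [abs_mul, abs_of_nonneg (tent_nonneg y)]
  rcases le_or_gt |y| 1 with h | h
  · calc |y| * tent y ≤ 1 * 1 := mul_le_mul h (tent_le y) (tent_nonneg y) (by norm_num)
      _ = 1 := by norm_num
  · rw [tent_sup y h]; simp

/-- approximation by compactly supported mean-zero functions -/
theorem approx {p : ℝ} (hp : 1 < p) {U : ℝ → ℝ} (hUm : Measurable U) (hU0 : ∀ x, 0 ≤ U x)
    (hU : LocallyIntegrable U) (K : ℝ≥0)
    (H : ∀ F : ℝ → ℝ, Integrable F → ∫ x, F x = 0 → (∃ R : ℝ, ∀ y, R < |y| → F y = 0) →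
      ∫⁻ x, absH F x ^ p * ENNReal.ofReal (U x) ≤ K * ∫⁻ x, ‖F x‖ₑ ^ p * ENNReal.ofReal (U x)) :
    Adm p U := by
  have hp0 : 0 < p := by linarith
  have h2p : (2:ℝ≥0∞) ^ (p - 1) ≠ ⊤ := ENNReal.rpow_ne_top_of_nonneg (by linarith) (by norm_num)
  refine ⟨K * ((2:ℝ≥0∞) ^ (p - 1)).toNNReal, fun f hf hf0 => ?_⟩
  rw [ENNReal.coe_mul, ENNReal.coe_toNNReal h2p]
  apply le_of_eta (ENNReal.mul_ne_top ENNReal.coe_ne_top h2p)
  intro η hη
  have hmeas : ∀ n : ℕ, MeasurableSet {y : ℝ | |y| ≤ n} := fun n =>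
    measurableSet_le (by fun_prop) measurable_const
  set G : ℕ → ℝ → ℝ := fun n => {y : ℝ | |y| ≤ n}.indicator f with hG
  have hGint : ∀ n, Integrable (G n) := fun n => hf.indicator (hmeas n)
  set c : ℕ → ℝ := fun n => ∫ y, G n y with hc
  have hclim : Tendsto c atTop (𝓝 0) := by
    rw [← hf0]
    apply tendsto_integral_of_dominated_convergence (fun y => |f y|)
    · intro n; exact (hGint n).1
    · exact hf.abs
    · intro n
      refine Eventually.of_forall fun y => ?_
      rw [← Real.norm_eq_abs]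
      exact norm_indicator_le_norm_self f y
    · refine Eventually.of_forall fun y => ?_
      apply tendsto_const_nhds.congr'
      obtain ⟨m, hm⟩ := exists_nat_ge |y|
      filter_upwards [eventually_ge_atTop m] with n hn
      have hmn : (m:ℝ) ≤ n := by exact_mod_cast hn
      rw [hG]
      simp only
      rw [indicator_of_mem (show y ∈ {y : ℝ | |y| ≤ n} from hm.trans hmn)]
  set τ := ∫⁻ x, ‖tent x‖ₑ ^ p * ENNReal.ofReal (U x) with hτ
  have hτt : τ < ⊤ := tent_norm_fin hp0 hUm hU0 hU tent_abs_le tent_sup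
  have hclim2 : Tendsto (fun n => ‖c n‖ₑ ^ p * τ) atTop (𝓝 0) := by
    have h1 : Tendsto (fun n => ‖c n‖ₑ) atTop (𝓝 0) := by
      have := (continuous_enorm.tendsto (0:ℝ)).comp hclim
      simpa [Function.comp_def] using this
    have h2 : Tendsto (fun n => ‖c n‖ₑ ^ p) atTop (𝓝 (0 ^ p)) :=
      (ENNReal.continuous_rpow_const.tendsto _).comp h1
    rw [ENNReal.zero_rpow_of_pos hp0] at h2
    have h3 := ENNReal.Tendsto.mul_const h2 (Or.inr hτt.ne)
    rwa [zero_mul] at h3
  have hη' : (0:ℝ≥0∞) < ENNReal.ofReal η := by simpa using hη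
  obtain ⟨n₀, hn₀⟩ := eventually_atTop.mp (hclim2.eventually_le_const hη')
  have hct : ∀ n, Integrable (fun y => c n * tent y) := fun n => tent_int.const_mul _
  set F : ℕ → ℝ → ℝ := fun n y => G (n + n₀) y - c (n + n₀) * tent y with hF
  have hFint : ∀ n, Integrable (F n) := fun n => (hGint _).sub (hct _)
  apply fatou hp0 hUm (h := F) hFint
  · intro n
    refine (H (F n) (hFint n) ?_ ?_).trans ?_
    · rw [hF]
      simp only
      rw [integral_sub (hGint _) (hct _), integral_const_mul, tent_integral, mul_one, sub_self]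
    · refine ⟨(n + n₀ : ℕ) + 1, fun y hy => ?_⟩
      rw [hF, hG]
      simp only
      have hnn : (0:ℝ) ≤ ((n + n₀ : ℕ) : ℝ) := Nat.cast_nonneg _
      rw [indicator_of_notMem (fun h => by
        have : |y| ≤ ((n + n₀ : ℕ) : ℝ) := h
        linarith), tent_sup y (by linarith)]
      simp
    · rw [mul_assoc]
      gcongr
      refine (sum_pow_le hp.le hUm (hct _)).trans ?_
      gcongr with x
      · rw [hG]
        simp only
        by_cases hx : x ∈ {y : ℝ | |y| ≤ (n + n₀ : ℕ)}
        · rw [indicator_of_mem hx]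
        · rw [indicator_of_notMem hx]; simp
      · have h1 : ∀ x, ‖c (n + n₀) * tent x‖ₑ ^ p * ENNReal.ofReal (U x) =
            ‖c (n + n₀)‖ₑ ^ p * (‖tent x‖ₑ ^ p * ENNReal.ofReal (U x)) := by
          intro x
          rw [enorm_mul, ENNReal.mul_rpow_of_nonneg _ _ hp0.le, mul_assoc]
        simp_rw [h1]
        rw [lintegral_const_mul']
        · exact hn₀ _ (by omega)
        · exact ENNReal.rpow_ne_top_of_nonneg hp0.le enorm_ne_top
  · refine Eventually.of_forall fun x ε hε => ?_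
    have hε' : (0:ℝ) < ε := hε
    set I0 := ∫ y, |f y| with hI0
    have hI0' : 0 ≤ I0 := integral_nonneg fun y => abs_nonneg _
    set K' := 30 * (1:ℝ) + 4 * ∫ y, |tent y| with hK'
    have hK'0 : 0 < K' := by
      have : 0 ≤ ∫ y, |tent y| := integral_nonneg fun y => abs_nonneg _
      positivity
    have hlim3 : Tendsto (fun n => |c (n + n₀)| * K') atTop (𝓝 (|0| * K')) :=
      (((tendsto_add_atTop_iff_nat n₀).mpr hclim).abs).mul_const _
    rw [abs_zero, zero_mul] at hlim3
    obtain ⟨m, hm⟩ := exists_nat_gt (|x| + 2 * I0 / ε)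
    filter_upwards [eventually_ge_atTop m, hlim3.eventually_le_const (half_pos hε')] with n hn hcn
    have hmn : (m:ℝ) ≤ ((n + n₀ : ℕ) : ℝ) := by exact_mod_cast (by omega : m ≤ n + n₀)
    apply absH_le_add
    filter_upwards [self_mem_nhdsWithin] with δ hδ
    have hδ0 : 0 < δ := hδ
    have hρ : 0 < ((n + n₀ : ℕ) : ℝ) - |x| := by
      have : 0 ≤ 2 * I0 / ε := by positivity
      linarith
    have hfG : Integrable (fun y => f y - G (n + n₀) y) := hf.sub (hGint _)
    have hfar := T_far hfG hδ0 hρ (x := x) (fun y hy => by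
      have h2 : |y| ≤ |y - x| + |x| := by
        calc |y| = |(y - x) + x| := by ring_nf
          _ ≤ _ := abs_add_le _ _
      rw [hG]
      simp only
      rw [indicator_of_mem (show y ∈ {y : ℝ | |y| ≤ ((n + n₀ : ℕ) : ℝ)} from by
        show |y| ≤ _
        linarith), sub_self])
    have hL1 : ∫ y, |f y - G (n + n₀) y| ≤ I0 := by
      apply integral_mono hfG.abs hf.abs
      intro y
      simp only
      rw [hG]
      simp only
      by_cases hx : y ∈ {y : ℝ | |y| ≤ ((n + n₀ : ℕ) : ℝ)}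
      · rw [indicator_of_mem hx]; simp
      · rw [indicator_of_notMem hx]; simp
    have h3 : |T (fun y => f y - G (n + n₀) y) δ x| ≤ ε / 2 := by
      refine hfar.trans ?_
      rw [div_le_iff₀ hρ]
      have : 2 * I0 / ε ≤ ((n + n₀ : ℕ) : ℝ) - |x| := by linarith
      rw [div_le_iff₀ hε'] at this
      nlinarith
    have h5 : |T (fun y => c (n + n₀) * tent y) δ x| ≤ ε / 2 := by
      rw [T_smul, abs_mul]
      have h6 := T_lip (show (0:ℝ) ≤ 1 by norm_num) tent_lip tent_sup tent_int hδ0 x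
      rw [← hK'] at h6
      have h7 : K' / (1 + |x|) ≤ K' := by
        apply div_le_self hK'0.le
        linarith [abs_nonneg x]
      calc |c (n + n₀)| * |T tent δ x| ≤ |c (n + n₀)| * K' :=
            mul_le_mul_of_nonneg_left (h6.trans h7) (abs_nonneg _)
        _ ≤ ε / 2 := hcn
    have h4 : T f δ x = (T (fun y => f y - G (n + n₀) y) δ x +
        T (fun y => c (n + n₀) * tent y) δ x) + T (F n) δ x := by
      rw [hF]
      simp only
      rw [T_sub hf (hGint _) hδ0, T_sub (hGint _) (hct _) hδ0]; ring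
    rw [h4]
    refine (enorm_add_le _ _).trans ?_
    gcongr
    rw [← ofReal_norm, Real.norm_eq_abs]
    calc ENNReal.ofReal |T (fun y => f y - G (n + n₀) y) δ x +
          T (fun y => c (n + n₀) * tent y) δ x| ≤ ENNReal.ofReal ε := by
          apply ENNReal.ofReal_le_ofReal
          refine (abs_add_le _ _).trans ?_
          linarith
      _ = ε := ENNReal.ofReal_coe_nnreal

theorem integrable_mul_of_bdd_supp {F : ℝ → ℝ} (hF : Integrable F) {R : ℝ}
    (hR : ∀ y, R < |y| → F y = 0) (a : ℝ) : Integrable (fun y => (y - a) * F y) := by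
  refine Integrable.mono' (hF.abs.const_mul (|R| + |a|)) ?_ ?_
  · exact ((by fun_prop : Measurable fun y : ℝ => y - a).aemeasurable.mul
      hF.1.aemeasurable).aestronglyMeasurable
  · refine Eventually.of_forall fun y => ?_
    rw [norm_mul, Real.norm_eq_abs, Real.norm_eq_abs]
    rcases le_or_gt |y| R with h | h
    · apply mul_le_mul_of_nonneg_right _ (abs_nonneg _)
      calc |y - a| ≤ |y| + |a| := by
            calc |y - a| = |y + (-a)| := by ring_nf
              _ ≤ |y| + |-a| := abs_add_le _ _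
              _ = _ := by rw [abs_neg]
        _ ≤ |R| + |a| := by
            have := le_abs_self R
            linarith
    · rw [hR y h]; simp

theorem backB {p : ℝ} (hp : 1 < p) {U : ℝ → ℝ} (hUm : Measurable U) (hU0 : ∀ x, 0 ≤ U x)
    (hU : LocallyIntegrable U) (x₀ : ℝ) (hB : HB p (fun x => U x / |x - x₀| ^ p)) : Adm p U := by
  have hp0 : 0 < p := by linarith
  obtain ⟨C, hC⟩ := hB
  apply approx hp hUm hU0 hU C
  rintro F hF hF0 ⟨R, hR⟩
  have hint := integrable_mul_of_bdd_supp hF hR x₀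
  have hne : ∀ᵐ x : ℝ, x ≠ x₀ := by rw [ae_iff]; simp
  calc ∫⁻ x, absH F x ^ p * ENNReal.ofReal (U x)
      ≤ ∫⁻ x, absH (fun y => (y - x₀) * F y) x ^ p * ENNReal.ofReal (U x / |x - x₀| ^ p) := by
        apply lintegral_mono_ae
        filter_upwards [hne] with x hx
        have hd : 0 < |x - x₀| := abs_pos.mpr (sub_ne_zero.mpr hx)
        have hd' : 0 < |x - x₀| ^ p := Real.rpow_pos_of_pos hd p
        calc absH F x ^ p * ENNReal.ofReal (U x)
            = (‖x - x₀‖ₑ * absH F x) ^ p * ENNReal.ofReal (U x / |x - x₀| ^ p) := by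
              rw [ENNReal.mul_rpow_of_nonneg _ _ hp0.le, enorm_rpow_abs _ hp0.le,
                mul_comm (ENNReal.ofReal (|x - x₀| ^ p)), mul_assoc,
                ← ENNReal.ofReal_mul hd'.le, mul_div_cancel₀ _ hd'.ne']
          _ ≤ _ := by
              gcongr
              exact absH_mul_ge hF hF0 x₀ x
    _ ≤ C * ∫⁻ x, ‖(x - x₀) * F x‖ₑ ^ p * ENNReal.ofReal (U x / |x - x₀| ^ p) := hC _ hint
    _ ≤ C * ∫⁻ x, ‖F x‖ₑ ^ p * ENNReal.ofReal (U x) := by
        refine mul_le_mul' le_rfl (lintegral_mono fun x => ?_)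
        simp only
        rw [enorm_mul, ENNReal.mul_rpow_of_nonneg _ _ hp0.le, enorm_rpow_abs (x - x₀) hp0.le,
          mul_comm (ENNReal.ofReal (|x - x₀| ^ p)), mul_assoc]
        gcongr
        rw [← ENNReal.ofReal_mul (by positivity)]
        apply ENNReal.ofReal_le_ofReal
        rcases eq_or_ne (|x - x₀| ^ p) 0 with h0 | h0
        · rw [h0]; simpa using hU0 x
        · rw [mul_div_cancel₀ _ h0]

theorem backC {p : ℝ} (hp : 1 < p) {U : ℝ → ℝ} (hUm : Measurable U) (hU0 : ∀ x, 0 ≤ U x)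
    (hU : LocallyIntegrable U) (hB : HB p (fun x => U x / (1 + |x|) ^ p)) : Adm p U := by
  have hp0 : 0 < p := by linarith
  have h2p : (2:ℝ≥0∞) ^ (p - 1) ≠ ⊤ := ENNReal.rpow_ne_top_of_nonneg (by linarith) (by norm_num)
  obtain ⟨C, hC⟩ := hB
  have hWm : Measurable (fun x => ENNReal.ofReal (U x / (1 + |x|) ^ p)) := by
    apply Measurable.ennreal_ofReal
    apply hUm.div
    exact (by fun_prop : Measurable fun x : ℝ => 1 + |x|).pow_const p
  apply approx hp hUm hU0 hU (((2:ℝ≥0∞) ^ (p - 1)).toNNReal * (C + C))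
  rintro F hF hF0 ⟨R, hR⟩
  have hint := integrable_mul_of_bdd_supp hF hR 0
  have hpt : ∀ x : ℝ, ENNReal.ofReal (U x) =
      ENNReal.ofReal ((1 + |x|) ^ p) * ENNReal.ofReal (U x / (1 + |x|) ^ p) := by
    intro x
    rw [← ENNReal.ofReal_mul (by positivity), mul_div_cancel₀]
    positivity
  have hN1 : ∫⁻ x, ‖F x‖ₑ ^ p * ENNReal.ofReal (U x / (1 + |x|) ^ p) ≤
      ∫⁻ x, ‖F x‖ₑ ^ p * ENNReal.ofReal (U x) := by
    apply lintegral_mono
    intro x
    simp only
    gcongr
    apply div_le_self (hU0 x)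
    apply Real.one_le_rpow _ hp0.le
    linarith [abs_nonneg x]
  have hN2 : ∫⁻ x, ‖(x - 0) * F x‖ₑ ^ p * ENNReal.ofReal (U x / (1 + |x|) ^ p) ≤
      ∫⁻ x, ‖F x‖ₑ ^ p * ENNReal.ofReal (U x) := by
    apply lintegral_mono
    intro x
    simp only
    rw [enorm_mul, ENNReal.mul_rpow_of_nonneg _ _ hp0.le, enorm_rpow_abs (x - 0) hp0.le,
      mul_comm (ENNReal.ofReal (|x - 0| ^ p)), mul_assoc]
    gcongr
    rw [hpt x]
    gcongr
    rw [sub_zero]
    linarith [abs_nonneg x]
  calc ∫⁻ x, absH F x ^ p * ENNReal.ofReal (U x)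
      ≤ ∫⁻ x, 2 ^ (p - 1) * (absH F x ^ p * ENNReal.ofReal (U x / (1 + |x|) ^ p) +
          absH (fun y => (y - 0) * F y) x ^ p * ENNReal.ofReal (U x / (1 + |x|) ^ p)) := by
        apply lintegral_mono
        intro x
        simp only
        rw [← add_mul, ← mul_assoc]
        have h1 := absH_mul_ge hF hF0 0 x
        calc absH F x ^ p * ENNReal.ofReal (U x)
            = ((ENNReal.ofReal (1 + |x|)) * absH F x) ^ p *
                ENNReal.ofReal (U x / (1 + |x|) ^ p) := by
              rw [ENNReal.mul_rpow_of_nonneg _ _ hp0.le,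
                ENNReal.ofReal_rpow_of_nonneg (by positivity) hp0.le, hpt x]
              ring
          _ = (absH F x + ‖x - 0‖ₑ * absH F x) ^ p * ENNReal.ofReal (U x / (1 + |x|) ^ p) := by
              congr 2
              rw [ENNReal.ofReal_add (by norm_num) (abs_nonneg _), ENNReal.ofReal_one, add_mul,
                one_mul, ← ofReal_norm, Real.norm_eq_abs, sub_zero]
          _ ≤ (absH F x + absH (fun y => (y - 0) * F y) x) ^ p *
                ENNReal.ofReal (U x / (1 + |x|) ^ p) := by gcongr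
          _ ≤ _ := by
              gcongr
              exact ENNReal.rpow_add_le_mul_rpow_add_rpow _ _ hp.le
    _ = 2 ^ (p - 1) * ((∫⁻ x, absH F x ^ p * ENNReal.ofReal (U x / (1 + |x|) ^ p)) +
          ∫⁻ x, absH (fun y => (y - 0) * F y) x ^ p * ENNReal.ofReal (U x / (1 + |x|) ^ p)) := by
        rw [lintegral_const_mul' _ _ h2p, lintegral_add_left]
        exact ((absH_meas hF).pow_const p).mul hWm
    _ ≤ 2 ^ (p - 1) * (C * (∫⁻ x, ‖F x‖ₑ ^ p * ENNReal.ofReal (U x)) +
          C * ∫⁻ x, ‖F x‖ₑ ^ p * ENNReal.ofReal (U x)) := by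
        gcongr
        · exact (hC F hF).trans (by gcongr)
        · exact (hC _ hint).trans (by gcongr)
    _ = _ := by
        rw [ENNReal.coe_mul, ENNReal.coe_toNNReal h2p, ENNReal.coe_add]
        ring

end

end Pool.Agent.Helper66.Hilb
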