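import Pool.Agent.Helper66.HilbE

set_option autoImplicit false
open MeasureTheory Filter Set Topology
open scoped ENNReal NNReal

namespace Pool.Agent.Helper66.Hilb

noncomputable section

theorem ytent_integral : ∫ y, ytent y = 0 := by
  have h2 : ∫ t, ytent (-t) = ∫ t, ytent t := integral_neg_eq_self ytent volume
  have h3 : ∀ t, ytent (-t) = - ytent t := by
    intro t
    unfold ytent tent
    rw [abs_neg]; ring
  simp_rw [h3] at h2
  rw [integral_neg] at h2
  linarith

theorem ytent_cont : Continuous ytent := by unfold ytent; exact continuous_id.mul tent_cont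

theorem tail_fin {p : ℝ} (hp : 1 < p) {U : ℝ → ℝ} (hUm : Measurable U) (hU0 : ∀ x, 0 ≤ U x)
    (hU : LocallyIntegrable U) (hA : Adm p U) :
    ∫⁻ x, ENNReal.ofReal (1 / (1 + |x|)) ^ p * ENNReal.ofReal (U x / (1 + |x|) ^ p) < ⊤ := by
  have hp0 : 0 < p := by linarith
  obtain ⟨C, hC⟩ := hA
  have h1 := hC ytent ytent_int ytent_integral
  have hτt : ∫⁻ x, ‖ytent x‖ₑ ^ p * ENNReal.ofReal (U x) < ⊤ :=
    tent_norm_fin hp0 hUm hU0 hU ytent_abs_le ytent_sup
  have hfin : ∫⁻ x, absH ytent x ^ p * ENNReal.ofReal (U x) < ⊤ :=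
    h1.trans_lt (ENNReal.mul_lt_top ENNReal.coe_lt_top hτt)
  -- lower bound of absH ytent
  set V : ℝ → ℝ := fun y => (y - 0) * ytent y with hV
  have hVint : Integrable V := integrable_mul_of_bdd_supp ytent_int ytent_sup 0
  have hV0 : ∀ y, 0 ≤ V y := by
    intro y
    rw [hV]
    simp only [ytent, sub_zero]
    have := tent_nonneg y
    have h2 : y * (y * tent y) = y ^ 2 * tent y := by ring
    rw [h2]; positivity
  have hVs : ∀ y, 1 < |y| → V y = 0 := by
    intro y hy
    rw [hV]
    simp only
    rw [ytent_sup y hy, mul_zero]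
  set κ := ∫ y, V y with hκ
  have hκ0 : 0 < κ := by
    rw [hκ]
    have hVc : Continuous V := by
      rw [hV]
      exact (continuous_id.sub continuous_const).mul ytent_cont
    apply hVc.integral_pos_of_hasCompactSupport_nonneg_nonzero
    · apply HasCompactSupport.of_support_subset_isCompact (isCompact_Icc (a := (-1:ℝ)) (b := 1))
      intro y hy
      rw [Function.mem_support] at hy
      by_contra h
      apply hy
      apply hVs
      by_contra h2
      push Not at h2
      exact h (abs_le.mp h2)
    · exact hV0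
    · show V (1/2) ≠ 0
      rw [hV]
      simp only [ytent, tent]
      rw [abs_of_pos (by norm_num : (0:ℝ) < 1/2), max_eq_right (by norm_num)]
      norm_num
  have hlow : ∀ x : ℝ, 2 ≤ |x| → ENNReal.ofReal (κ / (7 * x ^ 2)) ≤ absH ytent x := by
    intro x hx
    unfold absH
    refine le_limsup_of_frequently_le ?_ (by isBoundedDefault)
    · apply Eventually.frequently
      have : Ioo (0:ℝ) 1 ∈ 𝓝[>] (0:ℝ) := Ioo_mem_nhdsGT (by norm_num)
      filter_upwards [this] with δ hδ
      have hsub : ∀ y : ℝ, |y| ≤ 1 → δ < |y - x| := by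
        intro y hy
        have h1 : |x| ≤ |y - x| + |y| := by
          calc |x| = |(x - y) + y| := by ring_nf
            _ ≤ |x - y| + |y| := abs_add_le _ _
            _ = _ := by rw [abs_sub_comm x y]
        linarith [hδ.2]
      have hfull : ∀ g : ℝ → ℝ, (∀ y, 1 < |y| → g y = 0) →
          ∫ y in {y | δ < |y - x|}, g y = ∫ y, g y := by
        intro g hg
        apply setIntegral_eq_integral_of_forall_compl_eq_zero
        intro y hy
        apply hg
        by_contra h
        push Not at h
        exact hy (hsub y h)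
      have hm := T_mul ytent_int 0 hδ.1 x
      rw [hfull ytent ytent_sup, ytent_integral, mul_zero, sub_zero, sub_zero] at hm
      -- |T V| lower bound
      have hTV : κ / (7 * |x|) ≤ |T V δ x| := by
        unfold T
        rw [hfull (fun y => V y / (x - y)) (fun y hy => by rw [hVs y hy, zero_div]), abs_mul,
          abs_of_pos (show (0:ℝ) < 1 / Real.pi by positivity)]
        have hxy : ∀ y : ℝ, |y| ≤ 1 → |x - y| ≤ 2 * |x| := by
          intro y hy
          calc |x - y| = |x + (-y)| := by ring_nf
            _ ≤ |x| + |-y| := abs_add_le _ _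
            _ ≤ _ := by rw [abs_neg]; linarith
        have hintV : Integrable (fun y => V y / (x - y)) := by
          have h8 := intOn hVint hδ.1 x
          rw [← integrableOn_univ]
          rw [← integrable_indicator_iff (meas_set δ x)] at h8
          refine (h8.congr ?_).integrableOn
          refine Eventually.of_forall fun y => ?_
          by_cases hy : |y| ≤ 1
          · rw [indicator_of_mem (show y ∈ {y | δ < |y - x|} from hsub y hy)]
          · push Not at hy
            have : V y / (x - y) = 0 := by rw [hVs y hy, zero_div]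
            by_cases h' : δ < |y - x|
            · rw [indicator_of_mem (show y ∈ {y | δ < |y - x|} from h')]
            · rw [indicator_of_notMem (show y ∉ {y | δ < |y - x|} from h')]
              exact this.symm
        have hkey : κ / (2 * |x|) ≤ |∫ y, V y / (x - y)| := by
          have hx0 : 0 < |x| := by linarith
          rcases le_or_gt 0 x with hx' | hx'
          · rw [abs_of_nonneg hx'] at hx
            refine le_trans ?_ (le_abs_self _)
            rw [hκ, ← integral_div]
            apply integral_mono (hVint.div_const _) hintV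
            intro y
            simp only
            rcases le_or_gt |y| 1 with hy | hy
            · have h9 := hxy y hy
              rw [abs_le] at hy
              have h10 : 0 < x - y := by linarith [hy.2]
              rw [abs_of_pos h10] at h9
              exact div_le_div_of_nonneg_left (hV0 y) h10 h9
            · rw [hVs y hy]; simp
          · rw [abs_of_neg hx'] at hx
            refine le_trans ?_ (neg_le_abs _)
            rw [hκ, ← integral_div, ← integral_neg]
            apply integral_mono (hVint.div_const _) hintV.neg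
            intro y
            simp only [Pi.neg_apply]
            rcases le_or_gt |y| 1 with hy | hy
            · have h9 := hxy y hy
              rw [abs_le] at hy
              have h10 : x - y < 0 := by linarith [hy.1]
              rw [abs_of_neg h10] at h9
              rw [← div_neg]
              exact div_le_div_of_nonneg_left (hV0 y) (by linarith) h9
            · rw [hVs y hy]; simp
        have hpi : 1 / 3.5 ≤ 1 / Real.pi :=
          one_div_le_one_div_of_le Real.pi_pos (by linarith [Real.pi_lt_d2])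
        calc κ / (7 * |x|) = (1 / 3.5) * (κ / (2 * |x|)) := by
              have hx0 : 0 < |x| := by linarith
              field_simp; norm_num
          _ ≤ (1 / Real.pi) * |∫ y, V y / (x - y)| := by
              have hx0 : 0 < |x| := by linarith
              apply mul_le_mul hpi hkey (by positivity) (by positivity)
      rw [← ofReal_norm, Real.norm_eq_abs]
      apply ENNReal.ofReal_le_ofReal
      have hx0 : 0 < |x| := by linarith
      have h11 : |T V δ x| = |x| * |T ytent δ x| := by rw [hV, hm, abs_mul]
      rw [h11] at hTV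
      rw [← sq_abs]
      rw [div_le_iff₀ (by positivity)] at hTV ⊢
      nlinarith [abs_nonneg (T ytent δ x)]
  -- split
  have hlocal : ∫⁻ x in Icc (-2:ℝ) 2, ENNReal.ofReal (U x) < ⊤ := by
    have h1 : IntegrableOn U (Icc (-2:ℝ) 2) := hU.integrableOn_isCompact isCompact_Icc
    have := h1.2
    refine lt_of_le_of_lt ?_ this
    apply lintegral_mono
    intro x
    simp only
    rw [← ofReal_norm, Real.norm_of_nonneg (hU0 x)]
  set D : ℝ := (7 / κ) ^ p with hD
  have hpt : ∀ x : ℝ, ENNReal.ofReal (1 / (1 + |x|)) ^ p * ENNReal.ofReal (U x / (1 + |x|) ^ p) ≤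
      (Icc (-2:ℝ) 2).indicator (fun x => ENNReal.ofReal (U x)) x +
        ENNReal.ofReal D * (absH ytent x ^ p * ENNReal.ofReal (U x)) := by
    intro x
    have ha : 0 < 1 + |x| := by positivity
    by_cases hx : x ∈ Icc (-2:ℝ) 2
    · rw [indicator_of_mem hx]
      refine le_trans ?_ le_self_add
      rw [ENNReal.ofReal_rpow_of_nonneg (by positivity) hp0.le, ← ENNReal.ofReal_mul (by positivity)]
      apply ENNReal.ofReal_le_ofReal
      have h12 : 1 ≤ (1 + |x|) ^ p := Real.one_le_rpow (by linarith [abs_nonneg x]) hp0.le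
      have h13 : (1 / (1 + |x|)) ^ p ≤ 1 := by
        apply Real.rpow_le_one (by positivity) _ hp0.le
        rw [div_le_one ha]; linarith [abs_nonneg x]
      calc (1 / (1 + |x|)) ^ p * (U x / (1 + |x|) ^ p) ≤ 1 * U x := by
            apply mul_le_mul h13 (div_le_self (hU0 x) h12) _ (by norm_num)
            have := hU0 x; positivity
        _ = U x := one_mul _
    · have hx2 : 2 ≤ |x| := by
        by_contra h
        push Not at h
        exact hx (abs_le.mp h.le)
      refine le_trans ?_ le_add_self
      have hx0 : 0 < |x| := by linarith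
      calc ENNReal.ofReal (1 / (1 + |x|)) ^ p * ENNReal.ofReal (U x / (1 + |x|) ^ p)
          ≤ ENNReal.ofReal D * (ENNReal.ofReal (κ / (7 * x ^ 2)) ^ p * ENNReal.ofReal (U x)) := by
            rw [ENNReal.ofReal_rpow_of_nonneg (by positivity) hp0.le,
              ENNReal.ofReal_rpow_of_nonneg (by positivity) hp0.le,
              ← ENNReal.ofReal_mul (by positivity), ← ENNReal.ofReal_mul (by positivity),
              ← ENNReal.ofReal_mul (by positivity)]
            apply ENNReal.ofReal_le_ofReal
            have e1 : D * ((κ / (7 * x ^ 2)) ^ p * U x) = (1 / x ^ 2) ^ p * U x := by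
              rw [hD, ← mul_assoc, ← Real.mul_rpow (by positivity) (by positivity)]
              congr 2
              have : x ^ 2 ≠ 0 := by
                rw [← sq_abs]; positivity
              field_simp
            have e2 : (1 / (1 + |x|)) ^ p * (U x / (1 + |x|) ^ p) =
                (1 / (1 + |x|) ^ 2) ^ p * U x := by
              rw [show (1:ℝ) / (1 + |x|) ^ 2 = (1 / (1 + |x|)) * (1 / (1 + |x|)) by
                field_simp, Real.mul_rpow (by positivity) (by positivity), Real.div_rpow (by norm_num)
                ha.le, Real.one_rpow]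
              ring
            rw [e1, e2]
            apply mul_le_mul_of_nonneg_right _ (hU0 x)
            apply Real.rpow_le_rpow (by positivity) _ hp0.le
            rw [← sq_abs x]
            apply one_div_le_one_div_of_le (by positivity)
            nlinarith
        _ ≤ _ := by
            gcongr
            exact hlow x hx2
  calc ∫⁻ x, ENNReal.ofReal (1 / (1 + |x|)) ^ p * ENNReal.ofReal (U x / (1 + |x|) ^ p)
      ≤ ∫⁻ x, ((Icc (-2:ℝ) 2).indicator (fun x => ENNReal.ofReal (U x)) x +
        ENNReal.ofReal D * (absH ytent x ^ p * ENNReal.ofReal (U x))) := lintegral_mono hpt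
    _ = (∫⁻ x in Icc (-2:ℝ) 2, ENNReal.ofReal (U x)) +
        ENNReal.ofReal D * ∫⁻ x, absH ytent x ^ p * ENNReal.ofReal (U x) := by
        rw [lintegral_add_left (hUm.ennreal_ofReal.indicator measurableSet_Icc),
          lintegral_indicator measurableSet_Icc, lintegral_const_mul' _ _ ENNReal.ofReal_ne_top]
    _ < ⊤ := by
        rw [ENNReal.add_lt_top]
        exact ⟨hlocal, ENNReal.mul_lt_top ENNReal.ofReal_lt_top hfin⟩

theorem holder_bound {p : ℝ} (hp : 1 < p) {U : ℝ → ℝ} (hUm : Measurable U) (hU0 : ∀ x, 0 ≤ U x)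
    (hfin : ∫⁻ x, sig p U x < ⊤) {f F : ℝ → ℝ} (hf : Integrable f)
    (hF : ∀ y, |F y| ≤ 2 * (|f y| / (1 + |y|))) :
    ‖∫ y, F y‖ₑ ^ p ≤ ENNReal.ofReal (2 ^ p) * ((∫⁻ x, sig p U x) ^ (p - 1) *
      ∫⁻ x, ‖f x‖ₑ ^ p * ENNReal.ofReal (U x / (1 + |x|) ^ p)) := by
  have hp0 : 0 < p := by linarith
  have hp1 : 0 < p - 1 := by linarith
  set q : ℝ := p / (p - 1) with hq
  have hpq : p.HolderConjugate q := Real.HolderConjugate.conjExponent hp
  have hsm : Measurable (sig p U) := by
    unfold sig
    exact hUm.ennreal_ofReal.pow_const _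
  have hWm : Measurable (fun x => ENNReal.ofReal (U x / (1 + |x|) ^ p)) := by
    apply Measurable.ennreal_ofReal
    apply hUm.div
    exact (by fun_prop : Measurable fun x : ℝ => 1 + |x|).pow_const p
  have hae : ∀ᵐ x : ℝ, sig p U x < ⊤ := ae_lt_top hsm hfin.ne
  -- pointwise identity
  have hpt : ∀ᵐ y : ℝ, ‖F y‖ₑ ≤ 2 * ((‖f y‖ₑ * ENNReal.ofReal (U y / (1 + |y|) ^ p) ^ (1 / p)) *
      sig p U y ^ (1 / q)) := by
    filter_upwards [hae] with y hy
    have hUy : 0 < U y := by
      by_contra h
      push Not at h
      unfold sig at hy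
      rw [ENNReal.ofReal_of_nonpos h, ENNReal.zero_rpow_of_neg] at hy
      · exact lt_irrefl _ hy
      · exact div_neg_of_neg_of_pos (by norm_num) hp1
    have ha : 0 < 1 + |y| := by positivity
    have h1 : sig p U y ^ (1 / q) = ENNReal.ofReal (U y ^ (-(1 / p))) := by
      unfold sig
      rw [← ENNReal.rpow_mul, ENNReal.ofReal_rpow_of_pos hUy]
      congr 2
      rw [hq]; field_simp
    have h2 : ENNReal.ofReal (U y / (1 + |y|) ^ p) ^ (1 / p) =
        ENNReal.ofReal (U y ^ (1 / p) / (1 + |y|)) := by
      rw [ENNReal.ofReal_rpow_of_nonneg (by positivity) (by positivity),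
        Real.div_rpow hUy.le (by positivity), ← Real.rpow_mul ha.le]
      congr 2
      rw [mul_one_div_cancel hp0.ne', Real.rpow_one]
    rw [h1, h2, ← ofReal_norm, ← ofReal_norm, Real.norm_eq_abs, Real.norm_eq_abs,
      ← ENNReal.ofReal_mul (abs_nonneg _), ← ENNReal.ofReal_mul (by positivity),
      show (2:ℝ≥0∞) = ENNReal.ofReal 2 by norm_num, ← ENNReal.ofReal_mul (by norm_num)]
    apply ENNReal.ofReal_le_ofReal
    refine (hF y).trans (le_of_eq ?_)
    have h3 : U y ^ (1 / p) * U y ^ (-(1 / p)) = 1 := by
      rw [← Real.rpow_add hUy]; simp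
    calc 2 * (|f y| / (1 + |y|)) = 2 * (|f y| / (1 + |y|)) * 1 := by ring
      _ = 2 * (|f y| / (1 + |y|)) * (U y ^ (1 / p) * U y ^ (-(1 / p))) := by rw [h3]
      _ = _ := by ring
  have h4 : ‖∫ y, F y‖ₑ ≤ 2 * ((∫⁻ x, ‖f x‖ₑ ^ p * ENNReal.ofReal (U x / (1 + |x|) ^ p)) ^ (1 / p) *
      (∫⁻ x, sig p U x) ^ (1 / q)) := by
    calc ‖∫ y, F y‖ₑ ≤ ∫⁻ y, ‖F y‖ₑ := enorm_integral_le_lintegral_enorm _
      _ ≤ ∫⁻ y, 2 * ((‖f y‖ₑ * ENNReal.ofReal (U y / (1 + |y|) ^ p) ^ (1 / p)) *
            sig p U y ^ (1 / q)) := lintegral_mono_ae hpt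
      _ = 2 * ∫⁻ y, (‖f y‖ₑ * ENNReal.ofReal (U y / (1 + |y|) ^ p) ^ (1 / p)) *
            sig p U y ^ (1 / q) := lintegral_const_mul' _ _ (by norm_num)
      _ ≤ 2 * ((∫⁻ y, (‖f y‖ₑ * ENNReal.ofReal (U y / (1 + |y|) ^ p) ^ (1 / p)) ^ p) ^ (1 / p) *
            (∫⁻ y, (sig p U y ^ (1 / q)) ^ q) ^ (1 / q)) := by
          gcongr
          apply ENNReal.lintegral_mul_le_Lp_mul_Lq volume hpq
          · exact hf.1.enorm.mul (hWm.pow_const _).aemeasurable
          · exact (hsm.pow_const _).aemeasurable
      _ = _ := by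
          congr 3
          · congr 1
            funext y
            rw [ENNReal.mul_rpow_of_nonneg _ _ hp0.le, ← ENNReal.rpow_mul,
              one_div_mul_cancel hp0.ne', ENNReal.rpow_one]
          · congr 1
            funext y
            rw [← ENNReal.rpow_mul, one_div_mul_cancel hpq.symm.pos.ne', ENNReal.rpow_one]
  calc ‖∫ y, F y‖ₑ ^ p ≤ (2 * ((∫⁻ x, ‖f x‖ₑ ^ p * ENNReal.ofReal (U x / (1 + |x|) ^ p)) ^ (1 / p) *
      (∫⁻ x, sig p U x) ^ (1 / q))) ^ p := by gcongr
    _ = _ := by
        rw [ENNReal.mul_rpow_of_nonneg _ _ hp0.le, ENNReal.mul_rpow_of_nonneg _ _ hp0.le,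
          ← ENNReal.rpow_mul, ← ENNReal.rpow_mul, one_div_mul_cancel hp0.ne', ENNReal.rpow_one]
        have h5 : 1 / q * p = p - 1 := by rw [hq]; field_simp
        rw [h5, mul_comm ((∫⁻ x, sig p U x) ^ (p - 1)), ← ENNReal.ofReal_rpow_of_nonneg (by norm_num) hp0.le]
        norm_num

end

end Pool.Agent.Helper66.Hilb
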