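import Pool.Agent.Helper66.HilbF

set_option autoImplicit false
open MeasureTheory Filter Set Topology
open scoped ENNReal NNReal

namespace Pool.Agent.Helper66.Hilb

noncomputable section

theorem caseC {p : ℝ} (hp : 1 < p) {U : ℝ → ℝ} (hUm : Measurable U) (hU0 : ∀ x, 0 ≤ U x)
    (hU : LocallyIntegrable U) (hfin : ∫⁻ x, sig p U x < ⊤) (hA : Adm p U) :
    HB p (fun x => U x / (1 + |x|) ^ p) := by
  have hp0 : 0 < p := by linarith
  have hM := tail_fin hp hUm hU0 hU hA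
  set M := ∫⁻ x, ENNReal.ofReal (1 / (1 + |x|)) ^ p * ENNReal.ofReal (U x / (1 + |x|) ^ p) with hMdef
  obtain ⟨C, hC⟩ := hA
  set τ := ∫⁻ x, ‖tent x‖ₑ ^ p * ENNReal.ofReal (U x) with hτ
  have hτt : τ < ⊤ := tent_norm_fin hp0 hUm hU0 hU tent_abs_le tent_sup
  set S := ∫⁻ x, sig p U x with hS
  obtain ⟨K1, hK10, hK1⟩ := absH_lip (show (0:ℝ) ≤ 1 by norm_num) tent_lip tent_sup tent_int
  obtain ⟨K2, hK20, hK2⟩ := absH_lip (show (0:ℝ) ≤ 2 by norm_num) ytent_lip ytent_sup ytent_int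
  set κ : ℝ≥0∞ := 2 ^ (p - 1) with hκ
  have hκt : κ ≠ ⊤ := ENNReal.rpow_ne_top_of_nonneg (by linarith) (by norm_num)
  set B : ℝ≥0∞ := ENNReal.ofReal (2 ^ p) * S ^ (p - 1) with hB
  have hBt : B ≠ ⊤ := ENNReal.mul_ne_top ENNReal.ofReal_ne_top
    (ENNReal.rpow_ne_top_of_nonneg (by linarith) hfin.ne)
  have hWm : Measurable (fun x => ENNReal.ofReal (U x / (1 + |x|) ^ p)) := by
    apply Measurable.ennreal_ofReal
    apply hUm.div
    exact (by fun_prop : Measurable fun x : ℝ => 1 + |x|).pow_const p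
  -- total constant
  set Ktot : ℝ≥0∞ := κ * κ * (C * (κ * (ENNReal.ofReal (2 ^ p) + B * τ)) +
    C * (κ * (ENNReal.ofReal (2 ^ p) + B * τ)) + B * (ENNReal.ofReal K2 ^ p * M) +
    B * (ENNReal.ofReal K1 ^ p * M)) with hKtot
  have hKt : Ktot ≠ ⊤ := by
    have h1 : ENNReal.ofReal (2 ^ p) + B * τ ≠ ⊤ :=
      ENNReal.add_ne_top.mpr ⟨ENNReal.ofReal_ne_top, ENNReal.mul_ne_top hBt hτt.ne⟩
    have h2 : (C:ℝ≥0∞) * (κ * (ENNReal.ofReal (2 ^ p) + B * τ)) ≠ ⊤ :=
      ENNReal.mul_ne_top ENNReal.coe_ne_top (ENNReal.mul_ne_top hκt h1)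
    have h3 : ∀ K : ℝ, B * (ENNReal.ofReal K ^ p * M) ≠ ⊤ := fun K =>
      ENNReal.mul_ne_top hBt (ENNReal.mul_ne_top
        (ENNReal.rpow_ne_top_of_nonneg hp0.le ENNReal.ofReal_ne_top) hM.ne)
    exact ENNReal.mul_ne_top (ENNReal.mul_ne_top hκt hκt)
      (ENNReal.add_ne_top.mpr ⟨ENNReal.add_ne_top.mpr ⟨ENNReal.add_ne_top.mpr ⟨h2, h2⟩, h3 _⟩, h3 _⟩)
  refine ⟨Ktot.toNNReal, fun f hf => ?_⟩
  rw [ENNReal.coe_toNNReal hKt]
  set N := ∫⁻ x, ‖f x‖ₑ ^ p * ENNReal.ofReal (U x / (1 + |x|) ^ p) with hN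
  set F1 : ℝ → ℝ := fun y => y * f y / (1 + y ^ 2) with hF1
  set F2 : ℝ → ℝ := fun y => f y / (1 + y ^ 2) with hF2
  have hy1 : ∀ y : ℝ, |y| / (1 + y ^ 2) ≤ 2 / (1 + |y|) := by
    intro y
    rw [div_le_div_iff₀ (by positivity) (by positivity), ← sq_abs y]
    nlinarith [sq_nonneg (|y| - 1), abs_nonneg y]
  have hy2 : ∀ y : ℝ, 1 / (1 + y ^ 2) ≤ 2 / (1 + |y|) := by
    intro y
    rw [div_le_div_iff₀ (by positivity) (by positivity), ← sq_abs y]
    nlinarith [sq_nonneg (|y| - 1), abs_nonneg y]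
  have hb1 : ∀ y, |F1 y| ≤ 2 * (|f y| / (1 + |y|)) := by
    intro y
    rw [hF1]
    simp only
    rw [abs_div, abs_mul, abs_of_pos (show (0:ℝ) < 1 + y ^ 2 by positivity)]
    calc |y| * |f y| / (1 + y ^ 2) = |f y| * (|y| / (1 + y ^ 2)) := by ring
      _ ≤ |f y| * (2 / (1 + |y|)) := mul_le_mul_of_nonneg_left (hy1 y) (abs_nonneg _)
      _ = _ := by ring
  have hb2 : ∀ y, |F2 y| ≤ 2 * (|f y| / (1 + |y|)) := by
    intro y
    rw [hF2]
    simp only
    rw [abs_div, abs_of_pos (show (0:ℝ) < 1 + y ^ 2 by positivity)]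
    calc |f y| / (1 + y ^ 2) = |f y| * (1 / (1 + y ^ 2)) := by ring
      _ ≤ |f y| * (2 / (1 + |y|)) := mul_le_mul_of_nonneg_left (hy2 y) (abs_nonneg _)
      _ = _ := by ring
  have hbint : ∀ F : ℝ → ℝ, AEStronglyMeasurable F volume →
      (∀ y, |F y| ≤ 2 * (|f y| / (1 + |y|))) → Integrable F := by
    intro F hFm hb
    refine Integrable.mono' (hf.abs.const_mul 2) hFm ?_
    refine Eventually.of_forall fun y => ?_
    rw [Real.norm_eq_abs]
    refine (hb y).trans ?_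
    apply mul_le_mul_of_nonneg_left _ (by norm_num)
    apply div_le_self (abs_nonneg _)
    linarith [abs_nonneg y]
  have hF1int : Integrable F1 := by
    apply hbint F1 _ hb1
    exact ((measurable_id.aemeasurable.mul hf.1.aemeasurable).div
      (by fun_prop : Measurable fun y : ℝ => 1 + y ^ 2).aemeasurable).aestronglyMeasurable
  have hF2int : Integrable F2 := by
    apply hbint F2 _ hb2
    exact (hf.1.aemeasurable.div
      (by fun_prop : Measurable fun y : ℝ => 1 + y ^ 2).aemeasurable).aestronglyMeasurable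
  set c1 := ∫ y, F1 y with hc1
  set c2 := ∫ y, F2 y with hc2
  have hcb1 : ‖c1‖ₑ ^ p ≤ B * N := by
    rw [hB, mul_assoc]
    exact holder_bound hp hUm hU0 hfin hf hb1
  have hcb2 : ‖c2‖ₑ ^ p ≤ B * N := by
    rw [hB, mul_assoc]
    exact holder_bound hp hUm hU0 hfin hf hb2
  -- mean-zero parts
  have key : ∀ F : ℝ → ℝ, Integrable F → (∀ y, |F y| ≤ 2 * (|f y| / (1 + |y|))) →
      ‖∫ y, F y‖ₑ ^ p ≤ B * N →
      ∫⁻ x, absH (fun y => F y - (∫ y, F y) * tent y) x ^ p * ENNReal.ofReal (U x) ≤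
        C * (κ * (ENNReal.ofReal (2 ^ p) + B * τ)) * N := by
    intro F hF hb hc
    have hct : Integrable (fun y => (∫ y, F y) * tent y) := tent_int.const_mul _
    refine (hC _ (hF.sub hct) ?_).trans ?_
    · rw [integral_sub' hF hct, integral_const_mul, tent_integral, mul_one, sub_self]
    · rw [mul_assoc]
      gcongr
      refine (sum_pow_le hp.le hUm hct).trans ?_
      rw [mul_assoc]
      gcongr
      rw [add_mul]
      apply add_le_add
      · rw [hN, ← lintegral_const_mul' _ _ ENNReal.ofReal_ne_top]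
        apply lintegral_mono
        intro y
        simp only
        rw [enorm_rpow_abs _ hp0.le, enorm_rpow_abs _ hp0.le, ← ENNReal.ofReal_mul (by positivity),
          ← ENNReal.ofReal_mul (by positivity), ← ENNReal.ofReal_mul (by positivity)]
        apply ENNReal.ofReal_le_ofReal
        have ha : 0 < 1 + |y| := by positivity
        calc |F y| ^ p * U y ≤ (2 * (|f y| / (1 + |y|))) ^ p * U y := by
              apply mul_le_mul_of_nonneg_right _ (hU0 y)
              exact Real.rpow_le_rpow (abs_nonneg _) (hb y) hp0.le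
          _ = 2 ^ p * (|f y| ^ p * (U y / (1 + |y|) ^ p)) := by
              rw [Real.mul_rpow (by norm_num) (by positivity), Real.div_rpow (abs_nonneg _) ha.le]
              ring
      · have h1 : ∀ x, ‖(∫ y, F y) * tent x‖ₑ ^ p * ENNReal.ofReal (U x) =
            ‖(∫ y, F y)‖ₑ ^ p * (‖tent x‖ₑ ^ p * ENNReal.ofReal (U x)) := by
          intro x
          rw [enorm_mul, ENNReal.mul_rpow_of_nonneg _ _ hp0.le, mul_assoc]
        simp_rw [h1]
        rw [lintegral_const_mul' _ _ (ENNReal.rpow_ne_top_of_nonneg hp0.le enorm_ne_top)]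
        calc ‖∫ y, F y‖ₑ ^ p * τ ≤ (B * N) * τ := by gcongr
          _ = B * τ * N := by ring
  have hk1 := key F1 hF1int hb1 hcb1
  have hk2 := key F2 hF2int hb2 hcb2
  rw [← hc1] at hk1
  rw [← hc2] at hk2
  set G1 : ℝ → ℝ := fun y => F1 y - c1 * tent y with hG1
  set G2 : ℝ → ℝ := fun y => F2 y - c2 * tent y with hG2
  have hG1int : Integrable G1 := hF1int.sub (tent_int.const_mul _)
  have hG2int : Integrable G2 := hF2int.sub (tent_int.const_mul _)
  have hG10 : ∫ y, G1 y = 0 := by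
    rw [hG1]
    simp only
    rw [integral_sub hF1int (tent_int.const_mul _), integral_const_mul, tent_integral, mul_one,
      ← hc1, sub_self]
  have hyG1 : Integrable (fun y => (y - 0) * G1 y) := by
    have h1 : (fun y => (y - 0) * G1 y) = fun y => (y ^ 2 / (1 + y ^ 2)) * f y - c1 * ytent y := by
      funext y
      rw [hG1, hF1]
      simp only [ytent]
      ring
    rw [h1]
    apply Integrable.sub _ (ytent_int.const_mul _)
    refine Integrable.mono' hf.abs ?_ ?_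
    · exact ((by fun_prop : Measurable fun y : ℝ => y ^ 2 / (1 + y ^ 2)).aemeasurable.mul
        hf.1.aemeasurable).aestronglyMeasurable
    · refine Eventually.of_forall fun y => ?_
      rw [norm_mul, Real.norm_eq_abs, Real.norm_eq_abs]
      have h2 : |y ^ 2 / (1 + y ^ 2)| ≤ 1 := by
        rw [abs_of_nonneg (by positivity), div_le_one (by positivity)]
        linarith
      calc |y ^ 2 / (1 + y ^ 2)| * |f y| ≤ 1 * |f y| :=
            mul_le_mul_of_nonneg_right h2 (abs_nonneg _)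
        _ = _ := one_mul _
  -- pointwise bound
  have hptw : ∀ x, absH f x ≤ (‖x - 0‖ₑ * absH G1 x + absH G2 x) +
      (‖c1‖ₑ * absH ytent x + ‖c2‖ₑ * absH tent x) := by
    intro x
    have h1 : f = fun y => ((y - 0) * G1 y + G2 y) + (c1 * ytent y + c2 * tent y) := by
      funext y
      rw [hG1, hG2, hF1, hF2]
      simp only [ytent]
      have : (1:ℝ) + y ^ 2 ≠ 0 := by positivity
      field_simp
      ring
    have ha := absH_add (hyG1.add hG2int) ((ytent_int.const_mul c1).add (tent_int.const_mul c2)) x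
    have hb := absH_add hyG1 hG2int x
    have hc := absH_add (ytent_int.const_mul c1) (tent_int.const_mul c2) x
    have hd := absH_mul_le hG1int hG10 0 x
    rw [absH_const_mul, absH_const_mul] at hc
    calc absH f x = absH (fun y => ((y - 0) * G1 y + G2 y) + (c1 * ytent y + c2 * tent y)) x := by
          rw [← h1]
      _ ≤ absH (fun y => (y - 0) * G1 y + G2 y) x + absH (fun y => c1 * ytent y + c2 * tent y) x := ha
      _ ≤ (absH (fun y => (y - 0) * G1 y) x + absH G2 x) +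
          (‖c1‖ₑ * absH ytent x + ‖c2‖ₑ * absH tent x) := add_le_add hb hc
      _ ≤ _ := by gcongr
  have hpow : ∀ x, absH f x ^ p ≤ κ * κ * (((‖x - 0‖ₑ * absH G1 x) ^ p + absH G2 x ^ p +
      (‖c1‖ₑ * absH ytent x) ^ p) + (‖c2‖ₑ * absH tent x) ^ p) := by
    intro x
    calc absH f x ^ p ≤ ((‖x - 0‖ₑ * absH G1 x + absH G2 x) +
          (‖c1‖ₑ * absH ytent x + ‖c2‖ₑ * absH tent x)) ^ p := by
          gcongr
          exact hptw x
      _ ≤ κ * ((‖x - 0‖ₑ * absH G1 x + absH G2 x) ^ p +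
          (‖c1‖ₑ * absH ytent x + ‖c2‖ₑ * absH tent x) ^ p) :=
          ENNReal.rpow_add_le_mul_rpow_add_rpow _ _ hp.le
      _ ≤ κ * (κ * ((‖x - 0‖ₑ * absH G1 x) ^ p + absH G2 x ^ p) +
          κ * ((‖c1‖ₑ * absH ytent x) ^ p + (‖c2‖ₑ * absH tent x) ^ p)) := by
          gcongr
          · exact ENNReal.rpow_add_le_mul_rpow_add_rpow _ _ hp.le
          · exact ENNReal.rpow_add_le_mul_rpow_add_rpow _ _ hp.le
      _ = _ := by ring
  have hI1 : ∫⁻ x, (‖x - 0‖ₑ * absH G1 x) ^ p * ENNReal.ofReal (U x / (1 + |x|) ^ p) ≤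
      C * (κ * (ENNReal.ofReal (2 ^ p) + B * τ)) * N := by
    refine le_trans (lintegral_mono fun x => ?_) hk1
    simp only
    rw [ENNReal.mul_rpow_of_nonneg _ _ hp0.le, enorm_rpow_abs _ hp0.le,
      mul_comm (ENNReal.ofReal (|x - 0| ^ p)), mul_assoc, ← ENNReal.ofReal_mul (by positivity)]
    gcongr
    rw [sub_zero, mul_div_assoc', div_le_iff₀ (by positivity)]
    rw [mul_comm]
    apply mul_le_mul_of_nonneg_left _ (hU0 x)
    apply Real.rpow_le_rpow (abs_nonneg _) _ hp0.le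
    linarith
  have hI2 : ∫⁻ x, absH G2 x ^ p * ENNReal.ofReal (U x / (1 + |x|) ^ p) ≤
      C * (κ * (ENNReal.ofReal (2 ^ p) + B * τ)) * N := by
    refine le_trans (lintegral_mono fun x => ?_) hk2
    simp only
    gcongr
    apply div_le_self (hU0 x)
    apply Real.one_le_rpow _ hp0.le
    linarith [abs_nonneg x]
  have hI3 : ∀ (c K : ℝ) (ψ : ℝ → ℝ), 0 ≤ K → ‖c‖ₑ ^ p ≤ B * N →
      (∀ x, absH ψ x ≤ ENNReal.ofReal (K / (1 + |x|))) →
      ∫⁻ x, (‖c‖ₑ * absH ψ x) ^ p * ENNReal.ofReal (U x / (1 + |x|) ^ p) ≤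
      B * (ENNReal.ofReal K ^ p * M) * N := by
    intro c K ψ hK hc hψ
    calc ∫⁻ x, (‖c‖ₑ * absH ψ x) ^ p * ENNReal.ofReal (U x / (1 + |x|) ^ p)
        ≤ ∫⁻ x, (‖c‖ₑ ^ p * ENNReal.ofReal K ^ p) * (ENNReal.ofReal (1 / (1 + |x|)) ^ p *
            ENNReal.ofReal (U x / (1 + |x|) ^ p)) := by
          apply lintegral_mono
          intro x
          simp only
          calc (‖c‖ₑ * absH ψ x) ^ p * ENNReal.ofReal (U x / (1 + |x|) ^ p)
              ≤ (‖c‖ₑ * ENNReal.ofReal (K / (1 + |x|))) ^ p *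
                ENNReal.ofReal (U x / (1 + |x|) ^ p) := by
                gcongr
                exact hψ x
            _ = _ := by
                rw [show K / (1 + |x|) = K * (1 / (1 + |x|)) by ring, ENNReal.ofReal_mul hK,
                  ENNReal.mul_rpow_of_nonneg _ _ hp0.le, ENNReal.mul_rpow_of_nonneg _ _ hp0.le]
                ring
      _ = (‖c‖ₑ ^ p * ENNReal.ofReal K ^ p) * M := by
          rw [lintegral_const_mul' _ _ (ENNReal.mul_ne_top
            (ENNReal.rpow_ne_top_of_nonneg hp0.le enorm_ne_top)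
            (ENNReal.rpow_ne_top_of_nonneg hp0.le ENNReal.ofReal_ne_top))]
      _ ≤ ((B * N) * ENNReal.ofReal K ^ p) * M := by gcongr
      _ = _ := by ring
  have hI3' := hI3 c1 K2 ytent hK20 hcb1 hK2
  have hI4' := hI3 c2 K1 tent hK10 hcb2 hK1
  have hm1 : Measurable (fun x => (‖x - 0‖ₑ * absH G1 x) ^ p *
      ENNReal.ofReal (U x / (1 + |x|) ^ p)) :=
    (((by fun_prop : Measurable fun x : ℝ => ‖x - 0‖ₑ).mul (absH_meas hG1int)).pow_const p).mul hWm
  have hm2 : Measurable (fun x => absH G2 x ^ p * ENNReal.ofReal (U x / (1 + |x|) ^ p)) :=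
    ((absH_meas hG2int).pow_const p).mul hWm
  have hm3 : Measurable (fun x => (‖c1‖ₑ * absH ytent x) ^ p *
      ENNReal.ofReal (U x / (1 + |x|) ^ p)) :=
    ((measurable_const.mul (absH_meas ytent_int)).pow_const p).mul hWm
  calc ∫⁻ x, absH f x ^ p * ENNReal.ofReal (U x / (1 + |x|) ^ p)
      ≤ ∫⁻ x, κ * κ * ((((‖x - 0‖ₑ * absH G1 x) ^ p * ENNReal.ofReal (U x / (1 + |x|) ^ p)) +
          absH G2 x ^ p * ENNReal.ofReal (U x / (1 + |x|) ^ p) +
          (‖c1‖ₑ * absH ytent x) ^ p * ENNReal.ofReal (U x / (1 + |x|) ^ p)) +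
          (‖c2‖ₑ * absH tent x) ^ p * ENNReal.ofReal (U x / (1 + |x|) ^ p)) := by
        apply lintegral_mono
        intro x
        simp only
        rw [← add_mul, ← add_mul, ← add_mul, ← mul_assoc]
        gcongr
        exact hpow x
    _ = κ * κ * ((((∫⁻ x, (‖x - 0‖ₑ * absH G1 x) ^ p * ENNReal.ofReal (U x / (1 + |x|) ^ p)) +
          ∫⁻ x, absH G2 x ^ p * ENNReal.ofReal (U x / (1 + |x|) ^ p)) +
          ∫⁻ x, (‖c1‖ₑ * absH ytent x) ^ p * ENNReal.ofReal (U x / (1 + |x|) ^ p)) +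
          ∫⁻ x, (‖c2‖ₑ * absH tent x) ^ p * ENNReal.ofReal (U x / (1 + |x|) ^ p)) := by
        have hm12 : Measurable (fun x => (‖x - 0‖ₑ * absH G1 x) ^ p *
            ENNReal.ofReal (U x / (1 + |x|) ^ p) +
            absH G2 x ^ p * ENNReal.ofReal (U x / (1 + |x|) ^ p)) := hm1.add hm2
        have hm123 : Measurable (fun x => (‖x - 0‖ₑ * absH G1 x) ^ p *
            ENNReal.ofReal (U x / (1 + |x|) ^ p) +
            absH G2 x ^ p * ENNReal.ofReal (U x / (1 + |x|) ^ p) +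
            (‖c1‖ₑ * absH ytent x) ^ p * ENNReal.ofReal (U x / (1 + |x|) ^ p)) := hm12.add hm3
        rw [lintegral_const_mul' _ _ (ENNReal.mul_ne_top hκt hκt),
          lintegral_add_left hm123, lintegral_add_left hm12,
          lintegral_add_left hm1]
    _ ≤ κ * κ * (((C * (κ * (ENNReal.ofReal (2 ^ p) + B * τ)) * N +
          C * (κ * (ENNReal.ofReal (2 ^ p) + B * τ)) * N) +
          B * (ENNReal.ofReal K2 ^ p * M) * N) + B * (ENNReal.ofReal K1 ^ p * M) * N) := by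
        gcongr
    _ = Ktot * N := by rw [hKtot]; ring

/-- the trichotomy -/
theorem tri {p : ℝ} {U : ℝ → ℝ} :
    (∀ n : ℕ, ∫⁻ x in {x : ℝ | (n:ℝ) < |x|}, sig p U x = ⊤) ∨
    (∃ x₀ : ℝ, ∀ ε : ℝ, 0 < ε → ∫⁻ x in {x : ℝ | |x - x₀| < ε}, sig p U x = ⊤) ∨
    ∫⁻ x, sig p U x < ⊤ := by
  by_cases hA : ∀ n : ℕ, ∫⁻ x in {x : ℝ | (n:ℝ) < |x|}, sig p U x = ⊤
  · exact Or.inl hA
  by_cases hB : ∃ x₀ : ℝ, ∀ ε : ℝ, 0 < ε → ∫⁻ x in {x : ℝ | |x - x₀| < ε}, sig p U x = ⊤
  · exact Or.inr (Or.inl hB)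
  right; right
  push Not at hA hB
  obtain ⟨n, hn⟩ := hA
  have hcomp : ∫⁻ x in Icc (-(n:ℝ)) n, sig p U x < ⊤ := by
    have hm : ∀ s : Set ℝ, (volume.withDensity (sig p U)) s ≥ ∫⁻ x in s, sig p U x := fun s =>
      withDensity_apply_le _ s
    refine (hm _).trans_lt ?_
    apply isCompact_Icc.measure_lt_top_of_nhdsWithin
    intro x _
    obtain ⟨ε, hε, hfin⟩ := hB x
    refine ⟨{y : ℝ | |y - x| < ε}, ?_, ?_⟩
    · apply mem_nhdsWithin_of_mem_nhds
      have : {y : ℝ | |y - x| < ε} = Metric.ball x ε := by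
        ext y; simp [Real.dist_eq]
      rw [this]
      exact Metric.ball_mem_nhds x hε
    · rw [withDensity_apply _ (measurableSet_lt (by fun_prop) measurable_const)]
      exact lt_top_iff_ne_top.mpr hfin
  have hmeas : MeasurableSet {x : ℝ | (n:ℝ) < |x|} := measurableSet_lt measurable_const (by fun_prop)
  calc ∫⁻ x, sig p U x ≤ ∫⁻ x in {x : ℝ | (n:ℝ) < |x|} ∪ Icc (-(n:ℝ)) n, sig p U x := by
        rw [show {x : ℝ | (n:ℝ) < |x|} ∪ Icc (-(n:ℝ)) n = univ by
          ext x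
          simp only [mem_union, mem_univ, iff_true]
          rcases lt_or_ge (n:ℝ) |x| with h | h
          · exact Or.inl h
          · exact Or.inr (abs_le.mp h)]
        simp
    _ ≤ (∫⁻ x in {x : ℝ | (n:ℝ) < |x|}, sig p U x) + ∫⁻ x in Icc (-(n:ℝ)) n, sig p U x :=
        lintegral_union_le _ _ _
    _ < ⊤ := ENNReal.add_lt_top.mpr ⟨lt_top_iff_ne_top.mpr hn, hcomp⟩

theorem main {p : ℝ} (hp : 1 < p) {U : ℝ → ℝ} (hUm : Measurable U) (hU0 : ∀ x, 0 ≤ U x)
    (hU : LocallyIntegrable U) :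
    Adm p U ↔ (HB p U ∨ HB p (fun x => U x / (1 + |x|) ^ p) ∨
      ∃ x₀ : ℝ, HB p (fun x => U x / |x - x₀| ^ p)) := by
  constructor
  · intro hA
    rcases tri (p := p) (U := U) with h | ⟨x₀, h⟩ | h
    · exact Or.inl (caseA hp hUm hU0 h hA)
    · exact Or.inr (Or.inr ⟨x₀, caseB hp hUm hU0 x₀ h hA⟩)
    · exact Or.inr (Or.inl (caseC hp hUm hU0 hU h hA))
  · rintro (⟨C, hC⟩ | h | ⟨x₀, h⟩)
    · exact ⟨C, fun f hf _ => hC f hf⟩
    · exact backC hp hUm hU0 hU h
    · exact backB hp hUm hU0 hU x₀ h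

end

end Pool.Agent.Helper66.Hilb
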