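import Pool.Agent.Helper66.HilbG

set_option autoImplicit false
open MeasureTheory Filter Set Topology
open scoped ENNReal NNReal

namespace Pool.Agent.Helper66.Hilb

noncomputable section

/-- regularised version of `sig` -/
def sn (p : ℝ) (W : ℝ → ℝ) (n : ℕ) (x : ℝ) : ℝ := (W x + 1 / ((n:ℝ) + 1)) ^ (-1 / (p - 1))

theorem sn_pos {p : ℝ} {W : ℝ → ℝ} (hW0 : ∀ x, 0 ≤ W x) (n : ℕ) (x : ℝ) : 0 < sn p W n x := by
  unfold sn
  apply Real.rpow_pos_of_pos
  have := hW0 x
  positivity

theorem sn_meas {p : ℝ} {W : ℝ → ℝ} (hW : Measurable W) (n : ℕ) : Measurable (sn p W n) := by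
  unfold sn
  exact (hW.add_const _).pow_const _

theorem sn_pow {p : ℝ} (hp : 1 < p) {W : ℝ → ℝ} (hW0 : ∀ x, 0 ≤ W x) (n : ℕ) (x : ℝ) :
    sn p W n x ^ p * W x ≤ sn p W n x := by
  have hp1 : 0 < p - 1 := by linarith
  have hpos : 0 < W x + 1 / ((n:ℝ) + 1) := by have := hW0 x; positivity
  have hs := sn_pos (p := p) hW0 n x
  have h1 : sn p W n x ^ p = sn p W n x * (W x + 1 / ((n:ℝ) + 1))⁻¹ := by
    have h2 : sn p W n x ^ p = sn p W n x ^ (1:ℝ) * sn p W n x ^ (p - 1) := by
      rw [← Real.rpow_add hs]; congr 1; ring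
    rw [h2, Real.rpow_one]
    congr 1
    unfold sn
    rw [← Real.rpow_mul hpos.le, ← Real.rpow_neg_one]
    congr 1
    field_simp
  rw [h1, mul_assoc]
  have h3 : (W x + 1 / ((n:ℝ) + 1))⁻¹ * W x ≤ 1 := by
    rw [inv_mul_le_iff₀ hpos, mul_one]
    have : (0:ℝ) < 1 / ((n:ℝ) + 1) := by positivity
    linarith
  calc sn p W n x * ((W x + 1 / ((n:ℝ) + 1))⁻¹ * W x) ≤ sn p W n x * 1 :=
        mul_le_mul_of_nonneg_left h3 hs.le
    _ = sn p W n x := mul_one _

theorem sn_bdd {p : ℝ} (hp : 1 < p) {W : ℝ → ℝ} (hW0 : ∀ x, 0 ≤ W x) (n : ℕ) (x : ℝ) :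
    sn p W n x ≤ (1 / ((n:ℝ) + 1)) ^ (-1 / (p - 1)) := by
  unfold sn
  apply Real.rpow_le_rpow_of_nonpos (by positivity)
  · have := hW0 x; linarith
  · exact (div_neg_of_neg_of_pos (by norm_num) (by linarith)).le

theorem sn_iSup {p : ℝ} (hp : 1 < p) {W : ℝ → ℝ} (hW : Measurable W) (hW0 : ∀ x, 0 ≤ W x)
    (E : Set ℝ) : ∫⁻ x in E, sig p W x = ⨆ n, ∫⁻ x in E, ENNReal.ofReal (sn p W n x) := by
  have hq : -1 / (p - 1) ≤ 0 := (div_neg_of_neg_of_pos (by norm_num) (by linarith)).le
  have hmono : Monotone (fun n x => ENNReal.ofReal (sn p W n x)) := by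
    intro n m hnm x
    simp only
    apply ENNReal.ofReal_le_ofReal
    unfold sn
    apply Real.rpow_le_rpow_of_nonpos
    · have := hW0 x; positivity
    · have : (1:ℝ) / ((m:ℝ) + 1) ≤ 1 / ((n:ℝ) + 1) := by
        apply one_div_le_one_div_of_le (by positivity)
        have : (n:ℝ) ≤ m := by exact_mod_cast hnm
        linarith
      linarith
    · exact hq
  rw [← lintegral_iSup (fun n => (sn_meas hW n).ennreal_ofReal) hmono]
  congr 1
  funext x
  symm
  apply iSup_eq_of_tendsto
  · exact fun n m hnm => hmono hnm x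
  · have h2 : Tendsto (fun n : ℕ => ENNReal.ofReal (W x + 1 / ((n:ℝ) + 1))) atTop
        (𝓝 (ENNReal.ofReal (W x))) := by
      apply ENNReal.tendsto_ofReal
      have := tendsto_one_div_add_atTop_nhds_zero_nat (𝕜 := ℝ)
      simpa using this.const_add (W x)
    have h3 := (ENNReal.continuous_rpow_const (y := -1 / (p - 1))).tendsto _ |>.comp h2
    refine h3.congr ?_
    intro n
    simp only [Function.comp]
    unfold sn
    rw [ENNReal.ofReal_rpow_of_pos]
    have := hW0 x
    positivity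

theorem test {p : ℝ} (hp : 1 < p) {W : ℝ → ℝ} (hW : Measurable W) (hW0 : ∀ x, 0 ≤ W x)
    {C : ℝ≥0} (hC : ∀ f : ℝ → ℝ, Integrable f →
      ∫⁻ x, absH f x ^ p * ENNReal.ofReal (W x) ≤ C * ∫⁻ x, ‖f x‖ₑ ^ p * ENNReal.ofReal (W x))
    {a b D : ℝ} (hab : a < b) (hD : 0 < D) {J : Set ℝ} (hJ : MeasurableSet J)
    (hJD : (∀ x ∈ J, b < x ∧ x - a ≤ D) ∨ (∀ x ∈ J, x < a ∧ b - x ≤ D)) :
    (∫⁻ x in J, ENNReal.ofReal (W x)) * (∫⁻ x in Icc a b, sig p W x) ^ (p - 1) ≤
      C * ENNReal.ofReal (4 * D) ^ p := by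
  have hp0 : 0 < p := by linarith
  have hp1 : 0 < p - 1 := by linarith
  rw [sn_iSup hp hW hW0]
  have hmap : (⨆ n, ∫⁻ x in Icc a b, ENNReal.ofReal (sn p W n x)) ^ (p - 1) =
      ⨆ n, (∫⁻ x in Icc a b, ENNReal.ofReal (sn p W n x)) ^ (p - 1) := by
    have hm : Monotone (fun t : ℝ≥0∞ => t ^ (p - 1)) := fun s t hst => by
      simp only; gcongr
    exact hm.map_iSup_of_continuousAt (ENNReal.continuous_rpow_const.continuousAt)
      (ENNReal.zero_rpow_of_pos hp1)
  rw [hmap, ENNReal.mul_iSup]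
  apply iSup_le
  intro n
  set f : ℝ → ℝ := (Icc a b).indicator (sn p W n) with hf
  have hfint : Integrable f := by
    rw [hf, integrable_indicator_iff measurableSet_Icc]
    apply Measure.integrableOn_of_bounded (M := (1 / ((n:ℝ) + 1)) ^ (-1 / (p - 1)))
    · rw [Real.volume_Icc]; exact ENNReal.ofReal_ne_top
    · exact (sn_meas hW n).aestronglyMeasurable
    · refine Eventually.of_forall fun x => ?_
      rw [Real.norm_of_nonneg (sn_pos hW0 n x).le]
      exact sn_bdd hp hW0 n x
  have hf0 : ∀ x, 0 ≤ f x := fun x => indicator_nonneg (fun y _ => (sn_pos hW0 n y).le) x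
  set S := ∫ x, f x with hS
  have hSl : ∫⁻ x in Icc a b, ENNReal.ofReal (sn p W n x) = ENNReal.ofReal S := by
    rw [hS, ofReal_integral_eq_lintegral_ofReal hfint (Eventually.of_forall hf0),
      ← lintegral_indicator measurableSet_Icc]
    congr 1
    funext x
    rw [hf]
    by_cases hx : x ∈ Icc a b
    · rw [indicator_of_mem hx, indicator_of_mem hx]
    · rw [indicator_of_notMem hx, indicator_of_notMem hx, ENNReal.ofReal_zero]
  have hSpos : 0 < S := by
    rw [hS, integral_pos_iff_support_of_nonneg hf0 hfint]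
    have : Icc a b ⊆ Function.support f := by
      intro x hx
      rw [Function.mem_support, hf, indicator_of_mem hx]
      exact (sn_pos hW0 n x).ne'
    refine lt_of_lt_of_le ?_ (measure_mono this)
    rw [Real.volume_Icc]
    simpa using hab
  rw [hSl]
  -- lower bound for the transform
  have hlow : ∀ x ∈ J, ENNReal.ofReal (S / (4 * D)) ≤ absH f x := by
    intro x hx
    unfold absH
    have hgap : ∃ δ₀ : ℝ, 0 < δ₀ ∧ ∀ y ∈ Icc a b, δ₀ ≤ |y - x| := by
      rcases hJD with h | h
      · obtain ⟨h1, h2⟩ := h x hx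
        refine ⟨x - b, by linarith, fun y hy => ?_⟩
        rw [abs_sub_comm]
        refine le_trans ?_ (le_abs_self _)
        linarith [hy.2]
      · obtain ⟨h1, h2⟩ := h x hx
        refine ⟨a - x, by linarith, fun y hy => ?_⟩
        refine le_trans ?_ (le_abs_self _)
        linarith [hy.1]
    obtain ⟨δ₀, hδ₀, hgap⟩ := hgap
    refine le_limsup_of_frequently_le ?_ (by isBoundedDefault)
    apply Eventually.frequently
    filter_upwards [Ioo_mem_nhdsGT hδ₀] with δ hδ
    have hfull : ∫ y in {y | δ < |y - x|}, f y / (x - y) = ∫ y in Icc a b, sn p W n y / (x - y) := by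
      rw [← integral_indicator (meas_set δ x), ← integral_indicator measurableSet_Icc]
      congr 1
      funext y
      by_cases hy : y ∈ Icc a b
      · rw [indicator_of_mem (show y ∈ {y | δ < |y - x|} from hδ.2.trans_le (hgap y hy)),
          indicator_of_mem hy, hf, indicator_of_mem hy]
      · rw [indicator_of_notMem hy]
        by_cases hy' : δ < |y - x|
        · rw [indicator_of_mem (show y ∈ {y | δ < |y - x|} from hy'), hf, indicator_of_notMem hy,
            zero_div]
        · rw [indicator_of_notMem (show y ∉ {y | δ < |y - x|} from hy')]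
    have hSI : S = ∫ y in Icc a b, sn p W n y := by
      rw [hS, hf, integral_indicator measurableSet_Icc]
    have hintI : IntegrableOn (sn p W n) (Icc a b) := by
      rw [← integrable_indicator_iff measurableSet_Icc]; exact hfint
    have hintq : IntegrableOn (fun y => sn p W n y / (x - y)) (Icc a b) := by
      refine Integrable.mono' (hintI.div_const δ₀) ?_ ?_
      · exact ((sn_meas hW n).div (by fun_prop)).aestronglyMeasurable
      · rw [ae_restrict_iff' measurableSet_Icc]
        refine Eventually.of_forall fun y hy => ?_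
        rw [norm_div, Real.norm_eq_abs, Real.norm_eq_abs, abs_sub_comm x y,
          abs_of_pos (sn_pos hW0 n y)]
        exact div_le_div_of_nonneg_left (sn_pos hW0 n y).le hδ₀ (hgap y hy)
    have hkey : S / D ≤ |∫ y in Icc a b, sn p W n y / (x - y)| := by
      rw [hSI, ← integral_div]
      rcases hJD with h | h
      · obtain ⟨h1, h2⟩ := h x hx
        refine le_trans ?_ (le_abs_self _)
        apply setIntegral_mono_on (hintI.div_const _) hintq measurableSet_Icc
        intro y hy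
        apply div_le_div_of_nonneg_left (sn_pos hW0 n y).le
        · linarith [hy.2]
        · linarith [hy.1]
      · obtain ⟨h1, h2⟩ := h x hx
        refine le_trans ?_ (neg_le_abs _)
        rw [← integral_neg]
        apply setIntegral_mono_on (hintI.div_const _) hintq.neg measurableSet_Icc
        intro y hy
        simp only [Pi.neg_apply]
        rw [← div_neg]
        apply div_le_div_of_nonneg_left (sn_pos hW0 n y).le
        · linarith [hy.1]
        · linarith [hy.2]
    rw [← ofReal_norm, Real.norm_eq_abs]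
    apply ENNReal.ofReal_le_ofReal
    unfold T
    rw [hfull, abs_mul, abs_of_pos (show (0:ℝ) < 1 / Real.pi by positivity)]
    have hpi : 1 / 4 ≤ 1 / Real.pi :=
      one_div_le_one_div_of_le Real.pi_pos (by linarith [Real.pi_lt_d2])
    calc S / (4 * D) = (1 / 4) * (S / D) := by field_simp
      _ ≤ (1 / Real.pi) * |∫ y in Icc a b, sn p W n y / (x - y)| :=
          mul_le_mul hpi hkey (by positivity) (by positivity)
  have h1 : (∫⁻ x in J, ENNReal.ofReal (W x)) * ENNReal.ofReal (S / (4 * D)) ^ p ≤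
      C * ENNReal.ofReal S := by
    calc (∫⁻ x in J, ENNReal.ofReal (W x)) * ENNReal.ofReal (S / (4 * D)) ^ p
        = ∫⁻ x in J, ENNReal.ofReal (S / (4 * D)) ^ p * ENNReal.ofReal (W x) := by
          rw [mul_comm, lintegral_const_mul' _ _
            (ENNReal.rpow_ne_top_of_nonneg hp0.le ENNReal.ofReal_ne_top)]
      _ ≤ ∫⁻ x in J, absH f x ^ p * ENNReal.ofReal (W x) := by
          apply setLIntegral_mono' hJ
          intro x hx
          gcongr
          exact hlow x hx
      _ ≤ ∫⁻ x, absH f x ^ p * ENNReal.ofReal (W x) := setLIntegral_le_lintegral _ _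
      _ ≤ C * ∫⁻ x, ‖f x‖ₑ ^ p * ENNReal.ofReal (W x) := hC f hfint
      _ ≤ C * ENNReal.ofReal S := by
          gcongr
          rw [hS, ofReal_integral_eq_lintegral_ofReal hfint (Eventually.of_forall hf0)]
          apply lintegral_mono
          intro x
          simp only
          rw [enorm_rpow_abs _ hp0.le, ← ENNReal.ofReal_mul (by positivity)]
          apply ENNReal.ofReal_le_ofReal
          rw [abs_of_nonneg (hf0 x), hf]
          by_cases hx : x ∈ Icc a b
          · rw [indicator_of_mem hx]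
            exact sn_pow hp hW0 n x
          · rw [indicator_of_notMem hx, Real.zero_rpow hp0.ne', zero_mul]
  -- divide
  have hS' : ENNReal.ofReal S ≠ 0 := by simpa using hSpos
  have e1 : ENNReal.ofReal (S / (4 * D)) ^ p = ENNReal.ofReal S * (ENNReal.ofReal S ^ (p - 1) *
      (ENNReal.ofReal (4 * D) ^ p)⁻¹) := by
    rw [ENNReal.ofReal_div_of_pos (by positivity), ENNReal.div_rpow_of_nonneg _ _ hp0.le,
      div_eq_mul_inv, ← mul_assoc]
    congr 1
    rw [show p = 1 + (p - 1) by ring, ENNReal.rpow_add _ _ hS' ENNReal.ofReal_ne_top,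
      ENNReal.rpow_one]
    congr 2
    ring
  have hD' : ENNReal.ofReal (4 * D) ^ p ≠ 0 := by
    rw [ENNReal.ofReal_rpow_of_pos (by positivity)]
    simp only [ne_eq, ENNReal.ofReal_eq_zero, not_le]
    positivity
  have hD'' : ENNReal.ofReal (4 * D) ^ p ≠ ⊤ :=
    ENNReal.rpow_ne_top_of_nonneg hp0.le ENNReal.ofReal_ne_top
  rw [e1] at h1
  have h2 : ENNReal.ofReal S * ((∫⁻ x in J, ENNReal.ofReal (W x)) * ENNReal.ofReal S ^ (p - 1) *
      (ENNReal.ofReal (4 * D) ^ p)⁻¹) ≤ ENNReal.ofReal S * C := by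
    calc _ = (∫⁻ x in J, ENNReal.ofReal (W x)) * (ENNReal.ofReal S * (ENNReal.ofReal S ^ (p - 1) *
      (ENNReal.ofReal (4 * D) ^ p)⁻¹)) := by ring
      _ ≤ _ := h1
      _ = _ := mul_comm _ _
  have h3 := (ENNReal.mul_le_mul_iff_right hS' ENNReal.ofReal_ne_top).mp h2
  rw [← div_eq_mul_inv, ENNReal.div_le_iff hD' hD''] at h3
  exact h3

/-- the Muckenhoupt condition -/
def Ap (p : ℝ) (W : ℝ → ℝ) : Prop := ∃ C : ℝ≥0, ∀ a b : ℝ, a < b →
  (∫⁻ x in Icc a b, ENNReal.ofReal (W x)) * (∫⁻ x in Icc a b, sig p W x) ^ (p - 1) ≤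
    C * ENNReal.ofReal (b - a) ^ p

theorem HB_pos {p : ℝ} (hp : 1 < p) {W : ℝ → ℝ} (hW : Measurable W) (hW0 : ∀ x, 0 ≤ W x)
    (hne : ¬ W =ᵐ[volume] 0) (hB : HB p W) : ∀ᵐ x : ℝ, 0 < W x := by
  have hp0 : 0 < p := by linarith
  have hp1 : 0 < p - 1 := by linarith
  obtain ⟨C, hC⟩ := hB
  by_contra hcon
  set Z : Set ℝ := {x | ¬ 0 < W x} with hZ
  have hZm : MeasurableSet Z := (measurableSet_lt measurable_const hW).compl
  have hZpos : volume Z ≠ 0 := by
    intro h
    exact hcon (ae_iff.mpr h)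
  -- intervals meeting Z in positive measure have infinite sig-integral
  have hinf : ∀ a b : ℝ, volume (Z ∩ Icc a b) ≠ 0 → ∫⁻ x in Icc a b, sig p W x = ⊤ := by
    intro a b h
    rw [eq_top_iff]
    calc ⊤ = ∫⁻ x in Z ∩ Icc a b, (⊤ : ℝ≥0∞) := by
          rw [setLIntegral_const, ENNReal.top_mul h]
      _ = ∫⁻ x in Z ∩ Icc a b, sig p W x := by
          apply setLIntegral_congr_fun (hZm.inter measurableSet_Icc)
          intro x hx
          have h1 : ¬ 0 < W x := hx.1
          have h2 : W x = 0 := le_antisymm (not_lt.mp h1) (hW0 x)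
          simp only [sig]
          rw [h2, ENNReal.ofReal_zero, ENNReal.zero_rpow_of_neg]
          exact div_neg_of_neg_of_pos (by norm_num) hp1
      _ ≤ ∫⁻ x in Icc a b, sig p W x := lintegral_mono_set inter_subset_right
  -- then the weight vanishes on neighbours
  have hzero : ∀ a b : ℝ, a < b → volume (Z ∩ Icc a b) ≠ 0 → ∀ J : Set ℝ, MeasurableSet J →
      ∀ D : ℝ, 0 < D → ((∀ x ∈ J, b < x ∧ x - a ≤ D) ∨ (∀ x ∈ J, x < a ∧ b - x ≤ D)) →
      ∫⁻ x in J, ENNReal.ofReal (W x) = 0 := by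
    intro a b hab hv J hJ D hD hJD
    have h1 := test hp hW hW0 hC hab hD hJ hJD
    rw [hinf a b hv, ENNReal.top_rpow_of_pos hp1] at h1
    by_contra h
    rw [ENNReal.mul_top h] at h1
    have h2 : (C:ℝ≥0∞) * ENNReal.ofReal (4 * D) ^ p ≠ ⊤ :=
      ENNReal.mul_ne_top ENNReal.coe_ne_top
        (ENNReal.rpow_ne_top_of_nonneg hp0.le ENNReal.ofReal_ne_top)
    exact h2 (top_le_iff.mp h1)
  -- a large interval meeting Z
  obtain ⟨n, hn⟩ : ∃ n : ℕ, volume (Z ∩ Icc (-(n:ℝ)) n) ≠ 0 := by
    by_contra h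
    push Not at h
    apply hZpos
    have : Z ⊆ ⋃ n : ℕ, Z ∩ Icc (-(n:ℝ)) n := by
      intro x hx
      obtain ⟨m, hm⟩ := exists_nat_ge |x|
      exact mem_iUnion.mpr ⟨m, hx, abs_le.mp hm⟩
    exact measure_mono_null this (measure_iUnion_null h)
  set N : ℝ := n + 1 with hN
  have hNpos : 0 < N := by positivity
  have hnN : volume (Z ∩ Icc (-N) N) ≠ 0 := by
    intro h
    apply hn
    apply measure_mono_null _ h
    apply inter_subset_inter_right
    apply Icc_subset_Icc <;> linarith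
  have hmonoN : ∀ m : ℝ, N ≤ m → volume (Z ∩ Icc (-m) m) ≠ 0 := by
    intro m hm h
    apply hnN
    apply measure_mono_null _ h
    apply inter_subset_inter_right
    apply Icc_subset_Icc <;> linarith
  -- weight vanishes outside
  have hout : ∀ m : ℝ, N ≤ m → ∫⁻ x in Ioc m (3 * m), ENNReal.ofReal (W x) = 0 ∧
      ∫⁻ x in Ico (-(3 * m)) (-m), ENNReal.ofReal (W x) = 0 := by
    intro m hm
    constructor
    · apply hzero (-m) m (by linarith) (hmonoN m hm) _ measurableSet_Ioc (4 * m) (by linarith)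
      left
      intro x hx
      exact ⟨hx.1, by linarith [hx.2]⟩
    · apply hzero (-m) m (by linarith) (hmonoN m hm) _ measurableSet_Ico (4 * m) (by linarith)
      right
      intro x hx
      exact ⟨hx.2, by linarith [hx.1]⟩
  -- inside
  have hin : ∫⁻ x in Ico (-N) N, ENNReal.ofReal (W x) = 0 := by
    apply hzero N (3 * N) (by linarith) _ _ measurableSet_Ico (4 * N) (by linarith)
    · right
      intro x hx
      exact ⟨hx.2, by linarith [hx.1]⟩
    · -- Z has full measure in (N, 3N]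
      have h1 := (hout N le_rfl).1
      rw [lintegral_eq_zero_iff hW.ennreal_ofReal] at h1
      rw [EventuallyEq, ae_restrict_iff' measurableSet_Ioc] at h1
      intro h2
      have h3 : volume (Ioc N (3 * N)) = 0 := by
        have h4 : ∀ᵐ x : ℝ, x ∉ Z ∩ Icc N (3 * N) := measure_eq_zero_iff_ae_notMem.mp h2
        have h5 : ∀ᵐ x : ℝ, x ∉ Ioc N (3 * N) := by
          filter_upwards [h1, h4] with x hx1 hx2 hx3
          apply hx2
          refine ⟨?_, Ioc_subset_Icc_self hx3⟩
          have := hx1 hx3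
          simp only [Pi.zero_apply, ENNReal.ofReal_eq_zero] at this
          exact not_lt.mpr this
        exact measure_eq_zero_iff_ae_notMem.mpr h5
      rw [Real.volume_Ioc] at h3
      simp only [ENNReal.ofReal_eq_zero] at h3
      linarith
  apply hne
  -- conclude
  have hz : ∀ S : Set ℝ, MeasurableSet S → ∫⁻ x in S, ENNReal.ofReal (W x) = 0 →
      ∀ᵐ x : ℝ, x ∈ S → W x = 0 := by
    intro S hS h
    rw [lintegral_eq_zero_iff hW.ennreal_ofReal, EventuallyEq, ae_restrict_iff' hS] at h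
    filter_upwards [h] with x hx hxS
    have := hx hxS
    simp only [Pi.zero_apply, ENNReal.ofReal_eq_zero] at this
    exact le_antisymm this (hW0 x)
  have hall : ∀ᵐ x : ℝ, ∀ k : ℕ, (x ∈ Ioc (N + k) (3 * (N + k)) → W x = 0) ∧
      (x ∈ Ico (-(3 * (N + k))) (-(N + k)) → W x = 0) := by
    rw [ae_all_iff]
    intro k
    have hk : N ≤ N + k := by
      have : (0:ℝ) ≤ k := Nat.cast_nonneg k
      linarith
    filter_upwards [hz _ measurableSet_Ioc (hout _ hk).1, hz _ measurableSet_Ico (hout _ hk).2]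
      with x h1 h2 using ⟨h1, h2⟩
  have hneN : ∀ᵐ x : ℝ, x ≠ N := by rw [ae_iff]; simp
  filter_upwards [hall, hz _ measurableSet_Ico hin, hneN] with x hx1 hx2 hx3
  show W x = 0
  rcases lt_or_ge x (-N) with h | h
  · -- x < -N : choose k with N + k < -x ≤ 3(N+k)
    have hx0 : 0 ≤ -x - N := by linarith
    set k := ⌊(-x - N) / 2⌋₊ with hk
    have hk1 : (k:ℝ) ≤ (-x - N) / 2 := Nat.floor_le (by positivity)
    have hk2 : (-x - N) / 2 < k + 1 := Nat.lt_floor_add_one _
    apply (hx1 k).2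
    have hN1 : 1 ≤ N := by rw [hN]; have : (0:ℝ) ≤ n := Nat.cast_nonneg n; linarith
    exact ⟨by linarith, by linarith⟩
  · rcases lt_or_ge x N with h' | h'
    · exact hx2 ⟨h, h'⟩
    · have h'' : N < x := lt_of_le_of_ne h' (Ne.symm hx3)
      set k := ⌊(x - N) / 2⌋₊ with hk
      have hk1 : (k:ℝ) ≤ (x - N) / 2 := Nat.floor_le (by linarith)
      have hk2 : (x - N) / 2 < k + 1 := Nat.lt_floor_add_one _
      apply (hx1 k).1
      have hN1 : 1 ≤ N := by rw [hN]; have : (0:ℝ) ≤ n := Nat.cast_nonneg n; linarith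
      exact ⟨by linarith, by linarith⟩

/-- the easy direction of the Hunt-Muckenhoupt-Wheeden theorem -/
theorem HB_Ap {p : ℝ} (hp : 1 < p) {W : ℝ → ℝ} (hW : Measurable W) (hW0 : ∀ x, 0 ≤ W x)
    (hne : ¬ W =ᵐ[volume] 0) (hB : HB p W) : Ap p W := by
  have hp0 : 0 < p := by linarith
  have hp1 : 0 < p - 1 := by linarith
  have hpos := HB_pos hp hW hW0 hne hB
  obtain ⟨C, hC⟩ := hB
  set K : ℝ≥0∞ := C * ENNReal.ofReal 8 ^ p with hK
  have hKt : K ≠ ⊤ := ENNReal.mul_ne_top ENNReal.coe_ne_top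
    (ENNReal.rpow_ne_top_of_nonneg hp0.le ENNReal.ofReal_ne_top)
  refine ⟨(K * K).toNNReal, fun a b hab => ?_⟩
  rw [ENNReal.coe_toNNReal (ENNReal.mul_ne_top hKt hKt)]
  set l := b - a with hl
  have hl0 : 0 < l := by linarith
  set L : ℝ≥0∞ := ENNReal.ofReal l ^ p with hL
  have hL0 : L ≠ 0 := by
    rw [hL, ENNReal.ofReal_rpow_of_pos hl0]
    simp only [ne_eq, ENNReal.ofReal_eq_zero, not_le]
    positivity
  have hLt : L ≠ ⊤ := ENNReal.rpow_ne_top_of_nonneg hp0.le ENNReal.ofReal_ne_top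
  have h8 : C * ENNReal.ofReal (4 * (2 * l)) ^ p = K * L := by
    rw [hK, hL, mul_assoc, ← ENNReal.mul_rpow_of_nonneg _ _ hp0.le,
      ← ENNReal.ofReal_mul (by norm_num)]
    congr 3
    ring
  have hIccIoc : ∀ (g : ℝ → ℝ≥0∞) (c d : ℝ), ∫⁻ x in Icc c d, g x = ∫⁻ x in Ioc c d, g x :=
    fun g c d => setLIntegral_congr Ioc_ae_eq_Icc.symm
  have hIccIco : ∀ (g : ℝ → ℝ≥0∞) (c d : ℝ), ∫⁻ x in Icc c d, g x = ∫⁻ x in Ico c d, g x :=
    fun g c d => setLIntegral_congr Ico_ae_eq_Icc.symm
  -- neighbours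
  have t1 : (∫⁻ x in Icc b (b + l), ENNReal.ofReal (W x)) *
      (∫⁻ x in Icc a b, sig p W x) ^ (p - 1) ≤ K * L := by
    rw [← h8, hIccIoc]
    apply test hp hW hW0 hC hab (by linarith) measurableSet_Ioc
    left
    intro x hx
    exact ⟨hx.1, by linarith [hx.2]⟩
  have t2 : (∫⁻ x in Icc a b, ENNReal.ofReal (W x)) *
      (∫⁻ x in Icc b (b + l), sig p W x) ^ (p - 1) ≤ K * L := by
    rw [← h8, hIccIco]
    apply test hp hW hW0 hC (by linarith) (by linarith) measurableSet_Ico
    right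
    intro x hx
    exact ⟨hx.2, by linarith [hx.1]⟩
  -- Hoelder
  have hh : L ≤ (∫⁻ x in Icc b (b + l), ENNReal.ofReal (W x)) *
      (∫⁻ x in Icc b (b + l), sig p W x) ^ (p - 1) := by
    set q : ℝ := p / (p - 1) with hq
    have hpq : p.HolderConjugate q := Real.HolderConjugate.conjExponent hp
    have hsm : Measurable (sig p W) := by
      unfold sig
      exact hW.ennreal_ofReal.pow_const _
    have h1 : ENNReal.ofReal l ≤ (∫⁻ x in Icc b (b + l), ENNReal.ofReal (W x)) ^ (1 / p) *
        (∫⁻ x in Icc b (b + l), sig p W x) ^ (1 / q) := by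
      calc ENNReal.ofReal l = ∫⁻ x in Icc b (b + l), (1 : ℝ≥0∞) := by
            rw [setLIntegral_const, one_mul, Real.volume_Icc]; congr 1; ring
        _ ≤ ∫⁻ x in Icc b (b + l), (ENNReal.ofReal (W x) ^ (1 / p)) * (sig p W x ^ (1 / q)) := by
            apply lintegral_mono_ae
            filter_upwards [ae_restrict_of_ae hpos] with x hx
            unfold sig
            rw [ENNReal.ofReal_rpow_of_pos hx, ENNReal.ofReal_rpow_of_pos hx,
              ENNReal.ofReal_rpow_of_pos (by positivity), ← ENNReal.ofReal_mul (by positivity),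
              ← Real.rpow_mul hx.le, ← Real.rpow_add hx]
            have : 1 / p + -1 / (p - 1) * (1 / q) = 0 := by rw [hq]; field_simp; ring
            rw [this, Real.rpow_zero, ENNReal.ofReal_one]
        _ ≤ (∫⁻ x in Icc b (b + l), (ENNReal.ofReal (W x) ^ (1 / p)) ^ p) ^ (1 / p) *
            (∫⁻ x in Icc b (b + l), (sig p W x ^ (1 / q)) ^ q) ^ (1 / q) := by
            apply ENNReal.lintegral_mul_le_Lp_mul_Lq _ hpq
            · exact (hW.ennreal_ofReal.pow_const _).aemeasurable
            · exact (hsm.pow_const _).aemeasurable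
        _ = _ := by
            congr 3
            · funext y
              rw [← ENNReal.rpow_mul, one_div_mul_cancel hp0.ne', ENNReal.rpow_one]
            · funext y
              rw [← ENNReal.rpow_mul, one_div_mul_cancel hpq.symm.pos.ne', ENNReal.rpow_one]
    calc L ≤ ((∫⁻ x in Icc b (b + l), ENNReal.ofReal (W x)) ^ (1 / p) *
        (∫⁻ x in Icc b (b + l), sig p W x) ^ (1 / q)) ^ p := by
          rw [hL]; gcongr
      _ = _ := by
          rw [ENNReal.mul_rpow_of_nonneg _ _ hp0.le, ← ENNReal.rpow_mul, ← ENNReal.rpow_mul,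
            one_div_mul_cancel hp0.ne', ENNReal.rpow_one]
          congr 2
          rw [hq]; field_simp
  set X := (∫⁻ x in Icc a b, ENNReal.ofReal (W x)) * (∫⁻ x in Icc a b, sig p W x) ^ (p - 1) with hX
  have h9 : X * L ≤ (K * K * L) * L := by
    calc X * L ≤ X * ((∫⁻ x in Icc b (b + l), ENNReal.ofReal (W x)) *
          (∫⁻ x in Icc b (b + l), sig p W x) ^ (p - 1)) := by gcongr
      _ = ((∫⁻ x in Icc b (b + l), ENNReal.ofReal (W x)) *
          (∫⁻ x in Icc a b, sig p W x) ^ (p - 1)) * ((∫⁻ x in Icc a b, ENNReal.ofReal (W x)) *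
          (∫⁻ x in Icc b (b + l), sig p W x) ^ (p - 1)) := by rw [hX]; ring
      _ ≤ (K * L) * (K * L) := by gcongr
      _ = _ := by ring
  exact (ENNReal.mul_le_mul_iff_left hL0 hLt).mp h9

theorem necessity {p : ℝ} (hp : 1 < p) {U : ℝ → ℝ} (hUm : Measurable U) (hU0 : ∀ x, 0 ≤ U x)
    (hU : LocallyIntegrable U) (hne : ¬ U =ᵐ[volume] 0) (hA : Adm p U) :
    Ap p U ∨ Ap p (fun x => U x / (1 + |x|) ^ p) ∨ ∃ x₀ : ℝ, Ap p (fun x => U x / |x - x₀| ^ p) := by
  rcases (main hp hUm hU0 hU).mp hA with h | h | ⟨x₀, h⟩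
  · exact Or.inl (HB_Ap hp hUm hU0 hne h)
  · refine Or.inr (Or.inl (HB_Ap hp ?_ ?_ ?_ h))
    · exact hUm.div ((by fun_prop : Measurable fun x : ℝ => 1 + |x|).pow_const p)
    · intro x
      have := hU0 x
      positivity
    · intro hz
      apply hne
      filter_upwards [hz] with x hx
      simp only [Pi.zero_apply] at hx ⊢
      have : (1 + |x|) ^ p ≠ 0 := by positivity
      rcases div_eq_zero_iff.mp hx with h | h
      · exact h
      · exact absurd h this
  · refine Or.inr (Or.inr ⟨x₀, HB_Ap hp ?_ ?_ ?_ h⟩)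
    · exact hUm.div ((by fun_prop : Measurable fun x : ℝ => |x - x₀|).pow_const p)
    · intro x
      have := hU0 x
      positivity
    · intro hz
      apply hne
      have hx0 : ∀ᵐ x : ℝ, x ≠ x₀ := by rw [ae_iff]; simp
      filter_upwards [hz, hx0] with x hx hxne
      simp only [Pi.zero_apply] at hx ⊢
      have hd : 0 < |x - x₀| := abs_pos.mpr (sub_ne_zero.mpr hxne)
      have : |x - x₀| ^ p ≠ 0 := by positivity
      rcases div_eq_zero_iff.mp hx with h | h
      · exact h
      · exact absurd h this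

end

end Pool.Agent.Helper66.Hilb
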