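import Mathlib

set_option autoImplicit false
open MeasureTheory Set Filter Topology
open scoped ENNReal NNReal

namespace Pool.Agent.Helper66.Mix

noncomputable section

/-- nice functions: nonnegative, measurable, bounded, compactly supported -/
structure Nice (f : ℝ → ℝ) : Prop where
  meas : Measurable f
  nonneg : ∀ x, 0 ≤ f x
  bdd : ∃ B : ℝ, ∀ x, f x ≤ B
  supp : ∃ R : ℝ, ∀ x, R < |x| → f x = 0

lemma Nice.integrable {f : ℝ → ℝ} (hf : Nice f) : Integrable f := by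
  obtain ⟨B, hB⟩ := hf.bdd
  obtain ⟨R, hR⟩ := hf.supp
  have h1 : IntegrableOn f (Icc (-R) R) := by
    refine Measure.integrableOn_of_bounded (M := B) (by simp) hf.meas.aestronglyMeasurable ?_
    filter_upwards with x
    rw [Real.norm_eq_abs, abs_of_nonneg (hf.nonneg x)]
    exact hB x
  rw [← integrableOn_univ]
  refine (integrableOn_iff_integrable_of_support_subset ?_).mp h1 |>.integrableOn
  intro x hx
  by_contra h
  apply hx
  apply hR
  rw [mem_Icc, ← abs_le, not_le] at h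
  exact h

/-- primitive minus linear function -/
def phi (f : ℝ → ℝ) (l x : ℝ) : ℝ := (∫ t in (0:ℝ)..x, f t) - l * x

lemma phi_cont {f : ℝ → ℝ} (hf : Nice f) (l : ℝ) : Continuous (phi f l) := by
  unfold phi
  have h1 : Continuous (fun x => ∫ t in (0:ℝ)..x, f t) :=
    intervalIntegral.continuous_primitive (fun a b => hf.integrable.intervalIntegrable) 0
  fun_prop

lemma phi_sub {f : ℝ → ℝ} (hf : Nice f) (l x y : ℝ) :
    phi f l y - phi f l x = (∫ t in x..y, f t) - l * (y - x) := by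
  unfold phi
  have h1 := intervalIntegral.integral_add_adjacent_intervals (μ := volume) (f := f)
    (a := 0) (b := x) (c := y) hf.integrable.intervalIntegrable hf.integrable.intervalIntegrable
  linarith

/-- shadow set -/
def Om (f : ℝ → ℝ) (l : ℝ) : Set ℝ := {x | ∃ y, x < y ∧ phi f l x < phi f l y}

lemma Om_open {f : ℝ → ℝ} (hf : Nice f) (l : ℝ) : IsOpen (Om f l) := by
  have : Om f l = ⋃ y, ({x | x < y} ∩ {x | phi f l x < phi f l y}) := by
    ext x; simp [Om]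
  rw [this]
  refine isOpen_iUnion fun y => ?_
  exact (isOpen_lt continuous_id continuous_const).inter
    (isOpen_lt (phi_cont hf l) continuous_const)

lemma Om_mono {f : ℝ → ℝ} (hf : Nice f) {l l' : ℝ} (h : l ≤ l') : Om f l' ⊆ Om f l := by
  rintro x ⟨y, hxy, h1⟩
  refine ⟨y, hxy, ?_⟩
  have h2 := phi_sub hf l x y
  have h3 := phi_sub hf l' x y
  nlinarith

lemma Om_bdd {f : ℝ → ℝ} (hf : Nice f) {l : ℝ} (hl : 0 < l) : ∃ A : ℝ, Om f l ⊆ Ioo (-A) A := by
  obtain ⟨R, hR⟩ := hf.supp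
  set m := ∫ t, f t with hm
  have hm0 : 0 ≤ m := integral_nonneg hf.nonneg
  refine ⟨|R| + m / l + 1, ?_⟩
  rintro x ⟨y, hxy, h1⟩
  have h2 := phi_sub hf l x y
  have hml : 0 ≤ m / l := by positivity
  have h3 : ∫ t in x..y, f t ≤ m := by
    rw [intervalIntegral.integral_of_le hxy.le]
    exact setIntegral_le_integral hf.integrable (Filter.Eventually.of_forall hf.nonneg)
  have hx1 : x < |R| + m / l + 1 := by
    by_contra h
    push Not at h
    have : ∫ t in x..y, f t = 0 := by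
      rw [intervalIntegral.integral_of_le hxy.le]
      refine setIntegral_eq_zero_of_forall_eq_zero fun t ht => ?_
      apply hR
      have h4 : R ≤ |R| := le_abs_self R
      have h5 : t ≤ |t| := le_abs_self t
      have := ht.1
      linarith
    rw [this] at h2
    nlinarith
  have hx2 : -(|R| + m / l + 1) < x := by
    by_contra h
    push Not at h
    have h6 : l * (y - x) < ∫ t in x..y, f t := by linarith
    have h7 : y - x < m / l := by
      rw [lt_div_iff₀ hl]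
      nlinarith
    have : ∫ t in x..y, f t = 0 := by
      rw [intervalIntegral.integral_of_le hxy.le]
      refine setIntegral_eq_zero_of_forall_eq_zero fun t ht => ?_
      apply hR
      have h4 : R ≤ |R| := le_abs_self R
      have h5 : -t ≤ |t| := neg_le_abs t
      have := ht.2
      linarith
    rw [this] at h6
    nlinarith
  exact ⟨hx2, hx1⟩

/-- components of the shadow set, as pairs of endpoints -/
def Comp (f : ℝ → ℝ) (l : ℝ) : Set (ℝ × ℝ) :=
  {I | I.1 < I.2 ∧ Ioo I.1 I.2 ⊆ Om f l ∧ I.1 ∉ Om f l ∧ I.2 ∉ Om f l}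

lemma exists_comp {f : ℝ → ℝ} (hf : Nice f) {l : ℝ} (hl : 0 < l) {x : ℝ} (hx : x ∈ Om f l) :
    ∃ I ∈ Comp f l, x ∈ Ioo I.1 I.2 := by
  obtain ⟨A, hA⟩ := Om_bdd hf hl
  have hclosed : IsClosed (Om f l)ᶜ := (Om_open hf l).isClosed_compl
  have hAx := hA hx
  set S1 : Set ℝ := (Om f l)ᶜ ∩ Iic x with hS1
  set S2 : Set ℝ := (Om f l)ᶜ ∩ Ici x with hS2
  have h1n : S1.Nonempty := ⟨-A, fun h => lt_irrefl _ (hA h).1, hAx.1.le⟩
  have h2n : S2.Nonempty := ⟨A, fun h => lt_irrefl _ (hA h).2, hAx.2.le⟩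
  have h1b : BddAbove S1 := ⟨x, fun y hy => hy.2⟩
  have h2b : BddBelow S2 := ⟨x, fun y hy => hy.2⟩
  have h1m : sSup S1 ∈ S1 := (hclosed.inter isClosed_Iic).csSup_mem h1n h1b
  have h2m : sInf S2 ∈ S2 := (hclosed.inter isClosed_Ici).csInf_mem h2n h2b
  have hlt1 : sSup S1 < x := lt_of_le_of_ne h1m.2 (fun h => h1m.1 (h ▸ hx))
  have hlt2 : x < sInf S2 := lt_of_le_of_ne h2m.2 (fun h => h2m.1 (h ▸ hx))
  refine ⟨(sSup S1, sInf S2), ⟨hlt1.trans hlt2, ?_, h1m.1, h2m.1⟩, hlt1, hlt2⟩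
  intro y hy
  by_contra hyn
  rcases le_total y x with h | h
  · exact absurd (le_csSup h1b ⟨hyn, h⟩) (not_le.mpr hy.1)
  · exact absurd (csInf_le h2b ⟨hyn, h⟩) (not_le.mpr hy.2)

lemma comp_unique {f : ℝ → ℝ} {l : ℝ} {I J : ℝ × ℝ} (hI : I ∈ Comp f l) (hJ : J ∈ Comp f l)
    {x : ℝ} (hxI : x ∈ Ioo I.1 I.2) (hxJ : x ∈ Ioo J.1 J.2) : I = J := by
  obtain ⟨-, hI2, hI3, hI4⟩ := hI
  obtain ⟨-, hJ2, hJ3, hJ4⟩ := hJ
  have e1 : I.1 = J.1 := by
    apply le_antisymm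
    · by_contra h
      push Not at h
      exact hI3 (hJ2 ⟨h, hxI.1.trans hxJ.2⟩)
    · by_contra h
      push Not at h
      exact hJ3 (hI2 ⟨h, hxJ.1.trans hxI.2⟩)
  have e2 : I.2 = J.2 := by
    apply le_antisymm
    · by_contra h
      push Not at h
      exact hJ4 (hI2 ⟨hxI.1.trans hxJ.2, h⟩)
    · by_contra h
      push Not at h
      exact hI4 (hJ2 ⟨hxJ.1.trans hxI.2, h⟩)
  exact Prod.ext e1 e2

lemma comp_disj {f : ℝ → ℝ} {l : ℝ} :
    (Comp f l).PairwiseDisjoint (fun I => Ioo I.1 I.2) := by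
  intro I hI J hJ hne
  rw [Function.onFun, Set.disjoint_left]
  intro x hxI hxJ
  exact hne (comp_unique hI hJ hxI hxJ)

lemma comp_countable {f : ℝ → ℝ} {l : ℝ} : (Comp f l).Countable := by
  refine comp_disj.countable_of_isOpen (fun I _ => isOpen_Ioo) (fun I hI => ?_)
  exact nonempty_Ioo.mpr hI.1

lemma comp_eq {f : ℝ → ℝ} (hf : Nice f) {l : ℝ} {I : ℝ × ℝ} (hI : I ∈ Comp f l) :
    phi f l I.1 = phi f l I.2 := by
  obtain ⟨h1, h2, h3, h4⟩ := hI
  have hc := phi_cont hf l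
  have hle : phi f l I.2 ≤ phi f l I.1 := by
    by_contra h
    push Not at h
    exact h3 ⟨I.2, h1, h⟩
  have hge : ∀ x ∈ Ioo I.1 I.2, phi f l x ≤ phi f l I.2 := by
    intro x hx
    by_contra hcon
    push Not at hcon
    -- take the set of points in [x, I.2] with phi ≥ phi x
    set S : Set ℝ := Icc x I.2 ∩ {y | phi f l x ≤ phi f l y} with hS
    have hSc : IsCompact S := isCompact_Icc.inter_right (isClosed_le continuous_const hc)
    have hSn : S.Nonempty := ⟨x, ⟨le_rfl, hx.2.le⟩, (le_refl _ : phi f l x ≤ phi f l x)⟩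
    have hmem := hSc.sSup_mem hSn
    set y := sSup S with hy
    have hyle : y ≤ I.2 := hmem.1.2
    have hyne : y ≠ I.2 := by
      intro h
      have := hmem.2
      rw [Set.mem_ofPred_eq, h] at this
      linarith
    have hylt : y < I.2 := lt_of_le_of_ne hyle hyne
    have hyI : y ∈ Ioo I.1 I.2 := ⟨hx.1.trans_le hmem.1.1, hylt⟩
    obtain ⟨z, hz1, hz2⟩ := h2 hyI
    rcases le_or_gt z I.2 with hz | hz
    · have hzS : z ∈ S := ⟨⟨hmem.1.1.trans hz1.le, hz⟩, (show phi f l x ≤ phi f l z from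
        le_trans hmem.2 hz2.le)⟩
      have := le_csSup hSc.bddAbove hzS
      linarith
    · exact h4 ⟨z, hz, hcon.trans_le (le_trans hmem.2 hz2.le)⟩
  refine le_antisymm ?_ hle
  have hcl : I.1 ∈ closure (Ioo I.1 I.2) := by
    rw [closure_Ioo h1.ne]
    exact ⟨le_rfl, h1.le⟩
  have hsub : closure (Ioo I.1 I.2) ⊆ {x | phi f l x ≤ phi f l I.2} :=
    closure_minimal hge (isClosed_le hc continuous_const)
  exact hsub hcl

lemma comp_avg {f : ℝ → ℝ} (hf : Nice f) {l : ℝ} (hl : 0 < l) {I : ℝ × ℝ} (hI : I ∈ Comp f l) :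
    ∫⁻ t in Ioo I.1 I.2, ENNReal.ofReal (f t) = ENNReal.ofReal l * volume (Ioo I.1 I.2) := by
  have h1 := comp_eq hf hI
  have h2 := phi_sub hf l I.1 I.2
  rw [← ofReal_integral_eq_lintegral_ofReal hf.integrable.integrableOn
    (Filter.Eventually.of_forall hf.nonneg), Real.volume_Ioo, ← ENNReal.ofReal_mul hl.le]
  congr 1
  rw [← integral_Ioc_eq_integral_Ioo, ← intervalIntegral.integral_of_le hI.1.le]
  linarith

lemma comp_parent {f : ℝ → ℝ} (hf : Nice f) {l l' : ℝ} (hl : 0 < l) (h : l ≤ l') {J : ℝ × ℝ}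
    (hJ : J ∈ Comp f l') : ∃ I ∈ Comp f l, Ioo J.1 J.2 ⊆ Ioo I.1 I.2 := by
  have hmid : (J.1 + J.2) / 2 ∈ Ioo J.1 J.2 := by
    have := hJ.1
    constructor <;> linarith
  obtain ⟨I, hI, hx⟩ := exists_comp hf hl (Om_mono hf h (hJ.2.1 hmid))
  refine ⟨I, hI, ?_⟩
  have hsub : Ioo J.1 J.2 ⊆ Om f l := hJ.2.1.trans (Om_mono hf h)
  apply Ioo_subset_Ioo
  · by_contra hc
    push Not at hc
    exact hI.2.2.1 (hsub ⟨hc, hx.1.trans hmid.2⟩)
  · by_contra hc
    push Not at hc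
    exact hI.2.2.2 (hsub ⟨hmid.1.trans hx.2, hc⟩)

lemma comp_sub_union {f : ℝ → ℝ} (hf : Nice f) {l l' : ℝ} (hl : 0 < l) (h : l ≤ l') {I : ℝ × ℝ}
    (hI : I ∈ Comp f l) :
    Om f l' ∩ Ioo I.1 I.2 = ⋃ J ∈ {J | J ∈ Comp f l' ∧ Ioo J.1 J.2 ⊆ Ioo I.1 I.2}, Ioo J.1 J.2 := by
  ext x
  constructor
  · rintro ⟨hx, hxI⟩
    obtain ⟨J, hJ, hxJ⟩ := exists_comp hf (hl.trans_le h) hx
    obtain ⟨I', hI', hsub⟩ := comp_parent hf hl h hJ
    have : I' = I := comp_unique hI' hI (hsub hxJ) hxI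
    subst this
    rw [mem_iUnion₂]
    exact ⟨J, ⟨hJ, hsub⟩, hxJ⟩
  · intro hx
    rw [mem_iUnion₂] at hx
    obtain ⟨J, ⟨hJ, hsub⟩, hxJ⟩ := hx
    exact ⟨hJ.2.1 hxJ, hsub hxJ⟩

lemma Om_eq_union {f : ℝ → ℝ} (hf : Nice f) {l : ℝ} (hl : 0 < l) :
    Om f l = ⋃ I ∈ Comp f l, Ioo I.1 I.2 := by
  ext x
  constructor
  · intro hx
    obtain ⟨J, hJ, hxJ⟩ := exists_comp hf hl hx
    rw [mem_iUnion₂]
    exact ⟨J, hJ, hxJ⟩
  · intro hx
    rw [mem_iUnion₂] at hx
    obtain ⟨J, hJ, hxJ⟩ := hx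
    exact hJ.2.1 hxJ

end

end Pool.Agent.Helper66.Mix
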