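import Pool.Agent.Helper66.MixA

set_option autoImplicit false
open MeasureTheory Set Filter Topology
open scoped ENNReal NNReal

namespace Pool.Agent.Helper66.Mix

noncomputable section

lemma exists_consts {p : ℝ} (hp : 1 < p) {κ : ℝ≥0} (hκ : κ < 1) :
    ∃ C1 D : ℝ≥0, D * κ ^ (p - 1) < 1 ∧ ∀ x y : ℝ≥0∞, (x + y) ^ p ≤ C1 * x ^ p + D * y ^ p := by
  obtain ⟨t, ht1, ht2⟩ := exists_between hκ
  have ht0 : 0 < t := pos_of_gt ht1
  have h1t : 0 < 1 - t := tsub_pos_of_lt ht2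
  refine ⟨(1 - t) * ((1 - t)⁻¹) ^ p, t * (t⁻¹) ^ p, ?_, ?_⟩
  · have h1 : t * (t⁻¹) ^ p = (t⁻¹) ^ (p - 1) := by
      rw [NNReal.rpow_sub_one (inv_ne_zero ht0.ne')]
      field_simp
    rw [h1, ← NNReal.mul_rpow]
    refine NNReal.rpow_lt_one ?_ (by linarith)
    rw [inv_mul_eq_div, div_lt_one ht0]
    exact ht1
  · intro x y
    have hsum : ((1 - t : ℝ≥0) : ℝ≥0∞) + (t : ℝ≥0∞) = 1 := by
      rw [← ENNReal.coe_add, tsub_add_cancel_of_le ht2.le, ENNReal.coe_one]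
    have h2 := ENNReal.rpow_arith_mean_le_arith_mean2_rpow ((1 - t : ℝ≥0) : ℝ≥0∞) (t : ℝ≥0∞)
      (((1 - t : ℝ≥0) : ℝ≥0∞)⁻¹ * x) ((t : ℝ≥0∞)⁻¹ * y) hsum hp.le
    have e1 : ((1 - t : ℝ≥0) : ℝ≥0∞) * ((((1 - t : ℝ≥0) : ℝ≥0∞)⁻¹) * x) = x := by
      rw [← mul_assoc, ENNReal.mul_inv_cancel (by exact_mod_cast h1t.ne') ENNReal.coe_ne_top, one_mul]
    have e2 : (t : ℝ≥0∞) * ((t : ℝ≥0∞)⁻¹ * y) = y := by
      rw [← mul_assoc, ENNReal.mul_inv_cancel (by exact_mod_cast ht0.ne') ENNReal.coe_ne_top, one_mul]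
    rw [e1, e2, ENNReal.mul_rpow_of_nonneg _ _ (by linarith : 0 ≤ p),
      ENNReal.mul_rpow_of_nonneg _ _ (by linarith : 0 ≤ p)] at h2
    refine h2.trans (le_of_eq ?_)
    rw [← ENNReal.coe_inv h1t.ne', ← ENNReal.coe_inv ht0.ne',
      ← ENNReal.coe_rpow_of_nonneg _ (by linarith : 0 ≤ p),
      ← ENNReal.coe_rpow_of_nonneg _ (by linarith : 0 ≤ p)]
    push_cast
    ring

/-- discrete Hölder inequality -/
lemma holder_tsum {ι : Type*} {p : ℝ} (hp : 1 < p) (x s : ι → ℝ≥0∞) (hs0 : ∀ i, s i ≠ 0)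
    (hs1 : ∀ i, s i ≠ ∞) :
    (∑' i, x i) ^ p ≤ (∑' i, x i ^ p / s i ^ (p - 1)) * (∑' i, s i) ^ (p - 1) := by
  have hp0 : 0 < p := by linarith
  set q : ℝ := p / (p - 1) with hq
  have hpq : p.HolderConjugate q := Real.HolderConjugate.conjExponent hp
  have hfin : ∀ t : Finset ι, (∑ i ∈ t, x i) ≤
      ((∑' i, x i ^ p / s i ^ (p - 1)) * (∑' i, s i) ^ (p - 1)) ^ (1 / p) := by
    intro t
    have h1 := ENNReal.inner_le_Lp_mul_Lq t (fun i => x i / s i ^ (1 / q)) (fun i => s i ^ (1 / q)) hpq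
    have e0 : ∀ i, x i / s i ^ (1 / q) * s i ^ (1 / q) = x i := by
      intro i
      refine ENNReal.div_mul_cancel ?_ ?_
      · rw [Ne, ENNReal.rpow_eq_zero_iff_of_pos (by rw [one_div]; exact inv_pos.mpr hpq.symm.pos)]
        exact hs0 i
      · exact ENNReal.rpow_ne_top_of_nonneg (by rw [one_div]; exact (inv_pos.mpr hpq.symm.pos).le) (hs1 i)
    have e1 : ∀ i, (x i / s i ^ (1 / q)) ^ p = x i ^ p / s i ^ (p - 1) := by
      intro i
      rw [ENNReal.div_rpow_of_nonneg _ _ hp0.le, ← ENNReal.rpow_mul]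
      congr 2
      rw [hq]
      have : p - 1 ≠ 0 := by linarith
      field_simp
    have e2 : ∀ i, (s i ^ (1 / q)) ^ q = s i := by
      intro i
      rw [← ENNReal.rpow_mul, one_div, inv_mul_cancel₀ hpq.symm.pos.ne', ENNReal.rpow_one]
    simp_rw [e0, e1, e2] at h1
    refine h1.trans ?_
    rw [ENNReal.mul_rpow_of_nonneg _ _ (by positivity : 0 ≤ 1 / p), ← ENNReal.rpow_mul]
    have e3 : (p - 1) * (1 / p) = 1 / q := by
      rw [hq]
      have : p - 1 ≠ 0 := by linarith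
      field_simp
    rw [e3]
    have hq0 : 0 < q := hpq.symm.pos
    gcongr
    · exact ENNReal.sum_le_tsum t
    · exact ENNReal.sum_le_tsum t
  have h2 : (∑' i, x i) ≤ ((∑' i, x i ^ p / s i ^ (p - 1)) * (∑' i, s i) ^ (p - 1)) ^ (1 / p) := by
    rw [ENNReal.tsum_eq_iSup_sum]
    exact iSup_le hfin
  calc (∑' i, x i) ^ p ≤ (((∑' i, x i ^ p / s i ^ (p - 1)) * (∑' i, s i) ^ (p - 1)) ^ (1 / p)) ^ p := by
        gcongr
    _ = _ := by
        rw [← ENNReal.rpow_mul, one_div, inv_mul_cancel₀ hp0.ne', ENNReal.rpow_one]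

/-- the density of a nice function -/
def fm (f : ℝ → ℝ) : Measure ℝ := volume.withDensity (fun x => ENNReal.ofReal (f x))

/-- the energy of an interval -/
def TT (p : ℝ) (f : ℝ → ℝ) (sm : Measure ℝ) (I : ℝ × ℝ) : ℝ≥0∞ :=
  fm f (Ioo I.1 I.2) ^ p / sm (Ioo I.1 I.2) ^ (p - 1)

/-- hypotheses on the measures -/
structure Hyp (p : ℝ) (f : ℝ → ℝ) (sm Fm : Measure ℝ) (κ : ℝ≥0) : Prop where
  holder : ∀ E, MeasurableSet E → fm f E ^ p ≤ Fm E * sm E ^ (p - 1)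
  pos : ∀ a b, a < b → sm (Ioo a b) ≠ 0
  fin : ∀ a b, sm (Ioo a b) ≠ ∞
  small : ∀ a b, a < b → ∀ E, MeasurableSet E → E ⊆ Ioo a b → volume (Ioo a b) / 2 ≤ volume (Ioo a b \ E) →
    sm E ≤ κ * sm (Ioo a b)

lemma fm_comp {f : ℝ → ℝ} (hf : Nice f) {l : ℝ} (hl : 0 < l) {I : ℝ × ℝ} (hI : I ∈ Comp f l) :
    fm f (Ioo I.1 I.2) = ENNReal.ofReal l * volume (Ioo I.1 I.2) := by
  rw [fm, withDensity_apply _ measurableSet_Ioo]
  exact comp_avg hf hl hI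

/-- children -/
def Ch (f : ℝ → ℝ) (l' : ℝ) (I : ℝ × ℝ) : Set (ℝ × ℝ) :=
  {J | J ∈ Comp f l' ∧ Ioo J.1 J.2 ⊆ Ioo I.1 I.2}

lemma measure_children {f : ℝ → ℝ} (hf : Nice f) {l l' : ℝ} (hl : 0 < l) (h : l ≤ l') {I : ℝ × ℝ}
    (hI : I ∈ Comp f l) (μ : Measure ℝ) :
    μ (Om f l' ∩ Ioo I.1 I.2) = ∑' J : Ch f l' I, μ (Ioo J.1.1 J.1.2) := by
  rw [comp_sub_union hf hl h hI]
  have hc : (Ch f l' I).Countable := comp_countable.mono (fun J hJ => hJ.1)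
  exact measure_biUnion hc (comp_disj.subset (fun J hJ => hJ.1)) (fun J _ => measurableSet_Ioo)

lemma vol_children {f : ℝ → ℝ} (hf : Nice f) {l : ℝ} (hl : 0 < l) {I : ℝ × ℝ}
    (hI : I ∈ Comp f l) :
    volume (Om f (2 * l) ∩ Ioo I.1 I.2) ≤ volume (Ioo I.1 I.2) / 2 := by
  have h1 := measure_children hf hl (by linarith : l ≤ 2 * l) hI volume
  have h2 := measure_children hf hl (by linarith : l ≤ 2 * l) hI (fm f)
  have h3 : ∀ J : Ch f (2 * l) I, fm f (Ioo J.1.1 J.1.2)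
      = ENNReal.ofReal (2 * l) * volume (Ioo J.1.1 J.1.2) := fun J =>
    fm_comp hf (by linarith) J.2.1
  simp_rw [h3] at h2
  rw [ENNReal.tsum_mul_left, ← h1] at h2
  have h4 : fm f (Om f (2 * l) ∩ Ioo I.1 I.2) ≤ fm f (Ioo I.1 I.2) := measure_mono inter_subset_right
  rw [h2, fm_comp hf hl hI, ENNReal.ofReal_mul (by norm_num), mul_comm (ENNReal.ofReal 2),
    mul_assoc] at h4
  have h5 := (ENNReal.mul_le_mul_iff_right (by simpa using hl) ENNReal.ofReal_ne_top).mp h4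
  rw [ENNReal.le_div_iff_mul_le (by norm_num) (by norm_num), mul_comm]
  simpa using h5

lemma TT_rec {p : ℝ} (hp : 1 < p) {f : ℝ → ℝ} (hf : Nice f) {sm Fm : Measure ℝ} {κ : ℝ≥0}
    (H : Hyp p f sm Fm κ) {C1 D : ℝ≥0}
    (hCD : ∀ x y : ℝ≥0∞, (x + y) ^ p ≤ C1 * x ^ p + D * y ^ p) {l : ℝ} (hl : 0 < l) {I : ℝ × ℝ}
    (hI : I ∈ Comp f l) :
    TT p f sm I ≤ C1 * Fm (Ioo I.1 I.2 \ Om f (2 * l))
      + (D * κ ^ (p - 1) : ℝ≥0) * ∑' J : Ch f (2 * l) I, TT p f sm J.1 := by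
  set A := Ioo I.1 I.2 with hA
  set O := Om f (2 * l) with hO
  have hOm : MeasurableSet O := (Om_open hf _).measurableSet
  have hp1 : 0 ≤ p - 1 := by linarith
  have hS0 : sm A ^ (p - 1) ≠ 0 := by
    rw [Ne, ENNReal.rpow_eq_zero_iff_of_pos (by linarith)]
    exact H.pos _ _ hI.1
  have hSt : sm A ^ (p - 1) ≠ ∞ := ENNReal.rpow_ne_top_of_nonneg hp1 (H.fin _ _)
  have hsplit : fm f A = fm f (A \ O) + fm f (O ∩ A) := by
    rw [inter_comm O A, add_comm]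
    exact (measure_inter_add_sdiff A hOm).symm
  have hx : fm f (A \ O) ^ p ≤ Fm (A \ O) * sm A ^ (p - 1) := by
    refine (H.holder _ (measurableSet_Ioo.diff hOm)).trans ?_
    gcongr
    exact sdiff_subset
  have hsmall : sm (O ∩ A) ≤ κ * sm A := by
    refine H.small _ _ hI.1 _ (hOm.inter measurableSet_Ioo) inter_subset_right ?_
    have h1 := vol_children hf hl hI
    rw [← hA, ← hO] at h1
    have h2 : A \ (O ∩ A) = A \ O := by
      ext x; simp only [Set.mem_sdiff, mem_inter_iff]; tauto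
    rw [← hA, h2]
    have h3 : volume A = volume (A \ O) + volume (O ∩ A) := by
      rw [inter_comm O A, add_comm]
      exact (measure_inter_add_sdiff A hOm).symm
    have hfin : volume A ≠ ∞ := by rw [hA, Real.volume_Ioo]; exact ENNReal.ofReal_ne_top
    have h4 : volume A ≤ volume (A \ O) + volume A / 2 := by
      calc volume A = volume (A \ O) + volume (O ∩ A) := h3
        _ ≤ _ := by gcongr
    have h5 : volume A / 2 + volume A / 2 ≤ volume (A \ O) + volume A / 2 := by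
      rwa [ENNReal.add_halves]
    exact (ENNReal.add_le_add_iff_right (ENNReal.div_ne_top hfin (by norm_num))).mp h5
  have hy : fm f (O ∩ A) ^ p ≤ (∑' J : Ch f (2 * l) I, TT p f sm J.1) * ((κ ^ (p - 1) : ℝ≥0) * sm A ^ (p - 1)) := by
    rw [measure_children hf hl (by linarith : l ≤ 2 * l) hI (fm f)]
    refine (holder_tsum hp _ (fun J : Ch f (2 * l) I => sm (Ioo J.1.1 J.1.2)) ?_ ?_).trans ?_
    · intro J; exact H.pos _ _ J.2.1.1
    · intro J; exact H.fin _ _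
    · rw [← measure_children hf hl (by linarith : l ≤ 2 * l) hI sm]
      refine mul_le_mul' le_rfl ?_
      calc sm (O ∩ A) ^ (p - 1) ≤ (κ * sm A) ^ (p - 1) := by gcongr
        _ = _ := by
          rw [ENNReal.mul_rpow_of_nonneg _ _ hp1, ENNReal.coe_rpow_of_nonneg _ hp1]
  unfold TT
  rw [← hA, ENNReal.div_le_iff hS0 hSt, hsplit]
  refine (hCD _ _).trans ?_
  calc C1 * fm f (A \ O) ^ p + D * fm f (O ∩ A) ^ p
      ≤ C1 * (Fm (A \ O) * sm A ^ (p - 1)) + D * ((∑' J : Ch f (2 * l) I, TT p f sm J.1) *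
        ((κ ^ (p - 1) : ℝ≥0) * sm A ^ (p - 1))) := by gcongr
    _ = _ := by
        unfold TT
        push_cast
        ring

/-- sum over a generation -/
def TG (p : ℝ) (f : ℝ → ℝ) (sm : Measure ℝ) (l : ℝ) : ℝ≥0∞ := ∑' I : Comp f l, TT p f sm I.1

lemma children_sum {f : ℝ → ℝ} (hf : Nice f) {l : ℝ} (hl : 0 < l) (g : ℝ × ℝ → ℝ≥0∞) :
    ∑' I : Comp f l, ∑' J : Ch f (2 * l) I.1, g J.1 ≤ ∑' J : Comp f (2 * l), g J.1 := by
  classical
  have h1 : ∀ I : Comp f l, ∑' J : Ch f (2 * l) I.1, g J.1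
      = ∑' J : Comp f (2 * l), (if Ioo J.1.1 J.1.2 ⊆ Ioo I.1.1 I.1.2 then g J.1 else 0) := by
    intro I
    rw [tsum_subtype (Ch f (2 * l) I.1) g,
      tsum_subtype (Comp f (2 * l)) (fun J => if Ioo J.1 J.2 ⊆ Ioo I.1.1 I.1.2 then g J else 0)]
    congr 1
    ext J
    simp only [Set.indicator, Ch]
    by_cases h2 : J ∈ Comp f (2 * l)
    · by_cases h3 : Ioo J.1 J.2 ⊆ Ioo I.1.1 I.1.2
      · simp [h2, h3]
      · simp [h2, h3]
    · simp [h2]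
  simp_rw [h1]
  rw [ENNReal.tsum_comm]
  refine ENNReal.tsum_le_tsum fun J => ?_
  obtain ⟨I, hI, hsub⟩ := comp_parent hf hl (by linarith : l ≤ 2 * l) J.2
  rw [tsum_eq_single (⟨I, hI⟩ : Comp f l)]
  · simp [hsub]
  · intro I' hne
    rw [if_neg]
    intro hsub'
    apply hne
    have hmid : (J.1.1 + J.1.2) / 2 ∈ Ioo J.1.1 J.1.2 := by
      have := J.2.1
      constructor <;> linarith
    exact Subtype.ext (comp_unique I'.2 hI (hsub' hmid) (hsub hmid))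

lemma TG_rec {p : ℝ} (hp : 1 < p) {f : ℝ → ℝ} (hf : Nice f) {sm Fm : Measure ℝ} {κ : ℝ≥0}
    (H : Hyp p f sm Fm κ) {C1 D : ℝ≥0}
    (hCD : ∀ x y : ℝ≥0∞, (x + y) ^ p ≤ C1 * x ^ p + D * y ^ p) {l : ℝ} (hl : 0 < l) :
    TG p f sm l ≤ C1 * Fm (Om f l \ Om f (2 * l)) + (D * κ ^ (p - 1) : ℝ≥0) * TG p f sm (2 * l) := by
  have h1 : TG p f sm l ≤ ∑' I : Comp f l, (C1 * Fm (Ioo I.1.1 I.1.2 \ Om f (2 * l))
      + (D * κ ^ (p - 1) : ℝ≥0) * ∑' J : Ch f (2 * l) I.1, TT p f sm J.1) :=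
    ENNReal.tsum_le_tsum fun I => TT_rec hp hf H hCD hl I.2
  rw [ENNReal.tsum_add, ENNReal.tsum_mul_left, ENNReal.tsum_mul_left] at h1
  refine h1.trans ?_
  gcongr
  · have hOm : MeasurableSet (Om f (2 * l)) := (Om_open hf _).measurableSet
    have h2 : Om f l \ Om f (2 * l) = ⋃ I ∈ Comp f l, (Ioo I.1 I.2 \ Om f (2 * l)) := by
      conv_lhs => rw [Om_eq_union hf hl]
      ext x
      simp only [Set.mem_sdiff, mem_iUnion]
      constructor
      · rintro ⟨⟨I, hI, hx⟩, hn⟩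
        exact ⟨I, hI, hx, hn⟩
      · rintro ⟨I, hI, hx, hn⟩
        exact ⟨⟨I, hI, hx⟩, hn⟩
    rw [h2, measure_biUnion comp_countable]
    · intro I hI J hJ hne
      exact (comp_disj hI hJ hne).mono sdiff_subset sdiff_subset
    · intro I _
      exact measurableSet_Ioo.diff hOm
  · exact children_sum hf hl _

lemma TG_le {p : ℝ} {f : ℝ → ℝ} (_hf : Nice f) {sm Fm : Measure ℝ} {κ : ℝ≥0}
    (H : Hyp p f sm Fm κ) (hp : 1 < p) {l : ℝ} (_hl : 0 < l) :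
    TG p f sm l ≤ Fm univ := by
  have h1 : ∀ I : Comp f l, TT p f sm I.1 ≤ Fm (Ioo I.1.1 I.1.2) := by
    intro I
    unfold TT
    have hS0 : sm (Ioo I.1.1 I.1.2) ^ (p - 1) ≠ 0 := by
      rw [Ne, ENNReal.rpow_eq_zero_iff_of_pos (by linarith)]
      exact H.pos _ _ I.2.1
    have hSt : sm (Ioo I.1.1 I.1.2) ^ (p - 1) ≠ ∞ :=
      ENNReal.rpow_ne_top_of_nonneg (by linarith) (H.fin _ _)
    rw [ENNReal.div_le_iff hS0 hSt]
    exact H.holder _ measurableSet_Ioo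
  calc TG p f sm l ≤ ∑' I : Comp f l, Fm (Ioo I.1.1 I.1.2) := ENNReal.tsum_le_tsum h1
    _ = Fm (⋃ I ∈ Comp f l, Ioo I.1 I.2) :=
        (measure_biUnion comp_countable comp_disj (fun _ _ => measurableSet_Ioo)).symm
    _ ≤ Fm univ := measure_mono (subset_univ _)

lemma sum_finite {p : ℝ} (hp : 1 < p) {f : ℝ → ℝ} (hf : Nice f) {sm Fm : Measure ℝ} {κ : ℝ≥0}
    (H : Hyp p f sm Fm κ) {C1 D : ℝ≥0}
    (hCD : ∀ x y : ℝ≥0∞, (x + y) ^ p ≤ C1 * x ^ p + D * y ^ p)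
    (hθ : D * κ ^ (p - 1) < 1) (hFm : Fm univ ≠ ∞) (l : ℝ) (hl : 0 < l) (n : ℕ) :
    ∑ k ∈ Finset.range n, TG p f sm (2 ^ k * l) ≤ ((C1 + 1) / (1 - D * κ ^ (p - 1)) : ℝ≥0) * Fm univ := by
  set θ : ℝ≥0 := D * κ ^ (p - 1) with hθdef
  set t : ℕ → ℝ≥0∞ := fun k => TG p f sm (2 ^ k * l) with ht
  have hlk : ∀ k : ℕ, 0 < 2 ^ k * l := fun k => by positivity
  have htfin : ∀ k, t k ≠ ∞ := fun k => ((TG_le hf H hp (hlk k)).trans_lt (lt_top_iff_ne_top.mpr hFm)).ne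
  have hOmm : ∀ k : ℕ, MeasurableSet (Om f (2 ^ k * l)) := fun k => (Om_open hf _).measurableSet
  have hdiff : ∀ n : ℕ, ∑ k ∈ Finset.range n, Fm (Om f (2 ^ k * l) \ Om f (2 ^ (k + 1) * l))
      + Fm (Om f (2 ^ n * l)) ≤ Fm univ := by
    intro n
    induction n with
    | zero => simpa using measure_mono (subset_univ _)
    | succ n ih =>
      rw [Finset.sum_range_succ, add_assoc]
      refine le_trans ?_ ih
      gcongr
      have hsub : Om f (2 ^ (n + 1) * l) ⊆ Om f (2 ^ n * l) := by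
        refine Om_mono hf ?_
        rw [pow_succ]
        have : 0 < 2 ^ n * l := by positivity
        nlinarith
      have h1 := measure_inter_add_sdiff (μ := Fm) (Om f (2 ^ n * l)) (hOmm (n + 1))
      rw [inter_eq_self_of_subset_right hsub] at h1
      rw [add_comm]
      exact h1.le
  have hrec : ∀ k, t k ≤ C1 * Fm (Om f (2 ^ k * l) \ Om f (2 ^ (k + 1) * l)) + θ * t (k + 1) := by
    intro k
    have h1 := TG_rec hp hf H hCD (hlk k)
    have h2 : 2 * (2 ^ k * l) = 2 ^ (k + 1) * l := by ring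
    rw [h2] at h1
    exact h1
  have hS : ∑ k ∈ Finset.range n, t k ≤ C1 * Fm univ + θ * (∑ k ∈ Finset.range n, t k + Fm univ) := by
    calc ∑ k ∈ Finset.range n, t k
        ≤ ∑ k ∈ Finset.range n, (C1 * Fm (Om f (2 ^ k * l) \ Om f (2 ^ (k + 1) * l)) + θ * t (k + 1)) :=
          Finset.sum_le_sum fun k _ => hrec k
      _ = C1 * ∑ k ∈ Finset.range n, Fm (Om f (2 ^ k * l) \ Om f (2 ^ (k + 1) * l))
          + θ * ∑ k ∈ Finset.range n, t (k + 1) := by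
          rw [Finset.sum_add_distrib, Finset.mul_sum, Finset.mul_sum]
      _ ≤ _ := by
          gcongr
          · exact (le_self_add).trans (hdiff n)
          · calc ∑ k ∈ Finset.range n, t (k + 1) ≤ ∑ k ∈ Finset.range (n + 1), t k := by
                  rw [Finset.sum_range_succ']
                  exact le_self_add
              _ = ∑ k ∈ Finset.range n, t k + t n := Finset.sum_range_succ _ _
              _ ≤ _ := by
                  gcongr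
                  exact TG_le hf H hp (hlk n)
  -- pass to real numbers
  have hSfin : ∑ k ∈ Finset.range n, t k ≠ ∞ := by
    simp only [ne_eq, ENNReal.sum_eq_top, not_exists, not_and]
    intro k _
    exact htfin k
  lift (∑ k ∈ Finset.range n, t k) to ℝ≥0 using hSfin with S
  lift (Fm univ) to ℝ≥0 using hFm with F
  have hS' : S ≤ C1 * F + θ * (S + F) := by exact_mod_cast hS
  have hgoal : S ≤ (C1 + 1) / (1 - θ) * F := by
    have h1θ : 0 < 1 - θ := tsub_pos_of_lt hθ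
    rw [div_mul_eq_mul_div, le_div_iff₀ h1θ]
    have h3 : (S:ℝ) ≤ C1 * F + θ * (S + F) := by exact_mod_cast hS'
    have h4 : (θ:ℝ) < 1 := by exact_mod_cast hθ
    have h5 : ((1 - θ : ℝ≥0) : ℝ) = 1 - θ := NNReal.coe_sub hθ.le
    rw [← NNReal.coe_le_coe]
    push_cast [h5]
    have h6 : (0:ℝ) ≤ F := F.2
    nlinarith
  exact_mod_cast hgoal

lemma sum_all {p : ℝ} (hp : 1 < p) {f : ℝ → ℝ} (hf : Nice f) {sm Fm : Measure ℝ} {κ : ℝ≥0}
    (H : Hyp p f sm Fm κ) {C1 D : ℝ≥0}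
    (hCD : ∀ x y : ℝ≥0∞, (x + y) ^ p ≤ C1 * x ^ p + D * y ^ p)
    (hθ : D * κ ^ (p - 1) < 1) (hFm : Fm univ ≠ ∞) :
    ∑' k : ℤ, TG p f sm (2 ^ k) ≤ ((C1 + 1) / (1 - D * κ ^ (p - 1)) : ℝ≥0) * Fm univ := by
  rw [ENNReal.tsum_eq_iSup_sum]
  refine iSup_le fun s => ?_
  obtain ⟨N, hN⟩ : ∃ N : ℕ, ∀ k ∈ s, -(N:ℤ) ≤ k ∧ k < N := by
    refine ⟨∑ k ∈ s, (k.natAbs + 1), fun k hk => ?_⟩
    have h1 : k.natAbs + 1 ≤ ∑ k ∈ s, (k.natAbs + 1) :=
      Finset.single_le_sum (f := fun k : ℤ => k.natAbs + 1) (fun _ _ => Nat.zero_le _) hk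
    omega
  have h2 := sum_finite hp hf H hCD hθ hFm ((2:ℝ) ^ (-(N:ℤ))) (by positivity) (2 * N)
  refine le_trans ?_ h2
  have h3 : ∀ k : ℕ, (2:ℝ) ^ k * (2:ℝ) ^ (-(N:ℤ)) = (2:ℝ) ^ ((k:ℤ) - N) := by
    intro k
    rw [← zpow_natCast, ← zpow_add₀ (by norm_num)]
    rfl
  simp_rw [h3]
  have h4 : ∑ k ∈ Finset.range (2 * N), TG p f sm ((2:ℝ) ^ ((k:ℤ) - N))
      = ∑ k ∈ (Finset.range (2 * N)).image (fun k : ℕ => (k:ℤ) - N), TG p f sm ((2:ℝ) ^ k) := by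
    rw [Finset.sum_image]
    intro a _ b _ hab
    simp only at hab
    omega
  rw [h4]
  refine Finset.sum_le_sum_of_subset fun k hk => ?_
  obtain ⟨h5, h6⟩ := hN k hk
  rw [Finset.mem_image]
  refine ⟨(k + N).toNat, ?_, ?_⟩
  · rw [Finset.mem_range]; omega
  · omega

end

end Pool.Agent.Helper66.Mix
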