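import Pool.Agent.Helper66.MixB

set_option autoImplicit false
open MeasureTheory Set Filter Topology
open scoped ENNReal NNReal

namespace Pool.Agent.Helper66.Mix

noncomputable section

/-- dual weight -/
def sg (p : ℝ) (U : ℝ → ℝ≥0) (x : ℝ) : ℝ≥0∞ := (U x : ℝ≥0∞) ^ (-(1 / (p - 1)))

/-- dual measure -/
def sm (p : ℝ) (U : ℝ → ℝ≥0) : Measure ℝ := volume.withDensity (sg p U)

/-- weak norm of the restriction of the weight to an interval -/
def NI (U : ℝ → ℝ≥0) (a b : ℝ) : ℝ≥0∞ :=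
  ⨆ y : NNReal, (y : ENNReal) * volume ({x : ℝ | (y : ENNReal) < (U x : ENNReal)} ∩ Set.Icc a b)

/-- the condition (N) -/
def CondN (p : ℝ) (U : ℝ → ℝ≥0) (C : ℝ≥0) : Prop :=
  ∀ a b : ℝ, a < b →
        (ENNReal.ofReal (b - a))⁻¹
            * (⨆ y : NNReal, (y : ENNReal) * volume ({x : ℝ | (y : ENNReal) < (U x : ENNReal)} ∩ Set.Icc a b))
          * ((ENNReal.ofReal (b - a))⁻¹
              * ∫⁻ x in Set.Icc a b, (U x : ENNReal) ^ (-(1 / (p - 1)))) ^ (p - 1)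
          ≤ (C : ENNReal)

lemma sg_meas {p : ℝ} {U : ℝ → ℝ≥0} (hU : Measurable U) : Measurable (sg p U) := by
  unfold sg; fun_prop

lemma sg_pos {p : ℝ} {U : ℝ → ℝ≥0} (x : ℝ) (hp : 1 < p) : sg p U x ≠ 0 := by
  unfold sg
  intro h
  rw [ENNReal.rpow_eq_zero_iff] at h
  rcases h with ⟨h1, h2⟩ | ⟨h1, h2⟩
  · have : 0 < 1 / (p - 1) := by have : 0 < p - 1 := by linarith
                                 positivity
    linarith
  · exact ENNReal.coe_ne_top h1

lemma sm_Ioo {p : ℝ} {U : ℝ → ℝ≥0} (a b : ℝ) :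
    sm p U (Ioo a b) = ∫⁻ x in Set.Icc a b, (U x : ENNReal) ^ (-(1 / (p - 1))) := by
  rw [sm, withDensity_apply _ measurableSet_Ioo]
  exact setLIntegral_congr Ioo_ae_eq_Icc

lemma condN' {p : ℝ} (hp : 1 < p) {U : ℝ → ℝ≥0} {C : ℝ≥0} (hN : CondN p U C) {a b : ℝ} (hab : a < b) :
    NI U a b * sm p U (Ioo a b) ^ (p - 1) ≤ C * ENNReal.ofReal (b - a) ^ p := by
  have h1 := hN a b hab
  rw [← sm_Ioo] at h1
  change (ENNReal.ofReal (b - a))⁻¹ * NI U a b * ((ENNReal.ofReal (b - a))⁻¹ * sm p U (Ioo a b)) ^ (p - 1) ≤ C at h1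
  set L := ENNReal.ofReal (b - a) with hL
  have hL0 : L ≠ 0 := by rw [hL]; simpa using hab
  have hLt : L ≠ ∞ := ENNReal.ofReal_ne_top
  have hp1 : 0 ≤ p - 1 := by linarith
  rw [ENNReal.mul_rpow_of_nonneg _ _ hp1] at h1
  have e1 : L ^ p = L * L ^ (p - 1) := by
    have : p = 1 + (p - 1) := by ring
    conv_lhs => rw [this]
    rw [ENNReal.rpow_add _ _ hL0 hLt, ENNReal.rpow_one]
  have e2 : L * L⁻¹ = 1 := ENNReal.mul_inv_cancel hL0 hLt
  have e3 : L ^ (p - 1) * (L⁻¹) ^ (p - 1) = 1 := by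
    rw [← ENNReal.mul_rpow_of_nonneg _ _ hp1, e2, ENNReal.one_rpow]
  calc NI U a b * sm p U (Ioo a b) ^ (p - 1)
      = (L * L⁻¹) * (L ^ (p - 1) * (L⁻¹) ^ (p - 1)) * (NI U a b * sm p U (Ioo a b) ^ (p - 1)) := by
        rw [e2, e3]; simp
    _ = (L⁻¹ * NI U a b * ((L⁻¹) ^ (p - 1) * sm p U (Ioo a b) ^ (p - 1))) * (L * L ^ (p - 1)) := by ring
    _ ≤ C * (L * L ^ (p - 1)) := by gcongr
    _ = _ := by rw [e1]

lemma NI_mono {U : ℝ → ℝ≥0} {a b a' b' : ℝ} (h1 : a' ≤ a) (h2 : b ≤ b') : NI U a b ≤ NI U a' b' := by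
  unfold NI
  gcongr

lemma le_NI (U : ℝ → ℝ≥0) (a b : ℝ) (y : ℝ≥0) :
    (y : ℝ≥0∞) * volume ({x : ℝ | (y : ENNReal) < (U x : ENNReal)} ∩ Set.Icc a b) ≤ NI U a b :=
  le_iSup (fun y : ℝ≥0 => (y : ENNReal) * volume ({x : ℝ | (y : ENNReal) < (U x : ENNReal)} ∩ Set.Icc a b)) y

/-- if the weight is not a.e. zero, the weak norm is positive on some interval -/
lemma exists_NI_pos {U : ℝ → ℝ≥0} (hU0 : ¬ (∀ᵐ x, U x = 0)) : ∃ m : ℕ, NI U (-m) m ≠ 0 := by
  by_contra hcon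
  push Not at hcon
  apply hU0
  have h1 : ∀ n m : ℕ, volume ({x : ℝ | (((1 / ((n:ℝ≥0) + 1) : ℝ≥0)) : ENNReal) < (U x : ENNReal)} ∩ Set.Icc (-(m:ℝ)) m) = 0 := by
    intro n m
    have h2 := le_NI U (-m) m (1 / ((n:ℝ≥0) + 1))
    rw [hcon m, nonpos_iff_eq_zero, mul_eq_zero] at h2
    rcases h2 with h2 | h2
    · exfalso
      have : (1 / ((n:ℝ≥0) + 1) : ℝ≥0) ≠ 0 := by positivity
      exact this (by exact_mod_cast h2)
    · exact h2
  have h2 : volume (⋃ n : ℕ, ⋃ m : ℕ, ({x : ℝ | (((1 / ((n:ℝ≥0) + 1) : ℝ≥0)) : ENNReal) < (U x : ENNReal)} ∩ Set.Icc (-(m:ℝ)) m)) = 0 := by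
    rw [measure_iUnion_null_iff]
    intro n
    rw [measure_iUnion_null_iff]
    exact h1 n
  rw [ae_iff]
  refine measure_mono_null ?_ h2
  intro x hx
  have hx' : 0 < U x := pos_iff_ne_zero.mpr hx
  obtain ⟨n, hn⟩ := exists_nat_one_div_lt (K := ℝ) (show (0:ℝ) < U x from hx')
  obtain ⟨m, hm⟩ := exists_nat_ge |x|
  rw [mem_iUnion₂]
  refine ⟨n, m, ?_, ?_⟩
  · change (((1 / ((n:ℝ≥0) + 1) : ℝ≥0)) : ENNReal) < (U x : ENNReal)
    rw [ENNReal.coe_lt_coe, ← NNReal.coe_lt_coe]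
    push_cast
    exact hn
  · rw [mem_Icc, ← abs_le]
    exact hm

lemma sm_fin {p : ℝ} (hp : 1 < p) {U : ℝ → ℝ≥0} {C : ℝ≥0} (hN : CondN p U C)
    (hU0 : ¬ (∀ᵐ x, U x = 0)) (a b : ℝ) : sm p U (Ioo a b) ≠ ∞ := by
  obtain ⟨m, hm⟩ := exists_NI_pos hU0
  set A : ℝ := max (max |a| |b|) m + 1 with hA
  have hA1 : (m:ℝ) ≤ A := by have := le_max_right (max |a| |b|) (m:ℝ); linarith
  have hA2 : |a| ≤ A := by
    have := le_max_left (max |a| |b|) (m:ℝ)
    have := le_max_left |a| |b|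
    linarith
  have hA3 : |b| ≤ A := by
    have := le_max_left (max |a| |b|) (m:ℝ)
    have := le_max_right |a| |b|
    linarith
  have hA0 : 0 < A := by
    have : (0:ℝ) ≤ m := by positivity
    have := le_max_right (max |a| |b|) (m:ℝ)
    linarith
  have h1 := condN' hp hN (show -A < A by linarith)
  have h2 : NI U (-A) A ≠ 0 := by
    intro h
    apply hm
    have := NI_mono (U := U) (show -A ≤ -(m:ℝ) by linarith) hA1
    rw [h] at this
    exact le_antisymm this bot_le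
  have h3 : sm p U (Ioo (-A) A) ≠ ∞ := by
    intro h
    rw [h, ENNReal.top_rpow_of_pos (by linarith), ENNReal.mul_top h2] at h1
    have h4 : (C : ℝ≥0∞) * ENNReal.ofReal (A - -A) ^ p ≠ ∞ :=
      ENNReal.mul_ne_top ENNReal.coe_ne_top (ENNReal.rpow_ne_top_of_nonneg (by linarith) ENNReal.ofReal_ne_top)
    exact h4 (top_le_iff.mp h1)
  refine ne_top_of_le_ne_top h3 (measure_mono ?_)
  apply Ioo_subset_Ioo
  · have := neg_abs_le a; linarith
  · have := le_abs_self b; linarith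

lemma U_pos_ae {p : ℝ} (hp : 1 < p) {U : ℝ → ℝ≥0} (hU : Measurable U) {C : ℝ≥0} (hN : CondN p U C)
    (hU0 : ¬ (∀ᵐ x, U x = 0)) : ∀ᵐ x, U x ≠ 0 := by
  have h1 : ∀ n : ℕ, ∀ᵐ x, x ∈ Ioo (-(n:ℝ)) n → sg p U x < ∞ := by
    intro n
    have h2 : ∫⁻ x in Ioo (-(n:ℝ)) n, sg p U x ≠ ∞ := by
      have := sm_fin hp hN hU0 (-(n:ℝ)) n
      rwa [sm, withDensity_apply _ measurableSet_Ioo] at this
    have h3 := ae_lt_top (sg_meas hU) h2
    exact (ae_restrict_iff' measurableSet_Ioo).mp h3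
  rw [← ae_all_iff] at h1
  filter_upwards [h1] with x hx
  obtain ⟨n, hn⟩ := exists_nat_gt |x|
  have h4 := hx n (abs_lt.mp hn)
  intro h
  unfold sg at h4
  rw [h, ENNReal.coe_zero, ENNReal.zero_rpow_of_neg] at h4
  · exact lt_irrefl _ h4
  · have : 0 < 1 / (p - 1) := by have : 0 < p - 1 := by linarith
                                 positivity
    linarith

/-- energy measure -/
def Fm (p : ℝ) (U : ℝ → ℝ≥0) (f : ℝ → ℝ) : Measure ℝ :=
  volume.withDensity (fun x => ENNReal.ofReal (f x) ^ p * (U x : ℝ≥0∞))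

lemma holder_fm {p : ℝ} (hp : 1 < p) {U : ℝ → ℝ≥0} (hU : Measurable U) (hpos : ∀ᵐ x, U x ≠ 0)
    {f : ℝ → ℝ} (hf : Nice f) (E : Set ℝ) (hE : MeasurableSet E) :
    fm f E ^ p ≤ Fm p U f E * sm p U E ^ (p - 1) := by
  rw [fm, Fm, sm, withDensity_apply _ hE, withDensity_apply _ hE, withDensity_apply _ hE]
  have hp0 : 0 < p := by linarith
  set q : ℝ := p / (p - 1) with hq
  have hpq : p.HolderConjugate q := Real.HolderConjugate.conjExponent hp
  have hfm := hf.meas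
  have h1 := ENNReal.lintegral_mul_le_Lp_mul_Lq (volume.restrict E) hpq
    (f := fun x => ENNReal.ofReal (f x) * (U x : ℝ≥0∞) ^ (1 / p))
    (g := fun x => (U x : ℝ≥0∞) ^ (-(1 / p))) (by fun_prop) (by fun_prop)
  have e0 : ∫⁻ x in E, ((fun x => ENNReal.ofReal (f x) * (U x : ℝ≥0∞) ^ (1 / p)) *
      (fun x => (U x : ℝ≥0∞) ^ (-(1 / p)))) x = ∫⁻ x in E, ENNReal.ofReal (f x) := by
    refine lintegral_congr_ae ?_
    filter_upwards [ae_restrict_of_ae hpos] with x hx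
    simp only [Pi.mul_apply]
    rw [mul_assoc, ← ENNReal.rpow_add _ _ (by simpa using hx) ENNReal.coe_ne_top]
    simp
  have e1 : ∀ x, (ENNReal.ofReal (f x) * (U x : ℝ≥0∞) ^ (1 / p)) ^ p
      = ENNReal.ofReal (f x) ^ p * (U x : ℝ≥0∞) := by
    intro x
    rw [ENNReal.mul_rpow_of_nonneg _ _ hp0.le, ← ENNReal.rpow_mul, one_div,
      inv_mul_cancel₀ hp0.ne', ENNReal.rpow_one]
  have e2 : ∀ x, ((U x : ℝ≥0∞) ^ (-(1 / p))) ^ q = sg p U x := by
    intro x
    unfold sg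
    rw [← ENNReal.rpow_mul]
    congr 1
    rw [hq]
    have : p - 1 ≠ 0 := by linarith
    field_simp
  rw [e0] at h1
  simp_rw [e1, e2] at h1
  calc (∫⁻ x in E, ENNReal.ofReal (f x)) ^ p
      ≤ ((∫⁻ x in E, ENNReal.ofReal (f x) ^ p * (U x : ℝ≥0∞)) ^ (1 / p) *
        (∫⁻ x in E, sg p U x) ^ (1 / q)) ^ p := by gcongr
    _ = _ := by
        rw [ENNReal.mul_rpow_of_nonneg _ _ hp0.le, ← ENNReal.rpow_mul, ← ENNReal.rpow_mul, one_div,
          inv_mul_cancel₀ hp0.ne', ENNReal.rpow_one]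
        congr 2
        rw [hq]
        have : p - 1 ≠ 0 := by linarith
        field_simp

lemma sm_pos {p : ℝ} (hp : 1 < p) {U : ℝ → ℝ≥0} (hU : Measurable U) (a b : ℝ) (hab : a < b) :
    sm p U (Ioo a b) ≠ 0 := by
  rw [sm, withDensity_apply _ measurableSet_Ioo, Ne, lintegral_eq_zero_iff (sg_meas hU)]
  intro h
  have h1 : (volume.restrict (Ioo a b)) univ = 0 := by
    rw [Filter.EventuallyEq, ae_iff] at h
    refine measure_mono_null ?_ h
    intro x _
    exact sg_pos x hp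
  rw [Measure.restrict_apply MeasurableSet.univ, univ_inter, Real.volume_Ioo] at h1
  simp at h1
  linarith

/-- the A-infinity type property -/
lemma ainf {p : ℝ} (hp : 1 < p) {U : ℝ → ℝ≥0} (hU : Measurable U) {C : ℝ≥0} (hN : CondN p U C)
    (hpos : ∀ᵐ x, U x ≠ 0) (hfin : ∀ a b, sm p U (Ioo a b) ≠ ∞) {a b : ℝ} (hab : a < b)
    {E : Set ℝ} (hE : MeasurableSet E) (hEs : E ⊆ Ioo a b) (hvol : volume (Ioo a b) / 2 ≤ volume E) :
    sm p U (Ioo a b) ^ (p - 1) ≤ (4 ^ p * C : ℝ≥0) * sm p U E ^ (p - 1) := by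
  have hp1 : 0 < p - 1 := by linarith
  set L := ENNReal.ofReal (b - a) with hL
  have hL0 : L ≠ 0 := by rw [hL]; simpa using hab
  have hLt : L ≠ ∞ := ENNReal.ofReal_ne_top
  have hvolI : volume (Ioo a b) = L := Real.volume_Ioo
  have hNI := condN' hp hN hab
  have hs0 := sm_pos hp hU a b hab
  have hst := hfin a b
  have hspow0 : sm p U (Ioo a b) ^ (p - 1) ≠ 0 := by
    rw [Ne, ENNReal.rpow_eq_zero_iff_of_pos hp1]; exact hs0
  have hNt : NI U a b ≠ ∞ := by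
    intro h
    rw [h, ENNReal.top_mul hspow0] at hNI
    have h4 : (C : ℝ≥0∞) * L ^ p ≠ ∞ :=
      ENNReal.mul_ne_top ENNReal.coe_ne_top (ENNReal.rpow_ne_top_of_nonneg (by linarith) hLt)
    exact h4 (top_le_iff.mp hNI)
  have hN0 : NI U a b ≠ 0 := by
    intro h
    -- then U = 0 a.e. on the interval
    have h1 : ∀ n : ℕ, volume ({x : ℝ | (((1 / ((n:ℝ≥0) + 1) : ℝ≥0)) : ENNReal) < (U x : ENNReal)} ∩ Set.Icc a b) = 0 := by
      intro n
      have h2 := le_NI U a b (1 / ((n:ℝ≥0) + 1))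
      rw [h, nonpos_iff_eq_zero, mul_eq_zero] at h2
      rcases h2 with h2 | h2
      · exfalso
        have : (1 / ((n:ℝ≥0) + 1) : ℝ≥0) ≠ 0 := by positivity
        exact this (by exact_mod_cast h2)
      · exact h2
    have h2 : volume (⋃ n : ℕ, ({x : ℝ | (((1 / ((n:ℝ≥0) + 1) : ℝ≥0)) : ENNReal) < (U x : ENNReal)} ∩ Set.Icc a b)) = 0 := by
      rw [measure_iUnion_null_iff]
      exact h1
    have h3 : volume (Icc a b) = 0 := by
      have h4 : Icc a b ⊆ (⋃ n : ℕ, ({x : ℝ | (((1 / ((n:ℝ≥0) + 1) : ℝ≥0)) : ENNReal) < (U x : ENNReal)} ∩ Set.Icc a b))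
          ∪ {x | ¬ (U x ≠ 0)} := by
        intro x hx
        by_cases hx0 : U x = 0
        · right
          simpa using hx0
        · left
          have hx' : 0 < U x := pos_iff_ne_zero.mpr hx0
          obtain ⟨n, hn⟩ := exists_nat_one_div_lt (K := ℝ) (show (0:ℝ) < U x from hx')
          rw [mem_iUnion]
          refine ⟨n, ?_, hx⟩
          change (((1 / ((n:ℝ≥0) + 1) : ℝ≥0)) : ENNReal) < (U x : ENNReal)
          rw [ENNReal.coe_lt_coe, ← NNReal.coe_lt_coe]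
          push_cast
          exact hn
      refine measure_mono_null h4 (measure_union_null h2 ?_)
      exact ae_iff.mp hpos
    rw [Real.volume_Icc] at h3
    simp at h3
    linarith
  -- threshold
  set t : ℝ≥0∞ := 4 * NI U a b / L with ht
  have ht0 : t ≠ 0 := by
    rw [ht]
    exact (ENNReal.div_pos (mul_ne_zero (by norm_num) hN0) hLt).ne'
  have htt : t ≠ ∞ := ENNReal.div_ne_top (ENNReal.mul_ne_top (by norm_num) hNt) hL0
  have hvt : volume ({x : ℝ | t < (U x : ENNReal)} ∩ Icc a b) ≤ L / 4 := by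
    have h1 := le_NI U a b t.toNNReal
    rw [ENNReal.coe_toNNReal htt] at h1
    rw [mul_comm, ← ENNReal.le_div_iff_mul_le (Or.inl ht0) (Or.inl htt)] at h1
    refine h1.trans (le_of_eq ?_)
    rw [ht, ENNReal.div_eq_inv_mul, ENNReal.div_eq_inv_mul, ENNReal.div_eq_inv_mul,
      ENNReal.mul_inv (Or.inl (ENNReal.inv_ne_zero.mpr hLt)) (Or.inl (ENNReal.inv_ne_top.mpr hL0)),
      inv_inv, ENNReal.mul_inv (Or.inl (by norm_num)) (Or.inl (by norm_num))]
    calc L * ((4:ℝ≥0∞)⁻¹ * (NI U a b)⁻¹) * NI U a b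
        = (4:ℝ≥0∞)⁻¹ * L * ((NI U a b)⁻¹ * NI U a b) := by ring
      _ = _ := by rw [ENNReal.inv_mul_cancel hN0 hNt, mul_one]
  set E' := E \ {x : ℝ | t < (U x : ENNReal)} with hE'
  have hmeast : MeasurableSet {x : ℝ | t < (U x : ENNReal)} :=
    measurableSet_lt measurable_const (by fun_prop)
  have hE'm : MeasurableSet E' := hE.diff hmeast
  have hvE' : L / 4 ≤ volume E' := by
    have h1 : volume E ≤ volume E' + L / 4 := by
      calc volume E = volume (E ∩ {x : ℝ | t < (U x : ENNReal)}) + volume E' :=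
            (measure_inter_add_sdiff E hmeast).symm
        _ ≤ L / 4 + volume E' := by
            gcongr
            refine le_trans (measure_mono ?_) hvt
            rintro x ⟨hx1, hx2⟩
            exact ⟨hx2, Ioo_subset_Icc_self (hEs hx1)⟩
        _ = _ := add_comm _ _
    have h2 : L / 4 + L / 4 ≤ volume E' + L / 4 := by
      refine le_trans (le_of_eq ?_) (hvol.trans h1)
      rw [hvolI, ← two_mul, ENNReal.div_eq_inv_mul, ENNReal.div_eq_inv_mul, ← mul_assoc]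
      congr 1
      have : (4:ℝ≥0∞) = 2 * 2 := by norm_num
      rw [this, ENNReal.mul_inv (Or.inl (by norm_num)) (Or.inl (by norm_num)), ← mul_assoc,
        ENNReal.mul_inv_cancel (by norm_num) (by norm_num), one_mul]
    exact (ENNReal.add_le_add_iff_right (ENNReal.div_ne_top hLt (by norm_num))).mp h2
  have hsE' : t ^ (-(1 / (p - 1))) * (L / 4) ≤ sm p U E' := by
    rw [sm, withDensity_apply _ hE'm]
    calc t ^ (-(1 / (p - 1))) * (L / 4) ≤ t ^ (-(1 / (p - 1))) * volume E' := by gcongr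
      _ = ∫⁻ _x in E', t ^ (-(1 / (p - 1))) := by simp
      _ ≤ ∫⁻ x in E', sg p U x := by
          refine setLIntegral_mono' hE'm fun x hx => ?_
          unfold sg
          rw [ENNReal.rpow_neg, ENNReal.rpow_neg]
          refine ENNReal.inv_le_inv.mpr ?_
          refine ENNReal.rpow_le_rpow ?_ (by positivity)
          have := hx.2
          simpa using this
  have hsE : t⁻¹ * (L / 4) ^ (p - 1) ≤ sm p U E ^ (p - 1) := by
    calc t⁻¹ * (L / 4) ^ (p - 1) = (t ^ (-(1 / (p - 1))) * (L / 4)) ^ (p - 1) := by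
          rw [ENNReal.mul_rpow_of_nonneg _ _ hp1.le, ← ENNReal.rpow_mul]
          congr 1
          have : -(1 / (p - 1)) * (p - 1) = -1 := by field_simp
          rw [this, ENNReal.rpow_neg_one]
      _ ≤ sm p U E' ^ (p - 1) := by gcongr
      _ ≤ _ := by
          gcongr
          exact sdiff_subset
  -- combine
  have h4 : L ^ p ≤ 4 ^ p * (NI U a b * sm p U E ^ (p - 1)) := by
    have e1 : L ^ p = L * L ^ (p - 1) := by
      have : p = 1 + (p - 1) := by ring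
      conv_lhs => rw [this]
      rw [ENNReal.rpow_add _ _ hL0 hLt, ENNReal.rpow_one]
    have e2 : (4:ℝ≥0∞) ^ p = 4 * 4 ^ (p - 1) := by
      have : p = 1 + (p - 1) := by ring
      conv_lhs => rw [this]
      rw [ENNReal.rpow_add _ _ (by norm_num) (by norm_num), ENNReal.rpow_one]
    have e3 : L = 4 * NI U a b * t⁻¹ := by
      rw [ht, ENNReal.div_eq_inv_mul, ENNReal.mul_inv (Or.inl (ENNReal.inv_ne_zero.mpr hLt))
        (Or.inl (ENNReal.inv_ne_top.mpr hL0)), inv_inv]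
      calc L = L * (4 * NI U a b * (4 * NI U a b)⁻¹) := by
            rw [ENNReal.mul_inv_cancel (mul_ne_zero (by norm_num) hN0)
              (ENNReal.mul_ne_top (by norm_num) hNt), mul_one]
        _ = _ := by ring
    have e4 : L ^ (p - 1) = 4 ^ (p - 1) * (L / 4) ^ (p - 1) := by
      rw [← ENNReal.mul_rpow_of_nonneg _ _ hp1.le, ENNReal.mul_div_cancel (by norm_num) (by norm_num)]
    calc L ^ p = (4 * NI U a b * t⁻¹) * (4 ^ (p - 1) * (L / 4) ^ (p - 1)) := by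
          rw [e1, ← e3, ← e4]
      _ = 4 * 4 ^ (p - 1) * (NI U a b * (t⁻¹ * (L / 4) ^ (p - 1))) := by ring
      _ ≤ 4 * 4 ^ (p - 1) * (NI U a b * sm p U E ^ (p - 1)) := by gcongr
      _ = _ := by rw [← e2]
  have h5 : NI U a b * sm p U (Ioo a b) ^ (p - 1) ≤ NI U a b * ((4 ^ p * C : ℝ≥0) * sm p U E ^ (p - 1)) := by
    calc NI U a b * sm p U (Ioo a b) ^ (p - 1) ≤ C * L ^ p := hNI
      _ ≤ C * (4 ^ p * (NI U a b * sm p U E ^ (p - 1))) := by gcongr
      _ = _ := by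
          push_cast
          rw [ENNReal.coe_rpow_of_nonneg _ (by linarith : 0 ≤ p)]
          push_cast
          ring
  exact (ENNReal.mul_le_mul_iff_right hN0 hNt).mp h5

end

end Pool.Agent.Helper66.Mix
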