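import Pool.Agent.Helper66.MixC

set_option autoImplicit false
open MeasureTheory Set Filter Topology
open scoped ENNReal NNReal

namespace Pool.Agent.Helper66.Mix

noncomputable section

lemma exists_kappa {p : ℝ} (hp : 1 < p) (C : ℝ≥0) : ∃ κ : ℝ≥0, κ < 1 ∧
    ∀ U : ℝ → ℝ≥0, Measurable U → CondN p U C → ¬ (∀ᵐ x, U x = 0) →
      ∀ f : ℝ → ℝ, Nice f → Hyp p f (sm p U) (Fm p U f) κ := by
  have hp1 : 0 < p - 1 := by linarith
  set K : ℝ≥0 := max 1 ((4 ^ p * C) ^ (1 / (p - 1))) with hK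
  have hK1 : 1 ≤ K := le_max_left _ _
  have hK0 : 0 < K := lt_of_lt_of_le one_pos hK1
  refine ⟨1 - K⁻¹, ?_, ?_⟩
  · exact tsub_lt_self one_pos (inv_pos.mpr hK0)
  · intro U hU hN hU0 f hf
    have hpos := U_pos_ae hp hU hN hU0
    have hfin := sm_fin hp hN hU0
    refine ⟨fun E hE => holder_fm hp hU hpos hf E hE, sm_pos hp hU, hfin, ?_⟩
    intro a b hab E hE hEs hvol
    have h1 := ainf hp hU hN hpos hfin hab (measurableSet_Ioo.diff hE) sdiff_subset hvol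
    have h2 : sm p U (Ioo a b) ≤ K * sm p U (Ioo a b \ E) := by
      have h3 : (sm p U (Ioo a b) ^ (p - 1)) ^ (1 / (p - 1)) ≤
          ((4 ^ p * C : ℝ≥0) * sm p U (Ioo a b \ E) ^ (p - 1)) ^ (1 / (p - 1)) :=
        ENNReal.rpow_le_rpow h1 (by positivity)
      rw [ENNReal.mul_rpow_of_nonneg _ _ (by positivity), ← ENNReal.rpow_mul, ← ENNReal.rpow_mul,
        mul_one_div_cancel hp1.ne', ENNReal.rpow_one, ENNReal.rpow_one,
        ← ENNReal.coe_rpow_of_nonneg _ (by positivity : 0 ≤ 1 / (p - 1))] at h3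
      refine h3.trans ?_
      gcongr
      exact le_max_right _ _
    have hsplit : sm p U (Ioo a b) = sm p U E + sm p U (Ioo a b \ E) := by
      have := measure_inter_add_sdiff (μ := sm p U) (Ioo a b) hE
      rw [inter_eq_self_of_subset_right hEs] at this
      exact this.symm
    have hft := hfin a b
    have hEt : sm p U E ≠ ∞ := ne_top_of_le_ne_top hft (measure_mono hEs)
    have hDt : sm p U (Ioo a b \ E) ≠ ∞ := ne_top_of_le_ne_top hft (measure_mono sdiff_subset)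
    generalize sm p U (Ioo a b) = s at *
    generalize sm p U E = e at *
    generalize sm p U (Ioo a b \ E) = d at *
    lift s to ℝ≥0 using hft
    lift e to ℝ≥0 using hEt
    lift d to ℝ≥0 using hDt
    have h4 : s ≤ K * d := by exact_mod_cast h2
    have h5 : s = e + d := by exact_mod_cast hsplit
    have h6 : e ≤ (1 - K⁻¹) * s := by
      have h7 : K⁻¹ ≤ 1 := inv_le_one_of_one_le₀ hK1
      have h8 : ((1 - K⁻¹ : ℝ≥0) : ℝ) = 1 - (K:ℝ)⁻¹ := by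
        rw [NNReal.coe_sub h7]; simp
      rw [← NNReal.coe_le_coe]
      push_cast [h8]
      have h4' : (s:ℝ) ≤ K * d := by exact_mod_cast h4
      have h5' : (s:ℝ) = e + d := by exact_mod_cast h5
      have hKr : (0:ℝ) < K := by exact_mod_cast hK0
      have h9 : (K:ℝ)⁻¹ * s ≤ d := by
        rw [inv_mul_le_iff₀ hKr]; exact h4'
      nlinarith
    exact_mod_cast h6

lemma weak_piece {p : ℝ} (hp : 1 < p) {U : ℝ → ℝ≥0} {C : ℝ≥0} (hN : CondN p U C)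
    {f : ℝ → ℝ} (hf : Nice f) {κ : ℝ≥0} (H : Hyp p f (sm p U) (Fm p U f) κ) {l : ℝ} (hl : 0 < l)
    {I : ℝ × ℝ} (hI : I ∈ Comp f l) {a : ℝ≥0} (ha : 0 < a) :
    volume {x | x ∈ Ioo I.1 I.2 ∧ (a : ℝ≥0∞) < (U x : ℝ≥0∞) * ENNReal.ofReal (2 * l) ^ p}
      ≤ (2 ^ p * C / a : ℝ≥0) * TT p f (sm p U) I := by
  have hp0 : 0 ≤ p := by linarith
  have hp1 : 0 < p - 1 := by linarith
  set L := ENNReal.ofReal (I.2 - I.1) with hL
  set S := sm p U (Ioo I.1 I.2) ^ (p - 1) with hS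
  have hS0 : S ≠ 0 := by
    rw [hS, Ne, ENNReal.rpow_eq_zero_iff_of_pos hp1]; exact H.pos _ _ hI.1
  have hSt : S ≠ ∞ := ENNReal.rpow_ne_top_of_nonneg hp1.le (H.fin _ _)
  set Λ := ENNReal.ofReal (2 * l) ^ p with hΛ
  have hΛ0 : Λ ≠ 0 := by
    rw [hΛ, Ne, ENNReal.rpow_eq_zero_iff_of_pos (by linarith)]
    simpa using hl
  have hΛt : Λ ≠ ∞ := ENNReal.rpow_ne_top_of_nonneg hp0 ENNReal.ofReal_ne_top
  have haE : (a : ℝ≥0∞) ≠ 0 := by exact_mod_cast ha.ne'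
  set τ : ℝ≥0∞ := a / Λ with hτ
  have hτ0 : τ ≠ 0 := (ENNReal.div_pos haE hΛt).ne'
  have hτt : τ ≠ ∞ := ENNReal.div_ne_top ENNReal.coe_ne_top hΛ0
  have hNI := condN' hp hN hI.1
  have h1 := le_NI U I.1 I.2 τ.toNNReal
  rw [ENNReal.coe_toNNReal hτt] at h1
  have h2 : {x | x ∈ Ioo I.1 I.2 ∧ (a : ℝ≥0∞) < (U x : ℝ≥0∞) * Λ}
      ⊆ {x : ℝ | τ < (U x : ENNReal)} ∩ Set.Icc I.1 I.2 := by
    rintro x ⟨hx1, hx2⟩
    refine ⟨?_, Ioo_subset_Icc_self hx1⟩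
    change a / Λ < (U x : ℝ≥0∞)
    rwa [ENNReal.div_lt_iff (Or.inl hΛ0) (Or.inl hΛt)]
  set V := volume {x | x ∈ Ioo I.1 I.2 ∧ (a : ℝ≥0∞) < (U x : ℝ≥0∞) * Λ} with hV
  have h3 : τ * V ≤ NI U I.1 I.2 := by
    refine le_trans ?_ h1
    gcongr
    exact measure_mono h2
  have h4 : τ * V * S ≤ C * L ^ p := by
    refine le_trans ?_ hNI
    gcongr
  -- now V ≤ ...
  have h5 : TT p f (sm p U) I = (ENNReal.ofReal l * L) ^ p / S := by
    unfold TT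
    rw [fm_comp hf hl hI, Real.volume_Ioo]
  rw [h5, ENNReal.mul_rpow_of_nonneg _ _ hp0]
  have h6 : Λ = 2 ^ p * ENNReal.ofReal l ^ p := by
    rw [hΛ, ENNReal.ofReal_mul (by norm_num), ENNReal.mul_rpow_of_nonneg _ _ hp0]
    norm_num
  have h7 : (a : ℝ≥0∞) * V * S ≤ Λ * (C * L ^ p) := by
    calc (a : ℝ≥0∞) * V * S = Λ * (τ * V * S) := by
          rw [hτ]
          calc (a : ℝ≥0∞) * V * S = (Λ * (a / Λ)) * V * S := by
                rw [ENNReal.mul_div_cancel hΛ0 hΛt]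
            _ = _ := by ring
      _ ≤ _ := by gcongr
  have h8 : ((2 ^ p * C / a : ℝ≥0) : ℝ≥0∞) = 2 ^ p * C / a := by
    rw [ENNReal.coe_div ha.ne']
    push_cast
    rw [ENNReal.coe_rpow_of_nonneg _ hp0]
    norm_num
  rw [h8, ENNReal.div_eq_inv_mul (b := S), ENNReal.div_eq_inv_mul]
  have h9 : V = (a:ℝ≥0∞)⁻¹ * S⁻¹ * (a * V * S) := by
    calc V = ((a:ℝ≥0∞)⁻¹ * a) * (S⁻¹ * S) * V := by
          rw [ENNReal.inv_mul_cancel haE ENNReal.coe_ne_top, ENNReal.inv_mul_cancel hS0 hSt]; simp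
      _ = _ := by ring
  rw [h9]
  calc (a:ℝ≥0∞)⁻¹ * S⁻¹ * (a * V * S) ≤ (a:ℝ≥0∞)⁻¹ * S⁻¹ * (Λ * (C * L ^ p)) := by gcongr
    _ = _ := by rw [h6]; ring

/-- one-sided estimate for nice functions -/
lemma one_sided_nice {p : ℝ} (hp : 1 < p) (C : ℝ≥0) : ∃ M : ℝ≥0,
    ∀ U : ℝ → ℝ≥0, Measurable U → CondN p U C → ¬ (∀ᵐ x, U x = 0) →
      ∀ f : ℝ → ℝ, Nice f → ∀ a : ℝ≥0, 0 < a → Fm p U f univ ≠ ∞ →
        volume {x | ∃ y, x < y ∧
          (a : ℝ≥0∞) < (U x : ℝ≥0∞) * ((ENNReal.ofReal (y - x))⁻¹ * ∫⁻ t in Icc x y, ENNReal.ofReal (f t)) ^ p}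
          ≤ (M : ℝ≥0∞) / a * Fm p U f univ := by
  obtain ⟨κ, hκ, hH⟩ := exists_kappa hp C
  obtain ⟨C1, D, hθ, hCD⟩ := exists_consts hp hκ
  refine ⟨2 ^ p * C * ((C1 + 1) / (1 - D * κ ^ (p - 1))), ?_⟩
  intro U hU hN hU0 f hf a ha hFfin
  have H := hH U hU hN hU0 f hf
  have hsub : {x | ∃ y, x < y ∧
          (a : ℝ≥0∞) < (U x : ℝ≥0∞) * ((ENNReal.ofReal (y - x))⁻¹ * ∫⁻ t in Icc x y, ENNReal.ofReal (f t)) ^ p}
      ⊆ ⋃ k : ℤ, ⋃ I ∈ Comp f ((2:ℝ) ^ k), {x | x ∈ Ioo I.1 I.2 ∧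
          (a : ℝ≥0∞) < (U x : ℝ≥0∞) * ENNReal.ofReal (2 * (2:ℝ) ^ k) ^ p} := by
    rintro x ⟨y, hxy, hx⟩
    set m : ℝ := (∫ t in x..y, f t) / (y - x) with hm
    have hyx : 0 < y - x := by linarith
    have hint0 : 0 ≤ ∫ t in x..y, f t :=
      intervalIntegral.integral_nonneg hxy.le (fun t _ => hf.nonneg t)
    have havg : (ENNReal.ofReal (y - x))⁻¹ * ∫⁻ t in Icc x y, ENNReal.ofReal (f t) = ENNReal.ofReal m := by
      rw [hm, ENNReal.ofReal_div_of_pos hyx, ENNReal.div_eq_inv_mul]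
      congr 1
      rw [intervalIntegral.integral_of_le hxy.le, ← integral_Icc_eq_integral_Ioc,
        ofReal_integral_eq_lintegral_ofReal hf.integrable.integrableOn
          (Filter.Eventually.of_forall hf.nonneg)]
    rw [havg] at hx
    have hmpos : 0 < m := by
      by_contra hcon
      push Not at hcon
      have : ENNReal.ofReal m = 0 := ENNReal.ofReal_of_nonpos hcon
      rw [this, ENNReal.zero_rpow_of_pos (by linarith), mul_zero] at hx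
      exact not_lt_bot hx
    obtain ⟨k, hk⟩ := exists_mem_Ioc_zpow hmpos (one_lt_two (α := ℝ))
    have hxO : x ∈ Om f ((2:ℝ) ^ k) := by
      refine ⟨y, hxy, ?_⟩
      have h1 := phi_sub hf ((2:ℝ) ^ k) x y
      have h2 : ∫ t in x..y, f t = m * (y - x) := by rw [hm]; field_simp
      have h3 := hk.1
      nlinarith
    obtain ⟨I, hI, hxI⟩ := exists_comp hf (by positivity) hxO
    rw [mem_iUnion]
    refine ⟨k, ?_⟩
    rw [mem_iUnion₂]
    refine ⟨I, hI, hxI, hx.trans_le ?_⟩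
    have h4 : m ≤ 2 * (2:ℝ) ^ k := by
      have h5 : (2:ℝ) ^ (k + 1) = 2 * (2:ℝ) ^ k := by
        rw [zpow_add₀ (by norm_num)]; ring
      rw [← h5]; exact hk.2
    have hp0 : 0 ≤ p := by linarith
    gcongr
  refine (measure_mono hsub).trans ?_
  refine (measure_iUnion_le _).trans ?_
  have h1 : ∀ k : ℤ, volume (⋃ I ∈ Comp f ((2:ℝ) ^ k), {x | x ∈ Ioo I.1 I.2 ∧
          (a : ℝ≥0∞) < (U x : ℝ≥0∞) * ENNReal.ofReal (2 * (2:ℝ) ^ k) ^ p})
      ≤ (2 ^ p * C / a : ℝ≥0) * TG p f (sm p U) ((2:ℝ) ^ k) := by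
    intro k
    refine (measure_biUnion_le volume comp_countable _).trans ?_
    rw [TG, ← ENNReal.tsum_mul_left]
    refine ENNReal.tsum_le_tsum fun I => ?_
    exact weak_piece hp hN hf H (by positivity) I.2 ha
  refine (ENNReal.tsum_le_tsum h1).trans ?_
  rw [ENNReal.tsum_mul_left]
  have h2 := sum_all hp hf H hCD hθ hFfin
  calc _ ≤ ((2 ^ p * C / a : ℝ≥0) : ℝ≥0∞) * (((C1 + 1) / (1 - D * κ ^ (p - 1)) : ℝ≥0) * Fm p U f univ) := by
        gcongr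
    _ = _ := by
        rw [← mul_assoc]
        congr 1
        rw [← ENNReal.coe_div ha.ne', ← ENNReal.coe_mul]
        congr 1
        rw [div_mul_eq_mul_div]

end

end Pool.Agent.Helper66.Mix
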