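import Pool.Agent.Helper66.MixD

set_option autoImplicit false
open MeasureTheory Set Filter Topology
open scoped ENNReal NNReal

namespace Pool.Agent.Helper66.Mix

noncomputable section

/-- truncations -/
def trunc (f : ℝ → ℝ) (n : ℕ) (x : ℝ) : ℝ := if |x| ≤ n then min |f x| n else 0

lemma trunc_nice {f : ℝ → ℝ} (hf : Measurable f) (n : ℕ) : Nice (trunc f n) where
  meas := by
    unfold trunc
    refine Measurable.ite ?_ ?_ measurable_const
    · exact measurableSet_le (by fun_prop) measurable_const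
    · fun_prop
  nonneg := fun x => by
    unfold trunc
    split_ifs
    · positivity
    · exact le_rfl
  bdd := ⟨n, fun x => by
    unfold trunc
    split_ifs
    · exact min_le_right _ _
    · positivity⟩
  supp := ⟨n, fun x hx => by
    unfold trunc
    rw [if_neg (not_le.mpr hx)]⟩

lemma trunc_le (f : ℝ → ℝ) (n : ℕ) (x : ℝ) : ENNReal.ofReal (trunc f n x) ≤ ‖f x‖ₑ := by
  rw [← ofReal_norm, Real.norm_eq_abs]
  refine ENNReal.ofReal_le_ofReal ?_
  unfold trunc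
  split_ifs
  · exact min_le_left _ _
  · exact abs_nonneg _

lemma trunc_mono (f : ℝ → ℝ) (x : ℝ) : Monotone (fun n => trunc f n x) := by
  intro n m hnm
  have h : (n:ℝ) ≤ m := by exact_mod_cast hnm
  simp only [trunc]
  split_ifs with h1 h2
  · exact min_le_min le_rfl h
  · exact absurd (h1.trans h) h2
  · positivity
  · exact le_rfl

lemma trunc_tendsto (f : ℝ → ℝ) (x : ℝ) :
    Tendsto (fun n => ENNReal.ofReal (trunc f n x)) atTop (𝓝 ‖f x‖ₑ) := by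
  obtain ⟨N, hN⟩ := exists_nat_ge (max |x| |f x|)
  refine tendsto_const_nhds.congr' ?_
  filter_upwards [eventually_ge_atTop N] with n hn
  have hn' : (N:ℝ) ≤ n := by exact_mod_cast hn
  have h1 : |x| ≤ n := (le_max_left _ _).trans (hN.trans hn')
  have h2 : |f x| ≤ n := (le_max_right _ _).trans (hN.trans hn')
  rw [trunc, if_pos h1, min_eq_left h2, ← ofReal_norm, Real.norm_eq_abs]

/-- one-sided estimate for all functions -/
lemma one_sided {p : ℝ} (hp : 1 < p) (C : ℝ≥0) : ∃ M : ℝ≥0,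
    ∀ U : ℝ → ℝ≥0, Measurable U → CondN p U C → ¬ (∀ᵐ x, U x = 0) →
      ∀ f : ℝ → ℝ, Measurable f → ∀ a : ℝ≥0, 0 < a →
        (∫⁻ x, ‖f x‖ₑ ^ p * (U x : ℝ≥0∞)) ≠ ∞ →
        volume {x | ∃ y, x < y ∧
          (a : ℝ≥0∞) < (U x : ℝ≥0∞) * ((ENNReal.ofReal (y - x))⁻¹ * ∫⁻ t in Icc x y, ‖f t‖ₑ) ^ p}
          ≤ (M : ℝ≥0∞) / a * ∫⁻ x, ‖f x‖ₑ ^ p * (U x : ℝ≥0∞) := by
  obtain ⟨M, hM⟩ := one_sided_nice hp C
  refine ⟨M, ?_⟩
  intro U hU hN hU0 f hf a ha hFfin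
  have hp0 : 0 ≤ p := by linarith
  set A : ℕ → Set ℝ := fun n => {x | ∃ y, x < y ∧
          (a : ℝ≥0∞) < (U x : ℝ≥0∞) * ((ENNReal.ofReal (y - x))⁻¹ *
            ∫⁻ t in Icc x y, ENNReal.ofReal (trunc f n t)) ^ p} with hA
  have hAm : Monotone A := by
    intro n m hnm
    rintro x ⟨y, hxy, hx⟩
    refine ⟨y, hxy, hx.trans_le ?_⟩
    gcongr with t
    exact trunc_mono f t hnm
  have hsub : {x | ∃ y, x < y ∧
          (a : ℝ≥0∞) < (U x : ℝ≥0∞) * ((ENNReal.ofReal (y - x))⁻¹ * ∫⁻ t in Icc x y, ‖f t‖ₑ) ^ p}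
        ⊆ ⋃ n, A n := by
    rintro x ⟨y, hxy, hx⟩
    have h1 : Tendsto (fun n => ∫⁻ t in Icc x y, ENNReal.ofReal (trunc f n t)) atTop
        (𝓝 (∫⁻ t in Icc x y, ‖f t‖ₑ)) := by
      refine lintegral_tendsto_of_tendsto_of_monotone (fun n => ?_) ?_ ?_
      · exact ((trunc_nice hf n).meas.ennreal_ofReal).aemeasurable
      · refine Filter.Eventually.of_forall fun t => ?_
        intro n m hnm
        exact ENNReal.ofReal_le_ofReal (trunc_mono f t hnm)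
      · exact Filter.Eventually.of_forall fun t => trunc_tendsto f t
    have hc : (ENNReal.ofReal (y - x))⁻¹ ≠ ∞ := by
      rw [ENNReal.inv_ne_top]
      simpa using hxy
    have h2 : Tendsto (fun n => (U x : ℝ≥0∞) * ((ENNReal.ofReal (y - x))⁻¹ *
        ∫⁻ t in Icc x y, ENNReal.ofReal (trunc f n t)) ^ p) atTop
        (𝓝 ((U x : ℝ≥0∞) * ((ENNReal.ofReal (y - x))⁻¹ * ∫⁻ t in Icc x y, ‖f t‖ₑ) ^ p)) := by
      refine ENNReal.Tendsto.const_mul ?_ (Or.inr ENNReal.coe_ne_top)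
      refine (ENNReal.continuous_rpow_const.tendsto _).comp ?_
      exact ENNReal.Tendsto.const_mul h1 (Or.inr hc)
    obtain ⟨n, hn⟩ := (h2.eventually (eventually_gt_nhds hx)).exists
    rw [mem_iUnion]
    exact ⟨n, y, hxy, hn⟩
  refine (measure_mono hsub).trans ?_
  rw [hAm.measure_iUnion]
  refine iSup_le fun n => ?_
  have hFle : Fm p U (trunc f n) univ ≤ ∫⁻ x, ‖f x‖ₑ ^ p * (U x : ℝ≥0∞) := by
    rw [Fm, withDensity_apply _ MeasurableSet.univ, Measure.restrict_univ]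
    refine lintegral_mono fun x => ?_
    gcongr
    exact trunc_le f n x
  refine (hM U hU hN hU0 _ (trunc_nice hf n) a ha (ne_top_of_le_ne_top hFfin hFle)).trans ?_
  gcongr

lemma neg_restrict (a b : ℝ) (g : ℝ → ℝ≥0∞) : ∫⁻ x in Icc (-b) (-a), g (-x) = ∫⁻ x in Icc a b, g x := by
  have h := (Measure.measurePreserving_neg (volume : Measure ℝ))
  have h2 := h.setLIntegral_comp_preimage_emb (MeasurableEquiv.neg ℝ).measurableEmbedding g (Icc a b)
  rw [← h2]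
  congr 2
  ext x
  simp only [mem_preimage, mem_Icc]
  constructor <;> rintro ⟨h1, h2⟩ <;> constructor <;> linarith

lemma condN_neg {p : ℝ} {U : ℝ → ℝ≥0} {C : ℝ≥0} (hN : CondN p U C) :
    CondN p (fun x => U (-x)) C := by
  intro a b hab
  have h1 := hN (-b) (-a) (by linarith)
  have e1 : -a - -b = b - a := by ring
  rw [e1] at h1
  refine le_trans (le_of_eq ?_) h1
  congr 2
  · congr 1
    congr 1
    ext y
    congr 1
    have h2 : {x : ℝ | (y:ℝ≥0∞) < ((U (-x) : ℝ≥0) : ℝ≥0∞)} ∩ Icc a b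
        = Neg.neg ⁻¹' ({x : ℝ | (y:ℝ≥0∞) < (U x : ℝ≥0∞)} ∩ Icc (-b) (-a)) := by
      ext x
      simp only [mem_inter_iff, mem_preimage, mem_Icc]
      constructor
      · rintro ⟨h3, h4, h5⟩
        exact ⟨h3, by linarith, by linarith⟩
      · rintro ⟨h3, h4, h5⟩
        exact ⟨h3, by linarith, by linarith⟩
    rw [h2, Measure.measure_preimage_neg]
  · congr 1
    have h2 := neg_restrict (-b) (-a) (fun x => (U x : ℝ≥0∞) ^ (-(1 / (p - 1))))
    simp only [neg_neg] at h2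
    rw [← h2]

theorem main {p : ℝ} (hp : 1 < p) {U : ℝ → ℝ≥0} (hU : Measurable U) {C : ℝ≥0} (hN : CondN p U C) :
    ∃ C' : NNReal, ∀ f : ℝ → ℝ, Measurable f → ∀ a : NNReal, 0 < a →
        volume {x : ℝ | (a : ENNReal) <
            (U x : ENNReal) *
              (⨆ (c : ℝ) (d : ℝ) (_ : c < d ∧ c ≤ x ∧ x ≤ d),
                (ENNReal.ofReal (d - c))⁻¹ * ∫⁻ y in Set.Icc c d, ‖f y‖ₑ) ^ p}
          ≤ (C' : ENNReal) / (a : ENNReal) * ∫⁻ x, ‖f x‖ₑ ^ p * (U x : ENNReal) := by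
  have hp0 : 0 < p := by linarith
  by_cases hU0 : ∀ᵐ x, U x = 0
  · refine ⟨0, fun f hf a ha => ?_⟩
    refine le_of_eq_of_le ?_ bot_le
    refine measure_mono_null ?_ (ae_iff.mp hU0)
    intro x hx h
    have hx' : (a : ENNReal) <
            (U x : ENNReal) *
              (⨆ (c : ℝ) (d : ℝ) (_ : c < d ∧ c ≤ x ∧ x ≤ d),
                (ENNReal.ofReal (d - c))⁻¹ * ∫⁻ y in Set.Icc c d, ‖f y‖ₑ) ^ p := hx
    rw [h, ENNReal.coe_zero, zero_mul] at hx'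
    exact not_lt_bot hx'
  obtain ⟨M, hM⟩ := one_sided hp C
  refine ⟨2 * M + 1, fun f hf a ha => ?_⟩
  have haE : (a : ℝ≥0∞) ≠ 0 := by exact_mod_cast ha.ne'
  by_cases hFfin : (∫⁻ x, ‖f x‖ₑ ^ p * (U x : ℝ≥0∞)) = ∞
  · rw [hFfin, ENNReal.mul_top]
    · exact le_top
    · refine (ENNReal.div_pos ?_ ENNReal.coe_ne_top).ne'
      have : (2 * M + 1 : ℝ≥0) ≠ 0 := by positivity
      exact_mod_cast this
  -- right part
  set R : Set ℝ := {x | ∃ y, x < y ∧
          (a : ℝ≥0∞) < (U x : ℝ≥0∞) * ((ENNReal.ofReal (y - x))⁻¹ * ∫⁻ t in Icc x y, ‖f t‖ₑ) ^ p} with hR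
  set L : Set ℝ := {x | ∃ y, y < x ∧
          (a : ℝ≥0∞) < (U x : ℝ≥0∞) * ((ENNReal.ofReal (x - y))⁻¹ * ∫⁻ t in Icc y x, ‖f t‖ₑ) ^ p} with hL
  have hRle := hM U hU hN hU0 f hf a ha hFfin
  have hUneg : ¬ (∀ᵐ x, (fun x => U (-x)) x = 0) := by
    intro h
    apply hU0
    rw [ae_iff] at h ⊢
    have h2 : {x | ¬ (U (-x) = 0)} = Neg.neg ⁻¹' {x | ¬ (U x = 0)} := rfl
    have h3 : volume {x | ¬ (U (-x) = 0)} = 0 := h
    rw [h2, Measure.measure_preimage_neg] at h3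
    exact h3
  have hFneg : ∫⁻ x, ‖f (-x)‖ₑ ^ p * (U (-x) : ℝ≥0∞) = ∫⁻ x, ‖f x‖ₑ ^ p * (U x : ℝ≥0∞) :=
    lintegral_neg_eq_self (μ := volume) (fun x => ‖f x‖ₑ ^ p * (U x : ℝ≥0∞))
  have hLle := hM (fun x => U (-x)) (hU.comp measurable_neg) (condN_neg hN) hUneg
    (fun x => f (-x)) (hf.comp measurable_neg) a ha (by rw [hFneg]; exact hFfin)
  rw [hFneg] at hLle
  have hLset : volume L ≤ (M : ℝ≥0∞) / a * ∫⁻ x, ‖f x‖ₑ ^ p * (U x : ℝ≥0∞) := by
    refine le_trans (le_of_eq ?_) hLle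
    rw [← Measure.measure_preimage_neg volume L]
    congr 1
    ext x
    simp only [hL, mem_preimage]
    constructor
    · rintro ⟨y, hy, hx⟩
      refine ⟨-y, by linarith, ?_⟩
      have e1 : -y - x = -x - y := by ring
      rw [e1]
      have h2 := neg_restrict y (-x) (fun t => ‖f t‖ₑ)
      simp only [neg_neg] at h2
      rw [h2]
      exact hx
    · rintro ⟨y, hy, hx⟩
      refine ⟨-y, by linarith, ?_⟩
      have e1 : -x - -y = y - x := by ring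
      rw [e1]
      have h2 := neg_restrict (-y) (-x) (fun t => ‖f t‖ₑ)
      simp only [neg_neg] at h2
      rw [← h2]
      exact hx
  have hsub : {x : ℝ | (a : ENNReal) <
            (U x : ENNReal) *
              (⨆ (c : ℝ) (d : ℝ) (_ : c < d ∧ c ≤ x ∧ x ≤ d),
                (ENNReal.ofReal (d - c))⁻¹ * ∫⁻ y in Set.Icc c d, ‖f y‖ₑ) ^ p} ⊆ R ∪ L := by
    intro x hx
    by_contra hcon
    rw [mem_union, not_or] at hcon
    obtain ⟨hnR, hnL⟩ := hcon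
    have hnR' : ∀ y, x < y → (U x : ℝ≥0∞) * ((ENNReal.ofReal (y - x))⁻¹ * ∫⁻ t in Icc x y, ‖f t‖ₑ) ^ p ≤ a := by
      intro y hy
      by_contra h
      push Not at h
      exact hnR ⟨y, hy, h⟩
    have hnL' : ∀ y, y < x → (U x : ℝ≥0∞) * ((ENNReal.ofReal (x - y))⁻¹ * ∫⁻ t in Icc y x, ‖f t‖ₑ) ^ p ≤ a := by
      intro y hy
      by_contra h
      push Not at h
      exact hnL ⟨y, hy, h⟩
    -- U x is positive
    have hUx : (U x : ℝ≥0∞) ≠ 0 := by
      intro h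
      have hx' : (a : ENNReal) <
            (U x : ENNReal) *
              (⨆ (c : ℝ) (d : ℝ) (_ : c < d ∧ c ≤ x ∧ x ≤ d),
                (ENNReal.ofReal (d - c))⁻¹ * ∫⁻ y in Set.Icc c d, ‖f y‖ₑ) ^ p := hx
      rw [h, zero_mul] at hx'
      exact not_lt_bot hx'
    set B : ℝ≥0∞ := (a / (U x : ℝ≥0∞)) ^ (1 / p) with hB
    have key : ∀ s : ℝ≥0∞, (U x : ℝ≥0∞) * s ^ p ≤ a → s ≤ B := by
      intro s hs
      have h1 : s ^ p ≤ a / (U x : ℝ≥0∞) := by
        rw [ENNReal.le_div_iff_mul_le (Or.inl hUx) (Or.inl ENNReal.coe_ne_top), mul_comm]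
        exact hs
      calc s = (s ^ p) ^ (1 / p) := by
            rw [← ENNReal.rpow_mul, mul_one_div_cancel hp0.ne', ENNReal.rpow_one]
        _ ≤ B := ENNReal.rpow_le_rpow h1 (by positivity)
    have hR2 : ∀ y, x ≤ y → ∫⁻ t in Icc x y, ‖f t‖ₑ ≤ ENNReal.ofReal (y - x) * B := by
      intro y hy
      rcases hy.eq_or_lt with h | h
      · subst h; simp
      · have h1 := key _ (hnR' y h)
        have hc0 : ENNReal.ofReal (y - x) ≠ 0 := by simpa using h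
        calc ∫⁻ t in Icc x y, ‖f t‖ₑ = ENNReal.ofReal (y - x) * ((ENNReal.ofReal (y - x))⁻¹ * ∫⁻ t in Icc x y, ‖f t‖ₑ) := by
              rw [← mul_assoc, ENNReal.mul_inv_cancel hc0 ENNReal.ofReal_ne_top, one_mul]
          _ ≤ _ := by gcongr
    have hL2 : ∀ y, y ≤ x → ∫⁻ t in Icc y x, ‖f t‖ₑ ≤ ENNReal.ofReal (x - y) * B := by
      intro y hy
      rcases hy.eq_or_lt with h | h
      · subst h; simp
      · have h1 := key _ (hnL' y h)
        have hc0 : ENNReal.ofReal (x - y) ≠ 0 := by simpa using h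
        calc ∫⁻ t in Icc y x, ‖f t‖ₑ = ENNReal.ofReal (x - y) * ((ENNReal.ofReal (x - y))⁻¹ * ∫⁻ t in Icc y x, ‖f t‖ₑ) := by
              rw [← mul_assoc, ENNReal.mul_inv_cancel hc0 ENNReal.ofReal_ne_top, one_mul]
          _ ≤ _ := by gcongr
    have hsup : (⨆ (c : ℝ) (d : ℝ) (_ : c < d ∧ c ≤ x ∧ x ≤ d),
                (ENNReal.ofReal (d - c))⁻¹ * ∫⁻ y in Set.Icc c d, ‖f y‖ₑ) ≤ B := by
      refine iSup_le fun c => iSup_le fun d => iSup_le fun h => ?_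
      obtain ⟨hcd, hcx, hxd⟩ := h
      have hc0 : ENNReal.ofReal (d - c) ≠ 0 := by simpa using hcd
      have h1 : ∫⁻ y in Set.Icc c d, ‖f y‖ₑ ≤ ENNReal.ofReal (d - c) * B := by
        calc ∫⁻ y in Set.Icc c d, ‖f y‖ₑ ≤ ∫⁻ y in Set.Icc c x ∪ Set.Icc x d, ‖f y‖ₑ := by
              rw [Icc_union_Icc_eq_Icc hcx hxd]
          _ ≤ (∫⁻ y in Set.Icc c x, ‖f y‖ₑ) + (∫⁻ y in Set.Icc x d, ‖f y‖ₑ) := lintegral_union_le _ _ _
          _ ≤ ENNReal.ofReal (x - c) * B + ENNReal.ofReal (d - x) * B := add_le_add (hL2 c hcx) (hR2 d hxd)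
          _ = _ := by
              rw [← add_mul, ← ENNReal.ofReal_add (by linarith) (by linarith)]
              congr 2
              ring
      calc (ENNReal.ofReal (d - c))⁻¹ * ∫⁻ y in Set.Icc c d, ‖f y‖ₑ
          ≤ (ENNReal.ofReal (d - c))⁻¹ * (ENNReal.ofReal (d - c) * B) := by gcongr
        _ = B := by rw [← mul_assoc, ENNReal.inv_mul_cancel hc0 ENNReal.ofReal_ne_top, one_mul]
    have hx' : (a : ENNReal) <
            (U x : ENNReal) *
              (⨆ (c : ℝ) (d : ℝ) (_ : c < d ∧ c ≤ x ∧ x ≤ d),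
                (ENNReal.ofReal (d - c))⁻¹ * ∫⁻ y in Set.Icc c d, ‖f y‖ₑ) ^ p := hx
    have hfinal : (U x : ENNReal) *
              (⨆ (c : ℝ) (d : ℝ) (_ : c < d ∧ c ≤ x ∧ x ≤ d),
                (ENNReal.ofReal (d - c))⁻¹ * ∫⁻ y in Set.Icc c d, ‖f y‖ₑ) ^ p ≤ a := by
      calc _ ≤ (U x : ENNReal) * B ^ p := by gcongr
        _ = a := by
            rw [hB, ← ENNReal.rpow_mul, one_div, inv_mul_cancel₀ hp0.ne', ENNReal.rpow_one]
            exact ENNReal.mul_div_cancel hUx ENNReal.coe_ne_top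
    exact absurd hx' (not_lt.mpr hfinal)
  refine (measure_mono hsub).trans ((measure_union_le _ _).trans ?_)
  calc volume R + volume L ≤ (M : ℝ≥0∞) / a * (∫⁻ x, ‖f x‖ₑ ^ p * (U x : ℝ≥0∞))
        + (M : ℝ≥0∞) / a * ∫⁻ x, ‖f x‖ₑ ^ p * (U x : ℝ≥0∞) := add_le_add hRle hLset
    _ = (2 * M : ℝ≥0∞) / a * ∫⁻ x, ‖f x‖ₑ ^ p * (U x : ℝ≥0∞) := by
        rw [ENNReal.div_eq_inv_mul, ENNReal.div_eq_inv_mul]; ring
    _ ≤ _ := by
        gcongr
        push_cast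
        exact le_self_add

end

end Pool.Agent.Helper66.Mix
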