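import Mathlib

set_option autoImplicit false
open MeasureTheory Set Filter Topology Complex

namespace Pool.Agent.Helper66.Unq

/-- Cauchy transform -/
noncomputable def cau (f : ℝ → ℂ) (z : ℂ) : ℂ := ∫ τ, f τ / ((τ : ℂ) - z)

lemma nsq (τ : ℝ) (z : ℂ) : ‖(τ : ℂ) - z‖ ^ 2 = (τ - z.re) ^ 2 + z.im ^ 2 := by
  rw [← Complex.normSq_eq_norm_sq, Complex.normSq_apply]
  simp
  ring

lemma ne_of_im {z : ℂ} (hz : z.im ≠ 0) (τ : ℝ) : (τ : ℂ) - z ≠ 0 := by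
  intro h
  apply hz
  have : z = (τ : ℂ) := by linear_combination -h
  rw [this]; simp

lemma im_le_norm (τ : ℝ) (z : ℂ) : |z.im| ≤ ‖(τ : ℂ) - z‖ := by
  have := Complex.abs_im_le_norm ((τ : ℂ) - z)
  simpa using this

lemma re_le_norm (τ : ℝ) (z : ℂ) : |τ - z.re| ≤ ‖(τ : ℂ) - z‖ := by
  have := Complex.abs_re_le_norm ((τ : ℂ) - z)
  simpa using this

lemma ker_eq {z : ℂ} (hz : z.im ≠ 0) (τ : ℝ) :
    ‖(1 : ℂ) / ((τ : ℂ) - z)‖ ^ 2 = (1 / z.im ^ 2) * (1 + ((τ - z.re) / z.im) ^ 2)⁻¹ := by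
  rw [norm_div, norm_one, div_pow, one_pow, nsq]
  have h1 : (0:ℝ) < z.im ^ 2 := by positivity
  have h2 : (0:ℝ) < (τ - z.re) ^ 2 + z.im ^ 2 := by positivity
  have h3 : (0:ℝ) < 1 + ((τ - z.re) / z.im) ^ 2 := by positivity
  field_simp
  ring

lemma ker_integrable {z : ℂ} (hz : z.im ≠ 0) :
    Integrable (fun τ : ℝ => ‖(1 : ℂ) / ((τ : ℂ) - z)‖ ^ 2) := by
  simp_rw [ker_eq hz]
  apply Integrable.const_mul
  have h := (integrable_inv_one_add_sq.comp_div hz).comp_sub_right z.re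
  exact h

lemma ker_integral {z : ℂ} (hz : z.im ≠ 0) :
    ∫ τ : ℝ, ‖(1 : ℂ) / ((τ : ℂ) - z)‖ ^ 2 = Real.pi / |z.im| := by
  simp_rw [ker_eq hz]
  rw [integral_const_mul]
  rw [integral_sub_right_eq_self (fun τ : ℝ => (1 + (τ / z.im) ^ 2)⁻¹) z.re]
  rw [Measure.integral_comp_div (fun τ : ℝ => (1 + τ ^ 2)⁻¹) z.im]
  rw [integral_univ_inv_one_add_sq, smul_eq_mul]
  have h0 : |z.im| ≠ 0 := abs_ne_zero.mpr hz
  rw [show z.im ^ 2 = |z.im| ^ 2 by rw [sq_abs]]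
  field_simp

lemma ker_meas (z : ℂ) : Measurable (fun τ : ℝ => (1 : ℂ) / ((τ : ℂ) - z)) := by
  fun_prop

lemma ker_memLp {z : ℂ} (hz : z.im ≠ 0) :
    MemLp (fun τ : ℝ => (1 : ℂ) / ((τ : ℂ) - z)) 2 volume :=
  (memLp_two_iff_integrable_sq_norm (ker_meas z).aestronglyMeasurable).2 (ker_integrable hz)

lemma cau_integrable {f : ℝ → ℂ} (hf : MemLp f 2 volume) {z : ℂ} (hz : z.im ≠ 0) :
    Integrable (fun τ : ℝ => f τ / ((τ : ℂ) - z)) := by
  have h := hf.integrable_mul (ker_memLp hz)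
  refine h.congr (Eventually.of_forall fun τ => ?_)
  simp [div_eq_mul_inv]

/-- AM-GM bound for the Cauchy transform -/
lemma cau_bound {f : ℝ → ℂ} (hf : MemLp f 2 volume) {z : ℂ} (hz : z.im ≠ 0) :
    ‖cau f z‖ ≤ ((∫ τ, ‖f τ‖ ^ 2) + Real.pi) / Real.sqrt |z.im| := by
  have hy : 0 < |z.im| := abs_pos.mpr hz
  set s := Real.sqrt |z.im| with hs
  have hs0 : 0 < s := Real.sqrt_pos.mpr hy
  have hss : s * s = |z.im| := Real.mul_self_sqrt hy.le
  have hfi : Integrable (fun τ => ‖f τ‖ ^ 2) := (memLp_two_iff_integrable_sq_norm hf.1).1 hf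
  have hk := ker_integrable hz
  have h1 : ‖cau f z‖ ≤ ∫ τ, (1 / s * ‖f τ‖ ^ 2 + s * ‖(1 : ℂ) / ((τ : ℂ) - z)‖ ^ 2) := by
    unfold cau
    apply norm_integral_le_of_norm_le
    · exact (hfi.const_mul _).add (hk.const_mul _)
    · refine Eventually.of_forall fun τ => ?_
      rw [norm_div, norm_div, norm_one]
      set a := ‖f τ‖
      set b := ‖(τ : ℂ) - z‖
      have hb : 0 < b := norm_pos_iff.mpr (ne_of_im hz τ)
      have ha : 0 ≤ a := norm_nonneg _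
      have h2 : 0 ≤ (1 / s) * (a - s * (1 / b)) ^ 2 := by positivity
      have h3 : (1 / s) * (a - s * (1 / b)) ^ 2 = 1 / s * a ^ 2 - 2 * (a / b) + s * (1 / b) ^ 2 := by
        field_simp
        ring
      have h4 : 0 ≤ a / b := by positivity
      linarith
  refine h1.trans (le_of_eq ?_)
  rw [integral_add (hfi.const_mul _) (hk.const_mul _), integral_const_mul, integral_const_mul,
    ker_integral hz, ← hss]
  field_simp

lemma cau_hasDerivAt {f : ℝ → ℂ} (hf : MemLp f 2 volume) {z : ℂ} (hz : z.im ≠ 0) :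
    HasDerivAt (cau f) (∫ τ, f τ / ((τ : ℂ) - z) ^ 2) z := by
  have hy : 0 < |z.im| := abs_pos.mpr hz
  have hball : ∀ w ∈ Metric.ball z (|z.im| / 2), ∀ τ : ℝ,
      ‖(τ : ℂ) - z‖ / 2 ≤ ‖(τ : ℂ) - w‖ := by
    intro w hw τ
    have h1 : ‖w - z‖ < |z.im| / 2 := by simpa [dist_eq_norm] using hw
    have h2 := im_le_norm τ z
    have h3 : ‖(τ : ℂ) - z‖ ≤ ‖(τ : ℂ) - w‖ + ‖w - z‖ := by
      have := norm_add_le ((τ : ℂ) - w) (w - z)
      simpa using this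
    linarith
  have hne : ∀ w ∈ Metric.ball z (|z.im| / 2), ∀ τ : ℝ, (τ : ℂ) - w ≠ 0 := by
    intro w hw τ h
    have h1 := hball w hw τ
    rw [h, norm_zero] at h1
    have h2 := im_le_norm τ z
    linarith
  refine (hasDerivAt_integral_of_dominated_loc_of_deriv_le (𝕜 := ℂ) (μ := volume)
    (s := Metric.ball z (|z.im| / 2))
    (F := fun (w : ℂ) (τ : ℝ) => f τ / ((τ : ℂ) - w))
    (F' := fun (w : ℂ) (τ : ℝ) => f τ / ((τ : ℂ) - w) ^ 2)
    (bound := fun τ => 4 / |z.im| * ‖f τ / ((τ : ℂ) - z)‖)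
    (Metric.ball_mem_nhds z (by positivity)) ?_ (cau_integrable hf hz) ?_ ?_ ?_ ?_).2
  · refine Eventually.of_forall fun w => ?_
    have : Measurable (fun τ : ℝ => ((τ : ℂ) - w)) := by fun_prop
    exact hf.1.div₀ this.aestronglyMeasurable
  · have : Measurable (fun τ : ℝ => ((τ : ℂ) - z) ^ 2) := by fun_prop
    exact hf.1.div₀ this.aestronglyMeasurable
  · refine Eventually.of_forall fun τ w hw => ?_
    have h1 := hball w hw τ
    have h2 := im_le_norm τ z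
    have hz0 : 0 < ‖(τ : ℂ) - z‖ := by linarith
    rw [norm_div, norm_pow, norm_div]
    have h3 : ‖(τ : ℂ) - z‖ ^ 2 / 4 ≤ ‖(τ : ℂ) - w‖ ^ 2 := by nlinarith
    have h4 : |z.im| * ‖(τ : ℂ) - z‖ / 4 ≤ ‖(τ : ℂ) - w‖ ^ 2 := by nlinarith
    have h5 : ‖f τ‖ / ‖(τ : ℂ) - w‖ ^ 2 ≤ ‖f τ‖ / (|z.im| * ‖(τ : ℂ) - z‖ / 4) := by
      apply div_le_div_of_nonneg_left (norm_nonneg _) (by positivity) h4
    refine h5.trans (le_of_eq ?_)
    field_simp
  · exact (cau_integrable hf hz).norm.const_mul _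
  · refine Eventually.of_forall fun τ w hw => ?_
    have h1 : HasDerivAt (fun w : ℂ => (τ : ℂ) - w) (-1) w := by
      simpa using (hasDerivAt_id w).const_sub (τ : ℂ)
    have h2 := (hasDerivAt_const w (f τ)).div h1 (hne w hw τ)
    refine h2.congr_deriv ?_
    simp

lemma cau_diff {f : ℝ → ℂ} (hf : MemLp f 2 volume) {z : ℂ} (hz : z.im ≠ 0) :
    DifferentiableAt ℂ (cau f) z := (cau_hasDerivAt hf hz).differentiableAt

lemma cau_conj (f : ℝ → ℂ) (z : ℂ) :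
    cau f ((starRingEnd ℂ) z) = (starRingEnd ℂ) (cau (fun τ => (starRingEnd ℂ) (f τ)) z) := by
  unfold cau
  rw [← integral_conj]
  congr 1
  ext τ
  simp

end Pool.Agent.Helper66.Unq
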