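import Pool.Agent.Helper66.UnqA

set_option autoImplicit false
open MeasureTheory Set Filter Topology Complex

namespace Pool.Agent.Helper66.Unq

/-- the Poisson kernel -/
noncomputable def pk (z : ℂ) (t : ℝ) : ℝ := z.im / ((t - z.re) ^ 2 + z.im ^ 2)

lemma pk_nonneg {z : ℂ} (hz : 0 < z.im) (t : ℝ) : 0 ≤ pk z t := by
  unfold pk; positivity

lemma pk_le {z : ℂ} (hz : 0 < z.im) (t : ℝ) : pk z t ≤ 1 / z.im := by
  unfold pk
  rw [div_le_div_iff₀ (by positivity) hz]
  nlinarith [sq_nonneg (t - z.re)]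

lemma pk_cont {z : ℂ} (hz : 0 < z.im) : Continuous (pk z) := by
  unfold pk
  refine Continuous.div (by fun_prop) (by fun_prop) (fun t => ?_)
  have : 0 < (t - z.re) ^ 2 + z.im ^ 2 := by positivity
  exact this.ne'

lemma pk_integral {z : ℂ} (hz : 0 < z.im) (a b : ℝ) :
    ∫ t in a..b, pk z t = Real.arctan ((b - z.re) / z.im) - Real.arctan ((a - z.re) / z.im) := by
  apply intervalIntegral.integral_eq_sub_of_hasDerivAt
  · intro t _
    have h1 : HasDerivAt (fun t : ℝ => (t - z.re) / z.im) (1 / z.im) t :=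
      ((hasDerivAt_id t).sub_const z.re).div_const z.im
    have h2 := h1.arctan
    refine h2.congr_deriv ?_
    unfold pk
    have h3 : (0:ℝ) < (t - z.re) ^ 2 + z.im ^ 2 := by positivity
    have h4 : (0:ℝ) < 1 + ((t - z.re) / z.im) ^ 2 := by positivity
    field_simp
    ring
  · exact (pk_cont hz).intervalIntegrable _ _

lemma pk_integrableOn {z : ℂ} (hz : 0 < z.im) (a b : ℝ) : IntegrableOn (pk z) (Icc a b) :=
  (pk_cont hz).continuousOn.integrableOn_compact isCompact_Icc

lemma pk_setIntegral {z : ℂ} (hz : 0 < z.im) {a b : ℝ} (hab : a ≤ b) :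
    ∫ t in Icc a b, pk z t =
      Real.arctan ((b - z.re) / z.im) - Real.arctan ((a - z.re) / z.im) := by
  rw [integral_Icc_eq_integral_Ioc, ← intervalIntegral.integral_of_le hab, pk_integral hz]

/-- harmonic-measure-like function -/
noncomputable def om (K : Set ℝ) (z : ℂ) : ℝ := (1 / Real.pi) * ∫ t in K, pk z t

/-- analytic completion -/
noncomputable def Wf (K : Set ℝ) (z : ℂ) : ℂ :=
  (1 / (Real.pi * I)) * cau (K.indicator (fun _ => (1 : ℂ))) z

lemma ind_memLp {K : Set ℝ} (hKm : MeasurableSet K) {a b : ℝ} (hK : K ⊆ Icc a b) :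
    MemLp (K.indicator (fun _ => (1 : ℂ))) 2 volume := by
  apply memLp_indicator_const 2 hKm
  right
  exact ((measure_mono hK).trans_lt measure_Icc_lt_top).ne

lemma Wf_diff {K : Set ℝ} (hKm : MeasurableSet K) {a b : ℝ} (hK : K ⊆ Icc a b) {z : ℂ}
    (hz : z.im ≠ 0) : DifferentiableAt ℂ (Wf K) z := by
  unfold Wf
  exact (cau_diff (ind_memLp hKm hK) hz).const_mul _

lemma Wf_re {K : Set ℝ} (hKm : MeasurableSet K) {a b : ℝ} (hK : K ⊆ Icc a b) {z : ℂ}
    (hz : z.im ≠ 0) : (Wf K z).re = om K z := by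
  have hint := cau_integrable (ind_memLp hKm hK) hz
  have h1 : (Wf K z).re = (1 / Real.pi) * (cau (K.indicator (fun _ => (1 : ℂ))) z).im := by
    unfold Wf
    have : (1 : ℂ) / (Real.pi * I) = ((1 / Real.pi : ℝ) : ℂ) * (-I) := by
      push_cast
      rw [mul_comm (Real.pi : ℂ) I, ← div_div, div_I]
      have : (Real.pi : ℂ) ≠ 0 := by exact_mod_cast Real.pi_ne_zero
      field_simp
    rw [this, mul_assoc, Complex.re_ofReal_mul]
    simp
  rw [h1]
  unfold om cau
  congr 1
  have h2 : (∫ τ, (K.indicator (fun _ => (1 : ℂ)) τ) / ((τ : ℂ) - z)).im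
      = ∫ τ, ((K.indicator (fun _ => (1 : ℂ)) τ) / ((τ : ℂ) - z)).im := by
    have := (Complex.imCLM.integral_comp_comm hint).symm
    simpa using this
  rw [h2, ← integral_indicator hKm]
  congr 1
  ext τ
  by_cases hτ : τ ∈ K
  · simp only [indicator_of_mem hτ]
    rw [Complex.div_im]
    simp only [Complex.one_im, Complex.one_re, Complex.sub_re, Complex.sub_im, Complex.ofReal_re,
      Complex.ofReal_im, Complex.normSq_apply]
    unfold pk
    have h3 : (0:ℝ) < z.im ^ 2 := by positivity
    have h4 : (0:ℝ) < (τ - z.re) ^ 2 + z.im ^ 2 := by positivity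
    have h5 : (0:ℝ) < (τ - z.re) * (τ - z.re) + (0 - z.im) * (0 - z.im) := by nlinarith
    field_simp
    ring
  · simp [indicator_of_notMem hτ]

lemma om_le_one {K : Set ℝ} (_hKm : MeasurableSet K) {a b : ℝ} (hab : a ≤ b) (hK : K ⊆ Icc a b)
    {z : ℂ} (hz : 0 < z.im) : om K z ≤ 1 := by
  unfold om
  have h1 : ∫ t in K, pk z t ≤ ∫ t in Icc a b, pk z t :=
    setIntegral_mono_set (pk_integrableOn hz a b)
      (Eventually.of_forall fun t => pk_nonneg hz t) (LE.le.eventuallyLE hK)
  rw [pk_setIntegral hz hab] at h1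
  have h2 := Real.arctan_lt_pi_div_two ((b - z.re) / z.im)
  have h3 := Real.neg_pi_div_two_lt_arctan ((a - z.re) / z.im)
  have h4 : ∫ t in K, pk z t ≤ Real.pi := by linarith
  have hpi := Real.pi_pos
  rw [one_div, inv_mul_le_iff₀ hpi]
  linarith

lemma om_le_half_of_far {K : Set ℝ} (hKm : MeasurableSet K) {a b : ℝ} (hK : K ⊆ Icc a b)
    {z : ℂ} (hz : 0 < z.im) (hfar : ∀ t ∈ K, z.im ≤ |t - z.re|) : om K z ≤ 1 / 2 := by
  unfold om
  have hpi := Real.pi_pos
  set N : ℝ := |a| + |b| + |z.re| + z.im with hN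
  have hKN : K ⊆ Icc (z.re - N) (z.re + N) := by
    intro t ht
    have h1 := hK ht
    have h2 := neg_abs_le a
    have h3 := le_abs_self b
    have h4 := neg_abs_le z.re
    have h5 := le_abs_self z.re
    have h6 := abs_nonneg a
    have h7 := abs_nonneg b
    constructor
    · have := h1.1; linarith
    · have := h1.2; linarith
  have hN0 : 0 < N := by positivity
  have hNy : z.im ≤ N := by
    have := abs_nonneg a; have := abs_nonneg b; have := abs_nonneg z.re
    linarith
  set J := Ioo (z.re - z.im) (z.re + z.im) with hJ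
  have hJsub : J ⊆ Icc (z.re - N) (z.re + N) := by
    intro t ht
    constructor
    · have := ht.1; linarith
    · have := ht.2; linarith
  have hdisj : Disjoint K J := by
    rw [Set.disjoint_left]
    intro t ht htJ
    have h1 := hfar t ht
    have h2 : |t - z.re| < z.im := by
      rw [abs_lt]; constructor <;> [have := htJ.1; have := htJ.2] <;> linarith
    linarith
  have h1 : ∫ t in K ∪ J, pk z t ≤ ∫ t in Icc (z.re - N) (z.re + N), pk z t :=
    setIntegral_mono_set (pk_integrableOn hz _ _)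
      (Eventually.of_forall fun t => pk_nonneg hz t)
      (LE.le.eventuallyLE (union_subset hKN hJsub))
  rw [setIntegral_union hdisj measurableSet_Ioo ((pk_integrableOn hz _ _).mono_set hKN)
    ((pk_integrableOn hz _ _).mono_set hJsub), pk_setIntegral hz (by linarith)] at h1
  have h2 : ∫ t in J, pk z t = Real.pi / 2 := by
    rw [hJ, ← integral_Ioc_eq_integral_Ioo, ← intervalIntegral.integral_of_le (by linarith),
      pk_integral hz]
    have e1 : (z.re + z.im - z.re) / z.im = 1 := by field_simp; ring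
    have e2 : (z.re - z.im - z.re) / z.im = -1 := by field_simp; ring
    rw [e1, e2, Real.arctan_neg, Real.arctan_one]
    ring
  have h3 := Real.arctan_lt_pi_div_two ((z.re + N - z.re) / z.im)
  have h4 := Real.neg_pi_div_two_lt_arctan ((z.re - N - z.re) / z.im)
  rw [one_div, inv_mul_le_iff₀ hpi]
  linarith

lemma om_le_half_of_high {K : Set ℝ} (hKm : MeasurableSet K) {x l : ℝ} (hl : 0 < l)
    (hK : K ⊆ Icc (x - l) (x + l))
    {z : ℂ} (hz : z.im = 2 * l) : om K z ≤ 1 / 2 := by
  have hz0 : 0 < z.im := by rw [hz]; linarith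
  unfold om
  have hpi := Real.pi_gt_three
  have h1 : ∫ t in K, pk z t ≤ ∫ t in Icc (x - l) (x + l), pk z t :=
    setIntegral_mono_set (pk_integrableOn hz0 _ _)
      (Eventually.of_forall fun t => pk_nonneg hz0 t)
      (LE.le.eventuallyLE hK)
  have h2 : ∫ t in Icc (x - l) (x + l), pk z t ≤ ∫ t in Icc (x - l) (x + l), 1 / z.im := by
    apply setIntegral_mono_on (pk_integrableOn hz0 _ _) _ measurableSet_Icc
    · intro t _; exact pk_le hz0 t
    · exact integrableOn_const (by simp)
  rw [setIntegral_const, Measure.real, Real.volume_Icc, smul_eq_mul,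
    ENNReal.toReal_ofReal (by linarith), hz] at h2
  have h3 : (x + l - (x - l)) * (1 / (2 * l)) = 1 := by field_simp; ring
  rw [h3] at h2
  rw [one_div, inv_mul_le_iff₀ (by linarith)]
  linarith

end Pool.Agent.Helper66.Unq
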