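import Pool.Agent.Helper66.UnqB

set_option autoImplicit false
open MeasureTheory Set Filter Topology Complex

namespace Pool.Agent.Helper66.Unq

/-- lower bound for the harmonic-measure-like function near a density point -/
lemma om_lower {E : Set ℝ} (hE : MeasurableSet E) {x : ℝ} {z : ℂ} (hz : 0 < z.im)
    (hzx : |z.re - x| ≤ 5 * z.im)
    (hd : volume (Icc (x - 25 * z.im) (x + 25 * z.im) \ E) ≤ ENNReal.ofReal (z.im / 5)) :
    7 / 8 ≤ om (E ∩ Icc (x - 25 * z.im) (x + 25 * z.im)) z := by
  set y := z.im with hy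
  have hpi := Real.pi_gt_three
  set K := E ∩ Icc (x - 25 * y) (x + 25 * y) with hK
  set J := Icc (z.re - 20 * y) (z.re + 20 * y) with hJ
  have hzx' := abs_le.mp hzx
  have hJs : J ⊆ Icc (x - 25 * y) (x + 25 * y) := by
    intro t ht
    constructor
    · have := ht.1; linarith
    · have := ht.2; linarith
  have hKm : MeasurableSet K := hE.inter measurableSet_Icc
  have hKs : K ⊆ Icc (x - 25 * y) (x + 25 * y) := inter_subset_right
  have hJK : J \ K ⊆ Icc (x - 25 * y) (x + 25 * y) \ E := by
    intro t ht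
    refine ⟨hJs ht.1, fun hE' => ht.2 ⟨hE', hJs ht.1⟩⟩
  have hvol : volume (J \ K) ≤ ENNReal.ofReal (y / 5) := (measure_mono hJK).trans hd
  -- integral over J
  have h1 : ∫ t in J, pk z t = 2 * Real.arctan 20 := by
    rw [hJ, pk_setIntegral hz (by linarith)]
    have e1 : (z.re + 20 * y - z.re) / z.im = 20 := by rw [← hy]; field_simp; ring
    have e2 : (z.re - 20 * y - z.re) / z.im = -20 := by rw [← hy]; field_simp; ring
    rw [e1, e2, Real.arctan_neg]; ring
  have h2 : ∫ t in J, pk z t ≤ ∫ t in K ∪ (J \ K), pk z t := by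
    apply setIntegral_mono_set
    · exact (pk_integrableOn hz (x - 25 * y) (x + 25 * y)).mono_set
        (union_subset hKs (sdiff_subset.trans hJs))
    · exact Eventually.of_forall fun t => pk_nonneg hz t
    · refine LE.le.eventuallyLE ?_
      intro t ht
      by_cases h : t ∈ K
      · exact Or.inl h
      · exact Or.inr ⟨ht, h⟩
  rw [setIntegral_union disjoint_sdiff_right (measurableSet_Icc.diff hKm)
    ((pk_integrableOn hz _ _).mono_set hKs)
    ((pk_integrableOn hz _ _).mono_set (sdiff_subset.trans hJs)), h1] at h2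
  have hfin : volume (J \ K) < ⊤ := hvol.trans_lt ENNReal.ofReal_lt_top
  have h3 : ∫ t in J \ K, pk z t ≤ 1 / 5 := by
    have h4 : ∫ t in J \ K, pk z t ≤ ∫ t in J \ K, 1 / y := by
      apply setIntegral_mono_on ((pk_integrableOn hz _ _).mono_set (sdiff_subset.trans hJs)) _
        (measurableSet_Icc.diff hKm)
      · intro t _; exact pk_le hz t
      · exact integrableOn_const hfin.ne
    rw [setIntegral_const, Measure.real, smul_eq_mul] at h4
    have h5 : (volume (J \ K)).toReal ≤ y / 5 := ENNReal.toReal_le_of_le_ofReal (by positivity) hvol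
    calc _ ≤ _ := h4
      _ ≤ (y / 5) * (1 / y) := by gcongr
      _ = 1 / 5 := by field_simp
  have h6 : Real.pi / 2 - 1 / 20 ≤ Real.arctan 20 := by
    have e := Real.arctan_inv_of_pos (show (0:ℝ) < 20 by norm_num)
    have h7 : Real.arctan (20⁻¹) ≤ 1 / 20 := by
      have h9 : 0 < Real.arctan (20⁻¹) := Real.arctan_pos.mpr (by norm_num)
      have h8 := Real.lt_tan h9 (Real.arctan_lt_pi_div_two _)
      rw [Real.tan_arctan] at h8
      linarith [h8]
    linarith
  unfold om
  rw [one_div, le_inv_mul_iff₀ (by linarith)]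
  linarith

/-- Two-constants lemma on a sawtooth region. -/
lemma two_const {K : Set ℝ} (hKm : MeasurableSet K) (hKne : K.Nonempty) {x l : ℝ} (hl : 0 < l)
    (hK : K ⊆ Icc (x - l) (x + l)) {b : ℝ} (hb : 1 ≤ b) {Φ : ℂ → ℂ}
    (hΦ : ∀ z : ℂ, 0 < z.im → DifferentiableAt ℂ Φ z) {M m δ : ℝ} (hm : 0 < m) (hmM : m ≤ M)
    (hδ : 0 < δ)
    (hM : ∀ z : ℂ, 0 < z.im → z.im ≤ 2 * l → Metric.infDist z.re K ≤ b * z.im → ‖Φ z‖ ≤ M)
    (hm' : ∀ z : ℂ, 0 < z.im → z.im ≤ δ → Metric.infDist z.re K ≤ b * z.im → ‖Φ z‖ ≤ m)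
    {z₀ : ℂ} (hz0 : 0 < z₀.im) (hz1 : z₀.im < 2 * l) (hz2 : Metric.infDist z₀.re K < b * z₀.im) :
    ‖Φ z₀‖ ≤ M * (m / M) ^ (2 * om K z₀ - 1) := by
  have hM0 : 0 < M := hm.trans_le hmM
  set lam := Real.log (M / m) with hlam
  have hlam0 : 0 ≤ lam := Real.log_nonneg (by rw [le_div_iff₀ hm]; linarith)
  have hexp : Real.exp lam = M / m := Real.exp_log (by positivity)
  set Ψ : ℂ → ℂ := fun z => Φ z * Complex.exp (lam * (2 * Wf K z - 1)) with hΨ
  have hΨn : ∀ z : ℂ, 0 < z.im → ‖Ψ z‖ = ‖Φ z‖ * Real.exp (lam * (2 * om K z - 1)) := by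
    intro z hz
    rw [hΨ]
    simp only [norm_mul, Complex.norm_exp]
    congr 2
    rw [Complex.re_ofReal_mul, ← Wf_re hKm hK hz.ne']
    simp
  set δ' := min δ (z₀.im / 2) with hδ'
  have hδ'0 : 0 < δ' := lt_min hδ (by linarith)
  set U : Set ℂ := {z | δ' < z.im ∧ z.im < 2 * l ∧ Metric.infDist z.re K < b * z.im} with hU
  set V : Set ℂ := {z | δ' ≤ z.im ∧ z.im ≤ 2 * l ∧ Metric.infDist z.re K ≤ b * z.im} with hV
  have hcinf : Continuous fun z : ℂ => Metric.infDist z.re K :=
    (Metric.continuous_infDist_pt K).comp Complex.continuous_re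
  have hUo : IsOpen U := by
    apply IsOpen.inter (isOpen_lt continuous_const Complex.continuous_im)
    apply IsOpen.inter (isOpen_lt Complex.continuous_im continuous_const)
    exact isOpen_lt hcinf (continuous_const.mul Complex.continuous_im)
  have hVc : IsClosed V := by
    apply IsClosed.inter (isClosed_le continuous_const Complex.continuous_im)
    apply IsClosed.inter (isClosed_le Complex.continuous_im continuous_const)
    exact isClosed_le hcinf (continuous_const.mul Complex.continuous_im)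
  have hUV : U ⊆ V := fun z hz => ⟨hz.1.le, hz.2.1.le, hz.2.2.le⟩
  have hcl : closure U ⊆ V := closure_minimal hUV hVc
  have hVpos : ∀ z ∈ V, 0 < z.im := fun z hz => hδ'0.trans_le hz.1
  have hUb : Bornology.IsBounded U := by
    rw [Metric.isBounded_iff_subset_closedBall 0]
    refine ⟨|x| + l + b * (2 * l) + 2 * l, ?_⟩
    intro z hz
    obtain ⟨t, ht, hzt⟩ := (Metric.infDist_lt_iff hKne).1 hz.2.2
    have ht' := hK ht
    rw [Real.dist_eq] at hzt
    have h1 : b * z.im ≤ b * (2 * l) := by
      apply mul_le_mul_of_nonneg_left hz.2.1.le (by linarith)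
    have h2 : |z.re| ≤ |x| + l + b * (2 * l) := by
      have h3 := abs_lt.mp hzt
      have h4 := neg_abs_le x
      have h5 := le_abs_self x
      rw [abs_le]
      constructor
      · have := ht'.1; linarith
      · have := ht'.2; linarith
    have h3 : |z.im| ≤ 2 * l := by
      rw [abs_of_pos (hδ'0.trans hz.1)]; exact hz.2.1.le
    have h4 := Complex.norm_le_abs_re_add_abs_im z
    simp only [Metric.mem_closedBall, dist_zero_right]
    linarith
  have hd : DiffContOnCl ℂ Ψ U := by
    apply DifferentiableOn.diffContOnCl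
    intro z hz
    have hzp := hVpos z (hcl hz)
    have h1 : DifferentiableAt ℂ (fun z => Complex.exp (lam * (2 * Wf K z - 1))) z := by
      have := Wf_diff hKm hK hzp.ne'
      exact (((this.const_mul 2).sub_const 1).const_mul _).cexp
    exact ((hΦ z hzp).mul h1).differentiableWithinAt
  have hfr : ∀ z ∈ frontier U, ‖Ψ z‖ ≤ M := by
    intro z hz
    rw [hUo.frontier_eq] at hz
    have hzV := hcl hz.1
    have hzp := hVpos z hzV
    have hzU := hz.2
    rw [hΨn z hzp]
    by_cases h1 : z.im ≤ δ'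
    · have h2 := hm' z hzp (h1.trans (min_le_left _ _)) hzV.2.2
      have h3 := om_le_one hKm (by linarith) hK hzp
      have h4 : Real.exp (lam * (2 * om K z - 1)) ≤ M / m := by
        rw [← hexp]
        apply Real.exp_le_exp.mpr
        nlinarith
      calc _ ≤ m * (M / m) := by
            apply mul_le_mul h2 h4 (Real.exp_pos _).le hm.le
        _ = M := by field_simp
    · have h5 : om K z ≤ 1 / 2 := by
        by_cases h6 : z.im < 2 * l
        · have h7 : ¬ (Metric.infDist z.re K < b * z.im) := fun h => hzU ⟨not_le.mp h1, h6, h⟩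
          apply om_le_half_of_far hKm hK hzp
          intro t ht
          have h8 := Metric.infDist_le_dist_of_mem (x := z.re) ht
          rw [Real.dist_eq, abs_sub_comm] at h8
          have h9 : b * z.im ≤ |t - z.re| := (not_lt.mp h7).trans h8
          nlinarith
        · exact om_le_half_of_high hKm hl hK (le_antisymm hzV.2.1 (not_lt.mp h6))
      have h6 : Real.exp (lam * (2 * om K z - 1)) ≤ 1 := by
        rw [Real.exp_le_one_iff]
        nlinarith
      have h7 := hM z hzp hzV.2.1 hzV.2.2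
      calc _ ≤ M * 1 := mul_le_mul h7 h6 (Real.exp_pos _).le hM0.le
        _ = M := mul_one M
  have hz0U : z₀ ∈ U := by
    refine ⟨?_, hz1, hz2⟩
    have : δ' ≤ z₀.im / 2 := min_le_right _ _
    linarith
  have hfin := Complex.norm_le_of_forall_mem_frontier_norm_le hUb hd hfr (subset_closure hz0U)
  rw [hΨn z₀ hz0] at hfin
  have h1 : (m / M) ^ (2 * om K z₀ - 1) = Real.exp (-(lam * (2 * om K z₀ - 1))) := by
    rw [Real.rpow_def_of_pos (by positivity)]
    congr 1
    have : Real.log (m / M) = - lam := by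
      rw [hlam, ← Real.log_inv, inv_div]
    rw [this]; ring
  rw [h1, Real.exp_neg]
  rw [← div_eq_mul_inv, le_div_iff₀ (Real.exp_pos _)]
  exact hfin

end Pool.Agent.Helper66.Unq
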