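import Pool.Agent.Helper66.UnqC

set_option autoImplicit false
open MeasureTheory Set Filter Topology Complex

namespace Pool.Agent.Helper66.Unq

/-- uniform cone convergence -/
def UC (a : ℝ) (φ : ℂ → ℂ) (g : ℝ → ℂ) (E : Set ℝ) : Prop :=
  ∀ ε : ℝ, 0 < ε → ∃ δ : ℝ, 0 < δ ∧ ∀ x ∈ E, ∀ z : ℂ, 0 < z.im → z.im ≤ δ →
    |z.re - x| ≤ a * z.im → ‖φ z - g x‖ ≤ ε

/-- uniform density -/
def Dens (E E' : Set ℝ) : Prop :=
  ∃ r₀ : ℝ, 0 < r₀ ∧ ∀ x ∈ E', ∀ r : ℝ, 0 < r → r ≤ r₀ →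
    volume (Icc (x - r) (x + r) \ E) ≤ ENNReal.ofReal (r / 125)

lemma two_const_at {E : Set ℝ} (hE : MeasurableSet E) {x : ℝ} (hx : x ∈ E) {a b : ℝ}
    (ha : 1 ≤ a) (hab : a < b) (ha5 : a ≤ 5) {Φ : ℂ → ℂ}
    (hΦ : ∀ z : ℂ, 0 < z.im → DifferentiableAt ℂ Φ z) {M m δ : ℝ} (hm : 0 < m) (hmM : m ≤ M)
    (hδ : 0 < δ) {z₀ : ℂ} (hz0 : 0 < z₀.im) (hz2 : |z₀.re - x| ≤ a * z₀.im)
    (hd : volume (Icc (x - 25 * z₀.im) (x + 25 * z₀.im) \ E) ≤ ENNReal.ofReal (z₀.im / 5))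
    (hM : ∀ z : ℂ, 0 < z.im → z.im ≤ 50 * z₀.im → ∀ t ∈ E, |t - x| ≤ 25 * z₀.im →
      |z.re - t| ≤ b * z.im → ‖Φ z‖ ≤ M)
    (hm' : ∀ z : ℂ, 0 < z.im → z.im ≤ δ → ∀ t ∈ E, |t - x| ≤ 25 * z₀.im →
      |z.re - t| ≤ b * z.im → ‖Φ z‖ ≤ m) :
    ‖Φ z₀‖ ≤ M * (m / M) ^ (3 / 4 : ℝ) := by
  set K := E ∩ Icc (x - 25 * z₀.im) (x + 25 * z₀.im) with hK
  have hxK : x ∈ K := ⟨hx, by constructor <;> linarith⟩
  have hpt : ∀ z : ℂ, 0 < z.im → Metric.infDist z.re K ≤ (a + b) / 2 * z.im →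
      ∃ t ∈ E, |t - x| ≤ 25 * z₀.im ∧ |z.re - t| ≤ b * z.im := by
    intro z hz h
    have h1 : Metric.infDist z.re K < b * z.im := by nlinarith
    obtain ⟨t, ht, hzt⟩ := (Metric.infDist_lt_iff ⟨x, hxK⟩).1 h1
    refine ⟨t, ht.1, ?_, ?_⟩
    · rw [abs_le]; constructor <;> [have := ht.2.1; have := ht.2.2] <;> linarith
    · rw [Real.dist_eq] at hzt; exact hzt.le
  have h := two_const (K := K) (hE.inter measurableSet_Icc) ⟨x, hxK⟩ (x := x) (l := 25 * z₀.im)
    (by linarith) inter_subset_right (b := (a + b) / 2) (by linarith) hΦ hm hmM hδ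
    (fun z hz hz' hz'' => by
      obtain ⟨t, ht, h1, h2⟩ := hpt z hz hz''
      exact hM z hz (by linarith) t ht h1 h2)
    (fun z hz hz' hz'' => by
      obtain ⟨t, ht, h1, h2⟩ := hpt z hz hz''
      exact hm' z hz hz' t ht h1 h2) (z₀ := z₀) hz0 (by linarith)
    (by
      have h1 := Metric.infDist_le_dist_of_mem (x := z₀.re) hxK
      rw [Real.dist_eq] at h1
      have h2 : a * z₀.im < (a + b) / 2 * z₀.im := by nlinarith
      linarith)
  have hom := om_lower hE hz0 (x := x) (hz2.trans (by nlinarith)) hd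
  have hM0 : 0 < M := hm.trans_le hmM
  refine h.trans ?_
  apply mul_le_mul_of_nonneg_left _ hM0.le
  apply Real.rpow_le_rpow_of_exponent_ge (by positivity) ((div_le_one hM0).mpr hmM)
  linarith

/-- Propagation: Hölder boundary data give a Hölder cone estimate. -/
lemma propagate {φ : ℂ → ℂ} (hφ : ∀ z : ℂ, 0 < z.im → DifferentiableAt ℂ φ z) {g : ℝ → ℂ}
    {E E' : Set ℝ} (hE : MeasurableSet E) (hE' : E' ⊆ E) (hUC : UC 7 φ g E)
    {β A r₀ : ℝ} (hβ : 0 < β) (hA : 0 ≤ A) (hr₀ : 0 < r₀)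
    (hg : ∀ x ∈ E, ∀ t ∈ E, |t - x| ≤ r₀ → ‖g t - g x‖ ≤ A * |t - x| ^ β) (hD : Dens E E') :
    ∃ C : ℝ, 0 ≤ C ∧ ∃ δ : ℝ, 0 < δ ∧ ∀ x ∈ E', ∀ z : ℂ, 0 < z.im → z.im ≤ δ →
      |z.re - x| ≤ 5 * z.im → ‖φ z - g x‖ ≤ C * z.im ^ (β * (3 / 4)) := by
  obtain ⟨δ₁, hδ₁, h1⟩ := hUC 1 one_pos
  obtain ⟨r₁, hr₁, hD⟩ := hD
  set M : ℝ := A * r₀ ^ β + 1 with hM
  have hM1 : 1 ≤ M := by
    have : 0 ≤ A * r₀ ^ β := by positivity
    linarith
  have hM0 : 0 < M := by linarith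
  refine ⟨M * ((A + 1) * 25 ^ β / M) ^ (3 / 4 : ℝ), by positivity,
    min (min (δ₁ / 50) (r₀ / 25)) (min (r₁ / 25) (1 / 25)), by positivity, ?_⟩
  intro x hx z hz hzδ hzx
  set y := z.im with hy
  have hy1 : y ≤ δ₁ / 50 := hzδ.trans ((min_le_left _ _).trans (min_le_left _ _))
  have hy2 : y ≤ r₀ / 25 := hzδ.trans ((min_le_left _ _).trans (min_le_right _ _))
  have hy3 : y ≤ r₁ / 25 := hzδ.trans ((min_le_right _ _).trans (min_le_left _ _))
  have hy4 : y ≤ 1 / 25 := hzδ.trans ((min_le_right _ _).trans (min_le_right _ _))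
  have hp : (0:ℝ) < (25 * y) ^ β := by positivity
  obtain ⟨δ₂, hδ₂, h2⟩ := hUC ((25 * y) ^ β) hp
  have hgt : ∀ t ∈ E, |t - x| ≤ 25 * y → ‖g t - g x‖ ≤ A * (25 * y) ^ β := by
    intro t ht htx
    refine (hg x (hE' hx) t ht (by linarith)).trans ?_
    gcongr
  have hdens : volume (Icc (x - 25 * y) (x + 25 * y) \ E) ≤ ENNReal.ofReal (y / 5) := by
    refine (hD x hx (25 * y) (by positivity) (by linarith)).trans (le_of_eq ?_)
    congr 1; ring
  have h25 : (25 * y) ^ β ≤ r₀ ^ β := by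
    apply Real.rpow_le_rpow (by positivity) (by linarith) hβ.le
  have h251 : (25 * y) ^ β ≤ 1 := by
    apply Real.rpow_le_one (by positivity) (by linarith) hβ.le
  have key := two_const_at hE (hE' hx) (a := 5) (b := 7) (by norm_num) (by norm_num) le_rfl
    (Φ := fun w => φ w - g x) (fun w hw => (hφ w hw).sub_const _)
    (M := M) (m := (A + 1) * (25 * y) ^ β) (δ := δ₂) (by positivity)
    (by
      have := mul_le_mul_of_nonneg_left h25 hA
      rw [add_mul, one_mul, hM]; linarith) hδ₂ (z₀ := z) hz hzx hdens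
    (by
      intro w hw hw' t ht htx hwt
      have e1 := h1 t ht w hw (by linarith) hwt
      have e2 := hgt t ht htx
      have e3 : φ w - g x = (φ w - g t) + (g t - g x) := by ring
      show ‖φ w - g x‖ ≤ _
      rw [e3]
      refine (norm_add_le _ _).trans ?_
      have := mul_le_mul_of_nonneg_left h25 hA
      rw [hM]; linarith)
    (by
      intro w hw hw' t ht htx hwt
      have e1 := h2 t ht w hw hw' hwt
      have e2 := hgt t ht htx
      have e3 : φ w - g x = (φ w - g t) + (g t - g x) := by ring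
      show ‖φ w - g x‖ ≤ _
      rw [e3]
      refine (norm_add_le _ _).trans ?_
      rw [add_mul, one_mul]; linarith)
  refine key.trans (le_of_eq ?_)
  rw [mul_assoc]
  congr 1
  rw [Real.rpow_mul hz.le, ← Real.mul_rpow (by positivity) (by positivity)]
  congr 1
  rw [Real.mul_rpow (by norm_num) hz.le]
  ring

/-- Uniqueness: uniform cone convergence to zero near a density point gives zero. -/
lemma uniq_zero {ψ : ℂ → ℂ} (hψ : ∀ z : ℂ, 0 < z.im → DifferentiableAt ℂ ψ z)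
    {E E' : Set ℝ} (hE : MeasurableSet E) (hE' : E' ⊆ E) (hne : E'.Nonempty)
    (hUC : UC 3 ψ (fun _ => 0) E) (hD : Dens E E') : ∀ z : ℂ, 0 < z.im → ψ z = 0 := by
  obtain ⟨x, hx⟩ := hne
  obtain ⟨δ₁, hδ₁, h1⟩ := hUC 1 one_pos
  obtain ⟨r₁, hr₁, hD⟩ := hD
  set y₁ := min (δ₁ / 50) (r₁ / 25) with hy₁
  have hy₁0 : 0 < y₁ := by positivity
  have hz : ∀ z : ℂ, 0 < z.im → z.im < y₁ → |z.re - x| < z.im → ψ z = 0 := by
    intro z hz hzy hzx
    have e1 : z.im ≤ δ₁ / 50 := hzy.le.trans (min_le_left _ _)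
    have e2 : z.im ≤ r₁ / 25 := hzy.le.trans (min_le_right _ _)
    have key : ∀ m : ℝ, m ∈ Ioc (0:ℝ) 1 → ‖ψ z‖ ≤ m ^ (3 / 4 : ℝ) := by
      intro m hm
      obtain ⟨δ₂, hδ₂, h2⟩ := hUC m hm.1
      have := two_const_at hE (hE' hx) (a := 1) (b := 3) le_rfl (by norm_num) (by norm_num)
        (Φ := ψ) hψ (M := 1) (m := m) (δ := δ₂) hm.1 hm.2 hδ₂ (z₀ := z) hz (by linarith)
        (by
          refine (hD x hx (25 * z.im) (by positivity) (by linarith)).trans (le_of_eq ?_)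
          congr 1; ring)
        (by
          intro w hw hw' t ht htx hwt
          simpa using h1 t ht w hw (by linarith) hwt)
        (by
          intro w hw hw' t ht htx hwt
          simpa using h2 t ht w hw hw' hwt)
      simpa using this
    have hlim : Tendsto (fun m : ℝ => m ^ (3 / 4 : ℝ)) (𝓝[>] 0) (𝓝 0) := by
      have h := (Real.continuousAt_rpow_const (0:ℝ) (3 / 4 : ℝ) (Or.inr (by norm_num))).tendsto
      rw [Real.zero_rpow (by norm_num)] at h
      exact h.mono_left nhdsWithin_le_nhds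
    have : ‖ψ z‖ ≤ 0 := by
      refine ge_of_tendsto hlim ?_
      filter_upwards [Ioc_mem_nhdsGT (show (0:ℝ) < 1 by norm_num)] with m hm
      exact key m hm
    exact norm_le_zero_iff.mp this
  have hopen : IsOpen {z : ℂ | 0 < z.im} := isOpen_lt continuous_const Complex.continuous_im
  have han : AnalyticOnNhd ℂ ψ {z : ℂ | 0 < z.im} := by
    apply DifferentiableOn.analyticOnNhd _ hopen
    intro z hz; exact (hψ z hz).differentiableWithinAt
  have hconv : IsPreconnected {z : ℂ | 0 < z.im} := by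
    have := convex_halfSpace_im_gt 0
    exact this.isPreconnected
  set z₁ : ℂ := ⟨x, y₁ / 2⟩ with hz₁
  have hz₁m : z₁ ∈ {z : ℂ | 0 < z.im} := by simp [hz₁]; positivity
  have hev : ψ =ᶠ[𝓝 z₁] 0 := by
    have hO : IsOpen {z : ℂ | 0 < z.im ∧ z.im < y₁ ∧ |z.re - x| < z.im} := by
      apply IsOpen.inter hopen
      apply IsOpen.inter (isOpen_lt Complex.continuous_im continuous_const)
      exact isOpen_lt ((Complex.continuous_re.sub continuous_const).abs) Complex.continuous_im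
    have hmem : z₁ ∈ {z : ℂ | 0 < z.im ∧ z.im < y₁ ∧ |z.re - x| < z.im} := by
      simp only [hz₁, mem_setOf_eq, sub_self, abs_zero]
      refine ⟨by positivity, by linarith, by positivity⟩
    filter_upwards [hO.mem_nhds hmem] with z hz'
    exact hz z hz'.1 hz'.2.1 hz'.2.2
  have := han.eqOn_zero_of_preconnected_of_eventuallyEq_zero hconv hz₁m hev
  intro z hz'
  exact this hz'

/-- Cauchy estimate: better than linear cone estimate kills the derivative at the boundary. -/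
lemma deriv_UC {φ : ℂ → ℂ} (hφ : ∀ z : ℂ, 0 < z.im → DifferentiableAt ℂ φ z) {g : ℝ → ℂ}
    {E : Set ℝ} {C δ p : ℝ} (hp : 1 < p) (hC : 0 ≤ C) (hδ : 0 < δ)
    (h : ∀ x ∈ E, ∀ z : ℂ, 0 < z.im → z.im ≤ δ →
      |z.re - x| ≤ 5 * z.im → ‖φ z - g x‖ ≤ C * z.im ^ p) :
    UC 3 (deriv φ) (fun _ => 0) E := by
  intro ε hε
  have hlim : Tendsto (fun y : ℝ => 5 * C * (5 * y / 4) ^ (p - 1)) (𝓝[>] 0) (𝓝 0) := by
    have h1 := (Real.continuousAt_rpow_const (0:ℝ) (p - 1) (Or.inr (by linarith))).tendsto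
    rw [Real.zero_rpow (by linarith)] at h1
    have h2 : Tendsto (fun y : ℝ => 5 * y / 4) (𝓝[>] 0) (𝓝 0) := by
      have : Tendsto (fun y : ℝ => 5 * y / 4) (𝓝 0) (𝓝 (5 * 0 / 4)) :=
        Continuous.tendsto (by fun_prop) 0
      simp only [mul_zero, zero_div] at this
      exact this.mono_left nhdsWithin_le_nhds
    have h3 := (h1.comp h2).const_mul (5 * C)
    simpa using h3
  have hev : ∀ᶠ y in 𝓝[>] (0:ℝ), 5 * C * (5 * y / 4) ^ (p - 1) < ε ∧ y ∈ Ioc 0 (δ / 2) :=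
    (hlim.eventually (gt_mem_nhds hε)).and (Ioc_mem_nhdsGT (by positivity))
  obtain ⟨y₀, hy₀, hy₀'⟩ := hev.exists
  refine ⟨y₀, hy₀'.1, ?_⟩
  intro x hx z hz hzy hzx
  set y := z.im with hy
  have hzδ : y ≤ δ / 2 := hzy.trans hy₀'.2
  have hsph : ∀ w ∈ Metric.closedBall z (y / 4), 3 * y / 4 ≤ w.im ∧ w.im ≤ 5 * y / 4 ∧
      |w.re - x| ≤ 13 * y / 4 := by
    intro w hw
    rw [Metric.mem_closedBall, dist_eq_norm] at hw
    have e1 := (Complex.abs_im_le_norm (w - z)).trans hw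
    have e2 := (Complex.abs_re_le_norm (w - z)).trans hw
    rw [Complex.sub_im, abs_le] at e1
    rw [Complex.sub_re, abs_le] at e2
    have e3 := abs_le.mp hzx
    refine ⟨by linarith [e1.1], by linarith [e1.2], ?_⟩
    rw [abs_le]; constructor <;> linarith [e2.1, e2.2, e3.1, e3.2]
  have hd : DiffContOnCl ℂ (fun w => φ w - g x) (Metric.ball z (y / 4)) := by
    apply DifferentiableOn.diffContOnCl
    intro w hw
    have hw' := hsph w (Metric.closure_ball_subset_closedBall hw)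
    exact ((hφ w (by linarith [hw'.1])).sub_const _).differentiableWithinAt
  have hb : ∀ w ∈ Metric.sphere z (y / 4), ‖φ w - g x‖ ≤ C * (5 * y / 4) ^ p := by
    intro w hw
    have hw' := hsph w (Metric.sphere_subset_closedBall hw)
    refine (h x hx w (by linarith [hw'.1]) (by linarith [hw'.2.1]) (by linarith [hw'.1, hw'.2.2])).trans ?_
    apply mul_le_mul_of_nonneg_left _ hC
    apply Real.rpow_le_rpow (by linarith [hw'.1]) hw'.2.1 (by linarith)
  have hder := Complex.norm_deriv_le_of_forall_mem_sphere_norm_le (by positivity) hd hb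
  have hdd : deriv (fun w => φ w - g x) z = deriv φ z := by
    exact deriv_sub_const (f := φ) (x := z) (g x)
  rw [hdd] at hder
  rw [sub_zero]
  refine hder.trans ?_
  have e1 : C * (5 * y / 4) ^ p / (y / 4) = 5 * C * (5 * y / 4) ^ (p - 1) := by
    have e2 : (5 * y / 4) ^ p = (5 * y / 4) * (5 * y / 4) ^ (p - 1) := by
      rw [← Real.rpow_one_add' (by positivity) (by linarith)]
      congr 1; ring
    rw [e2]; field_simp
  rw [e1]
  refine le_trans ?_ hy₀.le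
  apply mul_le_mul_of_nonneg_left _ (by positivity)
  apply Real.rpow_le_rpow (by positivity) (by linarith) (by linarith)

end Pool.Agent.Helper66.Unq
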