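import Pool.Agent.Helper66.UnqD

set_option autoImplicit false
open MeasureTheory Set Filter Topology Complex

namespace Pool.Agent.Helper66.Unq

lemma egorov_pos {V : Type*} [NormedAddCommGroup V] {G : ℕ → ℝ → V} {G' : ℝ → V}
    (hG : ∀ n, StronglyMeasurable (G n)) (hG' : StronglyMeasurable G') {E : Set ℝ}
    (hE : MeasurableSet E) (hpos : 0 < volume E)
    (h : ∀ᵐ x ∂(volume.restrict E), Tendsto (fun n => G n x) atTop (𝓝 (G' x))) :
    ∃ E' ⊆ E, MeasurableSet E' ∧ 0 < volume E' ∧ (∃ R : ℝ, E' ⊆ Icc (-R) R) ∧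
      TendstoUniformlyOn G G' atTop E' := by
  obtain ⟨n, hn⟩ : ∃ n : ℕ, 0 < volume (E ∩ Icc (-(n : ℝ)) n) := by
    by_contra hcon
    push Not at hcon
    have h1 : volume (⋃ n : ℕ, E ∩ Icc (-(n : ℝ)) n) = 0 := by
      rw [measure_iUnion_null_iff]
      intro n; exact le_antisymm (hcon n) (zero_le)
    have h2 : E ⊆ ⋃ n : ℕ, E ∩ Icc (-(n : ℝ)) n := by
      intro x hx
      obtain ⟨n, hn⟩ := exists_nat_ge |x|
      rw [mem_iUnion]
      exact ⟨n, hx, (abs_le.mp hn)⟩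
    have h3 := measure_mono_null h2 h1
    rw [h3] at hpos
    exact lt_irrefl _ hpos
  set E₁ := E ∩ Icc (-(n : ℝ)) n with hE₁
  have hE₁m : MeasurableSet E₁ := hE.inter measurableSet_Icc
  have hfin : volume E₁ ≠ ⊤ := ((measure_mono inter_subset_right).trans_lt measure_Icc_lt_top).ne
  have hae : ∀ᵐ x ∂(volume : Measure ℝ), x ∈ E₁ → Tendsto (fun n => G n x) atTop (𝓝 (G' x)) := by
    rw [ae_restrict_iff' hE] at h
    filter_upwards [h] with x hx hx1 using hx hx1.1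
  have hv : 0 < (volume E₁ / 2).toReal := by
    apply ENNReal.toReal_pos
    · simp [hn.ne']
    · exact (ENNReal.div_lt_top hfin (by norm_num)).ne
  obtain ⟨t, hts, htm, htv, hu⟩ := tendstoUniformlyOn_of_ae_tendsto hG hG' hE₁m hfin hae hv
  rw [ENNReal.ofReal_toReal (ENNReal.div_lt_top hfin (by norm_num)).ne] at htv
  refine ⟨E₁ \ t, sdiff_subset.trans inter_subset_left, hE₁m.diff htm, ?_, ⟨n, ?_⟩, hu⟩
  · rw [measure_sdiff hts htm.nullMeasurableSet (ne_top_of_le_ne_top hfin (measure_mono hts))]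
    rw [tsub_pos_iff_lt]
    exact htv.trans_lt (ENNReal.half_lt_self hn.ne' hfin)
  · exact sdiff_subset.trans inter_subset_right

/-- local mass -/
noncomputable def Im (w : ℝ → ℝ) (x r : ℝ) : ℝ := ∫ τ in Icc (x - r) (x + r), w τ

lemma Im_eq {w : ℝ → ℝ} {x r : ℝ} (hr : 0 ≤ r) : Im w x r = ∫ τ in (x - r)..(x + r), w τ := by
  unfold Im
  rw [integral_Icc_eq_integral_Ioc, intervalIntegral.integral_of_le (by linarith)]

lemma Im_cont {w : ℝ → ℝ} (hw : LocallyIntegrable w) {r : ℝ} (hr : 0 ≤ r) :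
    Continuous (fun x => Im w x r) := by
  have hii : ∀ a b : ℝ, IntervalIntegrable w volume a b := fun a b =>
    (hw.integrableOn_isCompact isCompact_uIcc).intervalIntegrable
  have h1 : (fun x => Im w x r) = fun x => (∫ τ in (0:ℝ)..(x + r), w τ) - ∫ τ in (0:ℝ)..(x - r), w τ := by
    ext x
    rw [Im_eq hr, intervalIntegral.integral_interval_sub_left (hii _ _) (hii _ _)]
  rw [h1]
  have h2 := intervalIntegral.continuous_primitive hii 0
  exact (h2.comp (by fun_prop)).sub (h2.comp (by fun_prop))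

lemma Im_mono {w : ℝ → ℝ} (hw : LocallyIntegrable w) (hw0 : ∀ τ, 0 ≤ w τ) {x r s : ℝ} (hrs : r ≤ s) :
    Im w x r ≤ Im w x s := by
  unfold Im
  apply setIntegral_mono_set
  · exact hw.integrableOn_isCompact isCompact_Icc
  · exact Eventually.of_forall fun t => hw0 t
  · exact (Icc_subset_Icc (by linarith) (by linarith)).eventuallyLE

lemma Im_nonneg {w : ℝ → ℝ} (hw0 : ∀ τ, 0 ≤ w τ) (x r : ℝ) : 0 ≤ Im w x r :=
  integral_nonneg hw0

lemma half_pow_tendsto : Tendsto (fun n : ℕ => ((1:ℝ) / 2) ^ n) atTop (𝓝[>] 0) := by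
  rw [tendsto_nhdsWithin_iff]
  refine ⟨tendsto_pow_atTop_nhds_zero_of_lt_one (by norm_num) (by norm_num), ?_⟩
  exact Eventually.of_forall fun n => by simp only [mem_Ioi]; positivity

lemma Im_ae {w : ℝ → ℝ} (hw : LocallyIntegrable w) (hw0 : ∀ τ, 0 ≤ w τ) :
    ∀ᵐ x ∂(volume : Measure ℝ), w x = 0 →
      Tendsto (fun n : ℕ => (2:ℝ) ^ n * Im w x ((1 / 2) ^ n)) atTop (𝓝 0) := by
  filter_upwards [IsUnifLocDoublingMeasure.ae_tendsto_average_norm_sub volume hw 1] with x hx hwx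
  have h1 := hx (fun _ : ℕ => x) (fun n : ℕ => ((1:ℝ) / 2) ^ n) half_pow_tendsto
    (Eventually.of_forall fun n => by
      simp only [one_mul]
      exact Metric.mem_closedBall_self (by positivity))
  have h2 := h1.const_mul 2
  rw [mul_zero] at h2
  refine h2.congr (fun n => ?_)
  rw [hwx]
  simp only [sub_zero]
  rw [setAverage_eq, Real.closedBall_eq_Icc, Measure.real, Real.volume_Icc,
    ENNReal.toReal_ofReal (by
      have : (0:ℝ) ≤ (1/2)^n := by positivity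
      linarith)]
  have h3 : ∀ τ, ‖w τ‖ = w τ := fun τ => Real.norm_of_nonneg (hw0 τ)
  simp_rw [h3]
  unfold Im
  rw [smul_eq_mul]
  have h4 : (x + (1 / 2) ^ n - (x - (1 / 2) ^ n))⁻¹ = 2 ^ n / (2:ℝ) := by
    rw [one_div, inv_pow]
    field_simp
    ring
  rw [h4]; ring

/-- dyadic to continuous -/
lemma Im_unif {w : ℝ → ℝ} (hw : LocallyIntegrable w) (hw0 : ∀ τ, 0 ≤ w τ) {E : Set ℝ}
    (h : ∀ ε : ℝ, 0 < ε → ∃ N : ℕ, ∀ n ≥ N, ∀ x ∈ E, (2:ℝ) ^ n * Im w x ((1 / 2) ^ n) ≤ ε) :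
    ∀ ε : ℝ, 0 < ε → ∃ r₀ : ℝ, 0 < r₀ ∧ r₀ ≤ 1 ∧ ∀ x ∈ E, ∀ r : ℝ, 0 < r → r ≤ r₀ →
      Im w x r ≤ ε * r := by
  intro ε hε
  obtain ⟨N, hN⟩ := h (ε / 2) (by positivity)
  refine ⟨(1 / 2) ^ N, by positivity, pow_le_one₀ (by norm_num) (by norm_num), ?_⟩
  intro x hx r hr hrN
  obtain ⟨n, hn1, hn2⟩ := exists_nat_pow_near_of_lt_one hr
    (hrN.trans (pow_le_one₀ (by norm_num) (by norm_num))) (show (0:ℝ) < 1 / 2 by norm_num)
    (by norm_num)
  have hnN : N ≤ n := by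
    by_contra hcon
    push Not at hcon
    have h1 : ((1:ℝ) / 2) ^ N ≤ (1 / 2) ^ (n + 1) :=
      pow_le_pow_of_le_one (by norm_num) (by norm_num) hcon
    linarith
  have h1 := hN n hnN x hx
  have h2 : Im w x r ≤ Im w x ((1 / 2) ^ n) := Im_mono hw hw0 hn2
  have h3 : (2:ℝ) ^ n * ((1 / 2) ^ n) = 1 := by rw [← mul_pow]; norm_num
  have h4 : Im w x ((1 / 2) ^ n) ≤ ε / 2 * (1 / 2) ^ n := by
    have h5 : Im w x ((1 / 2) ^ n) = ((2:ℝ) ^ n * Im w x ((1 / 2) ^ n)) * (1 / 2) ^ n := by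
      calc _ = ((2:ℝ) ^ n * ((1 / 2) ^ n)) * Im w x ((1 / 2) ^ n) := by rw [h3, one_mul]
        _ = _ := by ring
    rw [h5]
    exact mul_le_mul_of_nonneg_right h1 (by positivity)
  have h6 : ((1:ℝ) / 2) ^ n = 2 * (1 / 2) ^ (n + 1) := by rw [pow_succ]; ring
  nlinarith

lemma exists_dens {E : Set ℝ} (hE : MeasurableSet E) (hpos : 0 < volume E) :
    ∃ E' ⊆ E, MeasurableSet E' ∧ 0 < volume E' ∧ Dens E E' := by
  set w : ℝ → ℝ := (Eᶜ).indicator (fun _ => 1) with hw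
  have hw0 : ∀ τ, 0 ≤ w τ := fun τ => indicator_nonneg (fun _ _ => zero_le_one) τ
  have hwi : LocallyIntegrable w := by
    apply LocallyIntegrable.indicator _ hE.compl
    exact locallyIntegrable_const 1
  have hae := Im_ae hwi hw0
  have hae' : ∀ᵐ x ∂(volume.restrict E),
      Tendsto (fun n : ℕ => (2:ℝ) ^ n * Im w x ((1 / 2) ^ n)) atTop (𝓝 0) := by
    rw [ae_restrict_iff' hE]
    filter_upwards [hae] with x hx hxE
    apply hx
    rw [hw]; simp [hxE]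
  obtain ⟨E', hE's, hE'm, hE'p, -, hu⟩ := egorov_pos
    (G := fun n x => (2:ℝ) ^ n * Im w x ((1 / 2) ^ n)) (G' := fun _ => 0)
    (fun n => (continuous_const.mul (Im_cont hwi (by positivity))).stronglyMeasurable)
    stronglyMeasurable_const hE hpos hae'
  refine ⟨E', hE's, hE'm, hE'p, ?_⟩
  rw [Metric.tendstoUniformlyOn_iff] at hu
  have hN : ∀ ε : ℝ, 0 < ε → ∃ N : ℕ, ∀ n ≥ N, ∀ x ∈ E',
      (2:ℝ) ^ n * Im w x ((1 / 2) ^ n) ≤ ε := by
    intro ε hε
    obtain ⟨N, hN⟩ := eventually_atTop.mp (hu ε hε)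
    refine ⟨N, fun n hn x hx => ?_⟩
    have := hN n hn x hx
    rw [dist_comm, Real.dist_eq, sub_zero] at this
    exact (le_abs_self _).trans this.le
  obtain ⟨r₀, hr₀, -, h⟩ := Im_unif hwi hw0 hN (1 / 125) (by norm_num)
  refine ⟨r₀, hr₀, fun x hx r hr hrr => ?_⟩
  have h1 := h x hx r hr hrr
  have h2 : Im w x r = (volume (Icc (x - r) (x + r) \ E)).toReal := by
    unfold Im
    rw [hw, setIntegral_indicator hE.compl, setIntegral_const]
    simp [Measure.real, sdiff_eq]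
  rw [h2] at h1
  have hfin : volume (Icc (x - r) (x + r) \ E) ≠ ⊤ :=
    ((measure_mono sdiff_subset).trans_lt measure_Icc_lt_top).ne
  rw [ENNReal.le_ofReal_iff_toReal_le hfin (by positivity)]
  linarith

end Pool.Agent.Helper66.Unq
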