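import Pool.Agent.Helper66.UnqE

set_option autoImplicit false
open MeasureTheory Set Filter Topology Complex

namespace Pool.Agent.Helper66.Unq

lemma poisson_int {f : ℝ → ℂ} (hf : MemLp f 2 volume) (x : ℝ) :
    Integrable (fun τ => ‖f τ‖ * (1 + (τ - x) ^ 2)⁻¹) ∧
    ∫ τ, ‖f τ‖ * (1 + (τ - x) ^ 2)⁻¹ ≤ ((∫ τ, ‖f τ‖ ^ 2) + Real.pi) / 2 := by
  have hfi : Integrable (fun τ => ‖f τ‖ ^ 2) := (memLp_two_iff_integrable_sq_norm hf.1).1 hf
  have hk : Integrable (fun τ : ℝ => (1 + (τ - x) ^ 2)⁻¹) :=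
    integrable_inv_one_add_sq.comp_sub_right x
  have hkI : ∫ τ : ℝ, (1 + (τ - x) ^ 2)⁻¹ = Real.pi := by
    rw [integral_sub_right_eq_self (fun τ : ℝ => (1 + τ ^ 2)⁻¹) x, integral_univ_inv_one_add_sq]
  have hbd : ∀ τ : ℝ, ‖f τ‖ * (1 + (τ - x) ^ 2)⁻¹ ≤
      (1 / 2) * ‖f τ‖ ^ 2 + (1 / 2) * (1 + (τ - x) ^ 2)⁻¹ := by
    intro τ
    set a := ‖f τ‖
    set b := (1 + (τ - x) ^ 2)⁻¹ with hb
    have hb0 : 0 ≤ b := by positivity
    have hb1 : b ≤ 1 := by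
      rw [hb]
      apply inv_le_one_of_one_le₀
      nlinarith [sq_nonneg (τ - x)]
    nlinarith [sq_nonneg (a - b)]
  have hint : Integrable (fun τ : ℝ => (1 / 2) * ‖f τ‖ ^ 2 + (1 / 2) * (1 + (τ - x) ^ 2)⁻¹) :=
    (hfi.const_mul _).add (hk.const_mul _)
  have hmeas : AEStronglyMeasurable (fun τ => ‖f τ‖ * (1 + (τ - x) ^ 2)⁻¹) volume := by
    apply hf.1.norm.mul
    exact hk.1
  constructor
  · refine hint.mono' hmeas (Eventually.of_forall fun τ => ?_)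
    rw [Real.norm_of_nonneg (by positivity)]
    exact hbd τ
  · have h1 := integral_mono_of_nonneg
      (Eventually.of_forall fun τ => (by positivity : 0 ≤ ‖f τ‖ * (1 + (τ - x) ^ 2)⁻¹)) hint
      (Eventually.of_forall hbd)
    refine h1.trans (le_of_eq ?_)
    rw [integral_add (hfi.const_mul _) (hk.const_mul _), integral_const_mul, integral_const_mul, hkI]
    ring

lemma meas_far (x y : ℝ) : MeasurableSet {τ : ℝ | y < |x - τ|} := by
  apply measurableSet_lt measurable_const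
  fun_prop

lemma far_bound {x y ρ : ℝ} (hy : 0 < y) (hρ : 0 < ρ) {τ : ℝ} (hτ : ρ < |x - τ|) :
    y / (x - τ) ^ 2 ≤ y * (1 + 1 / ρ ^ 2) * (1 + (τ - x) ^ 2)⁻¹ := by
  have h1 : ρ ^ 2 < (x - τ) ^ 2 := by
    rw [← sq_abs (x - τ)]
    exact pow_lt_pow_left₀ hτ hρ.le (by norm_num)
  have h2 : 0 < ρ ^ 2 := by positivity
  have h3 : (τ - x) ^ 2 = (x - τ) ^ 2 := by ring
  rw [h3]
  set s := (x - τ) ^ 2
  set q := ρ ^ 2
  have hs : 0 < s := h2.trans h1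
  rw [← div_eq_mul_inv, div_le_div_iff₀ hs (by positivity)]
  have h4 : y * (1 + 1 / q) * s - y * (1 + s) = y * (s / q - 1) := by ring
  have h5 : 1 ≤ s / q := (one_le_div h2).mpr h1.le
  nlinarith

lemma far_int {f : ℝ → ℂ} (hf : MemLp f 2 volume) {x y ρ : ℝ} (hy : 0 < y) (hρ : 0 < ρ) :
    IntegrableOn (fun τ => ‖f τ‖ * (y / (x - τ) ^ 2)) {τ : ℝ | ρ < |x - τ|} ∧
    ∫ τ in {τ : ℝ | ρ < |x - τ|}, ‖f τ‖ * (y / (x - τ) ^ 2) ≤
      y * (1 + 1 / ρ ^ 2) * (((∫ τ, ‖f τ‖ ^ 2) + Real.pi) / 2) := by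
  obtain ⟨hi, hle⟩ := poisson_int hf x
  have hbd : ∀ τ ∈ {τ : ℝ | ρ < |x - τ|}, ‖f τ‖ * (y / (x - τ) ^ 2) ≤
      y * (1 + 1 / ρ ^ 2) * (‖f τ‖ * (1 + (τ - x) ^ 2)⁻¹) := by
    intro τ hτ
    have := mul_le_mul_of_nonneg_left (far_bound (x := x) hy hρ hτ) (norm_nonneg (f τ))
    linarith
  have hi2 := hi.const_mul (y * (1 + 1 / ρ ^ 2))
  have hmeas : AEStronglyMeasurable (fun τ => ‖f τ‖ * (y / (x - τ) ^ 2)) volume := by
    apply hf.1.norm.mul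
    have : Measurable (fun τ : ℝ => y / (x - τ) ^ 2) := by fun_prop
    exact this.aestronglyMeasurable
  have hI : IntegrableOn (fun τ => ‖f τ‖ * (y / (x - τ) ^ 2)) {τ : ℝ | ρ < |x - τ|} := by
    refine (hi2.integrableOn).mono' hmeas.restrict ?_
    rw [ae_restrict_iff' (meas_far x ρ)]
    refine Eventually.of_forall fun τ hτ => ?_
    rw [Real.norm_of_nonneg (by positivity)]
    exact hbd τ hτ
  refine ⟨hI, ?_⟩
  calc _ ≤ ∫ τ in {τ : ℝ | ρ < |x - τ|}, y * (1 + 1 / ρ ^ 2) * (‖f τ‖ * (1 + (τ - x) ^ 2)⁻¹) :=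
        setIntegral_mono_on hI hi2.integrableOn (meas_far x ρ) hbd
    _ ≤ ∫ τ, y * (1 + 1 / ρ ^ 2) * (‖f τ‖ * (1 + (τ - x) ^ 2)⁻¹) :=
        setIntegral_le_integral hi2 (Eventually.of_forall fun τ => by positivity)
    _ ≤ _ := by
        rw [integral_const_mul]
        exact mul_le_mul_of_nonneg_left hle (by positivity)

lemma tail_dyadic {f : ℝ → ℂ} (hf : MemLp f 2 volume) {x y ε : ℝ} (hy : 0 < y) (hε : 0 ≤ ε)
    (n : ℕ) (h : ∀ r : ℝ, 0 < r → r ≤ 2 ^ n * y → Im (fun τ => ‖f τ‖) x r ≤ ε * r) :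
    ∫ τ in {τ : ℝ | y < |x - τ| ∧ |x - τ| ≤ 2 ^ n * y}, ‖f τ‖ * (y / (x - τ) ^ 2)
      ≤ 4 * ε * (1 - (1 / 2) ^ n) := by
  have hloc : LocallyIntegrable (fun τ => ‖f τ‖) := hf.norm.locallyIntegrable (by norm_num)
  induction n with
  | zero =>
    have : {τ : ℝ | y < |x - τ| ∧ |x - τ| ≤ 2 ^ 0 * y} = ∅ := by
      ext τ; simp
    rw [this]; simp
  | succ n ih =>
    have h2n : (0:ℝ) < 2 ^ n := by positivity
    have h2n1 : (1:ℝ) ≤ 2 ^ n := one_le_pow₀ (by norm_num)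
    have hset : {τ : ℝ | y < |x - τ| ∧ |x - τ| ≤ 2 ^ (n + 1) * y} =
        {τ : ℝ | y < |x - τ| ∧ |x - τ| ≤ 2 ^ n * y} ∪
        {τ : ℝ | 2 ^ n * y < |x - τ| ∧ |x - τ| ≤ 2 ^ (n + 1) * y} := by
      ext τ
      simp only [mem_setOf_eq, mem_union]
      constructor
      · rintro ⟨h1, h2⟩
        by_cases h3 : |x - τ| ≤ 2 ^ n * y
        · exact Or.inl ⟨h1, h3⟩
        · exact Or.inr ⟨not_le.mp h3, h2⟩
      · rintro (⟨h1, h2⟩ | ⟨h1, h2⟩)
        · refine ⟨h1, h2.trans ?_⟩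
          rw [pow_succ]; nlinarith
        · exact ⟨by nlinarith, h2⟩
    have hm2 : MeasurableSet {τ : ℝ | 2 ^ n * y < |x - τ| ∧ |x - τ| ≤ 2 ^ (n + 1) * y} := by
      exact (meas_far x _).inter (measurableSet_le (f := fun τ => |x - τ|) (by fun_prop)
        measurable_const)
    have hdisj : Disjoint {τ : ℝ | y < |x - τ| ∧ |x - τ| ≤ 2 ^ n * y}
        {τ : ℝ | 2 ^ n * y < |x - τ| ∧ |x - τ| ≤ 2 ^ (n + 1) * y} := by
      rw [Set.disjoint_left]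
      rintro τ ⟨_, h1⟩ ⟨h2, _⟩
      exact absurd h1 (not_le.mpr h2)
    have hint := (far_int hf (x := x) hy hy).1
    have hs2 : {τ : ℝ | 2 ^ n * y < |x - τ| ∧ |x - τ| ≤ 2 ^ (n + 1) * y} ⊆
        {τ : ℝ | y < |x - τ|} := by
      rintro τ ⟨h1, _⟩
      simp only [mem_setOf_eq]; nlinarith
    rw [hset, setIntegral_union hdisj hm2 (hint.mono_set fun τ hτ => hτ.1) (hint.mono_set hs2)]
    have ih' := ih (fun r hr hr' => h r hr (hr'.trans (by rw [pow_succ]; nlinarith)))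
    have hr : 0 < (2:ℝ) ^ (n + 1) * y := by positivity
    have hsub : {τ : ℝ | 2 ^ n * y < |x - τ| ∧ |x - τ| ≤ 2 ^ (n + 1) * y} ⊆
        Icc (x - 2 ^ (n + 1) * y) (x + 2 ^ (n + 1) * y) := by
      rintro τ ⟨_, h1⟩
      rw [abs_le] at h1
      constructor <;> linarith [h1.1, h1.2]
    have hIcc : IntegrableOn (fun τ => ‖f τ‖ * (y / (2 ^ n * y) ^ 2))
        (Icc (x - 2 ^ (n + 1) * y) (x + 2 ^ (n + 1) * y)) :=
      (hloc.integrableOn_isCompact isCompact_Icc).mul_const _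
    have hnew : ∫ τ in {τ : ℝ | 2 ^ n * y < |x - τ| ∧ |x - τ| ≤ 2 ^ (n + 1) * y},
        ‖f τ‖ * (y / (x - τ) ^ 2) ≤ 2 * ε * (1 / 2) ^ n := by
      calc _ ≤ ∫ τ in {τ : ℝ | 2 ^ n * y < |x - τ| ∧ |x - τ| ≤ 2 ^ (n + 1) * y},
            ‖f τ‖ * (y / (2 ^ n * y) ^ 2) := by
            apply setIntegral_mono_on (hint.mono_set hs2) (hIcc.mono_set hsub) hm2
            rintro τ ⟨h1, _⟩
            apply mul_le_mul_of_nonneg_left _ (norm_nonneg _)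
            apply div_le_div_of_nonneg_left hy.le (by positivity)
            rw [← sq_abs (x - τ)]
            exact pow_le_pow_left₀ (by positivity) h1.le 2
        _ ≤ ∫ τ in Icc (x - 2 ^ (n + 1) * y) (x + 2 ^ (n + 1) * y),
            ‖f τ‖ * (y / (2 ^ n * y) ^ 2) := by
            apply setIntegral_mono_set hIcc
            · exact Eventually.of_forall fun τ => by
                simp only [Pi.zero_apply]; positivity
            · exact hsub.eventuallyLE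
        _ = Im (fun τ => ‖f τ‖) x (2 ^ (n + 1) * y) * (y / (2 ^ n * y) ^ 2) := by
            rw [integral_mul_const]; rfl
        _ ≤ (ε * (2 ^ (n + 1) * y)) * (y / (2 ^ n * y) ^ 2) := by
            apply mul_le_mul_of_nonneg_right (h _ hr le_rfl) (by positivity)
        _ = _ := by
            rw [one_div, inv_pow, pow_succ]
            field_simp
    have e : ((1:ℝ) / 2) ^ (n + 1) = (1 / 2) * (1 / 2) ^ n := by rw [pow_succ]; ring
    rw [e]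
    linarith

lemma tail_bound {f : ℝ → ℂ} (hf : MemLp f 2 volume) {x y ε r₀ : ℝ} (hy : 0 < y) (hε : 0 ≤ ε)
    (hyr : y ≤ r₀) (h : ∀ r : ℝ, 0 < r → r ≤ r₀ → Im (fun τ => ‖f τ‖) x r ≤ ε * r) :
    ∫ τ in {τ : ℝ | y < |x - τ|}, ‖f τ‖ * (y / (x - τ) ^ 2)
      ≤ 4 * ε + y * (1 + 1 / (r₀ / 2) ^ 2) * (((∫ τ, ‖f τ‖ ^ 2) + Real.pi) / 2) := by
  have hr₀ : 0 < r₀ := hy.trans_le hyr
  obtain ⟨n, hn1, hn2⟩ := exists_nat_pow_near (show 1 ≤ r₀ / y by rw [le_div_iff₀ hy]; linarith)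
    (show (1:ℝ) < 2 by norm_num)
  rw [le_div_iff₀ hy] at hn1
  rw [div_lt_iff₀ hy, pow_succ] at hn2
  have h2n : (0:ℝ) < 2 ^ n := by positivity
  have h2n1 : (1:ℝ) ≤ 2 ^ n := one_le_pow₀ (by norm_num)
  have hset : {τ : ℝ | y < |x - τ|} =
      {τ : ℝ | y < |x - τ| ∧ |x - τ| ≤ 2 ^ n * y} ∪ {τ : ℝ | 2 ^ n * y < |x - τ|} := by
    ext τ
    simp only [mem_setOf_eq, mem_union]
    constructor
    · intro h1
      by_cases h3 : |x - τ| ≤ 2 ^ n * y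
      · exact Or.inl ⟨h1, h3⟩
      · exact Or.inr (not_le.mp h3)
    · rintro (⟨h1, h2⟩ | h1)
      · exact h1
      · nlinarith
  have hdisj : Disjoint {τ : ℝ | y < |x - τ| ∧ |x - τ| ≤ 2 ^ n * y} {τ : ℝ | 2 ^ n * y < |x - τ|} := by
    rw [Set.disjoint_left]
    rintro τ ⟨_, h1⟩ h2
    exact absurd h1 (not_le.mpr h2)
  have hint := (far_int hf (x := x) hy hy).1
  have hs2 : {τ : ℝ | 2 ^ n * y < |x - τ|} ⊆ {τ : ℝ | y < |x - τ|} := by
    intro τ h1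
    simp only [mem_setOf_eq] at h1 ⊢; nlinarith
  rw [hset, setIntegral_union hdisj (meas_far x _) (hint.mono_set fun τ hτ => hτ.1)
    (hint.mono_set hs2)]
  have h1 := tail_dyadic hf hy hε n (fun r hr hr' => h r hr (hr'.trans hn1))
  have h2 : ∫ τ in {τ : ℝ | 2 ^ n * y < |x - τ|}, ‖f τ‖ * (y / (x - τ) ^ 2) ≤
      ∫ τ in {τ : ℝ | r₀ / 2 < |x - τ|}, ‖f τ‖ * (y / (x - τ) ^ 2) := by
    apply setIntegral_mono_set (far_int hf (x := x) hy (by positivity)).1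
    · exact Eventually.of_forall fun τ => by
        simp only [Pi.zero_apply]; positivity
    · refine LE.le.eventuallyLE ?_
      intro τ h1
      simp only [mem_setOf_eq] at h1 ⊢
      show r₀ / 2 < |x - τ|
      have h1' : 2 ^ n * y < |x - τ| := h1
      linarith
  have h3 := (far_int hf (x := x) (y := y) (ρ := r₀ / 2) hy (by positivity)).2
  have h4 : 4 * ε * (1 - (1 / 2) ^ n) ≤ 4 * ε := by
    have : (0:ℝ) ≤ (1/2)^n := by positivity
    nlinarith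
  linarith

end Pool.Agent.Helper66.Unq
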