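import Pool.Agent.Helper66.UnqF

set_option autoImplicit false
open MeasureTheory Set Filter Topology Complex

namespace Pool.Agent.Helper66.Unq

/-- truncated integral, as in the frozen statement -/
noncomputable def pv (f : ℝ → ℂ) (x δ : ℝ) : ℂ :=
  ∫ τ in {τ : ℝ | δ < |x - τ|}, f τ / ((x - τ : ℝ) : ℂ)

lemma pv_int {f : ℝ → ℂ} (hf : MemLp f 2 volume) {x y : ℝ} (hy : 0 < y) :
    IntegrableOn (fun τ => f τ / ((x - τ : ℝ) : ℂ)) {τ : ℝ | y < |x - τ|} := by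
  have hz : (⟨x, y⟩ : ℂ).im ≠ 0 := hy.ne'
  have h1 := ((cau_integrable hf hz).norm.const_mul 2).integrableOn (s := {τ : ℝ | y < |x - τ|})
  refine h1.mono' ?_ ?_
  · apply AEStronglyMeasurable.restrict
    apply hf.1.div₀
    have : Measurable (fun τ : ℝ => ((x - τ : ℝ) : ℂ)) := by fun_prop
    exact this.aestronglyMeasurable
  · rw [ae_restrict_iff' (meas_far x y)]
    refine Eventually.of_forall fun τ hτ => ?_
    have hτ' : y < |x - τ| := hτ
    rw [norm_div, norm_div, Complex.norm_real, Real.norm_eq_abs]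
    have h2 := nsq τ ⟨x, y⟩
    simp only at h2
    have h3 : ‖(τ : ℂ) - ⟨x, y⟩‖ ≤ 2 * |x - τ| := by
      apply le_of_sq_le_sq _ (by positivity)
      rw [h2, mul_pow, sq_abs]
      have h4 : y ^ 2 ≤ (x - τ) ^ 2 := by
        rw [← sq_abs (x - τ)]; exact pow_le_pow_left₀ hy.le hτ'.le 2
      nlinarith
    have h5 : 0 < ‖(τ : ℂ) - ⟨x, y⟩‖ := norm_pos_iff.mpr (ne_of_im hz τ)
    have h6 : 0 < |x - τ| := hy.trans hτ'
    calc ‖f τ‖ / |x - τ| ≤ ‖f τ‖ / (‖(τ : ℂ) - ⟨x, y⟩‖ / 2) := by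
          apply div_le_div_of_nonneg_left (norm_nonneg _) (by positivity) (by linarith)
      _ = 2 * (‖f τ‖ / ‖(τ : ℂ) - ⟨x, y⟩‖) := by field_simp

lemma ker_diff {z : ℂ} {x y τ : ℝ} (hy : 0 < y) (hzy : |z.im| = y) (hzx : |z.re - x| ≤ 7 * y)
    (hτ : y < |x - τ|) :
    ‖(1 : ℂ) / ((τ : ℂ) - z) + 1 / ((x - τ : ℝ) : ℂ)‖ ≤ 72 * (y / (x - τ) ^ 2) := by
  have hz : z.im ≠ 0 := by intro h; rw [h] at hzy; simp at hzy; linarith
  have h1 := ne_of_im hz τ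
  have h2 : ((x - τ : ℝ) : ℂ) ≠ 0 := by
    intro h
    have : x - τ = 0 := by exact_mod_cast h
    rw [this] at hτ; simp at hτ; linarith
  have h3 : (1 : ℂ) / ((τ : ℂ) - z) + 1 / ((x - τ : ℝ) : ℂ) =
      ((x : ℂ) - z) / (((τ : ℂ) - z) * ((x - τ : ℝ) : ℂ)) := by
    field_simp
    push_cast
    ring
  rw [h3, norm_div, norm_mul, Complex.norm_real, Real.norm_eq_abs]
  have h4 : ‖(x : ℂ) - z‖ ≤ 8 * y := by
    have := Complex.norm_le_abs_re_add_abs_im ((x : ℂ) - z)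
    simp only [Complex.sub_re, Complex.ofReal_re, Complex.sub_im, Complex.ofReal_im, zero_sub,
      abs_neg] at this
    rw [abs_sub_comm x z.re] at this
    linarith
  have h5 : y ≤ ‖(τ : ℂ) - z‖ := by rw [← hzy]; exact im_le_norm τ z
  have h6 : |x - τ| ≤ 9 * ‖(τ : ℂ) - z‖ := by
    have e1 : ((x - τ : ℝ) : ℂ) = ((x : ℂ) - z) - ((τ : ℂ) - z) := by push_cast; ring
    have e2 : |x - τ| = ‖((x - τ : ℝ) : ℂ)‖ := by rw [Complex.norm_real, Real.norm_eq_abs]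
    rw [e2, e1]
    have := norm_sub_le ((x : ℂ) - z) ((τ : ℂ) - z)
    linarith
  have h7 : 0 < |x - τ| := hy.trans hτ
  have h8 : 0 < ‖(τ : ℂ) - z‖ := hy.trans_le h5
  rw [← sq_abs (x - τ)]
  calc ‖(x : ℂ) - z‖ / (‖(τ : ℂ) - z‖ * |x - τ|) ≤ (8 * y) / ((|x - τ| / 9) * |x - τ|) := by
        apply div_le_div₀ (by positivity) h4 (by positivity)
        apply mul_le_mul_of_nonneg_right _ h7.le
        linarith
    _ = 72 * (y / |x - τ| ^ 2) := by field_simp; ring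

lemma cau_pv {f : ℝ → ℂ} (hf : MemLp f 2 volume) {z : ℂ} {x y : ℝ} (hy : 0 < y)
    (hzy : |z.im| = y) (hzx : |z.re - x| ≤ 7 * y) :
    ‖cau f z + pv f x y‖ ≤ (1 / y) * Im (fun τ => ‖f τ‖) x y +
      72 * ∫ τ in {τ : ℝ | y < |x - τ|}, ‖f τ‖ * (y / (x - τ) ^ 2) := by
  have hz : z.im ≠ 0 := by intro h; rw [h] at hzy; simp at hzy; linarith
  set S := {τ : ℝ | y < |x - τ|} with hS
  have hSm : MeasurableSet S := meas_far x y
  have hci := cau_integrable hf hz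
  have hpi := pv_int hf (x := x) hy
  have hloc : LocallyIntegrable (fun τ => ‖f τ‖) := hf.norm.locallyIntegrable (by norm_num)
  have hSc : Sᶜ = Icc (x - y) (x + y) := by
    ext τ
    simp only [hS, mem_compl_iff, mem_setOf_eq, not_lt, mem_Icc, abs_le]
    constructor <;> rintro ⟨h1, h2⟩ <;> constructor <;> linarith
  have h1 : cau f z + pv f x y = (∫ τ in Sᶜ, f τ / ((τ : ℂ) - z)) +
      ∫ τ in S, (f τ / ((τ : ℂ) - z) + f τ / ((x - τ : ℝ) : ℂ)) := by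
    unfold cau pv
    rw [integral_add hci.integrableOn hpi, ← integral_add_compl hSm hci]
    ring
  have h2 : ‖∫ τ in Sᶜ, f τ / ((τ : ℂ) - z)‖ ≤ (1 / y) * Im (fun τ => ‖f τ‖) x y := by
    rw [hSc]
    unfold Im
    rw [← integral_const_mul]
    apply norm_integral_le_of_norm_le
    · exact (hloc.integrableOn_isCompact isCompact_Icc).const_mul _
    · refine Eventually.of_forall fun τ => ?_
      rw [norm_div]
      have h3 := im_le_norm τ z
      rw [hzy] at h3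
      calc ‖f τ‖ / ‖(τ : ℂ) - z‖ ≤ ‖f τ‖ / y :=
            div_le_div_of_nonneg_left (norm_nonneg _) hy h3
        _ = 1 / y * ‖f τ‖ := by ring
  have h3 : ‖∫ τ in S, (f τ / ((τ : ℂ) - z) + f τ / ((x - τ : ℝ) : ℂ))‖ ≤
      72 * ∫ τ in S, ‖f τ‖ * (y / (x - τ) ^ 2) := by
    rw [← integral_const_mul]
    apply norm_integral_le_of_norm_le
    · exact (far_int hf hy hy).1.const_mul _
    · rw [ae_restrict_iff' hSm]
      refine Eventually.of_forall fun τ hτ => ?_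
      have e1 : f τ / ((τ : ℂ) - z) + f τ / ((x - τ : ℝ) : ℂ) =
        f τ * ((1 : ℂ) / ((τ : ℂ) - z) + 1 / ((x - τ : ℝ) : ℂ)) := by ring
      rw [e1, norm_mul]
      have e2 := mul_le_mul_of_nonneg_left (ker_diff (z := z) hy hzy hzx hτ) (norm_nonneg (f τ))
      linarith
  rw [h1]
  exact (norm_add_le _ _).trans (add_le_add h2 h3)

/-- truncations at comparable scales are close -/
lemma pv_close {f : ℝ → ℂ} (hf : MemLp f 2 volume) {x y s : ℝ} (hy : 0 < y) (hys : y ≤ s) :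
    ‖pv f x y - pv f x s‖ ≤ (1 / y) * Im (fun τ => ‖f τ‖) x s := by
  have hloc : LocallyIntegrable (fun τ => ‖f τ‖) := hf.norm.locallyIntegrable (by norm_num)
  have hpi := pv_int hf (x := x) hy
  have hsub : {τ : ℝ | s < |x - τ|} ⊆ {τ : ℝ | y < |x - τ|} := fun τ h => lt_of_le_of_lt hys h
  have h1 : pv f x y - pv f x s =
      ∫ τ in {τ : ℝ | y < |x - τ|} \ {τ : ℝ | s < |x - τ|}, f τ / ((x - τ : ℝ) : ℂ) := by
    unfold pv
    rw [setIntegral_sdiff (meas_far x s) hpi hsub]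
  have hs2 : {τ : ℝ | y < |x - τ|} \ {τ : ℝ | s < |x - τ|} ⊆ Icc (x - s) (x + s) := by
    rintro τ ⟨_, h2⟩
    simp only [mem_setOf_eq, not_lt, abs_le] at h2
    constructor <;> linarith [h2.1, h2.2]
  rw [h1]
  unfold Im
  rw [← integral_const_mul]
  have hI : IntegrableOn (fun τ => 1 / y * ‖f τ‖) (Icc (x - s) (x + s)) :=
    (hloc.integrableOn_isCompact isCompact_Icc).const_mul _
  refine (norm_integral_le_of_norm_le (hI.mono_set hs2) ?_).trans
    (setIntegral_mono_set hI (Eventually.of_forall fun τ => by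
      simp only [Pi.zero_apply]; positivity) hs2.eventuallyLE)
  rw [ae_restrict_iff' ((meas_far x y).diff (meas_far x s))]
  refine Eventually.of_forall fun τ hτ => ?_
  have hτ' : y < |x - τ| := hτ.1
  rw [norm_div, Complex.norm_real, Real.norm_eq_abs]
  calc ‖f τ‖ / |x - τ| ≤ ‖f τ‖ / y := div_le_div_of_nonneg_left (norm_nonneg _) hy hτ'.le
    _ = 1 / y * ‖f τ‖ := by ring

/-- uniform local Plemelj formula where `f` has vanishing local mass -/
lemma cau_UC {f : ℝ → ℂ} (hf : MemLp f 2 volume) {E : Set ℝ} {g : ℝ → ℂ}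
    (h1 : ∀ ε : ℝ, 0 < ε → ∃ r₀ : ℝ, 0 < r₀ ∧ r₀ ≤ 1 ∧ ∀ x ∈ E, ∀ r : ℝ, 0 < r → r ≤ r₀ →
      Im (fun τ => ‖f τ‖) x r ≤ ε * r)
    (h2 : ∀ ε : ℝ, 0 < ε → ∃ N : ℕ, ∀ n ≥ N, ∀ x ∈ E, ‖pv f x ((1 / 2) ^ n) + g x‖ ≤ ε) :
    ∀ ε : ℝ, 0 < ε → ∃ δ : ℝ, 0 < δ ∧ ∀ x ∈ E, ∀ z : ℂ, 0 < |z.im| → |z.im| ≤ δ →
      |z.re - x| ≤ 7 * |z.im| → ‖cau f z - g x‖ ≤ ε := by
  intro ε hε
  set N2 := ((∫ τ, ‖f τ‖ ^ 2) + Real.pi) / 2 with hN2
  have hN20 : 0 ≤ N2 := by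
    have : 0 ≤ ∫ τ, ‖f τ‖ ^ 2 := integral_nonneg fun τ => by positivity
    have := Real.pi_pos
    positivity
  obtain ⟨r₀, hr₀, hr₀1, h1'⟩ := h1 (ε / 2000) (by positivity)
  obtain ⟨N, hN⟩ := h2 (ε / 4) (by positivity)
  set Q := 72 * ((1 + 1 / (r₀ / 2) ^ 2) * N2) with hQ
  have hQ0 : 0 ≤ Q := by positivity
  refine ⟨min (min (r₀ / 2) ((1 / 2) ^ N)) (ε / (4 * (Q + 1))), by positivity, ?_⟩
  intro x hx z hz hzδ hzx
  set y := |z.im| with hy
  have hy1' : y ≤ r₀ / 2 := hzδ.trans ((min_le_left _ _).trans (min_le_left _ _))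
  have hy1 : y ≤ r₀ := by linarith
  have hy2 : y ≤ (1 / 2) ^ N := hzδ.trans ((min_le_left _ _).trans (min_le_right _ _))
  have hy3 : y ≤ ε / (4 * (Q + 1)) := hzδ.trans (min_le_right _ _)
  have a1 := cau_pv hf hz hy.symm hzx
  have a2 := tail_bound hf hz (by positivity) hy1 (h1' x hx)
  have a3 : (1 / y) * Im (fun τ => ‖f τ‖) x y ≤ ε / 2000 := by
    have := h1' x hx y hz hy1
    rw [one_div, inv_mul_le_iff₀ hz]; linarith
  -- compare pv at y with dyadic pv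
  obtain ⟨n, hn1, hn2⟩ := exists_nat_pow_near_of_lt_one hz
    (hy2.trans (pow_le_one₀ (by norm_num) (by norm_num))) (show (0:ℝ) < 1 / 2 by norm_num)
    (by norm_num)
  have hnN : N ≤ n := by
    by_contra hcon
    push Not at hcon
    have h1 : ((1:ℝ) / 2) ^ N ≤ (1 / 2) ^ (n + 1) :=
      pow_le_pow_of_le_one (by norm_num) (by norm_num) hcon
    linarith
  have h6 : ((1:ℝ) / 2) ^ n = 2 * (1 / 2) ^ (n + 1) := by rw [pow_succ]; ring
  have hs2y : ((1:ℝ) / 2) ^ n ≤ 2 * y := by rw [h6]; linarith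
  have a4 : ‖pv f x y - pv f x ((1 / 2) ^ n)‖ ≤ ε / 1000 := by
    refine (pv_close hf hz hn2).trans ?_
    have e1 := h1' x hx ((1 / 2) ^ n) (by positivity) (by linarith)
    rw [one_div, inv_mul_le_iff₀ hz]
    have : ε / 2000 * (1 / 2) ^ n ≤ ε / 2000 * (2 * y) :=
      mul_le_mul_of_nonneg_left hs2y (by positivity)
    linarith
  have a5 := hN n hnN x hx
  have a6 : y * Q ≤ ε / 4 := by
    have e1 : y * (4 * (Q + 1)) ≤ ε := by rwa [le_div_iff₀ (by positivity)] at hy3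
    nlinarith
  have e : cau f z - g x = (cau f z + pv f x y) - (pv f x y - pv f x ((1 / 2) ^ n)) -
      (pv f x ((1 / 2) ^ n) + g x) := by ring
  rw [e]
  refine (norm_sub_le _ _).trans ?_
  have b1 := norm_sub_le (cau f z + pv f x y) (pv f x y - pv f x ((1 / 2) ^ n))
  have b2 : 72 * ∫ τ in {τ : ℝ | y < |x - τ|}, ‖f τ‖ * (y / (x - τ) ^ 2) ≤
      72 * (4 * (ε / 2000)) + y * Q := by
    have := mul_le_mul_of_nonneg_left a2 (show (0:ℝ) ≤ 72 by norm_num)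
    rw [hQ]
    rw [← hN2] at this
    refine this.trans (le_of_eq ?_)
    ring
  linarith

end Pool.Agent.Helper66.Unq
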