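import Pool.Agent.Helper66.UnqG

set_option autoImplicit false
open MeasureTheory Set Filter Topology Complex

namespace Pool.Agent.Helper66.Unq

lemma poisson_jump {f : ℝ → ℂ} (hf : MemLp f 2 volume) {y : ℝ} (hy : 0 < y) (s : ℝ) :
    cau f (s + y * I) - cau f (s - y * I) =
      2 * I * ∫ v : ℝ, (((1 + v ^ 2)⁻¹ : ℝ) : ℂ) * f (s + y * v) := by
  have h1 : ((s : ℂ) + y * I).im ≠ 0 := by simp [hy.ne']
  have h2 : ((s : ℂ) - y * I).im ≠ 0 := by simp [hy.ne']
  have i1 := cau_integrable hf h1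
  have i2 := cau_integrable hf h2
  unfold cau
  rw [← integral_sub i1 i2]
  set k : ℝ → ℂ := fun τ => f τ / ((τ : ℂ) - (s + y * I)) - f τ / ((τ : ℂ) - (s - y * I)) with hk
  have e1 : ∫ τ, k τ = ∫ τ, k (s + τ) := (integral_add_left_eq_self k s).symm
  have e2 : ∫ v : ℝ, k (s + y * v) = |y⁻¹| • ∫ τ, k (s + τ) :=
    Measure.integral_comp_mul_left (fun τ => k (s + τ)) y
  have e3 : ∫ τ, k (s + τ) = (y : ℂ) * ∫ v : ℝ, k (s + y * v) := by
    rw [e2, abs_of_pos (inv_pos.mpr hy), Complex.real_smul]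
    push_cast
    rw [← mul_assoc, mul_inv_cancel₀ (by exact_mod_cast hy.ne'), one_mul]
  rw [e1, e3, ← integral_const_mul, ← integral_const_mul]
  congr 1
  ext v
  simp only [hk]
  have hv : (1 : ℂ) + (v : ℂ) ^ 2 ≠ 0 := by
    have : (0:ℝ) < 1 + v ^ 2 := by positivity
    exact_mod_cast this.ne'
  have hyc : (y : ℂ) ≠ 0 := by exact_mod_cast hy.ne'
  have d1 : ((s + y * v : ℝ) : ℂ) - (s + y * I) ≠ 0 := ne_of_im h1 _
  have d2 : ((s + y * v : ℝ) : ℂ) - (s - y * I) ≠ 0 := ne_of_im h2 _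
  rw [div_sub_div _ _ d1 d2]
  have d3 : (((s + y * v : ℝ) : ℂ) - (s + y * I)) * (((s + y * v : ℝ) : ℂ) - (s - y * I)) =
      (y : ℂ) ^ 2 * (1 + (v : ℂ) ^ 2) := by
    push_cast
    have : I ^ 2 = -1 := I_sq
    linear_combination (- (y : ℂ) ^ 2) * this
  rw [d3]
  push_cast
  field_simp
  ring

/-- the weighted window -/
noncomputable def Gw (f : ℝ → ℂ) (ε x t w : ℝ) : ℂ :=
  ∫ s in x..t, ((Real.exp (ε * s) : ℝ) : ℂ) * f (s + w)

lemma exp_f_loc {f : ℝ → ℂ} (hf : MemLp f 2 volume) (ε : ℝ) :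
    LocallyIntegrable (fun s => ((Real.exp (ε * s) : ℝ) : ℂ) * f s) := by
  have h1 : LocallyIntegrable f := hf.locallyIntegrable (by norm_num)
  have h2 : Continuous (fun s : ℝ => ((Real.exp (ε * s) : ℝ) : ℂ)) := by fun_prop
  intro x
  obtain ⟨a, ha⟩ := (isCompact_Icc (a := x - 1) (b := x + 1)).exists_bound_of_continuousOn
    h2.continuousOn
  refine ⟨Icc (x - 1) (x + 1), Icc_mem_nhds (by linarith) (by linarith), ?_⟩
  have h3 := h1.integrableOn_isCompact (isCompact_Icc (a := x - 1) (b := x + 1))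
  exact h3.continuousOn_mul h2.continuousOn isCompact_Icc

lemma exp_f_ii {f : ℝ → ℂ} (hf : MemLp f 2 volume) (ε a b : ℝ) :
    IntervalIntegrable (fun s => ((Real.exp (ε * s) : ℝ) : ℂ) * f s) volume a b :=
  ((exp_f_loc hf ε).integrableOn_isCompact isCompact_uIcc).intervalIntegrable

lemma Gw_eq {f : ℝ → ℂ} (hf : MemLp f 2 volume) (ε x t w : ℝ) :
    Gw f ε x t w = ((Real.exp (-(ε * w)) : ℝ) : ℂ) *
      ((∫ s in (0:ℝ)..(t + w), ((Real.exp (ε * s) : ℝ) : ℂ) * f s) -
        ∫ s in (0:ℝ)..(x + w), ((Real.exp (ε * s) : ℝ) : ℂ) * f s) := by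
  rw [intervalIntegral.integral_interval_sub_left (exp_f_ii hf ε _ _) (exp_f_ii hf ε _ _)]
  unfold Gw
  rw [← intervalIntegral.integral_comp_add_right, ← intervalIntegral.integral_const_mul]
  congr 1
  ext s
  rw [← mul_assoc, ← Complex.ofReal_mul, ← Real.exp_add]
  congr 3
  ring_nf

lemma Gw_cont {f : ℝ → ℂ} (hf : MemLp f 2 volume) (ε x t : ℝ) : Continuous (Gw f ε x t) := by
  have h := intervalIntegral.continuous_primitive (fun a b => exp_f_ii hf ε a b) 0
  have : Gw f ε x t = fun w => ((Real.exp (-(ε * w)) : ℝ) : ℂ) *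
      ((∫ s in (0:ℝ)..(t + w), ((Real.exp (ε * s) : ℝ) : ℂ) * f s) -
        ∫ s in (0:ℝ)..(x + w), ((Real.exp (ε * s) : ℝ) : ℂ) * f s) := by
    ext w; exact Gw_eq hf ε x t w
  rw [this]
  apply Continuous.mul (by fun_prop)
  exact (h.comp (by fun_prop)).sub (h.comp (by fun_prop))

/-- L1 norm on a window of a translate -/
lemma window_bound {f : ℝ → ℂ} (hf : MemLp f 2 volume) {x t : ℝ} (hxt : x ≤ t) (w : ℝ) :
    IntegrableOn (fun s => ‖f (s + w)‖) (Ioc x t) ∧
    ∫ s in Ioc x t, ‖f (s + w)‖ ≤ ((t - x) + ∫ τ, ‖f τ‖ ^ 2) := by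
  have hfi : Integrable (fun τ => ‖f τ‖ ^ 2) := (memLp_two_iff_integrable_sq_norm hf.1).1 hf
  have hfw : Integrable (fun τ => ‖f (τ + w)‖ ^ 2) := hfi.comp_add_right w
  have hm : AEStronglyMeasurable (fun s => ‖f (s + w)‖) (volume.restrict (Ioc x t)) := by
    apply AEStronglyMeasurable.restrict
    exact (hf.1.norm).comp_quasiMeasurePreserving
      (measurePreserving_add_right volume w).quasiMeasurePreserving
  have hb : ∀ s, ‖f (s + w)‖ ≤ 1 + ‖f (s + w)‖ ^ 2 := by
    intro s; nlinarith [sq_nonneg (‖f (s + w)‖ - 1 / 2), norm_nonneg (f (s + w))]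
  have hI : IntegrableOn (fun s => 1 + ‖f (s + w)‖ ^ 2) (Ioc x t) :=
    (integrableOn_const (by simp)).add hfw.integrableOn
  have h1 : IntegrableOn (fun s => ‖f (s + w)‖) (Ioc x t) := by
    refine hI.mono' hm (Eventually.of_forall fun s => ?_)
    rw [norm_norm]; exact hb s
  refine ⟨h1, ?_⟩
  calc _ ≤ ∫ s in Ioc x t, (1 + ‖f (s + w)‖ ^ 2) := integral_mono h1 hI hb
    _ = (t - x) + ∫ s in Ioc x t, ‖f (s + w)‖ ^ 2 := by
        rw [integral_add (integrable_const (1:ℝ)) hfw.integrableOn, setIntegral_const]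
        simp [Measure.real, Real.volume_Ioc, hxt]
    _ ≤ (t - x) + ∫ s, ‖f (s + w)‖ ^ 2 := by
        exact add_le_add le_rfl
          (setIntegral_le_integral hfw (Eventually.of_forall fun s => by positivity))
    _ = _ := by
        rw [integral_add_right_eq_self (fun s => ‖f s‖ ^ 2) w]

lemma exp_le_win {ε x t s : ℝ} (hε : 0 < ε) (hs : s ∈ Ioc x t) : Real.exp (ε * s) ≤ Real.exp (ε * t) := by
  apply Real.exp_le_exp.mpr
  exact mul_le_mul_of_nonneg_left hs.2 hε.le

lemma Gw_bound {f : ℝ → ℂ} (hf : MemLp f 2 volume) {ε : ℝ} (hε : 0 < ε) {x t : ℝ} (hxt : x ≤ t)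
    (w : ℝ) : ‖Gw f ε x t w‖ ≤ Real.exp (ε * t) * ((t - x) + ∫ τ, ‖f τ‖ ^ 2) := by
  obtain ⟨h1, h2⟩ := window_bound hf hxt w
  unfold Gw
  rw [intervalIntegral.integral_of_le hxt]
  refine (norm_integral_le_of_norm_le (h1.const_mul (Real.exp (ε * t))) ?_).trans ?_
  · rw [ae_restrict_iff' measurableSet_Ioc]
    refine Eventually.of_forall fun s hs => ?_
    rw [norm_mul, Complex.norm_real, Real.norm_of_nonneg (Real.exp_pos _).le]
    exact mul_le_mul_of_nonneg_right (exp_le_win hε hs) (norm_nonneg _)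
  · rw [integral_const_mul]
    exact mul_le_mul_of_nonneg_left h2 (Real.exp_pos _).le

lemma fub {f : ℝ → ℂ} (hfm : Measurable f) (hf : MemLp f 2 volume) {ε : ℝ} (hε : 0 < ε) {x t : ℝ}
    (hxt : x ≤ t) (y : ℝ) :
    ∫ s in x..t, ((Real.exp (ε * s) : ℝ) : ℂ) *
      (∫ v : ℝ, (((1 + v ^ 2)⁻¹ : ℝ) : ℂ) * f (s + y * v)) =
    ∫ v : ℝ, (((1 + v ^ 2)⁻¹ : ℝ) : ℂ) * Gw f ε x t (y * v) := by
  set F : ℝ → ℝ → ℂ := fun s v => ((Real.exp (ε * s) : ℝ) : ℂ) *
    ((((1 + v ^ 2)⁻¹ : ℝ) : ℂ) * f (s + y * v)) with hF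
  have hFm : Measurable (Function.uncurry F) := by
    simp only [hF]
    unfold Function.uncurry
    fun_prop
  have hint : Integrable (Function.uncurry F) ((volume.restrict (Ioc x t)).prod volume) := by
    rw [integrable_prod_iff' hFm.aestronglyMeasurable]
    have hb : ∀ s ∈ Ioc x t, ∀ v, ‖F s v‖ ≤
        Real.exp (ε * t) * (1 + v ^ 2)⁻¹ * ‖f (s + y * v)‖ := by
      intro s hs v
      simp only [hF, norm_mul, Complex.norm_real]
      rw [Real.norm_of_nonneg (Real.exp_pos _).le,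
        Real.norm_of_nonneg (by positivity : (0:ℝ) ≤ (1 + v ^ 2)⁻¹), ← mul_assoc]
      apply mul_le_mul_of_nonneg_right _ (norm_nonneg _)
      exact mul_le_mul_of_nonneg_right (exp_le_win hε hs) (by positivity)
    have hw : ∀ v, IntegrableOn (fun s => F s v) (Ioc x t) := by
      intro v
      have h1 := (window_bound hf hxt (y * v)).1.const_mul (Real.exp (ε * t) * (1 + v ^ 2)⁻¹)
      refine h1.mono' ?_ ?_
      · have : Measurable (fun s => F s v) := by simp only [hF]; fun_prop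
        exact this.aestronglyMeasurable
      · rw [ae_restrict_iff' measurableSet_Ioc]
        exact Eventually.of_forall fun s hs => hb s hs v
    constructor
    · exact Eventually.of_forall fun v => hw v
    · have hk := integrable_inv_one_add_sq.const_mul
        (Real.exp (ε * t) * ((t - x) + ∫ τ, ‖f τ‖ ^ 2))
      refine hk.mono' ?_ ?_
      · exact (hFm.norm.stronglyMeasurable.integral_prod_left'
          (μ := volume.restrict (Ioc x t))).aestronglyMeasurable
      · refine Eventually.of_forall fun v => ?_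
        rw [Real.norm_of_nonneg (integral_nonneg fun s => norm_nonneg _)]
        obtain ⟨h1, h2⟩ := window_bound hf hxt (y * v)
        calc _ ≤ ∫ s in Ioc x t, Real.exp (ε * t) * (1 + v ^ 2)⁻¹ * ‖f (s + y * v)‖ := by
              apply setIntegral_mono_on (hw v).norm (h1.const_mul _) measurableSet_Ioc
              intro s hs; exact hb s hs v
          _ = Real.exp (ε * t) * (1 + v ^ 2)⁻¹ * ∫ s in Ioc x t, ‖f (s + y * v)‖ := by
              rw [integral_const_mul]
          _ ≤ Real.exp (ε * t) * (1 + v ^ 2)⁻¹ * ((t - x) + ∫ τ, ‖f τ‖ ^ 2) :=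
              mul_le_mul_of_nonneg_left h2 (by positivity)
          _ = _ := by ring
  have hswap := integral_integral_swap hint
  rw [intervalIntegral.integral_of_le hxt]
  calc _ = ∫ s in Ioc x t, ∫ v, F s v := by
        congr 1; ext s
        simp only [hF]
        rw [integral_const_mul]
    _ = ∫ v, ∫ s in Ioc x t, F s v := hswap
    _ = _ := by
        congr 1; ext v
        unfold Gw
        rw [intervalIntegral.integral_of_le hxt, ← integral_const_mul]
        congr 1; ext s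
        simp only [hF]; ring

end Pool.Agent.Helper66.Unq
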