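import Pool.Agent.Helper66.UnqH

set_option autoImplicit false
open MeasureTheory Set Filter Topology Complex

namespace Pool.Agent.Helper66.Unq

/-- the exponentially weighted Cauchy transform -/
noncomputable def phi (f : ℝ → ℂ) (ε : ℝ) (z : ℂ) : ℂ := Complex.exp (ε * z) * cau f z

lemma phi_diff {f : ℝ → ℂ} (hf : MemLp f 2 volume) (ε : ℝ) {z : ℂ} (hz : z.im ≠ 0) :
    DifferentiableAt ℂ (phi f ε) z := by
  unfold phi
  exact ((differentiableAt_id.const_mul (ε : ℂ)).cexp).mul (cau_diff hf hz)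

lemma cau_line_cont {f : ℝ → ℂ} (hf : MemLp f 2 volume) {y : ℝ} (hy : y ≠ 0) :
    Continuous (fun s : ℝ => cau f (s + y * I)) := by
  rw [continuous_iff_continuousAt]
  intro s
  have h1 : ((s : ℂ) + y * I).im ≠ 0 := by simpa using hy
  have h2 : ContinuousAt (fun s : ℝ => (s : ℂ) + y * I) s := by fun_prop
  exact ContinuousAt.comp (f := fun s : ℝ => (s : ℂ) + y * I) (cau_diff hf h1).continuousAt h2

lemma pois_lim {f : ℝ → ℂ} (hf : MemLp f 2 volume) {ε : ℝ} (hε : 0 < ε) {x t : ℝ} (hxt : x ≤ t) :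
    Tendsto (fun y : ℝ => ∫ v : ℝ, (((1 + v ^ 2)⁻¹ : ℝ) : ℂ) * Gw f ε x t (y * v)) (𝓝[>] 0)
      (𝓝 (Real.pi * Gw f ε x t 0)) := by
  have hlim : (Real.pi : ℂ) * Gw f ε x t 0 = ∫ v : ℝ, (((1 + v ^ 2)⁻¹ : ℝ) : ℂ) * Gw f ε x t 0 := by
    rw [integral_mul_const, integral_complex_ofReal, integral_univ_inv_one_add_sq]
  rw [hlim]
  set B := Real.exp (ε * t) * ((t - x) + ∫ τ, ‖f τ‖ ^ 2) with hB
  apply tendsto_integral_filter_of_dominated_convergence (fun v : ℝ => (1 + v ^ 2)⁻¹ * B)
  · refine Eventually.of_forall fun y => ?_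
    apply Continuous.aestronglyMeasurable
    apply Continuous.mul
    · have : Continuous (fun v : ℝ => (1 + v ^ 2)⁻¹) := by
        apply Continuous.inv₀ (by fun_prop)
        intro v; positivity
      fun_prop
    · exact (Gw_cont hf ε x t).comp (by fun_prop)
  · refine Eventually.of_forall fun y => Eventually.of_forall fun v => ?_
    rw [norm_mul, Complex.norm_real, Real.norm_of_nonneg (by positivity : (0:ℝ) ≤ (1 + v ^ 2)⁻¹)]
    exact mul_le_mul_of_nonneg_left (Gw_bound hf hε hxt _) (by positivity)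
  · exact integrable_inv_one_add_sq.mul_const _
  · refine Eventually.of_forall fun v => ?_
    apply Tendsto.const_mul
    have h1 : Tendsto (fun y : ℝ => y * v) (𝓝[>] 0) (𝓝 0) := by
      have : Tendsto (fun y : ℝ => y * v) (𝓝 0) (𝓝 (0 * v)) := Continuous.tendsto (by fun_prop) 0
      rw [zero_mul] at this
      exact this.mono_left nhdsWithin_le_nhds
    exact ((Gw_cont hf ε x t).tendsto 0).comp h1

lemma side_lim {f : ℝ → ℂ} (hf : MemLp f 2 volume) {ε : ℝ} (hε : 0 < ε) {x t : ℝ} (hxt : x ≤ t) :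
    Tendsto (fun y : ℝ => (Complex.exp (ε * (y * I)) - Complex.exp (-(ε * (y * I)))) *
      ∫ s in x..t, ((Real.exp (ε * s) : ℝ) : ℂ) * cau f (s - y * I)) (𝓝[>] 0) (𝓝 0) := by
  set N := (∫ τ, ‖f τ‖ ^ 2) + Real.pi with hN
  have hN0 : 0 ≤ N := by
    have : 0 ≤ ∫ τ, ‖f τ‖ ^ 2 := integral_nonneg fun τ => by positivity
    have := Real.pi_pos
    positivity
  have hb : ∀ᶠ y : ℝ in 𝓝[>] (0:ℝ), ‖(Complex.exp (ε * (y * I)) - Complex.exp (-(ε * (y * I)))) *
      ∫ s in x..t, ((Real.exp (ε * s) : ℝ) : ℂ) * cau f (s - y * I)‖ ≤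
      (4 * ε * (Real.exp (ε * t) * N * (t - x))) * Real.sqrt y := by
    have h1 : ∀ᶠ y : ℝ in 𝓝[>] (0:ℝ), y ∈ Ioc 0 (1 / ε) := Ioc_mem_nhdsGT (by positivity)
    filter_upwards [h1] with y hy
    have hy0 : 0 < y := hy.1
    have hy1 : ε * y ≤ 1 := by
      have := hy.2
      rw [le_div_iff₀ hε] at this
      linarith
    have hsq : Real.sqrt y * Real.sqrt y = y := Real.mul_self_sqrt hy0.le
    have hsq0 : 0 < Real.sqrt y := Real.sqrt_pos.mpr hy0
    have hn : ‖(ε : ℂ) * (y * I)‖ = ε * y := by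
      simp [abs_of_pos hε, abs_of_pos hy0]
    have e1 : ‖Complex.exp (ε * (y * I)) - Complex.exp (-(ε * (y * I)))‖ ≤ 4 * ε * y := by
      have a1 := Complex.norm_exp_sub_one_le (x := (ε : ℂ) * (y * I)) (by rw [hn]; exact hy1)
      have a2 := Complex.norm_exp_sub_one_le (x := -((ε : ℂ) * (y * I)))
        (by rw [norm_neg, hn]; exact hy1)
      rw [norm_neg, hn] at a2
      rw [hn] at a1
      have a3 : Complex.exp (ε * (y * I)) - Complex.exp (-(ε * (y * I))) =
        (Complex.exp (ε * (y * I)) - 1) - (Complex.exp (-(ε * (y * I))) - 1) := by ring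
      rw [a3]
      refine (norm_sub_le _ _).trans ?_
      linarith
    have e2 : ‖∫ s in x..t, ((Real.exp (ε * s) : ℝ) : ℂ) * cau f (s - y * I)‖ ≤
        Real.exp (ε * t) * (N / Real.sqrt y) * (t - x) := by
      have := intervalIntegral.norm_integral_le_of_norm_le_const (a := x) (b := t)
        (f := fun s : ℝ => ((Real.exp (ε * s) : ℝ) : ℂ) * cau f (s - y * I))
        (C := Real.exp (ε * t) * (N / Real.sqrt y)) (by
          intro s hs
          rw [uIoc_of_le hxt] at hs
          rw [norm_mul, Complex.norm_real, Real.norm_of_nonneg (Real.exp_pos _).le]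
          have hz : ((s : ℂ) - y * I).im ≠ 0 := by simp [hy0.ne']
          have hb := cau_bound hf hz
          have him : |((s : ℂ) - y * I).im| = y := by simp [abs_of_pos hy0]
          rw [him] at hb
          exact mul_le_mul (exp_le_win hε hs) hb (norm_nonneg _) (Real.exp_pos _).le)
      rwa [abs_of_nonneg (by linarith)] at this
    rw [norm_mul]
    calc _ ≤ (4 * ε * y) * (Real.exp (ε * t) * (N / Real.sqrt y) * (t - x)) :=
          mul_le_mul e1 e2 (norm_nonneg _) (by positivity)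
      _ = _ := by
          nth_rewrite 1 [← hsq]
          field_simp
  apply squeeze_zero_norm' hb
  have h1 : Tendsto (fun y : ℝ => Real.sqrt y) (𝓝[>] 0) (𝓝 0) := by
    have := Real.continuous_sqrt.tendsto 0
    rw [Real.sqrt_zero] at this
    exact this.mono_left nhdsWithin_le_nhds
  simpa using h1.const_mul (4 * ε * (Real.exp (ε * t) * N * (t - x)))

/-- boundary limit of the jump of `phi` -/
lemma jump_lim {f : ℝ → ℂ} (hfm : Measurable f) (hf : MemLp f 2 volume) {ε : ℝ} (hε : 0 < ε)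
    {x t : ℝ} (hxt : x ≤ t) :
    Tendsto (fun y : ℝ => ∫ s in x..t, (phi f ε (s + y * I) - phi f ε (s - y * I))) (𝓝[>] 0)
      (𝓝 (2 * Real.pi * I * ∫ s in x..t, ((Real.exp (ε * s) : ℝ) : ℂ) * f s)) := by
  have hG0 : Gw f ε x t 0 = ∫ s in x..t, ((Real.exp (ε * s) : ℝ) : ℂ) * f s := by
    unfold Gw; simp
  have h1 := pois_lim hf hε hxt
  have h2 := side_lim hf hε hxt
  have h3 : Tendsto (fun y : ℝ => Complex.exp (ε * (y * I))) (𝓝[>] 0) (𝓝 1) := by
    have : Tendsto (fun y : ℝ => Complex.exp (ε * (y * I))) (𝓝 0)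
      (𝓝 (Complex.exp (ε * ((0:ℝ) * I)))) := Continuous.tendsto (by fun_prop) 0
    simp only [Complex.ofReal_zero, zero_mul, mul_zero, Complex.exp_zero] at this
    exact this.mono_left nhdsWithin_le_nhds
  have h4 := ((h3.mul (h1.const_mul (2 * I))).add h2)
  have h5 : 1 * (2 * I * (Real.pi * Gw f ε x t 0)) + 0 =
      2 * Real.pi * I * ∫ s in x..t, ((Real.exp (ε * s) : ℝ) : ℂ) * f s := by
    rw [hG0]; ring
  rw [h5] at h4
  refine h4.congr' ?_
  filter_upwards [self_mem_nhdsWithin] with y hy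
  have hy0 : (0:ℝ) < y := hy
  have c1 : Continuous (fun s : ℝ => cau f (s + y * I)) := cau_line_cont hf hy0.ne'
  have c2 : Continuous (fun s : ℝ => cau f (s - y * I)) := by
    have := cau_line_cont hf (y := -y) (neg_ne_zero.mpr hy0.ne')
    refine this.congr (fun s => ?_)
    push_cast
    congr 1; ring
  have ce : Continuous (fun s : ℝ => ((Real.exp (ε * s) : ℝ) : ℂ)) := by fun_prop
  rw [← fub hfm hf hε hxt y]
  rw [← intervalIntegral.integral_const_mul, ← intervalIntegral.integral_const_mul,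
    ← intervalIntegral.integral_const_mul, ← intervalIntegral.integral_add]
  · congr 1
    ext s
    have e1 := poisson_jump hf hy0 s
    have e2 : Complex.exp (ε * (s + y * I)) = ((Real.exp (ε * s) : ℝ) : ℂ) * Complex.exp (ε * (y * I)) := by
      rw [Complex.ofReal_exp, ← Complex.exp_add]
      congr 1
      push_cast; ring
    have e3 : Complex.exp (ε * (s - y * I)) = ((Real.exp (ε * s) : ℝ) : ℂ) * Complex.exp (-(ε * (y * I))) := by
      rw [Complex.ofReal_exp, ← Complex.exp_add]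
      congr 1
      push_cast; ring
    unfold phi
    rw [e2, e3]
    have e4 : 2 * I * (((Real.exp (ε * s) : ℝ) : ℂ) *
        ∫ v : ℝ, (((1 + v ^ 2)⁻¹ : ℝ) : ℂ) * f (s + y * v)) =
        ((Real.exp (ε * s) : ℝ) : ℂ) * (cau f (s + y * I) - cau f (s - y * I)) := by
      rw [e1]; ring
    rw [e4]
    ring
  · have : (fun s : ℝ => Complex.exp (ε * (y * I)) * (2 * I * (((Real.exp (ε * s) : ℝ) : ℂ) *
        ∫ v : ℝ, (((1 + v ^ 2)⁻¹ : ℝ) : ℂ) * f (s + y * v)))) = fun s : ℝ =>
        Complex.exp (ε * (y * I)) * (((Real.exp (ε * s) : ℝ) : ℂ) *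
          (cau f (s + y * I) - cau f (s - y * I))) := by
      ext s
      rw [poisson_jump hf hy0 s]; ring
    rw [this]
    exact (continuous_const.mul (ce.mul (c1.sub c2))).intervalIntegrable _ _
  · exact (continuous_const.mul (ce.mul c2)).intervalIntegrable _ _

end Pool.Agent.Helper66.Unq
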