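import Pool.Agent.Helper66.UnqI

set_option autoImplicit false
open MeasureTheory Set Filter Topology Complex

namespace Pool.Agent.Helper66.Unq

lemma phi_line_cont {f : ℝ → ℂ} (hf : MemLp f 2 volume) (ε : ℝ) {y : ℝ} (hy : y ≠ 0) :
    Continuous (fun s : ℝ => phi f ε (s + y * I)) := by
  unfold phi
  exact Continuous.mul (by fun_prop) (cau_line_cont hf hy)

lemma phi_vert_contOn {f : ℝ → ℂ} (hf : MemLp f 2 volume) (ε x : ℝ) :
    ContinuousOn (fun v : ℝ => phi f ε (x + v * I)) {v : ℝ | v ≠ 0} := by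
  intro v hv
  have h1 : ((x : ℂ) + v * I).im ≠ 0 := by simpa using hv
  have h2 : ContinuousAt (fun v : ℝ => (x : ℂ) + v * I) v := by fun_prop
  exact (ContinuousAt.comp (f := fun v : ℝ => (x : ℂ) + v * I)
    (phi_diff hf ε h1).continuousAt h2).continuousWithinAt

lemma vert_bound {f : ℝ → ℂ} (hf : MemLp f 2 volume) (ε x : ℝ) {a b : ℝ} (hab : a ≤ b)
    (h0 : ∀ v ∈ Icc a b, v ≠ 0) {G : ℂ} {B : ℝ}
    (hB : ∀ v ∈ Ioc a b, ‖phi f ε (x + v * I) - G‖ ≤ B) :
    ‖(∫ v in a..b, phi f ε (x + v * I)) - (b - a) * G‖ ≤ B * (b - a) := by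
  have hi : IntervalIntegrable (fun v : ℝ => phi f ε (x + v * I)) volume a b := by
    apply ContinuousOn.intervalIntegrable
    rw [uIcc_of_le hab]
    exact (phi_vert_contOn hf ε x).mono h0
  have h1 : (∫ v in a..b, phi f ε (x + v * I)) - (b - a) * G =
      ∫ v in a..b, (phi f ε (x + v * I) - G) := by
    rw [intervalIntegral.integral_sub hi intervalIntegrable_const, intervalIntegral.integral_const]
    rw [Complex.real_smul]; push_cast; ring
  rw [h1]
  have := intervalIntegral.norm_integral_le_of_norm_le_const (a := a) (b := b)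
    (f := fun v : ℝ => phi f ε (x + v * I) - G) (C := B) (by
      intro v hv; rw [uIoc_of_le hab] at hv; exact hB v hv)
  rwa [abs_of_nonneg (by linarith)] at this

lemma horiz_bound {f : ℝ → ℂ} (hf : MemLp f 2 volume) (ε : ℝ) {y : ℝ} (hy : y ≠ 0) {a b : ℝ}
    (hab : a ≤ b) {G : ℂ} {B : ℝ} (hB : ∀ s ∈ Ioc a b, ‖phi f ε (s + y * I) - G‖ ≤ B) :
    ‖(∫ s in a..b, phi f ε (s + y * I)) - (b - a) * G‖ ≤ B * (b - a) := by
  have hi : IntervalIntegrable (fun s : ℝ => phi f ε (s + y * I)) volume a b :=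
    (phi_line_cont hf ε hy).intervalIntegrable _ _
  have h1 : (∫ s in a..b, phi f ε (s + y * I)) - (b - a) * G =
      ∫ s in a..b, (phi f ε (s + y * I) - G) := by
    rw [intervalIntegral.integral_sub hi intervalIntegrable_const, intervalIntegral.integral_const]
    rw [Complex.real_smul]; push_cast; ring
  rw [h1]
  have := intervalIntegral.norm_integral_le_of_norm_le_const (a := a) (b := b)
    (f := fun s : ℝ => phi f ε (s + y * I) - G) (C := B) (by
      intro v hv; rw [uIoc_of_le hab] at hv; exact hB v hv)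
  rwa [abs_of_nonneg (by linarith)] at this

lemma rect_id {f : ℝ → ℂ} (hf : MemLp f 2 volume) (ε : ℝ) {x t a b : ℝ}
    (h0 : ∀ v ∈ uIcc a b, v ≠ 0) :
    (∫ s in x..t, phi f ε (s + a * I)) - (∫ s in x..t, phi f ε (s + b * I)) +
      I * (∫ v in a..b, phi f ε (t + v * I)) - I * (∫ v in a..b, phi f ε (x + v * I)) = 0 := by
  have h := Complex.integral_boundary_rect_eq_zero_of_differentiableOn (phi f ε)
    ((x : ℂ) + a * I) ((t : ℂ) + b * I) (by
      intro z hz
      have hz2 := hz.2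
      simp only [mem_preimage, Complex.add_im, Complex.ofReal_im, Complex.mul_im, Complex.ofReal_re,
        Complex.I_im, Complex.I_re, mul_one, mul_zero, zero_add, add_zero] at hz2
      exact (phi_diff hf ε (h0 _ hz2)).differentiableWithinAt)
  simpa using h

/-- the rectangle estimate -/
lemma rect_est {f : ℝ → ℂ} (hf : MemLp f 2 volume) (ε : ℝ) {x t y B D : ℝ} (hxt : x < t)
    (hy : 0 < y) (hyr : y < t - x) {gx gt : ℂ} (hD : ‖gt - gx‖ ≤ D)
    (hBx : ∀ z : ℂ, 0 < |z.im| → |z.im| ≤ t - x → |z.re - x| ≤ 5 * |z.im| → |z.im| ≤ t - x →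
      (z.re = x ∨ |z.im| = t - x) → ‖phi f ε z - gx‖ ≤ B)
    (hBt : ∀ z : ℂ, 0 < |z.im| → |z.im| ≤ t - x → z.re = t → ‖phi f ε z - gt‖ ≤ B) :
    ‖∫ s in x..t, (phi f ε (s + y * I) - phi f ε (s - y * I))‖ ≤
      (6 * B + 2 * D) * (t - x) := by
  set r := t - x with hr
  have hr0 : 0 < r := by linarith
  have U := rect_id hf ε (x := x) (t := t) (a := y) (b := r) (by
    intro v hv
    rw [uIcc_of_le hyr.le] at hv
    have := hv.1; intro h; linarith)
  have L := rect_id hf ε (x := x) (t := t) (a := -r) (b := -y) (by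
    intro v hv
    rw [uIcc_of_le (by linarith)] at hv
    have := hv.2; intro h; linarith)
  have s1 := horiz_bound hf ε (y := r) hr0.ne' (a := x) (b := t) hxt.le (G := gx) (B := B) (by
    intro s hs
    have e1 : ((s : ℂ) + r * I).im = r := by simp
    have e2 : ((s : ℂ) + r * I).re = s := by simp
    apply hBx
    · rw [e1, abs_of_pos hr0]; exact hr0
    · rw [e1, abs_of_pos hr0]
    · rw [e1, e2, abs_of_pos hr0, abs_of_nonneg (by linarith [hs.1])]; linarith [hs.2]
    · rw [e1, abs_of_pos hr0]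
    · right; rw [e1, abs_of_pos hr0])
  have s2 := horiz_bound hf ε (y := -r) (by linarith) (a := x) (b := t) hxt.le (G := gx) (B := B) (by
    intro s hs
    have e1 : ((s : ℂ) + ((-r : ℝ) : ℂ) * I).im = -r := by simp
    have e2 : ((s : ℂ) + ((-r : ℝ) : ℂ) * I).re = s := by simp
    apply hBx
    · rw [e1, abs_neg, abs_of_pos hr0]; exact hr0
    · rw [e1, abs_neg, abs_of_pos hr0]
    · rw [e1, e2, abs_neg, abs_of_pos hr0, abs_of_nonneg (by linarith [hs.1])]; linarith [hs.2]
    · rw [e1, abs_neg, abs_of_pos hr0]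
    · right; rw [e1, abs_neg, abs_of_pos hr0])
  have s3 := vert_bound hf ε t (a := y) (b := r) hyr.le (by
      intro v hv h; linarith [hv.1]) (G := gt) (B := B) (by
    intro v hv
    have hv0 : 0 < v := by linarith [hv.1]
    have e1 : ((t : ℂ) + v * I).im = v := by simp
    have e2 : ((t : ℂ) + v * I).re = t := by simp
    apply hBt
    · rw [e1, abs_of_pos hv0]; exact hv0
    · rw [e1, abs_of_pos hv0]; exact hv.2
    · exact e2)
  have s4 := vert_bound hf ε t (a := -r) (b := -y) (by linarith) (by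
      intro v hv h; linarith [hv.2]) (G := gt) (B := B) (by
    intro v hv
    have hv0 : v < 0 := by linarith [hv.2]
    have e1 : ((t : ℂ) + v * I).im = v := by simp
    have e2 : ((t : ℂ) + v * I).re = t := by simp
    apply hBt
    · rw [e1, abs_of_neg hv0]; linarith
    · rw [e1, abs_of_neg hv0]; linarith [hv.1]
    · exact e2)
  have s5 := vert_bound hf ε x (a := y) (b := r) hyr.le (by
      intro v hv h; linarith [hv.1]) (G := gx) (B := B) (by
    intro v hv
    have hv0 : 0 < v := by linarith [hv.1]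
    have e1 : ((x : ℂ) + v * I).im = v := by simp
    have e2 : ((x : ℂ) + v * I).re = x := by simp
    apply hBx
    · rw [e1, abs_of_pos hv0]; exact hv0
    · rw [e1, abs_of_pos hv0]; exact hv.2
    · rw [e2, sub_self, abs_zero]; positivity
    · rw [e1, abs_of_pos hv0]; exact hv.2
    · left; exact e2)
  have s6 := vert_bound hf ε x (a := -r) (b := -y) (by linarith) (by
      intro v hv h; linarith [hv.2]) (G := gx) (B := B) (by
    intro v hv
    have hv0 : v < 0 := by linarith [hv.2]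
    have e1 : ((x : ℂ) + v * I).im = v := by simp
    have e2 : ((x : ℂ) + v * I).re = x := by simp
    apply hBx
    · rw [e1, abs_of_neg hv0]; linarith
    · rw [e1, abs_of_neg hv0]; linarith [hv.1]
    · rw [e2, sub_self, abs_zero]; positivity
    · rw [e1, abs_of_neg hv0]; linarith [hv.1]
    · left; exact e2)
  have hB0 : 0 ≤ B := by
    have h1 : 0 ≤ B * (t - x) := (norm_nonneg _).trans s1
    rw [← hr] at h1
    exact nonneg_of_mul_nonneg_left h1 hr0
  set P1 := ∫ s in x..t, phi f ε (s + y * I) with hP1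
  set P2 := ∫ s in x..t, phi f ε (s + ((-y : ℝ) : ℂ) * I) with hP2
  set S1 := ∫ s in x..t, phi f ε (s + r * I)
  set S2 := ∫ s in x..t, phi f ε (s + ((-r : ℝ) : ℂ) * I)
  set S3 := ∫ v in y..r, phi f ε (t + v * I)
  set S4 := ∫ v in (-r)..(-y), phi f ε (t + v * I)
  set S5 := ∫ v in y..r, phi f ε (x + v * I)
  set S6 := ∫ v in (-r)..(-y), phi f ε (x + v * I)
  have hsplit : ∫ s in x..t, (phi f ε (s + y * I) - phi f ε (s - y * I)) = P1 - P2 := by
    rw [intervalIntegral.integral_sub]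
    · rw [hP1, hP2]
      congr 2
      ext s
      push_cast
      congr 1; ring
    · exact (phi_line_cont hf ε hy.ne').intervalIntegrable _ _
    · have := (phi_line_cont hf ε (y := -y) (by linarith))
      apply Continuous.intervalIntegrable
      refine this.congr (fun s => ?_)
      push_cast
      congr 1; ring
  rw [hsplit]
  have key : P1 - P2 = (S1 - (t - x) * gx) - (S2 - (t - x) * gx)
      - I * (S3 - (r - y) * gt) - I * (S4 - (((-y : ℝ) : ℂ) - ((-r : ℝ) : ℂ)) * gt)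
      + I * (S5 - (r - y) * gx) + I * (S6 - (((-y : ℝ) : ℂ) - ((-r : ℝ) : ℂ)) * gx)
      - I * (2 * (r - y) * (gt - gx)) := by
    push_cast
    linear_combination U + L
  have hI : ∀ w : ℂ, ‖I * w‖ = ‖w‖ := by intro w; rw [norm_mul, Complex.norm_I, one_mul]
  have k7 : ‖I * (2 * (r - y) * (gt - gx))‖ ≤ 2 * r * D := by
    rw [hI, norm_mul]
    have : ‖(2 : ℂ) * (r - y)‖ = 2 * (r - y) := by
      have e : (2 : ℂ) * (r - y) = ((2 * (r - y) : ℝ) : ℂ) := by push_cast; ring
      rw [e, Complex.norm_real, Real.norm_of_nonneg (by linarith)]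
    rw [this]
    have hD0 : 0 ≤ D := (norm_nonneg _).trans hD
    calc 2 * (r - y) * ‖gt - gx‖ ≤ 2 * (r - y) * D :=
          mul_le_mul_of_nonneg_left hD (by linarith)
      _ ≤ 2 * r * D := by nlinarith
  have hryB : B * (r - y) ≤ B * r := mul_le_mul_of_nonneg_left (by linarith) hB0
  have hryB' : B * (-y - -r) ≤ B * r := mul_le_mul_of_nonneg_left (by linarith) hB0
  have t1 : ‖S1 - (t - x) * gx‖ ≤ B * r := s1
  have t2 : ‖S2 - (t - x) * gx‖ ≤ B * r := s2
  have t3 : ‖I * (S3 - (r - y) * gt)‖ ≤ B * r := by rw [hI]; exact s3.trans hryB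
  have t4 : ‖I * (S4 - (((-y : ℝ) : ℂ) - ((-r : ℝ) : ℂ)) * gt)‖ ≤ B * r := by
    rw [hI]; exact s4.trans hryB'
  have t5 : ‖I * (S5 - (r - y) * gx)‖ ≤ B * r := by rw [hI]; exact s5.trans hryB
  have t6 : ‖I * (S6 - (((-y : ℝ) : ℂ) - ((-r : ℝ) : ℂ)) * gx)‖ ≤ B * r := by
    rw [hI]; exact s6.trans hryB'
  rw [key]
  have n1 := norm_sub_le (S1 - (t - x) * gx) (S2 - (t - x) * gx)
  have n2 := norm_sub_le ((S1 - (t - x) * gx) - (S2 - (t - x) * gx)) (I * (S3 - (r - y) * gt))
  have n3 := norm_sub_le ((S1 - (t - x) * gx) - (S2 - (t - x) * gx) - (I * (S3 - (r - y) * gt)))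
    (I * (S4 - (((-y : ℝ) : ℂ) - ((-r : ℝ) : ℂ)) * gt))
  have n4 := norm_add_le ((S1 - (t - x) * gx) - (S2 - (t - x) * gx) - (I * (S3 - (r - y) * gt))
    - (I * (S4 - (((-y : ℝ) : ℂ) - ((-r : ℝ) : ℂ)) * gt))) (I * (S5 - (r - y) * gx))
  have n5 := norm_add_le ((S1 - (t - x) * gx) - (S2 - (t - x) * gx) - (I * (S3 - (r - y) * gt))
    - (I * (S4 - (((-y : ℝ) : ℂ) - ((-r : ℝ) : ℂ)) * gt)) + (I * (S5 - (r - y) * gx)))
    (I * (S6 - (((-y : ℝ) : ℂ) - ((-r : ℝ) : ℂ)) * gx))
  have n6 := norm_sub_le ((S1 - (t - x) * gx) - (S2 - (t - x) * gx) - (I * (S3 - (r - y) * gt))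
    - (I * (S4 - (((-y : ℝ) : ℂ) - ((-r : ℝ) : ℂ)) * gt)) + (I * (S5 - (r - y) * gx))
    + (I * (S6 - (((-y : ℝ) : ℂ) - ((-r : ℝ) : ℂ)) * gx))) (I * (2 * (r - y) * (gt - gx)))
  linarith

end Pool.Agent.Helper66.Unq
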