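import Pool.Agent.Helper66.UnqJ

set_option autoImplicit false
open MeasureTheory Set Filter Topology Complex

namespace Pool.Agent.Helper66.Unq

lemma exp_memLp {ε : ℝ} (hε : 0 < ε) (x : ℝ) :
    MemLp (fun τ : ℝ => ((Real.exp (ε * τ) : ℝ) : ℂ)) 2 (volume.restrict (Iic x)) := by
  have hm : Measurable (fun τ : ℝ => ((Real.exp (ε * τ) : ℝ) : ℂ)) := by fun_prop
  rw [memLp_two_iff_integrable_sq_norm hm.aestronglyMeasurable]
  have h := integrableOn_exp_mul_Iic (a := 2 * ε) (by positivity) x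
  refine h.congr (Eventually.of_forall fun τ => ?_)
  simp only
  rw [Complex.norm_real, Real.norm_of_nonneg (Real.exp_pos _).le, ← Real.exp_nat_mul]
  congr 1; push_cast; ring

lemma expf_int {f : ℝ → ℂ} (hf : MemLp f 2 volume) {ε : ℝ} (hε : 0 < ε) (x : ℝ) :
    IntegrableOn (fun τ => ((Real.exp (ε * τ) : ℝ) : ℂ) * f τ) (Iic x) :=
  (exp_memLp hε x).integrable_mul (hf.restrict (Iic x))

/-- the boundary function -/
noncomputable def gf (f : ℝ → ℂ) (c : ℂ) (ε x : ℝ) : ℂ :=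
  c * ∫ τ in Iic x, ((Real.exp (ε * τ) : ℝ) : ℂ) * f τ

lemma gf_sub {f : ℝ → ℂ} (hf : MemLp f 2 volume) (c : ℂ) {ε : ℝ} (hε : 0 < ε) (x t : ℝ) :
    gf f c ε t - gf f c ε x = c * ∫ s in x..t, ((Real.exp (ε * s) : ℝ) : ℂ) * f s := by
  unfold gf
  rw [← mul_sub, intervalIntegral.integral_Iic_sub_Iic (expf_int hf hε x) (expf_int hf hε t)]

lemma gf_cont {f : ℝ → ℂ} (hf : MemLp f 2 volume) (c : ℂ) {ε : ℝ} (hε : 0 < ε) :
    Continuous (gf f c ε) := by
  have h : gf f c ε = fun t => gf f c ε 0 + c * ∫ s in (0:ℝ)..t, ((Real.exp (ε * s) : ℝ) : ℂ) * f s := by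
    ext t
    rw [← gf_sub hf c hε 0 t]; ring
  rw [h]
  exact continuous_const.add (continuous_const.mul
    (intervalIntegral.continuous_primitive (fun a b => exp_f_ii hf ε a b) 0))

lemma gf_lip {f : ℝ → ℂ} (hf : MemLp f 2 volume) (c : ℂ) {ε : ℝ} (hε : 0 < ε) {x t R : ℝ}
    (hxt : x ≤ t) (htR : t ≤ R) :
    ‖gf f c ε t - gf f c ε x‖ ≤ ‖c‖ * (Real.exp (ε * R) * Im (fun τ => ‖f τ‖) x (t - x)) := by
  rw [gf_sub hf c hε, norm_mul]
  apply mul_le_mul_of_nonneg_left _ (norm_nonneg _)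
  have hloc : LocallyIntegrable (fun τ => ‖f τ‖) := hf.norm.locallyIntegrable (by norm_num)
  rw [intervalIntegral.integral_of_le hxt]
  unfold Im
  rw [← integral_const_mul]
  have hI : IntegrableOn (fun τ => Real.exp (ε * R) * ‖f τ‖) (Icc (x - (t - x)) (x + (t - x))) :=
    (hloc.integrableOn_isCompact isCompact_Icc).const_mul _
  have hsub : Ioc x t ⊆ Icc (x - (t - x)) (x + (t - x)) := by
    intro s hs
    constructor <;> linarith [hs.1, hs.2]
  refine (norm_integral_le_of_norm_le (hI.mono_set hsub) ?_).trans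
    (setIntegral_mono_set hI (Eventually.of_forall fun τ => by
      simp only [Pi.zero_apply]; positivity) hsub.eventuallyLE)
  rw [ae_restrict_iff' measurableSet_Ioc]
  refine Eventually.of_forall fun τ hτ => ?_
  rw [norm_mul, Complex.norm_real, Real.norm_of_nonneg (Real.exp_pos _).le]
  apply mul_le_mul_of_nonneg_right _ (norm_nonneg _)
  apply Real.exp_le_exp.mpr
  exact mul_le_mul_of_nonneg_left (hτ.2.trans htR) hε.le

lemma phi_conj (f : ℝ → ℂ) (ε : ℝ) (z : ℂ) :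
    phi f ε ((starRingEnd ℂ) z) = (starRingEnd ℂ) (phi (fun τ => (starRingEnd ℂ) (f τ)) ε z) := by
  unfold phi
  rw [map_mul, ← cau_conj, ← Complex.exp_conj]
  congr 2
  simp

lemma conj_memLp {f : ℝ → ℂ} (hf : MemLp f 2 volume) :
    MemLp (fun τ => (starRingEnd ℂ) (f τ)) 2 volume := by
  have h : MemLp (fun τ => star (f τ)) 2 volume := hf.star
  exact h

/-- from the two-sided Cauchy estimate to the two-sided estimate for `phi` -/
lemma phi_UC {f : ℝ → ℂ} (hf : MemLp f 2 volume) (c : ℂ) {ε : ℝ} (hε : 0 < ε) {E : Set ℝ} {R : ℝ}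
    (hER : E ⊆ Icc (-R) R)
    (h : ∀ e : ℝ, 0 < e → ∃ δ : ℝ, 0 < δ ∧ ∀ x ∈ E, ∀ z : ℂ, 0 < |z.im| → |z.im| ≤ δ →
      |z.re - x| ≤ 7 * |z.im| → ‖cau f z - ((Real.exp (-(ε * x)) : ℝ) : ℂ) * gf f c ε x‖ ≤ e) :
    ∀ e : ℝ, 0 < e → ∃ δ : ℝ, 0 < δ ∧ ∀ x ∈ E, ∀ z : ℂ, 0 < |z.im| → |z.im| ≤ δ →
      |z.re - x| ≤ 7 * |z.im| → ‖phi f ε z - gf f c ε x‖ ≤ e := by
  intro e he
  obtain ⟨B, hB⟩ := (isCompact_Icc (a := -R) (b := R)).exists_bound_of_continuousOn
    (gf_cont hf c hε).continuousOn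
  have hB' : ∀ x ∈ E, ‖gf f c ε x‖ ≤ |B| := fun x hx => (hB x (hER hx)).trans (le_abs_self B)
  set M := Real.exp (ε * (R + 7)) with hM
  have hM0 : 0 < M := Real.exp_pos _
  obtain ⟨δ, hδ, h1⟩ := h (e / (2 * M)) (by positivity)
  refine ⟨min (min δ 1) (min (1 / (8 * ε)) (e / (32 * ε * (|B| + 1)))), by positivity, ?_⟩
  intro x hx z hz hzδ hzx
  have b1 : |z.im| ≤ δ := hzδ.trans ((min_le_left _ _).trans (min_le_left _ _))
  have b2 : |z.im| ≤ 1 := hzδ.trans ((min_le_left _ _).trans (min_le_right _ _))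
  have b3 : |z.im| ≤ 1 / (8 * ε) := hzδ.trans ((min_le_right _ _).trans (min_le_left _ _))
  have b4 : |z.im| ≤ e / (32 * ε * (|B| + 1)) := hzδ.trans ((min_le_right _ _).trans (min_le_right _ _))
  have a1 := h1 x hx z hz b1 hzx
  have hzn : ‖z - x‖ ≤ 8 * |z.im| := by
    have := Complex.norm_le_abs_re_add_abs_im (z - x)
    simp only [Complex.sub_re, Complex.ofReal_re, Complex.sub_im, Complex.ofReal_im, sub_zero] at this
    linarith
  have hw : ‖(ε : ℂ) * (z - x)‖ ≤ 8 * ε * |z.im| := by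
    rw [norm_mul, Complex.norm_real, Real.norm_of_nonneg hε.le]
    nlinarith
  have hw1 : ‖(ε : ℂ) * (z - x)‖ ≤ 1 := by
    rw [le_div_iff₀ (by positivity)] at b3
    linarith
  have a2 := Complex.norm_exp_sub_one_le hw1
  have e1 : phi f ε z - gf f c ε x =
      Complex.exp (ε * z) * (cau f z - ((Real.exp (-(ε * x)) : ℝ) : ℂ) * gf f c ε x) +
      (Complex.exp (ε * (z - x)) - 1) * gf f c ε x := by
    unfold phi
    have : Complex.exp (ε * z) * ((Real.exp (-(ε * x)) : ℝ) : ℂ) = Complex.exp (ε * (z - x)) := by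
      rw [Complex.ofReal_exp, ← Complex.exp_add]
      congr 1
      push_cast; ring
    rw [← this]; ring
  rw [e1]
  refine (norm_add_le _ _).trans ?_
  rw [norm_mul, norm_mul]
  have a3 : ‖Complex.exp (ε * z)‖ ≤ M := by
    rw [Complex.norm_exp, Complex.re_ofReal_mul, hM]
    apply Real.exp_le_exp.mpr
    apply mul_le_mul_of_nonneg_left _ hε.le
    have := (abs_le.mp hzx).2
    have := (hER hx).2
    linarith
  have a4 : ‖Complex.exp (ε * z)‖ * ‖cau f z - ((Real.exp (-(ε * x)) : ℝ) : ℂ) * gf f c ε x‖ ≤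
      M * (e / (2 * M)) := mul_le_mul a3 a1 (norm_nonneg _) hM0.le
  have a5 : M * (e / (2 * M)) = e / 2 := by field_simp
  have a6 : ‖Complex.exp (ε * (z - x)) - 1‖ * ‖gf f c ε x‖ ≤ (16 * ε * |z.im|) * |B| := by
    apply mul_le_mul (a2.trans (by linarith)) (hB' x hx) (norm_nonneg _) (by positivity)
  have a7 : (16 * ε * |z.im|) * |B| ≤ e / 2 := by
    rw [le_div_iff₀ (by positivity)] at b4
    have : 0 ≤ |B| := abs_nonneg B
    have : 0 ≤ ε * |z.im| := by positivity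
    nlinarith
  linarith

/-- kill `phi` in the upper half plane -/
lemma cau_zero_of_deriv {f : ℝ → ℂ} (hf : MemLp f 2 volume) {ε : ℝ} (hε : 0 < ε)
    (h : ∀ z : ℂ, 0 < z.im → deriv (phi f ε) z = 0) : ∀ z : ℂ, 0 < z.im → cau f z = 0 := by
  have hopen : IsOpen {z : ℂ | 0 < z.im} := isOpen_lt continuous_const Complex.continuous_im
  have hpre : IsPreconnected {z : ℂ | 0 < z.im} := (convex_halfSpace_im_gt 0).isPreconnected
  have hd : DifferentiableOn ℂ (phi f ε) {z : ℂ | 0 < z.im} := by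
    intro z hz
    have hz' : 0 < z.im := hz
    exact (phi_diff hf ε hz'.ne').differentiableWithinAt
  have hconst : ∀ z ∈ {z : ℂ | 0 < z.im}, phi f ε z = phi f ε I := by
    intro z hz
    exact hopen.is_const_of_deriv_eq_zero hpre hd (fun w hw => h w hw) hz (by simp)
  set κ := phi f ε I with hκ
  set N := (∫ τ, ‖f τ‖ ^ 2) + Real.pi with hN
  have hb : ∀ n : ℕ, ‖κ‖ ≤ Real.exp (-(ε * n)) * N := by
    intro n
    have hz : ((-(n : ℂ)) + I).im = 1 := by simp
    have h1 := hconst (-(n : ℂ) + I) (by simp)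
    have h2 := cau_bound hf (z := -(n : ℂ) + I) (by rw [hz]; norm_num)
    rw [hz] at h2
    simp only [abs_one, Real.sqrt_one, div_one] at h2
    rw [← h1]
    unfold phi
    rw [norm_mul, Complex.norm_exp, Complex.re_ofReal_mul]
    have hre : (-(n : ℂ) + I).re = -(n : ℝ) := by simp
    rw [hre, mul_neg]
    exact mul_le_mul_of_nonneg_left h2 (Real.exp_pos _).le
  have hlim : Tendsto (fun n : ℕ => Real.exp (-(ε * n)) * N) atTop (𝓝 0) := by
    have h1 : Tendsto (fun n : ℕ => ε * (n : ℝ)) atTop atTop :=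
      tendsto_natCast_atTop_atTop.const_mul_atTop hε
    have h2 := (Real.tendsto_exp_neg_atTop_nhds_zero.comp h1).mul_const N
    simpa using h2
  have hκ0 : κ = 0 := by
    have : ‖κ‖ ≤ 0 := ge_of_tendsto' hlim hb
    exact norm_le_zero_iff.mp this
  intro z hz
  have h1 := hconst z hz
  rw [hκ0] at h1
  unfold phi at h1
  exact (mul_eq_zero.mp h1).resolve_left (Complex.exp_ne_zero _)

/-- vanishing of all window integrals gives a.e. zero -/
lemma ae_zero_of_windows {f : ℝ → ℂ} (hf : MemLp f 2 volume) {ε : ℝ}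
    (h : ∀ x t : ℝ, x ≤ t → ∫ s in x..t, ((Real.exp (ε * s) : ℝ) : ℂ) * f s = 0) :
    f =ᵐ[volume] 0 := by
  filter_upwards [IsUnifLocDoublingMeasure.ae_tendsto_average volume (exp_f_loc hf ε) 1] with x hx
  have h1 := hx (fun _ : ℕ => x) (fun n : ℕ => ((1:ℝ) / 2) ^ n) half_pow_tendsto
    (Eventually.of_forall fun n => by
      simp only [one_mul]
      exact Metric.mem_closedBall_self (by positivity))
  have h2 : ∀ n : ℕ, (⨍ s in Metric.closedBall x ((1 / 2) ^ n),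
      ((Real.exp (ε * s) : ℝ) : ℂ) * f s) = 0 := by
    intro n
    have hp : (0:ℝ) < (1 / 2) ^ n := by positivity
    rw [setAverage_eq, Real.closedBall_eq_Icc, integral_Icc_eq_integral_Ioc,
      ← intervalIntegral.integral_of_le (by linarith), h _ _ (by linarith), smul_zero]
  simp_rw [h2] at h1
  have h3 := tendsto_nhds_unique h1 tendsto_const_nhds
  have h4 : ((Real.exp (ε * x) : ℝ) : ℂ) ≠ 0 := by
    exact_mod_cast (Real.exp_pos _).ne'
  exact (mul_eq_zero.mp h3).resolve_left h4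

end Pool.Agent.Helper66.Unq
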