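import Pool.Agent.Helper66.UnqK

set_option autoImplicit false
open MeasureTheory Set Filter Topology Complex

namespace Pool.Agent.Helper66.Unq

lemma norm_conj_sub (a b : ℂ) :
    ‖(starRingEnd ℂ) a - b‖ = ‖a - (starRingEnd ℂ) b‖ := by
  rw [← Complex.norm_conj ((starRingEnd ℂ) a - b), map_sub, Complex.conj_conj]

lemma propagate2 {f : ℝ → ℂ} (hf : MemLp f 2 volume) {ε : ℝ} {g : ℝ → ℂ}
    {E E' : Set ℝ} (hE : MeasurableSet E) (hE' : E' ⊆ E)
    (hUC : ∀ e : ℝ, 0 < e → ∃ δ : ℝ, 0 < δ ∧ ∀ x ∈ E, ∀ z : ℂ, 0 < |z.im| → |z.im| ≤ δ →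
      |z.re - x| ≤ 7 * |z.im| → ‖phi f ε z - g x‖ ≤ e)
    {β A r₀ : ℝ} (hβ : 0 < β) (hA : 0 ≤ A) (hr₀ : 0 < r₀)
    (hg : ∀ x ∈ E, ∀ t ∈ E, |t - x| ≤ r₀ → ‖g t - g x‖ ≤ A * |t - x| ^ β) (hD : Dens E E') :
    ∃ C : ℝ, 0 ≤ C ∧ ∃ δ : ℝ, 0 < δ ∧ ∀ x ∈ E', ∀ z : ℂ, 0 < |z.im| → |z.im| ≤ δ →
      |z.re - x| ≤ 5 * |z.im| → ‖phi f ε z - g x‖ ≤ C * |z.im| ^ (β * (3 / 4)) := by
  have hfc := conj_memLp hf
  have u1 : UC 7 (phi f ε) g E := by
    intro e he
    obtain ⟨δ, hδ, h⟩ := hUC e he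
    refine ⟨δ, hδ, fun x hx z hz hzδ hzx => ?_⟩
    apply h x hx z <;> rw [abs_of_pos hz] <;> assumption
  have u2 : UC 7 (phi (fun τ => (starRingEnd ℂ) (f τ)) ε) (fun t => (starRingEnd ℂ) (g t)) E := by
    intro e he
    obtain ⟨δ, hδ, h⟩ := hUC e he
    refine ⟨δ, hδ, fun x hx z hz hzδ hzx => ?_⟩
    have h1 := h x hx ((starRingEnd ℂ) z) (by simpa using hz.ne') (by simpa [abs_of_pos hz] using hzδ)
      (by simpa [abs_of_pos hz] using hzx)
    rw [phi_conj, norm_conj_sub] at h1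
    exact h1
  obtain ⟨C1, hC1, δ1, hδ1, h1⟩ := propagate (fun z hz => phi_diff hf ε hz.ne') hE hE' u1 hβ hA hr₀
    hg hD
  obtain ⟨C2, hC2, δ2, hδ2, h2⟩ := propagate (fun z hz => phi_diff hfc ε hz.ne') hE hE' u2 hβ hA hr₀
    (by
      intro x hx t ht htx
      rw [← map_sub, Complex.norm_conj]
      exact hg x hx t ht htx) hD
  refine ⟨max C1 C2, le_max_of_le_left hC1, min δ1 δ2, lt_min hδ1 hδ2, ?_⟩
  intro x hx z hz hzδ hzx
  have hp : 0 ≤ |z.im| ^ (β * (3 / 4)) := by positivity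
  rcases lt_or_gt_of_ne (abs_pos.mp hz) with hneg | hpos
  · have hab : |z.im| = -z.im := abs_of_neg hneg
    have h3 := h2 x hx ((starRingEnd ℂ) z) (by simpa using hneg)
      (by simp only [Complex.conj_im]; rw [← hab]; exact hzδ.trans (min_le_right _ _))
      (by simp only [Complex.conj_im, Complex.conj_re]; rw [← hab]; exact hzx)
    have h4 := phi_conj f ε ((starRingEnd ℂ) z)
    rw [Complex.conj_conj] at h4
    rw [h4, norm_conj_sub]
    refine h3.trans ?_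
    simp only [Complex.conj_im]
    rw [← hab]
    exact mul_le_mul_of_nonneg_right (le_max_right _ _) hp
  · rw [abs_of_pos hpos] at hzδ hzx hp ⊢
    refine (h1 x hx z hpos (hzδ.trans (min_le_left _ _)) hzx).trans ?_
    exact mul_le_mul_of_nonneg_right (le_max_left _ _) hp

lemma half_zero {f : ℝ → ℂ} (hf : MemLp f 2 volume) {ε : ℝ} (hε : 0 < ε) {g : ℝ → ℂ}
    {E E' : Set ℝ} (hE : MeasurableSet E) (hE' : E' ⊆ E) (hne : E'.Nonempty) (hD : Dens E E')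
    {C δ p : ℝ} (hp : 1 < p) (hC : 0 ≤ C) (hδ : 0 < δ)
    (h : ∀ x ∈ E, ∀ z : ℂ, 0 < z.im → z.im ≤ δ →
      |z.re - x| ≤ 5 * z.im → ‖phi f ε z - g x‖ ≤ C * z.im ^ p) :
    ∀ z : ℂ, 0 < z.im → cau f z = 0 := by
  have hφ : ∀ z : ℂ, 0 < z.im → DifferentiableAt ℂ (phi f ε) z := fun z hz => phi_diff hf ε hz.ne'
  have hopen : IsOpen {z : ℂ | 0 < z.im} := isOpen_lt continuous_const Complex.continuous_im
  have hd : DifferentiableOn ℂ (phi f ε) {z : ℂ | 0 < z.im} :=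
    fun z hz => (hφ z hz).differentiableWithinAt
  have hdd : ∀ z : ℂ, 0 < z.im → DifferentiableAt ℂ (deriv (phi f ε)) z := by
    intro z hz
    exact (hd.deriv hopen).differentiableAt (hopen.mem_nhds hz)
  have hu := deriv_UC hφ hp hC hδ h
  exact cau_zero_of_deriv hf hε (uniq_zero hdd hE hE' hne hu hD)

lemma pv_meas {f : ℝ → ℂ} (hfm : Measurable f) (δ : ℝ) :
    StronglyMeasurable (fun x => pv f x δ) := by
  have h1 : Measurable (fun p : ℝ × ℝ =>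
      if δ < |p.1 - p.2| then f p.2 / ((p.1 - p.2 : ℝ) : ℂ) else 0) := by
    apply Measurable.ite
    · exact measurableSet_lt measurable_const (by fun_prop)
    · fun_prop
    · fun_prop
  have h2 := h1.stronglyMeasurable.integral_prod_right' (ν := volume)
  have h3 : (fun x => pv f x δ) = fun x => ∫ τ, (if δ < |x - τ| then f τ / ((x - τ : ℝ) : ℂ) else 0) := by
    ext x
    unfold pv
    rw [← integral_indicator (meas_far x δ)]
    congr 1
  rw [h3]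
  exact h2

theorem main_meas (c : ℂ) (ε : ℝ) (hε : 0 < ε) (E : Set ℝ) (hE : MeasurableSet E)
    (hpos : 0 < volume E) (f : ℝ → ℂ) (hfm : Measurable f) (hf : MemLp f 2 volume)
    (hf0 : ∀ᵐ t ∂(volume.restrict E), f t = 0)
    (hpv : ∀ᵐ t ∂(volume.restrict E), Filter.Tendsto
      (fun δ : ℝ => pv f t δ + c * ∫ τ in Set.Iic t, ((Real.exp (ε * (τ - t)) : ℝ) : ℂ) * f τ)
            (nhdsWithin 0 (Set.Ioi 0)) (nhds 0)) :
    f =ᵐ[volume] 0 := by
  have hloc : LocallyIntegrable (fun τ => ‖f τ‖) := hf.norm.locallyIntegrable (by norm_num)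
  have hw0 : ∀ τ, 0 ≤ ‖f τ‖ := fun τ => norm_nonneg _
  have hgc : ∀ t, c * ∫ τ in Set.Iic t, ((Real.exp (ε * (τ - t)) : ℝ) : ℂ) * f τ =
      ((Real.exp (-(ε * t)) : ℝ) : ℂ) * gf f c ε t := by
    intro t
    unfold gf
    have h1 : ∫ τ in Set.Iic t, ((Real.exp (ε * (τ - t)) : ℝ) : ℂ) * f τ =
        ((Real.exp (-(ε * t)) : ℝ) : ℂ) * ∫ τ in Set.Iic t, ((Real.exp (ε * τ) : ℝ) : ℂ) * f τ := by
      rw [← integral_const_mul]
      congr 1
      ext τ
      rw [← mul_assoc, ← Complex.ofReal_mul, ← Real.exp_add]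
      congr 3
      ring_nf
    rw [h1]; ring
  -- Egorov
  have hae : ∀ᵐ x ∂(volume.restrict E), Tendsto
      (fun n : ℕ => (((2:ℝ) ^ n * Im (fun τ => ‖f τ‖) x ((1 / 2) ^ n), pv f x ((1 / 2) ^ n)) : ℝ × ℂ))
      atTop (𝓝 ((0 : ℝ), -(((Real.exp (-(ε * x)) : ℝ) : ℂ) * gf f c ε x))) := by
    have h1 := ae_restrict_of_ae (s := E) (Im_ae hloc hw0)
    filter_upwards [h1, hf0, hpv] with x hx1 hx2 hx3
    apply Tendsto.prodMk_nhds
    · apply hx1; rw [hx2, norm_zero]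
    · have h2 := (hx3.comp half_pow_tendsto).sub_const
        (((Real.exp (-(ε * x)) : ℝ) : ℂ) * gf f c ε x)
      rw [zero_sub] at h2
      refine h2.congr (fun n => ?_)
      simp only [Function.comp]
      rw [hgc]; ring
  obtain ⟨E₀, hE₀s, hE₀m, hE₀p, ⟨R, hR⟩, hu⟩ := egorov_pos
    (G := fun n x => (((2:ℝ) ^ n * Im (fun τ => ‖f τ‖) x ((1 / 2) ^ n), pv f x ((1 / 2) ^ n)) : ℝ × ℂ))
    (G' := fun x => (((0 : ℝ), -(((Real.exp (-(ε * x)) : ℝ) : ℂ) * gf f c ε x)) : ℝ × ℂ))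
    (fun n => (continuous_const.mul (Im_cont hloc (by positivity))).stronglyMeasurable.prodMk
      (pv_meas hfm _))
    (by
      have h1 := gf_cont hf c hε
      apply Continuous.stronglyMeasurable
      fun_prop) hE hpos hae
  rw [Metric.tendstoUniformlyOn_iff] at hu
  have hα : ∀ e : ℝ, 0 < e → ∃ N : ℕ, ∀ n ≥ N, ∀ x ∈ E₀,
      (2:ℝ) ^ n * Im (fun τ => ‖f τ‖) x ((1 / 2) ^ n) ≤ e := by
    intro e he
    obtain ⟨N, hN⟩ := eventually_atTop.mp (hu e he)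
    refine ⟨N, fun n hn x hx => ?_⟩
    have h1 := hN n hn x hx
    rw [dist_comm, Prod.dist_eq, max_lt_iff, Real.dist_eq, sub_zero] at h1
    exact (le_abs_self _).trans h1.1.le
  have hβ : ∀ e : ℝ, 0 < e → ∃ N : ℕ, ∀ n ≥ N, ∀ x ∈ E₀,
      ‖pv f x ((1 / 2) ^ n) + ((Real.exp (-(ε * x)) : ℝ) : ℂ) * gf f c ε x‖ ≤ e := by
    intro e he
    obtain ⟨N, hN⟩ := eventually_atTop.mp (hu e he)
    refine ⟨N, fun n hn x hx => ?_⟩
    have h1 := hN n hn x hx
    rw [dist_comm, Prod.dist_eq, max_lt_iff] at h1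
    have h2 := h1.2
    simp only [dist_eq_norm, sub_neg_eq_add] at h2
    exact h2.le
  have hmass := Im_unif hloc hw0 hα
  have hUC2 := phi_UC hf c hε hR (cau_UC hf hmass hβ)
  -- Lipschitz
  obtain ⟨r₀, hr₀, hr₀1, hm1⟩ := hmass 1 one_pos
  set A : ℝ := ‖c‖ * Real.exp (ε * R) with hA
  have hA0 : 0 ≤ A := by positivity
  have hlip0 : ∀ x ∈ E₀, ∀ t ∈ E₀, x ≤ t → t - x ≤ r₀ →
      ‖gf f c ε t - gf f c ε x‖ ≤ A * (t - x) := by
    intro x hx t ht hxt htr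
    rcases hxt.eq_or_lt with h | h
    · rw [h]; simp
    · have h1 := gf_lip hf c hε hxt (hR ht).2
      have h2 := hm1 x hx (t - x) (by linarith) htr
      refine h1.trans ?_
      rw [hA, mul_assoc]
      apply mul_le_mul_of_nonneg_left _ (norm_nonneg _)
      apply mul_le_mul_of_nonneg_left _ (Real.exp_pos _).le
      linarith
  have hlip : ∀ x ∈ E₀, ∀ t ∈ E₀, |t - x| ≤ r₀ →
      ‖gf f c ε t - gf f c ε x‖ ≤ A * |t - x| ^ (1:ℝ) := by
    intro x hx t ht htx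
    rw [Real.rpow_one]
    rcases le_total x t with h | h
    · rw [abs_of_nonneg (by linarith)] at htx ⊢
      exact hlip0 x hx t ht h htx
    · rw [norm_sub_rev]
      rw [abs_of_nonpos (by linarith)] at htx ⊢
      have := hlip0 t ht x hx h (by linarith)
      refine this.trans (le_of_eq (by ring))
  -- first propagation
  obtain ⟨E₁, hE₁s, hE₁m, hE₁p, hD1⟩ := exists_dens hE₀m hE₀p
  obtain ⟨C₁, hC₁, δ₁, hδ₁, hp1⟩ := propagate2 hf hE₀m hE₁s hUC2 one_pos hA0 hr₀ hlip hD1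
  rw [one_mul] at hp1
  -- rectangle
  set r₁ := min (min δ₁ r₀) 1 with hr₁
  have hr₁0 : 0 < r₁ := lt_min (lt_min hδ₁ hr₀) one_pos
  set A₂ : ℝ := ‖c‖ * (6 * C₁ + 2 * A) with hA₂
  have hA₂0 : 0 ≤ A₂ := by positivity
  have hhol0 : ∀ x ∈ E₁, ∀ t ∈ E₁, x ≤ t → t - x ≤ r₁ →
      ‖gf f c ε t - gf f c ε x‖ ≤ A₂ * (t - x) ^ (7 / 4 : ℝ) := by
    intro x hx t ht hxt htr
    rcases hxt.eq_or_lt with h | h
    · rw [h]; simp [Real.zero_rpow]
    have hr : 0 < t - x := by linarith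
    have hrδ : t - x ≤ δ₁ := htr.trans ((min_le_left _ _).trans (min_le_left _ _))
    have hrr : t - x ≤ r₀ := htr.trans ((min_le_left _ _).trans (min_le_right _ _))
    have hr1 : t - x ≤ 1 := htr.trans (min_le_right _ _)
    have hDD := hlip0 x (hE₁s hx) t (hE₁s ht) hxt hrr
    have hest : ∀ y : ℝ, 0 < y → y < t - x →
        ‖∫ s in x..t, (phi f ε (s + y * I) - phi f ε (s - y * I))‖ ≤
        (6 * (C₁ * (t - x) ^ (3 / 4 : ℝ)) + 2 * (A * (t - x))) * (t - x) := by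
      intro y hy hyr
      apply rect_est hf ε h hy hyr hDD
      · intro z hz hz' hzx _ _
        refine (hp1 x hx z hz (hz'.trans hrδ) hzx).trans ?_
        apply mul_le_mul_of_nonneg_left _ hC₁
        exact Real.rpow_le_rpow hz.le hz' (by norm_num)
      · intro z hz hz' hzt
        refine (hp1 t ht z hz (hz'.trans hrδ) (by rw [hzt, sub_self, abs_zero]; positivity)).trans ?_
        apply mul_le_mul_of_nonneg_left _ hC₁
        exact Real.rpow_le_rpow hz.le hz' (by norm_num)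
    have hlim := (jump_lim hfm hf hε hxt).norm
    have hle := le_of_tendsto hlim (by
      filter_upwards [Ioo_mem_nhdsGT hr] with y hy
      exact hest y hy.1 hy.2)
    have hn : ‖(2 : ℂ) * Real.pi * I‖ = 2 * Real.pi := by
      rw [norm_mul, Complex.norm_I, mul_one, norm_mul, Complex.norm_real, Real.norm_of_nonneg Real.pi_pos.le]
      norm_num
    rw [norm_mul, hn] at hle
    set J := ‖∫ s in x..t, ((Real.exp (ε * s) : ℝ) : ℂ) * f s‖ with hJ
    have hJ0 : 0 ≤ J := norm_nonneg _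
    have hJle : J ≤ (6 * (C₁ * (t - x) ^ (3 / 4 : ℝ)) + 2 * (A * (t - x))) * (t - x) := by
      have := Real.pi_gt_three
      nlinarith
    have hpow : (t - x) ^ (7 / 4 : ℝ) = (t - x) ^ (3 / 4 : ℝ) * (t - x) := by
      rw [show (7 / 4 : ℝ) = 3 / 4 + 1 by norm_num, Real.rpow_add_one hr.ne']
    have hpow2 : (t - x) ≤ (t - x) ^ (3 / 4 : ℝ) := by
      have := Real.rpow_le_rpow_of_exponent_ge hr hr1 (show (3 / 4 : ℝ) ≤ 1 by norm_num)
      rwa [Real.rpow_one] at this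
    rw [gf_sub hf c hε, norm_mul, hA₂, mul_assoc]
    apply mul_le_mul_of_nonneg_left _ (norm_nonneg _)
    refine hJle.trans ?_
    rw [hpow]
    have h5 : 2 * (A * (t - x)) ≤ 2 * (A * (t - x) ^ (3 / 4 : ℝ)) := by
      have := mul_le_mul_of_nonneg_left hpow2 hA0
      linarith
    have h6 : (6 * (C₁ * (t - x) ^ (3 / 4 : ℝ)) + 2 * (A * (t - x))) * (t - x) ≤
        (6 * (C₁ * (t - x) ^ (3 / 4 : ℝ)) + 2 * (A * (t - x) ^ (3 / 4 : ℝ))) * (t - x) :=
      mul_le_mul_of_nonneg_right (by linarith) hr.le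
    refine h6.trans (le_of_eq ?_)
    ring
  have hhol : ∀ x ∈ E₁, ∀ t ∈ E₁, |t - x| ≤ r₁ →
      ‖gf f c ε t - gf f c ε x‖ ≤ A₂ * |t - x| ^ (7 / 4 : ℝ) := by
    intro x hx t ht htx
    rcases le_total x t with h | h
    · rw [abs_of_nonneg (by linarith)] at htx ⊢
      exact hhol0 x hx t ht h htx
    · rw [norm_sub_rev]
      rw [abs_of_nonpos (by linarith)] at htx ⊢
      have := hhol0 t ht x hx h (by linarith)
      refine this.trans (le_of_eq ?_)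
      congr 2; ring
  -- second propagation
  obtain ⟨E₂, hE₂s, hE₂m, hE₂p, hD2⟩ := exists_dens hE₁m hE₁p
  have hUC2' : ∀ e : ℝ, 0 < e → ∃ δ : ℝ, 0 < δ ∧ ∀ x ∈ E₁, ∀ z : ℂ, 0 < |z.im| → |z.im| ≤ δ →
      |z.re - x| ≤ 7 * |z.im| → ‖phi f ε z - gf f c ε x‖ ≤ e := by
    intro e he
    obtain ⟨δ, hδ, h⟩ := hUC2 e he
    exact ⟨δ, hδ, fun x hx => h x (hE₁s hx)⟩
  obtain ⟨C₂, hC₂, δ₂, hδ₂, hp2⟩ := propagate2 hf hE₁m hE₂s hUC2' (β := 7 / 4) (by norm_num) hA₂0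
    hr₁0 hhol hD2
  obtain ⟨E₃, hE₃s, hE₃m, hE₃p, hD3⟩ := exists_dens hE₂m hE₂p
  have hne : E₃.Nonempty := by
    rw [Set.nonempty_iff_ne_empty]
    rintro h; rw [h] at hE₃p; simp at hE₃p
  have hz1 : ∀ z : ℂ, 0 < z.im → cau f z = 0 := by
    apply half_zero hf hε hE₂m hE₃s hne hD3 (g := gf f c ε) (C := C₂) (δ := δ₂)
      (p := 7 / 4 * (3 / 4)) (by norm_num) hC₂ hδ₂
    intro x hx z hz hzδ hzx
    have := hp2 x hx z (abs_pos.mpr hz.ne')
    rw [abs_of_pos hz] at this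
    exact this hzδ hzx
  have hz2 : ∀ z : ℂ, 0 < z.im → cau (fun τ => (starRingEnd ℂ) (f τ)) z = 0 := by
    apply half_zero (conj_memLp hf) hε hE₂m hE₃s hne hD3
      (g := fun t => (starRingEnd ℂ) (gf f c ε t)) (C := C₂) (δ := δ₂)
      (p := 7 / 4 * (3 / 4)) (by norm_num) hC₂ hδ₂
    intro x hx z hz hzδ hzx
    have := hp2 x hx ((starRingEnd ℂ) z)
    rw [phi_conj, norm_conj_sub] at this
    simp only [Complex.conj_im, Complex.conj_re, abs_neg] at this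
    rw [abs_of_pos hz] at this
    exact this hz hzδ hzx
  have hz3 : ∀ z : ℂ, z.im ≠ 0 → phi f ε z = 0 := by
    intro z hz
    rcases lt_or_gt_of_ne hz with h | h
    · have h1 := cau_conj f ((starRingEnd ℂ) z)
      rw [Complex.conj_conj, hz2 _ (by simpa using h), map_zero] at h1
      unfold phi; rw [h1, mul_zero]
    · unfold phi; rw [hz1 z h, mul_zero]
  apply ae_zero_of_windows hf (ε := ε)
  intro x t hxt
  have h1 := jump_lim hfm hf hε hxt
  have h2 : ∀ᶠ y : ℝ in 𝓝[>] (0:ℝ),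
      ∫ s in x..t, (phi f ε (s + y * I) - phi f ε (s - y * I)) = 0 := by
    filter_upwards [self_mem_nhdsWithin] with y hy
    have hy0 : (0:ℝ) < y := hy
    have : ∀ s : ℝ, phi f ε (s + y * I) - phi f ε (s - y * I) = 0 := by
      intro s
      rw [hz3 _ (by simp [hy0.ne']), hz3 _ (by simp [hy0.ne']), sub_zero]
    simp [this]
  have h3 := tendsto_nhds_unique (h1.congr' h2) tendsto_const_nhds
  have h4 : (2 : ℂ) * Real.pi * I ≠ 0 := by
    simp [Real.pi_ne_zero]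
  exact (mul_eq_zero.mp h3).resolve_left h4

end Pool.Agent.Helper66.Unq
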